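import Pool.Agent.H27.OTC.Gap

/-!
Job OTC-D-STR: the local functional `gS` of the stretch between two consecutive candidates.
-/

set_option autoImplicit false

open MeasureTheory ProbabilityTheory
open scoped ENNReal

namespace Pool.Agent.H27.OTC

open Pool.Agent.H96.OT (Pl)

/-- `y i` is matched to `x i` in the strictly optimal matching for the parabolic cost -/
def StrictOpt {m : ℕ} (x y : Fin m → Pl) : Prop :=
  ∀ σ : Equiv.Perm (Fin m), σ ≠ 1 → ∑ i, par (x i) (y i) < ∑ i, par (x i) (y (σ i))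

/-- the sum of `φ` over the strictly optimal matching of the configuration (`0` if there is
none) -/
noncomputable def optVal (φ : ℝ × ℝ → ℝ) (c : Conf) : ℝ :=
  sSup {t | ∃ (m : ℕ) (x y : Fin m → Pl), cfg x = c.X ∧ cfg y = c.Y ∧ StrictOpt x y ∧
    t = ∑ i, φ ((x i).1, (y i).1)}

theorem card_cfg {m : ℕ} (x : Fin m → Pl) : (cfg x).card = m := by
  simp [cfg]

theorem cfg_comp_perm {m : ℕ} (x : Fin m → Pl) (ρ : Equiv.Perm (Fin m)) :
    cfg (fun i => x (ρ i)) = cfg x := by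
  unfold cfg
  have h : (Finset.univ : Finset (Fin m)).val.map ρ = (Finset.univ : Finset (Fin m)).val := by
    have := Finset.map_univ_equiv ρ
    rw [← Finset.val_inj, Finset.map_val] at this
    exact this
  conv_rhs => rw [← h]
  rw [Multiset.map_map]
  rfl

theorem exists_perm_of_cfg_eq {m : ℕ} {x x' : Fin m → Pl} (h : cfg x' = cfg x) :
    ∃ ρ : Equiv.Perm (Fin m), ∀ i, x' i = x (ρ i) := by
  classical
  have hc : ∀ p : Pl, Nonempty ({i // x' i = p} ≃ {i // x i = p}) := by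
    intro p
    rw [← Fintype.card_eq, Fintype.card_subtype, Fintype.card_subtype]
    have h1 := congrArg (Multiset.count p) h
    unfold cfg at h1
    rw [Multiset.count_map, Multiset.count_map] at h1
    have h2 : ∀ z : Fin m → Pl, (Finset.univ.filter (fun i => z i = p)).card =
        (Multiset.filter (fun i => p = z i) (Finset.univ : Finset (Fin m)).val).card := by
      intro z
      rw [Finset.card_def, Finset.filter_val]
      congr 1
      apply Multiset.filter_congr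
      intro i _
      exact eq_comm
    rw [h2, h2]
    exact h1
  refine ⟨Equiv.ofFiberEquiv (f := x') (g := x) (fun p => (hc p).some), fun i => ?_⟩
  exact (Equiv.ofFiberEquiv_map _ i).symm

/-- two strictly optimal enumerations of the same configurations are the same matching -/
theorem strictOpt_perm {m : ℕ} {x y : Fin m → Pl} {ρ ρ' : Equiv.Perm (Fin m)}
    (h : StrictOpt (fun i => x (ρ i)) (fun i => y (ρ' i))) :
    StrictOpt x (fun i => y ((ρ' * ρ⁻¹) i)) := by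
  intro σ hσ
  have h1 := h (ρ⁻¹ * σ * ρ) (by
    intro h2
    apply hσ
    have : σ = ρ * (ρ⁻¹ * σ * ρ) * ρ⁻¹ := by group
    rw [this, h2]
    group)
  have e1 : ∑ i, par (x i) (y ((ρ' * ρ⁻¹) i)) = ∑ i, par (x (ρ i)) (y (ρ' i)) := by
    rw [← Equiv.sum_comp ρ]
    apply Finset.sum_congr rfl
    intro i _
    simp
  have e2 : ∑ i, par (x i) (y ((ρ' * ρ⁻¹) (σ i))) =
      ∑ i, par (x (ρ i)) (y (ρ' ((ρ⁻¹ * σ * ρ) i))) := by
    rw [← Equiv.sum_comp ρ]
    apply Finset.sum_congr rfl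
    intro i _
    simp
  rw [e1, e2]
  exact h1

theorem strictOpt_unique {m : ℕ} {x y : Fin m → Pl} {σ σ' : Equiv.Perm (Fin m)}
    (h : StrictOpt x (fun i => y (σ i))) (h' : StrictOpt x (fun i => y (σ' i))) : σ = σ' := by
  by_contra hne
  have h1 := h (σ⁻¹ * σ') (by
    intro h2
    apply hne
    have : σ' = σ * (σ⁻¹ * σ') := by group
    rw [this, h2, mul_one])
  have h2 := h' (σ'⁻¹ * σ) (by
    intro h2
    apply hne
    have : σ = σ' * (σ'⁻¹ * σ) := by group
    rw [this, h2, mul_one])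
  have e1 : ∀ i, σ ((σ⁻¹ * σ') i) = σ' i := by
    intro i
    rw [← Equiv.Perm.mul_apply]
    congr 1
    group
  have e2 : ∀ i, σ' ((σ'⁻¹ * σ) i) = σ i := by
    intro i
    rw [← Equiv.Perm.mul_apply]
    congr 1
    group
  simp only [e1, e2] at h1 h2
  linarith

theorem optVal_eq (φ : ℝ × ℝ → ℝ) {m : ℕ} {x y : Fin m → Pl} (h : StrictOpt x y) :
    optVal φ ⟨cfg x, cfg y⟩ = ∑ i, φ ((x i).1, (y i).1) := by
  have hset : {t | ∃ (m' : ℕ) (x' y' : Fin m' → Pl), cfg x' = cfg x ∧ cfg y' = cfg y ∧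
      StrictOpt x' y' ∧ t = ∑ i, φ ((x' i).1, (y' i).1)} = {∑ i, φ ((x i).1, (y i).1)} := by
    ext t
    constructor
    · rintro ⟨m', x', y', hx, hy, hs, rfl⟩
      have hm : m' = m := by
        have := congrArg Multiset.card hx
        rwa [card_cfg, card_cfg] at this
      subst hm
      obtain ⟨ρ, hρ⟩ := exists_perm_of_cfg_eq hx
      obtain ⟨ρ', hρ'⟩ := exists_perm_of_cfg_eq hy
      have hx' : x' = fun i => x (ρ i) := funext hρ
      have hy' : y' = fun i => y (ρ' i) := funext hρ'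
      subst hx'
      subst hy'
      have h1 := strictOpt_perm hs
      have h2 : ρ' * ρ⁻¹ = 1 := strictOpt_unique h1 (σ' := 1) h
      have h3 : ρ' = ρ := by rwa [mul_inv_eq_one] at h2
      subst h3
      exact Equiv.sum_comp ρ' (fun i => φ ((x i).1, (y i).1))
    · rintro rfl
      exact ⟨m, x, y, rfl, rfl, h, rfl⟩
  show sSup {t | ∃ (m' : ℕ) (x' y' : Fin m' → Pl), cfg x' = cfg x ∧ cfg y' = cfg y ∧
      StrictOpt x' y' ∧ t = ∑ i, φ ((x' i).1, (y' i).1)} = _
  rw [hset, csSup_singleton]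

theorem optVal_nonneg {φ : ℝ × ℝ → ℝ} (hφ : ∀ z, 0 ≤ φ z) (c : Conf) : 0 ≤ optVal φ c := by
  apply Real.sSup_nonneg
  rintro t ⟨m, x, y, -, -, -, rfl⟩
  exact Finset.sum_nonneg (fun i _ => hφ _)

theorem optVal_le {φ : ℝ × ℝ → ℝ} (hφ : ∀ z, φ z ≤ 1) (hφ0 : ∀ z, 0 ≤ φ z) (c : Conf) :
    optVal φ c ≤ c.X.card := by
  apply Real.sSup_le
  · rintro t ⟨m, x, y, hx, -, -, rfl⟩
    rw [← hx, card_cfg]
    calc ∑ i : Fin m, φ ((x i).1, (y i).1) ≤ ∑ i : Fin m, (1 : ℝ) :=
          Finset.sum_le_sum (fun i _ => hφ _)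
      _ = m := by simp
  · positivity

open Classical in
theorem optVal_mk2 (φ : ℝ × ℝ → ℝ) {m : ℕ} (x y : Fin m → Pl) :
    optVal φ ⟨cfg x, cfg y⟩ = ∑ σ : Equiv.Perm (Fin m),
      if StrictOpt x (fun i => y (σ i)) then ∑ i, φ ((x i).1, (y (σ i)).1) else 0 := by
  by_cases h : ∃ σ : Equiv.Perm (Fin m), StrictOpt x (fun i => y (σ i))
  · obtain ⟨σ, hσ⟩ := h
    rw [Finset.sum_eq_single σ]
    · rw [if_pos hσ, ← optVal_eq φ hσ, cfg_comp_perm]
    · intro σ' _ hne
      rw [if_neg]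
      intro h'
      exact hne (strictOpt_unique h' hσ)
    · intro h'
      exact absurd (Finset.mem_univ σ) h'
  · rw [Finset.sum_eq_zero]
    · have hset : {t | ∃ (m' : ℕ) (x' y' : Fin m' → Pl), cfg x' = cfg x ∧ cfg y' = cfg y ∧
          StrictOpt x' y' ∧ t = ∑ i, φ ((x' i).1, (y' i).1)} = ∅ := by
        rw [Set.eq_empty_iff_forall_notMem]
        rintro t ⟨m', x', y', hx, hy, hs, rfl⟩
        have hm : m' = m := by
          have := congrArg Multiset.card hx
          rwa [card_cfg, card_cfg] at this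
        subst hm
        obtain ⟨ρ, hρ⟩ := exists_perm_of_cfg_eq hx
        obtain ⟨ρ', hρ'⟩ := exists_perm_of_cfg_eq hy
        have hx' : x' = fun i => x (ρ i) := funext hρ
        have hy' : y' = fun i => y (ρ' i) := funext hρ'
        subst hx'
        subst hy'
        exact h ⟨_, strictOpt_perm hs⟩
      show sSup {t | ∃ (m' : ℕ) (x' y' : Fin m' → Pl), cfg x' = cfg x ∧ cfg y' = cfg y ∧
          StrictOpt x' y' ∧ t = ∑ i, φ ((x' i).1, (y' i).1)} = _
      rw [hset, Real.sSup_empty]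
    · intro σ _
      rw [if_neg]
      intro h'
      exact h ⟨σ, h'⟩

theorem measurable_optVal {φ : ℝ × ℝ → ℝ} (hφ : Measurable φ) (hφ0 : ∀ z, 0 ≤ φ z) :
    Measurable (optVal φ) := by
  classical
  rw [measurable_conf]
  intro m m'
  by_cases hm : m' = m
  · subst hm
    have key : (fun p : (Fin m' → Pl) × (Fin m' → Pl) => optVal φ (mk2 m' m' p)) = fun p =>
        ∑ σ : Equiv.Perm (Fin m'),
          if StrictOpt p.1 (fun i => p.2 (σ i)) then ∑ i, φ ((p.1 i).1, (p.2 (σ i)).1) else 0 := by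
      funext p
      exact optVal_mk2 φ p.1 p.2
    rw [key]
    have h1 : ∀ i, Measurable (fun p : (Fin m' → Pl) × (Fin m' → Pl) => p.1 i) :=
      fun i => (measurable_pi_apply i).comp measurable_fst
    have h2 : ∀ i, Measurable (fun p : (Fin m' → Pl) × (Fin m' → Pl) => p.2 i) :=
      fun i => (measurable_pi_apply i).comp measurable_snd
    apply Finset.measurable_fun_sum
    intro σ _
    apply Measurable.ite
    · unfold StrictOpt
      simp only [Set.setOf_forall]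
      refine MeasurableSet.iInter fun τ => MeasurableSet.iInter fun _ => ?_
      apply measurableSet_lt
      · exact Finset.measurable_fun_sum _ fun i _ => measurable_par (h1 i) (h2 _)
      · exact Finset.measurable_fun_sum _ fun i _ => measurable_par (h1 i) (h2 _)
    · exact Finset.measurable_fun_sum _ fun i _ => hφ.comp ((h1 i).fst.prodMk (h2 _).fst)
    · exact measurable_const
  · have key : (fun p : (Fin m → Pl) × (Fin m' → Pl) => optVal φ (mk2 m m' p)) = fun _ => 0 := by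
      funext p
      have hset : {t | ∃ (k : ℕ) (x' y' : Fin k → Pl), cfg x' = cfg p.1 ∧ cfg y' = cfg p.2 ∧
          StrictOpt x' y' ∧ t = ∑ i, φ ((x' i).1, (y' i).1)} = ∅ := by
        rw [Set.eq_empty_iff_forall_notMem]
        rintro t ⟨k, x', y', hx, hy, -, -⟩
        have e1 := congrArg Multiset.card hx
        have e2 := congrArg Multiset.card hy
        rw [card_cfg, card_cfg] at e1 e2
        omega
      show sSup {t | ∃ (k : ℕ) (x' y' : Fin k → Pl), cfg x' = cfg p.1 ∧ cfg y' = cfg p.2 ∧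
          StrictOpt x' y' ∧ t = ∑ i, φ ((x' i).1, (y' i).1)} = _
      rw [hset, Real.sSup_empty]
    rw [key]
    exact measurable_const

/-- the points in the stretch between the cut line of the candidate `0` and the cut line of the
candidate `l` -/
noncomputable def strc (K : ℕ) (c : Conf) (l : ℕ) : Conf :=
  c.filt (above (K, K) ∩ below (cutL K (st c l)))

/-- `l` is the first candidate after `0`, and the imbalances up to `l` are at most `A` -/
def IsNext (K : ℕ) (τ₁ : ℝ) (A : ℕ) (c : Conf) (l : ℕ) : Prop :=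
  Pat K τ₁ c ∧ Cand K τ₁ c l ∧ (∀ j, 1 ≤ j → j < l → ¬ Cand K τ₁ c j) ∧ ∀ j ≤ l, |im c j| ≤ A

/-- height of the window -/
def bw (K L A : ℕ) : ℕ := L * (1 + A) + 2 * K

open Classical in
/-- the stretch functional -/
noncomputable def gS (K : ℕ) (τ₁ : ℝ) (L A N : ℕ) (φ : ℝ × ℝ → ℝ) (c : Conf) : ℝ≥0∞ :=
  if c.nX (win (bw K L A : ℕ)) ≤ N ∧ c.nY (win (bw K L A : ℕ)) ≤ N then
    ∑ l ∈ Finset.Icc 1 L, (if IsNext K τ₁ A (c.filt (win (bw K L A : ℕ))) l then
      ENNReal.ofReal (optVal φ (strc K (c.filt (win (bw K L A : ℕ))) l)) else 0)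
  else 0

/-! #### auxiliary lemmas for the stretch functional -/

theorem measurable_strc (K l : ℕ) : Measurable (fun c => strc K c l) :=
  measurable_stCases l (fun ℓ c => c.filt (above (K, K) ∩ below (cutL K ℓ))) fun _ =>
    measurable_filt ((measurableSet_above _).inter (measurableSet_below _))

theorem measurableSet_isNext (K : ℕ) (τ₁ : ℝ) (A l : ℕ) :
    MeasurableSet {c | IsNext K τ₁ A c l} := by
  have h : {c | IsNext K τ₁ A c l} = {c | Pat K τ₁ c} ∩ ({c | Cand K τ₁ c l} ∩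
      ((⋂ j : ℕ, ⋂ _ : 1 ≤ j, ⋂ _ : j < l, {c | Cand K τ₁ c j}ᶜ) ∩
        ⋂ j : ℕ, ⋂ _ : j ≤ l, {c | |im c j| ≤ (A : ℤ)})) := by
    ext c
    simp only [IsNext, Set.mem_inter_iff, Set.mem_iInter, Set.mem_compl_iff, Set.mem_ofPred_eq]
  rw [h]
  refine (measurableSet_pat K τ₁).inter ((measurableSet_cand K τ₁ l).inter (MeasurableSet.inter ?_ ?_))
  · exact MeasurableSet.iInter fun j => MeasurableSet.iInter fun _ => MeasurableSet.iInter fun _ =>
      (measurableSet_cand K τ₁ j).compl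
  · refine MeasurableSet.iInter fun j => MeasurableSet.iInter fun _ => ?_
    have : {c : Conf | |im c j| ≤ (A : ℤ)} = (fun c => im c j) ⁻¹' {i : ℤ | |i| ≤ (A : ℤ)} := rfl
    rw [this]
    exact measurable_im j (MeasurableSet.of_discrete)

theorem strc_card_le (K : ℕ) (B : ℝ) (c : Conf) (l : ℕ) :
    (strc K (c.filt (win B)) l).X.card ≤ c.nX (win B) := by
  have h : (strc K (c.filt (win B)) l).X.card =
      (c.filt (win B)).nX (above (K, K) ∩ below (cutL K (st (c.filt (win B)) l))) := rfl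
  rw [h, nX_filt]
  exact nX_mono Set.inter_subset_left c

theorem isNext_unique' {K : ℕ} {τ₁ : ℝ} {A : ℕ} {c : Conf} {l l' : ℕ} (h : IsNext K τ₁ A c l)
    (h' : IsNext K τ₁ A c l') (hl : 1 ≤ l) (hl' : 1 ≤ l') : l = l' := by
  rcases lt_trichotomy l l' with h1 | h1 | h1
  · exact absurd h.2.1 (h'.2.2.1 l hl h1)
  · exact h1
  · exact absurd h'.2.1 (h.2.2.1 l' hl' h1)

theorem gS_sum_le (K : ℕ) (τ₁ : ℝ) (L A : ℕ) {φ : ℝ × ℝ → ℝ} {c : Conf} {t : ℝ≥0∞}
    (h : ∀ l, ENNReal.ofReal (optVal φ (strc K c l)) ≤ t) {P : ℕ → Prop} {_ : DecidablePred P}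
    (hP : ∀ l, P l → IsNext K τ₁ A c l) :
    ∑ l ∈ Finset.Icc 1 L, (if P l then ENNReal.ofReal (optVal φ (strc K c l)) else 0) ≤ t := by
  by_cases hex : ∃ l ∈ Finset.Icc 1 L, P l
  · obtain ⟨l, hl, hn⟩ := hex
    rw [Finset.sum_eq_single_of_mem l hl, if_pos hn]
    · exact h l
    · intro l' hl' hne
      rw [if_neg]
      intro hn'
      exact hne (isNext_unique' (hP l' hn') (hP l hn) (Finset.mem_Icc.1 hl').1
        (Finset.mem_Icc.1 hl).1)
  · push Not at hex
    rw [Finset.sum_eq_zero]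
    · exact zero_le
    · intro l hl
      rw [if_neg (hex l hl)]

theorem winFun_gS (K : ℕ) (τ₁ : ℝ) (L A : ℕ) {N : ℕ} (hN : 0 < N) {φ : ℝ × ℝ → ℝ}
    (hφ : Measurable φ) (hφ0 : ∀ z, 0 ≤ φ z) (hφ1 : ∀ z, φ z ≤ 1) :
    WinFun N (bw K L A : ℕ) N (gS K τ₁ L A N φ) := by
  classical
  have hW := measurableSet_win ((bw K L A : ℕ) : ℝ)
  refine ⟨?_, ?_, ?_, ?_⟩
  · unfold gS
    refine Measurable.ite ?_ ?_ measurable_const
    · exact MeasurableSet.inter ((measurable_nX hW) (MeasurableSet.of_discrete (s := {k | k ≤ N})))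
        ((measurable_nY hW) (MeasurableSet.of_discrete (s := {k | k ≤ N})))
    · refine Finset.measurable_sum _ fun l _ => ?_
      refine Measurable.ite ?_ ?_ measurable_const
      · exact (measurable_filt hW) (measurableSet_isNext K τ₁ A l)
      · exact ENNReal.measurable_ofReal.comp
          ((measurable_optVal hφ hφ0).comp ((measurable_strc K l).comp (measurable_filt hW)))
  · intro c
    unfold gS
    split_ifs with h
    · refine gS_sum_le K τ₁ L A (fun l => ?_) (fun l hl => hl)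
      refine ENNReal.ofReal_le_ofReal ((optVal_le hφ1 hφ0 _).trans ?_)
      exact_mod_cast (strc_card_le K _ c l).trans h.1
    · exact zero_le
  · intro c
    have h1 : (c.filt (win ((bw K L A : ℕ) : ℝ))).filt (win ((bw K L A : ℕ) : ℝ)) =
        c.filt (win ((bw K L A : ℕ) : ℝ)) := by
      rw [filt_filt, Set.inter_self]
    unfold gS
    rw [nX_filt, nY_filt, Set.inter_self, h1]
  · intro c hc
    unfold gS
    rw [if_neg]
    intro h
    omega

/-! #### auxiliary lemmas for the truncation -/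

theorem pat_congr {K : ℕ} {τ₁ : ℝ} {d d' : Conf}
    (hX : ∀ S : Set Pl, (∀ p ∈ S, p.2 ≤ 2 * K) → d.nX S = d'.nX S)
    (hY : ∀ S : Set Pl, (∀ p ∈ S, p.2 ≤ 2 * K) → d.nY S = d'.nY S) :
    Pat K τ₁ d ↔ Pat K τ₁ d' := by
  unfold Pat
  refine forall_congr' fun j => forall_congr' fun hj => ?_
  have hj' : (j : ℝ) + 1 ≤ 2 * K := by exact_mod_cast hj
  rw [hX _ fun p hp => le_trans hp.2 hj',
    hX _ fun p hp => le_trans hp.2.2 (by linarith : (j : ℝ) + 3 / 4 ≤ 2 * K),
    hY _ fun p hp => le_trans hp.2 hj',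
    hY _ fun p hp => le_trans hp.2.2 (by linarith : (j : ℝ) + 3 / 4 ≤ 2 * K)]

theorem st_le_of_im {A : ℕ} {d : Conf} {l : ℕ} (h : ∀ j ≤ l, |im d j| ≤ (A : ℤ)) {j : ℕ}
    (hj : j ≤ l) : (st d j).1 ≤ j * (1 + A) ∧ (st d j).2 ≤ j * (1 + A) := by
  induction j with
  | zero => exact ⟨Nat.zero_le _, Nat.zero_le _⟩
  | succ j ih =>
    obtain ⟨h1, h2⟩ := ih (by omega)
    have h3 := h j (by omega)
    rw [st_succ]
    unfold nextL
    rw [abs_le] at h3
    have h4 : (j + 1) * (1 + A) = j * (1 + A) + (1 + A) := by ring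
    simp only
    rw [h4]
    constructor <;> omega

theorem below_sub_of_le {ℓ : ℕ × ℕ} {M : ℕ} (h1 : ℓ.1 ≤ M) (h2 : ℓ.2 ≤ M) {b : ℝ}
    (hb : (M : ℝ) ≤ b) : below ℓ ⊆ {p : Pl | p.2 ≤ b} := by
  intro p hp
  have h3 : lam ℓ p.1 ≤ lam (M, M) p.1 := lam_mono ⟨h1, h2⟩ _
  rw [lam_diag] at h3
  exact le_trans hp (h3.trans hb)

theorem bw_le {K L A l : ℕ} (hl : l ≤ L) : ((l * (1 + A) : ℕ) : ℝ) + 2 * K ≤ ((bw K L A : ℕ) : ℝ) := by
  have : l * (1 + A) + 2 * K ≤ bw K L A := by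
    unfold bw
    have := Nat.mul_le_mul_right (1 + A) hl
    omega
  exact_mod_cast this

/-- the common part: if the lines agree and are low, everything agrees -/
theorem isNext_congr {K : ℕ} {τ₁ : ℝ} {A : ℕ} {c : Conf} {l : ℕ} {b : ℝ}
    (hb : ((l * (1 + A) : ℕ) : ℝ) + 2 * K ≤ b)
    (hst : ∀ j ≤ l, st (c.filt {p | p.2 ≤ b}) j = st c j)
    (hle : ∀ j ≤ l, (st c j).1 ≤ l * (1 + A) ∧ (st c j).2 ≤ l * (1 + A)) :
    (IsNext K τ₁ A (c.filt {p | p.2 ≤ b}) l ↔ IsNext K τ₁ A c l) := by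
  have hK : (0 : ℝ) ≤ 2 * K := by positivity
  have hsub : ∀ j ≤ l, below (st c j) ⊆ {p : Pl | p.2 ≤ b} := fun j hj =>
    below_sub_of_le (hle j hj).1 (hle j hj).2 (by linarith)
  have him : ∀ j ≤ l, im (c.filt {p | p.2 ≤ b}) j = im c j := by
    intro j hj
    unfold im
    rw [hst j hj, imb_filt (hsub j hj)]
  have hpat : ∀ j ≤ l, (Pat K τ₁ (uc (c.filt {p | p.2 ≤ b}) j) ↔ Pat K τ₁ (uc c j)) := by
    intro j hj
    have hS : ∀ S : Set Pl, (∀ p ∈ S, p.2 ≤ 2 * K) →
        {p : Pl | p.2 ≤ b} ∩ (above (st c j) ∩ shift (st c j) ⁻¹' S) =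
          above (st c j) ∩ shift (st c j) ⁻¹' S := by
      intro S hS
      refine Set.inter_eq_self_of_subset_right fun p hp => ?_
      have h1 : p.2 - lam (st c j) p.1 ≤ 2 * K := hS _ hp.2
      have h2 : lam (st c j) p.1 ≤ lam (l * (1 + A), l * (1 + A)) p.1 :=
        lam_mono ⟨(hle j hj).1, (hle j hj).2⟩ _
      rw [lam_diag] at h2
      show p.2 ≤ b
      linarith
    unfold uc
    rw [hst j hj]
    refine pat_congr (fun S h => ?_) (fun S h => ?_)
    · rw [nX_up, nX_up, nX_filt, hS S h]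
    · rw [nY_up, nY_up, nY_filt, hS S h]
  have hcand : ∀ j ≤ l, (Cand K τ₁ (c.filt {p | p.2 ≤ b}) j ↔ Cand K τ₁ c j) := by
    intro j hj
    unfold Cand
    rw [him j hj, hpat j hj]
  have hpat0 : Pat K τ₁ (c.filt {p | p.2 ≤ b}) ↔ Pat K τ₁ c := by
    have hS : ∀ S : Set Pl, (∀ p ∈ S, p.2 ≤ 2 * K) → {p : Pl | p.2 ≤ b} ∩ S = S := by
      intro S hS
      refine Set.inter_eq_self_of_subset_right fun p hp => ?_
      have h1 := hS p hp
      have h2 : (0 : ℝ) ≤ ((l * (1 + A) : ℕ) : ℝ) := Nat.cast_nonneg _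
      show p.2 ≤ b
      linarith
    refine pat_congr (fun S h => ?_) (fun S h => ?_)
    · rw [nX_filt, hS S h]
    · rw [nY_filt, hS S h]
  unfold IsNext
  rw [hpat0, hcand l le_rfl]
  refine and_congr_right fun _ => and_congr_right fun _ => and_congr ?_ ?_
  · refine forall_congr' fun j => forall_congr' fun _ => forall_congr' fun hj => ?_
    rw [hcand j hj.le]
  · refine forall_congr' fun j => forall_congr' fun hj => ?_
    rw [him j hj]

theorem filt_win_eq {c : Conf} (hc : c.filt {p | 0 < p.2} = c) (b : ℝ) :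
    c.filt (win b) = c.filt {p | p.2 ≤ b} := by
  conv_rhs => rw [← hc]
  rw [filt_filt]
  rfl

/-- truncation to the window does not matter -/
theorem isNext_trunc {K : ℕ} {τ₁ : ℝ} {L A : ℕ} {c : Conf} (hc : c.filt {p | 0 < p.2} = c)
    {l : ℕ} (hl : l ≤ L) :
    (IsNext K τ₁ A (c.filt (win (bw K L A : ℕ))) l ↔ IsNext K τ₁ A c l) ∧
      (IsNext K τ₁ A c l → strc K (c.filt (win (bw K L A : ℕ))) l = strc K c l) := by
  have hb := bw_le (K := K) (A := A) hl
  have hK : (0 : ℝ) ≤ 2 * K := by positivity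
  rw [filt_win_eq hc]
  -- lines, starting from `c`
  have key1 : IsNext K τ₁ A c l →
      (∀ j ≤ l, st (c.filt {p | p.2 ≤ ((bw K L A : ℕ) : ℝ)}) j = st c j) ∧
        (∀ j ≤ l, (st c j).1 ≤ l * (1 + A) ∧ (st c j).2 ≤ l * (1 + A)) := by
    intro h
    have hle : ∀ j ≤ l, (st c j).1 ≤ l * (1 + A) ∧ (st c j).2 ≤ l * (1 + A) := by
      intro j hj
      obtain ⟨h1, h2⟩ := st_le_of_im h.2.2.2 hj
      have h3 := Nat.mul_le_mul_right (1 + A) hj
      exact ⟨h1.trans h3, h2.trans h3⟩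
    refine ⟨fun j hj => ?_, hle⟩
    exact ex_filt (k := l) (below_sub_of_le (hle l le_rfl).1 (hle l le_rfl).2 (by linarith)) hj
  have key2 : IsNext K τ₁ A (c.filt {p | p.2 ≤ ((bw K L A : ℕ) : ℝ)}) l →
      (∀ j ≤ l, st (c.filt {p | p.2 ≤ ((bw K L A : ℕ) : ℝ)}) j = st c j) ∧
        (∀ j ≤ l, (st c j).1 ≤ l * (1 + A) ∧ (st c j).2 ≤ l * (1 + A)) := by
    intro h
    have hle : ∀ j ≤ l, (st (c.filt {p | p.2 ≤ ((bw K L A : ℕ) : ℝ)}) j).1 ≤ l * (1 + A) ∧
        (st (c.filt {p | p.2 ≤ ((bw K L A : ℕ) : ℝ)}) j).2 ≤ l * (1 + A) := by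
      intro j hj
      obtain ⟨h1, h2⟩ := st_le_of_im h.2.2.2 hj
      have h3 := Nat.mul_le_mul_right (1 + A) hj
      exact ⟨h1.trans h3, h2.trans h3⟩
    have hst : ∀ j ≤ l, st (c.filt {p | p.2 ≤ ((bw K L A : ℕ) : ℝ)}) j = st c j := fun j hj =>
      ex_filt' (k := l) (below_sub_of_le (hle l le_rfl).1 (hle l le_rfl).2 (by linarith)) hj
    refine ⟨hst, fun j hj => ?_⟩
    rw [← hst j hj]
    exact hle j hj
  constructor
  · constructor
    · intro h
      exact (isNext_congr hb (key2 h).1 (key2 h).2).1 h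
    · intro h
      exact (isNext_congr hb (key1 h).1 (key1 h).2).2 h
  · intro h
    obtain ⟨h1, h2⟩ := key1 h
    unfold strc
    rw [h1 l le_rfl, filt_filt]
    congr 1
    refine Set.inter_eq_self_of_subset_right fun p hp => ?_
    have h3 : p.2 ≤ lam (cutL K (st c l)) p.1 := hp.2
    have h4 : lam (cutL K (st c l)) p.1 ≤ lam (l * (1 + A) + K, l * (1 + A) + K) p.1 := by
      refine lam_mono ⟨?_, ?_⟩ _
      · exact Nat.add_le_add_right (h2 l le_rfl).1 K
      · exact Nat.add_le_add_right (h2 l le_rfl).2 K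
    rw [lam_diag] at h4
    push_cast at h4 hb
    have hK' : (0 : ℝ) ≤ K := Nat.cast_nonneg _
    show p.2 ≤ ((bw K L A : ℕ) : ℝ)
    linarith

/-- there is at most one next candidate -/
theorem IsNext.unique {K : ℕ} {τ₁ : ℝ} {A : ℕ} {c : Conf} {l l' : ℕ} (h : IsNext K τ₁ A c l)
    (h' : IsNext K τ₁ A c l') (hl : 1 ≤ l) (hl' : 1 ≤ l') : l = l' := by
  rcases lt_trichotomy l l' with h1 | h1 | h1
  · exact absurd h.2.1 (h'.2.2.1 l hl h1)
  · exact h1
  · exact absurd h'.2.1 (h.2.2.1 l' hl' h1)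

/-- value of the functional -/
theorem gS_eq {K : ℕ} {τ₁ : ℝ} {L A N : ℕ} {φ : ℝ × ℝ → ℝ} {c : Conf}
    (hc : c.filt {p | 0 < p.2} = c) (hX : c.nX (win (bw K L A : ℕ)) ≤ N)
    (hY : c.nY (win (bw K L A : ℕ)) ≤ N) {l : ℕ} (hl1 : 1 ≤ l) (hl : l ≤ L)
    (h : IsNext K τ₁ A c l) : gS K τ₁ L A N φ c = ENNReal.ofReal (optVal φ (strc K c l)) := by
  classical
  unfold gS
  rw [if_pos ⟨hX, hY⟩, Finset.sum_eq_single_of_mem l (Finset.mem_Icc.2 ⟨hl1, hl⟩),
    if_pos ((isNext_trunc hc hl).1.2 h), (isNext_trunc hc hl).2 h]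
  intro l' hl' hne
  rw [if_neg]
  intro h'
  have hl'' := Finset.mem_Icc.1 hl'
  exact hne (IsNext.unique ((isNext_trunc hc hl''.2).1.1 h') h hl''.1 hl1)

theorem gS_ne_zero {K : ℕ} {τ₁ : ℝ} {L A N : ℕ} {φ : ℝ × ℝ → ℝ} {c : Conf}
    (hc : c.filt {p | 0 < p.2} = c) (h : gS K τ₁ L A N φ c ≠ 0) :
    ∃ l, 1 ≤ l ∧ l ≤ L ∧ IsNext K τ₁ A c l ∧
      gS K τ₁ L A N φ c = ENNReal.ofReal (optVal φ (strc K c l)) := by
  classical
  by_cases hN : c.nX (win (bw K L A : ℕ)) ≤ N ∧ c.nY (win (bw K L A : ℕ)) ≤ N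
  · have h1 := h
    unfold gS at h1
    rw [if_pos hN] at h1
    obtain ⟨l, hl, hne⟩ := Finset.exists_ne_zero_of_sum_ne_zero h1
    have hl' := Finset.mem_Icc.1 hl
    have hn : IsNext K τ₁ A (c.filt (win (bw K L A : ℕ))) l := by
      by_contra hcon
      rw [if_neg hcon] at hne
      exact hne rfl
    have hn' := (isNext_trunc hc hl'.2).1.1 hn
    exact ⟨l, hl'.1, hl'.2, hn', gS_eq hc hN.1 hN.2 hl'.1 hl'.2 hn'⟩
  · exfalso
    apply h
    unfold gS
    rw [if_neg hN]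

/-- the next candidate seen from a candidate -/
theorem isNext_uc {K : ℕ} {τ₁ : ℝ} {A : ℕ} {c : Conf} {k l : ℕ} (h : im c k = 0) :
    IsNext K τ₁ A (uc c k) l ↔ Cand K τ₁ c k ∧ Cand K τ₁ c (k + l) ∧
      (∀ j, k < j → j < k + l → ¬ Cand K τ₁ c j) ∧
      ∀ j, k ≤ j → j ≤ k + l → |im c j| ≤ A := by
  have him : ∀ j, im (uc c k) j = im c (k + j) := by
    intro j
    rw [im_add, h, zero_add]
    rfl
  unfold IsNext
  rw [cand_shift h]
  constructor
  · rintro ⟨h1, h2, h3, h4⟩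
    refine ⟨⟨h, h1⟩, h2, ?_, ?_⟩
    · intro j hj hj' hc
      obtain ⟨i, rfl⟩ := Nat.exists_eq_add_of_le hj.le
      exact h3 i (by omega) (by omega) ((cand_shift h i).2 hc)
    · intro j hj hj'
      obtain ⟨i, rfl⟩ := Nat.exists_eq_add_of_le hj
      rw [← him]
      exact h4 i (by omega)
  · rintro ⟨h1, h2, h3, h4⟩
    refine ⟨h1.2, h2, ?_, ?_⟩
    · intro j hj hj' hc
      exact h3 (k + j) (by omega) (by omega) ((cand_shift h j).1 hc)
    · intro j hj
      rw [him]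
      exact h4 (k + j) (by omega) (by omega)

end Pool.Agent.H27.OTC
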