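import Pool.Agent.H27.OTC.GlobL
import Pool.Agent.H27.OTC.Stretch

/-!
Definitions for the assembly.
-/

set_option autoImplicit false

open MeasureTheory ProbabilityTheory
open scoped ENNReal

namespace Pool.Agent.H27.OTC

open Pool.Agent.H96.OT (Pl)

/-- the number of doublings of `r₀` up to the scale `θ n / 8` -/
noncomputable def Jn (θ r₀ : ℝ) (n : ℕ) : ℕ := Nat.log 2 ⌊θ * n / (8 * r₀)⌋₊

/-- The step `m + K` is good: there are candidates in `(m - L, m]` and in `(m, m + L]`, all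
candidates in `(m - L, m + L]` are reliable, see few points and no almost ties, and the
imbalances in `(m - L, m + L]` are at most `A`. -/
def GoodM (K N L A N₁ : ℕ) (τ τ₁ δ r₀ ε₅ θ : ℝ) (n : ℕ) (c : Conf) (m : ℕ) : Prop :=
  (∃ k, m < k + L ∧ k ≤ m ∧ Cand K τ₁ c k) ∧ (∃ l, m < l ∧ l ≤ m + L ∧ Cand K τ₁ c l) ∧
  (∀ k, m < k + L → k ≤ m + L → Cand K τ₁ c k →
    Rel K N τ (δ / 16000) r₀ (Jn θ r₀ n) c k ∧
    (uc c k).nX (win (bw K (2 * L) A : ℕ)) ≤ N₁ ∧ (uc c k).nY (win (bw K (2 * L) A : ℕ)) ≤ N₁ ∧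
    GapAll ε₅ ((uc c k).filt (win (bw K (2 * L) A : ℕ)))) ∧
  ∀ i, m < i + L → i ≤ m + L → |im c i| ≤ A

/-- `i` lies in the step `j` -/
def InStep (c : Conf) (j : ℕ) (p : Pl) : Prop := p ∈ above (st c j) ∧ p ∈ below (st c (j + 1))

/-- number of `X` points which do not lie in a good step -/
noncomputable def badCount (K N L A N₁ : ℕ) (τ τ₁ δ r₀ ε₅ θ ρ : ℝ) (n : ℕ) (c : Conf) : ℕ :=
  c.nX {p | ¬ ∃ m, L ≤ m ∧ Alive n θ ρ c (m + L + 2 * K) ∧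
    GoodM K N L A N₁ τ τ₁ δ r₀ ε₅ θ n c m ∧ InStep c (m + K) p}

open Classical in
/-- the sum of the local functionals -/
noncomputable def locSum (K L A N₁ : ℕ) (τ₁ θ ρ : ℝ) (φ : ℝ × ℝ → ℝ) (ψ : ℝ → ℝ) (n : ℕ)
    (c : Conf) : ℝ :=
  ∑ k ∈ Finset.range n, if Alive n θ ρ c k ∧ im c k = 0 then
    ψ (((st c k).1 : ℝ) / n) * (gS K τ₁ (2 * L) A N₁ φ (uc c k)).toReal else 0

end Pool.Agent.H27.OTC
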