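import Pool.Agent.H27.OTC.AsmDefs

/-!
Job OTC-E-DET: comparison of the global sum with the sum of the local functionals.
-/

set_option autoImplicit false

open MeasureTheory ProbabilityTheory
open scoped ENNReal

namespace Pool.Agent.H27.OTC

open Pool.Agent.H96.OT (Pl)

/-! #### auxiliary lemmas for the stretches -/

/-- the stretch after the candidate `k`, in the coordinates of the whole configuration -/
theorem str_set (K : ℕ) (ℓ ℓ' : ℕ × ℕ) :
    above ℓ ∩ shift ℓ ⁻¹' (above (K, K) ∩ below (cutL K ℓ')) =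
      above (cutL K ℓ) ∩ below (cutL K (ℓ + ℓ')) := by
  ext p
  show (lam ℓ p.1 < p.2 ∧ (lam (K, K) p.1 < p.2 - lam ℓ p.1 ∧
      p.2 - lam ℓ p.1 ≤ lam (cutL K ℓ') p.1)) ↔
    (lam (cutL K ℓ) p.1 < p.2 ∧ p.2 ≤ lam (cutL K (ℓ + ℓ')) p.1)
  rw [lam_diag, lam_cutL, lam_cutL, lam_cutL, lam_add]
  have hK : (0 : ℝ) ≤ K := Nat.cast_nonneg K
  constructor
  · rintro ⟨h1, h2, h3⟩
    exact ⟨by linarith, by linarith⟩
  · rintro ⟨h1, h2⟩
    exact ⟨by linarith, by linarith, by linarith⟩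

theorem filt_mono_X {R R' : Set Pl} (h : R ⊆ R') (c : Conf) : (c.filt R).X ≤ (c.filt R').X := by
  classical
  unfold Conf.filt
  exact Multiset.monotone_filter_right _ fun p hp => h hp

theorem filt_mono_Y {R R' : Set Pl} (h : R ⊆ R') (c : Conf) : (c.filt R).Y ≤ (c.filt R').Y := by
  classical
  unfold Conf.filt
  exact Multiset.monotone_filter_right _ fun p hp => h hp

theorem st_add_zero {c : Conf} {k : ℕ} (hk : im c k = 0) (l : ℕ) :
    st c (k + l) = st c k + st (uc c k) l := by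
  rw [st_add, hk]
  rfl

/-- the stretch in relative coordinates -/
theorem strc_uc {K : ℕ} {c : Conf} {k : ℕ} (hk : im c k = 0) (l : ℕ) :
    strc K (uc c k) l = (c.filt (above (cutL K (st c k)) ∩
      below (cutL K (st c (k + l))))).mapC (shift (st c k)) := by
  rw [st_add_zero hk, ← str_set]
  show (up (st c k) c).filt (above (K, K) ∩ below (cutL K (st (uc c k) l))) = _
  unfold up
  rw [filt_mapC, filt_filt]

/-- the stretch lies in the window -/
theorem str_sub_win {K : ℕ} {τ₁ : ℝ} {L A : ℕ} {d : Conf} {l : ℕ} (hl : l ≤ L)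
    (h : IsNext K τ₁ A d l) :
    above (K, K) ∩ below (cutL K (st d l)) ⊆ win (bw K L A : ℕ) := by
  rintro p ⟨h1, h2⟩
  have h1' : lam (K, K) p.1 < p.2 := h1
  have h2' : p.2 ≤ lam (cutL K (st d l)) p.1 := h2
  rw [lam_diag] at h1'
  rw [lam_cutL] at h2'
  have hb := bw_le (K := K) (A := A) hl
  obtain ⟨h3, h4⟩ := st_le_of_im h.2.2.2 le_rfl
  have h5 : lam (st d l) p.1 ≤ lam (l * (1 + A), l * (1 + A)) p.1 := lam_mono ⟨h3, h4⟩ _
  rw [lam_diag] at h5
  have hK : (0 : ℝ) ≤ K := Nat.cast_nonneg K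
  exact ⟨by linarith, by linarith⟩

section enum

variable {n : ℕ} (E : Finset (Fin n))

/-- enumeration of a finset -/
noncomputable def enm (i : Fin E.card) : Fin n := (E.equivFin.symm i).1

theorem sum_enm (f : Fin n → ℝ) : ∑ i, f (enm E i) = ∑ i ∈ E, f i := by
  unfold enm
  rw [Equiv.sum_comp E.equivFin.symm (fun i : E => f i.1)]
  exact Finset.sum_coe_sort E f

theorem enm_mem (i : Fin E.card) : enm E i ∈ E := (E.equivFin.symm i).2

theorem map_enm : (Finset.univ : Finset (Fin E.card)).val.map (enm E) = E.val := by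
  have h : Finset.univ.map (E.equivFin.symm.toEmbedding.trans
      (Function.Embedding.subtype fun i => i ∈ E)) = E := by
    ext a
    simp only [Finset.mem_map, Finset.mem_univ, true_and]
    constructor
    · rintro ⟨i, rfl⟩
      exact (E.equivFin.symm i).2
    · intro ha
      refine ⟨E.equivFin ⟨a, ha⟩, ?_⟩
      simp
  conv_rhs => rw [← h]
  rw [Finset.map_val]
  rfl

theorem cfg_enm {α : Type} (f : Fin n → α) :
    (Finset.univ : Finset (Fin E.card)).val.map (fun i => f (enm E i)) = E.val.map f := by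
  conv_rhs => rw [← map_enm E, Multiset.map_map]
  rfl

theorem filt_cfg {w : Fin n → Pl} {R : Set Pl} {_ : DecidablePred fun p => p ∈ R}
    (hE : ∀ i, i ∈ E ↔ w i ∈ R) : Multiset.filter (fun p => p ∈ R) (cfg w) = E.val.map w := by
  unfold cfg
  rw [Multiset.filter_map, ← Finset.filter_val]
  congr 2
  ext i
  simp only [Finset.mem_filter, Finset.mem_univ, true_and, Function.comp]
  exact (hE i).symm

theorem filt_mk2 {x y : Fin n → Pl} {R : Set Pl} (hx : ∀ i, i ∈ E ↔ x i ∈ R)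
    (hy : ∀ i, i ∈ E ↔ y i ∈ R) : (mk2 n n (x, y)).filt R = ⟨E.val.map x, E.val.map y⟩ := by
  apply Conf.ext
  · exact filt_cfg E hx
  · exact filt_cfg E hy

/-- restriction of an optimal matching -/
theorem isOptM_enm {cost : Pl → Pl → ℝ} {x y : Fin n → Pl} (h : IsOptM cost x y) :
    IsOptM cost (fun i => x (enm E i)) (fun i => y (enm E i)) := by
  classical
  intro τ
  set σ : Equiv.Perm {i // i ∈ E} := E.equivFin.trans (τ.trans E.equivFin.symm) with hσ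
  have h1 := h (Equiv.Perm.ofSubtype σ)
  have hin : ∀ j, (Equiv.Perm.ofSubtype σ) (enm E j) = enm E (τ j) := by
    intro j
    rw [Equiv.Perm.ofSubtype_apply_of_mem σ (enm_mem E j)]
    show (E.equivFin.symm (τ (E.equivFin ⟨(E.equivFin.symm j).1, _⟩))).1 = _
    rw [Subtype.coe_eta, Equiv.apply_symm_apply]
    rfl
  have hout : ∀ i, i ∉ E → (Equiv.Perm.ofSubtype σ) i = i := fun i hi =>
    Equiv.Perm.ofSubtype_apply_of_not_mem σ hi
  rw [← Finset.sum_add_sum_compl E, ← Finset.sum_add_sum_compl E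
    (fun i => cost (x i) (y ((Equiv.Perm.ofSubtype σ) i)))] at h1
  have h2 : ∑ i ∈ Eᶜ, cost (x i) (y ((Equiv.Perm.ofSubtype σ) i)) = ∑ i ∈ Eᶜ, cost (x i) (y i) :=
    Finset.sum_congr rfl fun i hi => by rw [hout i (Finset.mem_compl.1 hi)]
  rw [h2] at h1
  have h3 := sum_enm E (fun i => cost (x i) (y i))
  have h4 := sum_enm E (fun i => cost (x i) (y ((Equiv.Perm.ofSubtype σ) i)))
  simp only [hin] at h4
  rw [h3, h4]
  linarith

end enum

/-- On a stretch between two consecutive candidates, whose cut lines are respected by the optimal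
matching, with few points and no almost ties, the functional `gS` is the sum of `φ` over the
matched pairs of the stretch. -/
theorem stretch_eq {cost : ℕ → Pl → Pl → ℝ} (hc : GoodCost cost) (K L A N₁ : ℕ) (τ₁ : ℝ)
    {ε₅ : ℝ} (hε₅ : 0 < ε₅) {φ : ℝ × ℝ → ℝ} (hφ0 : ∀ z, 0 ≤ φ z) (hφ1 : ∀ z, φ z ≤ 1) :
    ∃ n₀ : ℕ, ∀ n : ℕ, n₀ ≤ n → ∀ (x y : Fin n → Pl), InDom n x y → IsOptM (cost n) x y →
      ∀ k l : ℕ, 1 ≤ l → l ≤ L → im (mk2 n n (x, y)) k = 0 →
      |((st (mk2 n n (x, y)) k).2 : ℝ) - (st (mk2 n n (x, y)) k).1| ≤ n →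
      IsNext K τ₁ A (uc (mk2 n n (x, y)) k) l →
      (uc (mk2 n n (x, y)) k).nX (win (bw K L A : ℕ)) ≤ N₁ →
      (uc (mk2 n n (x, y)) k).nY (win (bw K L A : ℕ)) ≤ N₁ →
      GapAll ε₅ ((uc (mk2 n n (x, y)) k).filt (win (bw K L A : ℕ))) →
      (∀ i, x i ∈ below (cutL K (st (mk2 n n (x, y)) k)) ↔
        y i ∈ below (cutL K (st (mk2 n n (x, y)) k))) →
      (∀ i, x i ∈ below (cutL K (st (mk2 n n (x, y)) (k + l))) ↔
        y i ∈ below (cutL K (st (mk2 n n (x, y)) (k + l)))) →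
      ∀ E : Finset (Fin n), (∀ i, i ∈ E ↔ x i ∈ above (cutL K (st (mk2 n n (x, y)) k)) ∧
        x i ∈ below (cutL K (st (mk2 n n (x, y)) (k + l)))) →
      (gS K τ₁ L A N₁ φ (uc (mk2 n n (x, y)) k)).toReal = ∑ i ∈ E, φ ((x i).1, (y i).1) := by
  classical
  obtain ⟨n₀, hloc⟩ := hc.loc ((bw K L A : ℕ) : ℝ) N₁ ε₅ hε₅
  refine ⟨n₀, fun n hn x y hd ho k l hl1 hl hk hdiff hnext hX hY hgap hcut hcut' E hE => ?_⟩
  set c := mk2 n n (x, y) with hcdef
  set ℓ := st c k with hℓ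
  set R : Set Pl := above (K, K) ∩ below (cutL K (st (uc c k) l)) with hR
  have hRwin : R ⊆ win (bw K L A : ℕ) := str_sub_win hl hnext
  have hset : above ℓ ∩ shift ℓ ⁻¹' R = above (cutL K ℓ) ∩ below (cutL K (st c (k + l))) := by
    rw [st_add_zero hk, ← str_set]
  -- membership
  have hEx : ∀ i, i ∈ E ↔ x i ∈ above (cutL K ℓ) ∩ below (cutL K (st c (k + l))) := hE
  have hEy : ∀ i, i ∈ E ↔ y i ∈ above (cutL K ℓ) ∩ below (cutL K (st c (k + l))) := by
    intro i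
    rw [hEx]
    rw [above_eq]
    show (¬ x i ∈ below (cutL K ℓ)) ∧ x i ∈ below (cutL K (st c (k + l))) ↔
      (¬ y i ∈ below (cutL K ℓ)) ∧ y i ∈ below (cutL K (st c (k + l)))
    rw [hcut i, hcut' i]
  -- the stretch as an enumerated configuration
  have hstr : strc K (uc c k) l = ⟨cfg (fun i => shift ℓ (x (enm E i))),
      cfg (fun i => shift ℓ (y (enm E i)))⟩ := by
    rw [strc_uc hk, hcdef, filt_mk2 E hEx hEy]
    apply Conf.ext
    · show (E.val.map x).map (shift ℓ) = _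
      rw [Multiset.map_map]
      exact (cfg_enm E (fun i => shift ℓ (x i))).symm
    · show (E.val.map y).map (shift ℓ) = _
      rw [Multiset.map_map]
      exact (cfg_enm E (fun i => shift ℓ (y i))).symm
  -- the number of points
  have hcard : E.card ≤ N₁ := by
    refine le_trans ?_ hX
    have h1 : (uc c k).nX R ≤ (uc c k).nX (win (bw K L A : ℕ)) := nX_mono hRwin _
    refine le_trans ?_ h1
    show E.card ≤ (strc K (uc c k) l).X.card
    rw [hstr]
    show E.card ≤ (cfg fun i => shift ℓ (x (enm E i))).card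
    rw [card_cfg]
  have hcv := hloc n hn ℓ hdiff E.card hcard (fun i => x (enm E i)) (fun i => y (enm E i))
    (fun i => by
      have h1 := (hEx _).1 (enm_mem E i)
      rw [← hset] at h1
      obtain ⟨h2, h3⟩ := hRwin h1.2
      have h2' : 0 < (x (enm E i)).2 - lam ℓ (x (enm E i)).1 := h2
      have h3' : (x (enm E i)).2 - lam ℓ (x (enm E i)).1 ≤ ((bw K L A : ℕ) : ℝ) := h3
      exact ⟨(hd.x1 _).1, (hd.x1 _).2, by rw [abs_of_pos h2']; exact h3'⟩)
    (fun i => by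
      have h1 := (hEy _).1 (enm_mem E i)
      rw [← hset] at h1
      obtain ⟨h2, h3⟩ := hRwin h1.2
      have h2' : 0 < (y (enm E i)).2 - lam ℓ (y (enm E i)).1 := h2
      have h3' : (y (enm E i)).2 - lam ℓ (y (enm E i)).1 ≤ ((bw K L A : ℕ) : ℝ) := h3
      exact ⟨(hd.y1 _).1, (hd.y1 _).2, by rw [abs_of_pos h2']; exact h3'⟩)
    (isOptM_enm E ho)
  have hXle : cfg (fun i => shift ℓ (x (enm E i))) ≤
      ((uc c k).filt (win (bw K L A : ℕ))).X := by
    have h1 : (strc K (uc c k) l).X = cfg (fun i => shift ℓ (x (enm E i))) := by rw [hstr]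
    rw [← h1]
    exact filt_mono_X hRwin _
  have hYle : cfg (fun i => shift ℓ (y (enm E i))) ≤
      ((uc c k).filt (win (bw K L A : ℕ))).Y := by
    have h1 : (strc K (uc c k) l).Y = cfg (fun i => shift ℓ (y (enm E i))) := by rw [hstr]
    rw [← h1]
    exact filt_mono_Y hRwin _
  have hstrict : StrictOpt (fun i => shift ℓ (x (enm E i))) (fun i => shift ℓ (y (enm E i))) := by
    intro σ hσ
    have h1 := hgap E.card _ _ hXle hYle σ hσ
    have h2 := par_shift ℓ (fun i => x (enm E i)) (fun i => y (enm E i)) (fun i => hd.x1 _)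
      (fun i => hd.y1 _) σ
    have h3 := hcv σ
    rcases lt_or_ge (∑ i, par (shift ℓ (x (enm E i))) (shift ℓ (y (enm E i))) -
      ∑ i, par (shift ℓ (x (enm E i))) (shift ℓ (y (enm E (σ i))))) 0 with h4 | h4
    · linarith
    · rw [abs_of_nonneg h4] at h1
      linarith
  have hval : gS K τ₁ L A N₁ φ (uc c k) = ENNReal.ofReal (optVal φ (strc K (uc c k) l)) :=
    gS_eq (c := uc c k) (up_pos ℓ c) hX hY hl1 hl hnext
  rw [hval, ENNReal.toReal_ofReal (optVal_nonneg hφ0 _), hstr, optVal_eq φ hstrict]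
  exact sum_enm E (fun i => φ ((x i).1, (y i).1))

/-- without any assumption, `gS` at a candidate is at most the number of points of the stretch,
and it vanishes if there is no next candidate -/
theorem stretch_le (K L A N₁ : ℕ) (τ₁ : ℝ) {φ : ℝ × ℝ → ℝ} (hφ0 : ∀ z, 0 ≤ φ z)
    (hφ1 : ∀ z, φ z ≤ 1) (c : Conf) (k : ℕ) (hk : im c k = 0)
    (h : gS K τ₁ L A N₁ φ (uc c k) ≠ 0) :
    ∃ l, 1 ≤ l ∧ l ≤ L ∧ IsNext K τ₁ A (uc c k) l ∧
      (gS K τ₁ L A N₁ φ (uc c k)).toReal ≤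
        c.nX (above (cutL K (st c k)) ∩ below (cutL K (st c (k + l)))) := by
  obtain ⟨l, hl1, hl, hnext, hval⟩ := gS_ne_zero (up_pos (st c k) c) h
  refine ⟨l, hl1, hl, hnext, ?_⟩
  have hval' : gS K τ₁ L A N₁ φ (uc c k) = ENNReal.ofReal (optVal φ (strc K (uc c k) l)) := hval
  rw [hval', ENNReal.toReal_ofReal (optVal_nonneg hφ0 _)]
  refine (optVal_le hφ1 hφ0 _).trans ?_
  rw [strc_uc hk]
  refine Nat.cast_le.2 (le_of_eq ?_)
  exact Multiset.card_map _ _

open Classical in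
theorem sum_compare {ι : Type} [Fintype ι] {𝒦 𝒢 : Finset ℕ} (h𝒢 : 𝒢 ⊆ 𝒦) {E : ℕ → Finset ι}
    (hdisj : ∀ k ∈ 𝒦, ∀ k' ∈ 𝒦, k ≠ k' → Disjoint (E k) (E k')) {f p : ι → ℝ} {P g : ℕ → ℝ}
    (hf0 : ∀ i, 0 ≤ f i) (hf1 : ∀ i, f i ≤ 1) (hp0 : ∀ i, 0 ≤ p i) (hp1 : ∀ i, p i ≤ 1)
    (hP0 : ∀ k, 0 ≤ P k) (hP1 : ∀ k, P k ≤ 1) (hg0 : ∀ k, 0 ≤ g k)
    (hg : ∀ k ∈ 𝒢, g k = ∑ i ∈ E k, f i) (hgle : ∀ k ∈ 𝒦, g k ≤ (E k).card) {ω : ℝ}
    (hω : 0 ≤ ω) (hpP : ∀ k ∈ 𝒢, ∀ i ∈ E k, |p i - P k| ≤ ω) {b : ℕ}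
    {R' : Finset ι} (hb' : R'.card ≤ b) (hR' : ∀ i, (∀ k ∈ 𝒢, i ∉ E k) → i ∈ R') :
    |∑ i, f i * p i - ∑ k ∈ 𝒦, P k * g k| ≤ ω * Fintype.card ι + 2 * b := by
  set R := Finset.univ.filter (fun i => ∀ k ∈ 𝒢, i ∉ E k) with hR
  have hb : R.card ≤ b := by
    refine (Finset.card_le_card ?_).trans hb'
    intro i hi
    exact hR' i (Finset.mem_filter.1 hi).2
  have hdG : ∀ k ∈ 𝒢, ∀ k' ∈ 𝒢, k ≠ k' → Disjoint (E k) (E k') := fun k hk k' hk' h =>
    hdisj k (h𝒢 hk) k' (h𝒢 hk') h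
  have h1 : ∑ i, f i * p i = ∑ k ∈ 𝒢, ∑ i ∈ E k, f i * p i + ∑ i ∈ R, f i * p i := by
    rw [← Finset.sum_biUnion hdG, ← Finset.sum_union]
    · apply Finset.sum_congr _ fun _ _ => rfl
      ext i
      simp only [Finset.mem_univ, Finset.mem_union, Finset.mem_biUnion, hR, Finset.mem_filter,
        true_and, true_iff]
      by_cases h : ∃ k ∈ 𝒢, i ∈ E k
      · exact Or.inl h
      · right
        intro k hk hi
        exact h ⟨k, hk, hi⟩
    · rw [Finset.disjoint_left]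
      intro i hi hi'
      rw [Finset.mem_biUnion] at hi
      obtain ⟨k, hk, hik⟩ := hi
      exact (Finset.mem_filter.1 hi').2 k hk hik
  have h2 : ∑ k ∈ 𝒦, P k * g k = ∑ k ∈ 𝒢, P k * g k + ∑ k ∈ 𝒦 \ 𝒢, P k * g k := by
    rw [add_comm, Finset.sum_sdiff h𝒢]
  have h3 : |∑ k ∈ 𝒢, ∑ i ∈ E k, f i * p i - ∑ k ∈ 𝒢, P k * g k| ≤ ω * Fintype.card ι := by
    have e1 : ∑ k ∈ 𝒢, ∑ i ∈ E k, f i * p i - ∑ k ∈ 𝒢, P k * g k =
        ∑ k ∈ 𝒢, ∑ i ∈ E k, f i * (p i - P k) := by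
      rw [← Finset.sum_sub_distrib]
      apply Finset.sum_congr rfl
      intro k hk
      rw [hg k hk, Finset.mul_sum, ← Finset.sum_sub_distrib]
      apply Finset.sum_congr rfl
      intro i _
      ring
    rw [e1]
    calc |∑ k ∈ 𝒢, ∑ i ∈ E k, f i * (p i - P k)| ≤ ∑ k ∈ 𝒢, |∑ i ∈ E k, f i * (p i - P k)| :=
          Finset.abs_sum_le_sum_abs _ _
      _ ≤ ∑ k ∈ 𝒢, ∑ i ∈ E k, ω := by
          apply Finset.sum_le_sum
          intro k hk
          refine (Finset.abs_sum_le_sum_abs _ _).trans (Finset.sum_le_sum ?_)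
          intro i hi
          rw [abs_mul, abs_of_nonneg (hf0 i)]
          have := hpP k hk i hi
          have h0 := abs_nonneg (p i - P k)
          nlinarith [hf0 i, hf1 i]
      _ = ∑ i ∈ 𝒢.biUnion E, ω := (Finset.sum_biUnion hdG).symm
      _ = ω * (𝒢.biUnion E).card := by rw [Finset.sum_const, nsmul_eq_mul, mul_comm]
      _ ≤ ω * Fintype.card ι := by
          apply mul_le_mul_of_nonneg_left _ hω
          exact_mod_cast Finset.card_le_univ _
  have h4 : 0 ≤ ∑ i ∈ R, f i * p i := Finset.sum_nonneg fun i _ => mul_nonneg (hf0 i) (hp0 i)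
  have h5 : ∑ i ∈ R, f i * p i ≤ b := by
    calc ∑ i ∈ R, f i * p i ≤ ∑ i ∈ R, (1:ℝ) := Finset.sum_le_sum fun i _ => by
          nlinarith [hf0 i, hf1 i, hp0 i, hp1 i]
      _ = R.card := by simp
      _ ≤ b := by exact_mod_cast hb
  have h6 : 0 ≤ ∑ k ∈ 𝒦 \ 𝒢, P k * g k := Finset.sum_nonneg fun k _ => mul_nonneg (hP0 k) (hg0 k)
  have h7 : ∑ k ∈ 𝒦 \ 𝒢, P k * g k ≤ b := by
    calc ∑ k ∈ 𝒦 \ 𝒢, P k * g k ≤ ∑ k ∈ 𝒦 \ 𝒢, ((E k).card : ℝ) := by
          apply Finset.sum_le_sum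
          intro k hk
          have := hgle k (Finset.mem_sdiff.1 hk).1
          nlinarith [hg0 k, hP0 k, hP1 k]
      _ = ((𝒦 \ 𝒢).biUnion E).card := by
          rw [Finset.card_biUnion]
          · push_cast; rfl
          · intro k hk k' hk' h
            exact hdisj k (Finset.mem_sdiff.1 hk).1 k' (Finset.mem_sdiff.1 hk').1 h
      _ ≤ R.card := by
          have : (𝒦 \ 𝒢).biUnion E ⊆ R := by
            intro i hi
            rw [Finset.mem_biUnion] at hi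
            obtain ⟨k, hk, hik⟩ := hi
            rw [Finset.mem_sdiff] at hk
            rw [hR, Finset.mem_filter]
            refine ⟨Finset.mem_univ _, fun k' hk' hik' => ?_⟩
            have hne : k ≠ k' := by rintro rfl; exact hk.2 hk'
            exact Finset.disjoint_left.1 (hdisj k hk.1 k' (h𝒢 hk') hne) hik hik'
          exact_mod_cast Finset.card_le_card this
      _ ≤ b := by exact_mod_cast hb
  rw [h1, h2]
  rw [abs_le] at h3 ⊢
  constructor <;> linarith [h3.1, h3.2]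

theorem Jn_spec' {θ r₀ : ℝ} {n : ℕ} (hr : 0 < r₀) (h : 8 * r₀ ≤ θ * n) :
    θ * n < 16 * (2 ^ (Jn θ r₀ n) * r₀) := by
  unfold Jn
  have h1 : (1:ℝ) ≤ θ * n / (8 * r₀) := by
    rw [le_div_iff₀ (by positivity)]; linarith
  have h3 : θ * n / (8 * r₀) < 2 ^ (Nat.log 2 ⌊θ * n / (8 * r₀)⌋₊ + 1) := by
    have h4 : ⌊θ * n / (8 * r₀)⌋₊ < 2 ^ (Nat.log 2 ⌊θ * n / (8 * r₀)⌋₊ + 1) :=
      Nat.lt_pow_succ_log_self (by norm_num) _
    have h5 := (Nat.floor_lt (by linarith)).1 h4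
    exact_mod_cast h5
  rw [div_lt_iff₀ (by positivity), pow_succ] at h3
  linarith

theorem exists_nX_mk2 {m m' : ℕ} (w : Fin m → Pl) (w' : Fin m' → Pl) (R : Set Pl) :
    ∃ R' : Finset (Fin m), R'.card = (mk2 m m' (w, w')).nX R ∧ ∀ i, w i ∈ R → i ∈ R' := by
  classical
  refine ⟨_, (nX_mk2 w w' R).symm, fun i hi => ?_⟩
  simp only [Finset.mem_filter, Finset.mem_univ, true_and]
  exact hi

theorem next_le {K A : ℕ} {τ₁ : ℝ} {c : Conf} {k l j : ℕ} (him : im c k = 0)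
    (h : IsNext K τ₁ A (uc c k) l) (hj : Cand K τ₁ c j) (hkj : k < j) : k + l ≤ j := by
  by_contra hcon
  push Not at hcon
  exact ((isNext_uc him).1 h).2.2.1 j hkj hcon hj

theorem cut_eq {K : ℕ} {τ₁ : ℝ} {c : Conf} {k : ℕ} (h : Cand K τ₁ c k) :
    cutL K (st c k) = st c (k + K) := by
  rw [(st_pat h (j := K) (by omega)).1]
  rfl

/-- heights of the points of a stretch -/
theorem stretch_height {K A : ℕ} {τ₁ : ℝ} {c : Conf} {k l : ℕ} (him : im c k = 0)
    (h : IsNext K τ₁ A (uc c k) l) {p : Pl} (hp1 : p ∈ above (cutL K (st c k)))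
    (hp2 : p ∈ below (cutL K (st c (k + l)))) :
    |p.2 - (st c k).1| ≤ |((st c k).2 : ℝ) - (st c k).1| + ((l * (1 + A) + K : ℕ) : ℝ) := by
  have h1 : st c (k + l) = st c k + st (uc c k) l := by
    rw [st_add, him]
    rfl
  have h2 : (st (uc c k) l) ≤ (l * (1 + A), l * (1 + A)) := by
    have := st_le_of_im h.2.2.2 (le_refl l)
    exact ⟨this.1, this.2⟩
  have h3 : lam (cutL K (st c (k + l))) p.1 = lam (st c (k + l)) p.1 + K := by
    have : cutL K (st c (k + l)) = st c (k + l) + (K, K) := rfl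
    rw [this, lam_add, lam_diag]
  have h4 : lam (cutL K (st c k)) p.1 = lam (st c k) p.1 + K := by
    have : cutL K (st c k) = st c k + (K, K) := rfl
    rw [this, lam_add, lam_diag]
  have h5 : lam (st c (k + l)) p.1 ≤ lam (st c k) p.1 + ((l * (1 + A) : ℕ) : ℝ) := by
    rw [h1, lam_add]
    have h6 := lam_mono h2 p.1
    rw [lam_diag] at h6
    linarith
  have h6 := lam_le_max (st c k) p.1
  have h7 : lam (cutL K (st c k)) p.1 < p.2 := hp1
  have h8 : p.2 ≤ lam (cutL K (st c (k + l))) p.1 := hp2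
  rw [h4] at h7
  rw [h3] at h8
  have hK : (0:ℝ) ≤ K := Nat.cast_nonneg _
  have hM : (0:ℝ) ≤ ((l * (1 + A) : ℕ) : ℝ) := Nat.cast_nonneg _
  rw [Nat.cast_add]
  rw [abs_le] at h6 ⊢
  constructor <;> linarith [h6.1, h6.2]

/-- the deterministic comparison -/
theorem compare {cost : ℕ → Pl → Pl → ℝ} (hc : GoodCost cost) {β τ ε δ θ : ℝ}
    {K N L A N₁ : ℕ} {τ₁ r₀ ε₅ : ℝ} (hp : Params β τ ε δ K N τ₁ r₀) (hθ : 0 < θ) (hθ1 : θ < 1)
    (hL : 0 < L) (hε₅ : 0 < ε₅) {φ : ℝ × ℝ → ℝ} (hφ0 : ∀ z, 0 ≤ φ z) (hφ1 : ∀ z, φ z ≤ 1)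
    {ψ : ℝ → ℝ} (hψ0 : ∀ t, 0 ≤ ψ t) (hψ1 : ∀ t, ψ t ≤ 1) {ω ρ₁ : ℝ} (hω : 0 ≤ ω)
    (hρ₁ : 0 < ρ₁) (hψc : ∀ s t, |s - t| ≤ 2 * ρ₁ → |ψ s - ψ t| ≤ ω)
    {η : ℝ} (hη : 0 < η) (hη1 : η ≤ glH ε θ) {N' : ℕ} (hN' : 3 ≤ η * N') :
    Ev (fun ρ n => ∀ (x y : Fin n → Pl), InDom n x y → IsOptM (cost n) x y →
      Glob N' (glT ε θ) η n (mk2 n n (x, y)) →
      |∑ i, φ ((x i).1, (y i).1) * ψ ((x i).2 / n) -
        locSum K L A N₁ τ₁ θ ρ φ ψ n (mk2 n n (x, y))| ≤
      ω * n + 2 * badCount K N L A N₁ τ τ₁ δ r₀ ε₅ θ ρ n (mk2 n n (x, y))) := by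
  classical
  obtain ⟨n₁, hS⟩ := stretch_eq hc K (2 * L) A N₁ τ₁ hε₅ hφ0 hφ1
  have hr0 : 0 < r₀ := by linarith [hp.r8]
  refine (((cut_true hc hp hθ hθ1 hη hη1 hN').and (Ev.rho_le (lt_min one_pos hρ₁))).and
    (Ev.n_ge (fun _ => max (max (n₁ : ℝ) (8 * r₀ / θ))
      (max 1 (((2 * L * (1 + A) + K : ℕ) : ℝ) / ρ₁))))).mono ?_
  rintro ρ n ⟨⟨hcut, hρ, hρle⟩, hn⟩ x y hdom hopt hglob
  have hρ1 : ρ ≤ 1 := hρle.trans (min_le_left _ _)
  have hρρ₁ : ρ ≤ ρ₁ := hρle.trans (min_le_right _ _)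
  have hn1 : n₁ ≤ n := by
    have := ((le_max_left _ _).trans (le_max_left _ _)).trans hn
    exact_mod_cast this
  have hn2 : 8 * r₀ ≤ θ * n := by
    have := ((le_max_right _ _).trans (le_max_left _ _)).trans hn
    rw [div_le_iff₀ hθ] at this
    linarith
  have hn3 : (1:ℝ) ≤ n := ((le_max_left _ _).trans (le_max_right _ _)).trans hn
  have hn4 : ((2 * L * (1 + A) + K : ℕ) : ℝ) ≤ ρ₁ * n := by
    have := ((le_max_right _ _).trans (le_max_right _ _)).trans hn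
    rw [div_le_iff₀ hρ₁] at this
    linarith
  have hn0 : (0:ℝ) < n := by linarith
  have hJ := Jn_spec' hr0 hn2
  set c := mk2 n n (x, y) with hcdef
  -- the stretches
  let HN : ℕ → Prop := fun k => Alive n θ ρ c k ∧ im c k = 0 ∧
    ∃ l, 1 ≤ l ∧ l ≤ 2 * L ∧ IsNext K τ₁ A (uc c k) l
  have hex : ∀ k, ∃ l, HN k → 1 ≤ l ∧ l ≤ 2 * L ∧ IsNext K τ₁ A (uc c k) l := by
    intro k
    by_cases h : HN k
    · obtain ⟨l, hl⟩ := h.2.2
      exact ⟨l, fun _ => hl⟩
    · exact ⟨0, fun h' => absurd h' h⟩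
  choose l hl using hex
  let G : ℕ → Prop := fun k => ∃ m, L ≤ m ∧ Alive n θ ρ c (m + L + 2 * K) ∧
    GoodM K N L A N₁ τ τ₁ δ r₀ ε₅ θ n c m ∧ k ≤ m ∧ m < k + l k
  let 𝒦 : Finset ℕ := (Finset.range n).filter HN
  let 𝒢 : Finset ℕ := 𝒦.filter G
  let E : ℕ → Finset (Fin n) := fun k => Finset.univ.filter (fun i =>
    x i ∈ above (cutL K (st c k)) ∧ x i ∈ below (cutL K (st c (k + l k))))
  let g : ℕ → ℝ := fun k => (gS K τ₁ (2 * L) A N₁ φ (uc c k)).toReal
  have hloc : locSum K L A N₁ τ₁ θ ρ φ ψ n c =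
      ∑ k ∈ 𝒦, ψ (((st c k).1 : ℝ) / n) * g k := by
    unfold locSum
    rw [Finset.sum_filter]
    apply Finset.sum_congr rfl
    intro k _
    by_cases h : Alive n θ ρ c k ∧ im c k = 0
    · rw [if_pos h]
      by_cases h2 : HN k
      · rw [if_pos h2]
      · rw [if_neg h2]
        have h3 : gS K τ₁ (2 * L) A N₁ φ (uc c k) = 0 := by
          by_contra hcon
          obtain ⟨l', hl1, hl2, hl3, -⟩ := gS_ne_zero (up_pos _ _) hcon
          exact h2 ⟨h.1, h.2, l', hl1, hl2, hl3⟩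
        rw [h3]
        simp
    · rw [if_neg h, if_neg fun h2 => h ⟨h2.1, h2.2.1⟩]
  have hCand : ∀ k, HN k → Cand K τ₁ c k ∧ Cand K τ₁ c (k + l k) := by
    intro k hk
    have := (isNext_uc hk.2.1).1 (hl k hk).2.2
    exact ⟨this.1, this.2.1⟩
  have hdisj : ∀ k ∈ 𝒦, ∀ k' ∈ 𝒦, k < k' → Disjoint (E k) (E k') := by
    intro k hk k' hk' hlt
    have hk1 := (Finset.mem_filter.1 hk).2
    have hk2 := (Finset.mem_filter.1 hk').2
    have h1 : k + l k ≤ k' := next_le hk1.2.1 (hl k hk1).2.2 (hCand k' hk2).1 hlt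
    rw [Finset.disjoint_left]
    intro i hi hi'
    have h2 := (Finset.mem_filter.1 hi).2.2
    have h3 := (Finset.mem_filter.1 hi').2.1
    rw [cut_eq (hCand k hk1).2] at h2
    rw [cut_eq (hCand k' hk2).1, above_eq] at h3
    exact h3 (below_mono (ex_mono 0 c (by omega : k + l k + K ≤ k' + K)) h2)
  have hkn : ∀ k, OkAt n θ ρ c k → k < n := by
    intro k hk
    have h1 := ex_add_le 0 c 0 k
    rw [zero_add] at h1
    have h2 : k ≤ (st c k).1 := by
      have : (ex 0 c 0).1 + k ≤ (st c k).1 := h1.1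
      omega
    have h3 := hk.1
    have h4 : ((st c k).1 : ℝ) < n := by
      have : (1 - θ) * n < n := by nlinarith
      linarith
    have h5 : (st c k).1 < n := by exact_mod_cast h4
    omega
  -- facts about the good stretches
  have hGood : ∀ k ∈ 𝒢, ∃ m, Alive n θ ρ c (m + L + 2 * K) ∧
      GoodM K N L A N₁ τ τ₁ δ r₀ ε₅ θ n c m ∧ m < k + L ∧ k ≤ m ∧ m < k + l k ∧
      k + l k ≤ m + L := by
    intro k hk
    obtain ⟨hk𝒦, m, hm1, hm2, hm3, hm4, hm5⟩ := Finset.mem_filter.1 hk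
    have hk1 := (Finset.mem_filter.1 hk𝒦).2
    obtain ⟨⟨k', hk'1, hk'2, hk'3⟩, ⟨l', hl'1, hl'2, hl'3⟩, -⟩ := id hm3
    refine ⟨m, hm2, hm3, ?_, hm4, hm5, ?_⟩
    · by_contra hcon
      have h1 : k < k' := by omega
      have h2 := next_le hk1.2.1 (hl k hk1).2.2 hk'3 h1
      omega
    · have h2 := next_le hk1.2.1 (hl k hk1).2.2 hl'3 (by omega)
      omega
  have hCut : ∀ k, ∀ m, Alive n θ ρ c (m + L + 2 * K) →
      GoodM K N L A N₁ τ τ₁ δ r₀ ε₅ θ n c m → m < k + L → k ≤ m + L → Cand K τ₁ c k →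
      ∀ i, (x i ∈ below (cutL K (st c k)) ↔ y i ∈ below (cutL K (st c k))) := by
    intro k m hm1 hm2 hm3 hm4 hm5
    exact hcut x y hdom hopt hglob k (Jn θ r₀ n) (hm1 k (by omega)) hm5
      (hm2.2.2.1 k hm3 hm4 hm5).1 hJ
  obtain ⟨R', hR'1, hR'2⟩ := exists_nX_mk2 x y {p | ¬ ∃ m, L ≤ m ∧
    Alive n θ ρ c (m + L + 2 * K) ∧ GoodM K N L A N₁ τ τ₁ δ r₀ ε₅ θ n c m ∧ InStep c (m + K) p}
  have key := sum_compare (ι := Fin n) (𝒦 := 𝒦) (𝒢 := 𝒢) (Finset.filter_subset _ _) (E := E)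
    (fun k hk k' hk' hne => by
      rcases lt_or_gt_of_ne hne with h | h
      · exact hdisj k hk k' hk' h
      · exact (hdisj k' hk' k hk h).symm)
    (f := fun i => φ ((x i).1, (y i).1)) (p := fun i => ψ ((x i).2 / n))
    (P := fun k => ψ (((st c k).1 : ℝ) / n)) (g := g) (fun i => hφ0 _) (fun i => hφ1 _)
    (fun i => hψ0 _) (fun i => hψ1 _) (fun k => hψ0 _) (fun k => hψ1 _)
    (fun k => ENNReal.toReal_nonneg) (by
      intro k hk
      obtain ⟨m, hm1, hm2, hm3, hm4, hm5, hm6⟩ := hGood k hk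
      have hk1 := (Finset.mem_filter.1 (Finset.mem_filter.1 hk).1).2
      obtain ⟨hl1, hl2, hl3⟩ := hl k hk1
      have hg := hm2.2.2.1 k hm3 (by omega) (hCand k hk1).1
      refine hS n hn1 x y hdom hopt k (l k) hl1 hl2 hk1.2.1 ?_ hl3 hg.2.1 hg.2.2.1 hg.2.2.2
        (hCut k m hm1 hm2 hm3 (by omega) (hCand k hk1).1)
        (hCut (k + l k) m hm1 hm2 (by omega) hm6 (hCand k hk1).2) (E k) ?_
      · have := (hk1.1 k le_rfl).2.2.1
        refine this.trans ?_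
        nlinarith
      · intro i
        simp only [E, Finset.mem_filter, Finset.mem_univ, true_and]
        exact Iff.rfl) (by
      intro k hk
      have hk1 := (Finset.mem_filter.1 hk).2
      by_cases h0 : gS K τ₁ (2 * L) A N₁ φ (uc c k) = 0
      · simp only [g, h0, ENNReal.toReal_zero]
        exact Nat.cast_nonneg _
      · obtain ⟨l', hl'1, hl'2, hl'3, hl'4⟩ := stretch_le K (2 * L) A N₁ τ₁ hφ0 hφ1 c k hk1.2.1 h0
        obtain ⟨hl1, hl2, hl3⟩ := hl k hk1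
        have h2 : l' = l k := IsNext.unique hl'3 hl3 hl'1 hl1
        subst h2
        refine hl'4.trans (le_of_eq ?_)
        rw [hcdef, nX_mk2]
        congr 2
        ext i
        simp only [E, Finset.mem_filter, Finset.mem_univ, true_and]
        exact Iff.rfl) hω (by
      intro k hk i hi
      have hk1 := (Finset.mem_filter.1 (Finset.mem_filter.1 hk).1).2
      obtain ⟨hl1, hl2, hl3⟩ := hl k hk1
      have hi' := (Finset.mem_filter.1 hi).2
      apply hψc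
      have h1 := stretch_height hk1.2.1 hl3 hi'.1 hi'.2
      have h2 := (hk1.1 k le_rfl).2.2.1
      have h3 : ((l k * (1 + A) + K : ℕ) : ℝ) ≤ ((2 * L * (1 + A) + K : ℕ) : ℝ) := by
        have : l k * (1 + A) + K ≤ 2 * L * (1 + A) + K :=
          Nat.add_le_add_right (Nat.mul_le_mul_right _ hl2) _
        exact_mod_cast this
      rw [← sub_div, abs_div, abs_of_pos hn0, div_le_iff₀ hn0]
      nlinarith)
    (b := badCount K N L A N₁ τ τ₁ δ r₀ ε₅ θ ρ n c) (R' := R') (le_of_eq hR'1) (by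
      intro i hi
      apply hR'2 i
      rintro ⟨m, hm1, hm2, hm3, hm4⟩
      -- the last candidate
      obtain ⟨⟨k', hk'1, hk'2, hk'3⟩, ⟨l', hl'1, hl'2, hl'3⟩, -, hA⟩ := id hm3
      have hmax : ∃ k, (k ≤ m ∧ Cand K τ₁ c k) ∧ ∀ j, j ≤ m → Cand K τ₁ c j → j ≤ k := by
        have hne : ((Finset.range (m + 1)).filter (fun k => Cand K τ₁ c k)).Nonempty :=
          ⟨k', Finset.mem_filter.2 ⟨Finset.mem_range.2 (by omega), hk'3⟩⟩
        refine ⟨Finset.max' _ hne, ?_, ?_⟩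
        · have := Finset.max'_mem _ hne
          rw [Finset.mem_filter, Finset.mem_range] at this
          exact ⟨by omega, this.2⟩
        · intro j hj hjc
          apply Finset.le_max'
          exact Finset.mem_filter.2 ⟨Finset.mem_range.2 (by omega), hjc⟩
      obtain ⟨k, ⟨hkm, hkc⟩, hkmax⟩ := hmax
      have hmin : ∃ q, (m < q ∧ Cand K τ₁ c q) ∧ ∀ j, m < j → Cand K τ₁ c j → q ≤ j := by
        have hex : ∃ q, m < q ∧ Cand K τ₁ c q := ⟨l', hl'1, hl'3⟩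
        refine ⟨Nat.find hex, Nat.find_spec hex, fun j hj hjc => Nat.find_min' hex ⟨hj, hjc⟩⟩
      obtain ⟨q, ⟨hqm, hqc⟩, hqmin⟩ := hmin
      have hkk' : k' ≤ k := hkmax k' hk'2 hk'3
      have hql' : q ≤ l' := hqmin l' hl'1 hl'3
      have hnext : IsNext K τ₁ A (uc c k) (q - k) := by
        rw [isNext_uc hkc.1]
        have e1 : k + (q - k) = q := by omega
        rw [e1]
        refine ⟨hkc, hqc, ?_, ?_⟩
        · intro j hj1 hj2 hjc
          by_cases h : j ≤ m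
          · have := hkmax j h hjc
            omega
          · have := hqmin j (by omega) hjc
            omega
        · intro j hj1 hj2
          exact hA j (by omega) (by omega)
      have hAk : Alive n θ ρ c k := fun j hj => hm2 j (by omega)
      have hHN : HN k := ⟨hAk, hkc.1, q - k, by omega, by omega, hnext⟩
      obtain ⟨hl1, hl2, hl3⟩ := hl k hHN
      have hlq : l k = q - k := IsNext.unique hl3 hnext hl1 (by omega)
      have hkq : k + l k = q := by omega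
      have hk𝒦 : k ∈ 𝒦 := Finset.mem_filter.2 ⟨Finset.mem_range.2 (hkn k (hAk k le_rfl)), hHN⟩
      have hk𝒢 : k ∈ 𝒢 := Finset.mem_filter.2 ⟨hk𝒦, m, hm1, hm2, hm3, hkm, by omega⟩
      apply hi k hk𝒢
      rw [Finset.mem_filter]
      refine ⟨Finset.mem_univ _, ?_, ?_⟩
      · rw [cut_eq hkc, above_eq]
        intro hcon
        have h1 := hm4.1
        rw [above_eq] at h1
        exact h1 (below_mono (ex_mono 0 c (by omega : k + K ≤ m + K)) hcon)
      · rw [hkq, cut_eq hqc]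
        exact below_mono (ex_mono 0 c (by omega : m + K + 1 ≤ q + K)) hm4.2)
  rw [hloc]
  rw [Fintype.card_fin] at key
  exact key

end Pool.Agent.H27.OTC
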