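import Pool.Agent.H27.OTC.AsmDefs

/-!
Job OTC-E-PROB-b: the numerical part and the union bound of `badM_prob`.
-/

set_option autoImplicit false

open MeasureTheory ProbabilityTheory
open scoped ENNReal

namespace Pool.Agent.H27.OTC

open Pool.Agent.H96.OT (Pl)

theorem badM_exp {C₁ C₂ a ε ε' : ℝ} (hC₁ : 0 < C₁) (hC₂ : 0 < C₂) (ha : 0 < a) (hε : 0 < ε)
    (hε' : 0 < ε') {x : ℝ} (hx : 1 ≤ x)
    (h : 144 * C₂ * (6 * C₁ + 2) * ε ^ 2 / (a ^ 2 * ε') ≤ x) :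
    2 * C₂ * (C₁ * (6 * x) + 2) * Real.exp (-(a * (x / (3 * ε)))) ≤ ε' / 4 := by
  have hy : 0 < a * (x / (3 * ε)) := by positivity
  set y := a * (x / (3 * ε)) with hydef
  have h1 : y ^ 2 / 2 ≤ Real.exp y := by
    have := Real.quadratic_le_exp_of_nonneg hy.le
    linarith
  have h2 : Real.exp (-y) ≤ 2 / y ^ 2 := by
    rw [Real.exp_neg, inv_le_comm₀ (Real.exp_pos _) (by positivity)]
    rw [inv_div]
    exact h1
  have h3 : 2 * C₂ * (C₁ * (6 * x) + 2) ≤ 2 * C₂ * ((6 * C₁ + 2) * x) := by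
    apply mul_le_mul_of_nonneg_left _ (by positivity)
    nlinarith
  calc 2 * C₂ * (C₁ * (6 * x) + 2) * Real.exp (-y)
      ≤ 2 * C₂ * ((6 * C₁ + 2) * x) * (2 / y ^ 2) := by
        apply mul_le_mul h3 h2 (Real.exp_pos _).le (by positivity)
    _ = 36 * C₂ * (6 * C₁ + 2) * ε ^ 2 / (a ^ 2 * x) := by
        rw [hydef]
        field_simp
        ring
    _ ≤ ε' / 4 := by
        rw [div_le_iff₀ (by positivity)] at h ⊢
        nlinarith

theorem badM_A {lam₀ C₃ : ℝ} (hlam : 0 < lam₀) (hC₃ : 1 ≤ C₃) {x : ℝ} (hx : 0 < x) :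
    ∃ A : ℕ, C₃ * Real.exp (-(lam₀ * A)) ≤ x := by
  obtain ⟨A, hA⟩ := exists_nat_ge (Real.log (C₃ / x) / lam₀)
  refine ⟨A, ?_⟩
  rw [div_le_iff₀ hlam] at hA
  have hC1' : 0 < C₃ := by linarith
  have h1 : C₃ / x ≤ Real.exp (lam₀ * A) := by
    rw [← Real.log_le_iff_le_exp (by positivity)]
    linarith
  rw [Real.exp_neg, ← div_eq_mul_inv, div_le_iff₀ (Real.exp_pos _)]
  rw [div_le_iff₀ hx] at h1
  linarith

/-- the union bound -/
theorem badM_union {K N L A N₁ : ℕ} {τ τ₁ δ r₀ ε₅ θ ρ : ℝ} {n m : ℕ} (hLm : L ≤ m) (hr : 0 < r₀)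
    (hJ : 8 * (2 ^ (Jn θ r₀ n) * r₀) ≤ θ * n)
    {p₁ p₂ p₃ p₄ : ℝ≥0∞}
    (h1 : ∀ k : ℕ, Q n {c | Alive n θ ρ c (k + L) ∧ ∀ j, k < j → j ≤ k + L → ¬ Cand K τ₁ c j} ≤ p₁)
    (h2 : ∀ k : ℕ, Q n {c | Alive n θ ρ c (k + 2 * K) ∧
        5 * (2 ^ (Jn θ r₀ n) * r₀) ≤ ((st c k).1 : ℝ) ∧
        Cand K τ₁ c k ∧ ¬ Rel K N τ (δ / 16000) r₀ (Jn θ r₀ n) c k} ≤ p₂)
    (h3 : ∀ k : ℕ, Q n {c | Alive n θ ρ c k ∧
      ¬ ((uc c k).nX (win (bw K (2 * L) A : ℕ)) ≤ N₁ ∧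
        (uc c k).nY (win (bw K (2 * L) A : ℕ)) ≤ N₁ ∧
        GapAll ε₅ ((uc c k).filt (win (bw K (2 * L) A : ℕ))))} ≤ p₃)
    (h4 : ∀ k : ℕ, Q n {c | Alive n θ ρ c k ∧ (A : ℝ) < |(im c k : ℝ)|} ≤ p₄) :
    Q n {c | Alive n θ ρ c (m + L + 2 * K) ∧ θ * n ≤ ((st c (m - L)).1 : ℝ) ∧
          ¬ GoodM K N L A N₁ τ τ₁ δ r₀ ε₅ θ n c m} ≤
      p₁ + p₁ + (2 * L : ℕ) * (p₂ + p₃ + p₄) := by
  classical
  set S1 : Set Conf := {c | Alive n θ ρ c (m - L + L) ∧ ∀ j, m - L < j → j ≤ m - L + L →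
    ¬ Cand K τ₁ c j} with hS1
  set S2 : Set Conf := {c | Alive n θ ρ c (m + L) ∧ ∀ j, m < j → j ≤ m + L →
    ¬ Cand K τ₁ c j} with hS2
  set F : ℕ → Set Conf := fun k => {c | Alive n θ ρ c (k + 2 * K) ∧
        5 * (2 ^ (Jn θ r₀ n) * r₀) ≤ ((st c k).1 : ℝ) ∧
        Cand K τ₁ c k ∧ ¬ Rel K N τ (δ / 16000) r₀ (Jn θ r₀ n) c k} with hF
  set G : ℕ → Set Conf := fun k => {c | Alive n θ ρ c k ∧
      ¬ ((uc c k).nX (win (bw K (2 * L) A : ℕ)) ≤ N₁ ∧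
        (uc c k).nY (win (bw K (2 * L) A : ℕ)) ≤ N₁ ∧
        GapAll ε₅ ((uc c k).filt (win (bw K (2 * L) A : ℕ))))} with hG
  set I : ℕ → Set Conf := fun k => {c | Alive n θ ρ c k ∧ (A : ℝ) < |(im c k : ℝ)|} with hI
  have hsub : {c | Alive n θ ρ c (m + L + 2 * K) ∧ θ * n ≤ ((st c (m - L)).1 : ℝ) ∧
          ¬ GoodM K N L A N₁ τ τ₁ δ r₀ ε₅ θ n c m} ⊆
      (S1 ∪ S2) ∪ ⋃ i ∈ Finset.range (2 * L), ((F (m - L + 1 + i) ∪ G (m - L + 1 + i)) ∪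
        I (m - L + 1 + i)) := by
    rintro c ⟨hal, hst, hbad⟩
    have hal' : ∀ j, j ≤ m + L + 2 * K → Alive n θ ρ c j := fun j hj i hi => hal i (hi.trans hj)
    by_contra hcon
    apply hbad
    rw [Set.mem_union, Set.mem_union, not_or, not_or] at hcon
    obtain ⟨⟨c1, c2⟩, c3⟩ := hcon
    have c3' : ∀ k, m < k + L → k ≤ m + L → c ∉ F k ∧ c ∉ G k ∧ c ∉ I k := by
      intro k hk1 hk2
      have hk : k = m - L + 1 + (k - (m - L + 1)) := by omega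
      have : k - (m - L + 1) < 2 * L := by omega
      have h5 : c ∉ ((F (m - L + 1 + (k - (m - L + 1))) ∪ G (m - L + 1 + (k - (m - L + 1)))) ∪
        I (m - L + 1 + (k - (m - L + 1)))) := by
        intro h6
        apply c3
        exact Set.mem_biUnion (Finset.mem_coe.2 (Finset.mem_range.2 this)) h6
      rw [← hk, Set.mem_union, Set.mem_union, not_or, not_or] at h5
      exact ⟨h5.1.1, h5.1.2, h5.2⟩
    refine ⟨?_, ?_, ?_, ?_⟩
    · by_contra hne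
      apply c1
      refine ⟨hal' _ (by omega), fun j hj1 hj2 hj3 => hne ⟨j, by omega, by omega, hj3⟩⟩
    · by_contra hne
      apply c2
      exact ⟨hal' _ (by omega), fun j hj1 hj2 hj3 => hne ⟨j, by omega, by omega, hj3⟩⟩
    · intro k hk1 hk2 hk3
      obtain ⟨f1, f2, f3⟩ := c3' k hk1 hk2
      have g1 : Rel K N τ (δ / 16000) r₀ (Jn θ r₀ n) c k := by
        by_contra hne
        apply f1
        refine ⟨hal' _ (by omega), ?_, hk3, hne⟩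
        have h5 : (st c (m - L)).1 ≤ (st c k).1 := (ex_mono 0 c (by omega : m - L ≤ k)).1
        have h6 : ((st c (m - L)).1 : ℝ) ≤ ((st c k).1 : ℝ) := by exact_mod_cast h5
        have h7 : 0 < 2 ^ (Jn θ r₀ n) * r₀ := by positivity
        linarith
      have g2 : ((uc c k).nX (win (bw K (2 * L) A : ℕ)) ≤ N₁ ∧
        (uc c k).nY (win (bw K (2 * L) A : ℕ)) ≤ N₁ ∧
        GapAll ε₅ ((uc c k).filt (win (bw K (2 * L) A : ℕ)))) := by
        by_contra hne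
        exact f2 ⟨hal' _ (by omega), hne⟩
      exact ⟨g1, g2⟩
    · intro i hi1 hi2
      obtain ⟨f1, f2, f3⟩ := c3' i hi1 hi2
      by_contra hne
      apply f3
      refine ⟨hal' _ (by omega), ?_⟩
      rw [not_le] at hne
      have : ((A : ℤ) : ℝ) < ((|im c i| : ℤ) : ℝ) := by exact_mod_cast hne
      push_cast at this
      exact this
  refine (measure_mono hsub).trans ((measure_union_le _ _).trans ?_)
  refine add_le_add ((measure_union_le _ _).trans (add_le_add (h1 _) (h1 _))) ?_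
  refine (measure_biUnion_finset_le _ _).trans ?_
  calc ∑ i ∈ Finset.range (2 * L), Q n ((F (m - L + 1 + i) ∪ G (m - L + 1 + i)) ∪
        I (m - L + 1 + i)) ≤ ∑ i ∈ Finset.range (2 * L), (p₂ + p₃ + p₄) := by
        refine Finset.sum_le_sum fun i _ => ?_
        exact (measure_union_le _ _).trans (add_le_add ((measure_union_le _ _).trans
          (add_le_add (h2 _) (h3 _))) (h4 _))
    _ = (2 * L : ℕ) * (p₂ + p₃ + p₄) := by
        rw [Finset.sum_const, Finset.card_range, nsmul_eq_mul]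

end Pool.Agent.H27.OTC
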