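import Pool.Agent.H27.OTC.AsmDefs
import Pool.Agent.H27.OTC.BadM

/-!
Job OTC-E-PROB: most points lie in good steps.
-/

set_option autoImplicit false

open MeasureTheory ProbabilityTheory
open scoped ENNReal

namespace Pool.Agent.H27.OTC

open Pool.Agent.H96.OT (Pl)

theorem Jn_spec {θ r₀ : ℝ} {n : ℕ} (hr : 0 < r₀) (h : 8 * r₀ ≤ θ * n) :
    8 * (2 ^ (Jn θ r₀ n) * r₀) ≤ θ * n ∧ θ * n < 16 * (2 ^ (Jn θ r₀ n) * r₀) := by
  have h8 : (0 : ℝ) < 8 * r₀ := by linarith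
  set x : ℝ := θ * n / (8 * r₀) with hx
  have hx1 : 1 ≤ x := by
    rw [hx, le_div_iff₀ h8]
    linarith
  have hxe : θ * n = x * (8 * r₀) := by
    rw [hx]
    field_simp
  have hf1 : 1 ≤ ⌊x⌋₊ := Nat.le_floor (by simpa using hx1)
  have h1 : 2 ^ (Nat.log 2 ⌊x⌋₊) ≤ ⌊x⌋₊ := Nat.pow_log_le_self 2 (by omega)
  have h2 : ⌊x⌋₊ < 2 ^ (Nat.log 2 ⌊x⌋₊ + 1) := Nat.lt_pow_succ_log_self (by norm_num) _
  have h3 : ((2 : ℝ) ^ (Nat.log 2 ⌊x⌋₊)) ≤ x := by
    calc ((2 : ℝ) ^ (Nat.log 2 ⌊x⌋₊)) ≤ (⌊x⌋₊ : ℝ) := by exact_mod_cast h1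
      _ ≤ x := Nat.floor_le (by linarith)
  have h4 : x < (2 : ℝ) ^ (Nat.log 2 ⌊x⌋₊ + 1) := by
    have h5 : x < (⌊x⌋₊ : ℝ) + 1 := Nat.lt_floor_add_one x
    have h6 : (⌊x⌋₊ : ℝ) + 1 ≤ (2 : ℝ) ^ (Nat.log 2 ⌊x⌋₊ + 1) := by exact_mod_cast h2
    linarith
  have hJ : Jn θ r₀ n = Nat.log 2 ⌊x⌋₊ := rfl
  rw [hJ, hxe]
  rw [pow_succ] at h4
  constructor
  · have := mul_le_mul_of_nonneg_right h3 h8.le
    linarith
  · have := mul_lt_mul_of_pos_right h4 h8
    linarith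

/-- few points or no gap: probability -/
theorem cnt_gap_prob (b : ℕ) (hb : 0 < b) {η : ℝ} (hη : 0 < η) : ∃ (N₁ : ℕ) (ε₅ : ℝ), 0 < N₁ ∧
    0 < ε₅ ∧ ∀ θ : ℝ, 0 < θ → θ < 1 → Ev (fun ρ n => ∀ k : ℕ,
      Q n {c | Alive n θ ρ c k ∧ ¬ ((uc c k).nX (win (b : ℝ)) ≤ N₁ ∧
        (uc c k).nY (win (b : ℝ)) ≤ N₁ ∧ GapAll ε₅ ((uc c k).filt (win (b : ℝ))))} ≤
      ENNReal.ofReal η) := by
  classical
  have hB : (0 : ℝ) < (b : ℝ) := by exact_mod_cast hb
  set N₁ : ℕ := ⌈8 * (b : ℝ) / η⌉₊ + 1 with hN₁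
  have hN0 : (0 : ℝ) < (N₁ : ℝ) := by rw [hN₁]; positivity
  have hNb : 8 * (b : ℝ) ≤ η * N₁ := by
    have h1 : 8 * (b : ℝ) / η ≤ N₁ := by
      refine (Nat.le_ceil _).trans ?_
      rw [hN₁]
      push_cast
      linarith
    rw [div_le_iff₀ hη] at h1
    linarith
  obtain ⟨ε₅, hε₅, hgap⟩ := gap_small N₁ hB (η := η / 4) (by linarith)
  obtain ⟨κ₀, s₁, hκ, hs, hlim⟩ := window_lim N₁ hB one_pos (ε := η / 4) (by linarith)
  refine ⟨N₁, ε₅, by rw [hN₁]; omega, hε₅, fun θ hθ hθ1 => ?_⟩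
  refine (ev_window (κ₀ := min κ₀ 1) (B := (b : ℝ)) hθ (lt_min hκ one_pos) hs).mono ?_
  rintro ρ n ⟨hn, hρ, hρθ, h1, h2, h3⟩ k
  have := Q_prob hn
  have hW : MeasurableSet (win (b : ℝ)) := measurableSet_win _
  -- the functional
  set gN : (Conf → ℕ) → Conf → ℝ≥0∞ := fun F c => (F c : ℝ≥0∞) / (N₁ : ℝ≥0∞) with hgN
  set G : Conf → ℝ≥0∞ := fun c => gN (Conf.nX (win (b : ℝ))) c + gN (Conf.nY (win (b : ℝ))) c +
    gapI N₁ (b : ℝ) ε₅ c with hG
  have mN : ∀ F : Conf → ℕ, Measurable F → Measurable (gN F) := by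
    intro F hF
    have h4 : Measurable (fun c => ((F c : ℕ) : ℝ≥0∞)) :=
      (Measurable.of_discrete (f := fun z : ℕ => (z : ℝ≥0∞))).comp hF
    exact h4.div_const _
  have mG : Measurable G := ((mN _ (measurable_nX hW)).add (mN _ (measurable_nY hW))).add
    (winFun_gap N₁ (b : ℝ) ε₅).meas
  have hNt : (N₁ : ℝ≥0∞) ≠ 0 := by
    have : N₁ ≠ 0 := by rw [hN₁]; omega
    exact_mod_cast this
  have hNt' : (N₁ : ℝ≥0∞) ≠ ⊤ := ENNReal.natCast_ne_top _
  have key : ∀ ℓ N N', Ok n θ ρ ℓ N N' → ∫⁻ c', G c' ∂(lawUp n ℓ N N') ≤ ENNReal.ofReal η := by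
    intro ℓ N N' hok
    have hnear := near_lawUp hn hθ hρ hρθ hok
    have h4 := (hlim _ (winFun_gap N₁ (b : ℝ) ε₅) _ _ _ _ _ _ _ (h1.trans (min_le_left _ _)) h2 h3
      hnear).1
    have hRB : ∀ p ∈ win (b : ℝ), p.2 ≤ θ * n := fun p hp => hp.2.trans h3
    have h5 := mean_count hnear (h1.trans (min_le_right _ _)) hW hRB
    have ha0 : area 0 (θ * n) (win (b : ℝ)) = b := area_strip hB.le h3
    have ha2 : area 2 (θ * n) (win (b : ℝ)) = b := area_strip hB.le h3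
    rw [ha0, ha2] at h5
    have h6 : ∀ F : Conf → ℕ, Measurable F →
        ∫⁻ c, (F c : ℝ≥0∞) ∂(iid (nuAb 0 n ℓ) (nuAb 2 n ℓ) (n - N) (n - N')) ≤
          ENNReal.ofReal (2 * b) →
        ∫⁻ c, gN F c ∂(lawUp n ℓ N N') ≤ ENNReal.ofReal (η / 4) := by
      intro F hF hle
      have h7 : ∫⁻ c, gN F c ∂(lawUp n ℓ N N') =
          (∫⁻ c, (F c : ℝ≥0∞) ∂(lawUp n ℓ N N')) / (N₁ : ℝ≥0∞) := by
        simp only [hgN, div_eq_mul_inv]
        rw [lintegral_mul_const' _ _ (ENNReal.inv_ne_top.2 hNt)]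
      rw [h7]
      rw [ENNReal.div_le_iff hNt hNt', ← ENNReal.ofReal_natCast,
        ← ENNReal.ofReal_mul (by positivity)]
      refine hle.trans (ENNReal.ofReal_le_ofReal ?_)
      linarith
    have h8 := h6 _ (measurable_nX hW) h5.1
    have h9 := h6 _ (measurable_nY hW) h5.2
    have h10 : ∫⁻ c', G c' ∂(lawUp n ℓ N N') =
        ∫⁻ c', gN (Conf.nX (win (b : ℝ))) c' ∂(lawUp n ℓ N N') +
        ∫⁻ c', gN (Conf.nY (win (b : ℝ))) c' ∂(lawUp n ℓ N N') +
        ∫⁻ c', gapI N₁ (b : ℝ) ε₅ c' ∂(lawUp n ℓ N N') := by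
      have e1 := lintegral_add_left (μ := lawUp n ℓ N N')
        (f := fun c => gN (Conf.nX (win (b : ℝ))) c + gN (Conf.nY (win (b : ℝ))) c)
        ((mN _ (measurable_nX hW)).add (mN _ (measurable_nY hW))) (gapI N₁ (b : ℝ) ε₅)
      have e2 := lintegral_add_left (μ := lawUp n ℓ N N') (mN _ (measurable_nX hW))
        (gN (Conf.nY (win (b : ℝ))))
      rw [e2] at e1
      exact e1
    rw [h10]
    have h11 : ENNReal.ofReal η = ENNReal.ofReal (η / 4) + ENNReal.ofReal (η / 4) +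
        (ENNReal.ofReal (η / 4) + ENNReal.ofReal (η / 4)) := by
      rw [← ENNReal.ofReal_add (by linarith) (by linarith),
        ← ENNReal.ofReal_add (by linarith) (by linarith)]
      congr 1
      ring
    rw [h11]
    exact add_le_add (add_le_add h8 h9) (h4.trans (add_le_add hgap le_rfl))
  have hM := alive_markov hn hθ hρ hρθ k (G := fun _ => G) (fun _ => mG)
    (fun _ => ENNReal.ofReal η) (fun ℓ N N' hok => key ℓ N N' hok)
  have hE : MeasurableSet {c | Alive n θ ρ c k ∧ ¬ ((uc c k).nX (win (b : ℝ)) ≤ N₁ ∧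
        (uc c k).nY (win (b : ℝ)) ≤ N₁ ∧ GapAll ε₅ ((uc c k).filt (win (b : ℝ))))} := by
    refine (measurableSet_alive n θ ρ k).inter ?_
    have h4 : MeasurableSet {c : Conf | c.nX (win (b : ℝ)) ≤ N₁} :=
      (measurable_nX hW) (measurableSet_Iic (a := N₁))
    have h5 : MeasurableSet {c : Conf | c.nY (win (b : ℝ)) ≤ N₁} :=
      (measurable_nY hW) (measurableSet_Iic (a := N₁))
    have h6 : MeasurableSet {c : Conf | GapAll ε₅ (c.filt (win (b : ℝ)))} :=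
      (measurable_filt hW) (measurableSet_gapAll ε₅)
    exact (measurable_uc k) (h4.inter (h5.inter h6)).compl
  rw [← lintegral_indicator_one hE]
  have hstep : ∀ c, ({c | Alive n θ ρ c k ∧ ¬ ((uc c k).nX (win (b : ℝ)) ≤ N₁ ∧
        (uc c k).nY (win (b : ℝ)) ≤ N₁ ∧ GapAll ε₅ ((uc c k).filt (win (b : ℝ))))}).indicator
        (1 : Conf → ℝ≥0∞) c ≤ if Alive n θ ρ c k then G (uc c k) else 0 := by
    intro c
    by_cases hc : c ∈ {c | Alive n θ ρ c k ∧ ¬ ((uc c k).nX (win (b : ℝ)) ≤ N₁ ∧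
        (uc c k).nY (win (b : ℝ)) ≤ N₁ ∧ GapAll ε₅ ((uc c k).filt (win (b : ℝ))))}
    · rw [Set.indicator_of_mem hc, Pi.one_apply, if_pos hc.1]
      have h0 := hc.2
      have hdiv : ∀ m : ℕ, N₁ < m → (1 : ℝ≥0∞) ≤ (m : ℝ≥0∞) / (N₁ : ℝ≥0∞) := by
        intro m hm
        rw [ENNReal.le_div_iff_mul_le (Or.inl hNt) (Or.inl hNt'), one_mul]
        exact_mod_cast hm.le
      by_cases hx : (uc c k).nX (win (b : ℝ)) ≤ N₁
      · by_cases hy : (uc c k).nY (win (b : ℝ)) ≤ N₁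
        · have hg : gapI N₁ (b : ℝ) ε₅ (uc c k) = 1 := by
            unfold gapI
            rw [if_pos ⟨hx, hy, fun h => h0 ⟨hx, hy, h⟩⟩]
          show (1 : ℝ≥0∞) ≤ _ + _ + gapI N₁ (b : ℝ) ε₅ (uc c k)
          rw [hg]
          exact le_add_self
        · have h7 := hdiv _ (not_le.1 hy)
          refine h7.trans ?_
          show gN (Conf.nY (win (b : ℝ))) (uc c k) ≤ _ + gN (Conf.nY (win (b : ℝ))) (uc c k) + _
          exact le_add_right le_add_self
      · have h7 := hdiv _ (not_le.1 hx)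
        refine h7.trans ?_
        show gN (Conf.nX (win (b : ℝ))) (uc c k) ≤ gN (Conf.nX (win (b : ℝ))) (uc c k) + _ + _
        exact le_add_right le_self_add
    · rw [Set.indicator_of_notMem hc]
      exact zero_le
  refine (lintegral_mono hstep).trans (hM.trans ?_)
  calc ∫⁻ c, (if Alive n θ ρ c k then ENNReal.ofReal η else 0) ∂(Q n)
      ≤ ∫⁻ _, ENNReal.ofReal η ∂(Q n) := by
        refine lintegral_mono fun c => ?_
        dsimp only
        split_ifs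
        · exact le_rfl
        · exact zero_le
    _ = ENNReal.ofReal η := by simp

/-- choice of the parameters such that bad steps are unlikely -/
theorem badM_prob {β τ ε δ θ ε' : ℝ} (hC : Consts β τ ε δ) (hθ : 0 < θ) (hθ1 : θ < 1)
    (hε' : 0 < ε') : ∃ (K N L A N₁ : ℕ) (τ₁ r₀ ε₅ : ℝ), Params β τ ε δ K N τ₁ r₀ ∧ 0 < L ∧
      0 < N₁ ∧ 0 < ε₅ ∧ Ev (fun ρ n => ∀ m : ℕ, L ≤ m →
        Q n {c | Alive n θ ρ c (m + L + 2 * K) ∧ θ * n ≤ ((st c (m - L)).1 : ℝ) ∧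
          ¬ GoodM K N L A N₁ τ τ₁ δ r₀ ε₅ θ n c m} ≤ ENNReal.ofReal ε') := by
  have hβ := hC.βpos
  have hβ1 := hC.β1
  have hε := hC.εpos
  have hε1 := hC.ε1
  have hδ := hC.δpos
  have hτpos : 0 < τ := by rw [hC.τeq]; positivity
  have hτ1 : τ ≤ 1 := by rw [hC.τeq]; linarith
  have hδ1 : δ ≤ 1 / 10 := by
    have h1 := hC.δedge
    have h2 : τ * β * ε ≤ 1 := by
      have h3 : τ * β ≤ 1 := by nlinarith
      have h4 : 0 ≤ τ * β := by positivity
      nlinarith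
    linarith
  obtain ⟨C₁, hC₁, hfreq⟩ := cand_freq (ε := ε' / 8) (by positivity)
  obtain ⟨N, hN⟩ := exists_nat_ge (16 * 16000 / δ)
  have hN' : 16 * 16000 ≤ δ * N := by
    rw [div_le_iff₀ hδ] at hN
    linarith
  obtain ⟨C₂, a, hC₂, ha, hfalse⟩ := false_cand (N := N) (δ := δ / 16000) hτpos hτ1
    (by positivity) (by linarith) (by linarith)
  obtain ⟨lam₀, C₃, hlam, hC₃, him⟩ := im_tail
  obtain ⟨K, hK⟩ := exists_nat_ge (2 + 24 * ε / δ + 144 * C₂ * (6 * C₁ + 2) * ε ^ 2 /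
    (a ^ 2 * ε'))
  have hk1 : 0 < 24 * ε / δ := by positivity
  have hk2 : 0 < 144 * C₂ * (6 * C₁ + 2) * ε ^ 2 / (a ^ 2 * ε') := by positivity
  have hK2r : (2 : ℝ) ≤ K := by linarith
  have hK2 : 2 ≤ K := by exact_mod_cast hK2r
  have hKδ : 24 * ε / δ ≤ (K : ℝ) - 1 := by linarith
  have hKe : 144 * C₂ * (6 * C₁ + 2) * ε ^ 2 / (a ^ 2 * ε') ≤ (K : ℝ) - 1 := by linarith
  set τ₁ : ℝ := min τ (1 / (2 * K)) with hτ₁
  have hK0 : (0 : ℝ) < K := by linarith
  have hτ₁pos : 0 < τ₁ := lt_min hτpos (by positivity)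
  have hτ₁le : τ₁ ≤ τ := min_le_left _ _
  set r₀ : ℝ := ((K : ℝ) - 1) / (3 * ε) with hr₀
  have hr₀pos : 0 < r₀ := div_pos (by linarith) (by positivity)
  have hrK : 3 * ε * r₀ = (K : ℝ) - 1 := by
    rw [hr₀]
    field_simp
  have hq0 := qpat_pos (by omega : 0 < K) hτ₁pos (hτ₁le.trans hτ1)
  have hq1 := qpat_le_one K τ₁ (by omega)
  set q := qpat K τ₁ with hq
  have hpar : Params β τ ε δ K N τ₁ r₀ := by
    refine ⟨hC, hK2, hτ₁pos, hτ₁le, ?_, ?_, ?_, hrK.le, ?_, hN'⟩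
    · rw [hr₀, le_div_iff₀ (by positivity)]
      nlinarith
    · rw [hr₀, ← mul_div_assoc, le_div_iff₀ (by positivity)]
      rw [div_le_iff₀ hδ] at hKδ
      linarith
    · rw [hr₀, div_div, le_div_iff₀ (by positivity)]
      nlinarith
    · have h1 : τ₁ ≤ 1 / (2 * K) := min_le_right _ _
      have h2 : τ₁ * (2 * K) ≤ 1 := by
        rw [le_div_iff₀ (by positivity)] at h1
        exact h1
      have h3 : ε * r₀ = ((K : ℝ) - 1) / 3 := by linarith
      rw [h3]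
      nlinarith
  obtain ⟨L, hL1, hL2, hL3⟩ : ∃ L : ℕ, C₁ * (2 * K + 2) / q ≤ L ∧
      (L : ℝ) ≤ C₁ * (2 * K + 2) / q + 2 ∧ 0 < L := by
    refine ⟨⌈C₁ * (2 * K + 2) / q⌉₊ + 1, ?_, ?_, Nat.succ_pos _⟩
    · push_cast
      have := Nat.le_ceil (C₁ * (2 * K + 2) / q)
      linarith
    · push_cast
      have := (Nat.ceil_lt_add_one (by positivity : 0 ≤ C₁ * (2 * K + 2) / q)).le
      linarith
  have hL0 : (0 : ℝ) < L := by exact_mod_cast hL3
  obtain ⟨A, hA⟩ := badM_A hlam hC₃ (x := ε' / (16 * L)) (by positivity)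
  obtain ⟨N₁, ε₅, hN₁, hε₅, hgap⟩ := cnt_gap_prob (bw K (2 * L) A)
    (by unfold bw; omega) (η := ε' / (16 * L)) (by positivity)
  refine ⟨K, N, L, A, N₁, τ₁, r₀, ε₅, hpar, hL3, hN₁, hε₅, ?_⟩
  refine (((((hfreq K τ₁ θ (by omega) hτ₁pos (hτ₁le.trans hτ1) hθ hθ1).and
    (hfalse K τ₁ θ (by omega) hτ₁pos (hτ₁le.trans hτ1) hθ hθ1)).and
    (hgap θ hθ hθ1)).and (him θ hθ hθ1)).and (Ev.n_ge fun _ => 8 * r₀ / θ)).mono ?_
  rintro ρ n ⟨⟨⟨⟨e1, e2⟩, e3⟩, e4⟩, e5⟩ m hLm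
  have hJ := (Jn_spec (θ := θ) (n := n) hr₀pos (by
    rw [div_le_iff₀ hθ] at e5
    linarith)).1
  refine (badM_union hLm hr₀pos hJ (fun k => e1 k L hL1) (fun k => e2 k _ r₀ hpar.r8 hJ) e3
    (fun k => (e4 k A).trans (ENNReal.ofReal_le_ofReal hA))).trans ?_
  have hp2 : 0 ≤ C₂ * Real.exp (-(a * r₀)) * q := by positivity
  have hp3 : 0 ≤ ε' / (16 * L) := by positivity
  rw [← ENNReal.ofReal_add hp2 hp3, ← ENNReal.ofReal_add (by positivity) hp3,
    ← ENNReal.ofReal_natCast, ← ENNReal.ofReal_mul (by positivity),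
    ← ENNReal.ofReal_add (by positivity) (by positivity),
    ← ENNReal.ofReal_add (by positivity) (by positivity)]
  apply ENNReal.ofReal_le_ofReal
  have hexp := badM_exp hC₁ hC₂ ha hε hε' (x := (K : ℝ) - 1) (by linarith) hKe
  rw [← hr₀] at hexp
  have h6 : (L : ℝ) * q ≤ C₁ * (6 * ((K : ℝ) - 1)) + 2 := by
    have h7 : (L : ℝ) * q ≤ (C₁ * (2 * K + 2) / q + 2) * q :=
      mul_le_mul_of_nonneg_right hL2 hq0.le
    have h8 : (C₁ * (2 * K + 2) / q + 2) * q = C₁ * (2 * K + 2) + 2 * q := by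
      field_simp
    have h9 : C₁ * (2 * (K : ℝ) + 2) ≤ C₁ * (6 * ((K : ℝ) - 1)) :=
      mul_le_mul_of_nonneg_left (by linarith) hC₁.le
    linarith
  have h7 : (2 * L : ℝ) * (C₂ * Real.exp (-(a * r₀)) * q) ≤ ε' / 4 := by
    have h8 : 0 ≤ 2 * C₂ * Real.exp (-(a * r₀)) := by positivity
    have h9 := mul_le_mul_of_nonneg_left h6 h8
    linarith
  have h8 : (2 * L : ℝ) * (ε' / (16 * L)) = ε' / 8 := by
    field_simp
    norm_num
  push_cast
  linarith

theorem measurableSet_goodM (K N L A N₁ : ℕ) (τ τ₁ δ r₀ ε₅ θ : ℝ) (n m : ℕ) :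
    MeasurableSet {c | GoodM K N L A N₁ τ τ₁ δ r₀ ε₅ θ n c m} := by
  have mC := fun k => measurableSet_cand K τ₁ k
  have hW : MeasurableSet (win ((bw K (2 * L) A : ℕ) : ℝ)) := measurableSet_win _
  have mRel : ∀ k, MeasurableSet {c | Rel K N τ (δ / 16000) r₀ (Jn θ r₀ n) c k} := by
    intro k
    have h1 : MeasurableSet {c | ∀ j ≤ Jn θ r₀ n,
        RegUp N τ (δ / 16000) (2 ^ j * r₀) (uc c (k + 2 * K))} := by
      have : {c | ∀ j ≤ Jn θ r₀ n, RegUp N τ (δ / 16000) (2 ^ j * r₀) (uc c (k + 2 * K))} =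
          ⋂ j, ⋂ _ : j ≤ Jn θ r₀ n, {c | RegUp N τ (δ / 16000) (2 ^ j * r₀) (uc c (k + 2 * K))} := by
        ext c; simp
      rw [this]
      exact MeasurableSet.iInter fun j => MeasurableSet.iInter fun _ =>
        (measurable_uc (k + 2 * K)) (measurableSet_regUp N τ (δ / 16000) (2 ^ j * r₀))
    have h2 : MeasurableSet {c | ∀ j ≤ Jn θ r₀ n,
        RegDn N τ (1000 * (δ / 16000)) (2 ^ j * r₀) (st c k) c} := by
      have : {c | ∀ j ≤ Jn θ r₀ n, RegDn N τ (1000 * (δ / 16000)) (2 ^ j * r₀) (st c k) c} =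
          ⋂ j, ⋂ _ : j ≤ Jn θ r₀ n,
            {c | RegDn N τ (1000 * (δ / 16000)) (2 ^ j * r₀) (st c k) c} := by
        ext c; simp
      rw [this]
      exact MeasurableSet.iInter fun j => MeasurableSet.iInter fun _ =>
        measurableSet_regDn_st N τ (1000 * (δ / 16000)) (2 ^ j * r₀) k
    exact h1.inter h2
  have mX : ∀ k, MeasurableSet {c | (uc c k).nX (win ((bw K (2 * L) A : ℕ) : ℝ)) ≤ N₁} := by
    intro k
    have h4 : MeasurableSet {c : Conf | c.nX (win ((bw K (2 * L) A : ℕ) : ℝ)) ≤ N₁} :=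
      (measurable_nX hW) (measurableSet_Iic (a := N₁))
    exact (measurable_uc k) h4
  have mY : ∀ k, MeasurableSet {c | (uc c k).nY (win ((bw K (2 * L) A : ℕ) : ℝ)) ≤ N₁} := by
    intro k
    have h4 : MeasurableSet {c : Conf | c.nY (win ((bw K (2 * L) A : ℕ) : ℝ)) ≤ N₁} :=
      (measurable_nY hW) (measurableSet_Iic (a := N₁))
    exact (measurable_uc k) h4
  have mG : ∀ k, MeasurableSet
      {c | GapAll ε₅ ((uc c k).filt (win ((bw K (2 * L) A : ℕ) : ℝ)))} := by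
    intro k
    have h4 : MeasurableSet {c : Conf | GapAll ε₅ (c.filt (win ((bw K (2 * L) A : ℕ) : ℝ)))} :=
      (measurable_filt hW) (measurableSet_gapAll ε₅)
    exact (measurable_uc k) h4
  have mI : ∀ i, MeasurableSet {c | |im c i| ≤ A} := by
    intro i
    have h4 : MeasurableSet {z : ℤ | |z| ≤ A} := MeasurableSet.of_discrete
    exact (measurable_im i) h4
  have e : {c | GoodM K N L A N₁ τ τ₁ δ r₀ ε₅ θ n c m} =
      (⋃ k, ⋃ _ : m < k + L, ⋃ _ : k ≤ m, {c | Cand K τ₁ c k}) ∩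
      ((⋃ l, ⋃ _ : m < l, ⋃ _ : l ≤ m + L, {c | Cand K τ₁ c l}) ∩
      ((⋂ k, ⋂ _ : m < k + L, ⋂ _ : k ≤ m + L, ({c | Cand K τ₁ c k}ᶜ ∪
        ({c | Rel K N τ (δ / 16000) r₀ (Jn θ r₀ n) c k} ∩
        ({c | (uc c k).nX (win ((bw K (2 * L) A : ℕ) : ℝ)) ≤ N₁} ∩
        ({c | (uc c k).nY (win ((bw K (2 * L) A : ℕ) : ℝ)) ≤ N₁} ∩
        {c | GapAll ε₅ ((uc c k).filt (win ((bw K (2 * L) A : ℕ) : ℝ)))}))))) ∩
      (⋂ i, ⋂ _ : m < i + L, ⋂ _ : i ≤ m + L, {c | |im c i| ≤ A}))) := by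
    ext c
    simp only [GoodM, Set.mem_ofPred_eq, Set.mem_inter_iff, Set.mem_iUnion, Set.mem_iInter,
      Set.mem_union, Set.mem_compl_iff, exists_prop]
    refine and_congr Iff.rfl (and_congr Iff.rfl (and_congr ?_ Iff.rfl))
    refine forall_congr' fun k => forall_congr' fun _ => forall_congr' fun _ => ?_
    exact imp_iff_not_or
  rw [e]
  refine MeasurableSet.inter ?_ (MeasurableSet.inter ?_ (MeasurableSet.inter ?_ ?_))
  · exact MeasurableSet.iUnion fun k => MeasurableSet.iUnion fun _ => MeasurableSet.iUnion fun _ =>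
      mC k
  · exact MeasurableSet.iUnion fun k => MeasurableSet.iUnion fun _ => MeasurableSet.iUnion fun _ =>
      mC k
  · exact MeasurableSet.iInter fun k => MeasurableSet.iInter fun _ => MeasurableSet.iInter fun _ =>
      (mC k).compl.union ((mRel k).inter ((mX k).inter ((mY k).inter (mG k))))
  · exact MeasurableSet.iInter fun k => MeasurableSet.iInter fun _ => MeasurableSet.iInter fun _ =>
      mI k

theorem lam_close {ℓ : ℕ × ℕ} {x D : ℝ} (h0 : 0 ≤ x) (h1 : x ≤ 1)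
    (hD : |(ℓ.2 : ℝ) - ℓ.1| ≤ D) : |lam ℓ x - ℓ.1| ≤ D / 3 := by
  rw [lam_eq ℓ h0 (by linarith)]
  have h2 : (ℓ.1 : ℝ) + ((ℓ.2 : ℝ) - ℓ.1) * (x / 3) - ℓ.1 = ((ℓ.2 : ℝ) - ℓ.1) * (x / 3) := by ring
  have h3 := abs_nonneg ((ℓ.2 : ℝ) - ℓ.1)
  rw [h2, abs_mul, abs_of_nonneg (show 0 ≤ x / 3 by positivity)]
  nlinarith

/-- a point which is not too low and not too high lies in an admissible step -/
theorem step_of_point {K L N' n : ℕ} {θ ρ η τ' : ℝ} {c : Conf} (hc : InStrip n c)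
    (h : Glob N' τ' η n c) (hτ : 0 ≤ τ') (hτ1 : τ' ≤ 1) (hη : 0 < η) (hn : 0 < n)
    (hN : 2 ≤ η * N') (hθ : 0 < θ) (hθ1 : θ ≤ 1 / 20) (hηρ : 7 * η ≤ ρ) (hηθ : 24 * η ≤ θ)
    (hst : ((K : ℝ) + L + 2) * (1 + 8 * η * n) ≤ θ * n) {p : Pl} (p0 : 0 ≤ p.1) (p1 : p.1 ≤ 1)
    (h3 : 3 * θ * n < p.2) (h4 : p.2 ≤ (1 - 3 * θ) * n) :
    ∃ m, m < n ∧ L ≤ m ∧ Alive n θ ρ c (m + L + 2 * K) ∧ θ * n ≤ ((st c (m - L)).1 : ℝ) ∧
      InStep c (m + K) p := by
  classical
  have hn' : (0 : ℝ) < n := by exact_mod_cast hn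
  have hθn : 0 < θ * n := mul_pos hθ hn'
  have hηn : 0 < η * n := mul_pos hη hn'
  have hx : 24 * (η * n) ≤ θ * n := by
    have := mul_le_mul_of_nonneg_right hηθ hn'.le
    linarith
  have hy : 20 * (θ * n) ≤ n := by
    have := mul_le_mul_of_nonneg_right hθ1 hn'.le
    linarith
  have hw : 0 ≤ 1 + 8 * η * n := by positivity
  -- the step containing `p`
  have hex : ∃ j, p ∈ below (st c j) := by
    refine ⟨n, ?_⟩
    have h5 : ((n, n) : ℕ × ℕ) ≤ st c n := by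
      have := ex_add_le 0 c 0 n
      rw [zero_add] at this
      constructor
      · have := this.1
        show n ≤ (st c n).1
        unfold st
        omega
      · have := this.2
        show n ≤ (st c n).2
        unfold st
        omega
    have h6 := lam_mono h5 p.1
    rw [lam_diag] at h6
    show p.2 ≤ lam (st c n) p.1
    linarith
  obtain ⟨j, hj1, hj2, hjn⟩ : ∃ j, p ∈ above (st c j) ∧ p ∈ below (st c (j + 1)) ∧ j < n := by
    have h7 : Nat.find hex ≠ 0 := by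
      intro h0
      have h8 := Nat.find_spec hex
      rw [h0] at h8
      have h9 : p.2 ≤ lam (0, 0) p.1 := h8
      rw [lam_zero] at h9
      linarith
    obtain ⟨j, hj⟩ := Nat.exists_eq_succ_of_ne_zero h7
    refine ⟨j, ?_, ?_, ?_⟩
    · have h8 : p ∉ below (st c j) := Nat.find_min hex (by omega)
      rw [above_eq]
      exact h8
    · have h8 := Nat.find_spec hex
      rw [hj] at h8
      exact h8
    · have h8 : Nat.find hex ≤ n := by
        refine Nat.find_min' hex ?_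
        have h5 : ((n, n) : ℕ × ℕ) ≤ st c n := by
          have := ex_add_le 0 c 0 n
          rw [zero_add] at this
          constructor
          · have := this.1
            show n ≤ (st c n).1
            unfold st
            omega
          · have := this.2
            show n ≤ (st c n).2
            unfold st
            omega
        have h6 := lam_mono h5 p.1
        rw [lam_diag] at h6
        show p.2 ≤ lam (st c n) p.1
        linarith
      omega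
  have hj1' : lam (st c j) p.1 < p.2 := hj1
  have hj2' : p.2 ≤ lam (st c (j + 1)) p.1 := hj2
  -- all the lines up to `j` are low
  have hends : ∀ k ≤ j, ((st c k).1 ≤ n ∧ (st c k).2 ≤ n) ∧
      ((st c k).1 : ℝ) ≤ (1 - 3 * θ) * n + 2 * (η * n) := by
    intro k
    induction k using Nat.strong_induction_on with
    | _ k ih =>
      intro hk
      have hf := (glob_flat hc h hτ hτ1 hη hn hN k
        (fun i hi => (ih i hi (by omega)).1)).1
      have hl := lam_close p0 p1 hf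
      have hm := lam_mono (ex_mono 0 c hk) p.1
      have hm' : lam (st c k) p.1 ≤ lam (st c j) p.1 := hm
      have hl' := abs_le.1 hl
      have hf' := abs_le.1 hf
      have b1 : ((st c k).1 : ℝ) ≤ (1 - 3 * θ) * n + 2 * (η * n) := by linarith
      have b2 : ((st c k).2 : ℝ) ≤ n := by linarith
      refine ⟨⟨?_, by exact_mod_cast b2⟩, b1⟩
      have b3 : ((st c k).1 : ℝ) ≤ n := by linarith
      exact_mod_cast b3
  have hflat := (glob_flat hc h hτ hτ1 hη hn hN (j + 1)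
    (fun i hi => (hends i (by omega)).1)).1
  have hl := abs_le.1 (lam_close p0 p1 hflat)
  have hlow : 3 * (θ * n) - 2 * (η * n) ≤ ((st c (j + 1)).1 : ℝ) := by linarith
  have hj3 := (hends j le_rfl).2
  -- `j` is not too small
  have hjKL : K + L ≤ j := by
    by_contra hlt
    push Not at hlt
    have hcast : ((j + 1 : ℕ) : ℝ) ≤ K + L := by exact_mod_cast hlt
    have h5 : ((j + 1 : ℕ) : ℝ) * (1 + 8 * η * n) ≤ (K + L) * (1 + 8 * η * n) :=
      mul_le_mul_of_nonneg_right hcast hw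
    have h6 := glob_step hc h hτ hτ1 hη hn hN hθ (by linarith) 0 (j + 1)
      (by
        have : ((st c 0).1 : ℝ) = 0 := by simp [st, ex]
        rw [this]
        linarith)
    rw [zero_add] at h6
    have h7 : ((st c 0).1 : ℝ) = 0 := by simp [st, ex]
    rw [h7] at h6
    linarith
  obtain ⟨m, rfl⟩ : ∃ m, j = m + K := ⟨j - K, by omega⟩
  refine ⟨m, by omega, by omega, ?_, ?_, hj1, hj2⟩
  · refine glob_alive hc h hτ hτ1 hη hn hN hθ (by linarith) hηρ _ ?_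
    have h5 : ((L + K : ℕ) : ℝ) * (1 + 8 * η * n) ≤ θ * n := by
      push_cast
      linarith
    have h6 := glob_step hc h hτ hτ1 hη hn hN hθ (by linarith) (m + K) (L + K)
      (by linarith)
    have h7 : m + K + (L + K) = m + L + 2 * K := by ring
    rw [h7] at h6
    linarith
  · have h5 : ((K + L + 1 : ℕ) : ℝ) * (1 + 8 * η * n) ≤ θ * n := by
      push_cast
      linarith
    have h8 : ((st c (m - L)).1 : ℝ) ≤ ((st c (m + K)).1 : ℝ) := by
      have := (ex_mono 0 c (show m - L ≤ m + K by omega)).1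
      exact_mod_cast this
    have h6 := glob_step hc h hτ hτ1 hη hn hN hθ (by linarith) (m - L) (K + L + 1)
      (by linarith)
    have h7 : m - L + (K + L + 1) = m + K + 1 := by omega
    rw [h7] at h6
    linarith

theorem nX_le_card (R : Set Pl) (c : Conf) : c.nX R ≤ c.X.card := by
  classical
  exact Multiset.card_le_card (Multiset.filter_le _ _)

theorem nX_union_le (R R' : Set Pl) (c : Conf) : c.nX (R ∪ R') ≤ c.nX R + c.nX R' := by
  have h1 : R ∪ R' = R ∪ (R' \ R) := by rw [Set.union_sdiff_self]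
  rw [h1, nX_union Set.disjoint_sdiff_right]
  exact Nat.add_le_add_left (nX_mono Set.sdiff_subset c) _

theorem nX_biUnion_le (s : Finset ℕ) (R : ℕ → Set Pl) (c : Conf) :
    c.nX {p | ∃ m ∈ s, p ∈ R m} ≤ ∑ m ∈ s, c.nX (R m) := by
  classical
  induction s using Finset.induction_on with
  | empty =>
    have : {p : Pl | ∃ m ∈ (∅ : Finset ℕ), p ∈ R m} = ∅ := by
      ext p
      simp
    rw [this, nX_empty]
    exact Nat.zero_le _
  | insert a s ha ih =>
    have h1 : {p : Pl | ∃ m ∈ insert a s, p ∈ R m} = R a ∪ {p | ∃ m ∈ s, p ∈ R m} := by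
      ext p
      simp
    rw [h1, Finset.sum_insert ha]
    exact (nX_union_le _ _ c).trans (Nat.add_le_add_left ih _)

open Classical in
/-- deterministic bound of the number of points which are not in good steps -/
theorem badCount_le (K N L A N₁ : ℕ) (τ τ₁ δ r₀ ε₅ : ℝ) {θ ρ η τ' : ℝ} {N' n : ℕ} {c : Conf}
    (hc : InStrip n c) (hcX : c.X.card = n) (h : Glob N' τ' η n c) (hτ : 0 ≤ τ') (hτ1 : τ' ≤ 1)
    (hη : 0 < η) (hn : 0 < n) (hN : 2 ≤ η * N') (hθ : 0 < θ) (hθ1 : θ ≤ 1 / 20)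
    (hηρ : 7 * η ≤ ρ) (hηθ : 24 * η ≤ θ)
    (hst : ((K : ℝ) + L + 2) * (1 + 8 * η * n) ≤ θ * n) :
    (badCount K N L A N₁ τ τ₁ δ r₀ ε₅ θ ρ n c : ℝ) ≤ 7 * θ * n +
      ∑ m ∈ Finset.range n, (if L ≤ m ∧ Alive n θ ρ c (m + L + 2 * K) ∧
        θ * n ≤ ((st c (m - L)).1 : ℝ) ∧ ¬ GoodM K N L A N₁ τ τ₁ δ r₀ ε₅ θ n c m
        then (stepX c (m + K) : ℝ) else 0) := by
  have hn' : (0 : ℝ) < n := by exact_mod_cast hn
  have hθn : 0 < θ * n := mul_pos hθ hn'
  have hηn : 0 < η * n := mul_pos hη hn'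
  have hx : 24 * (η * n) ≤ θ * n := by
    have := mul_le_mul_of_nonneg_right hηθ hn'.le
    linarith
  have hy : 20 * (θ * n) ≤ n := by
    have := mul_le_mul_of_nonneg_right hθ1 hn'.le
    linarith
  set cond : ℕ → Prop := fun m => L ≤ m ∧ Alive n θ ρ c (m + L + 2 * K) ∧
        θ * n ≤ ((st c (m - L)).1 : ℝ) ∧ ¬ GoodM K N L A N₁ τ τ₁ δ r₀ ε₅ θ n c m with hcond
  set lowS : Set Pl := {p | 0 < p.2 ∧ p.2 ≤ 3 * θ * n} with hlowS
  set midS : Set Pl := {p | 0 < p.2 ∧ p.2 ≤ (1 - 3 * θ) * n} with hmidS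
  set topS : Set Pl := {p | (1 - 3 * θ) * n < p.2} with htopS
  have h1 : badCount K N L A N₁ τ τ₁ δ r₀ ε₅ θ ρ n c ≤
      c.nX (lowS ∪ (topS ∪ {p | ∃ m ∈ (Finset.range n).filter cond,
        p ∈ above (st c (m + K)) ∩ below (st c (m + K + 1))})) := by
    refine nX_le_of fun p hp hbad => ?_
    obtain ⟨p0, p1, p2, p3⟩ := hc.X p hp
    by_cases ha : p.2 ≤ 3 * θ * n
    · exact Or.inl ⟨p2, ha⟩
    · push Not at ha
      by_cases hb : (1 - 3 * θ) * n < p.2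
      · exact Or.inr (Or.inl hb)
      · push Not at hb
        refine Or.inr (Or.inr ?_)
        obtain ⟨m, m1, m2, m3, m4, m5⟩ := step_of_point (K := K) (L := L) hc h hτ hτ1 hη hn hN hθ
          hθ1 hηρ hηθ hst p0 p1 ha hb
        refine ⟨m, Finset.mem_filter.2 ⟨Finset.mem_range.2 m1, m2, m3, m4, ?_⟩, m5.1, m5.2⟩
        intro hgood
        exact hbad ⟨m, m2, m3, hgood, m5⟩
  have h2 : c.nX (lowS ∪ (topS ∪ {p | ∃ m ∈ (Finset.range n).filter cond,
        p ∈ above (st c (m + K)) ∩ below (st c (m + K + 1))})) ≤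
      c.nX lowS + (c.nX topS + ∑ m ∈ (Finset.range n).filter cond, stepX c (m + K)) :=
    (nX_union_le _ _ c).trans (Nat.add_le_add_left ((nX_union_le _ _ c).trans
      (Nat.add_le_add_left (nX_biUnion_le _ _ c) _)) _)
  have h3 : (c.nX lowS : ℝ) ≤ 3 * (θ * n) + η * n := by
    have := abs_le.1 (h.cont hτ hτ1 hn hN (3 * θ * n) (by positivity) (by linarith)).1
    have h4 := this.2
    rw [hlowS]
    linarith
  have h4 : (c.nX topS : ℝ) ≤ 3 * (θ * n) + η * n := by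
    have h5 := abs_le.1 (h.cont hτ hτ1 hn hN ((1 - 3 * θ) * n) (by linarith) (by linarith)).1
    have h6 := h5.1
    have h7 : c.nX midS + c.nX topS ≤ n := by
      have hdis : Disjoint midS topS := Set.disjoint_left.2 fun p hp hp' => not_lt.2 hp.2 hp'
      rw [← nX_union hdis]
      have := nX_le_card (midS ∪ topS) c
      omega
    have h8 : (c.nX midS : ℝ) + c.nX topS ≤ n := by exact_mod_cast h7
    have h9 : (1 - 3 * θ) * n - η * n ≤ (c.nX midS : ℝ) := by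
      rw [hmidS]
      linarith
    linarith
  have h5 : (badCount K N L A N₁ τ τ₁ δ r₀ ε₅ θ ρ n c : ℝ) ≤
      c.nX lowS + (c.nX topS + ∑ m ∈ (Finset.range n).filter cond, (stepX c (m + K) : ℝ)) := by
    exact_mod_cast h1.trans h2
  rw [Finset.sum_filter] at h5
  have h6 : ∑ m ∈ Finset.range n, (if cond m then (stepX c (m + K) : ℝ) else 0) =
      ∑ m ∈ Finset.range n, (if L ≤ m ∧ Alive n θ ρ c (m + L + 2 * K) ∧
        θ * n ≤ ((st c (m - L)).1 : ℝ) ∧ ¬ GoodM K N L A N₁ τ τ₁ δ r₀ ε₅ θ n c m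
        then (stepX c (m + K) : ℝ) else 0) := rfl
  rw [← h6]
  linarith

/-- the event in the bound of `badCount` -/
def BadEv (K N L A N₁ : ℕ) (τ τ₁ δ r₀ ε₅ θ ρ : ℝ) (n m : ℕ) (c : Conf) : Prop :=
  L ≤ m ∧ Alive n θ ρ c (m + L + 2 * K) ∧ θ * n ≤ ((st c (m - L)).1 : ℝ) ∧
    ¬ GoodM K N L A N₁ τ τ₁ δ r₀ ε₅ θ n c m

theorem measurableSet_badEv (K N L A N₁ : ℕ) (τ τ₁ δ r₀ ε₅ θ ρ : ℝ) (n m : ℕ) :
    MeasurableSet {c | BadEv K N L A N₁ τ τ₁ δ r₀ ε₅ θ ρ n m c} := by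
  have h1 : MeasurableSet {c : Conf | θ * n ≤ ((st c (m - L)).1 : ℝ)} := by
    have hm : Measurable (fun c : Conf => (st c (m - L)).1) :=
      measurable_fst.comp (measurable_st (m - L))
    have hm2 : Measurable (fun c : Conf => (((st c (m - L)).1 : ℕ) : ℝ)) :=
      (measurable_from_top (f := fun k : ℕ => (k : ℝ))).comp hm
    exact measurableSet_le measurable_const hm2
  have h2 : {c | BadEv K N L A N₁ τ τ₁ δ r₀ ε₅ θ ρ n m c} =
      {_c : Conf | L ≤ m} ∩ ({c | Alive n θ ρ c (m + L + 2 * K)} ∩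
        ({c : Conf | θ * n ≤ ((st c (m - L)).1 : ℝ)} ∩
          {c | GoodM K N L A N₁ τ τ₁ δ r₀ ε₅ θ n c m}ᶜ)) := by
    ext c
    simp [BadEv]
  rw [h2]
  exact (MeasurableSet.const _).inter ((measurableSet_alive _ _ _ _).inter
    (h1.inter (measurableSet_goodM _ _ _ _ _ _ _ _ _ _ _ _ _).compl))

open Classical in
theorem badEv_int {K N L A N₁ : ℕ} {τ τ₁ δ r₀ ε₅ θ ρ : ℝ} {n m : ℕ} {C M ε' : ℝ} (hC : 0 < C)
    (hM : 0 < M) (hε' : 0 < ε')
    (h1 : L ≤ m → Q n {c | Alive n θ ρ c (m + L + 2 * K) ∧ θ * n ≤ ((st c (m - L)).1 : ℝ) ∧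
          ¬ GoodM K N L A N₁ τ τ₁ δ r₀ ε₅ θ n c m} ≤ ENNReal.ofReal ε')
    (h2 : ∫⁻ c, (if Alive n θ ρ c (m + K) then (stepX c (m + K) : ℝ≥0∞) ^ 2 else 0) ∂(Q n) ≤
        ENNReal.ofReal C) :
    ∫⁻ c, (if BadEv K N L A N₁ τ τ₁ δ r₀ ε₅ θ ρ n m c then (stepX c (m + K) : ℝ≥0∞) else 0)
      ∂(Q n) ≤ ENNReal.ofReal (M * ε' + C / M) := by
  set S := {c | BadEv K N L A N₁ τ τ₁ δ r₀ ε₅ θ ρ n m c} with hS
  have hSm : MeasurableSet S := measurableSet_badEv _ _ _ _ _ _ _ _ _ _ _ _ _ _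
  have hQS : Q n S ≤ ENNReal.ofReal ε' := by
    by_cases hL : L ≤ m
    · refine (measure_mono ?_).trans (h1 hL)
      rintro c ⟨-, h3⟩
      exact h3
    · have : S = ∅ := by
        ext c
        simp [hS, BadEv, hL]
      rw [this, measure_empty]
      exact zero_le
  have hpt : ∀ c, (if BadEv K N L A N₁ τ τ₁ δ r₀ ε₅ θ ρ n m c then (stepX c (m + K) : ℝ≥0∞) else 0)
      ≤ ENNReal.ofReal M * S.indicator (fun _ => 1) c + ENNReal.ofReal (1 / M) *
        (if Alive n θ ρ c (m + K) then (stepX c (m + K) : ℝ≥0∞) ^ 2 else 0) := by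
    intro c
    by_cases hc : BadEv K N L A N₁ τ τ₁ δ r₀ ε₅ θ ρ n m c
    · have hal : Alive n θ ρ c (m + K) := fun j hj => hc.2.1 j (by omega)
      rw [if_pos hc, if_pos hal, Set.indicator_of_mem (show c ∈ S from hc), mul_one]
      have e1 : (stepX c (m + K) : ℝ≥0∞) = ENNReal.ofReal (stepX c (m + K) : ℝ) :=
        (ENNReal.ofReal_natCast _).symm
      rw [e1, ← ENNReal.ofReal_pow (Nat.cast_nonneg _), ← ENNReal.ofReal_mul (by positivity),
        ← ENNReal.ofReal_add hM.le (by positivity)]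
      apply ENNReal.ofReal_le_ofReal
      set x : ℝ := (stepX c (m + K) : ℝ)
      have hx : 0 ≤ x := Nat.cast_nonneg _
      rcases le_total x M with h | h
      · have : 0 ≤ 1 / M * x ^ 2 := by positivity
        linarith
      · have h5 : x ≤ 1 / M * x ^ 2 := by
          rw [div_mul_eq_mul_div, one_mul, le_div_iff₀ hM]
          nlinarith
        linarith
    · rw [if_neg hc]
      exact zero_le
  calc ∫⁻ c, (if BadEv K N L A N₁ τ τ₁ δ r₀ ε₅ θ ρ n m c then (stepX c (m + K) : ℝ≥0∞) else 0)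
        ∂(Q n)
      ≤ ∫⁻ c, (ENNReal.ofReal M * S.indicator (fun _ => 1) c + ENNReal.ofReal (1 / M) *
        (if Alive n θ ρ c (m + K) then (stepX c (m + K) : ℝ≥0∞) ^ 2 else 0)) ∂(Q n) :=
        lintegral_mono hpt
    _ = ENNReal.ofReal M * Q n S + ENNReal.ofReal (1 / M) *
        ∫⁻ c, (if Alive n θ ρ c (m + K) then (stepX c (m + K) : ℝ≥0∞) ^ 2 else 0) ∂(Q n) := by
        rw [lintegral_add_left (by
          exact (measurable_const.indicator hSm).const_mul _),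
          lintegral_const_mul' _ _ ENNReal.ofReal_ne_top,
          lintegral_const_mul' _ _ ENNReal.ofReal_ne_top, lintegral_indicator hSm]
        simp
    _ ≤ ENNReal.ofReal M * ENNReal.ofReal ε' + ENNReal.ofReal (1 / M) * ENNReal.ofReal C := by
        gcongr
    _ = ENNReal.ofReal (M * ε' + C / M) := by
        rw [← ENNReal.ofReal_mul hM.le, ← ENNReal.ofReal_mul (by positivity),
          ← ENNReal.ofReal_add (by positivity) (by positivity)]
        congr 1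
        ring

theorem bad_small {β τ ε δ θ : ℝ} (hC : Consts β τ ε δ) (hθ : 0 < θ) (hθ1 : θ ≤ 1 / 20) :
    ∃ (K N L A N₁ : ℕ) (τ₁ r₀ ε₅ : ℝ), Params β τ ε δ K N τ₁ r₀ ∧ 0 < L ∧ 0 < N₁ ∧ 0 < ε₅ ∧
      Ev (fun ρ n => Q n {c | 8 * θ * n < badCount K N L A N₁ τ τ₁ δ r₀ ε₅ θ ρ n c} ≤
        ENNReal.ofReal θ) := by
  classical
  obtain ⟨C, hC0, hsq⟩ := stepX_sq
  set M : ℝ := 4 * C / θ ^ 2 with hM
  have hMpos : 0 < M := by positivity
  set ε' : ℝ := θ ^ 2 / (4 * M) with hε'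
  have hε'pos : 0 < ε' := by positivity
  have hsum : M * ε' + C / M = θ ^ 2 / 2 := by
    rw [hε', hM]
    field_simp
    ring
  obtain ⟨K, N, L, A, N₁, τ₁, r₀, ε₅, hp, hL, hN₁, hε₅, hbad⟩ :=
    badM_prob hC hθ (by linarith : θ < 1) hε'pos
  refine ⟨K, N, L, A, N₁, τ₁, r₀, ε₅, hp, hL, hN₁, hε₅, ?_⟩
  obtain ⟨ρ₀, hρ₀, hE⟩ := hbad.and (hsq θ hθ (by linarith))
  refine ⟨ρ₀, hρ₀, fun ρ hρ hρle => ?_⟩
  obtain ⟨n₁, hn₁⟩ := hE ρ hρ hρle
  set D : ℝ := (K : ℝ) + L + 2 with hD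
  have hDpos : 0 < D := by positivity
  set η : ℝ := min (ρ / 7) (θ / (400 * D)) with hη
  have hηpos : 0 < η := lt_min (by positivity) (by positivity)
  have hη7 : 7 * η ≤ ρ := by
    have := min_le_left (ρ / 7) (θ / (400 * D))
    rw [← hη] at this
    linarith
  have hηD : 400 * D * η ≤ θ := by
    have := min_le_right (ρ / 7) (θ / (400 * D))
    rw [← hη, le_div_iff₀ (by positivity)] at this
    linarith
  have hD2 : 2 ≤ D := by
    have h1 : (0 : ℝ) ≤ K := Nat.cast_nonneg _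
    have h2 : (0 : ℝ) ≤ L := Nat.cast_nonneg _
    linarith
  have hη24 : 24 * η ≤ θ := by nlinarith
  set N' : ℕ := ⌈3 / η⌉₊ with hN'
  have hN'η : 2 ≤ η * N' := by
    have h1 : 3 / η ≤ N' := Nat.le_ceil _
    rw [div_le_iff₀ hηpos] at h1
    linarith
  have hN'pos : 0 < N' := by
    rw [hN']
    exact Nat.ceil_pos.mpr (by positivity)
  obtain ⟨n₂, hn₂⟩ := glob_prob (N' := N') (τ' := 1) (η := η) hN'pos one_pos le_rfl hηpos
    (by linarith) (ε := θ / 2) (by positivity)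
  refine ⟨max (max n₁ n₂) (⌈2 * D / θ⌉₊ + 1), fun n hn => ?_⟩
  have hnn₁ : n₁ ≤ n := le_trans (le_trans (le_max_left _ _) (le_max_left _ _)) hn
  have hnn₂ : n₂ ≤ n := le_trans (le_trans (le_max_right _ _) (le_max_left _ _)) hn
  have hnD : ⌈2 * D / θ⌉₊ + 1 ≤ n := le_trans (le_max_right _ _) hn
  have hnpos : 0 < n := by omega
  have hnR : (0 : ℝ) < n := by exact_mod_cast hnpos
  have hDn : 2 * D ≤ θ * n := by
    have h1 : 2 * D / θ ≤ ⌈2 * D / θ⌉₊ := Nat.le_ceil _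
    have h2 : ((⌈2 * D / θ⌉₊ + 1 : ℕ) : ℝ) ≤ n := by exact_mod_cast hnD
    push_cast at h2
    have h3 : 2 * D / θ ≤ n := by linarith
    rw [div_le_iff₀ hθ] at h3
    linarith
  have hst : D * (1 + 8 * η * n) ≤ θ * n := by
    have h1 : D * (8 * η * n) ≤ θ * n / 50 := by
      have : D * (8 * η * n) = (400 * D * η) * n / 50 := by ring
      rw [this]
      gcongr
    linarith [h1, mul_pos hθ hnR]
  obtain ⟨hbadn, hsqn⟩ := hn₁ n hnn₁
  have hglob := hn₂ n hnn₂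
  -- the sum
  set S : Conf → ℝ≥0∞ := fun c => ∑ m ∈ Finset.range n,
    (if BadEv K N L A N₁ τ τ₁ δ r₀ ε₅ θ ρ n m c then (stepX c (m + K) : ℝ≥0∞) else 0) with hS
  have hterm : ∀ m : ℕ, Measurable (fun c : Conf =>
      (if BadEv K N L A N₁ τ τ₁ δ r₀ ε₅ θ ρ n m c then (stepX c (m + K) : ℝ≥0∞) else 0)) := by
    intro m
    apply Measurable.ite (measurableSet_badEv _ _ _ _ _ _ _ _ _ _ _ _ _ _)
    · exact (measurable_from_top (f := fun k : ℕ => (k : ℝ≥0∞))).comp (measurable_stepX (m + K))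
    · exact measurable_const
  have hSm : Measurable S := Finset.measurable_sum _ (fun m _ => hterm m)
  have hSint : ∫⁻ c, S c ∂(Q n) ≤ n * ENNReal.ofReal (θ ^ 2 / 2) := by
    rw [hS, lintegral_finsetSum _ (fun m _ => hterm m)]
    calc ∑ m ∈ Finset.range n, ∫⁻ c, (if BadEv K N L A N₁ τ τ₁ δ r₀ ε₅ θ ρ n m c then
          (stepX c (m + K) : ℝ≥0∞) else 0) ∂(Q n)
        ≤ ∑ _m ∈ Finset.range n, ENNReal.ofReal (θ ^ 2 / 2) := by
          apply Finset.sum_le_sum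
          intro m _
          rw [← hsum]
          exact badEv_int hC0 hMpos hε'pos (hbadn m) (hsqn (m + K))
      _ = n * ENNReal.ofReal (θ ^ 2 / 2) := by
          rw [Finset.sum_const, Finset.card_range, nsmul_eq_mul]
  have hmk : Q n {c | ENNReal.ofReal (θ * n) ≤ S c} ≤ ENNReal.ofReal (θ / 2) := by
    have h1 := meas_ge_le_lintegral_div (μ := Q n) hSm.aemeasurable
      (ε := ENNReal.ofReal (θ * n)) (by
        rw [Ne, ENNReal.ofReal_eq_zero, not_le]; positivity) ENNReal.ofReal_ne_top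
    refine h1.trans ?_
    apply ENNReal.div_le_of_le_mul
    refine hSint.trans ?_
    rw [← ENNReal.ofReal_mul (by positivity), ← ENNReal.ofReal_natCast,
      ← ENNReal.ofReal_mul hnR.le]
    apply ENNReal.ofReal_le_ofReal
    apply le_of_eq
    ring
  have hae : ∀ᵐ c ∂(Q n), InStrip n c ∧ c.X.card = n := by
    have h1 := ae_inStrip n
    have := smp_prob 0 hnpos
    have := smp_prob 2 hnpos
    have h2 := iid_card (smp 0 n) (smp 2 n) n n
    filter_upwards [h1, h2] with c h3 h4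
    exact ⟨h3, h4.1⟩
  have hsub : {c | 8 * θ * n < badCount K N L A N₁ τ τ₁ δ r₀ ε₅ θ ρ n c} ⊆
      {c | ¬ (InStrip n c ∧ c.X.card = n)} ∪ ({c | ¬ Glob N' 1 η n c} ∪
        {c | ENNReal.ofReal (θ * n) ≤ S c}) := by
    intro c hc
    by_cases h1 : InStrip n c ∧ c.X.card = n
    · right
      by_cases h2 : Glob N' 1 η n c
      · right
        have h3 := badCount_le K N L A N₁ τ τ₁ δ r₀ ε₅ (θ := θ) (ρ := ρ) h1.1 h1.2 h2
          zero_le_one le_rfl hηpos hnpos hN'η hθ hθ1 hη7 hη24 hst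
        have h4 : θ * n < ∑ m ∈ Finset.range n, (if L ≤ m ∧ Alive n θ ρ c (m + L + 2 * K) ∧
            θ * n ≤ ((st c (m - L)).1 : ℝ) ∧ ¬ GoodM K N L A N₁ τ τ₁ δ r₀ ε₅ θ n c m
            then (stepX c (m + K) : ℝ) else 0) := by
          have hc' : 8 * θ * n < badCount K N L A N₁ τ τ₁ δ r₀ ε₅ θ ρ n c := hc
          linarith
        have h5 : S c = ENNReal.ofReal (∑ m ∈ Finset.range n,
            (if L ≤ m ∧ Alive n θ ρ c (m + L + 2 * K) ∧
            θ * n ≤ ((st c (m - L)).1 : ℝ) ∧ ¬ GoodM K N L A N₁ τ τ₁ δ r₀ ε₅ θ n c m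
            then (stepX c (m + K) : ℝ) else 0)) := by
          rw [ENNReal.ofReal_sum_of_nonneg]
          · rw [hS]
            apply Finset.sum_congr rfl
            intro m _
            by_cases hb : BadEv K N L A N₁ τ τ₁ δ r₀ ε₅ θ ρ n m c
            · have hb' : L ≤ m ∧ Alive n θ ρ c (m + L + 2 * K) ∧
                  θ * n ≤ ((st c (m - L)).1 : ℝ) ∧
                  ¬ GoodM K N L A N₁ τ τ₁ δ r₀ ε₅ θ n c m := hb
              rw [if_pos hb, if_pos hb']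
              exact (ENNReal.ofReal_natCast _).symm
            · have hb' : ¬ (L ≤ m ∧ Alive n θ ρ c (m + L + 2 * K) ∧
                  θ * n ≤ ((st c (m - L)).1 : ℝ) ∧
                  ¬ GoodM K N L A N₁ τ τ₁ δ r₀ ε₅ θ n c m) := hb
              rw [if_neg hb, if_neg hb']
              exact ENNReal.ofReal_zero.symm
          · intro m _
            split_ifs
            · exact Nat.cast_nonneg _
            · exact le_rfl
        change ENNReal.ofReal (θ * n) ≤ S c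
        rw [h5]
        exact ENNReal.ofReal_le_ofReal h4.le
      · left
        exact h2
    · left
      exact h1
  calc Q n {c | 8 * θ * n < badCount K N L A N₁ τ τ₁ δ r₀ ε₅ θ ρ n c}
      ≤ Q n ({c | ¬ (InStrip n c ∧ c.X.card = n)} ∪ ({c | ¬ Glob N' 1 η n c} ∪
        {c | ENNReal.ofReal (θ * n) ≤ S c})) := measure_mono hsub
    _ ≤ Q n {c | ¬ (InStrip n c ∧ c.X.card = n)} + (Q n {c | ¬ Glob N' 1 η n c} +
        Q n {c | ENNReal.ofReal (θ * n) ≤ S c}) :=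
        (measure_union_le _ _).trans (add_le_add le_rfl (measure_union_le _ _))
    _ ≤ 0 + (ENNReal.ofReal (θ / 2) + ENNReal.ofReal (θ / 2)) := by
        gcongr
        exact (ae_iff.mp hae).le
    _ = ENNReal.ofReal θ := by
        rw [zero_add, ← ENNReal.ofReal_add (by positivity) (by positivity)]
        congr 1
        ring

end Pool.Agent.H27.OTC
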