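import Pool.Agent.H27.OTC.Markov

/-!
Chebyshev's inequality for averages over an independent sample; the laws of large numbers
used in `GlobL.psi_lln` and `LimFun.limPhi_fst`, `LimFun.limPhi_snd`.
-/

set_option autoImplicit false

open MeasureTheory ProbabilityTheory
open scoped ENNReal

namespace Pool.Agent.H27.OTC

open Pool.Agent.H96.OT (Pl)

/-- Chebyshev's inequality for sums of independent identically distributed bounded variables -/
theorem cheb_pi {μ : Measure Pl} [IsProbabilityMeasure μ] {f : Pl → ℝ} (hf : Measurable f)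
    {M : ℝ} (hM : ∀ z, |f z| ≤ M) {n : ℕ} (hn : 0 < n) {ε : ℝ} (hε : 0 < ε) :
    (Measure.pi fun _ : Fin n => μ) {x | ε * n < |∑ i, f (x i) - n * ∫ z, f z ∂μ|} ≤
      ENNReal.ofReal (M ^ 2 / (ε ^ 2 * n)) := by
  have hn' : (0 : ℝ) < n := by exact_mod_cast hn
  have hmem : MemLp f 2 μ := by
    refine memLp_of_bounded (a := -M) (b := M) ?_ hf.aestronglyMeasurable 2
    exact Filter.Eventually.of_forall fun z => abs_le.mp (hM z)
  have hint : Integrable f μ := hmem.integrable (by norm_num)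
  set S : (Fin n → Pl) → ℝ := ∑ i : Fin n, fun ω : Fin n → Pl => f (ω i) with hS
  have hSmem : MemLp S 2 (Measure.pi fun _ : Fin n => μ) := by
    refine memLp_finsetSum' _ fun i _ => ?_
    exact hmem.comp_measurePreserving (measurePreserving_eval _ i)
  have hmean : ∫ ω, S ω ∂(Measure.pi fun _ : Fin n => μ) = n * ∫ z, f z ∂μ := by
    have h1 : ∀ i : Fin n, ∫ ω, f (ω i) ∂(Measure.pi fun _ : Fin n => μ) = ∫ z, f z ∂μ := by
      intro i
      exact integral_comp_eval (μ := fun _ : Fin n => μ) (i := i) hf.aestronglyMeasurable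
    have h2 : ∀ ω, S ω = ∑ i, f (ω i) := fun ω => by rw [hS, Finset.sum_apply]
    simp only [h2]
    rw [integral_finsetSum]
    · simp only [h1, Finset.sum_const, Finset.card_univ, Fintype.card_fin, nsmul_eq_mul]
    · intro i _
      exact (hmem.comp_measurePreserving (measurePreserving_eval (fun _ : Fin n => μ) i)).integrable
        (by norm_num)
  have hvar : Var[S; Measure.pi fun _ : Fin n => μ] ≤ n * M ^ 2 := by
    rw [hS, variance_sum_pi (fun _ => hmem)]
    simp only [Finset.sum_const, Finset.card_univ, Fintype.card_fin, nsmul_eq_mul]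
    refine mul_le_mul_of_nonneg_left ?_ hn'.le
    refine (variance_le_sq_of_bounded (a := -M) (b := M)
      (Filter.Eventually.of_forall fun z => abs_le.mp (hM z)) hf.aemeasurable).trans ?_
    have : (M - -M) / 2 = M := by ring
    rw [this]
  have hch := meas_ge_le_variance_div_sq hSmem (c := ε * n) (by positivity)
  refine (measure_mono ?_).trans (hch.trans ?_)
  · intro ω hω
    have h2 : S ω = ∑ i, f (ω i) := by rw [hS, Finset.sum_apply]
    have hω' : ε * n < |∑ i, f (ω i) - n * ∫ z, f z ∂μ| := hω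
    show ε * n ≤ |S ω - ∫ ω, S ω ∂(Measure.pi fun _ : Fin n => μ)|
    rw [hmean, h2]
    exact hω'.le
  · refine ENNReal.ofReal_le_ofReal ?_
    rw [div_le_div_iff₀ (by positivity) (by positivity)]
    calc Var[S; Measure.pi fun _ : Fin n => μ] * (ε ^ 2 * n)
        ≤ (n * M ^ 2) * (ε ^ 2 * n) := mul_le_mul_of_nonneg_right hvar (by positivity)
      _ = M ^ 2 * (ε * n) ^ 2 := by ring

theorem smp_eq (l : ℝ) (n : ℕ) : smp l n = ENNReal.ofReal (1 / n) •
    (volume.restrict (Set.Icc l (l + 1))).prod (volume.restrict (Set.Ioc (0 : ℝ) n)) := by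
  rw [smp, Measure.volume_eq_prod, Measure.prod_restrict]

/-- mean of a product function of the abscissa and of the rescaled height -/
theorem integral_smp (l : ℝ) {n : ℕ} (hn : 0 < n) (g ψ : ℝ → ℝ) :
    ∫ z, g z.1 * ψ (z.2 / n) ∂(smp l n) =
      (∫ t in l..(l + 1), g t) * ∫ t in (0 : ℝ)..1, ψ t := by
  have hn' : (0 : ℝ) < n := by exact_mod_cast hn
  rw [smp_eq, integral_smul_measure, integral_prod_mul (f := g) (g := fun t => ψ (t / n)),
    ENNReal.toReal_ofReal (by positivity),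
    intervalIntegral.integral_of_le (by linarith : l ≤ l + 1), integral_Icc_eq_integral_Ioc]
  have h1 : ∫ t in Set.Ioc (0 : ℝ) n, ψ (t / n) = n * ∫ t in (0 : ℝ)..1, ψ t := by
    rw [← intervalIntegral.integral_of_le hn'.le]
    have := intervalIntegral.integral_comp_div (f := ψ) (a := 0) (b := (n : ℝ)) hn'.ne'
    rw [this, zero_div, div_self hn'.ne', smul_eq_mul]
  rw [h1, smul_eq_mul]
  field_simp

/-- law of large numbers for product functions -/
theorem cheb_smp (l : ℝ) {g ψ : ℝ → ℝ} (hg : Measurable g) (hψ : Measurable ψ) {M : ℝ}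
    (hM : ∀ t, |g t| ≤ M) (hψ1 : ∀ t, |ψ t| ≤ 1) {n : ℕ} (hn : 0 < n) {ε : ℝ} (hε : 0 < ε) :
    (Measure.pi fun _ : Fin n => smp l n)
      {x | ε * n < |∑ i, g (x i).1 * ψ ((x i).2 / n) -
        n * ((∫ t in l..(l + 1), g t) * ∫ t in (0 : ℝ)..1, ψ t)|} ≤
      ENNReal.ofReal (M ^ 2 / (ε ^ 2 * n)) := by
  have := smp_prob l hn
  rw [← integral_smp l hn g ψ]
  refine cheb_pi (f := fun z : Pl => g z.1 * ψ (z.2 / n)) ?_ ?_ hn hε
  · exact (hg.comp measurable_fst).mul (hψ.comp (measurable_snd.div_const _))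
  · intro z
    rw [abs_mul]
    calc |g z.1| * |ψ (z.2 / n)| ≤ M * 1 :=
          mul_le_mul (hM _) (hψ1 _) (abs_nonneg _) ((abs_nonneg _).trans (hM 0))
      _ = M := mul_one M

/-- smallness of the error term -/
theorem cheb_small (M : ℝ) {ε δ : ℝ} (hε : 0 < ε) (hδ : 0 < δ) :
    ∃ n₀ : ℕ, 0 < n₀ ∧ ∀ n : ℕ, n₀ ≤ n → M ^ 2 / (ε ^ 2 * n) ≤ δ := by
  obtain ⟨n₀, hn₀⟩ := exists_nat_gt (M ^ 2 / (ε ^ 2 * δ))
  refine ⟨n₀ + 1, Nat.succ_pos _, fun n hn => ?_⟩
  have hn1 : (n₀ : ℝ) + 1 ≤ n := by exact_mod_cast hn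
  have hpos : (0 : ℝ) < n := by
    have : (0 : ℝ) ≤ n₀ := Nat.cast_nonneg _
    linarith
  rw [div_le_iff₀ (by positivity)]
  have h1 : M ^ 2 / (ε ^ 2 * δ) < n := by linarith
  rw [div_lt_iff₀ (by positivity)] at h1
  nlinarith

end Pool.Agent.H27.OTC
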