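import Pool.Agent.H27.OTC.Stmt

/-!
MP_91df8f_pr, Part B: configurations of points (pairs of finite multisets in the plane), their
measurable structure, and the law of a configuration of independent points.
-/

set_option autoImplicit false

open MeasureTheory ProbabilityTheory
open scoped ENNReal

namespace Pool.Agent.H27.OTC

open Pool.Agent.H96.OT (Pl)

/-- A pair of finite point configurations. -/
@[ext] structure Conf where
  X : Multiset Pl
  Y : Multiset Pl

/-- the multiset of the points `w i` -/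
def cfg {m : ℕ} (w : Fin m → Pl) : Multiset Pl := Finset.univ.val.map w

/-- the configuration given by two families of points -/
def mk2 (m m' : ℕ) (p : (Fin m → Pl) × (Fin m' → Pl)) : Conf := ⟨cfg p.1, cfg p.2⟩

/-- A set of configurations is measurable iff its preimages under all `mk2 m m'` are. -/
instance : MeasurableSpace Conf :=
  ⨅ m : ℕ, ⨅ m' : ℕ, MeasurableSpace.map (mk2 m m') inferInstance

namespace Conf

open Classical in
/-- keep the points which lie in `R` -/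
noncomputable def filt (R : Set Pl) (c : Conf) : Conf :=
  ⟨c.X.filter (fun p => p ∈ R), c.Y.filter (fun p => p ∈ R)⟩

/-- apply `f` to all points -/
def mapC (f : Pl → Pl) (c : Conf) : Conf := ⟨c.X.map f, c.Y.map f⟩

/-- add a point of type `X` -/
def consX (x : Pl) (c : Conf) : Conf := ⟨x ::ₘ c.X, c.Y⟩

/-- add a point of type `Y` -/
def consY (y : Pl) (c : Conf) : Conf := ⟨c.X, y ::ₘ c.Y⟩

/-- number of `X` points in `R` -/
noncomputable def nX (R : Set Pl) (c : Conf) : ℕ := (c.filt R).X.card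

/-- number of `Y` points in `R` -/
noncomputable def nY (R : Set Pl) (c : Conf) : ℕ := (c.filt R).Y.card

end Conf

/-- The law of the configuration of `m` points with law `ν` and `m'` points with law `ν'`, all
independent (`ν`, `ν'` need not be probability measures). -/
noncomputable def iid (ν ν' : Measure Pl) (m m' : ℕ) : Measure Conf :=
  ((Measure.pi fun _ : Fin m => ν).prod (Measure.pi fun _ : Fin m' => ν')).map (mk2 m m')

/-! ### Lines -/

/-- weight of the right end at the abscissa `x` -/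
noncomputable def wt (x : ℝ) : ℝ := max 0 (min 1 (x / 3))

/-- height at abscissa `x ∈ [0,3]` of the line through `(0, ℓ.1)` and `(3, ℓ.2)` -/
noncomputable def lam (ℓ : ℕ × ℕ) (x : ℝ) : ℝ := ℓ.1 * (1 - wt x) + ℓ.2 * wt x

/-- points on or below the line -/
def below (ℓ : ℕ × ℕ) : Set Pl := {p | p.2 ≤ lam ℓ p.1}

/-- points above the line -/
def above (ℓ : ℕ × ℕ) : Set Pl := {p | lam ℓ p.1 < p.2}

/-- coordinates relative to the line -/
noncomputable def shift (ℓ : ℕ × ℕ) (p : Pl) : Pl := (p.1, p.2 - lam ℓ p.1)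

/-- the configuration above the line, in the coordinates relative to the line -/
noncomputable def up (ℓ : ℕ × ℕ) (c : Conf) : Conf := (c.filt (above ℓ)).mapC (shift ℓ)

/-- imbalance below the line -/
noncomputable def imb (c : Conf) (ℓ : ℕ × ℕ) : ℤ := (c.nX (below ℓ) : ℤ) - (c.nY (below ℓ) : ℤ)

/-- the next line of the exploration -/
def nextL (ℓ : ℕ × ℕ) (i : ℤ) : ℕ × ℕ := (ℓ.1 + 1 + (-i).toNat, ℓ.2 + 1 + i.toNat)

/-- the exploration of `c`, started from the line `(0,0)` with imbalance `i₀` -/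
noncomputable def ex (i₀ : ℤ) (c : Conf) : ℕ → ℕ × ℕ
  | 0 => (0, 0)
  | k + 1 => nextL (ex i₀ c k) (i₀ + imb c (ex i₀ c k))

/-- the `k`-th line of the exploration -/
noncomputable def st (c : Conf) (k : ℕ) : ℕ × ℕ := ex 0 c k

/-- the imbalance at step `k` -/
noncomputable def im (c : Conf) (k : ℕ) : ℤ := imb c (st c k)

/-- the configuration above the `k`-th line, in relative coordinates -/
noncomputable def uc (c : Conf) (k : ℕ) : Conf := up (st c k) c

/-- `Φ` depends only on the points below the `k`-th line of the exploration. -/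
def Past {β : Type} (k : ℕ) (Φ : Conf → β) : Prop := ∀ c, Φ c = Φ (c.filt (below (st c k)))

/-! ### The sample -/

/-- the law of the (vertically scaled) sample -/
noncomputable def Q (n : ℕ) : Measure Conf := iid (smp 0 n) (smp 2 n) n n

/-- admissible lines: not too high, nearly horizontal, and the numbers `N`, `N'` of points below
are close to the expected ones -/
def Ok (n : ℕ) (θ ρ : ℝ) (ℓ : ℕ × ℕ) (N N' : ℕ) : Prop :=
  (ℓ.1 : ℝ) ≤ (1 - θ) * n ∧ (ℓ.2 : ℝ) ≤ (1 - θ) * n ∧ |(ℓ.2 : ℝ) - ℓ.1| ≤ ρ * n ∧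
    |(N : ℝ) - ℓ.1| ≤ ρ * n ∧ |(N' : ℝ) - ℓ.1| ≤ ρ * n

/-- admissibility of the `k`-th line -/
def OkAt (n : ℕ) (θ ρ : ℝ) (c : Conf) (k : ℕ) : Prop :=
  Ok n θ ρ (st c k) (c.nX (below (st c k))) (c.nY (below (st c k)))

/-- all lines up to step `k` are admissible -/
def Alive (n : ℕ) (θ ρ : ℝ) (c : Conf) (k : ℕ) : Prop := ∀ j ≤ k, OkAt n θ ρ c j

/-- conditional law of a point given that it lies above the line, in relative coordinates -/
noncomputable def nuAb (l : ℝ) (n : ℕ) (ℓ : ℕ × ℕ) : Measure Pl :=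
  ((smp l n (above ℓ))⁻¹ • (smp l n).restrict (above ℓ)).map (shift ℓ)

/-- conditional law of the configuration above the line `ℓ` (in relative coordinates), given that
`N` points `X` and `N'` points `Y` lie below -/
noncomputable def lawUp (n : ℕ) (ℓ : ℕ × ℕ) (N N' : ℕ) : Measure Conf :=
  iid (nuAb 0 n ℓ) (nuAb 2 n ℓ) (n - N) (n - N')

/-- `ν` is a probability measure which near the bottom, up to height `B`, is `s` times Lebesgue
measure on the strip over `[l, l+1]`. -/
structure Flat (l s B : ℝ) (ν : Measure Pl) : Prop where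
  prob : IsProbabilityMeasure ν
  spos : 0 < s
  eq : ν.restrict {p | p.2 ≤ B} =
    ENNReal.ofReal s • volume.restrict (Set.Icc l (l + 1) ×ˢ Set.Ioc 0 B)

/-- The hypothesis under which all one step estimates are proved. -/
structure Near (κ s₀ B : ℝ) (ν ν' : Measure Pl) (m m' : ℕ) : Prop where
  flatX : ∃ s, Flat 0 s B ν ∧ |s * m - 1| ≤ κ ∧ s ≤ s₀
  flatY : ∃ s, Flat 2 s B ν' ∧ |s * m' - 1| ≤ κ ∧ s ≤ s₀

/-! ### Regularity, patterns, candidates -/

/-- grid version of: `X`, edge-`X` and `Y` counts in `(0, h]` are correct up to `δ r` for all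
`h ≤ 8 r` (coordinates relative to a line, points above it) -/
def RegUp (N : ℕ) (τ δ r : ℝ) (c : Conf) : Prop :=
  ∀ j ≤ N, |(c.nX {p | 0 < p.2 ∧ p.2 ≤ 8 * r * j / N} : ℝ) - 8 * r * j / N| ≤ δ * r / 2 ∧
    |(c.nX {p | 1 - τ ≤ p.1 ∧ 0 < p.2 ∧ p.2 ≤ 8 * r * j / N} : ℝ) - τ * (8 * r * j / N)|
      ≤ δ * r / 2 ∧
    |(c.nY {p | 0 < p.2 ∧ p.2 ≤ 8 * r * j / N} : ℝ) - 8 * r * j / N| ≤ δ * r / 2

/-- the same for the points below the line `ℓ` (height at most `3 r` below), in the coordinates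
relative to `ℓ` -/
def RegDn (N : ℕ) (τ δ r : ℝ) (ℓ : ℕ × ℕ) (c : Conf) : Prop :=
  ∀ j ≤ N, |(c.nX {p | lam ℓ p.1 - 3 * r * j / N < p.2 ∧ p.2 ≤ lam ℓ p.1} : ℝ) - 3 * r * j / N|
      ≤ δ * r / 2 ∧
    |(c.nX {p | 1 - τ ≤ p.1 ∧ lam ℓ p.1 - 3 * r * j / N < p.2 ∧ p.2 ≤ lam ℓ p.1} : ℝ)
      - τ * (3 * r * j / N)| ≤ δ * r / 2 ∧
    |(c.nY {p | lam ℓ p.1 - 3 * r * j / N < p.2 ∧ p.2 ≤ lam ℓ p.1} : ℝ) - 3 * r * j / N|
      ≤ δ * r / 2

/-- the pattern: in each of the first `2 K` unit cells there is exactly one point of each type, it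
is near the inner edge and not near the ends of the cell -/
def Pat (K : ℕ) (τ₁ : ℝ) (c : Conf) : Prop :=
  ∀ j < 2 * K, c.nX {p | (j : ℝ) < p.2 ∧ p.2 ≤ j + 1} = 1 ∧
    c.nX {p | 1 - τ₁ ≤ p.1 ∧ (j : ℝ) + 1 / 4 ≤ p.2 ∧ p.2 ≤ j + 3 / 4} = 1 ∧
    c.nY {p | (j : ℝ) < p.2 ∧ p.2 ≤ j + 1} = 1 ∧
    c.nY {p | p.1 ≤ 2 + τ₁ ∧ (j : ℝ) + 1 / 4 ≤ p.2 ∧ p.2 ≤ j + 3 / 4} = 1

/-- the step `k` is a candidate -/
def Cand (K : ℕ) (τ₁ : ℝ) (c : Conf) (k : ℕ) : Prop := im c k = 0 ∧ Pat K τ₁ (uc c k)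

/-- the line through the middle of the pattern window -/
def cutL (K : ℕ) (ℓ : ℕ × ℕ) : ℕ × ℕ := (ℓ.1 + K, ℓ.2 + K)

end Pool.Agent.H27.OTC
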