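import Pool.Agent.H27.OTC.ConfMeas

/-!
Job OTC-B-IID: the law of independent points; decomposition with respect to a region.
-/

set_option autoImplicit false

open MeasureTheory ProbabilityTheory
open scoped ENNReal

namespace Pool.Agent.H27.OTC

open Pool.Agent.H96.OT (Pl)

variable (ν ν' : Measure Pl) [SigmaFinite ν] [SigmaFinite ν']

theorem mk2_consX {m m' : ℕ} (x : Pl) (w : Fin m → Pl) (w' : Fin m' → Pl) :
    mk2 (m + 1) m' ((Fin.cons x w : Fin (m + 1) → Pl), w') = (mk2 m m' (w, w')).consX x := by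
  unfold mk2 Conf.consX
  simp only [cfg_cons]

theorem mk2_consY {m m' : ℕ} (x : Pl) (w : Fin m → Pl) (w' : Fin m' → Pl) :
    mk2 m (m' + 1) (w, (Fin.cons x w' : Fin (m' + 1) → Pl)) = (mk2 m m' (w, w')).consY x := by
  unfold mk2 Conf.consY
  simp only [cfg_cons]

theorem measurable_fin_cons (m : ℕ) :
    Measurable (fun q : Pl × (Fin m → Pl) => (Fin.cons q.1 q.2 : Fin (m + 1) → Pl)) := by
  refine measurable_pi_lambda _ (fun i => ?_)
  refine Fin.cases ?_ (fun j => ?_) i
  · simpa using measurable_fst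
  · simp only [Fin.cons_succ]
    exact (measurable_pi_apply j).comp measurable_snd

theorem lintegral_iid {F : Conf → ℝ≥0∞} (hF : Measurable F) (m m' : ℕ) :
    ∫⁻ c, F c ∂(iid ν ν' m m') = ∫⁻ p, F (mk2 m m' p)
      ∂((Measure.pi fun _ : Fin m => ν).prod (Measure.pi fun _ : Fin m' => ν')) := by
  unfold iid
  rw [lintegral_map hF (measurable_mk2 m m')]

theorem lintegral_iid_zero {F : Conf → ℝ≥0∞} (hF : Measurable F) :
    ∫⁻ c, F c ∂(iid ν ν' 0 0) = F ⟨0, 0⟩ := by
  rw [lintegral_iid ν ν' hF]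
  have h : ∀ p, F (mk2 0 0 p) = F ⟨0, 0⟩ := by
    intro p
    rfl
  simp only [h]
  rw [lintegral_const]
  have : ((Measure.pi fun _ : Fin 0 => ν).prod (Measure.pi fun _ : Fin 0 => ν')) Set.univ = 1 := by
    rw [← Set.univ_prod_univ, Measure.prod_prod, Measure.pi_univ, Measure.pi_univ]
    simp
  rw [this, mul_one]

theorem measurable_uncurry_consX {F : Conf → ℝ≥0∞} (hF : Measurable F) (m m' : ℕ) :
    Measurable (fun q : Pl × ((Fin m → Pl) × (Fin m' → Pl)) => F ((mk2 m m' q.2).consX q.1)) := by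
  have h : (fun q : Pl × ((Fin m → Pl) × (Fin m' → Pl)) => F ((mk2 m m' q.2).consX q.1)) =
      (F ∘ mk2 (m + 1) m') ∘ (fun q : Pl × ((Fin m → Pl) × (Fin m' → Pl)) =>
        ((Fin.cons q.1 q.2.1 : Fin (m + 1) → Pl), q.2.2)) := by
    funext q
    simp only [Function.comp_apply]
    rw [mk2_consX]
  rw [h]
  refine (hF.comp (measurable_mk2 _ _)).comp ?_
  refine Measurable.prodMk ?_ (measurable_snd.comp measurable_snd)
  exact (measurable_fin_cons m).comp
    (measurable_fst.prodMk (measurable_fst.comp measurable_snd))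

theorem measurable_uncurry_consY {F : Conf → ℝ≥0∞} (hF : Measurable F) (m m' : ℕ) :
    Measurable (fun q : Pl × ((Fin m → Pl) × (Fin m' → Pl)) => F ((mk2 m m' q.2).consY q.1)) := by
  have h : (fun q : Pl × ((Fin m → Pl) × (Fin m' → Pl)) => F ((mk2 m m' q.2).consY q.1)) =
      (F ∘ mk2 m (m' + 1)) ∘ (fun q : Pl × ((Fin m → Pl) × (Fin m' → Pl)) =>
        (q.2.1, (Fin.cons q.1 q.2.2 : Fin (m' + 1) → Pl))) := by
    funext q
    simp only [Function.comp_apply]
    rw [mk2_consY]
  rw [h]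
  refine (hF.comp (measurable_mk2 _ _)).comp ?_
  refine Measurable.prodMk (measurable_fst.comp measurable_snd) ?_
  exact (measurable_fin_cons m').comp
    (measurable_fst.prodMk (measurable_snd.comp measurable_snd))

theorem measurable_lintegral_consX {F : Conf → ℝ≥0∞} (hF : Measurable F) (m m' : ℕ) :
    Measurable (fun x => ∫⁻ c, F (c.consX x) ∂(iid ν ν' m m')) := by
  have h : ∀ x, ∫⁻ c, F (c.consX x) ∂(iid ν ν' m m') = ∫⁻ p, F ((mk2 m m' p).consX x)
      ∂((Measure.pi fun _ : Fin m => ν).prod (Measure.pi fun _ : Fin m' => ν')) := fun x =>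
    lintegral_iid ν ν' (hF.comp (measurable_consX x)) m m'
  simp only [h]
  exact (measurable_uncurry_consX hF m m').lintegral_prod_right'

theorem measurable_lintegral_consY {F : Conf → ℝ≥0∞} (hF : Measurable F) (m m' : ℕ) :
    Measurable (fun x => ∫⁻ c, F (c.consY x) ∂(iid ν ν' m m')) := by
  have h : ∀ x, ∫⁻ c, F (c.consY x) ∂(iid ν ν' m m') = ∫⁻ p, F ((mk2 m m' p).consY x)
      ∂((Measure.pi fun _ : Fin m => ν).prod (Measure.pi fun _ : Fin m' => ν')) := fun x =>
    lintegral_iid ν ν' (hF.comp (measurable_consY x)) m m'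
  simp only [h]
  exact (measurable_uncurry_consY hF m m').lintegral_prod_right'

theorem lintegral_pi_succ (m : ℕ) {g : (Fin (m + 1) → Pl) → ℝ≥0∞} (hg : Measurable g) :
    ∫⁻ w, g w ∂(Measure.pi fun _ : Fin (m + 1) => ν) =
      ∫⁻ x, ∫⁻ w, g (Fin.cons x w) ∂(Measure.pi fun _ : Fin m => ν) ∂ν := by
  have hmp := (measurePreserving_piFinSuccAbove (fun _ : Fin (m + 1) => ν) 0).symm
  have h1 := hmp.lintegral_comp hg
  rw [← h1]
  have hg' : Measurable (fun q : Pl × (Fin m → Pl) => g (Fin.cons q.1 q.2)) :=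
    hg.comp (measurable_fin_cons m)
  rw [← lintegral_prod (fun q : Pl × (Fin m → Pl) => g (Fin.cons q.1 q.2)) hg'.aemeasurable]
  refine lintegral_congr (fun q => ?_)
  congr 1
  exact Fin.insertNth_zero' q.1 q.2

theorem lintegral_iid_succX {F : Conf → ℝ≥0∞} (hF : Measurable F) (m m' : ℕ) :
    ∫⁻ c, F c ∂(iid ν ν' (m + 1) m') = ∫⁻ x, ∫⁻ c, F (c.consX x) ∂(iid ν ν' m m') ∂ν := by
  have h : ∀ x, ∫⁻ c, F (c.consX x) ∂(iid ν ν' m m') = ∫⁻ p, F ((mk2 m m' p).consX x)
      ∂((Measure.pi fun _ : Fin m => ν).prod (Measure.pi fun _ : Fin m' => ν')) := fun x =>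
    lintegral_iid ν ν' (hF.comp (measurable_consX x)) m m'
  simp only [h]
  rw [lintegral_iid ν ν' hF]
  have hFm : Measurable (fun p => F (mk2 (m + 1) m' p)) := hF.comp (measurable_mk2 _ _)
  rw [lintegral_prod _ hFm.aemeasurable]
  rw [lintegral_pi_succ ν m hFm.lintegral_prod_right']
  refine lintegral_congr (fun x => ?_)
  have hm : Measurable (fun p => F ((mk2 m m' p).consX x)) :=
    (hF.comp (measurable_consX x)).comp (measurable_mk2 m m')
  rw [lintegral_prod _ hm.aemeasurable]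
  refine lintegral_congr (fun w => lintegral_congr (fun w' => ?_))
  rw [mk2_consX]

theorem lintegral_iid_succY {F : Conf → ℝ≥0∞} (hF : Measurable F) (m m' : ℕ) :
    ∫⁻ c, F c ∂(iid ν ν' m (m' + 1)) = ∫⁻ x, ∫⁻ c, F (c.consY x) ∂(iid ν ν' m m') ∂ν' := by
  have h : ∀ x, ∫⁻ c, F (c.consY x) ∂(iid ν ν' m m') = ∫⁻ p, F ((mk2 m m' p).consY x)
      ∂((Measure.pi fun _ : Fin m => ν).prod (Measure.pi fun _ : Fin m' => ν')) := fun x =>
    lintegral_iid ν ν' (hF.comp (measurable_consY x)) m m'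
  simp only [h]
  rw [lintegral_iid ν ν' hF]
  have hFm : Measurable (fun p => F (mk2 m (m' + 1) p)) := hF.comp (measurable_mk2 _ _)
  rw [lintegral_prod_symm _ hFm.aemeasurable]
  rw [lintegral_pi_succ ν' m' hFm.lintegral_prod_left']
  refine lintegral_congr (fun x => ?_)
  have hm : Measurable (fun p => F ((mk2 m m' p).consY x)) :=
    (hF.comp (measurable_consY x)).comp (measurable_mk2 m m')
  rw [lintegral_prod_symm _ hm.aemeasurable]
  refine lintegral_congr (fun w => lintegral_congr (fun w' => ?_))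
  rw [mk2_consY]

theorem iid_univ (m m' : ℕ) :
    iid ν ν' m m' Set.univ = ν Set.univ ^ m * ν' Set.univ ^ m' := by
  unfold iid
  rw [Measure.map_apply (measurable_mk2 m m') MeasurableSet.univ, Set.preimage_univ,
    ← Set.univ_prod_univ, Measure.prod_prod, Measure.pi_univ, Measure.pi_univ]
  simp

theorem mapC_mk2 (f : Pl → Pl) (m m' : ℕ) (p : (Fin m → Pl) × (Fin m' → Pl)) :
    (mk2 m m' p).mapC f = mk2 m m' (fun i => f (p.1 i), fun i => f (p.2 i)) := by
  unfold Conf.mapC mk2 cfg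
  simp only [Multiset.map_map]
  rfl

theorem iid_map {f : Pl → Pl} (hf : Measurable f) [SigmaFinite (ν.map f)]
    [SigmaFinite (ν'.map f)] (m m' : ℕ) :
    (iid ν ν' m m').map (Conf.mapC f) = iid (ν.map f) (ν'.map f) m m' := by
  unfold iid
  rw [Measure.map_map (measurable_mapC hf) (measurable_mk2 m m')]
  have h1 : (Measure.pi fun _ : Fin m => ν.map f) =
      (Measure.pi fun _ : Fin m => ν).map (fun w i => f (w i)) :=
    (Measure.pi_map_pi (fun _ => hf.aemeasurable)).symm
  have h2 : (Measure.pi fun _ : Fin m' => ν'.map f) =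
      (Measure.pi fun _ : Fin m' => ν').map (fun w i => f (w i)) :=
    (Measure.pi_map_pi (fun _ => hf.aemeasurable)).symm
  have hm1 : Measurable (fun (w : Fin m → Pl) (i : Fin m) => f (w i)) :=
    measurable_pi_lambda _ (fun i => hf.comp (measurable_pi_apply i))
  have hm2 : Measurable (fun (w : Fin m' → Pl) (i : Fin m') => f (w i)) :=
    measurable_pi_lambda _ (fun i => hf.comp (measurable_pi_apply i))
  have s1 : SigmaFinite ((Measure.pi fun _ : Fin m => ν).map (fun w i => f (w i))) := by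
    rw [← h1]; infer_instance
  have s2 : SigmaFinite ((Measure.pi fun _ : Fin m' => ν').map (fun w i => f (w i))) := by
    rw [← h2]; infer_instance
  rw [h1, h2, Measure.map_prod_map _ _ hm1 hm2,
    Measure.map_map (measurable_mk2 m m') (hm1.prodMap hm2)]
  congr 1
  funext p
  simp only [Function.comp_apply]
  rw [mapC_mk2]
  rfl

theorem lintegral_iid_smul (a b : ℝ≥0∞) [SigmaFinite (a • ν)] [SigmaFinite (b • ν')] (m' : ℕ) :
    ∀ (m : ℕ) {F : Conf → ℝ≥0∞}, Measurable F →
    ∫⁻ c, F c ∂(iid (a • ν) (b • ν') m m') = (a ^ m * b ^ m') * ∫⁻ c, F c ∂(iid ν ν' m m') := by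
  intro m
  induction m with
  | zero =>
    induction m' with
    | zero =>
      intro F hF
      rw [lintegral_iid_zero _ _ hF, lintegral_iid_zero _ _ hF]
      simp
    | succ m' ih =>
      intro F hF
      rw [lintegral_iid_succY _ _ hF, lintegral_iid_succY _ _ hF, lintegral_smul_measure]
      have h : ∀ x, ∫⁻ c, F (c.consY x) ∂(iid (a • ν) (b • ν') 0 m') =
          (a ^ 0 * b ^ m') * ∫⁻ c, F (c.consY x) ∂(iid ν ν' 0 m') := fun x =>
        ih (hF.comp (measurable_consY x))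
      simp only [h]
      rw [lintegral_const_mul _ (measurable_lintegral_consY ν ν' hF 0 m'), smul_eq_mul]
      ring
  | succ m ih =>
    intro F hF
    rw [lintegral_iid_succX _ _ hF, lintegral_iid_succX _ _ hF, lintegral_smul_measure]
    have h : ∀ x, ∫⁻ c, F (c.consX x) ∂(iid (a • ν) (b • ν') m m') =
        (a ^ m * b ^ m') * ∫⁻ c, F (c.consX x) ∂(iid ν ν' m m') := fun x =>
      ih (hF.comp (measurable_consX x))
    simp only [h]
    rw [lintegral_const_mul _ (measurable_lintegral_consX ν ν' hF m m'), smul_eq_mul]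
    ring

theorem iid_smul (a b : ℝ≥0∞) [SigmaFinite (a • ν)] [SigmaFinite (b • ν')] (m m' : ℕ) :
    iid (a • ν) (b • ν') m m' = (a ^ m * b ^ m') • iid ν ν' m m' := by
  refine Measure.ext_of_lintegral _ (fun F hF => ?_)
  rw [lintegral_iid_smul ν ν' a b m' m hF, lintegral_smul_measure, smul_eq_mul]

/-- Pascal's rule for sums `∑ C(m,j) f j (m-j)`. -/
theorem pascal_sum (f : ℕ → ℕ → ℝ≥0∞) (m : ℕ) :
    ∑ j ∈ Finset.range (m + 1 + 1), ((m + 1).choose j : ℝ≥0∞) * f j (m + 1 - j) =
      ∑ j ∈ Finset.range (m + 1), (m.choose j : ℝ≥0∞) * f (j + 1) (m - j) +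
        ∑ j ∈ Finset.range (m + 1), (m.choose j : ℝ≥0∞) * f j (m - j + 1) := by
  rw [Finset.sum_range_succ' (fun j => ((m + 1).choose j : ℝ≥0∞) * f j (m + 1 - j)),
    Finset.sum_range_succ' (fun j => (m.choose j : ℝ≥0∞) * f j (m - j + 1))]
  have h1 : ∀ j ∈ Finset.range (m + 1),
      ((m + 1).choose (j + 1) : ℝ≥0∞) * f (j + 1) (m + 1 - (j + 1)) =
      (m.choose j : ℝ≥0∞) * f (j + 1) (m - j) + (m.choose (j + 1) : ℝ≥0∞) * f (j + 1) (m - j) := by
    intro j _
    rw [Nat.choose_succ_succ, Nat.add_sub_add_right]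
    push_cast
    ring
  rw [Finset.sum_congr rfl h1, Finset.sum_add_distrib]
  have h2 : ∑ j ∈ Finset.range (m + 1), (m.choose (j + 1) : ℝ≥0∞) * f (j + 1) (m - j) =
      ∑ j ∈ Finset.range m, (m.choose (j + 1) : ℝ≥0∞) * f (j + 1) (m - (j + 1) + 1) := by
    rw [Finset.sum_range_succ]
    simp only [Nat.choose_succ_self, Nat.cast_zero, zero_mul, add_zero]
    refine Finset.sum_congr rfl ?_
    intro j hj
    have : j < m := Finset.mem_range.1 hj
    have h3 : m - (j + 1) + 1 = m - j := by omega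
    rw [h3]
  rw [h2]
  simp only [Nat.choose_zero_right, Nat.sub_zero]
  ring

theorem filt_consX_mem {R : Set Pl} {x : Pl} (hx : x ∈ R) (c : Conf) :
    (c.consX x).filt R = (c.filt R).consX x := by
  classical
  simp [Conf.filt, Conf.consX, Multiset.filter_cons_of_pos, hx]

theorem filt_consX_not_mem {R : Set Pl} {x : Pl} (hx : x ∉ R) (c : Conf) :
    (c.consX x).filt R = c.filt R := by
  classical
  simp [Conf.filt, Conf.consX, Multiset.filter_cons_of_neg, hx]

theorem filt_consY_mem {R : Set Pl} {x : Pl} (hx : x ∈ R) (c : Conf) :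
    (c.consY x).filt R = (c.filt R).consY x := by
  classical
  simp [Conf.filt, Conf.consY, Multiset.filter_cons_of_pos, hx]

theorem filt_consY_not_mem {R : Set Pl} {x : Pl} (hx : x ∉ R) (c : Conf) :
    (c.consY x).filt R = c.filt R := by
  classical
  simp [Conf.filt, Conf.consY, Multiset.filter_cons_of_neg, hx]

/-- Decomposition of a configuration of independent points into the points in `R` and the points
outside `R`. -/
theorem iid_decomp {R : Set Pl} (hR : MeasurableSet R) {F G : Conf → ℝ≥0∞} (hF : Measurable F)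
    (hG : Measurable G) (m m' : ℕ) :
    ∫⁻ c, F (c.filt R) * G (c.filt Rᶜ) ∂(iid ν ν' m m') =
      ∑ j ∈ Finset.range (m + 1), ∑ j' ∈ Finset.range (m' + 1),
        (m.choose j : ℝ≥0∞) * (m'.choose j' : ℝ≥0∞) *
          ((∫⁻ c, F c ∂(iid (ν.restrict R) (ν'.restrict R) j j')) *
            ∫⁻ c, G c ∂(iid (ν.restrict Rᶜ) (ν'.restrict Rᶜ) (m - j) (m' - j'))) := by
  have hmeas : ∀ {F G : Conf → ℝ≥0∞}, Measurable F → Measurable G →
      Measurable (fun c : Conf => F (c.filt R) * G (c.filt Rᶜ)) := fun hF hG =>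
    (hF.comp (measurable_filt hR)).mul (hG.comp (measurable_filt hR.compl))
  induction m generalizing F G with
  | zero =>
    induction m' generalizing F G with
    | zero =>
      rw [lintegral_iid_zero ν ν' (hmeas hF hG)]
      simp only [zero_add, Finset.range_one, Finset.sum_singleton, Nat.choose_self, Nat.cast_one,
        one_mul, Nat.sub_zero]
      rw [lintegral_iid_zero _ _ hF, lintegral_iid_zero _ _ hG]
      simp [Conf.filt]
    | succ m' ih =>
      rw [lintegral_iid_succY ν ν' (hmeas hF hG), ← lintegral_add_compl _ hR]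
      have e1 : ∫⁻ x in R, ∫⁻ c, F ((c.consY x).filt R) * G ((c.consY x).filt Rᶜ)
          ∂(iid ν ν' 0 m') ∂ν' =
          ∫⁻ x in R, ∑ j ∈ Finset.range (0 + 1), ∑ j' ∈ Finset.range (m' + 1),
            (Nat.choose 0 j : ℝ≥0∞) * (m'.choose j' : ℝ≥0∞) *
          ((∫⁻ c, F (c.consY x) ∂(iid (ν.restrict R) (ν'.restrict R) j j')) *
            ∫⁻ c, G c ∂(iid (ν.restrict Rᶜ) (ν'.restrict Rᶜ) (0 - j) (m' - j'))) ∂ν' := by
        refine setLIntegral_congr_fun hR ?_
        intro x hx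
        simp only
        refine Eq.trans ?_ (ih (F := fun c => F (c.consY x)) (hF.comp (measurable_consY x)) hG)
        refine lintegral_congr ?_
        intro c
        rw [filt_consY_mem hx, filt_consY_not_mem (by simpa using hx)]
      have e2 : ∫⁻ x in Rᶜ, ∫⁻ c, F ((c.consY x).filt R) * G ((c.consY x).filt Rᶜ)
          ∂(iid ν ν' 0 m') ∂ν' =
          ∫⁻ x in Rᶜ, ∑ j ∈ Finset.range (0 + 1), ∑ j' ∈ Finset.range (m' + 1),
            (Nat.choose 0 j : ℝ≥0∞) * (m'.choose j' : ℝ≥0∞) *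
          ((∫⁻ c, F c ∂(iid (ν.restrict R) (ν'.restrict R) j j')) *
            ∫⁻ c, G (c.consY x) ∂(iid (ν.restrict Rᶜ) (ν'.restrict Rᶜ) (0 - j) (m' - j')))
              ∂ν' := by
        refine setLIntegral_congr_fun hR.compl ?_
        intro x hx
        simp only
        refine Eq.trans ?_ (ih (G := fun c => G (c.consY x)) hF (hG.comp (measurable_consY x)))
        refine lintegral_congr ?_
        intro c
        rw [filt_consY_not_mem hx, filt_consY_mem hx]
      rw [e1, e2]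
      simp only [zero_add, Finset.range_one, Finset.sum_singleton, Nat.choose_self, Nat.cast_one,
        one_mul, Nat.sub_zero]
      rw [lintegral_finsetSum _ (fun j _ => ((measurable_lintegral_consY _ _ hF 0 j).mul_const
          _).const_mul _),
        lintegral_finsetSum _ (fun j _ => ((measurable_lintegral_consY _ _ hG 0 _).const_mul
          _).const_mul _)]
      rw [pascal_sum (fun a b => (∫⁻ c, F c ∂(iid (ν.restrict R) (ν'.restrict R) 0 a)) *
            ∫⁻ c, G c ∂(iid (ν.restrict Rᶜ) (ν'.restrict Rᶜ) 0 b)) m']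
      congr 1
      · refine Finset.sum_congr rfl ?_
        intro j _
        rw [lintegral_const_mul _ ((measurable_lintegral_consY _ _ hF 0 j).mul_const _),
          lintegral_mul_const _ (measurable_lintegral_consY _ _ hF 0 j),
          ← lintegral_iid_succY _ _ hF]
      · refine Finset.sum_congr rfl ?_
        intro j _
        rw [lintegral_const_mul _ ((measurable_lintegral_consY _ _ hG 0 _).const_mul _),
          lintegral_const_mul _ (measurable_lintegral_consY _ _ hG 0 _),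
          ← lintegral_iid_succY _ _ hG]
  | succ m ih =>
    rw [lintegral_iid_succX ν ν' (hmeas hF hG), ← lintegral_add_compl _ hR]
    have e1 : ∫⁻ x in R, ∫⁻ c, F ((c.consX x).filt R) * G ((c.consX x).filt Rᶜ)
        ∂(iid ν ν' m m') ∂ν =
        ∫⁻ x in R, ∑ j ∈ Finset.range (m + 1), ∑ j' ∈ Finset.range (m' + 1),
          (m.choose j : ℝ≥0∞) * (m'.choose j' : ℝ≥0∞) *
        ((∫⁻ c, F (c.consX x) ∂(iid (ν.restrict R) (ν'.restrict R) j j')) *
          ∫⁻ c, G c ∂(iid (ν.restrict Rᶜ) (ν'.restrict Rᶜ) (m - j) (m' - j'))) ∂ν := by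
      refine setLIntegral_congr_fun hR ?_
      intro x hx
      simp only
      refine Eq.trans ?_ (ih (F := fun c => F (c.consX x)) (hF.comp (measurable_consX x)) hG)
      refine lintegral_congr ?_
      intro c
      rw [filt_consX_mem hx, filt_consX_not_mem (by simpa using hx)]
    have e2 : ∫⁻ x in Rᶜ, ∫⁻ c, F ((c.consX x).filt R) * G ((c.consX x).filt Rᶜ)
        ∂(iid ν ν' m m') ∂ν =
        ∫⁻ x in Rᶜ, ∑ j ∈ Finset.range (m + 1), ∑ j' ∈ Finset.range (m' + 1),
          (m.choose j : ℝ≥0∞) * (m'.choose j' : ℝ≥0∞) *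
        ((∫⁻ c, F c ∂(iid (ν.restrict R) (ν'.restrict R) j j')) *
          ∫⁻ c, G (c.consX x) ∂(iid (ν.restrict Rᶜ) (ν'.restrict Rᶜ) (m - j) (m' - j')))
            ∂ν := by
      refine setLIntegral_congr_fun hR.compl ?_
      intro x hx
      simp only
      refine Eq.trans ?_ (ih (G := fun c => G (c.consX x)) hF (hG.comp (measurable_consX x)))
      refine lintegral_congr ?_
      intro c
      rw [filt_consX_not_mem hx, filt_consX_mem hx]
    rw [e1, e2]
    have mF : ∀ j j' (r : ℝ≥0∞) (s : ℝ≥0∞), Measurable (fun x => r *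
        ((∫⁻ c, F (c.consX x) ∂(iid (ν.restrict R) (ν'.restrict R) j j')) * s)) :=
      fun j j' r s => ((measurable_lintegral_consX _ _ hF j j').mul_const _).const_mul _
    have mG : ∀ j j' (r : ℝ≥0∞) (s : ℝ≥0∞), Measurable (fun x => r *
        (s * (∫⁻ c, G (c.consX x) ∂(iid (ν.restrict Rᶜ) (ν'.restrict Rᶜ) j j')))) :=
      fun j j' r s => ((measurable_lintegral_consX _ _ hG j j').const_mul _).const_mul _
    rw [lintegral_finsetSum _ (fun j _ => Finset.measurable_fun_sum _ (fun j' _ => mF j j' _ _)),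
      lintegral_finsetSum _ (fun j _ => Finset.measurable_fun_sum _ (fun j' _ => mG _ _ _ _))]
    have e3 : ∀ j j' a b : ℕ, ∀ r : ℝ≥0∞, ∫⁻ x in R, r *
        ((∫⁻ c, F (c.consX x) ∂(iid (ν.restrict R) (ν'.restrict R) j j')) *
          ∫⁻ c, G c ∂(iid (ν.restrict Rᶜ) (ν'.restrict Rᶜ) a b)) ∂ν =
        r * ((∫⁻ c, F c ∂(iid (ν.restrict R) (ν'.restrict R) (j + 1) j')) *
          ∫⁻ c, G c ∂(iid (ν.restrict Rᶜ) (ν'.restrict Rᶜ) a b)) := by
      intro j j' a b r
      rw [lintegral_const_mul _ ((measurable_lintegral_consX _ _ hF j j').mul_const _),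
          lintegral_mul_const _ (measurable_lintegral_consX _ _ hF j j'),
          ← lintegral_iid_succX _ _ hF]
    have e4 : ∀ j j' a b : ℕ, ∀ r : ℝ≥0∞, ∫⁻ x in Rᶜ, r *
        ((∫⁻ c, F c ∂(iid (ν.restrict R) (ν'.restrict R) j j')) *
          ∫⁻ c, G (c.consX x) ∂(iid (ν.restrict Rᶜ) (ν'.restrict Rᶜ) a b)) ∂ν =
        r * ((∫⁻ c, F c ∂(iid (ν.restrict R) (ν'.restrict R) j j')) *
          ∫⁻ c, G c ∂(iid (ν.restrict Rᶜ) (ν'.restrict Rᶜ) (a + 1) b)) := by
      intro j j' a b r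
      rw [lintegral_const_mul _ ((measurable_lintegral_consX _ _ hG _ _).const_mul _),
          lintegral_const_mul _ (measurable_lintegral_consX _ _ hG _ _),
          ← lintegral_iid_succX _ _ hG]
    have e5 : ∀ j ∈ Finset.range (m + 1), ∫⁻ x in R, ∑ j' ∈ Finset.range (m' + 1),
          (m.choose j : ℝ≥0∞) * (m'.choose j' : ℝ≥0∞) *
        ((∫⁻ c, F (c.consX x) ∂(iid (ν.restrict R) (ν'.restrict R) j j')) *
          ∫⁻ c, G c ∂(iid (ν.restrict Rᶜ) (ν'.restrict Rᶜ) (m - j) (m' - j'))) ∂ν =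
        (m.choose j : ℝ≥0∞) * ∑ j' ∈ Finset.range (m' + 1), (m'.choose j' : ℝ≥0∞) *
          ((∫⁻ c, F c ∂(iid (ν.restrict R) (ν'.restrict R) (j + 1) j')) *
          ∫⁻ c, G c ∂(iid (ν.restrict Rᶜ) (ν'.restrict Rᶜ) (m - j) (m' - j'))) := by
      intro j _
      rw [lintegral_finsetSum _ (fun j' _ => mF j j' _ _), Finset.mul_sum]
      refine Finset.sum_congr rfl ?_
      intro j' _
      rw [e3, mul_assoc]
    have e6 : ∀ j ∈ Finset.range (m + 1), ∫⁻ x in Rᶜ, ∑ j' ∈ Finset.range (m' + 1),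
          (m.choose j : ℝ≥0∞) * (m'.choose j' : ℝ≥0∞) *
        ((∫⁻ c, F c ∂(iid (ν.restrict R) (ν'.restrict R) j j')) *
          ∫⁻ c, G (c.consX x) ∂(iid (ν.restrict Rᶜ) (ν'.restrict Rᶜ) (m - j) (m' - j'))) ∂ν =
        (m.choose j : ℝ≥0∞) * ∑ j' ∈ Finset.range (m' + 1), (m'.choose j' : ℝ≥0∞) *
          ((∫⁻ c, F c ∂(iid (ν.restrict R) (ν'.restrict R) j j')) *
          ∫⁻ c, G c ∂(iid (ν.restrict Rᶜ) (ν'.restrict Rᶜ) (m - j + 1) (m' - j'))) := by
      intro j _
      rw [lintegral_finsetSum _ (fun j' _ => mG _ _ _ _), Finset.mul_sum]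
      refine Finset.sum_congr rfl ?_
      intro j' _
      rw [e4, mul_assoc]
    rw [Finset.sum_congr rfl e5, Finset.sum_congr rfl e6]
    have e7 := pascal_sum (fun a b => ∑ j' ∈ Finset.range (m' + 1), (m'.choose j' : ℝ≥0∞) *
          ((∫⁻ c, F c ∂(iid (ν.restrict R) (ν'.restrict R) a j')) *
          ∫⁻ c, G c ∂(iid (ν.restrict Rᶜ) (ν'.restrict Rᶜ) b (m' - j')))) m
    rw [← e7]
    refine Finset.sum_congr rfl ?_
    intro j _
    rw [Finset.mul_sum]
    refine Finset.sum_congr rfl ?_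
    intro j' _
    rw [mul_assoc]

theorem iid_prob (ν ν' : Measure Pl) [IsProbabilityMeasure ν] [IsProbabilityMeasure ν']
    (m m' : ℕ) : IsProbabilityMeasure (iid ν ν' m m') := by
  constructor
  rw [iid_univ]
  simp

theorem card_mk2 (m m' : ℕ) (p : (Fin m → Pl) × (Fin m' → Pl)) :
    (mk2 m m' p).X.card = m ∧ (mk2 m m' p).Y.card = m' := by
  unfold mk2 cfg
  simp

/-- the numbers of points are a.s. `m`, `m'` -/
theorem iid_card (m m' : ℕ) : ∀ᵐ c ∂(iid ν ν' m m'), c.X.card = m ∧ c.Y.card = m' := by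
  have hms : MeasurableSet {c : Conf | c.X.card = m ∧ c.Y.card = m'} := by
    rw [measurableSet_conf]
    intro k k'
    by_cases h : k = m ∧ k' = m'
    · have : mk2 k k' ⁻¹' {c : Conf | c.X.card = m ∧ c.Y.card = m'} = Set.univ := by
        ext p
        simp only [Set.mem_preimage, Set.mem_univ, iff_true]
        change (mk2 k k' p).X.card = m ∧ (mk2 k k' p).Y.card = m'
        rw [(card_mk2 k k' p).1, (card_mk2 k k' p).2]
        exact h
      rw [this]; exact MeasurableSet.univ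
    · have : mk2 k k' ⁻¹' {c : Conf | c.X.card = m ∧ c.Y.card = m'} = ∅ := by
        ext p
        simp only [Set.mem_preimage, Set.mem_empty_iff_false, iff_false]
        change ¬ ((mk2 k k' p).X.card = m ∧ (mk2 k k' p).Y.card = m')
        rw [(card_mk2 k k' p).1, (card_mk2 k k' p).2]
        exact h
      rw [this]; exact MeasurableSet.empty
  unfold iid
  rw [ae_map_iff (measurable_mk2 m m').aemeasurable hms]
  exact Filter.Eventually.of_forall (fun p => card_mk2 m m' p)

/-- all points satisfy almost sure properties of one point -/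
theorem iid_forall {p p' : Pl → Prop} (h : ∀ᵐ x ∂ν, p x) (h' : ∀ᵐ x ∂ν', p' x)
    (hm : MeasurableSet {x | p x}) (hm' : MeasurableSet {x | p' x}) (m m' : ℕ) :
    ∀ᵐ c ∂(iid ν ν' m m'), (∀ x ∈ c.X, p x) ∧ (∀ y ∈ c.Y, p' y) := by
  have key : ∀ (k k' : ℕ) (q : (Fin k → Pl) × (Fin k' → Pl)),
      ((∀ x ∈ (mk2 k k' q).X, p x) ∧ (∀ y ∈ (mk2 k k' q).Y, p' y)) ↔
        ((∀ i, p (q.1 i)) ∧ (∀ i, p' (q.2 i))) := by
    intro k k' q
    unfold mk2 cfg
    simp
  have hms : MeasurableSet {c : Conf | (∀ x ∈ c.X, p x) ∧ (∀ y ∈ c.Y, p' y)} := by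
    rw [measurableSet_conf]
    intro k k'
    have : mk2 k k' ⁻¹' {c : Conf | (∀ x ∈ c.X, p x) ∧ (∀ y ∈ c.Y, p' y)} =
        (⋂ i, (fun q : (Fin k → Pl) × (Fin k' → Pl) => q.1 i) ⁻¹' {x | p x}) ∩
          (⋂ i, (fun q : (Fin k → Pl) × (Fin k' → Pl) => q.2 i) ⁻¹' {x | p' x}) := by
      ext q
      have := key k k' q
      simp only [Set.mem_preimage, Set.mem_inter_iff, Set.mem_iInter]
      exact this
    rw [this]
    refine MeasurableSet.inter (MeasurableSet.iInter fun i => ?_) (MeasurableSet.iInter fun i => ?_)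
    · exact hm.preimage ((measurable_pi_apply i).comp measurable_fst)
    · exact hm'.preimage ((measurable_pi_apply i).comp measurable_snd)
  unfold iid
  rw [ae_map_iff (measurable_mk2 m m').aemeasurable hms]
  have e1 : ∀ᵐ w ∂(Measure.pi fun _ : Fin m => ν), ∀ i, p (w i) := by
    rw [ae_all_iff]
    intro i
    exact (Measure.quasiMeasurePreserving_eval (fun _ : Fin m => ν) i).ae h
  have e2 : ∀ᵐ w ∂(Measure.pi fun _ : Fin m' => ν'), ∀ i, p' (w i) := by
    rw [ae_all_iff]
    intro i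
    exact (Measure.quasiMeasurePreserving_eval (fun _ : Fin m' => ν') i).ae h'
  have f1 := Measure.quasiMeasurePreserving_fst (μ := Measure.pi fun _ : Fin m => ν)
    (ν := Measure.pi fun _ : Fin m' => ν') |>.ae e1
  have f2 := Measure.quasiMeasurePreserving_snd (μ := Measure.pi fun _ : Fin m => ν)
    (ν := Measure.pi fun _ : Fin m' => ν') |>.ae e2
  filter_upwards [f1, f2] with q h1 h2
  exact (key m m' q).2 ⟨h1, h2⟩

end Pool.Agent.H27.OTC
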