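import Pool.Agent.H27.OTC.Conf

/-!
Job OTC-B-MEAS: measurability on the space of configurations.
-/

set_option autoImplicit false

open MeasureTheory ProbabilityTheory
open scoped ENNReal

namespace Pool.Agent.H27.OTC

open Pool.Agent.H96.OT (Pl)

theorem measurableSet_conf {s : Set Conf} :
    MeasurableSet s ↔ ∀ m m' : ℕ, MeasurableSet (mk2 m m' ⁻¹' s) := by
  show MeasurableSet[⨅ m : ℕ, ⨅ m' : ℕ, MeasurableSpace.map (mk2 m m') inferInstance] s ↔ _
  rw [MeasurableSpace.measurableSet_iInf]
  refine forall_congr' fun m => ?_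
  rw [MeasurableSpace.measurableSet_iInf]
  rfl

theorem measurable_conf {β : Type} [MeasurableSpace β] {F : Conf → β} :
    Measurable F ↔ ∀ m m' : ℕ, Measurable (fun p => F (mk2 m m' p)) := by
  constructor
  · intro h m m' t ht
    exact measurableSet_conf.1 (h ht) m m'
  · intro h t ht
    exact measurableSet_conf.2 fun m m' => h m m' ht

theorem measurable_mk2 (m m' : ℕ) : Measurable (mk2 m m') :=
  measurable_conf.1 measurable_id m m'

/-- gluing along a function with countably many values -/
theorem measurable_cases {α β ι : Type} [MeasurableSpace α] [MeasurableSpace β] [Countable ι]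
    (f : α → ι) (hf : ∀ i, MeasurableSet (f ⁻¹' {i})) (F : ι → α → β)
    (hF : ∀ i, Measurable (F i)) : Measurable (fun a => F (f a) a) := by
  intro t ht
  have h : (fun a => F (f a) a) ⁻¹' t = ⋃ i, (f ⁻¹' {i} ∩ F i ⁻¹' t) := by
    ext a
    simp
  rw [h]
  exact MeasurableSet.iUnion fun i => (hf i).inter (hF i ht)

theorem cfg_comp_orderEmb {m : ℕ} (w : Fin m → Pl) (S : Finset (Fin m)) :
    cfg (fun i : Fin S.card => w (S.orderEmbOfFin rfl i)) = S.val.map w := by
  have h : (Finset.univ : Finset (Fin S.card)).val.map (S.orderEmbOfFin rfl) = S.val := by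
    conv_rhs => rw [← Finset.map_orderEmbOfFin_univ S rfl]
    rfl
  unfold cfg
  conv_rhs => rw [← h]
  rw [Multiset.map_map]
  rfl

open Classical in
/-- the indices of the points of `w` which lie in `R` -/
noncomputable def idx {m : ℕ} (R : Set Pl) (w : Fin m → Pl) : Finset (Fin m) :=
  Finset.univ.filter fun i => w i ∈ R

theorem mem_idx {m : ℕ} {R : Set Pl} {w : Fin m → Pl} {i : Fin m} : i ∈ idx R w ↔ w i ∈ R := by
  simp [idx]

open Classical in
theorem cfg_filter {m : ℕ} (w : Fin m → Pl) (R : Set Pl) :
    (cfg w).filter (fun p => p ∈ R) =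
      cfg (fun i : Fin (idx R w).card => w ((idx R w).orderEmbOfFin rfl i)) := by
  rw [cfg_comp_orderEmb]
  unfold cfg idx
  rw [Multiset.filter_map, Finset.filter_val]
  rfl

theorem measurableSet_idx_eq {m : ℕ} {α : Type} [MeasurableSpace α] (w : α → Fin m → Pl)
    (hw : Measurable w) {R : Set Pl} (hR : MeasurableSet R) (S : Finset (Fin m)) :
    MeasurableSet {a | idx R (w a) = S} := by
  have h : {a | idx R (w a) = S} = ⋂ i : Fin m, {a | w a i ∈ R ↔ i ∈ S} := by
    ext a
    simp [Finset.ext_iff, mem_idx]
  rw [h]
  refine MeasurableSet.iInter fun i => ?_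
  have h2 : MeasurableSet {a | w a i ∈ R} := ((measurable_pi_apply i).comp hw) hR
  by_cases hi : i ∈ S
  · simpa [hi] using h2
  · have h3 : {a | w a i ∈ R ↔ i ∈ S} = {a | w a i ∈ R}ᶜ := by
      ext a
      simp [hi]
    rw [h3]
    exact h2.compl

/-- the configuration of the points with indices in `S`, `S'` -/
noncomputable def subCfg {m m' : ℕ} (SS : Finset (Fin m) × Finset (Fin m'))
    (p : (Fin m → Pl) × (Fin m' → Pl)) : Conf :=
  mk2 SS.1.card SS.2.card (fun i => p.1 (SS.1.orderEmbOfFin rfl i),
    fun i => p.2 (SS.2.orderEmbOfFin rfl i))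

theorem measurable_filt {R : Set Pl} (hR : MeasurableSet R) : Measurable (Conf.filt R) := by
  rw [measurable_conf]
  intro m m'
  have key : (fun p : (Fin m → Pl) × (Fin m' → Pl) => (mk2 m m' p).filt R) = fun p =>
      subCfg (idx R p.1, idx R p.2) p := by
    funext p
    apply Conf.ext
    · exact cfg_filter p.1 R
    · exact cfg_filter p.2 R
  rw [key]
  apply measurable_cases (fun p : (Fin m → Pl) × (Fin m' → Pl) => (idx R p.1, idx R p.2))
  · rintro ⟨S, S'⟩
    have h : (fun p : (Fin m → Pl) × (Fin m' → Pl) => (idx R p.1, idx R p.2)) ⁻¹' {(S, S')} =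
        {p | idx R p.1 = S} ∩ {p | idx R p.2 = S'} := by
      ext p
      simp
    rw [h]
    exact (measurableSet_idx_eq _ measurable_fst hR S).inter
      (measurableSet_idx_eq _ measurable_snd hR S')
  · rintro ⟨S, S'⟩
    refine (measurable_mk2 _ _).comp (Measurable.prodMk ?_ ?_)
    · exact measurable_pi_lambda _ fun i => (measurable_pi_apply _).comp measurable_fst
    · exact measurable_pi_lambda _ fun i => (measurable_pi_apply _).comp measurable_snd

theorem measurable_mapC {f : Pl → Pl} (hf : Measurable f) : Measurable (Conf.mapC f) := by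
  rw [measurable_conf]
  intro m m'
  have key : (fun p : (Fin m → Pl) × (Fin m' → Pl) => (mk2 m m' p).mapC f) = fun p =>
      mk2 m m' (fun i => f (p.1 i), fun i => f (p.2 i)) := by
    funext p
    apply Conf.ext
    · show (cfg p.1).map f = _
      exact Multiset.map_map _ _ _
    · show (cfg p.2).map f = _
      exact Multiset.map_map _ _ _
  rw [key]
  refine (measurable_mk2 _ _).comp (Measurable.prodMk ?_ ?_)
  · exact measurable_pi_lambda _ fun i => hf.comp ((measurable_pi_apply _).comp measurable_fst)
  · exact measurable_pi_lambda _ fun i => hf.comp ((measurable_pi_apply _).comp measurable_snd)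

theorem cfg_cons {m : ℕ} (x : Pl) (w : Fin m → Pl) :
    cfg (Fin.cons x w : Fin (m + 1) → Pl) = x ::ₘ cfg w := by
  unfold cfg
  rw [Fin.univ_succ]
  simp only [Finset.cons_val, Multiset.map_cons, Fin.cons_zero, Finset.map_val, Multiset.map_map]
  congr 1

theorem measurable_consX (x : Pl) : Measurable (Conf.consX x) := by
  rw [measurable_conf]
  intro m m'
  have key : (fun p : (Fin m → Pl) × (Fin m' → Pl) => (mk2 m m' p).consX x) = fun p =>
      mk2 (m + 1) m' ((Fin.cons x p.1 : Fin (m + 1) → Pl), p.2) := by
    funext p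
    apply Conf.ext
    · show x ::ₘ cfg p.1 = cfg _
      rw [cfg_cons]
    · rfl
  rw [key]
  refine (measurable_mk2 _ _).comp (Measurable.prodMk ?_ measurable_snd)
  refine measurable_pi_lambda _ fun i => ?_
  refine Fin.cases ?_ (fun i => ?_) i
  · simp only [Fin.cons_zero]
    exact measurable_const
  · simp only [Fin.cons_succ]
    exact (measurable_pi_apply _).comp measurable_fst

theorem measurable_consY (x : Pl) : Measurable (Conf.consY x) := by
  rw [measurable_conf]
  intro m m'
  have key : (fun p : (Fin m → Pl) × (Fin m' → Pl) => (mk2 m m' p).consY x) = fun p =>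
      mk2 m (m' + 1) (p.1, (Fin.cons x p.2 : Fin (m' + 1) → Pl)) := by
    funext p
    apply Conf.ext
    · rfl
    · show x ::ₘ cfg p.2 = cfg _
      rw [cfg_cons]
  rw [key]
  refine (measurable_mk2 _ _).comp (Measurable.prodMk measurable_fst ?_)
  refine measurable_pi_lambda _ fun i => ?_
  refine Fin.cases ?_ (fun i => ?_) i
  · simp only [Fin.cons_zero]
    exact measurable_const
  · simp only [Fin.cons_succ]
    exact (measurable_pi_apply _).comp measurable_snd

theorem measurable_cardX : Measurable (fun c : Conf => c.X.card) := by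
  rw [measurable_conf]
  intro m m'
  have h : (fun p : (Fin m → Pl) × (Fin m' → Pl) => (mk2 m m' p).X.card) = fun _ => m := by
    funext p
    simp [mk2, cfg]
  rw [h]
  exact measurable_const

theorem measurable_cardY : Measurable (fun c : Conf => c.Y.card) := by
  rw [measurable_conf]
  intro m m'
  have h : (fun p : (Fin m → Pl) × (Fin m' → Pl) => (mk2 m m' p).Y.card) = fun _ => m' := by
    funext p
    simp [mk2, cfg]
  rw [h]
  exact measurable_const

theorem measurable_nX {R : Set Pl} (hR : MeasurableSet R) : Measurable (Conf.nX R) :=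
  measurable_cardX.comp (measurable_filt hR)

theorem measurable_nY {R : Set Pl} (hR : MeasurableSet R) : Measurable (Conf.nY R) :=
  measurable_cardY.comp (measurable_filt hR)

theorem measurable_wt : Measurable wt := by
  unfold wt
  exact measurable_const.max (measurable_const.min (measurable_id.div_const 3))

theorem measurable_lam (ℓ : ℕ × ℕ) : Measurable (lam ℓ) := by
  unfold lam
  exact ((measurable_const.sub measurable_wt).const_mul _).add (measurable_wt.const_mul _)

theorem measurable_lamFst (ℓ : ℕ × ℕ) : Measurable (fun p : Pl => lam ℓ p.1) :=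
  (measurable_lam ℓ).comp measurable_fst

theorem measurableSet_below (ℓ : ℕ × ℕ) : MeasurableSet (below ℓ) := by
  unfold below
  exact measurableSet_le measurable_snd (measurable_lamFst ℓ)

theorem measurableSet_above (ℓ : ℕ × ℕ) : MeasurableSet (above ℓ) := by
  unfold above
  exact measurableSet_lt (measurable_lamFst ℓ) measurable_snd

theorem measurable_shift (ℓ : ℕ × ℕ) : Measurable (shift ℓ) := by
  unfold shift
  exact measurable_fst.prodMk (measurable_snd.sub (measurable_lamFst ℓ))

theorem measurable_up (ℓ : ℕ × ℕ) : Measurable (up ℓ) :=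
  (measurable_mapC (measurable_shift ℓ)).comp (measurable_filt (measurableSet_above ℓ))

theorem measurable_imb (ℓ : ℕ × ℕ) : Measurable (fun c => imb c ℓ) := by
  have h : Measurable (fun q : ℕ × ℕ => (q.1 : ℤ) - (q.2 : ℤ)) := Measurable.of_discrete
  exact h.comp ((measurable_nX (measurableSet_below ℓ)).prodMk
    (measurable_nY (measurableSet_below ℓ)))

theorem measurable_ex (i₀ : ℤ) (k : ℕ) : Measurable (fun c => ex i₀ c k) := by
  induction k with
  | zero => exact measurable_const
  | succ k ih =>
    have h : ∀ ℓ : ℕ × ℕ, Measurable (fun c : Conf => nextL ℓ (i₀ + imb c ℓ)) := by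
      intro ℓ
      have h1 : Measurable (fun i : ℤ => nextL ℓ (i₀ + i)) := Measurable.of_discrete
      exact h1.comp (measurable_imb ℓ)
    exact measurable_cases (fun c => ex i₀ c k) (fun ℓ => ih (measurableSet_singleton ℓ))
      (fun ℓ c => nextL ℓ (i₀ + imb c ℓ)) h

theorem measurable_st (k : ℕ) : Measurable (fun c => st c k) := measurable_ex 0 k

theorem measurable_stCases {β : Type} [MeasurableSpace β] (k : ℕ) (F : ℕ × ℕ → Conf → β)
    (hF : ∀ ℓ, Measurable (F ℓ)) : Measurable (fun c => F (st c k) c) :=
  measurable_cases (fun c => st c k) (fun ℓ => measurable_st k (measurableSet_singleton ℓ)) F hF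

theorem measurable_im (k : ℕ) : Measurable (fun c => im c k) :=
  measurable_stCases k (fun ℓ c => imb c ℓ) measurable_imb

theorem measurable_uc (k : ℕ) : Measurable (fun c => uc c k) :=
  measurable_stCases k up measurable_up

theorem measurable_nXst (k : ℕ) : Measurable (fun c : Conf => c.nX (below (st c k))) :=
  measurable_stCases k (fun ℓ c => c.nX (below ℓ)) fun ℓ => measurable_nX (measurableSet_below ℓ)

theorem measurable_nYst (k : ℕ) : Measurable (fun c : Conf => c.nY (below (st c k))) :=
  measurable_stCases k (fun ℓ c => c.nY (below ℓ)) fun ℓ => measurable_nY (measurableSet_below ℓ)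

theorem measurableSet_okAt (n : ℕ) (θ ρ : ℝ) (k : ℕ) :
    MeasurableSet {c | OkAt n θ ρ c k} := by
  have h : MeasurableSet {q : (ℕ × ℕ) × ℕ × ℕ | Ok n θ ρ q.1 q.2.1 q.2.2} :=
    (Set.to_countable _).measurableSet
  exact ((measurable_st k).prodMk ((measurable_nXst k).prodMk (measurable_nYst k))) h

theorem measurableSet_alive (n : ℕ) (θ ρ : ℝ) (k : ℕ) :
    MeasurableSet {c | Alive n θ ρ c k} := by
  unfold Alive
  simp only [Set.setOf_forall]
  exact MeasurableSet.iInter fun j => MeasurableSet.iInter fun _ => measurableSet_okAt n θ ρ j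

theorem measurableSet_dev {F : Conf → ℕ} (hF : Measurable F) (a b : ℝ) :
    MeasurableSet {c | |(F c : ℝ) - a| ≤ b} := by
  have h : MeasurableSet {q : ℕ | |(q : ℝ) - a| ≤ b} := (Set.to_countable _).measurableSet
  exact hF h

theorem measurableSet_eqNat {F : Conf → ℕ} (hF : Measurable F) (a : ℕ) :
    MeasurableSet {c | F c = a} := hF (measurableSet_singleton a)

theorem measurableSet_slab (a b : ℝ) : MeasurableSet {p : Pl | a < p.2 ∧ p.2 ≤ b} :=
  (measurableSet_lt measurable_const measurable_snd).inter
    (measurableSet_le measurable_snd measurable_const)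

theorem measurableSet_slab' (a b : ℝ) : MeasurableSet {p : Pl | a ≤ p.2 ∧ p.2 ≤ b} :=
  (measurableSet_le measurable_const measurable_snd).inter
    (measurableSet_le measurable_snd measurable_const)

theorem measurableSet_slabL (ℓ : ℕ × ℕ) (a : ℝ) :
    MeasurableSet {p : Pl | lam ℓ p.1 - a < p.2 ∧ p.2 ≤ lam ℓ p.1} :=
  (measurableSet_lt ((measurable_lamFst ℓ).sub_const a) measurable_snd).inter
    (measurableSet_le measurable_snd (measurable_lamFst ℓ))

theorem measurableSet_right (a : ℝ) : MeasurableSet {p : Pl | a ≤ p.1} :=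
  measurableSet_le measurable_const measurable_fst

theorem measurableSet_left (a : ℝ) : MeasurableSet {p : Pl | p.1 ≤ a} :=
  measurableSet_le measurable_fst measurable_const

theorem measurableSet_regUp (N : ℕ) (τ δ r : ℝ) : MeasurableSet {c | RegUp N τ δ r c} := by
  unfold RegUp
  simp only [Set.setOf_forall]
  refine MeasurableSet.iInter fun j => MeasurableSet.iInter fun _ => ?_
  refine MeasurableSet.inter (measurableSet_dev (measurable_nX (measurableSet_slab _ _)) _ _)
    (MeasurableSet.inter (measurableSet_dev (measurable_nX ?_) _ _)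
      (measurableSet_dev (measurable_nY (measurableSet_slab _ _)) _ _))
  exact (measurableSet_right _).inter (measurableSet_slab _ _)

theorem measurableSet_regDn (N : ℕ) (τ δ r : ℝ) (ℓ : ℕ × ℕ) :
    MeasurableSet {c | RegDn N τ δ r ℓ c} := by
  unfold RegDn
  simp only [Set.setOf_forall]
  refine MeasurableSet.iInter fun j => MeasurableSet.iInter fun _ => ?_
  refine MeasurableSet.inter (measurableSet_dev (measurable_nX (measurableSet_slabL _ _)) _ _)
    (MeasurableSet.inter (measurableSet_dev (measurable_nX ?_) _ _)
      (measurableSet_dev (measurable_nY (measurableSet_slabL _ _)) _ _))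
  exact (measurableSet_right _).inter (measurableSet_slabL _ _)

theorem measurableSet_regDn_st (N : ℕ) (τ δ r : ℝ) (k : ℕ) :
    MeasurableSet {c | RegDn N τ δ r (st c k) c} := by
  rw [measurableSet_setOf]
  exact measurable_stCases k (fun ℓ c => RegDn N τ δ r ℓ c)
    fun ℓ => measurableSet_setOf.1 (measurableSet_regDn N τ δ r ℓ)

theorem measurableSet_pat (K : ℕ) (τ₁ : ℝ) : MeasurableSet {c | Pat K τ₁ c} := by
  unfold Pat
  simp only [Set.setOf_forall]
  refine MeasurableSet.iInter fun j => MeasurableSet.iInter fun _ => ?_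
  refine MeasurableSet.inter (measurableSet_eqNat (measurable_nX (measurableSet_slab _ _)) _)
    (MeasurableSet.inter (measurableSet_eqNat (measurable_nX ?_) _)
      (MeasurableSet.inter (measurableSet_eqNat (measurable_nY (measurableSet_slab _ _)) _)
        (measurableSet_eqNat (measurable_nY ?_) _)))
  · exact (measurableSet_right _).inter (measurableSet_slab' _ _)
  · exact (measurableSet_left _).inter (measurableSet_slab' _ _)

theorem measurableSet_cand (K : ℕ) (τ₁ : ℝ) (k : ℕ) : MeasurableSet {c | Cand K τ₁ c k} :=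
  MeasurableSet.inter (measurable_im k (measurableSet_singleton 0))
    (measurable_uc k (measurableSet_pat K τ₁))

end Pool.Agent.H27.OTC
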