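import Pool.Agent.H27.OTC.Window

/-!
Job OTC-D-GAP: the local optimal matching is unique, with a gap.
-/

set_option autoImplicit false

open MeasureTheory ProbabilityTheory
open scoped ENNReal

namespace Pool.Agent.H27.OTC

open Pool.Agent.H96.OT (Pl)

/-- any two different matchings of the same points have parabolic costs which differ by more than
`ε` -/
def GapAll (ε : ℝ) (c : Conf) : Prop :=
  ∀ (m : ℕ) (x y : Fin m → Pl), cfg x ≤ c.X → cfg y ≤ c.Y → ∀ σ : Equiv.Perm (Fin m), σ ≠ 1 →
    ε < |∑ i, par (x i) (y i) - ∑ i, par (x i) (y (σ i))|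

open Classical in
/-- indicator that the window does not contain too many points and has no gap `ε` -/
noncomputable def gapI (N : ℕ) (B ε : ℝ) (c : Conf) : ℝ≥0∞ :=
  if c.nX (win B) ≤ N ∧ c.nY (win B) ≤ N ∧ ¬ GapAll ε (c.filt (win B)) then 1 else 0

/-- a set which is null in one coordinate, for all values of the other coordinates, is null -/
theorem pi_null_of_coord {m : ℕ} {ν : Fin m → Measure Pl} [∀ i, SigmaFinite (ν i)] (i0 : Fin m)
    {S : Set (Fin m → Pl)} (hS : MeasurableSet S)
    (h : ∀ x : Fin m → Pl, ν i0 {z | Function.update x i0 z ∈ S} = 0) :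
    Measure.pi ν S = 0 := by
  classical
  have hf : Measurable (S.indicator (fun _ => (1 : ℝ≥0∞))) := measurable_const.indicator hS
  have h1 : ∫⁻ x, S.indicator (fun _ => (1 : ℝ≥0∞)) x ∂Measure.pi ν = Measure.pi ν S := by
    rw [lintegral_indicator hS]; simp
  rw [← h1, lintegral_eq_lmarginal_univ (fun _ => (0 : Pl)),
    lmarginal_erase' _ hf (Finset.mem_univ i0)]
  have h2 : (fun x => ∫⁻ xi, S.indicator (fun _ => (1 : ℝ≥0∞)) (Function.update x i0 xi) ∂ν i0)
      = fun _ => 0 := by
    funext x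
    have h3 : (fun xi => S.indicator (fun _ => (1 : ℝ≥0∞)) (Function.update x i0 xi)) =
        ({z | Function.update x i0 z ∈ S}).indicator (fun _ => 1) := by
      funext z
      by_cases hz : Function.update x i0 z ∈ S
      · rw [Set.indicator_of_mem hz, Set.indicator_of_mem (by exact hz)]
      · rw [Set.indicator_of_notMem hz, Set.indicator_of_notMem (by exact hz)]
    have h4 : MeasurableSet {z | Function.update x i0 z ∈ S} := hS.preimage (measurable_update x)
    rw [h3, lintegral_indicator h4]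
    simp [h]
  rw [h2]
  simp [lmarginal]

/-- the zero set of a quadratic polynomial is null -/
theorem quad_null {A : ℝ} (B C : ℝ) (hA : A ≠ 0) :
    volume {u : ℝ | A * u ^ 2 + B * u + C = 0} = 0 := by
  by_cases h : ∃ u1 : ℝ, A * u1 ^ 2 + B * u1 + C = 0
  · obtain ⟨u1, h1⟩ := h
    have hfin : ({u1, -B / A - u1} : Set ℝ).Finite := by simp
    refine measure_mono_null ?_ (hfin.measure_zero volume)
    intro u hu
    simp only [Set.mem_ofPred_eq] at hu
    have h2 : (u - u1) * (A * (u + u1) + B) = 0 := by linear_combination hu - h1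
    rcases mul_eq_zero.1 h2 with h3 | h3
    · left; linarith
    · right
      show u = -B / A - u1
      field_simp
      linarith
  · push Not at h
    have : {u : ℝ | A * u ^ 2 + B * u + C = 0} = ∅ := by
      ext u; simp [h u]
    rw [this]; simp

/-- two different matchings of independent points a.s. have different costs -/
theorem par_ne {B : ℝ} (hB : 0 < B) {m : ℕ} {σ : Equiv.Perm (Fin m)} (hσ : σ ≠ 1) :
    ∀ᵐ p ∂((Measure.pi fun _ : Fin m =>
        volume.restrict (Set.Icc (0 : ℝ) 1 ×ˢ Set.Ioc (0 : ℝ) B)).prod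
      (Measure.pi fun _ : Fin m =>
        volume.restrict (Set.Icc (2 : ℝ) 3 ×ˢ Set.Ioc (0 : ℝ) B))),
      ∑ i, par (p.1 i) (p.2 i) ≠ ∑ i, par (p.1 i) (p.2 (σ i)) := by
  classical
  obtain ⟨i0, hi0⟩ : ∃ i0, σ i0 ≠ i0 := by
    by_contra h
    push Not at h
    exact hσ (Equiv.ext h)
  have hmpar : ∀ (τ : Fin m → Fin m), Measurable (fun p : (Fin m → Pl) × (Fin m → Pl) =>
      ∑ i, par (p.1 i) (p.2 (τ i))) := by
    intro τ
    refine Finset.measurable_sum _ (fun i _ => ?_)
    unfold par
    fun_prop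
  have hSm : MeasurableSet {p : (Fin m → Pl) × (Fin m → Pl) |
      ∑ i, par (p.1 i) (p.2 i) = ∑ i, par (p.1 i) (p.2 (σ i))} :=
    measurableSet_eq_fun (hmpar id) (hmpar σ)
  rw [ae_iff]
  have hset : {p : (Fin m → Pl) × (Fin m → Pl) |
      ¬ ∑ i, par (p.1 i) (p.2 i) ≠ ∑ i, par (p.1 i) (p.2 (σ i))} =
      {p | ∑ i, par (p.1 i) (p.2 i) = ∑ i, par (p.1 i) (p.2 (σ i))} := by
    ext p; simp
  rw [hset, Measure.prod_apply_symm hSm, lintegral_eq_zero_iff (measurable_measure_prodMk_right hSm)]
  -- distinct abscissas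
  have hy : ∀ᵐ y ∂(Measure.pi fun _ : Fin m =>
        volume.restrict (Set.Icc (2 : ℝ) 3 ×ˢ Set.Ioc (0 : ℝ) B)), (y i0).1 ≠ (y (σ i0)).1 := by
    rw [ae_iff]
    refine pi_null_of_coord i0 ?_ ?_
    · have : {y : Fin m → Pl | ¬ (y i0).1 ≠ (y (σ i0)).1} = {y | (y i0).1 = (y (σ i0)).1} := by
        ext y; simp
      rw [this]
      exact measurableSet_eq_fun (by fun_prop) (by fun_prop)
    · intro x
      refine le_antisymm (le_trans (Measure.restrict_apply_le _ _) (le_of_eq ?_)) zero_le
      have : {z : Pl | Function.update x i0 z ∈ {y : Fin m → Pl | ¬ (y i0).1 ≠ (y (σ i0)).1}} =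
          ({(x (σ i0)).1} : Set ℝ) ×ˢ (Set.univ : Set ℝ) := by
        ext z
        simp [Function.update_of_ne hi0]
      rw [this, Measure.volume_eq_prod, Measure.prod_prod]
      simp
  filter_upwards [hy] with y hy
  refine pi_null_of_coord i0 (hSm.preimage (measurable_id.prodMk measurable_const)) ?_
  intro x
  refine le_antisymm (le_trans (Measure.restrict_apply_le _ _) (le_of_eq ?_)) zero_le
  have hm1 : MeasurableSet {z : Pl | Function.update x i0 z ∈ (fun x : Fin m → Pl => (x, y)) ⁻¹'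
      {p : (Fin m → Pl) × (Fin m → Pl) |
      ∑ i, par (p.1 i) (p.2 i) = ∑ i, par (p.1 i) (p.2 (σ i))}} :=
    (hSm.preimage (measurable_id.prodMk measurable_const)).preimage (measurable_update x)
  rw [Measure.volume_eq_prod]
  refine Measure.measure_prod_null_of_ae_null hm1 ?_
  refine Filter.Eventually.of_forall (fun a => ?_)
  set s1 : ℝ := ∑ i ∈ Finset.univ.erase i0, par (x i) (y i) with hs1
  set s2 : ℝ := ∑ i ∈ Finset.univ.erase i0, par (x i) (y (σ i)) with hs2
  have hA : ((y i0).1 - a)⁻¹ - ((y (σ i0)).1 - a)⁻¹ ≠ 0 := by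
    intro h
    have h1 : ((y i0).1 - a)⁻¹ = ((y (σ i0)).1 - a)⁻¹ := by linarith
    have h2 := inv_injective h1
    exact hy (by linarith)
  have hq := quad_null
    (-2 * (y i0).2 * ((y i0).1 - a)⁻¹ + 2 * (y (σ i0)).2 * ((y (σ i0)).1 - a)⁻¹)
    ((y i0).2 ^ 2 * ((y i0).1 - a)⁻¹ - (y (σ i0)).2 ^ 2 * ((y (σ i0)).1 - a)⁻¹ + s1 - s2) hA
  refine measure_mono_null ?_ hq
  intro u hu
  simp only [Set.mem_preimage, Set.mem_ofPred_eq] at hu ⊢
  have e1 : ∀ τ : Fin m → Fin m, ∑ i, par (Function.update x i0 (a, u) i) (y (τ i)) =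
      par (a, u) (y (τ i0)) + ∑ i ∈ Finset.univ.erase i0, par (x i) (y (τ i)) := by
    intro τ
    rw [← Finset.add_sum_erase Finset.univ _ (Finset.mem_univ i0)]
    congr 1
    · simp
    · refine Finset.sum_congr rfl (fun i hi => ?_)
      rw [Function.update_of_ne (Finset.ne_of_mem_erase hi)]
  have e2 := e1 id
  have e3 := e1 σ
  simp only [id] at e2
  rw [e2, e3, ← hs1, ← hs2] at hu
  unfold par at hu
  simp only [div_eq_mul_inv] at hu
  linear_combination hu

theorem measurable_par {α : Type*} [MeasurableSpace α] {f g : α → Pl} (hf : Measurable f)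
    (hg : Measurable g) : Measurable (fun a => par (f a) (g a)) := by
  unfold par
  exact ((((measurable_snd.comp hg).sub (measurable_snd.comp hf)).pow_const 2)).div
    ((measurable_fst.comp hg).sub (measurable_fst.comp hf))

open Classical in
theorem card_fiber_cfg {m : ℕ} (w : Fin m → Pl) (p : Pl) :
    Multiset.count p (cfg w) = Fintype.card {i // w i = p} := by
  unfold cfg
  rw [Multiset.count_map, Fintype.card_subtype, ← Finset.filter_val]
  show (Finset.univ.filter fun a => p = w a).card = _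
  congr 1
  ext a
  simp [eq_comm]

theorem cfg_le_iff {k m : ℕ} (x : Fin k → Pl) (w : Fin m → Pl) :
    cfg x ≤ cfg w ↔ ∃ e : Fin k ↪ Fin m, ∀ i, x i = w (e i) := by
  classical
  constructor
  · intro h
    have h1 : ∀ p : Pl, Nonempty ({i // x i = p} ↪ {j // w j = p}) := by
      intro p
      apply Function.Embedding.nonempty_of_card_le
      rw [← card_fiber_cfg, ← card_fiber_cfg]
      exact Multiset.le_iff_count.1 h p
    let φ : ∀ p : Pl, {i // x i = p} ↪ {j // w j = p} := fun p => (h1 p).some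
    have hinj : ∀ (p : Pl) (i i' : Fin k) (hi : x i = p) (hi' : x i' = p),
        (φ p ⟨i, hi⟩).1 = (φ p ⟨i', hi'⟩).1 → i = i' := by
      intro p i i' hi hi' h2
      have h3 := (φ p).injective (Subtype.ext h2)
      exact congrArg Subtype.val h3
    have hcast : ∀ (p q : Pl) (h : q = p) (i : Fin k) (hi : x i = q) (hi' : x i = p),
        (φ q ⟨i, hi⟩).1 = (φ p ⟨i, hi'⟩).1 := by
      rintro p q rfl i hi hi'
      rfl
    refine ⟨⟨fun i => (φ (x i) ⟨i, rfl⟩).1, ?_⟩, ?_⟩
    · intro i i' hii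
      have e1 := (φ (x i) ⟨i, rfl⟩).2
      have e2 := (φ (x i') ⟨i', rfl⟩).2
      have e3 : x i' = x i := by
        rw [← e1, ← e2]
        exact congrArg w hii.symm
      apply hinj (x i) i i' rfl e3
      rw [← hcast (x i) (x i') e3 i' rfl e3]
      exact hii
    · intro i
      exact ((φ (x i) ⟨i, rfl⟩).2).symm
  · rintro ⟨e, he⟩
    have h1 : x = fun i => w (e i) := funext he
    have h2 : cfg x = (Finset.univ.map e).val.map w := by
      rw [h1]
      unfold cfg
      rw [Finset.map_val, Multiset.map_map]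
      rfl
    rw [h2]
    unfold cfg
    exact Multiset.map_le_map (Finset.val_le_iff.2 (Finset.subset_univ _))

/-- the difference of the costs of two matchings of sub-families -/
noncomputable def dpar {m m' : ℕ} (p : (Fin m → Pl) × (Fin m' → Pl)) {k : ℕ} (e : Fin k ↪ Fin m)
    (e' : Fin k ↪ Fin m') (σ : Equiv.Perm (Fin k)) : ℝ :=
  |∑ i, par (p.1 (e i)) (p.2 (e' i)) - ∑ i, par (p.1 (e i)) (p.2 (e' (σ i)))|

theorem gapAll_mk2 {ε : ℝ} {m m' : ℕ} (p : (Fin m → Pl) × (Fin m' → Pl)) :
    GapAll ε (mk2 m m' p) ↔ ∀ (k : ℕ) (e : Fin k ↪ Fin m) (e' : Fin k ↪ Fin m')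
      (σ : Equiv.Perm (Fin k)), σ ≠ 1 → ε < dpar p e e' σ := by
  constructor
  · intro h k e e' σ hσ
    exact h k (fun i => p.1 (e i)) (fun i => p.2 (e' i))
      ((cfg_le_iff _ _).2 ⟨e, fun _ => rfl⟩) ((cfg_le_iff _ _).2 ⟨e', fun _ => rfl⟩) σ hσ
  · intro h k x y hx hy σ hσ
    obtain ⟨e, he⟩ := (cfg_le_iff _ _).1 hx
    obtain ⟨e', he'⟩ := (cfg_le_iff _ _).1 hy
    have h1 := h k e e' σ hσ
    unfold dpar at h1
    simp only [he, he']
    exact h1

theorem measurable_dpar {m m' k : ℕ} (e : Fin k ↪ Fin m)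
    (e' : Fin k ↪ Fin m') (σ : Equiv.Perm (Fin k)) :
    Measurable (fun p : (Fin m → Pl) × (Fin m' → Pl) => dpar p e e' σ) := by
  unfold dpar
  refine Measurable.abs (Measurable.sub ?_ ?_)
  · exact Finset.measurable_fun_sum _ fun i _ => measurable_par
      ((measurable_pi_apply _).comp measurable_fst) ((measurable_pi_apply _).comp measurable_snd)
  · exact Finset.measurable_fun_sum _ fun i _ => measurable_par
      ((measurable_pi_apply _).comp measurable_fst) ((measurable_pi_apply _).comp measurable_snd)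

theorem measurableSet_gapAll (ε : ℝ) : MeasurableSet {c | GapAll ε c} := by
  rw [measurableSet_conf]
  intro m m'
  have h : mk2 m m' ⁻¹' {c | GapAll ε c} = ⋂ (k : ℕ), ⋂ (e : Fin k ↪ Fin m),
      ⋂ (e' : Fin k ↪ Fin m'), ⋂ (σ : Equiv.Perm (Fin k)), ⋂ (_ : σ ≠ 1),
        {p : (Fin m → Pl) × (Fin m' → Pl) | ε < dpar p e e' σ} := by
    ext p
    simp only [Set.mem_preimage, Set.mem_iInter]
    exact gapAll_mk2 p
  rw [h]
  refine MeasurableSet.iInter fun k => MeasurableSet.iInter fun e => MeasurableSet.iInter fun e' =>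
    MeasurableSet.iInter fun σ => MeasurableSet.iInter fun _ => ?_
  exact measurableSet_lt measurable_const (measurable_dpar e e' σ)

theorem measurableSet_gapBad (N : ℕ) (B ε : ℝ) :
    MeasurableSet {c : Conf | c.nX (win B) ≤ N ∧ c.nY (win B) ≤ N ∧
      ¬ GapAll ε (c.filt (win B))} := by
  have hW : MeasurableSet (win B) := measurableSet_slab 0 _
  have h1 : MeasurableSet {c : Conf | c.nX (win B) ≤ N} :=
    (measurable_nX hW) (measurableSet_Iic (a := N))
  have h2 : MeasurableSet {c : Conf | c.nY (win B) ≤ N} :=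
    (measurable_nY hW) (measurableSet_Iic (a := N))
  have h3 : MeasurableSet {c : Conf | GapAll ε (c.filt (win B))} :=
    (measurable_filt hW) (measurableSet_gapAll ε)
  exact h1.inter (h2.inter h3.compl)

theorem winFun_gap (N : ℕ) (B ε : ℝ) : WinFun N B 1 (gapI N B ε) := by
  refine ⟨?_, ?_, ?_, ?_⟩
  · unfold gapI
    exact Measurable.ite (measurableSet_gapBad N B ε) measurable_const measurable_const
  · intro c
    unfold gapI
    rw [ENNReal.ofReal_one]
    split_ifs <;> simp
  · intro c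
    unfold gapI
    rw [filt_filt, nX_filt, nY_filt, Set.inter_self]
  · intro c hc
    unfold gapI
    rw [if_neg]
    rintro ⟨h1, h2, _⟩
    omega

/-- restriction to a sub-family is quasi measure preserving -/
theorem qmp_comp (ν : Measure Pl) [IsFiniteMeasure ν] {k m : ℕ} (e : Fin k ↪ Fin m) :
    Measure.QuasiMeasurePreserving (fun (w : Fin m → Pl) (i : Fin k) => w (e i))
      (Measure.pi fun _ : Fin m => ν) (Measure.pi fun _ : Fin k => ν) := by
  classical
  have h1 := (measurePreserving_piEquivPiSubtypeProd (fun _ : Fin m => ν)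
    (fun j => ∃ i, e i = j)).quasiMeasurePreserving
  have h2 := Measure.QuasiMeasurePreserving.comp (Measure.quasiMeasurePreserving_fst) h1
  let f : {j // ∃ i, e i = j} ≃ Fin k := (Equiv.ofInjective e e.injective).symm
  have h3 := (measurePreserving_piCongrLeft (fun _ : Fin k => ν) f).quasiMeasurePreserving
  have h4 := h3.comp h2
  have h5 : (fun (w : Fin m → Pl) (i : Fin k) => w (e i)) =
      (MeasurableEquiv.piCongrLeft (fun _ : Fin k => Pl) f) ∘ (Prod.fst ∘
        (MeasurableEquiv.piEquivPiSubtypeProd (fun _ : Fin m => Pl) fun j => ∃ i, e i = j)) := by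
    funext w i
    have hi : f ⟨e i, ⟨i, rfl⟩⟩ = i := f.apply_symm_apply i
    have h6 := MeasurableEquiv.piCongrLeft_apply_apply f (β := fun _ => Pl)
      (fun j : {j // ∃ i, e i = j} => w j.1) ⟨e i, ⟨i, rfl⟩⟩
    rw [hi] at h6
    exact h6.symm
  rw [h5]
  exact h4

theorem poi_tendsto_zero {N : ℕ} {B : ℝ} {g : ℕ → Conf → ℝ≥0∞}
    (h : ∀ j j' : ℕ, Filter.Tendsto (fun n => ∫⁻ c, g n c
      ∂(iid (volume.restrict (Set.Icc (0 : ℝ) 1 ×ˢ Set.Ioc (0 : ℝ) B))
        (volume.restrict (Set.Icc (2 : ℝ) 3 ×ˢ Set.Ioc (0 : ℝ) B)) j j')) Filter.atTop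
        (nhds 0)) :
    Filter.Tendsto (fun n => poi N B (g n)) Filter.atTop (nhds 0) := by
  unfold poi
  have h1 : (0 : ℝ≥0∞) = ∑ j ∈ Finset.range (N + 1), ∑ j' ∈ Finset.range (N + 1), 
    ENNReal.ofReal (Real.exp (-(2 * B)) / ((j.factorial : ℝ) * (j'.factorial : ℝ))) * 0 := by
    simp
  rw [h1]
  refine tendsto_finsetSum _ fun j _ => tendsto_finsetSum _ fun j' _ => ?_
  exact ENNReal.Tendsto.const_mul (h j j') (Or.inr ENNReal.ofReal_ne_top)

theorem gap_small (N : ℕ) {B η : ℝ} (hB : 0 < B) (hη : 0 < η) :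
    ∃ ε : ℝ, 0 < ε ∧ poi N B (gapI N B ε) ≤ ENNReal.ofReal η := by
  classical
  set ν : Measure Pl := volume.restrict (Set.Icc (0 : ℝ) 1 ×ˢ Set.Ioc (0 : ℝ) B) with hν
  set ν' : Measure Pl := volume.restrict (Set.Icc (2 : ℝ) 3 ×ˢ Set.Ioc (0 : ℝ) B) with hν'
  have fν : IsFiniteMeasure ν := by
    constructor
    rw [hν, Measure.restrict_apply_univ, Measure.volume_eq_prod, Measure.prod_prod,
      Real.volume_Icc, Real.volume_Ioc]
    exact ENNReal.mul_lt_top ENNReal.ofReal_lt_top ENNReal.ofReal_lt_top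
  have fν' : IsFiniteMeasure ν' := by
    constructor
    rw [hν', Measure.restrict_apply_univ, Measure.volume_eq_prod, Measure.prod_prod,
      Real.volume_Icc, Real.volume_Ioc]
    exact ENNReal.mul_lt_top ENNReal.ofReal_lt_top ENNReal.ofReal_lt_top
  have key : ∀ j j' : ℕ, Filter.Tendsto (fun n : ℕ => ∫⁻ c, gapI N B (1 / ((n : ℝ) + 1)) c
      ∂(iid ν ν' j j')) Filter.atTop (nhds 0) := by
    intro j j'
    have hfin : IsFiniteMeasure ((Measure.pi fun _ : Fin j => ν).prod
        (Measure.pi fun _ : Fin j' => ν')) := inferInstance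
    simp only [lintegral_iid ν ν' (winFun_gap N B _).meas]
    have hlim := tendsto_lintegral_of_dominated_convergence
      (μ := (Measure.pi fun _ : Fin j => ν).prod (Measure.pi fun _ : Fin j' => ν'))
      (F := fun (n : ℕ) p => gapI N B (1 / ((n : ℝ) + 1)) (mk2 j j' p)) (f := fun _ => 0)
      (fun _ => 1) ?_ ?_ ?_ ?_
    · simpa using hlim
    · intro n
      exact (winFun_gap N B _).meas.comp (measurable_mk2 j j')
    · intro n
      refine Filter.Eventually.of_forall fun p => ?_
      have := (winFun_gap N B (1 / ((n : ℝ) + 1))).bdd (mk2 j j' p)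
      rwa [ENNReal.ofReal_one] at this
    · rw [lintegral_const, one_mul]
      exact measure_ne_top _ _
    · -- almost sure convergence
      have h1 : ∀ (k : Fin (j + 1)) (e : Fin k ↪ Fin j) (e' : Fin k ↪ Fin j')
          (σ : Equiv.Perm (Fin k)), σ ≠ 1 → ∀ᵐ p ∂((Measure.pi fun _ : Fin j => ν).prod
            (Measure.pi fun _ : Fin j' => ν')), 0 < dpar p e e' σ := by
        intro k e e' σ hσ
        have h2 := (QuasiMeasurePreserving.prodMap (qmp_comp ν e) (qmp_comp ν' e')).ae (par_ne hB hσ)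
        filter_upwards [h2] with p hp
        unfold dpar
        rw [abs_pos]
        exact sub_ne_zero.2 hp
      have h3 : ∀ᵐ p ∂((Measure.pi fun _ : Fin j => ν).prod
            (Measure.pi fun _ : Fin j' => ν')), ∀ (k : Fin (j + 1)) (e : Fin k ↪ Fin j)
            (e' : Fin k ↪ Fin j') (σ : Equiv.Perm (Fin k)), σ ≠ 1 → 0 < dpar p e e' σ := by
        simp only [ae_all_iff]
        exact h1
      have h4 : ∀ᵐ p ∂((Measure.pi fun _ : Fin j => ν).prod
            (Measure.pi fun _ : Fin j' => ν')), (∀ i, p.1 i ∈ win B) ∧ ∀ i, p.2 i ∈ win B := by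
        have g1 : ∀ᵐ x ∂ν, x ∈ win B :=
          (ae_restrict_mem (measurableSet_Icc.prod measurableSet_Ioc)).mono fun x hx => hx.2
        have g2 : ∀ᵐ x ∂ν', x ∈ win B :=
          (ae_restrict_mem (measurableSet_Icc.prod measurableSet_Ioc)).mono fun x hx => hx.2
        have e1 : ∀ᵐ w ∂(Measure.pi fun _ : Fin j => ν), ∀ i, w i ∈ win B := by
          rw [ae_all_iff]
          intro i
          exact (Measure.quasiMeasurePreserving_eval (fun _ : Fin j => ν) i).ae g1
        have e2 : ∀ᵐ w ∂(Measure.pi fun _ : Fin j' => ν'), ∀ i, w i ∈ win B := by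
          rw [ae_all_iff]
          intro i
          exact (Measure.quasiMeasurePreserving_eval (fun _ : Fin j' => ν') i).ae g2
        have f1 := Measure.quasiMeasurePreserving_fst (μ := Measure.pi fun _ : Fin j => ν)
          (ν := Measure.pi fun _ : Fin j' => ν') |>.ae e1
        have f2 := Measure.quasiMeasurePreserving_snd (μ := Measure.pi fun _ : Fin j => ν)
          (ν := Measure.pi fun _ : Fin j' => ν') |>.ae e2
        filter_upwards [f1, f2] with q h1 h2
        exact ⟨h1, h2⟩
      filter_upwards [h3, h4] with p hp hw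
      have h5 : (mk2 j j' p).filt (win B) = mk2 j j' p := by
        apply Conf.ext
        · show Multiset.filter (fun q => q ∈ win B) (cfg p.1) = cfg p.1
          refine Multiset.filter_eq_self.2 fun x hx => ?_
          obtain ⟨i, -, rfl⟩ := Multiset.mem_map.1 hx
          exact hw.1 i
        · show Multiset.filter (fun q => q ∈ win B) (cfg p.2) = cfg p.2
          refine Multiset.filter_eq_self.2 fun x hx => ?_
          obtain ⟨i, -, rfl⟩ := Multiset.mem_map.1 hx
          exact hw.2 i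
      have h6 : ∀ᶠ n : ℕ in Filter.atTop, ∀ (k : Fin (j + 1)) (e : Fin k ↪ Fin j)
            (e' : Fin k ↪ Fin j') (σ : Equiv.Perm (Fin k)), σ ≠ 1 →
            1 / ((n : ℝ) + 1) < dpar p e e' σ := by
        simp only [Filter.eventually_all]
        intro k e e' σ hσ
        exact (tendsto_one_div_add_atTop_nhds_zero_nat (𝕜 := ℝ)).eventually
          (gt_mem_nhds (hp k e e' σ hσ))
      apply tendsto_const_nhds.congr'
      filter_upwards [h6] with n hn
      unfold gapI
      rw [if_neg]
      rintro ⟨_, _, h7⟩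
      apply h7
      rw [h5, gapAll_mk2]
      intro k e e' σ hσ
      have hk : k < j + 1 := by
        have := Fintype.card_le_of_embedding e
        simp only [Fintype.card_fin] at this
        omega
      exact hn ⟨k, hk⟩ e e' σ hσ
  have hp := poi_tendsto_zero (N := N) (B := B) key
  have hη' : (0 : ℝ≥0∞) < ENNReal.ofReal η := ENNReal.ofReal_pos.2 hη
  obtain ⟨n, hn⟩ := (hp.eventually (gt_mem_nhds hη')).exists
  exact ⟨1 / ((n : ℝ) + 1), by positivity, hn.le⟩

end Pool.Agent.H27.OTC
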