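import Pool.Agent.H27.OTC.Rays
import Pool.Agent.H27.OTC.Gap
import Pool.Agent.H96.OT.Geom

/-!
Job OTC-D-COST: the costs to which the proof applies.
-/

set_option autoImplicit false

open MeasureTheory ProbabilityTheory
open scoped ENNReal

namespace Pool.Agent.H27.OTC

open Pool.Agent.H96.OT (Pl)

/-- the rays from `x i` to `y i`, in the coordinates relative to the line `ℓ` -/
noncomputable def raysOf {n : ℕ} (x y : Fin n → Pl)
    (hx : ∀ i, 0 ≤ (x i).1 ∧ (x i).1 ≤ 1) (hy : ∀ i, 2 ≤ (y i).1 ∧ (y i).1 ≤ 3) (ℓ : ℕ × ℕ) :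
    Rays (Fin n) where
  a i := (x i).1
  b i := (y i).1
  u i := (x i).2 - lam ℓ (x i).1
  v i := (y i).2 - lam ℓ (y i).1
  P i := (((y i).2 - lam ℓ (y i).1) - ((x i).2 - lam ℓ (x i).1)) / ((y i).1 - (x i).1)
  Z i := ((x i).2 - lam ℓ (x i).1) + (3 / 2 - (x i).1) *
    ((((y i).2 - lam ℓ (y i).1) - ((x i).2 - lam ℓ (x i).1)) / ((y i).1 - (x i).1))
  a0 i := (hx i).1
  a1 i := (hx i).2
  b2 i := (hy i).1
  b3 i := (hy i).2
  hu i := by ring
  hv i := by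
    have h1 := (hx i).2
    have h2 := (hy i).1
    have h3 : (y i).1 - (x i).1 ≠ 0 := by linarith
    field_simp
    ring

/-- the points lie in the rectangles `[0,1] × (0,n]`, `[2,3] × (0,n]` -/
structure InDom (n : ℕ) {m : ℕ} (x y : Fin m → Pl) : Prop where
  x1 : ∀ i, 0 ≤ (x i).1 ∧ (x i).1 ≤ 1
  y1 : ∀ i, 2 ≤ (y i).1 ∧ (y i).1 ≤ 3
  x2 : ∀ i, 0 < (x i).2 ∧ (x i).2 ≤ n
  y2 : ∀ i, 0 < (y i).2 ∧ (y i).2 ≤ n

/-- The costs (for the vertically scaled points, one cost for each `n`) to which the proof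
applies: optimal matchings are non crossing, satisfy the energy inequality relative to all lines
of slope at most one third (in the unscaled picture), and locally they are almost optimal for the
parabolic cost. -/
structure GoodCost (c : ℕ → Pl → Pl → ℝ) : Prop where
  opt : ∀ (n : ℕ) (x y : Fin n → Pl) (h : InDom n x y), 0 < n → IsOptM (c n) x y →
    ∀ ℓ : ℕ × ℕ, |(ℓ.2 : ℝ) - ℓ.1| ≤ n → (raysOf x y h.x1 h.y1 ℓ).Opt
  loc : ∀ (B : ℝ) (N : ℕ) (ε : ℝ), 0 < ε → ∃ n₀ : ℕ, ∀ n : ℕ, n₀ ≤ n → ∀ ℓ : ℕ × ℕ,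
    |(ℓ.2 : ℝ) - ℓ.1| ≤ n → ∀ m ≤ N, ∀ x y : Fin m → Pl,
    (∀ i, 0 ≤ (x i).1 ∧ (x i).1 ≤ 1 ∧ |(x i).2 - lam ℓ (x i).1| ≤ B) →
    (∀ i, 2 ≤ (y i).1 ∧ (y i).1 ≤ 3 ∧ |(y i).2 - lam ℓ (y i).1| ≤ B) →
    IsOptM (c n) x y → ∀ τ : Equiv.Perm (Fin m),
      ∑ i, par (x i) (y i) ≤ ∑ i, par (x i) (y (τ i)) + ε

/-- the height of a line is affine on `[0, 3]` -/
theorem lam_affine (ℓ : ℕ × ℕ) {t : ℝ} (h0 : 0 ≤ t) (h3 : t ≤ 3) :
    lam ℓ t = ℓ.1 + ((ℓ.2 : ℝ) - ℓ.1) / 3 * t := by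
  have h1 : wt t = t / 3 := by
    unfold wt
    rw [min_eq_right (by linarith), max_eq_right (by linarith)]
  unfold lam
  rw [h1]
  ring

/-- the parabolic cost in the coordinates relative to a line -/
theorem par_shift_one (ℓ : ℕ × ℕ) {p q : Pl} (hp : 0 ≤ p.1 ∧ p.1 ≤ 1) (hq : 2 ≤ q.1 ∧ q.1 ≤ 3) :
    par (shift ℓ p) (shift ℓ q) = par p q
      - 2 * (((ℓ.2 : ℝ) - ℓ.1) / 3) * (q.2 - p.2) + (((ℓ.2 : ℝ) - ℓ.1) / 3) ^ 2 * (q.1 - p.1) := by
  have hne : q.1 - p.1 ≠ 0 := by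
    have := hp.2
    have := hq.1
    linarith
  unfold par shift
  simp only
  rw [lam_affine ℓ hp.1 (by linarith [hp.2]), lam_affine ℓ (by linarith [hq.1]) hq.2]
  field_simp
  ring

/-- the parabolic cost differences do not depend on the line used for the coordinates -/
theorem par_shift (ℓ : ℕ × ℕ) {m : ℕ} (x y : Fin m → Pl)
    (hx : ∀ i, 0 ≤ (x i).1 ∧ (x i).1 ≤ 1) (hy : ∀ i, 2 ≤ (y i).1 ∧ (y i).1 ≤ 3)
    (σ : Equiv.Perm (Fin m)) :
    ∑ i, par (shift ℓ (x i)) (shift ℓ (y i)) - ∑ i, par (shift ℓ (x i)) (shift ℓ (y (σ i))) =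
      ∑ i, par (x i) (y i) - ∑ i, par (x i) (y (σ i)) := by
  have h1 : ∀ i, par (shift ℓ (x i)) (shift ℓ (y i)) = par (x i) (y i)
      - 2 * (((ℓ.2 : ℝ) - ℓ.1) / 3) * ((y i).2 - (x i).2)
      + (((ℓ.2 : ℝ) - ℓ.1) / 3) ^ 2 * ((y i).1 - (x i).1) :=
    fun i => par_shift_one ℓ (hx i) (hy i)
  have h2 : ∀ i, par (shift ℓ (x i)) (shift ℓ (y (σ i))) = par (x i) (y (σ i))
      - 2 * (((ℓ.2 : ℝ) - ℓ.1) / 3) * ((y (σ i)).2 - (x i).2)
      + (((ℓ.2 : ℝ) - ℓ.1) / 3) ^ 2 * ((y (σ i)).1 - (x i).1) :=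
    fun i => par_shift_one ℓ (hx i) (hy (σ i))
  simp only [h1, h2, Finset.sum_add_distrib, Finset.sum_sub_distrib, ← Finset.mul_sum]
  rw [Equiv.sum_comp σ (fun i => (y i).2), Equiv.sum_comp σ (fun i => (y i).1)]
  ring

/-- a broken path is more expensive than a straight one -/
theorem par_broken {A B p q : ℝ} (hA : 0 < A) (hB : 0 < B) (hpq : p ≠ q) :
    (B * q + A * p) ^ 2 / (B + A) < B * q ^ 2 + A * p ^ 2 := by
  rw [div_lt_iff₀ (by positivity)]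
  have h1 : 0 < (p - q) ^ 2 := by
    have : p - q ≠ 0 := sub_ne_zero.2 hpq
    positivity
  have h2 : 0 < A * B * (p - q) ^ 2 := by positivity
  nlinarith

/-- uncrossing two segments through the point `(t, z)` -/
theorem par_uncross {a a' b b' t z P P' : ℝ} (ha : a < t) (ha' : a' < t) (hb : t < b)
    (hb' : t < b') (hP : P ≠ P') :
    ((z + (b' - t) * P') - (z - (t - a) * P)) ^ 2 / (b' - a)
      + ((z + (b - t) * P) - (z - (t - a') * P')) ^ 2 / (b - a')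
    < ((z + (b - t) * P) - (z - (t - a) * P)) ^ 2 / (b - a)
      + ((z + (b' - t) * P') - (z - (t - a') * P')) ^ 2 / (b' - a') := by
  have h1 := par_broken (sub_pos.2 ha) (sub_pos.2 hb') hP
  have h2 := par_broken (sub_pos.2 ha') (sub_pos.2 hb) hP.symm
  have e1 : ((z + (b' - t) * P') - (z - (t - a) * P)) ^ 2 / (b' - a)
      = ((b' - t) * P' + (t - a) * P) ^ 2 / ((b' - t) + (t - a)) := by
    congr 1 <;> ring
  have e2 : ((z + (b - t) * P) - (z - (t - a') * P')) ^ 2 / (b - a')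
      = ((b - t) * P + (t - a') * P') ^ 2 / ((b - t) + (t - a')) := by
    congr 1 <;> ring
  have e3 : ((z + (b - t) * P) - (z - (t - a) * P)) ^ 2 / (b - a) = (b - a) * P ^ 2 := by
    have : b - a ≠ 0 := by linarith
    field_simp
    ring
  have e4 : ((z + (b' - t) * P') - (z - (t - a') * P')) ^ 2 / (b' - a') = (b' - a') * P' ^ 2 := by
    have : b' - a' ≠ 0 := by linarith
    field_simp
    ring
  rw [e1, e2, e3, e4]
  nlinarith

/-- two crossing rays can be uncrossed with a gain -/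
theorem par_swap {a a' b b' u u' v v' Z Z' P P' : ℝ} (ha : a ≤ 1) (ha' : a' ≤ 1) (hb : 2 ≤ b)
    (hb' : 2 ≤ b') (hu : u = Z - (3 / 2 - a) * P) (hu' : u' = Z' - (3 / 2 - a') * P')
    (hv : v = Z + (b - 3 / 2) * P) (hv' : v' = Z' + (b' - 3 / 2) * P')
    (s : ℝ) (hs : |s| < 1 / 2) (hcr : Z + s * P = Z' + s * P') (hP : P ≠ P') :
    (v' - u) ^ 2 / (b' - a) + (v - u') ^ 2 / (b - a')
      < (v - u) ^ 2 / (b - a) + (v' - u') ^ 2 / (b' - a') := by
  obtain ⟨hs1, hs2⟩ := abs_lt.1 hs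
  have h := par_uncross (a := a) (a' := a') (b := b) (b' := b') (t := 3 / 2 + s) (z := Z + s * P)
    (by linarith) (by linarith) (by linarith) (by linarith) hP
  have e1 : Z + s * P - (3 / 2 + s - a) * P = u := by rw [hu]; ring
  have e2 : Z + s * P + (b - (3 / 2 + s)) * P = v := by rw [hv]; ring
  have e3 : Z + s * P - (3 / 2 + s - a') * P' = u' := by rw [hu', hcr]; ring
  have e4 : Z + s * P + (b' - (3 / 2 + s)) * P' = v' := by rw [hv', hcr]; ring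
  rw [e1, e2, e3, e4] at h
  exact h

/-- the Euclidean cost of the unscaled points, in terms of the scaled points -/
noncomputable def euc (n : ℕ) (x y : Pl) : ℝ :=
  Real.sqrt ((y.1 - x.1) ^ 2 + ((y.2 - x.2) / n) ^ 2)

/-- length minus projection, times length plus projection -/
theorem euc_core (κ d δ : ℝ) :
    (Real.sqrt (d ^ 2 + (κ * d + δ) ^ 2) - (d + κ * (κ * d + δ)) / Real.sqrt (1 + κ ^ 2)) *
      (Real.sqrt (d ^ 2 + (κ * d + δ) ^ 2) + (d + κ * (κ * d + δ)) / Real.sqrt (1 + κ ^ 2)) *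
      (1 + κ ^ 2) = δ ^ 2 := by
  have hs : 0 < 1 + κ ^ 2 := by positivity
  have hs2 : Real.sqrt (1 + κ ^ 2) ^ 2 = 1 + κ ^ 2 := Real.sq_sqrt hs.le
  have hL2 : Real.sqrt (d ^ 2 + (κ * d + δ) ^ 2) ^ 2 = d ^ 2 + (κ * d + δ) ^ 2 :=
    Real.sq_sqrt (by positivity)
  have h1 : (Real.sqrt (d ^ 2 + (κ * d + δ) ^ 2) - (d + κ * (κ * d + δ)) / Real.sqrt (1 + κ ^ 2)) *
      (Real.sqrt (d ^ 2 + (κ * d + δ) ^ 2) + (d + κ * (κ * d + δ)) / Real.sqrt (1 + κ ^ 2))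
      = Real.sqrt (d ^ 2 + (κ * d + δ) ^ 2) ^ 2 -
        (d + κ * (κ * d + δ)) ^ 2 / Real.sqrt (1 + κ ^ 2) ^ 2 := by
    rw [← div_pow]
    ring
  rw [h1, hL2, hs2]
  field_simp
  ring

theorem euc_bounds {κ d δ : ℝ} (hκ : |κ| ≤ 1 / 3) (hd : 1 ≤ d) (hd3 : d ≤ 3)
    (h1 : |κ * d + δ| ≤ 1) :
    δ ^ 2 ≤ 8 * (Real.sqrt (d ^ 2 + (κ * d + δ) ^ 2) -
        (d + κ * (κ * d + δ)) / Real.sqrt (1 + κ ^ 2)) ∧
      Real.sqrt (d ^ 2 + (κ * d + δ) ^ 2) -
        (d + κ * (κ * d + δ)) / Real.sqrt (1 + κ ^ 2) ≤ δ ^ 2 := by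
  have key := euc_core κ d δ
  have hκ' := abs_le.1 hκ
  have h1' := abs_le.1 h1
  have hs : 0 < 1 + κ ^ 2 := by positivity
  have hs1 : 1 + κ ^ 2 ≤ 10 / 9 := by nlinarith
  have hs' : 1 ≤ Real.sqrt (1 + κ ^ 2) := Real.one_le_sqrt.2 (by nlinarith)
  set w := κ * d + δ with hw
  set L := Real.sqrt (d ^ 2 + w ^ 2) with hL
  set s := Real.sqrt (1 + κ ^ 2) with hsd
  set E := (d + κ * w) / s with hE
  have hL1 : 1 ≤ L := Real.one_le_sqrt.2 (by nlinarith)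
  have hL10 : L ≤ 16 / 5 := Real.sqrt_le_iff.2 ⟨by norm_num, by nlinarith⟩
  have hnum : 0 ≤ d + κ * w := by
    have : |κ * w| ≤ 1 / 3 * 1 := by
      rw [abs_mul]
      exact mul_le_mul hκ h1 (abs_nonneg _) (by norm_num)
    have := (abs_le.1 this).1
    linarith
  have hE0 : 0 ≤ E := div_nonneg hnum (by linarith)
  -- E ≤ L
  have hEL : 0 ≤ L - E := by
    by_contra hneg
    push Not at hneg
    have : (L - E) * (L + E) * (1 + κ ^ 2) < 0 := by
      have h3 : 0 < L + E := by linarith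
      have h4 : (L - E) * (L + E) < 0 := mul_neg_of_neg_of_pos hneg h3
      exact mul_neg_of_neg_of_pos h4 hs
    have h5 : 0 ≤ δ ^ 2 := sq_nonneg _
    linarith
  have hprod : (L + E) * (1 + κ ^ 2) ≤ 8 := by
    have : L + E ≤ 32 / 5 := by linarith
    nlinarith
  have hprod1 : 1 ≤ (L + E) * (1 + κ ^ 2) := by
    have : 1 ≤ L + E := by linarith
    nlinarith [sq_nonneg κ]
  constructor
  · rw [← key]
    nlinarith
  · rw [← key]
    nlinarith

theorem euc_approx {κ d δ : ℝ} (hκ : |κ| ≤ 1 / 3) (hd : 1 ≤ d)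
    (hδ : |δ| ≤ 1 / 2) :
    |2 * Real.sqrt (1 + κ ^ 2) ^ 3 * (Real.sqrt (d ^ 2 + (κ * d + δ) ^ 2) -
        (d + κ * (κ * d + δ)) / Real.sqrt (1 + κ ^ 2)) - δ ^ 2 / d| ≤ 2 * |δ| ^ 3 := by
  have key := euc_core κ d δ
  have hκ' := abs_le.1 hκ
  have hδ' := abs_le.1 hδ
  have hs : 0 < 1 + κ ^ 2 := by positivity
  have hs1 : 1 + κ ^ 2 ≤ 10 / 9 := by nlinarith
  have hs' : 1 ≤ Real.sqrt (1 + κ ^ 2) := Real.one_le_sqrt.2 (by nlinarith)
  have hs2 : Real.sqrt (1 + κ ^ 2) ^ 2 = 1 + κ ^ 2 := Real.sq_sqrt hs.le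
  have hL2 : Real.sqrt (d ^ 2 + (κ * d + δ) ^ 2) ^ 2 = d ^ 2 + (κ * d + δ) ^ 2 :=
    Real.sq_sqrt (by positivity)
  have hL1 : 1 ≤ Real.sqrt (d ^ 2 + (κ * d + δ) ^ 2) := Real.one_le_sqrt.2 (by nlinarith [sq_nonneg (κ * d + δ)])
  set L := Real.sqrt (d ^ 2 + (κ * d + δ) ^ 2) with hL
  set s := Real.sqrt (1 + κ ^ 2) with hsd
  have hEs : (d + κ * (κ * d + δ)) / s = d * s + κ * δ / s := by
    have : s ≠ 0 := by positivity
    field_simp
    rw [hs2]
    ring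
  rw [hEs] at key ⊢
  set E := d * s + κ * δ / s with hE
  have hq : |κ * δ / s| ≤ |δ| / 3 := by
    rw [abs_div, abs_mul, abs_of_pos (show (0 : ℝ) < s by linarith), div_le_iff₀ (by linarith)]
    have h5 : |κ| * |δ| ≤ 1 / 3 * |δ| := mul_le_mul_of_nonneg_right hκ (abs_nonneg _)
    have h6 : |δ| / 3 * 1 ≤ |δ| / 3 * s := mul_le_mul_of_nonneg_left hs' (by positivity)
    linarith
  have hEd : |d * s - E| ≤ |δ| / 3 := by
    rw [hE]
    have : d * s - (d * s + κ * δ / s) = -(κ * δ / s) := by ring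
    rw [this, abs_neg]
    exact hq
  have hds : 1 ≤ d * s := by nlinarith
  have hE1 : 0 ≤ E := by
    have := abs_le.1 hq
    have h7 : |δ| / 3 ≤ 1 := by linarith
    rw [hE]
    linarith
  have hLd : |d * s - L| ≤ |δ| := by
    have h8 : (d * s - L) * (d * s + L) = -(2 * κ * d * δ + δ ^ 2) := by
      have : (d * s - L) * (d * s + L) = d ^ 2 * s ^ 2 - L ^ 2 := by ring
      rw [this, hs2, hL2]
      ring
    have h9 : |d * s - L| * (d * s + L) = |2 * κ * d * δ + δ ^ 2| := by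
      rw [← abs_neg (2 * κ * d * δ + δ ^ 2), ← h8, abs_mul,
        abs_of_pos (show 0 < d * s + L by linarith)]
    have h10 : |2 * κ * d * δ + δ ^ 2| ≤ |δ| * (d * s + L) := by
      have h11 : |2 * κ * d * δ + δ ^ 2| ≤ |2 * κ * d * δ| + |δ ^ 2| := abs_add_le _ _
      have h12 : |2 * κ * d * δ| = 2 * |κ| * d * |δ| := by
        rw [abs_mul, abs_mul, abs_mul, abs_of_pos (show (0 : ℝ) < 2 by norm_num),
          abs_of_pos (show 0 < d by linarith)]
      have h13 : |δ ^ 2| = |δ| * |δ| := by rw [abs_pow, sq]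
      rw [h12, h13] at h11
      have h14 : 2 * |κ| * d * |δ| ≤ 2 * (1 / 3) * d * |δ| := by
        have : 0 ≤ d * |δ| := by positivity
        nlinarith
      have h15 : d ≤ d * s := by nlinarith
      have h16 : |δ| * |δ| ≤ |δ| * (1 / 2) := mul_le_mul_of_nonneg_left hδ (abs_nonneg _)
      have h17 : |δ| * (d + 1) ≤ |δ| * (d * s + L) :=
        mul_le_mul_of_nonneg_left (by linarith) (abs_nonneg _)
      have h18 : 0 ≤ |δ| * d := by positivity
      nlinarith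
    rw [← h9] at h10
    exact le_of_mul_le_mul_right h10 (by linarith)
  have hLE : 1 ≤ L + E := by linarith
  -- main identity
  have hmain : 2 * s ^ 3 * (L - E) = 2 * s * δ ^ 2 / (L + E) := by
    rw [eq_div_iff (by linarith), ← key, ← hs2]
    ring
  have hdiff : 2 * s ^ 3 * (L - E) - δ ^ 2 / d =
      δ ^ 2 * (((d * s - L) + (d * s - E)) / (d * (L + E))) := by
    rw [hmain]
    have : L + E ≠ 0 := by linarith
    have : d ≠ 0 := by linarith
    field_simp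
    ring
  rw [hdiff, abs_mul, abs_pow]
  have hfin : |((d * s - L) + (d * s - E)) / (d * (L + E))| ≤ 2 * |δ| := by
    have hdp : 0 < d * (L + E) := mul_pos (by linarith) (by linarith)
    rw [abs_div, abs_of_pos hdp, div_le_iff₀ hdp]
    have h20 : |(d * s - L) + (d * s - E)| ≤ |δ| + |δ| / 3 :=
      le_trans (abs_add_le _ _) (add_le_add hLd hEd)
    have h21 : 1 ≤ d * (L + E) := by nlinarith
    have h22 : 2 * |δ| * 1 ≤ 2 * |δ| * (d * (L + E)) :=
      mul_le_mul_of_nonneg_left h21 (by positivity)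
    have := abs_nonneg δ
    linarith
  calc |δ| ^ 2 * |((d * s - L) + (d * s - E)) / (d * (L + E))| ≤ |δ| ^ 2 * (2 * |δ|) :=
        mul_le_mul_of_nonneg_left hfin (by positivity)
    _ = 2 * |δ| ^ 3 := by ring

/-- An optimality inequality restricted to an invariant set, with a coboundary subtracted. -/
theorem IsOptM.gap {c : Pl → Pl → ℝ} {m : ℕ} {x y : Fin m → Pl} (h : IsOptM c x y) (g : Pl → ℝ)
    (A : Finset (Fin m)) (τ : Equiv.Perm (Fin m)) (hA : ∀ i, i ∉ A → τ i = i) :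
    ∑ i ∈ A, (c (x i) (y i) - (g (y i) - g (x i))) ≤
      ∑ i ∈ A, (c (x i) (y (τ i)) - (g (y (τ i)) - g (x i))) := by
  have h1 : ∑ i ∈ A, ((c (x i) (y (τ i)) - (g (y (τ i)) - g (x i))) -
      (c (x i) (y i) - (g (y i) - g (x i)))) =
      ∑ i, ((c (x i) (y (τ i)) - (g (y (τ i)) - g (x i))) -
      (c (x i) (y i) - (g (y i) - g (x i)))) := by
    refine Finset.sum_subset (Finset.subset_univ A) fun i _ hi => ?_
    rw [hA i hi]
    ring
  have h2 : ∑ i, ((c (x i) (y (τ i)) - (g (y (τ i)) - g (x i))) -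
      (c (x i) (y i) - (g (y i) - g (x i)))) =
      (∑ i, c (x i) (y (τ i)) - ∑ i, c (x i) (y i)) -
        (∑ i, g (y (τ i)) - ∑ i, g (y i)) := by
    rw [← Finset.sum_sub_distrib, ← Finset.sum_sub_distrib, ← Finset.sum_sub_distrib]
    refine Finset.sum_congr rfl fun i _ => ?_
    ring
  have h3 : ∑ i, g (y (τ i)) = ∑ i, g (y i) := Equiv.sum_comp τ fun i => g (y i)
  have h4 := h τ
  rw [Finset.sum_sub_distrib] at h1
  rw [h2, h3] at h1
  linarith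

theorem lam_sub (ℓ : ℕ × ℕ) {a b : ℝ} (ha0 : 0 ≤ a) (ha1 : a ≤ 1) (hb2 : 2 ≤ b) (hb3 : b ≤ 3) :
    lam ℓ b - lam ℓ a = ((ℓ.2 : ℝ) - ℓ.1) / 3 * (b - a) := by
  rw [lam_eq ℓ (by linarith) hb3, lam_eq ℓ ha0 (by linarith)]
  ring

/-- Non crossing rays, in relative coordinates. -/
theorem raysOf_nc {n : ℕ} (x y : Fin n → Pl)
    (hx : ∀ i, 0 ≤ (x i).1 ∧ (x i).1 ≤ 1) (hy : ∀ i, 2 ≤ (y i).1 ∧ (y i).1 ≤ 3) (ℓ : ℕ × ℕ)
    (h : ∀ i j, 0 ≤ (H96.OT.ht 1 (x i) (y i) - H96.OT.ht 1 (x j) (y j)) *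
      (H96.OT.ht 2 (x i) (y i) - H96.OT.ht 2 (x j) (y j)))
    (i j : Fin n) (hij : (raysOf x y hx hy ℓ).Z i ≤ (raysOf x y hx hy ℓ).Z j) :
    (raysOf x y hx hy ℓ).Z i - (raysOf x y hx hy ℓ).P i / 2 ≤
        (raysOf x y hx hy ℓ).Z j - (raysOf x y hx hy ℓ).P j / 2 ∧
      (raysOf x y hx hy ℓ).Z i + (raysOf x y hx hy ℓ).P i / 2 ≤
        (raysOf x y hx hy ℓ).Z j + (raysOf x y hx hy ℓ).P j / 2 := by
  have e1 : ∀ k, (raysOf x y hx hy ℓ).Z k - (raysOf x y hx hy ℓ).P k / 2 =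
      H96.OT.ht 1 (x k) (y k) - lam ℓ 1 := by
    intro k
    have h0 := hx k
    have h2 := hy k
    have h3 : (y k).1 - (x k).1 ≠ 0 := by linarith
    simp only [raysOf, H96.OT.ht]
    rw [lam_eq ℓ h0.1 (by linarith), lam_eq ℓ (by linarith) h2.2,
      lam_eq ℓ (show (0 : ℝ) ≤ 1 by norm_num) (by norm_num)]
    field_simp
    ring
  have e2 : ∀ k, (raysOf x y hx hy ℓ).Z k + (raysOf x y hx hy ℓ).P k / 2 =
      H96.OT.ht 2 (x k) (y k) - lam ℓ 2 := by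
    intro k
    have h0 := hx k
    have h2 := hy k
    have h3 : (y k).1 - (x k).1 ≠ 0 := by linarith
    simp only [raysOf, H96.OT.ht]
    rw [lam_eq ℓ h0.1 (by linarith), lam_eq ℓ (by linarith) h2.2,
      lam_eq ℓ (show (0 : ℝ) ≤ 2 by norm_num) (by norm_num)]
    field_simp
    ring
  have hp := h i j
  have a1 := e1 i
  have a2 := e1 j
  have a3 := e2 i
  have a4 := e2 j
  constructor
  · by_contra hneg
    push Not at hneg
    have h5 : 0 < H96.OT.ht 1 (x i) (y i) - H96.OT.ht 1 (x j) (y j) := by linarith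
    have h6 : 0 ≤ H96.OT.ht 2 (x i) (y i) - H96.OT.ht 2 (x j) (y j) :=
      nonneg_of_mul_nonneg_right hp h5
    linarith
  · by_contra hneg
    push Not at hneg
    have h5 : 0 < H96.OT.ht 2 (x i) (y i) - H96.OT.ht 2 (x j) (y j) := by linarith
    have h6 : 0 ≤ H96.OT.ht 1 (x i) (y i) - H96.OT.ht 1 (x j) (y j) :=
      nonneg_of_mul_nonneg_left hp h5
    linarith

/-- slope of the line `ℓ` in the unscaled picture -/
noncomputable def slp (n : ℕ) (ℓ : ℕ × ℕ) : ℝ := ((ℓ.2 : ℝ) - ℓ.1) / 3 / n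

/-- relative height difference in the unscaled picture -/
noncomputable def rdl (n : ℕ) (ℓ : ℕ × ℕ) (x y : Pl) : ℝ :=
  (y.2 - x.2) / n - slp n ℓ * (y.1 - x.1)

/-- projection onto the direction of `ℓ` in the unscaled picture -/
noncomputable def prj (n : ℕ) (ℓ : ℕ × ℕ) (p : Pl) : ℝ :=
  (p.1 + slp n ℓ * (p.2 / n)) / Real.sqrt (1 + slp n ℓ ^ 2)

theorem slp_abs {n : ℕ} (hn : 0 < n) {ℓ : ℕ × ℕ} (hℓ : |(ℓ.2 : ℝ) - ℓ.1| ≤ n) :
    |slp n ℓ| ≤ 1 / 3 := by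
  have hn' : (0 : ℝ) < n := by exact_mod_cast hn
  unfold slp
  rw [abs_div, abs_div, abs_of_pos hn', abs_of_pos (show (0 : ℝ) < 3 by norm_num),
    div_le_iff₀ hn', div_le_iff₀ (by norm_num)]
  linarith

theorem slp_rdl (n : ℕ) (ℓ : ℕ × ℕ) (x y : Pl) :
    slp n ℓ * (y.1 - x.1) + rdl n ℓ x y = (y.2 - x.2) / n := by
  unfold rdl
  ring

theorem euc_eq (n : ℕ) (ℓ : ℕ × ℕ) (x y : Pl) :
    euc n x y =
      Real.sqrt ((y.1 - x.1) ^ 2 + (slp n ℓ * (y.1 - x.1) + rdl n ℓ x y) ^ 2) := by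
  rw [slp_rdl]
  rfl

theorem prj_sub (n : ℕ) (ℓ : ℕ × ℕ) (x y : Pl) :
    prj n ℓ y - prj n ℓ x = ((y.1 - x.1) + slp n ℓ * (slp n ℓ * (y.1 - x.1) + rdl n ℓ x y)) /
      Real.sqrt (1 + slp n ℓ ^ 2) := by
  rw [slp_rdl]
  unfold prj
  ring

theorem rdl_eq {n : ℕ} (hn : 0 < n) (ℓ : ℕ × ℕ) {x y : Pl} (hx : 0 ≤ x.1 ∧ x.1 ≤ 1)
    (hy : 2 ≤ y.1 ∧ y.1 ≤ 3) :
    (y.2 - lam ℓ y.1) - (x.2 - lam ℓ x.1) = n * rdl n ℓ x y := by
  have hn' : (n : ℝ) ≠ 0 := by exact_mod_cast hn.ne'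
  have h := lam_sub ℓ hx.1 hx.2 hy.1 hy.2
  have h2 : (y.2 - lam ℓ y.1) - (x.2 - lam ℓ x.1) =
      (y.2 - x.2) - ((ℓ.2 : ℝ) - ℓ.1) / 3 * (y.1 - x.1) := by
    linarith
  rw [h2]
  unfold rdl slp
  field_simp

theorem euc_opt (n : ℕ) (x y : Fin n → Pl) (h : InDom n x y) (hn : 0 < n)
    (ho : IsOptM (euc n) x y) (ℓ : ℕ × ℕ) (hℓ : |(ℓ.2 : ℝ) - ℓ.1| ≤ n) :
    (raysOf x y h.x1 h.y1 ℓ).Opt := by
  have hn' : (0 : ℝ) < n := by exact_mod_cast hn
  have hslp := slp_abs hn hℓ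
  refine ⟨?_, ?_⟩
  · refine raysOf_nc x y h.x1 h.y1 ℓ ?_
    intro i j
    -- unscaled points
    set X : Fin n → Pl := fun i => ((x i).1, (x i).2 / n) with hX
    set Y : Fin n → Pl := fun i => ((y i).1, (y i).2 / n) with hY
    have hc : ∀ i j, H96.OT.cost (X i) (Y j) = euc n (x i) (y j) := by
      intro i j
      simp only [H96.OT.cost, euc, hX, hY]
      congr 1
      ring
    have hO : H96.OT.IsOptPerm X Y 1 := by
      intro τ
      simp only [hc, Equiv.Perm.coe_one, id_eq]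
      exact ho τ
    have hS := hO.sameOrder (fun i => (h.x1 i).2) (fun i => (h.y1 i).1) i j
    simp only [Equiv.Perm.coe_one, id_eq] at hS
    have hht : ∀ t k, H96.OT.ht t (X k) (Y k) = H96.OT.ht t (x k) (y k) / n := by
      intro t k
      simp only [H96.OT.ht, hX, hY]
      ring
    rw [hht, hht, hht, hht] at hS
    have h5 : (H96.OT.ht 1 (x i) (y i) - H96.OT.ht 1 (x j) (y j)) *
        (H96.OT.ht 2 (x i) (y i) - H96.OT.ht 2 (x j) (y j)) =
        (H96.OT.ht 1 (x i) (y i) / n - H96.OT.ht 1 (x j) (y j) / n) *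
        (H96.OT.ht 2 (x i) (y i) / n - H96.OT.ht 2 (x j) (y j) / n) * (n : ℝ) ^ 2 := by
      field_simp
    rw [h5]
    positivity
  · intro A τ hA
    have hb : ∀ i j, rdl n ℓ (x i) (y j) ^ 2 ≤
        8 * (euc n (x i) (y j) - (prj n ℓ (y j) - prj n ℓ (x i))) ∧
        euc n (x i) (y j) - (prj n ℓ (y j) - prj n ℓ (x i)) ≤ rdl n ℓ (x i) (y j) ^ 2 := by
      intro i j
      rw [euc_eq n ℓ, prj_sub]
      have h1 := h.x1 i
      have h2 := h.y1 j
      have h3 := h.x2 i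
      have h4 := h.y2 j
      refine euc_bounds hslp (by linarith) (by linarith) ?_
      rw [slp_rdl, abs_div, abs_of_pos hn', div_le_one hn', abs_le]
      constructor <;> linarith
    have hv : ∀ i j, (raysOf x y h.x1 h.y1 ℓ).v j - (raysOf x y h.x1 h.y1 ℓ).u i =
        n * rdl n ℓ (x i) (y j) := fun i j => rdl_eq hn ℓ (h.x1 i) (h.y1 j)
    have hP : ∀ i, (raysOf x y h.x1 h.y1 ℓ).P i ^ 2 ≤ n ^ 2 * rdl n ℓ (x i) (y i) ^ 2 := by
      intro i
      have h1 := h.x1 i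
      have h2 := h.y1 i
      have h3 : (raysOf x y h.x1 h.y1 ℓ).P i =
          (n * rdl n ℓ (x i) (y i)) / ((y i).1 - (x i).1) := by
        rw [← hv i i]
        rfl
      have h4 : 1 ≤ (y i).1 - (x i).1 := by linarith
      rw [h3, div_pow, mul_pow]
      exact div_le_self (by positivity) (by nlinarith)
    have hg := ho.gap (prj n ℓ) A τ hA
    calc ∑ i ∈ A, (raysOf x y h.x1 h.y1 ℓ).P i ^ 2
        ≤ ∑ i ∈ A, n ^ 2 * (8 * (euc n (x i) (y i) - (prj n ℓ (y i) - prj n ℓ (x i)))) := by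
          refine Finset.sum_le_sum fun i _ => (hP i).trans ?_
          exact mul_le_mul_of_nonneg_left (hb i i).1 (by positivity)
      _ = 8 * n ^ 2 * ∑ i ∈ A, (euc n (x i) (y i) - (prj n ℓ (y i) - prj n ℓ (x i))) := by
          rw [Finset.mul_sum]
          refine Finset.sum_congr rfl fun i _ => ?_
          ring
      _ ≤ 8 * n ^ 2 * ∑ i ∈ A, (euc n (x i) (y (τ i)) -
            (prj n ℓ (y (τ i)) - prj n ℓ (x i))) :=
          mul_le_mul_of_nonneg_left hg (by positivity)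
      _ ≤ 8 * n ^ 2 * ∑ i ∈ A, rdl n ℓ (x i) (y (τ i)) ^ 2 :=
          mul_le_mul_of_nonneg_left (Finset.sum_le_sum fun i _ => (hb i (τ i)).2) (by positivity)
      _ = 8 * ∑ i ∈ A, ((raysOf x y h.x1 h.y1 ℓ).v (τ i) - (raysOf x y h.x1 h.y1 ℓ).u i) ^ 2 := by
          rw [mul_assoc, Finset.mul_sum]
          congr 1
          refine Finset.sum_congr rfl fun i _ => ?_
          rw [hv i (τ i)]
          ring

theorem par_rel (ℓ : ℕ × ℕ) {n : ℕ} (hn : 0 < n) {x y : Pl} (hx : 0 ≤ x.1 ∧ x.1 ≤ 1)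
    (hy : 2 ≤ y.1 ∧ y.1 ≤ 3) :
    par x y = n ^ 2 * (rdl n ℓ x y ^ 2 / (y.1 - x.1)) +
      ((2 * (((ℓ.2 : ℝ) - ℓ.1) / 3) * y.2 - (((ℓ.2 : ℝ) - ℓ.1) / 3) ^ 2 * y.1) -
        (2 * (((ℓ.2 : ℝ) - ℓ.1) / 3) * x.2 - (((ℓ.2 : ℝ) - ℓ.1) / 3) ^ 2 * x.1)) := by
  have hn' : (n : ℝ) ≠ 0 := by exact_mod_cast hn.ne'
  have h3 : y.1 - x.1 ≠ 0 := by linarith [hx.2, hy.1]
  unfold par rdl slp
  field_simp
  ring

theorem euc_loc (B : ℝ) (N : ℕ) (ε : ℝ) (hε : 0 < ε) : ∃ n₀ : ℕ, ∀ n : ℕ, n₀ ≤ n →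
    ∀ ℓ : ℕ × ℕ, |(ℓ.2 : ℝ) - ℓ.1| ≤ n → ∀ m ≤ N, ∀ x y : Fin m → Pl,
    (∀ i, 0 ≤ (x i).1 ∧ (x i).1 ≤ 1 ∧ |(x i).2 - lam ℓ (x i).1| ≤ B) →
    (∀ i, 2 ≤ (y i).1 ∧ (y i).1 ≤ 3 ∧ |(y i).2 - lam ℓ (y i).1| ≤ B) →
    IsOptM (euc n) x y → ∀ τ : Equiv.Perm (Fin m),
      ∑ i, par (x i) (y i) ≤ ∑ i, par (x i) (y (τ i)) + ε := by
  set B' := max B 0 with hB'
  have hB0 : 0 ≤ B' := le_max_right _ _
  obtain ⟨n₀, hn₀⟩ := exists_nat_ge (max (32 * N * B' ^ 3 / ε) (4 * B') + 1)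
  refine ⟨n₀, ?_⟩
  intro n hn ℓ hℓ m hm x y hx hy ho τ
  have hnn : max (32 * N * B' ^ 3 / ε) (4 * B') + 1 ≤ (n : ℝ) :=
    hn₀.trans (by exact_mod_cast hn)
  have hn1 : 32 * N * B' ^ 3 / ε ≤ n := by
    have := le_max_left (32 * N * B' ^ 3 / ε) (4 * B')
    linarith
  have hn2 : 4 * B' ≤ n := by
    have := le_max_right (32 * N * B' ^ 3 / ε) (4 * B')
    linarith
  have hn' : (0 : ℝ) < n := by
    have := le_max_right (32 * N * B' ^ 3 / ε) (4 * B')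
    linarith
  have hnpos : 0 < n := by exact_mod_cast hn'
  have hslp := slp_abs hnpos hℓ
  set s := Real.sqrt (1 + slp n ℓ ^ 2) with hs
  have hs0 : 0 ≤ s := Real.sqrt_nonneg _
  -- each term
  have hterm : ∀ i j, |2 * s ^ 3 * (euc n (x i) (y j) - (prj n ℓ (y j) - prj n ℓ (x i))) -
      rdl n ℓ (x i) (y j) ^ 2 / ((y j).1 - (x i).1)| * n ^ 2 ≤ 16 * B' ^ 3 / n := by
    intro i j
    obtain ⟨x0, x1, x2⟩ := hx i
    obtain ⟨y0, y1, y2⟩ := hy j
    have hr := rdl_eq hnpos ℓ (x := x i) (y := y j) ⟨x0, x1⟩ ⟨y0, y1⟩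
    have hB : B ≤ B' := le_max_left _ _
    have hr1 : |(n : ℝ) * rdl n ℓ (x i) (y j)| ≤ 2 * B' := by
      rw [← hr, abs_le]
      have h1 := abs_le.1 x2
      have h2 := abs_le.1 y2
      constructor <;> linarith
    have hr2 : |rdl n ℓ (x i) (y j)| ≤ 2 * B' / n := by
      rw [abs_mul, abs_of_pos hn'] at hr1
      rw [le_div_iff₀ hn']
      linarith
    have hr3 : |rdl n ℓ (x i) (y j)| ≤ 1 / 2 := by
      refine hr2.trans ?_
      rw [div_le_iff₀ hn']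
      linarith
    have h5 := euc_approx (d := (y j).1 - (x i).1) hslp (by linarith) hr3
    rw [← euc_eq, ← prj_sub] at h5
    calc _ ≤ 2 * |rdl n ℓ (x i) (y j)| ^ 3 * n ^ 2 :=
          mul_le_mul_of_nonneg_right h5 (by positivity)
      _ ≤ 2 * (2 * B' / n) ^ 3 * n ^ 2 := by
          refine mul_le_mul_of_nonneg_right ?_ (by positivity)
          refine mul_le_mul_of_nonneg_left ?_ (by norm_num)
          exact pow_le_pow_left₀ (abs_nonneg _) hr2 3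
      _ = 16 * B' ^ 3 / n := by
          field_simp
          ring
  have hg := ho.gap (prj n ℓ) Finset.univ τ (fun i hi => absurd (Finset.mem_univ i) hi)
  -- lower bound for the identity, upper bound for `τ`
  set q : Fin m → Fin m → ℝ := fun i j => n ^ 2 * (rdl n ℓ (x i) (y j) ^ 2 / ((y j).1 - (x i).1))
    with hq
  set L : Fin m → Fin m → ℝ := fun i j =>
    euc n (x i) (y j) - (prj n ℓ (y j) - prj n ℓ (x i)) with hL
  have hlo : ∀ i j, q i j ≤ 2 * s ^ 3 * n ^ 2 * L i j + 16 * B' ^ 3 / n := by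
    intro i j
    have h1 := hterm i j
    have h2 := neg_abs_le (2 * s ^ 3 * (euc n (x i) (y j) - (prj n ℓ (y j) - prj n ℓ (x i))) -
      rdl n ℓ (x i) (y j) ^ 2 / ((y j).1 - (x i).1))
    have h3 := mul_le_mul_of_nonneg_right h2 (show (0 : ℝ) ≤ n ^ 2 by positivity)
    simp only [hq, hL]
    linarith
  have hup : ∀ i j, 2 * s ^ 3 * n ^ 2 * L i j ≤ q i j + 16 * B' ^ 3 / n := by
    intro i j
    have h1 := hterm i j
    have h2 := le_abs_self (2 * s ^ 3 * (euc n (x i) (y j) - (prj n ℓ (y j) - prj n ℓ (x i))) -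
      rdl n ℓ (x i) (y j) ^ 2 / ((y j).1 - (x i).1))
    have h3 := mul_le_mul_of_nonneg_right h2 (show (0 : ℝ) ≤ n ^ 2 by positivity)
    simp only [hq, hL]
    linarith
  have hsum : ∑ i, q i i ≤ ∑ i, q i (τ i) + ε := by
    have hm' : (m : ℝ) ≤ N := by exact_mod_cast hm
    have h1 : ∑ i, q i i ≤ ∑ i, (2 * s ^ 3 * n ^ 2 * L i i + 16 * B' ^ 3 / n) :=
      Finset.sum_le_sum fun i _ => hlo i i
    have h2 : ∑ i, 2 * s ^ 3 * n ^ 2 * L i (τ i) ≤ ∑ i, (q i (τ i) + 16 * B' ^ 3 / n) :=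
      Finset.sum_le_sum fun i _ => hup i (τ i)
    have e1 : ∑ i, 2 * s ^ 3 * n ^ 2 * L i i = 2 * s ^ 3 * n ^ 2 * ∑ i, L i i :=
      (Finset.mul_sum _ _ _).symm
    have e2 : ∑ i, 2 * s ^ 3 * n ^ 2 * L i (τ i) = 2 * s ^ 3 * n ^ 2 * ∑ i, L i (τ i) :=
      (Finset.mul_sum _ _ _).symm
    rw [Finset.sum_add_distrib, e1] at h1
    rw [Finset.sum_add_distrib, e2] at h2
    simp only [Finset.sum_const, Finset.card_univ, Fintype.card_fin, nsmul_eq_mul] at h1 h2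
    have h3 : 2 * s ^ 3 * n ^ 2 * ∑ i, L i i ≤ 2 * s ^ 3 * n ^ 2 * ∑ i, L i (τ i) :=
      mul_le_mul_of_nonneg_left hg (by positivity)
    have h4 : 2 * ((m : ℝ) * (16 * B' ^ 3 / n)) ≤ ε := by
      have h5 : 32 * N * B' ^ 3 ≤ n * ε := (div_le_iff₀ hε).1 hn1
      have h6 : 2 * ((m : ℝ) * (16 * B' ^ 3 / n)) = 32 * m * B' ^ 3 / n := by ring
      rw [h6, div_le_iff₀ hn']
      have h7 : 32 * (m : ℝ) * B' ^ 3 ≤ 32 * N * B' ^ 3 := by
        refine mul_le_mul_of_nonneg_right ?_ (by positivity)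
        linarith
      linarith
    linarith
  set K : ℝ := ((ℓ.2 : ℝ) - ℓ.1) / 3 with hK
  have hpar : ∀ i j, par (x i) (y j) = q i j +
      ((2 * K * (y j).2 - K ^ 2 * (y j).1) - (2 * K * (x i).2 - K ^ 2 * (x i).1)) := fun i j =>
    par_rel ℓ hnpos ⟨(hx i).1, (hx i).2.1⟩ ⟨(hy j).1, (hy j).2.1⟩
  have e1 : ∑ i, par (x i) (y i) = ∑ i, q i i + (∑ i, (2 * K * (y i).2 - K ^ 2 * (y i).1) -
      ∑ i, (2 * K * (x i).2 - K ^ 2 * (x i).1)) := by
    rw [← Finset.sum_sub_distrib, ← Finset.sum_add_distrib]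
    exact Finset.sum_congr rfl fun i _ => hpar i i
  have e2 : ∑ i, par (x i) (y (τ i)) = ∑ i, q i (τ i) +
      (∑ i, (2 * K * (y i).2 - K ^ 2 * (y i).1) -
      ∑ i, (2 * K * (x i).2 - K ^ 2 * (x i).1)) := by
    have h8 : ∑ i, (2 * K * (y i).2 - K ^ 2 * (y i).1) =
        ∑ i, (2 * K * (y (τ i)).2 - K ^ 2 * (y (τ i)).1) :=
      (Equiv.sum_comp τ fun i => (2 * K * (y i).2 - K ^ 2 * (y i).1)).symm
    rw [h8, ← Finset.sum_sub_distrib, ← Finset.sum_add_distrib]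
    exact Finset.sum_congr rfl fun i _ => hpar i (τ i)
  rw [e1, e2]
  linarith

theorem goodCost_euc : GoodCost euc where
  opt := fun n x y h hn ho ℓ hℓ => euc_opt n x y h hn ho ℓ hℓ
  loc := euc_loc

theorem goodCost_par : GoodCost (fun _ => par) where
  opt := by
    intro n x y h _ hopt ℓ _
    set R := raysOf x y h.x1 h.y1 ℓ with hR
    -- optimality in the relative coordinates
    have key : ∀ (A : Finset (Fin n)) (τ : Equiv.Perm (Fin n)), (∀ i, i ∉ A → τ i = i) →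
        ∑ i ∈ A, (R.v i - R.u i) ^ 2 / (R.b i - R.a i)
          ≤ ∑ i ∈ A, (R.v (τ i) - R.u i) ^ 2 / (R.b (τ i) - R.a i) := by
      intro A τ hτ
      have h1 := par_shift ℓ x y h.x1 h.y1 τ
      have h2 := hopt τ
      have e1 : ∀ i, par (shift ℓ (x i)) (shift ℓ (y i))
          = (R.v i - R.u i) ^ 2 / (R.b i - R.a i) := fun i => rfl
      have e2 : ∀ i, par (shift ℓ (x i)) (shift ℓ (y (τ i)))
          = (R.v (τ i) - R.u i) ^ 2 / (R.b (τ i) - R.a i) := fun i => rfl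
      simp only [e1, e2] at h1
      have h3 := Finset.sum_add_sum_compl A
        (fun i => (R.v i - R.u i) ^ 2 / (R.b i - R.a i))
      have h4 := Finset.sum_add_sum_compl A
        (fun i => (R.v (τ i) - R.u i) ^ 2 / (R.b (τ i) - R.a i))
      have h5 : ∑ i ∈ Aᶜ, (R.v (τ i) - R.u i) ^ 2 / (R.b (τ i) - R.a i)
          = ∑ i ∈ Aᶜ, (R.v i - R.u i) ^ 2 / (R.b i - R.a i) := by
        apply Finset.sum_congr rfl
        intro i hi
        rw [hτ i (Finset.mem_compl.1 hi)]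
      linarith
    have swap : ∀ i j, i ≠ j → ¬ ((R.v j - R.u i) ^ 2 / (R.b j - R.a i)
        + (R.v i - R.u j) ^ 2 / (R.b i - R.a j)
        < (R.v i - R.u i) ^ 2 / (R.b i - R.a i) + (R.v j - R.u j) ^ 2 / (R.b j - R.a j)) := by
      intro i j hij hlt
      have h1 := key {i, j} (Equiv.swap i j) (by
        intro k hk
        simp only [Finset.mem_insert, Finset.mem_singleton, not_or] at hk
        exact Equiv.swap_apply_of_ne_of_ne hk.1 hk.2)
      rw [Finset.sum_pair hij, Finset.sum_pair hij, Equiv.swap_apply_left,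
        Equiv.swap_apply_right] at h1
      linarith
    constructor
    · intro i j hZ
      constructor
      · by_contra hc
        push Not at hc
        have hne : i ≠ j := by
          rintro rfl
          exact lt_irrefl _ hc
        have hP : R.P i < R.P j := by linarith
        have hd : 0 < R.P j - R.P i := by linarith
        refine swap i j hne (par_swap (R.a1 i) (R.a1 j) (R.b2 i) (R.b2 j) (R.hu i) (R.hu j)
          (R.hv i) (R.hv j) (-((R.Z j - R.Z i) / (R.P j - R.P i))) ?_ ?_ hP.ne)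
        · rw [abs_neg, abs_of_nonneg (div_nonneg (by linarith) hd.le), div_lt_iff₀ hd]
          linarith
        · have : R.P j - R.P i ≠ 0 := hd.ne'
          field_simp
          ring
      · by_contra hc
        push Not at hc
        have hne : i ≠ j := by
          rintro rfl
          exact lt_irrefl _ hc
        have hP : R.P j < R.P i := by linarith
        have hd : 0 < R.P i - R.P j := by linarith
        refine swap i j hne (par_swap (R.a1 i) (R.a1 j) (R.b2 i) (R.b2 j) (R.hu i) (R.hu j)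
          (R.hv i) (R.hv j) ((R.Z j - R.Z i) / (R.P i - R.P j)) ?_ ?_ hP.ne')
        · rw [abs_of_nonneg (div_nonneg (by linarith) hd.le), div_lt_iff₀ hd]
          linarith
        · have : R.P i - R.P j ≠ 0 := hd.ne'
          field_simp
          ring
    · intro A τ hτ
      have h1 := key A τ hτ
      have h2 : ∑ i ∈ A, R.P i ^ 2 ≤ ∑ i ∈ A, (R.v i - R.u i) ^ 2 / (R.b i - R.a i) := by
        apply Finset.sum_le_sum
        intro i _
        have ha := R.a1 i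
        have hb := R.b2 i
        have hd : 1 ≤ R.b i - R.a i := by linarith
        have he : R.v i - R.u i = (R.b i - R.a i) * R.P i := by
          rw [R.hu i, R.hv i]
          ring
        rw [he, le_div_iff₀ (by linarith)]
        have : 0 ≤ R.P i ^ 2 := sq_nonneg _
        have h3 : R.P i ^ 2 * (R.b i - R.a i) * 1
            ≤ R.P i ^ 2 * (R.b i - R.a i) * (R.b i - R.a i) := by
          apply mul_le_mul_of_nonneg_left hd
          apply mul_nonneg this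
          linarith
        nlinarith
      have h3 : ∑ i ∈ A, (R.v (τ i) - R.u i) ^ 2 / (R.b (τ i) - R.a i)
          ≤ ∑ i ∈ A, (R.v (τ i) - R.u i) ^ 2 := by
        apply Finset.sum_le_sum
        intro i _
        have ha := R.a1 i
        have hb := R.b2 (τ i)
        apply div_le_self (sq_nonneg _)
        linarith
      have h4 : 0 ≤ ∑ i ∈ A, (R.v (τ i) - R.u i) ^ 2 := Finset.sum_nonneg (fun i _ => sq_nonneg _)
      linarith
  loc := by
    intro B N ε hε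
    refine ⟨0, fun n _ ℓ _ m _ x y _ _ hopt τ => ?_⟩
    have := hopt τ
    linarith

end Pool.Agent.H27.OTC
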