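import Pool.Agent.H27.OTC.DetSort

/-!
Job A-TOP: macroscopic bound of the slopes.
-/

set_option autoImplicit false

namespace Pool.Agent.H27.OTC

variable {ι : Type} [Fintype ι]

theorem top_slopes (S : Rays ι) (hS : S.Opt) {n ε τ η : ℝ} (hn : 0 < n) (hε : 0 < ε)
    (hε1 : ε ≤ 1) (hτ : 0 < τ) (hη : 0 < η) (hτε : 96 * τ ≤ ε) (hητ : 40 * η ≤ τ * ε)
    (hητ2 : 6400 * η ^ 2 < τ * ε ^ 3) (hη1 : 1 ≤ η * n)
    (hu : ∀ i, 0 ≤ S.u i ∧ S.u i ≤ n) (hv : ∀ i, 0 ≤ S.v i ∧ S.v i ≤ n)
    (hcu : ∀ h, 0 ≤ h → h ≤ n →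
      |((Finset.univ.filter (fun i => S.u i ≤ h)).card : ℝ) - h| ≤ η * n)
    (hcv : ∀ h, 0 ≤ h → h ≤ n →
      |((Finset.univ.filter (fun i => S.v i ≤ h)).card : ℝ) - h| ≤ η * n)
    (hE : ∀ s t, 0 ≤ s → s ≤ t → t ≤ n → τ * (t - s) - η * n ≤
      ((Finset.univ.filter (fun i => 1 - τ ≤ S.a i ∧ s < S.u i ∧ S.u i ≤ t)).card : ℝ))
    (i : ι) : |S.P i| ≤ ε * n := by
  classical
  obtain ⟨σ, -, -, hσ⟩ := exists_sorted S.u S.v (Finset.univ : Finset ι)
  -- the sorted matching is short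
  have hshort : ∀ k, |S.v (σ k) - S.u k| ≤ 2 * η * n := by
    intro k
    obtain ⟨hu0, hu1⟩ := hu k
    obtain ⟨hv0, hv1⟩ := hv (σ k)
    rw [abs_le]
    constructor
    · by_contra hcon
      push Not at hcon
      have hηn : 0 < η * n := by positivity
      set h := (S.v (σ k) + 2 * η * n + S.u k) / 2 with hh
      have h1 : h < S.u k := by rw [hh]; linarith
      have h2 := (hσ k (Finset.mem_univ _) h).2 h1
      have h3 := (abs_le.1 (hcu h (by rw [hh]; positivity) (by linarith))).1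
      have h4 := (abs_le.1 (hcv _ hv0 hv1)).2
      have h5 : ((Finset.univ.filter (fun j => S.u j ≤ h)).card : ℝ) <
          ((Finset.univ.filter (fun j => S.v j ≤ S.v (σ k))).card : ℝ) := by exact_mod_cast h2
      rw [hh] at h3 h5
      linarith
    · by_contra hcon
      push Not at hcon
      have hηn : 0 < η * n := by positivity
      set h := (S.u k + 2 * η * n + S.v (σ k)) / 2 with hh
      have h1 : h < S.v (σ k) := by rw [hh]; linarith
      have h2 := (hσ k (Finset.mem_univ _) h).1 h1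
      have h3 := (abs_le.1 (hcv h (by rw [hh]; positivity) (by linarith))).1
      have h4 := (abs_le.1 (hcu _ hu0 hu1)).2
      have h5 : ((Finset.univ.filter (fun j => S.v j ≤ h)).card : ℝ) <
          ((Finset.univ.filter (fun j => S.u j ≤ S.u k)).card : ℝ) := by exact_mod_cast h2
      rw [hh] at h3 h5
      linarith
  -- number of rays
  have hτ96 : τ ≤ 1 / 96 := by linarith
  have hη2 : η ≤ 1 := by
    have : τ * ε ≤ 1 / 96 * 1 := mul_le_mul hτ96 hε1 hε.le (by norm_num)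
    linarith
  have hcard : (Fintype.card ι : ℝ) ≤ 2 * n := by
    have h1 : (Finset.univ.filter (fun j => S.u j ≤ n)) = (Finset.univ : Finset ι) :=
      Finset.filter_true_of_mem (fun j _ => (hu j).2)
    have h2 := (abs_le.1 (hcu n hn.le le_rfl)).2
    rw [h1, Finset.card_univ] at h2
    have h3 : η * n ≤ 1 * n := mul_le_mul_of_nonneg_right hη2 hn.le
    linarith
  -- the total energy
  have hen : ∑ k, S.P k ^ 2 ≤ 64 * η ^ 2 * n ^ 3 := by
    have h1 := hS.opt Finset.univ σ (fun i hi => absurd (Finset.mem_univ i) hi)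
    have h2 : ∑ k, (S.v (σ k) - S.u k) ^ 2 ≤ ∑ _k : ι, (2 * η * n) ^ 2 := by
      refine Finset.sum_le_sum fun k _ => ?_
      rw [← sq_abs]
      exact pow_le_pow_left₀ (abs_nonneg _) (hshort k) 2
    rw [Finset.sum_const, nsmul_eq_mul, Finset.card_univ] at h2
    have h3 : (Fintype.card ι : ℝ) * (2 * η * n) ^ 2 ≤ 2 * n * (2 * η * n) ^ 2 :=
      mul_le_mul_of_nonneg_right hcard (sq_nonneg _)
    calc ∑ k, S.P k ^ 2 ≤ 8 * ∑ k, (S.v (σ k) - S.u k) ^ 2 := h1
      _ ≤ 8 * (2 * n * (2 * η * n) ^ 2) := by linarith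
      _ = 64 * η ^ 2 * n ^ 3 := by ring
  -- all slopes are at most `n`
  have hP : ∀ k, |S.P k| ≤ n := by
    intro k
    have h1 : S.v k - S.u k = (S.b k - S.a k) * S.P k := by rw [S.hv, S.hu]; ring
    have h2 : |S.v k - S.u k| ≤ n := by
      rw [abs_le]
      constructor <;> linarith [(hu k).1, (hu k).2, (hv k).1, (hv k).2]
    have h3 : 1 ≤ S.b k - S.a k := by linarith [S.a1 k, S.b2 k]
    rw [h1, abs_mul, abs_of_nonneg (by linarith : 0 ≤ S.b k - S.a k)] at h2
    have h4 : 1 * |S.P k| ≤ (S.b k - S.a k) * |S.P k| :=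
      mul_le_mul_of_nonneg_right h3 (abs_nonneg _)
    linarith
  -- the height at abscissa `1`
  have hV1 : ∀ k, 1 - τ ≤ S.a k → |S.Z k - S.P k / 2 - S.u k| ≤ τ * n := by
    intro k hk
    have h1 : S.Z k - S.P k / 2 - S.u k = (1 - S.a k) * S.P k := by rw [S.hu]; ring
    have h2 : 0 ≤ 1 - S.a k := by linarith [S.a1 k]
    rw [h1, abs_mul, abs_of_nonneg h2]
    exact mul_le_mul (by linarith) (hP k) (abs_nonneg _) hτ.le
  -- many steep rays are impossible
  have hno : ∀ B : Finset ι, τ * ε * n / 16 ≤ (B.card : ℝ) →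
      (∀ k ∈ B, ε * n / 2 ≤ |S.P k|) → False := by
    intro B hB hBP
    have h1 : ∑ k ∈ B, (ε * n / 2) ^ 2 ≤ ∑ k ∈ B, S.P k ^ 2 := by
      refine Finset.sum_le_sum fun k hk => ?_
      rw [← sq_abs (S.P k)]
      exact pow_le_pow_left₀ (by positivity) (hBP k hk) 2
    rw [Finset.sum_const, nsmul_eq_mul] at h1
    have h2 : ∑ k ∈ B, S.P k ^ 2 ≤ ∑ k, S.P k ^ 2 :=
      Finset.sum_le_sum_of_subset_of_nonneg (Finset.subset_univ _) (fun k _ _ => sq_nonneg _)
    have h3 : τ * ε * n / 16 * (ε * n / 2) ^ 2 ≤ (B.card : ℝ) * (ε * n / 2) ^ 2 :=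
      mul_le_mul_of_nonneg_right hB (sq_nonneg _)
    have h4 : 6400 * η ^ 2 * n ^ 3 < τ * ε ^ 3 * n ^ 3 :=
      mul_lt_mul_of_pos_right hητ2 (by positivity)
    have h5 : τ * ε * n / 16 * (ε * n / 2) ^ 2 = τ * ε ^ 3 * n ^ 3 / 64 := by ring
    have h6 : 0 < τ * ε ^ 3 * n ^ 3 := by positivity
    have h7 : 0 ≤ η ^ 2 * n ^ 3 := by positivity
    linarith
  have hτn : 96 * (τ * n) ≤ ε * n := by
    have := mul_le_mul_of_nonneg_right hτε hn.le
    linarith
  have hηn : 40 * (η * n) ≤ τ * (ε * n) := by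
    have := mul_le_mul_of_nonneg_right hητ hn.le
    linarith
  have hcount : ∀ s t, 0 ≤ s → t ≤ n → t - s = ε * n / 8 - 3 * τ * n →
      τ * ε * n / 16 ≤
      ((Finset.univ.filter (fun i => 1 - τ ≤ S.a i ∧ s < S.u i ∧ S.u i ≤ t)).card : ℝ) := by
    intro s t hs ht hst
    have hεn : 0 < ε * n := by positivity
    have h1 := hE s t hs (by linarith) ht
    rw [hst] at h1
    have h2 : τ * (96 * (τ * n)) ≤ τ * (ε * n) := mul_le_mul_of_nonneg_left hτn hτ.le
    have h3 : 0 < τ * (ε * n) := by positivity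
    refine le_trans ?_ h1
    have h4 : τ * (ε * n / 8 - 3 * τ * n) - η * n =
        τ * (ε * n) / 8 - 3 * (τ * (τ * n)) - η * n := by ring
    rw [h4]
    have h5 : τ * ε * n / 16 = τ * (ε * n) / 16 := by ring
    rw [h5]
    linarith
  have ha1 := S.a1 i
  have hb2 := S.b2 i
  have hτn0 : 0 < τ * n := by positivity
  by_contra hcon
  push Not at hcon
  rcases lt_abs.1 hcon with hpos | hneg
  · -- steep upwards
    have hPpos : 0 < S.P i := lt_trans (by positivity) hpos
    have hu' := S.hu i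
    have hv' := S.hv i
    have e1 : 0 ≤ (1 - S.a i) * S.P i := mul_nonneg (by linarith) hPpos.le
    have e2 : 0 ≤ (S.b i - 2) * S.P i := mul_nonneg (by linarith) hPpos.le
    have hV0 : 0 ≤ S.Z i - S.P i / 2 := by
      have : S.Z i - S.P i / 2 = S.u i + (1 - S.a i) * S.P i := by rw [hu']; ring
      rw [this]; linarith [(hu i).1]
    have hV2 : S.Z i + S.P i / 2 ≤ n := by
      have : S.Z i + S.P i / 2 = S.v i - (S.b i - 2) * S.P i := by rw [hv']; ring
      rw [this]; linarith [(hv i).2]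
    refine hno _ (hcount (S.Z i - S.P i / 2 + 3 * τ * n) (S.Z i - S.P i / 2 + ε * n / 8)
      (by positivity) (by linarith) (by ring)) ?_
    intro k hk
    simp only [Finset.mem_filter, Finset.mem_univ, true_and] at hk
    obtain ⟨hka, hk1, hk2⟩ := hk
    obtain ⟨h1, h2⟩ := abs_le.1 (hV1 k hka)
    have h3 : S.Z i ≤ S.Z k := by
      by_contra hlt
      push Not at hlt
      have := (hS.nc k i hlt.le).1
      linarith
    have h4 := (hS.nc i k h3).2
    refine le_trans ?_ (le_abs_self _)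
    linarith
  · -- steep downwards
    have hPneg : S.P i < 0 := by
      have : 0 < ε * n := by positivity
      linarith
    have hu' := S.hu i
    have hv' := S.hv i
    have e1 : (1 - S.a i) * S.P i ≤ 0 := mul_nonpos_of_nonneg_of_nonpos (by linarith) hPneg.le
    have e2 : (S.b i - 2) * S.P i ≤ 0 := mul_nonpos_of_nonneg_of_nonpos (by linarith) hPneg.le
    have hV0 : S.Z i - S.P i / 2 ≤ n := by
      have : S.Z i - S.P i / 2 = S.u i + (1 - S.a i) * S.P i := by rw [hu']; ring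
      rw [this]; linarith [(hu i).2]
    have hV2 : 0 ≤ S.Z i + S.P i / 2 := by
      have : S.Z i + S.P i / 2 = S.v i - (S.b i - 2) * S.P i := by rw [hv']; ring
      rw [this]; linarith [(hv i).1]
    refine hno _ (hcount (S.Z i - S.P i / 2 - ε * n / 8) (S.Z i - S.P i / 2 - 3 * τ * n)
      (by linarith) (by linarith) (by ring)) ?_
    intro k hk
    simp only [Finset.mem_filter, Finset.mem_univ, true_and] at hk
    obtain ⟨hka, hk1, hk2⟩ := hk
    obtain ⟨h1, h2⟩ := abs_le.1 (hV1 k hka)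
    have h3 : S.Z k ≤ S.Z i := by
      by_contra hlt
      push Not at hlt
      have := (hS.nc i k hlt.le).1
      linarith
    have h4 := (hS.nc k i h3).2
    refine le_trans ?_ (neg_le_abs _)
    linarith

end Pool.Agent.H27.OTC
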