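import Pool.Agent.H27.OTC.Conf

/-!
Job OTC-B-LINE: algebra of lines and of the exploration.
-/

set_option autoImplicit false

open MeasureTheory ProbabilityTheory
open scoped ENNReal

namespace Pool.Agent.H27.OTC

open Pool.Agent.H96.OT (Pl)

theorem wt_nonneg (x : ℝ) : 0 ≤ wt x := le_max_left _ _

theorem wt_le_one (x : ℝ) : wt x ≤ 1 := max_le zero_le_one (min_le_left _ _)

theorem wt_eq {x : ℝ} (h0 : 0 ≤ x) (h3 : x ≤ 3) : wt x = x / 3 := by
  unfold wt
  rw [min_eq_right (by linarith), max_eq_right (by linarith)]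

theorem lam_nonneg (ℓ : ℕ × ℕ) (x : ℝ) : 0 ≤ lam ℓ x := by
  unfold lam
  have := wt_nonneg x
  have := wt_le_one x
  have : 0 ≤ 1 - wt x := by linarith
  positivity

theorem lam_add (ℓ ℓ' : ℕ × ℕ) (x : ℝ) : lam (ℓ + ℓ') x = lam ℓ x + lam ℓ' x := by
  unfold lam
  simp only [Prod.fst_add, Prod.snd_add]
  push_cast
  ring

theorem lam_mono {ℓ ℓ' : ℕ × ℕ} (h : ℓ ≤ ℓ') (x : ℝ) : lam ℓ x ≤ lam ℓ' x := by
  obtain ⟨h1, h2⟩ := h
  have h3 : (ℓ.1 : ℝ) ≤ ℓ'.1 := by exact_mod_cast h1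
  have h4 : (ℓ.2 : ℝ) ≤ ℓ'.2 := by exact_mod_cast h2
  have h5 := wt_nonneg x
  have h6 := wt_le_one x
  unfold lam
  nlinarith

theorem lam_diag (k : ℕ) (x : ℝ) : lam (k, k) x = k := by
  unfold lam
  simp only
  ring

theorem lam_zero (x : ℝ) : lam (0, 0) x = 0 := by
  simpa using lam_diag 0 x

theorem lam_eq (ℓ : ℕ × ℕ) {x : ℝ} (h0 : 0 ≤ x) (h3 : x ≤ 3) :
    lam ℓ x = ℓ.1 + ((ℓ.2 : ℝ) - ℓ.1) * (x / 3) := by
  unfold lam
  rw [wt_eq h0 h3]
  ring

theorem above_eq (ℓ : ℕ × ℕ) : above ℓ = (below ℓ)ᶜ := by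
  ext p
  simp [above, below]

theorem below_mono {ℓ ℓ' : ℕ × ℕ} (h : ℓ ≤ ℓ') : below ℓ ⊆ below ℓ' :=
  fun _ hp => le_trans hp (lam_mono h _)

theorem filter_filter_of_iff {α : Type*} (s : Multiset α) (p q r : α → Prop) {_ : DecidablePred p}
    {_ : DecidablePred q} {_ : DecidablePred r} (h : ∀ a, r a ↔ p a ∧ q a) :
    (s.filter p).filter q = s.filter r := by
  rw [Multiset.filter_filter]
  refine Multiset.filter_congr fun a _ => ?_
  rw [h a, and_comm]

theorem filt_filt (R R' : Set Pl) (c : Conf) : (c.filt R).filt R' = c.filt (R ∩ R') := by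
  unfold Conf.filt
  simp only [Conf.mk.injEq]
  exact ⟨filter_filter_of_iff _ _ _ _ fun _ => Iff.rfl, filter_filter_of_iff _ _ _ _ fun _ => Iff.rfl⟩

theorem nX_filt (R R' : Set Pl) (c : Conf) : (c.filt R).nX R' = c.nX (R ∩ R') := by
  unfold Conf.nX
  rw [filt_filt]

theorem nY_filt (R R' : Set Pl) (c : Conf) : (c.filt R).nY R' = c.nY (R ∩ R') := by
  unfold Conf.nY
  rw [filt_filt]

theorem filt_mapC (f : Pl → Pl) (R : Set Pl) (c : Conf) :
    (c.mapC f).filt R = (c.filt (f ⁻¹' R)).mapC f := by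
  unfold Conf.filt Conf.mapC
  simp only [Multiset.filter_map, Conf.mk.injEq]
  exact ⟨rfl, rfl⟩

/-- counting in relative coordinates -/
theorem nX_up (ℓ : ℕ × ℕ) (R : Set Pl) (c : Conf) :
    (up ℓ c).nX R = c.nX (above ℓ ∩ shift ℓ ⁻¹' R) := by
  unfold Conf.nX up
  rw [filt_mapC, filt_filt]
  exact Multiset.card_map _ _

theorem nY_up (ℓ : ℕ × ℕ) (R : Set Pl) (c : Conf) :
    (up ℓ c).nY R = c.nY (above ℓ ∩ shift ℓ ⁻¹' R) := by
  unfold Conf.nY up
  rw [filt_mapC, filt_filt]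
  exact Multiset.card_map _ _

theorem card_filter_or {α : Type*} (s : Multiset α) (p q r : α → Prop) {_ : DecidablePred p}
    {_ : DecidablePred q} {_ : DecidablePred r} (h : ∀ a, r a ↔ p a ∨ q a) (h' : ∀ a, ¬ (p a ∧ q a)) :
    (s.filter r).card = (s.filter p).card + (s.filter q).card := by
  induction s using Multiset.induction_on with
  | empty => rfl
  | cons a s ih =>
    by_cases h1 : p a
    · have h2 : ¬ q a := fun h2 => h' a ⟨h1, h2⟩
      rw [Multiset.filter_cons_of_pos _ h1, Multiset.filter_cons_of_neg _ h2,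
        Multiset.filter_cons_of_pos _ ((h a).2 (Or.inl h1)), Multiset.card_cons,
        Multiset.card_cons, ih]
      omega
    · by_cases h2 : q a
      · rw [Multiset.filter_cons_of_neg _ h1, Multiset.filter_cons_of_pos _ h2,
          Multiset.filter_cons_of_pos _ ((h a).2 (Or.inr h2)), Multiset.card_cons,
          Multiset.card_cons, ih]
        omega
      · have h3 : ¬ r a := fun h3 => ((h a).1 h3).elim h1 h2
        rw [Multiset.filter_cons_of_neg _ h1, Multiset.filter_cons_of_neg _ h2,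
          Multiset.filter_cons_of_neg _ h3, ih]

theorem nX_union {R R' : Set Pl} (h : Disjoint R R') (c : Conf) :
    c.nX (R ∪ R') = c.nX R + c.nX R' :=
  card_filter_or _ _ _ _ (fun _ => Iff.rfl) fun _ hp => Set.disjoint_left.1 h hp.1 hp.2

theorem nY_union {R R' : Set Pl} (h : Disjoint R R') (c : Conf) :
    c.nY (R ∪ R') = c.nY R + c.nY R' :=
  card_filter_or _ _ _ _ (fun _ => Iff.rfl) fun _ hp => Set.disjoint_left.1 h hp.1 hp.2

theorem nX_mono {R R' : Set Pl} (h : R ⊆ R') (c : Conf) : c.nX R ≤ c.nX R' := by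
  classical
  exact Multiset.card_le_card (Multiset.monotone_filter_right _ fun p hp => h hp)

theorem nY_mono {R R' : Set Pl} (h : R ⊆ R') (c : Conf) : c.nY R ≤ c.nY R' := by
  classical
  exact Multiset.card_le_card (Multiset.monotone_filter_right _ fun p hp => h hp)

/-- all points of `up ℓ c` have positive height -/
theorem up_pos (ℓ : ℕ × ℕ) (c : Conf) : (up ℓ c).filt {p | 0 < p.2} = up ℓ c := by
  unfold up
  rw [filt_mapC, filt_filt]
  congr 2
  ext p
  simp only [above, shift, Set.mem_inter_iff, Set.mem_ofPred_eq, Set.mem_preimage]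
  constructor
  · exact fun h => h.1
  · exact fun h => ⟨h, by linarith⟩

theorem mapC_mapC (f g : Pl → Pl) (c : Conf) : (c.mapC f).mapC g = c.mapC (g ∘ f) := by
  unfold Conf.mapC
  simp only [Multiset.map_map]

theorem up_up (ℓ ℓ' : ℕ × ℕ) (c : Conf) : up ℓ' (up ℓ c) = up (ℓ + ℓ') c := by
  unfold up
  rw [filt_mapC, filt_filt, mapC_mapC]
  have h1 : above ℓ ∩ shift ℓ ⁻¹' above ℓ' = above (ℓ + ℓ') := by
    ext p
    simp only [above, shift, Set.mem_inter_iff, Set.mem_ofPred_eq, Set.mem_preimage, lam_add]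
    have := lam_nonneg ℓ' p.1
    constructor
    · rintro ⟨_, h⟩
      linarith
    · intro h
      exact ⟨by linarith, by linarith⟩
  have h2 : shift ℓ' ∘ shift ℓ = shift (ℓ + ℓ') := by
    funext p
    simp only [shift, Function.comp_apply, lam_add, sub_sub]
  rw [h1, h2]

theorem imb_add (ℓ ℓ' : ℕ × ℕ) (c : Conf) : imb c (ℓ + ℓ') = imb c ℓ + imb (up ℓ c) ℓ' := by
  have h1 : below (ℓ + ℓ') = below ℓ ∪ (above ℓ ∩ shift ℓ ⁻¹' below ℓ') := by
    ext p
    simp only [below, above, shift, Set.mem_union, Set.mem_inter_iff, Set.mem_ofPred_eq,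
      Set.mem_preimage, lam_add]
    have := lam_nonneg ℓ' p.1
    constructor
    · intro h
      rcases le_or_gt p.2 (lam ℓ p.1) with h1 | h1
      · exact Or.inl h1
      · exact Or.inr ⟨h1, by linarith⟩
    · rintro (h | ⟨_, h⟩) <;> linarith
  have h2 : Disjoint (below ℓ) (above ℓ ∩ shift ℓ ⁻¹' below ℓ') := by
    rw [above_eq]
    exact Set.disjoint_left.2 fun p hp hp' => hp'.1 hp
  unfold imb
  rw [h1, nX_union h2, nY_union h2, nX_up, nY_up]
  push_cast
  ring

/-- restriction to a region containing `below ℓ` does not change the counts below `ℓ` -/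
theorem imb_filt {R : Set Pl} {ℓ : ℕ × ℕ} (h : below ℓ ⊆ R) (c : Conf) :
    imb (c.filt R) ℓ = imb c ℓ := by
  unfold imb
  rw [nX_filt, nY_filt, Set.inter_eq_self_of_subset_right h]

theorem nextL_add (ℓ ℓ' : ℕ × ℕ) (i : ℤ) : nextL (ℓ + ℓ') i = ℓ + nextL ℓ' i := by
  unfold nextL
  refine Prod.ext ?_ ?_
  · simp only [Prod.fst_add]
    omega
  · simp only [Prod.snd_add]
    omega

theorem le_nextL (ℓ : ℕ × ℕ) (i : ℤ) : ℓ.1 + 1 ≤ (nextL ℓ i).1 ∧ ℓ.2 + 1 ≤ (nextL ℓ i).2 := by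
  unfold nextL
  simp only
  omega

theorem ex_mono (i₀ : ℤ) (c : Conf) {j k : ℕ} (h : j ≤ k) : ex i₀ c j ≤ ex i₀ c k := by
  refine monotone_nat_of_le_succ (f := ex i₀ c) (fun n => ?_) h
  have := le_nextL (ex i₀ c n) (i₀ + imb c (ex i₀ c n))
  refine ⟨?_, ?_⟩
  · rw [ex]; omega
  · rw [ex]; omega

/-- each step raises both ends by at least one -/
theorem ex_add_le (i₀ : ℤ) (c : Conf) (k j : ℕ) :
    (ex i₀ c k).1 + j ≤ (ex i₀ c (k + j)).1 ∧ (ex i₀ c k).2 + j ≤ (ex i₀ c (k + j)).2 := by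
  induction j with
  | zero => exact ⟨le_refl _, le_refl _⟩
  | succ j ih =>
    have h := le_nextL (ex i₀ c (k + j)) (i₀ + imb c (ex i₀ c (k + j)))
    have h2 : ex i₀ c (k + (j + 1)) = nextL (ex i₀ c (k + j)) (i₀ + imb c (ex i₀ c (k + j))) := rfl
    rw [h2]
    omega

/-- locality of the exploration: the lines up to step `k` depend only on the points below the
`k`-th line -/
theorem ex_filt {i₀ : ℤ} {c : Conf} {k : ℕ} {R : Set Pl} (h : below (ex i₀ c k) ⊆ R) {j : ℕ}
    (hj : j ≤ k) : ex i₀ (c.filt R) j = ex i₀ c j := by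
  induction j with
  | zero => rfl
  | succ j ih =>
    have h1 := ih (by omega)
    have h2 : below (ex i₀ c j) ⊆ R := (below_mono (ex_mono i₀ c (by omega))).trans h
    rw [ex, ex, h1, imb_filt h2]

theorem ex_filt' {i₀ : ℤ} {c : Conf} {k : ℕ} {R : Set Pl}
    (h : below (ex i₀ (c.filt R) k) ⊆ R) {j : ℕ} (hj : j ≤ k) :
    ex i₀ (c.filt R) j = ex i₀ c j := by
  induction j with
  | zero => rfl
  | succ j ih =>
    have h1 := ih (by omega)
    have h2 : below (ex i₀ (c.filt R) j) ⊆ R :=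
      (below_mono (ex_mono i₀ (c.filt R) (by omega))).trans h
    rw [ex, ex, imb_filt h2, h1]

/-- the event that the `k`-th line is `ℓ` depends only on the points below `ℓ` -/
theorem st_eq_iff (c : Conf) (k : ℕ) (ℓ : ℕ × ℕ) :
    st (c.filt (below ℓ)) k = ℓ ↔ st c k = ℓ := by
  unfold st
  constructor
  · intro h
    rw [← ex_filt' (R := below ℓ) (k := k) (by rw [h]) (le_refl k)]
    exact h
  · intro h
    rw [ex_filt (R := below ℓ) (k := k) (by rw [h]) (le_refl k)]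
    exact h

/-- continuation of the exploration -/
theorem ex_add (i₀ : ℤ) (c : Conf) (k j : ℕ) :
    ex i₀ c (k + j) = ex i₀ c k +
      ex (i₀ + imb c (ex i₀ c k)) (up (ex i₀ c k) c) j := by
  induction j with
  | zero => rfl
  | succ j ih =>
    have h2 : ex i₀ c (k + (j + 1)) = nextL (ex i₀ c (k + j)) (i₀ + imb c (ex i₀ c (k + j))) := rfl
    rw [h2, ih, nextL_add, imb_add, ← add_assoc]
    rfl

theorem st_add (c : Conf) (k j : ℕ) : st c (k + j) = st c k + ex (im c k) (uc c k) j := by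
  unfold st im uc
  rw [ex_add, zero_add]
  rfl

theorem im_add (c : Conf) (k j : ℕ) :
    im c (k + j) = im c k + imb (uc c k) (ex (im c k) (uc c k) j) := by
  unfold im
  rw [st_add, imb_add]
  rfl

theorem uc_add (c : Conf) (k j : ℕ) : uc c (k + j) = up (ex (im c k) (uc c k) j) (uc c k) := by
  unfold uc
  rw [st_add, up_up]
  rfl

/-- one step -/
theorem st_succ (c : Conf) (k : ℕ) : st c (k + 1) = nextL (st c k) (im c k) := by
  unfold st im
  rw [ex, zero_add]
  rfl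

theorem im_succ (c : Conf) (k : ℕ) :
    im c (k + 1) = im c k + imb (uc c k) (nextL (0, 0) (im c k)) := by
  have h1 : st c (k + 1) = st c k + nextL (0, 0) (im c k) := by
    rw [st_succ, ← nextL_add]
    rfl
  unfold im
  rw [h1, imb_add]
  rfl

theorem nX_up_pos (ℓ : ℕ × ℕ) (R : Set Pl) (c : Conf) :
    (up ℓ c).nX R = (up ℓ c).nX ({p | 0 < p.2} ∩ R) := by
  conv_lhs => rw [← up_pos ℓ c]
  rw [nX_filt]

theorem nY_up_pos (ℓ : ℕ × ℕ) (R : Set Pl) (c : Conf) :
    (up ℓ c).nY R = (up ℓ c).nY ({p | 0 < p.2} ∩ R) := by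
  conv_lhs => rw [← up_pos ℓ c]
  rw [nY_filt]

theorem below_diag (j : ℕ) : below (j, j) = {p : Pl | p.2 ≤ (j : ℝ)} := by
  ext p
  simp only [below, Set.mem_ofPred_eq, lam_diag]

theorem cells_union (j : ℕ) : {p : Pl | 0 < p.2 ∧ p.2 ≤ ((j + 1 : ℕ) : ℝ)} =
    {p : Pl | 0 < p.2 ∧ p.2 ≤ (j : ℝ)} ∪ {p : Pl | (j : ℝ) < p.2 ∧ p.2 ≤ j + 1} := by
  ext p
  simp only [Set.mem_ofPred_eq, Set.mem_union, Nat.cast_add, Nat.cast_one]
  have hj : (0 : ℝ) ≤ j := Nat.cast_nonneg j
  constructor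
  · rintro ⟨h1, h2⟩
    rcases le_or_gt p.2 (j : ℝ) with h | h
    · exact Or.inl ⟨h1, h⟩
    · exact Or.inr ⟨h, h2⟩
  · rintro (⟨h1, h2⟩ | ⟨h1, h2⟩)
    · exact ⟨h1, by linarith⟩
    · exact ⟨by linarith, h2⟩

theorem cells_disj (j : ℕ) : Disjoint {p : Pl | 0 < p.2 ∧ p.2 ≤ (j : ℝ)}
    {p : Pl | (j : ℝ) < p.2 ∧ p.2 ≤ j + 1} := by
  rw [Set.disjoint_left]
  rintro p ⟨_, h2⟩ ⟨h3, _⟩
  linarith

theorem nX_empty (c : Conf) : c.nX ∅ = 0 := by
  have h := nX_union (Set.disjoint_empty (∅ : Set Pl)) c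
  rw [Set.union_self] at h
  omega

theorem nY_empty (c : Conf) : c.nY ∅ = 0 := by
  have h := nY_union (Set.disjoint_empty (∅ : Set Pl)) c
  rw [Set.union_self] at h
  omega

theorem cells_zero : {p : Pl | 0 < p.2 ∧ p.2 ≤ ((0 : ℕ) : ℝ)} = ∅ := by
  ext p
  simp only [Nat.cast_zero, Set.mem_ofPred_eq, Set.mem_empty_iff_false, iff_false, not_and, not_le]
  exact fun h => h

theorem nX_cells {K : ℕ} {τ₁ : ℝ} {c : Conf} (h : Pat K τ₁ c) {j : ℕ} (hj : j ≤ 2 * K) :
    c.nX {p | 0 < p.2 ∧ p.2 ≤ (j : ℝ)} = j := by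
  induction j with
  | zero => rw [cells_zero, nX_empty]
  | succ j ih =>
    rw [cells_union, nX_union (cells_disj j), ih (by omega), (h j (by omega)).1]

theorem nY_cells {K : ℕ} {τ₁ : ℝ} {c : Conf} (h : Pat K τ₁ c) {j : ℕ} (hj : j ≤ 2 * K) :
    c.nY {p | 0 < p.2 ∧ p.2 ≤ (j : ℝ)} = j := by
  induction j with
  | zero => rw [cells_zero, nY_empty]
  | succ j ih =>
    rw [cells_union, nY_union (cells_disj j), ih (by omega), (h j (by omega)).2.2.1]

theorem imb_pat {K : ℕ} {τ₁ : ℝ} {ℓ : ℕ × ℕ} {c : Conf} (h : Pat K τ₁ (up ℓ c)) {j : ℕ}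
    (hj : j ≤ 2 * K) : imb (up ℓ c) (j, j) = 0 := by
  unfold imb
  rw [below_diag, nX_up_pos, nY_up_pos]
  have h1 : ({p : Pl | 0 < p.2} ∩ {p : Pl | p.2 ≤ (j : ℝ)}) =
      {p : Pl | 0 < p.2 ∧ p.2 ≤ (j : ℝ)} := rfl
  rw [h1, nX_cells h hj, nY_cells h hj, sub_self]

/-- along a pattern the exploration goes straight up -/
theorem st_pat {K : ℕ} {τ₁ : ℝ} {c : Conf} {k : ℕ} (h : Cand K τ₁ c k) {j : ℕ}
    (hj : j ≤ 2 * K) : st c (k + j) = st c k + (j, j) ∧ im c (k + j) = 0 := by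
  induction j with
  | zero =>
    refine ⟨?_, h.1⟩
    rw [add_zero]
    exact (add_zero _).symm
  | succ j ih =>
    obtain ⟨h1, h2⟩ := ih (by omega)
    have h3 : st c (k + (j + 1)) = st c k + (j + 1, j + 1) := by
      rw [← add_assoc, st_succ, h2, h1]
      unfold nextL
      ext
      · simp only [Prod.fst_add, neg_zero, Int.toNat_zero, add_zero]
        omega
      · simp only [Prod.snd_add, Int.toNat_zero, add_zero]
        omega
    refine ⟨h3, ?_⟩
    have h4 := st_add c k (j + 1)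
    rw [h3] at h4
    have h5 : ex (im c k) (uc c k) (j + 1) = (j + 1, j + 1) := (add_left_cancel h4).symm
    rw [im_add, h5, h.1, zero_add]
    exact imb_pat h.2 hj

/-- candidates seen from a line with imbalance zero -/
theorem cand_shift {K : ℕ} {τ₁ : ℝ} {c : Conf} {k : ℕ} (h : im c k = 0) (j : ℕ) :
    Cand K τ₁ (uc c k) j ↔ Cand K τ₁ c (k + j) := by
  have h1 : im c (k + j) = im (uc c k) j := by
    rw [im_add, h, zero_add]
    rfl
  have h2 : uc c (k + j) = uc (uc c k) j := by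
    rw [uc_add, h]
    rfl
  unfold Cand
  rw [h1, h2]

/-! ### Past events -/

theorem st_filt {c : Conf} {k k' : ℕ} (hk : k ≤ k') :
    st (c.filt (below (st c k'))) k = st c k :=
  ex_filt (k := k') (subset_refl _) hk

theorem Past.mono {β : Type} {Φ : Conf → β} {k k' : ℕ} (h : Past k Φ) (hk : k ≤ k') :
    Past k' Φ := by
  intro c
  have h1 : below (st c k) ⊆ below (st c k') := below_mono (ex_mono 0 c hk)
  rw [h (c.filt (below (st c k'))), st_filt hk, filt_filt, Set.inter_eq_right.2 h1, ← h c]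

theorem past_st (k : ℕ) : Past k (fun c => st c k) := by
  intro c
  exact (st_filt (le_refl k)).symm

theorem past_im (k : ℕ) : Past k (fun c => im c k) := by
  intro c
  show im c k = im (c.filt (below (st c k))) k
  unfold im
  rw [st_filt (le_refl k), imb_filt (subset_refl _)]

theorem past_nX (k : ℕ) : Past k (fun c => c.nX (below (st c k))) := by
  intro c
  show c.nX (below (st c k)) =
    (c.filt (below (st c k))).nX (below (st (c.filt (below (st c k))) k))
  rw [st_filt (le_refl k), nX_filt, Set.inter_self]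

theorem past_nY (k : ℕ) : Past k (fun c => c.nY (below (st c k))) := by
  intro c
  show c.nY (below (st c k)) =
    (c.filt (below (st c k))).nY (below (st (c.filt (below (st c k))) k))
  rw [st_filt (le_refl k), nY_filt, Set.inter_self]

theorem past_okAt (n : ℕ) (θ ρ : ℝ) (k : ℕ) : Past k (fun c => OkAt n θ ρ c k) := by
  intro c
  have h1 := past_st k c
  have h2 := past_nX k c
  have h3 := past_nY k c
  simp only at h1 h2 h3
  show OkAt n θ ρ c k = OkAt n θ ρ (c.filt (below (st c k))) k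
  unfold OkAt
  rw [← h2, ← h3, ← h1]

theorem past_alive (n : ℕ) (θ ρ : ℝ) (k : ℕ) : Past k (fun c => Alive n θ ρ c k) := by
  intro c
  show (∀ j ≤ k, OkAt n θ ρ c j) = (∀ j ≤ k, OkAt n θ ρ (c.filt (below (st c k))) j)
  have h : ∀ j ≤ k, OkAt n θ ρ c j = OkAt n θ ρ (c.filt (below (st c k))) j :=
    fun j hj => (past_okAt n θ ρ j).mono hj c
  apply propext
  constructor
  · intro H j hj
    rw [← h j hj]
    exact H j hj
  · intro H j hj
    rw [h j hj]
    exact H j hj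

theorem past_regDn (N : ℕ) (τ δ r : ℝ) (k : ℕ) :
    Past k (fun c => RegDn N τ δ r (st c k) c) := by
  intro c
  show RegDn N τ δ r (st c k) c =
    RegDn N τ δ r (st (c.filt (below (st c k))) k) (c.filt (below (st c k)))
  rw [st_filt (le_refl k)]
  have hX : ∀ S : Set Pl, S ⊆ below (st c k) → (c.filt (below (st c k))).nX S = c.nX S := by
    intro S hS
    rw [nX_filt, Set.inter_eq_right.2 hS]
  have hY : ∀ S : Set Pl, S ⊆ below (st c k) → (c.filt (below (st c k))).nY S = c.nY S := by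
    intro S hS
    rw [nY_filt, Set.inter_eq_right.2 hS]
  unfold RegDn
  apply propext
  refine forall_congr' fun j => forall_congr' fun hj => ?_
  rw [hX {p | lam (st c k) p.1 - 3 * r * j / N < p.2 ∧ p.2 ≤ lam (st c k) p.1}
      (fun p hp => hp.2),
    hX {p | 1 - τ ≤ p.1 ∧ lam (st c k) p.1 - 3 * r * j / N < p.2 ∧ p.2 ≤ lam (st c k) p.1}
      (fun p hp => hp.2.2),
    hY {p | lam (st c k) p.1 - 3 * r * j / N < p.2 ∧ p.2 ≤ lam (st c k) p.1}
      (fun p hp => hp.2)]

/-- the window of relative height `B` above the `k`-th line lies below the `(k+B)`-th line -/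
theorem window_sub (c : Conf) (k B : ℕ) :
    above (st c k) ∩ shift (st c k) ⁻¹' {p | p.2 ≤ (B : ℝ)} ⊆ below (st c (k + B)) := by
  rintro p ⟨_, hp⟩
  have h1 : st c k + (B, B) ≤ st c (k + B) := ex_add_le 0 c k B
  have h2 := lam_mono h1 p.1
  rw [lam_add, lam_diag] at h2
  have h3 : p.2 - lam (st c k) p.1 ≤ (B : ℝ) := hp
  show p.2 ≤ lam (st c (k + B)) p.1
  linarith

theorem uc_filt_window (c : Conf) (k B : ℕ) :
    (uc (c.filt (below (st c (k + B)))) k).filt {p | p.2 ≤ (B : ℝ)} =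
      (uc c k).filt {p | p.2 ≤ (B : ℝ)} := by
  unfold uc up
  rw [st_filt (Nat.le_add_right k B), filt_mapC, filt_mapC, filt_filt, filt_filt, filt_filt,
    Set.inter_eq_right.2 (window_sub c k B)]

/-- a functional of the configuration above the `k`-th line up to the relative height `B` is in
the past of step `k + B` -/
theorem past_window {β : Type} {B : ℕ} {G : Conf → β}
    (hG : ∀ c, G c = G (c.filt {p | p.2 ≤ B})) (k : ℕ) :
    Past (k + B) (fun c => G (uc c k)) := by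
  intro c
  show G (uc c k) = G (uc (c.filt (below (st c (k + B)))) k)
  rw [hG (uc c k), hG (uc (c.filt (below (st c (k + B)))) k), uc_filt_window]

theorem pat_filt (K : ℕ) (τ₁ : ℝ) (c : Conf) :
    Pat K τ₁ c = Pat K τ₁ (c.filt {p | p.2 ≤ ((2 * K : ℕ) : ℝ)}) := by
  have hX : ∀ S : Set Pl, S ⊆ {p : Pl | p.2 ≤ ((2 * K : ℕ) : ℝ)} →
      (c.filt {p | p.2 ≤ ((2 * K : ℕ) : ℝ)}).nX S = c.nX S := by
    intro S hS
    rw [nX_filt, Set.inter_eq_right.2 hS]
  have hY : ∀ S : Set Pl, S ⊆ {p : Pl | p.2 ≤ ((2 * K : ℕ) : ℝ)} →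
      (c.filt {p | p.2 ≤ ((2 * K : ℕ) : ℝ)}).nY S = c.nY S := by
    intro S hS
    rw [nY_filt, Set.inter_eq_right.2 hS]
  unfold Pat
  apply propext
  refine forall_congr' fun j => forall_congr' fun hj => ?_
  have hj' : (j : ℝ) + 1 ≤ ((2 * K : ℕ) : ℝ) := by exact_mod_cast hj
  have h1 : ∀ p : Pl, p.2 ≤ (j : ℝ) + 1 → p ∈ {p : Pl | p.2 ≤ ((2 * K : ℕ) : ℝ)} :=
    fun p hp => le_trans hp hj'
  rw [hX _ (fun p hp => h1 p hp.2), hX _ (fun p hp => h1 p (by have := hp.2.2; linarith)),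
    hY _ (fun p hp => h1 p hp.2), hY _ (fun p hp => h1 p (by have := hp.2.2; linarith))]

theorem past_cand (K : ℕ) (τ₁ : ℝ) (k : ℕ) : Past (k + 2 * K) (fun c => Cand K τ₁ c k) := by
  intro c
  have h1 := (past_im k).mono (Nat.le_add_right k (2 * K)) c
  have h2 := past_window (B := 2 * K) (G := fun c => Pat K τ₁ c) (fun c => pat_filt K τ₁ c) k c
  simp only at h1 h2
  show (im c k = 0 ∧ Pat K τ₁ (uc c k)) =
    (im (c.filt (below (st c (k + 2 * K)))) k = 0 ∧
      Pat K τ₁ (uc (c.filt (below (st c (k + 2 * K)))) k))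
  rw [← h1, ← h2]

end Pool.Agent.H27.OTC
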