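import Pool.Agent.H27.OTC.ConfIid
import Pool.Agent.H27.OTC.LineBasic

/-!
Job OTC-B-MOM: exponential moments and one step estimates under `Near`.
-/

set_option autoImplicit false

open MeasureTheory ProbabilityTheory
open scoped ENNReal

namespace Pool.Agent.H27.OTC

open Pool.Agent.H96.OT (Pl)

/-- area of `R` in the strip over `[l, l+1]`, up to height `B` -/
noncomputable def area (l B : ℝ) (R : Set Pl) : ℝ :=
  (volume (R ∩ (Set.Icc l (l + 1) ×ˢ Set.Ioc (0 : ℝ) B))).toReal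

section aux

variable {l s B : ℝ} {ν : Measure Pl}

theorem volume_strip_lt_top (l B : ℝ) :
    volume (Set.Icc l (l + 1) ×ˢ Set.Ioc (0 : ℝ) B) < ∞ := by
  rw [Measure.volume_eq_prod, Measure.prod_prod]
  exact ENNReal.mul_lt_top (by simp) (by simp)

theorem area_nonneg (l B : ℝ) (R : Set Pl) : 0 ≤ area l B R := ENNReal.toReal_nonneg

/-- mass of a low region -/
theorem flat_mass (h : Flat l s B ν) {R : Set Pl} (hR : MeasurableSet R)
    (hRB : ∀ p ∈ R, p.2 ≤ B) : ν R = ENNReal.ofReal (s * area l B R) := by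
  have h1 : ν R = (ν.restrict {p | p.2 ≤ B}) R := by
    rw [Measure.restrict_apply hR]
    congr 1
    ext p
    exact ⟨fun hp => ⟨hp, hRB p hp⟩, fun hp => hp.1⟩
  rw [h1, h.eq, Measure.smul_apply, Measure.restrict_apply hR, smul_eq_mul,
    ENNReal.ofReal_mul h.spos.le]
  congr 1
  unfold area
  rw [ENNReal.ofReal_toReal]
  exact ((measure_mono Set.inter_subset_right).trans_lt (volume_strip_lt_top l B)).ne

theorem flat_pos (h : Flat l s B ν) (hB : 0 ≤ B) : ∀ᵐ x ∂ν, 0 < x.2 := by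
  rw [ae_iff]
  have hm : MeasurableSet {x : Pl | ¬ 0 < x.2} :=
    (measurableSet_lt measurable_const measurable_snd).compl
  have hsub : ∀ p ∈ {x : Pl | ¬ 0 < x.2}, p.2 ≤ B := fun p hp => (not_lt.1 hp).trans hB
  rw [flat_mass h hm hsub]
  have h0 : {x : Pl | ¬ 0 < x.2} ∩ (Set.Icc l (l + 1) ×ˢ Set.Ioc (0 : ℝ) B) = ∅ := by
    ext p
    simp only [Set.mem_inter_iff, Set.mem_ofPred_eq, Set.mem_prod, Set.mem_Ioc,
      Set.mem_empty_iff_false, iff_false]
    rintro ⟨h1, _, h2, _⟩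
    exact h1 h2
  unfold area
  rw [h0]
  simp

open Classical in
theorem nX_consX (R : Set Pl) (x : Pl) (c : Conf) :
    (c.consX x).nX R = c.nX R + if x ∈ R then 1 else 0 := by
  unfold Conf.nX
  by_cases hx : x ∈ R
  · rw [filt_consX_mem hx]
    simp [Conf.consX, hx]
  · rw [filt_consX_not_mem hx]
    simp [hx]

open Classical in
theorem nY_consY (R : Set Pl) (x : Pl) (c : Conf) :
    (c.consY x).nY R = c.nY R + if x ∈ R then 1 else 0 := by
  unfold Conf.nY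
  by_cases hx : x ∈ R
  · rw [filt_consY_mem hx]
    simp [Conf.consY, hx]
  · rw [filt_consY_not_mem hx]
    simp [hx]

theorem nY_consX (R : Set Pl) (x : Pl) (c : Conf) : (c.consX x).nY R = c.nY R := rfl

theorem nX_consY (R : Set Pl) (x : Pl) (c : Conf) : (c.consY x).nX R = c.nX R := rfl

open Classical in
/-- the exponential moment of sums of counts is a product of powers -/
theorem exp_moment_eq (ν ν' : Measure Pl) [IsProbabilityMeasure ν] [IsProbabilityMeasure ν']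
    {RX RY : Set Pl} (hRX : MeasurableSet RX) (hRY : MeasurableSet RY) (a b : ℝ) (m' : ℕ) :
    ∀ m : ℕ,
    ∫⁻ c, ENNReal.ofReal (Real.exp (a * (c.nX RX : ℝ) + b * (c.nY RY : ℝ))) ∂(iid ν ν' m m') =
      (∫⁻ x, ENNReal.ofReal (Real.exp (if x ∈ RX then a else 0)) ∂ν) ^ m *
        (∫⁻ x, ENNReal.ofReal (Real.exp (if x ∈ RY then b else 0)) ∂ν') ^ m' := by
  have hmeas : Measurable fun c : Conf =>
      ENNReal.ofReal (Real.exp (a * (c.nX RX : ℝ) + b * (c.nY RY : ℝ))) := by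
    refine ENNReal.measurable_ofReal.comp (Real.measurable_exp.comp ?_)
    refine Measurable.add ?_ ?_
    · exact ((measurable_from_top (f := fun n : ℕ => (n : ℝ))).comp
        (measurable_nX hRX)).const_mul a
    · exact ((measurable_from_top (f := fun n : ℕ => (n : ℝ))).comp
        (measurable_nY hRY)).const_mul b
  intro m
  induction m with
  | zero =>
    rw [pow_zero, one_mul]
    induction m' with
    | zero =>
      rw [lintegral_iid_zero ν ν' hmeas]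
      simp [Conf.nX, Conf.nY, Conf.filt]
    | succ m' ih =>
      rw [lintegral_iid_succY ν ν' hmeas]
      have h1 : ∀ x, ∫⁻ c, ENNReal.ofReal (Real.exp (a * ((c.consY x).nX RX : ℝ) +
          b * ((c.consY x).nY RY : ℝ))) ∂(iid ν ν' 0 m') =
          ENNReal.ofReal (Real.exp (if x ∈ RY then b else 0)) *
          ∫⁻ c, ENNReal.ofReal (Real.exp (a * (c.nX RX : ℝ) +
          b * (c.nY RY : ℝ))) ∂(iid ν ν' 0 m') := by
        intro x
        rw [← lintegral_const_mul _ hmeas]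
        refine lintegral_congr fun c => ?_
        rw [← ENNReal.ofReal_mul (Real.exp_pos _).le, ← Real.exp_add, nX_consY, nY_consY]
        congr 2
        by_cases hx : x ∈ RY
        · simp only [hx, if_true]; push_cast; ring
        · simp only [hx, if_false]; push_cast; ring
      simp only [h1]
      rw [lintegral_mul_const' _ _ (by rw [ih]; exact ENNReal.pow_ne_top (by
        have hle : ∫⁻ x, ENNReal.ofReal (Real.exp (if x ∈ RY then b else 0)) ∂ν' ≤
            ∫⁻ _, ENNReal.ofReal (Real.exp |b|) ∂ν' := by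
          refine lintegral_mono fun x => ENNReal.ofReal_le_ofReal (Real.exp_le_exp.2 ?_)
          by_cases hx : x ∈ RY
          · simp only [hx, if_true]; exact le_abs_self b
          · simp only [hx, if_false]; exact abs_nonneg b
        refine (hle.trans_lt ?_).ne
        rw [lintegral_const]
        simp)), ih, pow_succ, mul_comm]
  | succ m ih =>
    rw [lintegral_iid_succX ν ν' hmeas]
    have hfinX : ∫⁻ x, ENNReal.ofReal (Real.exp (if x ∈ RX then a else 0)) ∂ν ≠ ∞ := by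
      have hle : ∫⁻ x, ENNReal.ofReal (Real.exp (if x ∈ RX then a else 0)) ∂ν ≤
          ∫⁻ _, ENNReal.ofReal (Real.exp |a|) ∂ν := by
        refine lintegral_mono fun x => ENNReal.ofReal_le_ofReal (Real.exp_le_exp.2 ?_)
        by_cases hx : x ∈ RX
        · simp only [hx, if_true]; exact le_abs_self a
        · simp only [hx, if_false]; exact abs_nonneg a
      refine (hle.trans_lt ?_).ne
      rw [lintegral_const]
      simp
    have hfinY : ∫⁻ x, ENNReal.ofReal (Real.exp (if x ∈ RY then b else 0)) ∂ν' ≠ ∞ := by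
      have hle : ∫⁻ x, ENNReal.ofReal (Real.exp (if x ∈ RY then b else 0)) ∂ν' ≤
          ∫⁻ _, ENNReal.ofReal (Real.exp |b|) ∂ν' := by
        refine lintegral_mono fun x => ENNReal.ofReal_le_ofReal (Real.exp_le_exp.2 ?_)
        by_cases hx : x ∈ RY
        · simp only [hx, if_true]; exact le_abs_self b
        · simp only [hx, if_false]; exact abs_nonneg b
      refine (hle.trans_lt ?_).ne
      rw [lintegral_const]
      simp
    have h1 : ∀ x, ∫⁻ c, ENNReal.ofReal (Real.exp (a * ((c.consX x).nX RX : ℝ) +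
        b * ((c.consX x).nY RY : ℝ))) ∂(iid ν ν' m m') =
        ENNReal.ofReal (Real.exp (if x ∈ RX then a else 0)) *
        ∫⁻ c, ENNReal.ofReal (Real.exp (a * (c.nX RX : ℝ) +
        b * (c.nY RY : ℝ))) ∂(iid ν ν' m m') := by
      intro x
      rw [← lintegral_const_mul _ hmeas]
      refine lintegral_congr fun c => ?_
      rw [← ENNReal.ofReal_mul (Real.exp_pos _).le, ← Real.exp_add, nX_consX, nY_consX]
      congr 2
      by_cases hx : x ∈ RX
      · simp only [hx, if_true]; push_cast; ring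
      · simp only [hx, if_false]; push_cast; ring
    simp only [h1]
    rw [lintegral_mul_const' _ _ (by
      rw [ih]
      exact ENNReal.mul_ne_top (ENNReal.pow_ne_top hfinX) (ENNReal.pow_ne_top hfinY)), ih,
      pow_succ]
    ring

open Classical in
/-- the one point exponential moment -/
theorem exp_one [IsProbabilityMeasure ν] {R : Set Pl} (hR : MeasurableSet R) {q : ℝ}
    (hq : 0 ≤ q) (hq' : ν R = ENNReal.ofReal q) (a : ℝ) :
    ∫⁻ x, ENNReal.ofReal (Real.exp (if x ∈ R then a else 0)) ∂ν ≤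
      ENNReal.ofReal (Real.exp (q * (Real.exp a - 1))) := by
  have hq1 : q ≤ 1 := by
    have h := prob_le_one (μ := ν) (s := R)
    rw [hq'] at h
    exact ENNReal.ofReal_le_one.1 h
  have hc : ν Rᶜ = ENNReal.ofReal (1 - q) := by
    rw [prob_compl_eq_one_sub hR, hq', ENNReal.ofReal_sub _ hq, ENNReal.ofReal_one]
  rw [← lintegral_add_compl _ hR]
  have h1 : ∫⁻ x in R, ENNReal.ofReal (Real.exp (if x ∈ R then a else 0)) ∂ν =
      ENNReal.ofReal (Real.exp a) * ENNReal.ofReal q := by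
    rw [setLIntegral_congr_fun (g := fun _ => ENNReal.ofReal (Real.exp a)) hR
      (fun x hx => by simp only [hx, if_true]), setLIntegral_const, hq']
  have h2 : ∫⁻ x in Rᶜ, ENNReal.ofReal (Real.exp (if x ∈ R then a else 0)) ∂ν =
      ENNReal.ofReal (1 - q) := by
    rw [setLIntegral_congr_fun (g := fun _ => 1) hR.compl
      (fun x hx => by
        have : x ∉ R := hx
        simp [this]), setLIntegral_const, hc, one_mul]
  rw [h1, h2, ← ENNReal.ofReal_mul (Real.exp_pos _).le,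
    ← ENNReal.ofReal_add (mul_nonneg (Real.exp_pos _).le hq) (by linarith)]
  apply ENNReal.ofReal_le_ofReal
  have := Real.add_one_le_exp (q * (Real.exp a - 1))
  nlinarith

theorem exp_pow_le {q A κ : ℝ} {m : ℕ} (hA : 0 ≤ A) (hs : q = s * A) (hκ : |s * m - 1| ≤ κ)
    (E : ℝ) : (m : ℝ) * (q * E) ≤ A * E + κ * (A * |E|) := by
  have h1 : (m : ℝ) * (q * E) = A * E + (s * m - 1) * (A * E) := by rw [hs]; ring
  rw [h1]
  have h2 : (s * m - 1) * (A * E) ≤ |s * m - 1| * (A * |E|) := by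
    refine (le_abs_self _).trans ?_
    rw [abs_mul, abs_mul, abs_of_nonneg hA]
  have h3 : |s * m - 1| * (A * |E|) ≤ κ * (A * |E|) :=
    mul_le_mul_of_nonneg_right hκ (by positivity)
  linarith

end aux

/-- bound of the exponential moment of a sum of counts -/
theorem exp_moment {κ s₀ B : ℝ} {ν ν' : Measure Pl} {m m' : ℕ} (h : Near κ s₀ B ν ν' m m')
    (hκ : 0 ≤ κ) {RX RY : Set Pl} (hRX : MeasurableSet RX) (hRY : MeasurableSet RY)
    (hRXB : ∀ p ∈ RX, p.2 ≤ B) (hRYB : ∀ p ∈ RY, p.2 ≤ B) (a b : ℝ) :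
    ∫⁻ c, ENNReal.ofReal (Real.exp (a * (c.nX RX : ℝ) + b * (c.nY RY : ℝ))) ∂(iid ν ν' m m') ≤
      ENNReal.ofReal (Real.exp (area 0 B RX * (Real.exp a - 1) + area 2 B RY * (Real.exp b - 1)
        + κ * (area 0 B RX * |Real.exp a - 1| + area 2 B RY * |Real.exp b - 1|))) := by
  classical
  obtain ⟨s, hs, hsm, -⟩ := h.flatX
  obtain ⟨s', hs', hsm', -⟩ := h.flatY
  have := hs.prob
  have := hs'.prob
  have hA := area_nonneg 0 B RX
  have hA' := area_nonneg 2 B RY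
  rw [exp_moment_eq ν ν' hRX hRY a b m' m]
  have h1 := exp_one hRX (mul_nonneg hs.spos.le hA) (flat_mass hs hRX hRXB) a
  have h2 := exp_one hRY (mul_nonneg hs'.spos.le hA') (flat_mass hs' hRY hRYB) b
  refine (mul_le_mul' (pow_le_pow_left' h1 m) (pow_le_pow_left' h2 m')).trans ?_
  rw [← ENNReal.ofReal_pow (Real.exp_pos _).le, ← ENNReal.ofReal_pow (Real.exp_pos _).le,
    ← ENNReal.ofReal_mul (by positivity), ← Real.exp_nat_mul, ← Real.exp_nat_mul, ← Real.exp_add]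
  apply ENNReal.ofReal_le_ofReal
  apply Real.exp_le_exp.2
  have h3 := exp_pow_le hA rfl hsm (Real.exp a - 1)
  have h4 := exp_pow_le hA' rfl hsm' (Real.exp b - 1)
  linarith

/-- Under `Near` all points have positive height. -/
theorem near_pos {κ s₀ B : ℝ} {ν ν' : Measure Pl} {m m' : ℕ} (h : Near κ s₀ B ν ν' m m')
    (hB : 0 ≤ B) : ∀ᵐ c ∂(iid ν ν' m m'), c.filt {p | 0 < p.2} = c := by
  classical
  obtain ⟨s, hs, -, -⟩ := h.flatX
  obtain ⟨s', hs', -, -⟩ := h.flatY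
  have := hs.prob
  have := hs'.prob
  have hm : MeasurableSet {x : Pl | 0 < x.2} := measurableSet_lt measurable_const measurable_snd
  filter_upwards [iid_forall ν ν' (flat_pos hs hB) (flat_pos hs' hB) hm hm m m'] with c hc
  apply Conf.ext
  · exact Multiset.filter_eq_self.2 hc.1
  · exact Multiset.filter_eq_self.2 hc.2

theorem near_prob {κ s₀ B : ℝ} {ν ν' : Measure Pl} {m m' : ℕ} (h : Near κ s₀ B ν ν' m m') :
    IsProbabilityMeasure (iid ν ν' m m') := by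
  obtain ⟨s, hs, -, -⟩ := h.flatX
  obtain ⟨s', hs', -, -⟩ := h.flatY
  have := hs.prob
  have := hs'.prob
  exact iid_prob ν ν' m m'

open Classical in
theorem lintegral_nX (ν ν' : Measure Pl) [IsProbabilityMeasure ν] [IsProbabilityMeasure ν']
    {R : Set Pl} (hR : MeasurableSet R) (m' : ℕ) : ∀ m : ℕ,
    ∫⁻ c, (c.nX R : ℝ≥0∞) ∂(iid ν ν' m m') = m * ν R := by
  have hmeas : Measurable fun c : Conf => (c.nX R : ℝ≥0∞) :=
    (measurable_from_top (f := fun n : ℕ => (n : ℝ≥0∞))).comp (measurable_nX hR)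
  intro m
  induction m with
  | zero =>
    have h0 : ∀ᵐ c ∂(iid ν ν' 0 m'), (c.nX R : ℝ≥0∞) = 0 := by
      filter_upwards [iid_card ν ν' 0 m'] with c hc
      have h1 : c.nX R ≤ c.X.card := Multiset.card_le_card (Multiset.filter_le _ _)
      rw [hc.1] at h1
      simp [Nat.le_zero.1 h1]
    rw [lintegral_congr_ae h0]
    simp
  | succ m ih =>
    rw [lintegral_iid_succX ν ν' hmeas]
    have := iid_prob ν ν' m m'
    have h1 : ∀ x, ∫⁻ c, ((c.consX x).nX R : ℝ≥0∞) ∂(iid ν ν' m m') =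
        m * ν R + R.indicator (fun _ => 1) x := by
      intro x
      rw [← ih]
      have h2 : ∀ c : Conf, ((c.consX x).nX R : ℝ≥0∞) =
          (c.nX R : ℝ≥0∞) + R.indicator (fun _ => 1) x := by
        intro c
        rw [nX_consX]
        by_cases hx : x ∈ R
        · simp [hx]
        · simp [hx]
      simp only [h2]
      rw [lintegral_add_right _ measurable_const, lintegral_const]
      simp
    simp only [h1]
    rw [lintegral_add_right _ (measurable_const.indicator hR), lintegral_const,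
      lintegral_indicator hR]
    simp
    ring

open Classical in
theorem lintegral_nY (ν ν' : Measure Pl) [IsProbabilityMeasure ν] [IsProbabilityMeasure ν']
    {R : Set Pl} (hR : MeasurableSet R) (m : ℕ) : ∀ m' : ℕ,
    ∫⁻ c, (c.nY R : ℝ≥0∞) ∂(iid ν ν' m m') = m' * ν' R := by
  have hmeas : Measurable fun c : Conf => (c.nY R : ℝ≥0∞) :=
    (measurable_from_top (f := fun n : ℕ => (n : ℝ≥0∞))).comp (measurable_nY hR)
  intro m'
  induction m' with
  | zero =>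
    have h0 : ∀ᵐ c ∂(iid ν ν' m 0), (c.nY R : ℝ≥0∞) = 0 := by
      filter_upwards [iid_card ν ν' m 0] with c hc
      have h1 : c.nY R ≤ c.Y.card := Multiset.card_le_card (Multiset.filter_le _ _)
      rw [hc.2] at h1
      simp [Nat.le_zero.1 h1]
    rw [lintegral_congr_ae h0]
    simp
  | succ m' ih =>
    rw [lintegral_iid_succY ν ν' hmeas]
    have := iid_prob ν ν' m m'
    have h1 : ∀ x, ∫⁻ c, ((c.consY x).nY R : ℝ≥0∞) ∂(iid ν ν' m m') =
        m' * ν' R + R.indicator (fun _ => 1) x := by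
      intro x
      rw [← ih]
      have h2 : ∀ c : Conf, ((c.consY x).nY R : ℝ≥0∞) =
          (c.nY R : ℝ≥0∞) + R.indicator (fun _ => 1) x := by
        intro c
        rw [nY_consY]
        by_cases hx : x ∈ R
        · simp [hx]
        · simp [hx]
      simp only [h2]
      rw [lintegral_add_right _ measurable_const, lintegral_const]
      simp
    simp only [h1]
    rw [lintegral_add_right _ (measurable_const.indicator hR), lintegral_const,
      lintegral_indicator hR]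
    simp
    ring

theorem mean_aux {l s κ B : ℝ} {ν : Measure Pl} {m : ℕ} (hs : Flat l s B ν)
    (hsm : |s * m - 1| ≤ κ) (hκ : κ ≤ 1) {R : Set Pl} (hR : MeasurableSet R)
    (hRB : ∀ p ∈ R, p.2 ≤ B) : (m : ℝ≥0∞) * ν R ≤ ENNReal.ofReal (2 * area l B R) := by
  rw [flat_mass hs hR hRB, ← ENNReal.ofReal_natCast, ← ENNReal.ofReal_mul (by positivity)]
  apply ENNReal.ofReal_le_ofReal
  have h1 := (abs_le.1 hsm).2
  have h2 := area_nonneg l B R
  have h3 : (m : ℝ) * (s * area l B R) = (s * m) * area l B R := by ring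
  rw [h3]
  exact mul_le_mul_of_nonneg_right (by linarith) h2

/-- mean of a count -/
theorem mean_count {κ s₀ B : ℝ} {ν ν' : Measure Pl} {m m' : ℕ} (h : Near κ s₀ B ν ν' m m')
    (hκ : κ ≤ 1) {R : Set Pl} (hR : MeasurableSet R) (hRB : ∀ p ∈ R, p.2 ≤ B) :
    ∫⁻ c, (c.nX R : ℝ≥0∞) ∂(iid ν ν' m m') ≤ ENNReal.ofReal (2 * area 0 B R) ∧
      ∫⁻ c, (c.nY R : ℝ≥0∞) ∂(iid ν ν' m m') ≤ ENNReal.ofReal (2 * area 2 B R) := by
  obtain ⟨s, hs, hsm, -⟩ := h.flatX
  obtain ⟨s', hs', hsm', -⟩ := h.flatY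
  have := hs.prob
  have := hs'.prob
  rw [lintegral_nX ν ν' hR m' m, lintegral_nY ν ν' hR m m']
  exact ⟨mean_aux hs hsm hκ hR hRB, mean_aux hs' hsm' hκ hR hRB⟩

/-- one side of the Chernoff bound -/
theorem chernoff_side {μ : Measure Conf} {F : Conf → ℕ} (hm : Measurable F)
    {A κ r δ a : ℝ} (ha : |a| = δ / 64) (hA0 : 0 ≤ A) (hA : A ≤ 8 * r) (hκ0 : 0 ≤ κ)
    (hκ : κ ≤ δ / 128) (hr : 0 ≤ r) (hδ : 0 < δ) (hδ1 : δ ≤ 1)
    (hexp : ∫⁻ c, ENNReal.ofReal (Real.exp (a * (F c : ℝ))) ∂μ ≤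
      ENNReal.ofReal (Real.exp (A * (Real.exp a - 1) + κ * (A * |Real.exp a - 1|)))) :
    μ {c | |a| * (δ * r / 2) ≤ a * ((F c : ℝ) - A)} ≤
      ENNReal.ofReal (Real.exp (-(δ ^ 2 / 256 * r))) := by
  have ha1 : |a| ≤ 1 := by rw [ha]; linarith
  have e1 : |Real.exp a - 1 - a| ≤ a ^ 2 := Real.abs_exp_sub_one_sub_id_le ha1
  have e2 : |Real.exp a - 1| ≤ 2 * |a| := Real.abs_exp_sub_one_le ha1
  have hmeas : Measurable (fun c : Conf => ENNReal.ofReal (Real.exp (a * (F c : ℝ)))) := by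
    have h : Measurable (fun q : ℕ => ENNReal.ofReal (Real.exp (a * (q : ℝ)))) :=
      Measurable.of_discrete
    exact h.comp hm
  have hset : {c | |a| * (δ * r / 2) ≤ a * ((F c : ℝ) - A)} =
      {c | ENNReal.ofReal (Real.exp (|a| * (δ * r / 2) + a * A)) ≤
        ENNReal.ofReal (Real.exp (a * (F c : ℝ)))} := by
    ext c
    show |a| * (δ * r / 2) ≤ a * ((F c : ℝ) - A) ↔
      ENNReal.ofReal (Real.exp (|a| * (δ * r / 2) + a * A)) ≤
        ENNReal.ofReal (Real.exp (a * (F c : ℝ)))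
    rw [ENNReal.ofReal_le_ofReal_iff (Real.exp_pos _).le, Real.exp_le_exp]
    constructor
    · intro h; linarith
    · intro h; linarith
  rw [hset]
  have hε : ENNReal.ofReal (Real.exp (|a| * (δ * r / 2) + a * A)) ≠ 0 := by
    rw [Ne, ENNReal.ofReal_eq_zero, not_le]
    exact Real.exp_pos _
  refine (meas_ge_le_lintegral_div hmeas.aemeasurable hε ENNReal.ofReal_ne_top).trans ?_
  refine (ENNReal.div_le_div_right hexp _).trans ?_
  rw [← ENNReal.ofReal_div_of_pos (Real.exp_pos _), ← Real.exp_sub]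
  refine ENNReal.ofReal_le_ofReal (Real.exp_le_exp.2 ?_)
  have h1 : A * (Real.exp a - 1 - a) ≤ 8 * r * a ^ 2 := by
    calc A * (Real.exp a - 1 - a) ≤ A * a ^ 2 :=
          mul_le_mul_of_nonneg_left ((le_abs_self _).trans e1) hA0
      _ ≤ 8 * r * a ^ 2 := mul_le_mul_of_nonneg_right hA (sq_nonneg a)
  have h2 : κ * (A * |Real.exp a - 1|) ≤ δ / 128 * (8 * r * (2 * |a|)) := by
    refine mul_le_mul hκ ?_ (mul_nonneg hA0 (abs_nonneg _)) (by positivity)
    exact mul_le_mul hA e2 (abs_nonneg _) (by positivity)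
  have h3 : a ^ 2 = |a| ^ 2 := (sq_abs a).symm
  rw [h3, ha] at h1
  rw [ha] at h2 ⊢
  have h4 : A * (Real.exp a - 1) = A * (Real.exp a - 1 - a) + a * A := by ring
  rw [h4]
  nlinarith [h1, h2]

/-- two sided Chernoff bound -/
theorem chernoff {μ : Measure Conf} {F : Conf → ℕ} (hm : Measurable F)
    {A κ r δ : ℝ} (hA0 : 0 ≤ A) (hA : A ≤ 8 * r) (hκ0 : 0 ≤ κ)
    (hκ : κ ≤ δ / 128) (hr : 0 ≤ r) (hδ : 0 < δ) (hδ1 : δ ≤ 1)
    (hexp : ∀ a : ℝ, ∫⁻ c, ENNReal.ofReal (Real.exp (a * (F c : ℝ))) ∂μ ≤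
      ENNReal.ofReal (Real.exp (A * (Real.exp a - 1) + κ * (A * |Real.exp a - 1|)))) :
    μ {c | ¬ |(F c : ℝ) - A| ≤ δ * r / 2} ≤
      ENNReal.ofReal (2 * Real.exp (-(δ ^ 2 / 256 * r))) := by
  have h1 := chernoff_side hm (a := δ / 64) (abs_of_pos (by positivity)) hA0 hA hκ0 hκ hr hδ hδ1
    (hexp _)
  have h2 := chernoff_side hm (a := -(δ / 64)) (by rw [abs_neg, abs_of_pos (by positivity)]) hA0
    hA hκ0 hκ hr hδ hδ1 (hexp _)
  have hsub : {c | ¬ |(F c : ℝ) - A| ≤ δ * r / 2} ⊆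
      {c | |δ / 64| * (δ * r / 2) ≤ δ / 64 * ((F c : ℝ) - A)} ∪
      {c | |-(δ / 64)| * (δ * r / 2) ≤ -(δ / 64) * ((F c : ℝ) - A)} := by
    intro c hc
    have hc' : δ * r / 2 < |(F c : ℝ) - A| := not_le.1 hc
    have hl : 0 < δ / 64 := by positivity
    rcases lt_abs.1 hc' with h | h
    · left
      show |δ / 64| * (δ * r / 2) ≤ δ / 64 * ((F c : ℝ) - A)
      rw [abs_of_pos hl]
      exact mul_le_mul_of_nonneg_left h.le hl.le
    · right
      show |-(δ / 64)| * (δ * r / 2) ≤ -(δ / 64) * ((F c : ℝ) - A)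
      rw [abs_neg, abs_of_pos hl]
      have := mul_le_mul_of_nonneg_left h.le hl.le
      linarith
  calc μ {c | ¬ |(F c : ℝ) - A| ≤ δ * r / 2} ≤ _ := measure_mono hsub
    _ ≤ _ := measure_union_le _ _
    _ ≤ ENNReal.ofReal (Real.exp (-(δ ^ 2 / 256 * r))) +
        ENNReal.ofReal (Real.exp (-(δ ^ 2 / 256 * r))) := add_le_add h1 h2
    _ = ENNReal.ofReal (2 * Real.exp (-(δ ^ 2 / 256 * r))) := by
        rw [← ENNReal.ofReal_add (Real.exp_pos _).le (Real.exp_pos _).le, two_mul]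

theorem area_box {l B u h : ℝ} (hu : l ≤ u) (hu1 : u ≤ l + 1) (h0 : 0 ≤ h) (hB : h ≤ B) :
    area l B {p | u ≤ p.1 ∧ 0 < p.2 ∧ p.2 ≤ h} = (l + 1 - u) * h := by
  unfold area
  have h1 : {p : Pl | u ≤ p.1 ∧ 0 < p.2 ∧ p.2 ≤ h} ∩
      (Set.Icc l (l + 1) ×ˢ Set.Ioc (0 : ℝ) B) = Set.Icc u (l + 1) ×ˢ Set.Ioc (0 : ℝ) h := by
    ext p
    constructor
    · rintro ⟨⟨h1, h2, h3⟩, ⟨h4, h5⟩, h6, h7⟩
      exact ⟨⟨h1, h5⟩, h2, h3⟩
    · rintro ⟨⟨h1, h2⟩, h3, h4⟩
      exact ⟨⟨h1, h3, h4⟩, ⟨hu.trans h1, h2⟩, h3, h4.trans hB⟩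
  rw [h1, Measure.volume_eq_prod, Measure.prod_prod, Real.volume_Icc, Real.volume_Ioc,
    ← ENNReal.ofReal_mul (by linarith), ENNReal.toReal_ofReal (mul_nonneg (by linarith)
      (by linarith)), sub_zero]

theorem area_strip {l B h : ℝ} (h0 : 0 ≤ h) (hB : h ≤ B) :
    area l B {p | 0 < p.2 ∧ p.2 ≤ h} = h := by
  have h2 : area l B {p | 0 < p.2 ∧ p.2 ≤ h} = area l B {p | l ≤ p.1 ∧ 0 < p.2 ∧ p.2 ≤ h} := by
    unfold area
    congr 2
    ext p
    constructor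
    · rintro ⟨⟨h1, h2⟩, h3⟩
      exact ⟨⟨h3.1.1, h1, h2⟩, h3⟩
    · rintro ⟨⟨h1, h2, h4⟩, h3⟩
      exact ⟨⟨h2, h4⟩, h3⟩
  rw [h2, area_box le_rfl (by linarith) h0 hB]
  ring

theorem near_kappa {κ s₀ B : ℝ} {ν ν' : Measure Pl} {m m' : ℕ} (h : Near κ s₀ B ν ν' m m') :
    0 ≤ κ := by
  obtain ⟨s, _, h1, _⟩ := h.flatX
  exact (abs_nonneg _).trans h1

/-- Chernoff bound for a count of `X` points -/
theorem tail_nX {κ s₀ B : ℝ} {ν ν' : Measure Pl} {m m' : ℕ} (h : Near κ s₀ B ν ν' m m')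
    {R : Set Pl} (hR : MeasurableSet R) (hRB : ∀ p ∈ R, p.2 ≤ B) {r δ A : ℝ}
    (hAR : area 0 B R = A) (hA0 : 0 ≤ A)
    (hA : A ≤ 8 * r) (hκ : κ ≤ δ / 128) (hr : 0 ≤ r) (hδ : 0 < δ) (hδ1 : δ ≤ 1) :
    iid ν ν' m m' {c | ¬ |(c.nX R : ℝ) - A| ≤ δ * r / 2} ≤
      ENNReal.ofReal (2 * Real.exp (-(δ ^ 2 / 256 * r))) := by
  refine chernoff (measurable_nX hR) hA0 hA (near_kappa h) hκ hr hδ hδ1 fun a => ?_
  have h1 := exp_moment h (near_kappa h) hR (MeasurableSet.empty : MeasurableSet (∅ : Set Pl)) hRB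
    (fun p hp => absurd hp (Set.notMem_empty p)) a 0
  simp only [zero_mul, add_zero, Real.exp_zero, sub_self, mul_zero, abs_zero] at h1
  rw [hAR] at h1
  exact h1

/-- Chernoff bound for a count of `Y` points -/
theorem tail_nY {κ s₀ B : ℝ} {ν ν' : Measure Pl} {m m' : ℕ} (h : Near κ s₀ B ν ν' m m')
    {R : Set Pl} (hR : MeasurableSet R) (hRB : ∀ p ∈ R, p.2 ≤ B) {r δ A : ℝ}
    (hAR : area 2 B R = A) (hA0 : 0 ≤ A)
    (hA : A ≤ 8 * r) (hκ : κ ≤ δ / 128) (hr : 0 ≤ r) (hδ : 0 < δ) (hδ1 : δ ≤ 1) :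
    iid ν ν' m m' {c | ¬ |(c.nY R : ℝ) - A| ≤ δ * r / 2} ≤
      ENNReal.ofReal (2 * Real.exp (-(δ ^ 2 / 256 * r))) := by
  refine chernoff (measurable_nY hR) hA0 hA (near_kappa h) hκ hr hδ hδ1 fun a => ?_
  have h1 := exp_moment h (near_kappa h) (MeasurableSet.empty : MeasurableSet (∅ : Set Pl)) hR
    (fun p hp => absurd hp (Set.notMem_empty p)) hRB 0 a
  simp only [zero_mul, zero_add, Real.exp_zero, sub_self, mul_zero, abs_zero] at h1
  rw [hAR] at h1
  exact h1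

open Classical in
/-- the configuration is regular at scale `r` up to an exponentially small probability -/
theorem regUp_tail {N : ℕ} {τ δ : ℝ} (hN : 0 < N) (hτ : 0 < τ) (hτ1 : τ ≤ 1) (hδ : 0 < δ)
    (hδ1 : δ ≤ 1) : ∃ C a κ₀ : ℝ, 0 < C ∧ 0 < a ∧ 0 < κ₀ ∧ ∀ (κ s₀ B r : ℝ) (ν ν' : Measure Pl)
      (m m' : ℕ), κ ≤ κ₀ → 1 ≤ r → 8 * r ≤ B → Near κ s₀ B ν ν' m m' →
      iid ν ν' m m' {c | ¬ RegUp N τ δ r c} ≤ ENNReal.ofReal (C * Real.exp (-(a * r))) := by
  refine ⟨((N + 1 : ℕ) : ℝ) * 6, δ ^ 2 / 256, δ / 128, by positivity, by positivity,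
    by positivity, ?_⟩
  intro κ s₀ B r ν ν' m m' hκ hr hB h
  have hr0 : 0 ≤ r := by linarith
  have hN' : (0 : ℝ) < N := by exact_mod_cast hN
  let S1 : ℕ → Set Conf := fun j => {c | ¬ |(c.nX {p | 0 < p.2 ∧ p.2 ≤ 8 * r * j / N} : ℝ)
    - 8 * r * j / N| ≤ δ * r / 2}
  let S2 : ℕ → Set Conf := fun j => {c | ¬ |(c.nX {p | 1 - τ ≤ p.1 ∧ 0 < p.2 ∧
    p.2 ≤ 8 * r * j / N} : ℝ) - τ * (8 * r * j / N)| ≤ δ * r / 2}
  let S3 : ℕ → Set Conf := fun j => {c | ¬ |(c.nY {p | 0 < p.2 ∧ p.2 ≤ 8 * r * j / N} : ℝ)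
    - 8 * r * j / N| ≤ δ * r / 2}
  have hsub : {c | ¬ RegUp N τ δ r c} ⊆ ⋃ j ∈ Finset.range (N + 1), (S1 j ∪ (S2 j ∪ S3 j)) := by
    intro c hc
    have hc' : ¬ ∀ j ≤ N, |(c.nX {p | 0 < p.2 ∧ p.2 ≤ 8 * r * j / N} : ℝ) - 8 * r * j / N|
        ≤ δ * r / 2 ∧
      |(c.nX {p | 1 - τ ≤ p.1 ∧ 0 < p.2 ∧ p.2 ≤ 8 * r * j / N} : ℝ) - τ * (8 * r * j / N)|
        ≤ δ * r / 2 ∧
      |(c.nY {p | 0 < p.2 ∧ p.2 ≤ 8 * r * j / N} : ℝ) - 8 * r * j / N| ≤ δ * r / 2 := hc
    push Not at hc'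
    obtain ⟨j, hj, hj2⟩ := hc'
    rw [Set.mem_iUnion₂]
    refine ⟨j, Finset.mem_range.2 (by omega), ?_⟩
    by_cases h1 : |(c.nX {p | 0 < p.2 ∧ p.2 ≤ 8 * r * j / N} : ℝ) - 8 * r * j / N| ≤ δ * r / 2
    · by_cases h2 : |(c.nX {p | 1 - τ ≤ p.1 ∧ 0 < p.2 ∧ p.2 ≤ 8 * r * j / N} : ℝ)
          - τ * (8 * r * j / N)| ≤ δ * r / 2
      · right; right
        exact not_le.2 (hj2 h1 h2)
      · right; left; exact h2
    · left; exact h1
  have hb : ∀ j ∈ Finset.range (N + 1), iid ν ν' m m' (S1 j ∪ (S2 j ∪ S3 j)) ≤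
      ENNReal.ofReal (6 * Real.exp (-(δ ^ 2 / 256 * r))) := by
    intro j hj
    have hjN : (j : ℝ) ≤ N := by
      have := Finset.mem_range.1 hj
      exact_mod_cast (by omega : j ≤ N)
    have hh0 : 0 ≤ 8 * r * j / N := by positivity
    have hh8 : 8 * r * j / N ≤ 8 * r := by
      rw [div_le_iff₀ hN']
      exact mul_le_mul_of_nonneg_left hjN (by positivity)
    have hhB : 8 * r * j / N ≤ B := hh8.trans hB
    have b1 : iid ν ν' m m' (S1 j) ≤ ENNReal.ofReal (2 * Real.exp (-(δ ^ 2 / 256 * r))) :=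
      tail_nX h (measurableSet_slab _ _) (fun p hp => hp.2.trans hhB) (area_strip hh0 hhB) hh0
        hh8 hκ hr0 hδ hδ1
    have b2 : iid ν ν' m m' (S2 j) ≤ ENNReal.ofReal (2 * Real.exp (-(δ ^ 2 / 256 * r))) := by
      refine tail_nX h ((measurableSet_right _).inter (measurableSet_slab _ _))
        (fun p hp => hp.2.2.trans hhB) ?_ (by positivity) ?_ hκ hr0 hδ hδ1
      · refine (area_box (by linarith) (by linarith) hh0 hhB).trans ?_
        ring
      · calc τ * (8 * r * j / N) ≤ 1 * (8 * r * j / N) := mul_le_mul_of_nonneg_right hτ1 hh0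
          _ ≤ 8 * r := by linarith
    have b3 : iid ν ν' m m' (S3 j) ≤ ENNReal.ofReal (2 * Real.exp (-(δ ^ 2 / 256 * r))) :=
      tail_nY h (measurableSet_slab _ _) (fun p hp => hp.2.trans hhB) (area_strip hh0 hhB) hh0
        hh8 hκ hr0 hδ hδ1
    have he : 0 ≤ 2 * Real.exp (-(δ ^ 2 / 256 * r)) := by positivity
    calc iid ν ν' m m' (S1 j ∪ (S2 j ∪ S3 j)) ≤ _ := measure_union_le _ _
      _ ≤ iid ν ν' m m' (S1 j) + (iid ν ν' m m' (S2 j) + iid ν ν' m m' (S3 j)) :=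
          add_le_add le_rfl (measure_union_le _ _)
      _ ≤ _ := add_le_add b1 (add_le_add b2 b3)
      _ = ENNReal.ofReal (6 * Real.exp (-(δ ^ 2 / 256 * r))) := by
          rw [← ENNReal.ofReal_add he he, ← ENNReal.ofReal_add he (by positivity)]
          congr 1
          ring
  calc iid ν ν' m m' {c | ¬ RegUp N τ δ r c} ≤ _ := measure_mono hsub
    _ ≤ ∑ j ∈ Finset.range (N + 1), iid ν ν' m m' (S1 j ∪ (S2 j ∪ S3 j)) :=
        measure_biUnion_finset_le _ _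
    _ ≤ ∑ _j ∈ Finset.range (N + 1), ENNReal.ofReal (6 * Real.exp (-(δ ^ 2 / 256 * r))) :=
        Finset.sum_le_sum hb
    _ = ENNReal.ofReal (((N + 1 : ℕ) : ℝ) * 6 * Real.exp (-(δ ^ 2 / 256 * r))) := by
        rw [Finset.sum_const, Finset.card_range, nsmul_eq_mul, mul_assoc,
          ENNReal.ofReal_mul (p := ((N + 1 : ℕ) : ℝ)) (by positivity), ENNReal.ofReal_natCast]

/-! #### auxiliary lemmas of `step_moment` and `step_count` -/

theorem lam_le_of_le {ℓ : ℕ × ℕ} {B : ℝ} (h1 : (ℓ.1 : ℝ) ≤ B) (h2 : (ℓ.2 : ℝ) ≤ B) (x : ℝ) :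
    lam ℓ x ≤ B := by
  have hw0 := wt_nonneg x
  have hw1 := wt_le_one x
  unfold lam
  nlinarith

theorem area_below {l B : ℝ} (hl0 : 0 ≤ l) (hl2 : l ≤ 2) {ℓ : ℕ × ℕ} (h1 : (ℓ.1 : ℝ) ≤ B)
    (h2 : (ℓ.2 : ℝ) ≤ B) :
    area l B (below ℓ) = ℓ.1 * (1 - (2 * l + 1) / 6) + ℓ.2 * ((2 * l + 1) / 6) := by
  unfold area
  have hSm : MeasurableSet (below ℓ ∩ (Set.Icc l (l + 1) ×ˢ Set.Ioc (0 : ℝ) B)) :=
    (measurableSet_below ℓ).inter (measurableSet_Icc.prod measurableSet_Ioc)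
  rw [Measure.volume_eq_prod, Measure.prod_apply hSm]
  have hfib : ∀ x : ℝ, volume (Prod.mk x ⁻¹' (below ℓ ∩ (Set.Icc l (l + 1) ×ˢ Set.Ioc (0 : ℝ) B)))
      = (Set.Icc l (l + 1)).indicator (fun x => ENNReal.ofReal (lam ℓ x)) x := by
    intro x
    by_cases hx : x ∈ Set.Icc l (l + 1)
    · rw [Set.indicator_of_mem hx]
      have : Prod.mk x ⁻¹' (below ℓ ∩ (Set.Icc l (l + 1) ×ˢ Set.Ioc (0 : ℝ) B)) =
          Set.Ioc 0 (lam ℓ x) := by
        ext y
        simp only [Set.mem_preimage, Set.mem_inter_iff, Set.mem_prod, Set.mem_Ioc]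
        constructor
        · rintro ⟨ha, _, hb, _⟩
          exact ⟨hb, ha⟩
        · rintro ⟨ha, hb⟩
          exact ⟨hb, hx, ha, le_trans hb (lam_le_of_le h1 h2 x)⟩
      rw [this, Real.volume_Ioc, sub_zero]
    · rw [Set.indicator_of_notMem hx]
      have : Prod.mk x ⁻¹' (below ℓ ∩ (Set.Icc l (l + 1) ×ˢ Set.Ioc (0 : ℝ) B)) = ∅ := by
        ext y
        simp only [Set.mem_preimage, Set.mem_inter_iff, Set.mem_prod, Set.mem_empty_iff_false,
          iff_false, not_and]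
        intro _ h
        exact absurd h hx
      rw [this, measure_empty]
  simp_rw [hfib]
  rw [lintegral_indicator measurableSet_Icc]
  have hlin : ∀ x ∈ Set.Icc l (l + 1), lam ℓ x = ℓ.1 * (1 - x / 3) + ℓ.2 * (x / 3) := by
    intro x hx
    unfold lam
    rw [wt_eq (le_trans hl0 hx.1) (by linarith [hx.2])]
  rw [setLIntegral_congr_fun measurableSet_Icc (fun x hx => by simp only [hlin x hx] :
    Set.EqOn (fun x => ENNReal.ofReal (lam ℓ x))
      (fun x => ENNReal.ofReal (ℓ.1 * (1 - x / 3) + ℓ.2 * (x / 3))) (Set.Icc l (l + 1)))]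
  have hcont : Continuous (fun x : ℝ => (ℓ.1 : ℝ) * (1 - x / 3) + ℓ.2 * (x / 3)) := by fun_prop
  rw [← ofReal_integral_eq_lintegral_ofReal (hcont.integrableOn_Icc)]
  · have hval : ∫ x in Set.Icc l (l + 1), ((ℓ.1 : ℝ) * (1 - x / 3) + ℓ.2 * (x / 3)) =
        ℓ.1 * (1 - (2 * l + 1) / 6) + ℓ.2 * ((2 * l + 1) / 6) := by
      rw [integral_Icc_eq_integral_Ioc, ← intervalIntegral.integral_of_le (by linarith)]
      have hd : ∀ x : ℝ, HasDerivAt (fun x : ℝ => (ℓ.1 : ℝ) * (x - x ^ 2 / 6) + ℓ.2 * (x ^ 2 / 6))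
          ((ℓ.1 : ℝ) * (1 - x / 3) + ℓ.2 * (x / 3)) x := by
        intro x
        have h := (((hasDerivAt_id x).sub ((hasDerivAt_pow 2 x).div_const 6)).const_mul
          (ℓ.1 : ℝ)).add (((hasDerivAt_pow 2 x).div_const 6).const_mul (ℓ.2 : ℝ))
        refine h.congr_deriv ?_
        push_cast
        ring
      rw [intervalIntegral.integral_eq_sub_of_hasDerivAt (fun x _ => hd x)
        (hcont.intervalIntegrable _ _)]
      ring
    rw [hval, ENNReal.toReal_ofReal]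
    have e1 : (0 : ℝ) ≤ ℓ.1 := Nat.cast_nonneg _
    have e2 : (0 : ℝ) ≤ ℓ.2 := Nat.cast_nonneg _
    have e3 : 0 ≤ 1 - (2 * l + 1) / 6 := by linarith
    have e4 : 0 ≤ (2 * l + 1) / 6 := by linarith
    positivity
  · refine (ae_restrict_iff' measurableSet_Icc).2 (Filter.Eventually.of_forall fun x hx => ?_)
    have h := hlin x hx
    show (0 : ℝ) ≤ (ℓ.1 : ℝ) * (1 - x / 3) + ℓ.2 * (x / 3)
    rw [← h]
    exact lam_nonneg ℓ x

theorem measurable_expc {RX RY : Set Pl} (hRX : MeasurableSet RX) (hRY : MeasurableSet RY)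
    (d a b : ℝ) :
    Measurable (fun c : Conf =>
      ENNReal.ofReal (Real.exp (d + (a * (c.nX RX : ℝ) + b * (c.nY RY : ℝ))))) := by
  have h1 : Measurable (fun c : Conf => (c.nX RX : ℝ)) :=
    measurable_from_nat.comp (measurable_nX hRX)
  have h2 : Measurable (fun c : Conf => (c.nY RY : ℝ)) :=
    measurable_from_nat.comp (measurable_nY hRY)
  exact (Real.measurable_exp.comp
    (((h1.const_mul a).add (h2.const_mul b)).const_add d)).ennreal_ofReal

theorem exp_moment_shift {κ s₀ B : ℝ} {ν ν' : Measure Pl} {m m' : ℕ} (h : Near κ s₀ B ν ν' m m')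
    (hκ : 0 ≤ κ) {RX RY : Set Pl} (hRX : MeasurableSet RX) (hRY : MeasurableSet RY)
    (hRXB : ∀ p ∈ RX, p.2 ≤ B) (hRYB : ∀ p ∈ RY, p.2 ≤ B) (d a b e : ℝ)
    (he : d + (area 0 B RX * (Real.exp a - 1) + area 2 B RY * (Real.exp b - 1)
        + κ * (area 0 B RX * |Real.exp a - 1| + area 2 B RY * |Real.exp b - 1|)) ≤ e) :
    ∫⁻ c, ENNReal.ofReal (Real.exp (d + (a * (c.nX RX : ℝ) + b * (c.nY RY : ℝ))))
      ∂(iid ν ν' m m') ≤ ENNReal.ofReal (Real.exp e) := by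
  have h1 : ∀ c : Conf, ENNReal.ofReal (Real.exp (d + (a * (c.nX RX : ℝ) + b * (c.nY RY : ℝ)))) =
      ENNReal.ofReal (Real.exp d) *
        ENNReal.ofReal (Real.exp (0 + (a * (c.nX RX : ℝ) + b * (c.nY RY : ℝ)))) := by
    intro c
    rw [← ENNReal.ofReal_mul (Real.exp_pos _).le, ← Real.exp_add, zero_add]
  simp_rw [h1]
  rw [lintegral_const_mul _ (measurable_expc hRX hRY 0 a b)]
  simp_rw [zero_add]
  refine le_trans (mul_le_mul_right (exp_moment h hκ hRX hRY hRXB hRYB a b) _) ?_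
  rw [← ENNReal.ofReal_mul (Real.exp_pos _).le, ← Real.exp_add]
  exact ENNReal.ofReal_le_ofReal (Real.exp_le_exp.2 he)

/-- numerical bounds for `exp (1/100)` -/
theorem exp_hundredth : (1 : ℝ) / 100 ≤ Real.exp (1 / 100) - 1 ∧
    Real.exp (1 / 100) - 1 ≤ 101 / 10000 ∧ -(1 : ℝ) / 100 ≤ Real.exp (-(1 / 100)) - 1 ∧
    Real.exp (-(1 / 100)) - 1 ≤ -(99 : ℝ) / 10000 := by
  have h1 := Real.add_one_le_exp ((1 : ℝ) / 100)
  have h2 := Real.add_one_le_exp (-((1 : ℝ) / 100))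
  have h3 := abs_le.1 (Real.abs_exp_sub_one_sub_id_le (x := (1 : ℝ) / 100)
    (by rw [abs_of_pos] <;> norm_num))
  have h4 := abs_le.1 (Real.abs_exp_sub_one_sub_id_le (x := -((1 : ℝ) / 100))
    (by rw [abs_neg, abs_of_pos] <;> norm_num))
  have h5 := h3.2
  have h6 := h4.2
  norm_num at h1 h2 h5 h6 ⊢
  refine ⟨by linarith, by linarith, by linarith, by linarith⟩

theorem step_num1 {t κ : ℝ} (ht : 0 ≤ t) (hκ : κ ≤ 1 / 100) :
    1 / 100 * t + ((1 + t / 6) * (Real.exp (1 / 100) - 1) +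
      (1 + 5 * t / 6) * (Real.exp (-(1 / 100)) - 1) +
      κ * ((1 + t / 6) * |Real.exp (1 / 100) - 1| +
        (1 + 5 * t / 6) * |Real.exp (-(1 / 100)) - 1|)) ≤ 1 / 100 * t / 2 + 1 := by
  obtain ⟨h1, h2, h3, h4⟩ := exp_hundredth
  set p := Real.exp (1 / 100) - 1
  set q := Real.exp (-(1 / 100)) - 1
  rw [abs_of_nonneg (by linarith : 0 ≤ p), abs_of_nonpos (by linarith : q ≤ 0)]
  have e1 : (1 + t / 6) * p ≤ (1 + t / 6) * (101 / 10000) :=
    mul_le_mul_of_nonneg_left h2 (by positivity)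
  have e2 : (1 + 5 * t / 6) * q ≤ (1 + 5 * t / 6) * (-(99 : ℝ) / 10000) :=
    mul_le_mul_of_nonneg_left h4 (by positivity)
  have e3 : (1 + 5 * t / 6) * -q ≤ (1 + 5 * t / 6) * (1 / 100) :=
    mul_le_mul_of_nonneg_left (by linarith) (by positivity)
  have e0 : 0 ≤ (1 + t / 6) * p + (1 + 5 * t / 6) * -q :=
    add_nonneg (mul_nonneg (by positivity) (by linarith)) (mul_nonneg (by positivity) (by linarith))
  have e4 : κ * ((1 + t / 6) * p + (1 + 5 * t / 6) * -q) ≤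
      1 / 100 * ((1 + t / 6) * p + (1 + 5 * t / 6) * -q) :=
    mul_le_mul_of_nonneg_right hκ e0
  nlinarith

theorem step_num2 {t κ : ℝ} (ht : 0 ≤ t) (hκ : κ ≤ 1 / 100) :
    -(1 / 100 * t) + ((1 + t / 6) * (Real.exp (-(1 / 100)) - 1) +
      (1 + 5 * t / 6) * (Real.exp (1 / 100) - 1) +
      κ * ((1 + t / 6) * |Real.exp (-(1 / 100)) - 1| +
        (1 + 5 * t / 6) * |Real.exp (1 / 100) - 1|)) ≤ 1 := by
  obtain ⟨h1, h2, h3, h4⟩ := exp_hundredth
  set p := Real.exp (1 / 100) - 1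
  set q := Real.exp (-(1 / 100)) - 1
  rw [abs_of_nonneg (by linarith : 0 ≤ p), abs_of_nonpos (by linarith : q ≤ 0)]
  have e1 : (1 + 5 * t / 6) * p ≤ (1 + 5 * t / 6) * (101 / 10000) :=
    mul_le_mul_of_nonneg_left h2 (by positivity)
  have e2 : (1 + t / 6) * q ≤ (1 + t / 6) * (-(99 : ℝ) / 10000) :=
    mul_le_mul_of_nonneg_left h4 (by positivity)
  have e3 : (1 + t / 6) * -q ≤ (1 + t / 6) * (1 / 100) :=
    mul_le_mul_of_nonneg_left (by linarith) (by positivity)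
  have e0 : 0 ≤ (1 + t / 6) * -q + (1 + 5 * t / 6) * p :=
    add_nonneg (mul_nonneg (by positivity) (by linarith)) (mul_nonneg (by positivity) (by linarith))
  have e4 : κ * ((1 + t / 6) * -q + (1 + 5 * t / 6) * p) ≤
      1 / 100 * ((1 + t / 6) * -q + (1 + 5 * t / 6) * p) :=
    mul_le_mul_of_nonneg_right hκ e0
  nlinarith

theorem exp_half_le (y : ℝ) : Real.exp (y / 2 + 1) + Real.exp 1 ≤
    Real.exp y / 2 + (Real.exp 1 ^ 2 / 2 + Real.exp 1) := by
  have h1 : Real.exp y = Real.exp (y / 2) ^ 2 := by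
    rw [← Real.exp_nat_mul]
    congr 1
    push_cast
    ring
  rw [Real.exp_add, h1]
  nlinarith [sq_nonneg (Real.exp (y / 2) - Real.exp 1)]

theorem exp_abs_le (x : ℝ) : Real.exp |x| ≤ Real.exp x + Real.exp (-x) := by
  rcases abs_cases x with ⟨h, _⟩ | ⟨h, _⟩ <;> rw [h]
  · linarith [Real.exp_pos (-x)]
  · linarith [Real.exp_pos x]

theorem nextL_le {i : ℤ} {B : ℝ} (h : 1 + |(i : ℝ)| ≤ B) :
    (((nextL (0, 0) i).1 : ℕ) : ℝ) ≤ B ∧ (((nextL (0, 0) i).2 : ℕ) : ℝ) ≤ B := by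
  have hi0 := abs_nonneg (i : ℝ)
  rcases le_total 0 i with hi | hi
  · obtain ⟨n, rfl⟩ := Int.eq_ofNat_of_zero_le hi
    have e : |(((n : ℤ)) : ℝ)| = n := by
      rw [Int.cast_natCast, abs_of_nonneg (Nat.cast_nonneg n)]
    rw [e] at h
    have : (0 : ℝ) ≤ n := Nat.cast_nonneg n
    constructor
    · simp only [nextL, zero_add]
      rw [Int.toNat_of_nonpos (by omega)]
      push_cast
      linarith
    · simp only [nextL, zero_add, Int.toNat_natCast]
      push_cast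
      linarith
  · obtain ⟨n, hn⟩ := Int.eq_ofNat_of_zero_le (by omega : 0 ≤ -i)
    obtain rfl : i = -(n : ℤ) := by omega
    have e : |((-(n : ℤ) : ℤ) : ℝ)| = n := by
      rw [Int.cast_neg, Int.cast_natCast, abs_neg, abs_of_nonneg (Nat.cast_nonneg n)]
    rw [e] at h
    have : (0 : ℝ) ≤ n := Nat.cast_nonneg n
    constructor
    · simp only [nextL, zero_add, neg_neg, Int.toNat_natCast]
      push_cast
      linarith
    · simp only [nextL, zero_add]
      rw [Int.toNat_of_nonpos (by omega)]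
      push_cast
      linarith

/-- one step of the imbalance chain contracts -/
theorem step_moment : ∃ lam₀ C κ₀ : ℝ, 0 < lam₀ ∧ lam₀ ≤ 1 ∧ 1 ≤ C ∧ 0 < κ₀ ∧
    ∀ (κ s₀ B : ℝ) (ν ν' : Measure Pl) (m m' : ℕ) (i : ℤ), 0 ≤ κ → κ ≤ κ₀ → 2 + |(i : ℝ)| ≤ B →
      Near κ s₀ B ν ν' m m' →
      ∫⁻ c, ENNReal.ofReal (Real.exp (lam₀ * |((i + imb c (nextL (0, 0) i) : ℤ) : ℝ)|))
        ∂(iid ν ν' m m') ≤ ENNReal.ofReal (Real.exp (lam₀ * |(i : ℝ)|) / 2 + C) := by
  refine ⟨1 / 100, Real.exp 1 ^ 2 / 2 + Real.exp 1, 1 / 100, by norm_num, by norm_num, ?_,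
    by norm_num, ?_⟩
  · have := Real.add_one_le_exp (1 : ℝ)
    nlinarith [sq_nonneg (Real.exp 1)]
  intro κ s₀ B ν ν' m m' i hκ0 hκ hB hN
  obtain ⟨hb1, hb2⟩ := nextL_le (i := i) (B := B) (by linarith)
  set ℓ := nextL (0, 0) i with hℓ
  have hm := measurableSet_below ℓ
  have hbel : ∀ p ∈ below ℓ, p.2 ≤ B := fun p hp => le_trans hp (lam_le_of_le hb1 hb2 p.1)
  have hA0 := area_below (l := 0) (B := B) (by norm_num) (by norm_num) hb1 hb2
  have hA2 := area_below (l := 2) (B := B) (by norm_num) (by norm_num) hb1 hb2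
  have hpt : ∀ c : Conf,
      ENNReal.ofReal (Real.exp (1 / 100 * |((i + imb c ℓ : ℤ) : ℝ)|)) ≤
      ENNReal.ofReal (Real.exp (1 / 100 * i +
        (1 / 100 * (c.nX (below ℓ) : ℝ) + -(1 / 100) * (c.nY (below ℓ) : ℝ)))) +
      ENNReal.ofReal (Real.exp (-(1 / 100 * i) +
        (-(1 / 100) * (c.nX (below ℓ) : ℝ) + 1 / 100 * (c.nY (below ℓ) : ℝ)))) := by
    intro c
    rw [← ENNReal.ofReal_add (Real.exp_pos _).le (Real.exp_pos _).le]
    refine ENNReal.ofReal_le_ofReal ?_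
    have h1 := exp_abs_le (1 / 100 * ((i + imb c ℓ : ℤ) : ℝ))
    rw [abs_mul, abs_of_pos (by norm_num : (0 : ℝ) < 1 / 100)] at h1
    refine le_trans h1 (le_of_eq ?_)
    unfold imb
    push_cast
    congr 2 <;> ring
  refine le_trans (lintegral_mono hpt) ?_
  rw [lintegral_add_left (measurable_expc hm hm _ _ _)]
  have hfin : ∀ t : ℝ, 0 ≤ t → |(i : ℝ)| = t →
      ENNReal.ofReal (Real.exp (1 / 100 * t / 2 + 1)) + ENNReal.ofReal (Real.exp 1) ≤
      ENNReal.ofReal (Real.exp (1 / 100 * |(i : ℝ)|) / 2 + (Real.exp 1 ^ 2 / 2 + Real.exp 1)) := by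
    intro t ht hti
    rw [← ENNReal.ofReal_add (Real.exp_pos _).le (Real.exp_pos _).le, hti]
    exact ENNReal.ofReal_le_ofReal (exp_half_le _)
  rcases le_total 0 i with hi | hi
  · obtain ⟨n, hn⟩ := Int.eq_ofNat_of_zero_le hi
    have hn' : (0 : ℝ) ≤ n := Nat.cast_nonneg n
    have hin : (i : ℝ) = n := by rw [hn, Int.cast_natCast]
    have e1 : (ℓ.1 : ℝ) = 1 := by
      rw [hℓ]
      simp only [nextL, zero_add]
      rw [Int.toNat_of_nonpos (by omega)]
      simp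
    have e2 : (ℓ.2 : ℝ) = 1 + n := by
      rw [hℓ]
      simp only [nextL, zero_add, hn, Int.toNat_natCast]
      push_cast
      ring
    have a0 : area 0 B (below ℓ) = 1 + n / 6 := by rw [hA0, e1, e2]; ring
    have a2 : area 2 B (below ℓ) = 1 + 5 * n / 6 := by rw [hA2, e1, e2]; ring
    refine le_trans (add_le_add
      (exp_moment_shift hN hκ0 hm hm hbel hbel _ _ _ (1 / 100 * n / 2 + 1) ?_)
      (exp_moment_shift hN hκ0 hm hm hbel hbel _ _ _ 1 ?_)) (hfin n hn' ?_)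
    · rw [a0, a2, hin]
      exact step_num1 hn' hκ
    · rw [a0, a2, hin]
      exact step_num2 hn' hκ
    · rw [hin, abs_of_nonneg hn']
  · obtain ⟨n, hn⟩ := Int.eq_ofNat_of_zero_le (by omega : 0 ≤ -i)
    have hn' : (0 : ℝ) ≤ n := Nat.cast_nonneg n
    have hin : (i : ℝ) = -n := by
      have : i = -(n : ℤ) := by omega
      rw [this, Int.cast_neg, Int.cast_natCast]
    have e1 : (ℓ.1 : ℝ) = 1 + n := by
      rw [hℓ]
      simp only [nextL, zero_add, hn, Int.toNat_natCast]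
      push_cast
      ring
    have e2 : (ℓ.2 : ℝ) = 1 := by
      rw [hℓ]
      simp only [nextL, zero_add]
      rw [Int.toNat_of_nonpos (by omega)]
      simp
    have a0 : area 0 B (below ℓ) = 1 + 5 * n / 6 := by rw [hA0, e1, e2]; ring
    have a2 : area 2 B (below ℓ) = 1 + n / 6 := by rw [hA2, e1, e2]; ring
    rw [add_comm]
    refine le_trans (add_le_add
      (exp_moment_shift hN hκ0 hm hm hbel hbel _ _ _ (1 / 100 * n / 2 + 1) ?_)
      (exp_moment_shift hN hκ0 hm hm hbel hbel _ _ _ 1 ?_)) (hfin n hn' ?_)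
    · rw [a0, a2, hin]
      have := step_num1 (t := n) hn' hκ
      linarith
    · rw [a0, a2, hin]
      have := step_num2 (t := n) hn' hκ
      linarith
    · rw [hin, abs_neg, abs_of_nonneg hn']

/-- second moment of the number of points in one step -/
theorem step_count : ∃ C : ℝ, 0 < C ∧
    ∀ (κ s₀ B : ℝ) (ν ν' : Measure Pl) (m m' : ℕ) (i : ℤ), κ ≤ 1 → 2 + |(i : ℝ)| ≤ B →
      Near κ s₀ B ν ν' m m' →
      ∫⁻ c, (c.nX (below (nextL (0, 0) i)) : ℝ≥0∞) ^ 2 ∂(iid ν ν' m m') ≤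
        ENNReal.ofReal (C * (1 + |(i : ℝ)|) ^ 2) := by
  refine ⟨2 * Real.exp 4, by positivity, ?_⟩
  intro κ s₀ B ν ν' m m' i hκ hB hN
  have hκ0 : 0 ≤ κ := by
    obtain ⟨s, _, hs, _⟩ := hN.flatX
    exact le_trans (abs_nonneg _) hs
  obtain ⟨hb1, hb2⟩ := nextL_le (i := i) (B := B) (by linarith)
  obtain ⟨hc1, hc2⟩ := nextL_le (i := i) (B := 1 + |(i : ℝ)|) le_rfl
  set ℓ := nextL (0, 0) i with hℓ
  set t : ℝ := |(i : ℝ)| with ht
  have ht0 : 0 ≤ t := abs_nonneg _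
  have hm := measurableSet_below ℓ
  have hbel : ∀ p ∈ below ℓ, p.2 ≤ B := fun p hp => le_trans hp (lam_le_of_le hb1 hb2 p.1)
  have hA0 := area_below (l := 0) (B := B) (by norm_num) (by norm_num) hb1 hb2
  have hA2 := area_below (l := 2) (B := B) (by norm_num) (by norm_num) hb1 hb2
  set u : ℝ := 1 / (1 + t) with hu
  have hu0 : 0 < u := by positivity
  have hut : (1 + t) * u = 1 := by
    rw [hu]
    field_simp
  have hu1 : u ≤ 1 := by
    rw [hu, div_le_one (by positivity)]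
    linarith
  have hpt : ∀ c : Conf, (c.nX (below ℓ) : ℝ≥0∞) ^ 2 ≤
      ENNReal.ofReal (2 * (1 + t) ^ 2) * ENNReal.ofReal (Real.exp (0 +
        (u * (c.nX (below ℓ) : ℝ) + 0 * (c.nY (below ℓ) : ℝ)))) := by
    intro c
    rw [← ENNReal.ofReal_mul (by positivity), ← ENNReal.ofReal_natCast,
      ← ENNReal.ofReal_pow (Nat.cast_nonneg _)]
    refine ENNReal.ofReal_le_ofReal ?_
    set N : ℝ := (c.nX (below ℓ) : ℝ)
    have hN0 : 0 ≤ N := Nat.cast_nonneg _
    have h1 := Real.quadratic_le_exp_of_nonneg (mul_nonneg hu0.le hN0)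
    have h2 : N = (1 + t) * (u * N) := by rw [← mul_assoc, hut, one_mul]
    have h3 : N ^ 2 = (1 + t) ^ 2 * (u * N) ^ 2 := by
      conv_lhs => rw [h2]
      ring
    have h4 : 0 ≤ u * N := mul_nonneg hu0.le hN0
    rw [h3]
    have h5 : (u * N) ^ 2 ≤ 2 * Real.exp (u * N) := by nlinarith
    have h6 : 0 + (u * N + 0 * (c.nY (below ℓ) : ℝ)) = u * N := by ring
    rw [h6]
    nlinarith [mul_le_mul_of_nonneg_left h5 (by positivity : 0 ≤ (1 + t) ^ 2)]
  refine le_trans (lintegral_mono hpt) ?_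
  rw [lintegral_const_mul _ (measurable_expc hm hm _ _ _)]
  have hA : area 0 B (below ℓ) ≤ 1 + t := by
    rw [hA0]
    have : (0 : ℝ) ≤ ℓ.1 := Nat.cast_nonneg _
    have : (0 : ℝ) ≤ ℓ.2 := Nat.cast_nonneg _
    nlinarith
  have hA' : 0 ≤ area 0 B (below ℓ) := ENNReal.toReal_nonneg
  have hex : Real.exp u - 1 ≤ 2 * u := by
    have h3 := abs_le.1 (Real.abs_exp_sub_one_sub_id_le (x := u) (by rw [abs_of_pos hu0]; exact hu1))
    nlinarith [h3.2]
  have hex0 : 0 ≤ Real.exp u - 1 := by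
    have := Real.add_one_le_exp u
    linarith
  have hprod : area 0 B (below ℓ) * (Real.exp u - 1) ≤ 2 := by
    calc area 0 B (below ℓ) * (Real.exp u - 1) ≤ (1 + t) * (2 * u) :=
          mul_le_mul hA hex hex0 (by positivity)
      _ = 2 := by rw [mul_left_comm, hut]; ring
  have hprod0 : 0 ≤ area 0 B (below ℓ) * (Real.exp u - 1) := mul_nonneg hA' hex0
  refine le_trans (mul_le_mul_right
    (exp_moment_shift hN hκ0 hm hm hbel hbel _ _ _ 4 ?_) _) ?_
  · rw [Real.exp_zero, sub_self, abs_zero, mul_zero, add_zero, add_zero, zero_add,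
      abs_of_nonneg hex0]
    nlinarith
  · rw [← ENNReal.ofReal_mul (by positivity)]
    exact ENNReal.ofReal_le_ofReal (le_of_eq (by ring))

end Pool.Agent.H27.OTC
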