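import Pool.Agent.H27.OTC.Markov
import Pool.Agent.H27.OTC.Moments

/-!
Job OTC-C-IM: moments of the imbalance along the exploration.
-/

set_option autoImplicit false

open MeasureTheory ProbabilityTheory
open scoped ENNReal

namespace Pool.Agent.H27.OTC

open Pool.Agent.H96.OT (Pl)

/-- `P ρ n` holds for all sufficiently small `ρ` and all sufficiently large `n` (depending on
`ρ`) -/
def Ev (P : ℝ → ℕ → Prop) : Prop :=
  ∃ ρ₀ : ℝ, 0 < ρ₀ ∧ ∀ ρ : ℝ, 0 < ρ → ρ ≤ ρ₀ → ∃ n₀ : ℕ, ∀ n : ℕ, n₀ ≤ n → P ρ n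

theorem Ev.and {P P' : ℝ → ℕ → Prop} (h : Ev P) (h' : Ev P') : Ev (fun ρ n => P ρ n ∧ P' ρ n) := by
  obtain ⟨ρ₀, h0, h1⟩ := h
  obtain ⟨ρ₁, h2, h3⟩ := h'
  refine ⟨min ρ₀ ρ₁, lt_min h0 h2, fun ρ hρ hle => ?_⟩
  obtain ⟨n₀, h4⟩ := h1 ρ hρ (hle.trans (min_le_left _ _))
  obtain ⟨n₁, h5⟩ := h3 ρ hρ (hle.trans (min_le_right _ _))
  exact ⟨max n₀ n₁, fun n hn => ⟨h4 n ((le_max_left _ _).trans hn),
    h5 n ((le_max_right _ _).trans hn)⟩⟩

theorem Ev.mono {P P' : ℝ → ℕ → Prop} (h : Ev P) (hPP : ∀ ρ n, P ρ n → P' ρ n) : Ev P' := by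
  obtain ⟨ρ₀, h0, h1⟩ := h
  refine ⟨ρ₀, h0, fun ρ hρ hle => ?_⟩
  obtain ⟨n₀, h4⟩ := h1 ρ hρ hle
  exact ⟨n₀, fun n hn => hPP _ _ (h4 n hn)⟩

theorem Ev.of_forall {P : ℝ → ℕ → Prop} (h : ∀ ρ n, P ρ n) : Ev P :=
  ⟨1, one_pos, fun ρ _ _ => ⟨0, fun n _ => h ρ n⟩⟩

theorem Ev.rho_le {x : ℝ} (hx : 0 < x) : Ev (fun ρ _ => 0 < ρ ∧ ρ ≤ x) :=
  ⟨x, hx, fun ρ hρ hle => ⟨0, fun _ _ => ⟨hρ, hle⟩⟩⟩

theorem Ev.n_ge (f : ℝ → ℝ) : Ev (fun ρ n => f ρ ≤ n) :=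
  ⟨1, one_pos, fun ρ _ _ => ⟨⌈f ρ⌉₊, fun _ hn => (Nat.le_ceil _).trans (by exact_mod_cast hn)⟩⟩

/-- points lie in the strips, at heights in `(0, n]` -/
structure InStrip (n : ℕ) (c : Conf) : Prop where
  X : ∀ p ∈ c.X, 0 ≤ p.1 ∧ p.1 ≤ 1 ∧ 0 < p.2 ∧ p.2 ≤ n
  Y : ∀ p ∈ c.Y, 2 ≤ p.1 ∧ p.1 ≤ 3 ∧ 0 < p.2 ∧ p.2 ≤ n

theorem measurableSet_box (a b u v : ℝ) :
    MeasurableSet {x : Pl | a ≤ x.1 ∧ x.1 ≤ b ∧ u < x.2 ∧ x.2 ≤ v} :=
  (measurableSet_le measurable_const measurable_fst).inter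
    ((measurableSet_le measurable_fst measurable_const).inter
      ((measurableSet_lt measurable_const measurable_snd).inter
        (measurableSet_le measurable_snd measurable_const)))

theorem ae_smp (l : ℝ) (n : ℕ) :
    ∀ᵐ x ∂(smp l n), l ≤ x.1 ∧ x.1 ≤ l + 1 ∧ 0 < x.2 ∧ x.2 ≤ (n : ℝ) := by
  unfold smp
  refine Measure.ae_smul_measure ?_ _
  filter_upwards [ae_restrict_mem (measurableSet_Icc.prod measurableSet_Ioc)] with x hx
  exact ⟨hx.1.1, hx.1.2, hx.2.1, hx.2.2⟩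

theorem ae_inStrip (n : ℕ) : ∀ᵐ c ∂(Q n), InStrip n c := by
  have := smp_finite 0 n
  have := smp_finite 2 n
  have h := iid_forall (smp 0 n) (smp 2 n)
    (p := fun x => (0 : ℝ) ≤ x.1 ∧ x.1 ≤ 0 + 1 ∧ 0 < x.2 ∧ x.2 ≤ (n : ℝ))
    (p' := fun x => (2 : ℝ) ≤ x.1 ∧ x.1 ≤ 2 + 1 ∧ 0 < x.2 ∧ x.2 ≤ (n : ℝ))
    (ae_smp 0 n) (ae_smp 2 n) (measurableSet_box _ _ _ _) (measurableSet_box _ _ _ _) n n
  unfold Q
  filter_upwards [h] with c hc
  refine ⟨fun p hp => ?_, fun p hp => ?_⟩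
  · obtain ⟨h1, h2, h3, h4⟩ := hc.1 p hp
    exact ⟨h1, by linarith, h3, h4⟩
  · obtain ⟨h1, h2, h3, h4⟩ := hc.2 p hp
    exact ⟨h1, by linarith, h3, h4⟩

theorem im_zero_of_inStrip {n : ℕ} {c : Conf} (h : InStrip n c) : im c 0 = 0 := by
  classical
  have hb : below (st c 0) = {p : Pl | p.2 ≤ 0} := by
    ext p
    show p.2 ≤ lam (0, 0) p.1 ↔ p.2 ≤ 0
    rw [lam_zero]
  show imb c (st c 0) = 0
  unfold imb
  rw [hb]
  have h1 : c.nX {p : Pl | p.2 ≤ 0} = 0 := by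
    show Multiset.card (c.X.filter (fun p => p ∈ {p : Pl | p.2 ≤ 0})) = 0
    rw [Multiset.card_eq_zero, Multiset.filter_eq_nil]
    intro p hp hp'
    exact absurd (h.X p hp).2.2.1 (not_lt.2 hp')
  have h2 : c.nY {p : Pl | p.2 ≤ 0} = 0 := by
    show Multiset.card (c.Y.filter (fun p => p ∈ {p : Pl | p.2 ≤ 0})) = 0
    rw [Multiset.card_eq_zero, Multiset.filter_eq_nil]
    intro p hp hp'
    exact absurd (h.Y p hp).2.2.1 (not_lt.2 hp')
  rw [h1, h2]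
  simp

open Classical in
/-- the Markov property with the past event `Alive` -/
theorem alive_markov {n : ℕ} {θ ρ : ℝ} (hn : 0 < n) (hθ : 0 < θ) (hρ : 0 < ρ) (hρθ : ρ ≤ θ / 4)
    (k : ℕ) {G : ℤ → Conf → ℝ≥0∞} (hG : ∀ i, Measurable (G i)) (C : ℤ → ℝ≥0∞)
    (hC : ∀ ℓ N N', Ok n θ ρ ℓ N N' → ∫⁻ c', G ((N : ℤ) - N') c' ∂(lawUp n ℓ N N')
      ≤ C ((N : ℤ) - N')) :
    ∫⁻ c, (if Alive n θ ρ c k then G (im c k) (uc c k) else 0) ∂(Q n) ≤
      ∫⁻ c, (if Alive n θ ρ c k then C (im c k) else 0) ∂(Q n) := by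
  have hΦ : Measurable (fun c : Conf => if Alive n θ ρ c k then (1 : ℝ≥0∞) else 0) :=
    Measurable.ite (measurableSet_alive n θ ρ k) measurable_const measurable_const
  have hP : Past k (fun c : Conf => if Alive n θ ρ c k then (1 : ℝ≥0∞) else 0) := by
    intro c
    have h : Alive n θ ρ c k = Alive n θ ρ (c.filt (below (st c k))) k := past_alive n θ ρ k c
    by_cases hA : Alive n θ ρ c k
    · have hA' : Alive n θ ρ (c.filt (below (st c k))) k := h ▸ hA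
      simp only [if_pos hA, if_pos hA']
    · have hA' : ¬ Alive n θ ρ (c.filt (below (st c k))) k := h ▸ hA
      simp only [if_neg hA, if_neg hA']
  have key : ∀ (x : Conf → ℝ≥0∞) (c : Conf), (if Alive n θ ρ c k then x c else 0) =
      if OkAt n θ ρ c k then (if Alive n θ ρ c k then (1 : ℝ≥0∞) else 0) * x c else 0 := by
    intro x c
    by_cases hA : Alive n θ ρ c k
    · have hO : OkAt n θ ρ c k := hA k le_rfl
      rw [if_pos hA, if_pos hO, if_pos hA, one_mul]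
    · rw [if_neg hA, if_neg hA, zero_mul, ite_self]
  have h := markov_le hn hθ hρ hρθ k hΦ hP hG C hC
  calc ∫⁻ c, (if Alive n θ ρ c k then G (im c k) (uc c k) else 0) ∂(Q n)
      = _ := lintegral_congr (fun c => key (fun c => G (im c k) (uc c k)) c)
    _ ≤ _ := h
    _ = ∫⁻ c, (if Alive n θ ρ c k then C (im c k) else 0) ∂(Q n) :=
        lintegral_congr (fun c => (key (fun c => C (im c k)) c).symm)

theorem ok_im {n : ℕ} {θ ρ : ℝ} {ℓ : ℕ × ℕ} {N N' : ℕ} (h : Ok n θ ρ ℓ N N') :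
    |(((N : ℤ) - N' : ℤ) : ℝ)| ≤ 2 * ρ * n := by
  obtain ⟨_, _, _, h4, h5⟩ := h
  push_cast
  have : (N : ℝ) - N' = (N - ℓ.1) - (N' - ℓ.1) := by ring
  rw [this]
  refine (abs_sub _ _).trans ?_
  linarith

/-- the parameters used below -/
theorem ev_params {θ κ₀ : ℝ} (hθ : 0 < θ) (hκ₀ : 0 < κ₀) :
    Ev (fun ρ n => 0 < ρ ∧ ρ ≤ θ / 4 ∧ 0 < n ∧ 0 ≤ 2 * ρ / θ ∧ 2 * ρ / θ ≤ κ₀ ∧
      2 + 2 * ρ * n ≤ θ * n) := by
  have h1 := Ev.rho_le (show 0 < min (θ / 4) (κ₀ * θ / 2) by positivity)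
  have h2 := Ev.n_ge (fun _ => 4 / θ)
  refine (h1.and h2).mono ?_
  rintro ρ n ⟨⟨hρ, hle⟩, hn⟩
  have hθ4 : ρ ≤ θ / 4 := hle.trans (min_le_left _ _)
  have hκ : ρ ≤ κ₀ * θ / 2 := hle.trans (min_le_right _ _)
  have hn0 : (0 : ℝ) < n := lt_of_lt_of_le (by positivity) hn
  have hn4 : 4 ≤ θ * n := by
    rw [div_le_iff₀ hθ] at hn
    linarith
  refine ⟨hρ, hθ4, by exact_mod_cast hn0, by positivity, ?_, ?_⟩
  · rw [div_le_iff₀ hθ]
    linarith
  · have : 2 * ρ * n ≤ θ / 2 * n := mul_le_mul_of_nonneg_right (by linarith) hn0.le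
    linarith

open Classical in
theorem im_moment : ∃ lam₀ C : ℝ, 0 < lam₀ ∧ lam₀ ≤ 1 ∧ 1 ≤ C ∧ ∀ θ : ℝ, 0 < θ → θ < 1 →
    Ev (fun ρ n => ∀ k : ℕ,
      ∫⁻ c, (if Alive n θ ρ c k then ENNReal.ofReal (Real.exp (lam₀ * |(im c k : ℝ)|)) else 0)
        ∂(Q n) ≤ ENNReal.ofReal C) := by
  obtain ⟨lam₀, C, κ₀, hl0, hl1, hC1, hκ₀, hstep⟩ := step_moment
  refine ⟨lam₀, 2 * C + 1, hl0, hl1, by linarith, fun θ hθ _ => ?_⟩
  refine (ev_params hθ hκ₀).mono ?_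
  rintro ρ n ⟨hρ, hρθ, hn, hκ0, hκ, hB⟩
  haveI := Q_prob hn
  intro k
  induction k with
  | zero =>
    have h0 : ∀ᵐ c ∂(Q n), (if Alive n θ ρ c 0 then
        ENNReal.ofReal (Real.exp (lam₀ * |(im c 0 : ℝ)|)) else 0) ≤ (1 : ℝ≥0∞) := by
      filter_upwards [ae_inStrip n] with c hc
      split_ifs
      · rw [im_zero_of_inStrip hc]
        simp
      · exact zero_le_one
    calc _ ≤ ∫⁻ _, (1 : ℝ≥0∞) ∂(Q n) := lintegral_mono_ae h0
      _ = 1 := by simp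
      _ ≤ ENNReal.ofReal (2 * C + 1) := by
          rw [← ENNReal.ofReal_one]
          exact ENNReal.ofReal_le_ofReal (by linarith)
  | succ k ih =>
    let G : ℤ → Conf → ℝ≥0∞ := fun i c' =>
      ENNReal.ofReal (Real.exp (lam₀ * |((i + imb c' (nextL (0, 0) i) : ℤ) : ℝ)|))
    have hG : ∀ i, Measurable (G i) := by
      intro i
      have h1 : Measurable (fun z : ℤ =>
          ENNReal.ofReal (Real.exp (lam₀ * |((i + z : ℤ) : ℝ)|))) := Measurable.of_discrete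
      exact h1.comp (measurable_imb (nextL (0, 0) i))
    have h1 : ∫⁻ c, (if Alive n θ ρ c (k + 1) then
        ENNReal.ofReal (Real.exp (lam₀ * |(im c (k + 1) : ℝ)|)) else 0) ∂(Q n) ≤
        ∫⁻ c, (if Alive n θ ρ c k then G (im c k) (uc c k) else 0) ∂(Q n) := by
      refine lintegral_mono fun c => ?_
      show (if Alive n θ ρ c (k + 1) then
        ENNReal.ofReal (Real.exp (lam₀ * |(im c (k + 1) : ℝ)|)) else 0) ≤
        (if Alive n θ ρ c k then G (im c k) (uc c k) else 0)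
      by_cases hA : Alive n θ ρ c (k + 1)
      · have hA' : Alive n θ ρ c k := fun j hj => hA j (by omega)
        rw [if_pos hA, if_pos hA', im_succ]
      · rw [if_neg hA]
        exact zero_le
    have h2 := alive_markov hn hθ hρ hρθ k hG
      (fun i => ENNReal.ofReal (Real.exp (lam₀ * |(i : ℝ)|) / 2 + C)) (by
        intro ℓ N N' hOk
        exact hstep (2 * ρ / θ) (1 / (θ * n)) (θ * n) (nuAb 0 n ℓ) (nuAb 2 n ℓ) (n - N) (n - N')
          ((N : ℤ) - N') hκ0 hκ (by linarith [ok_im hOk]) (near_lawUp hn hθ hρ hρθ hOk))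
    have h3 : ∀ c : Conf, (if Alive n θ ρ c k then
        ENNReal.ofReal (Real.exp (lam₀ * |(im c k : ℝ)|) / 2 + C) else 0) ≤
        ENNReal.ofReal (1 / 2) * (if Alive n θ ρ c k then
          ENNReal.ofReal (Real.exp (lam₀ * |(im c k : ℝ)|)) else 0) + ENNReal.ofReal C := by
      intro c
      split_ifs
      · rw [← ENNReal.ofReal_mul (by norm_num), ← ENNReal.ofReal_add (by positivity) (by linarith)]
        exact ENNReal.ofReal_le_ofReal (by linarith)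
      · exact zero_le
    calc _ ≤ _ := h1
      _ ≤ _ := h2
      _ ≤ ∫⁻ c, (ENNReal.ofReal (1 / 2) * (if Alive n θ ρ c k then
          ENNReal.ofReal (Real.exp (lam₀ * |(im c k : ℝ)|)) else 0) + ENNReal.ofReal C) ∂(Q n) :=
          lintegral_mono h3
      _ = ENNReal.ofReal (1 / 2) * ∫⁻ c, (if Alive n θ ρ c k then
          ENNReal.ofReal (Real.exp (lam₀ * |(im c k : ℝ)|)) else 0) ∂(Q n) + ENNReal.ofReal C := by
          rw [lintegral_add_right _ measurable_const, lintegral_const_mul' _ _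
            ENNReal.ofReal_ne_top]
          simp
      _ ≤ ENNReal.ofReal (1 / 2) * ENNReal.ofReal (2 * C + 1) + ENNReal.ofReal C := by
          gcongr
      _ = ENNReal.ofReal (1 / 2 * (2 * C + 1) + C) := by
          rw [← ENNReal.ofReal_mul (by norm_num), ← ENNReal.ofReal_add (by positivity)
            (by linarith)]
      _ ≤ ENNReal.ofReal (2 * C + 1) := ENNReal.ofReal_le_ofReal (by linarith)

theorem im_tail : ∃ lam₀ C : ℝ, 0 < lam₀ ∧ 1 ≤ C ∧ ∀ θ : ℝ, 0 < θ → θ < 1 →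
    Ev (fun ρ n => ∀ (k : ℕ) (A : ℝ),
      Q n {c | Alive n θ ρ c k ∧ A < |(im c k : ℝ)|} ≤
        ENNReal.ofReal (C * Real.exp (-(lam₀ * A)))) := by
  classical
  obtain ⟨lam₀, C, hl0, hl1, hC1, h⟩ := im_moment
  refine ⟨lam₀, C, hl0, hC1, fun θ hθ hθ1 => (h θ hθ hθ1).mono ?_⟩
  intro ρ n hE k A
  let f : Conf → ℝ≥0∞ := fun c => if Alive n θ ρ c k then
    ENNReal.ofReal (Real.exp (lam₀ * |(im c k : ℝ)|)) else 0
  have hf : Measurable f := by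
    refine Measurable.ite (measurableSet_alive n θ ρ k) ?_ measurable_const
    have h1 : Measurable (fun z : ℤ => ENNReal.ofReal (Real.exp (lam₀ * |(z : ℝ)|))) :=
      Measurable.of_discrete
    exact h1.comp (measurable_im k)
  have hsub : {c | Alive n θ ρ c k ∧ A < |(im c k : ℝ)|} ⊆
      {c | ENNReal.ofReal (Real.exp (lam₀ * A)) ≤ f c} := by
    rintro c ⟨h1, h2⟩
    show ENNReal.ofReal (Real.exp (lam₀ * A)) ≤ f c
    have h3 : f c = ENNReal.ofReal (Real.exp (lam₀ * |(im c k : ℝ)|)) := if_pos h1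
    rw [h3]
    exact ENNReal.ofReal_le_ofReal (Real.exp_le_exp.2 (mul_le_mul_of_nonneg_left h2.le hl0.le))
  have hε : ENNReal.ofReal (Real.exp (lam₀ * A)) ≠ 0 := by
    rw [Ne, ENNReal.ofReal_eq_zero, not_le]
    exact Real.exp_pos _
  calc Q n {c | Alive n θ ρ c k ∧ A < |(im c k : ℝ)|} ≤ _ := measure_mono hsub
    _ ≤ (∫⁻ c, f c ∂(Q n)) / ENNReal.ofReal (Real.exp (lam₀ * A)) :=
        meas_ge_le_lintegral_div hf.aemeasurable hε ENNReal.ofReal_ne_top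
    _ ≤ ENNReal.ofReal C / ENNReal.ofReal (Real.exp (lam₀ * A)) :=
        ENNReal.div_le_div_right (hE k) _
    _ = ENNReal.ofReal (C * Real.exp (-(lam₀ * A))) := by
        rw [← ENNReal.ofReal_div_of_pos (Real.exp_pos _), Real.exp_neg, div_eq_mul_inv]

/-- number of `X` points in the step `k` -/
noncomputable def stepX (c : Conf) (k : ℕ) : ℕ := c.nX (above (st c k) ∩ below (st c (k + 1)))

theorem stepX_eq (c : Conf) (k : ℕ) :
    stepX c k = (uc c k).nX (below (nextL (0, 0) (im c k))) := by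
  have h1 : st c (k + 1) = st c k + nextL (0, 0) (im c k) := by
    rw [st_succ, ← nextL_add]
    rfl
  unfold stepX uc
  rw [nX_up, h1]
  congr 1
  ext p
  simp only [above, below, shift, Set.mem_inter_iff, Set.mem_ofPred_eq, Set.mem_preimage, lam_add]
  constructor
  · rintro ⟨h2, h3⟩
    exact ⟨h2, by linarith⟩
  · rintro ⟨h2, h3⟩
    exact ⟨h2, by linarith⟩

theorem measurable_stepX (k : ℕ) : Measurable (fun c => stepX c k) := by
  have h : Measurable (fun c : Conf => (st c k, st c (k + 1))) :=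
    (measurable_st k).prodMk (measurable_st (k + 1))
  exact measurable_cases (fun c : Conf => (st c k, st c (k + 1)))
    (fun q => h (measurableSet_singleton q))
    (fun (q : (ℕ × ℕ) × (ℕ × ℕ)) (c : Conf) => c.nX (above q.1 ∩ below q.2))
    (fun q => measurable_nX ((measurableSet_above q.1).inter (measurableSet_below q.2)))

open Classical in
theorem stepX_sq : ∃ C : ℝ, 0 < C ∧ ∀ θ : ℝ, 0 < θ → θ < 1 →
    Ev (fun ρ n => ∀ k : ℕ,
      ∫⁻ c, (if Alive n θ ρ c k then (stepX c k : ℝ≥0∞) ^ 2 else 0) ∂(Q n) ≤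
        ENNReal.ofReal C) := by
  obtain ⟨lam₀, C, hl0, hl1, hC1, hmom⟩ := im_moment
  obtain ⟨C₁, hC₁, hcount⟩ := step_count
  refine ⟨C₁ * (2 / lam₀ ^ 2) * C, by positivity, fun θ hθ hθ1 => ?_⟩
  refine ((ev_params hθ one_pos).and (hmom θ hθ hθ1)).mono ?_
  rintro ρ n ⟨⟨hρ, hρθ, hn, hκ0, hκ, hB⟩, hE⟩ k
  have h2 := alive_markov hn hθ hρ hρθ k
    (G := fun i c' => (c'.nX (below (nextL (0, 0) i)) : ℝ≥0∞) ^ 2)
    (fun i => by
      have h1 : Measurable (fun z : ℕ => (z : ℝ≥0∞) ^ 2) := Measurable.of_discrete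
      exact h1.comp (measurable_nX (measurableSet_below _)))
    (fun i => ENNReal.ofReal (C₁ * (1 + |(i : ℝ)|) ^ 2)) (by
      intro ℓ N N' hOk
      exact hcount (2 * ρ / θ) (1 / (θ * n)) (θ * n) (nuAb 0 n ℓ) (nuAb 2 n ℓ) (n - N) (n - N')
        ((N : ℤ) - N') hκ (by linarith [ok_im hOk]) (near_lawUp hn hθ hρ hρθ hOk))
  have h3 : ∀ c : Conf, (if Alive n θ ρ c k then
      ENNReal.ofReal (C₁ * (1 + |(im c k : ℝ)|) ^ 2) else 0) ≤
      ENNReal.ofReal (C₁ * (2 / lam₀ ^ 2)) * (if Alive n θ ρ c k then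
        ENNReal.ofReal (Real.exp (lam₀ * |(im c k : ℝ)|)) else 0) := by
    intro c
    split_ifs
    · rw [← ENNReal.ofReal_mul (by positivity)]
      refine ENNReal.ofReal_le_ofReal ?_
      rw [mul_assoc]
      refine mul_le_mul_of_nonneg_left ?_ hC₁.le
      have hx : 0 ≤ |(im c k : ℝ)| := abs_nonneg _
      have h4 := Real.quadratic_le_exp_of_nonneg (mul_nonneg hl0.le hx)
      have h5 : (1 + |(im c k : ℝ)|) ^ 2 ≤ 2 / lam₀ ^ 2 *
          (1 + lam₀ * |(im c k : ℝ)| + (lam₀ * |(im c k : ℝ)|) ^ 2 / 2) := by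
        rw [div_mul_eq_mul_div, le_div_iff₀ (by positivity)]
        have h6 : lam₀ ^ 2 ≤ 1 := by nlinarith
        have h7 : lam₀ ^ 2 ≤ lam₀ := by nlinarith
        nlinarith [mul_nonneg hl0.le hx, mul_nonneg (sub_nonneg.2 h7) hx, sq_nonneg lam₀]
      exact h5.trans (mul_le_mul_of_nonneg_left h4 (by positivity))
    · exact zero_le
  calc ∫⁻ c, (if Alive n θ ρ c k then (stepX c k : ℝ≥0∞) ^ 2 else 0) ∂(Q n)
      = ∫⁻ c, (if Alive n θ ρ c k then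
          ((uc c k).nX (below (nextL (0, 0) (im c k))) : ℝ≥0∞) ^ 2 else 0) ∂(Q n) :=
        lintegral_congr fun c => by rw [stepX_eq]
    _ ≤ _ := h2
    _ ≤ _ := lintegral_mono h3
    _ = ENNReal.ofReal (C₁ * (2 / lam₀ ^ 2)) * ∫⁻ c, (if Alive n θ ρ c k then
        ENNReal.ofReal (Real.exp (lam₀ * |(im c k : ℝ)|)) else 0) ∂(Q n) :=
        lintegral_const_mul' _ _ ENNReal.ofReal_ne_top
    _ ≤ ENNReal.ofReal (C₁ * (2 / lam₀ ^ 2)) * ENNReal.ofReal C := by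
        gcongr
        exact hE k
    _ = ENNReal.ofReal (C₁ * (2 / lam₀ ^ 2) * C) := by
        rw [← ENNReal.ofReal_mul (by positivity)]

end Pool.Agent.H27.OTC
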