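import Pool.Agent.H27.OTC.LineBasic
import Pool.Agent.H27.OTC.ImMom

/-!
Job OTC-C-PAST: deterministic regularity lemmas for configurations.
-/

set_option autoImplicit false

open MeasureTheory ProbabilityTheory
open scoped ENNReal

namespace Pool.Agent.H27.OTC

open Pool.Agent.H96.OT (Pl)

/-- continuous version of `RegUp` -/
def RegUpC (τ δ r : ℝ) (c : Conf) : Prop :=
  ∀ h, 0 ≤ h → h ≤ 8 * r → |(c.nX {p | 0 < p.2 ∧ p.2 ≤ h} : ℝ) - h| ≤ δ * r ∧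
    |(c.nX {p | 1 - τ ≤ p.1 ∧ 0 < p.2 ∧ p.2 ≤ h} : ℝ) - τ * h| ≤ δ * r ∧
    |(c.nY {p | 0 < p.2 ∧ p.2 ≤ h} : ℝ) - h| ≤ δ * r

/-- continuous version of `RegDn` -/
def RegDnC (τ δ r : ℝ) (ℓ : ℕ × ℕ) (c : Conf) : Prop :=
  ∀ h, 0 ≤ h → h ≤ 3 * r →
    |(c.nX {p | lam ℓ p.1 - h < p.2 ∧ p.2 ≤ lam ℓ p.1} : ℝ) - h| ≤ δ * r ∧
    |(c.nX {p | 1 - τ ≤ p.1 ∧ lam ℓ p.1 - h < p.2 ∧ p.2 ≤ lam ℓ p.1} : ℝ) - τ * h| ≤ δ * r ∧
    |(c.nY {p | lam ℓ p.1 - h < p.2 ∧ p.2 ≤ lam ℓ p.1} : ℝ) - h| ≤ δ * r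

theorem RegUp.mono {N : ℕ} {τ δ δ' r : ℝ} {c : Conf} (h : RegUp N τ δ r c) (hr : 0 ≤ r)
    (hδ : δ ≤ δ') : RegUp N τ δ' r c := by
  have h1 : δ * r / 2 ≤ δ' * r / 2 := by nlinarith
  intro j hj
  obtain ⟨h2, h3, h4⟩ := h j hj
  exact ⟨h2.trans h1, h3.trans h1, h4.trans h1⟩

/-- from a grid to all heights -/
theorem grid_cont {f : ℝ → ℝ} (hf : Monotone f) {s L e : ℝ} {N : ℕ} (hs : 0 ≤ s) (hs1 : s ≤ 1)
    (hL : 0 < L) (hN : 0 < N) (hLN : L / N ≤ e)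
    (hg : ∀ j ≤ N, |f (L * j / N) - s * (L * j / N)| ≤ e) (h : ℝ) (h0 : 0 ≤ h) (h1 : h ≤ L) :
    |f h - s * h| ≤ 2 * e := by
  have hNr : (0 : ℝ) < N := by exact_mod_cast hN
  have he : 0 < e := lt_of_lt_of_le (div_pos hL hNr) hLN
  rcases eq_or_lt_of_le h1 with h2 | h2
  · have h3 := hg N le_rfl
    have h4 : L * N / N = h := by rw [h2]; field_simp
    rw [h4] at h3
    linarith
  · set j := ⌊h * N / L⌋₊ with hj
    have h3 : (j : ℝ) ≤ h * N / L := Nat.floor_le (by positivity)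
    have h4 : h * N / L < j + 1 := Nat.lt_floor_add_one _
    have h5 : j < N := by
      have h6 : (j : ℝ) < N := by
        refine lt_of_le_of_lt h3 ?_
        rw [div_lt_iff₀ hL]
        nlinarith
      exact_mod_cast h6
    have h6 : L * j / N ≤ h := by
      rw [div_le_iff₀ hNr]
      rw [le_div_iff₀ hL] at h3
      nlinarith
    have h7 : h ≤ L * ((j + 1 : ℕ) : ℝ) / N := by
      rw [le_div_iff₀ hNr]
      rw [div_lt_iff₀ hL] at h4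
      push_cast
      nlinarith
    have h8 : L * ((j + 1 : ℕ) : ℝ) / N = L * j / N + L / N := by
      push_cast
      field_simp
    have h9 := hg j h5.le
    have h10 := hg (j + 1) h5
    have h11 := hf h6
    have h12 := hf h7
    rw [abs_le] at h9 h10 ⊢
    constructor
    · have : s * h ≤ s * (L * j / N) + e := by
        have : h ≤ L * j / N + e := by linarith
        nlinarith
      linarith [h9.1]
    · have : s * (L * ((j + 1 : ℕ) : ℝ) / N) ≤ s * h + e := by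
        have : L * ((j + 1 : ℕ) : ℝ) / N ≤ h + e := by linarith
        nlinarith
      linarith [h10.2]

theorem RegUp.cont {N : ℕ} {τ δ r : ℝ} {c : Conf} (h : RegUp N τ δ r c) (hτ : 0 ≤ τ)
    (hτ1 : τ ≤ 1) (hr : 0 < r) (hN : 16 ≤ δ * N) : RegUpC τ δ r c := by
  have hN0 : 0 < N := by
    rcases Nat.eq_zero_or_pos N with h0 | h0
    · subst h0; simp at hN; linarith
    · exact h0
  have hNr : (0 : ℝ) < N := by exact_mod_cast hN0
  have hLN : 8 * r / N ≤ δ * r / 2 := by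
    rw [div_le_iff₀ hNr]
    nlinarith
  intro t ht0 ht1
  refine ⟨?_, ?_, ?_⟩
  · have hf : Monotone (fun t : ℝ => (c.nX {p | 0 < p.2 ∧ p.2 ≤ t} : ℝ)) := by
      intro a b hab
      refine Nat.cast_le.2 (nX_mono ?_ c)
      intro p hp
      exact ⟨hp.1, hp.2.trans hab⟩
    have h2 := grid_cont hf zero_le_one le_rfl (by positivity : (0 : ℝ) < 8 * r) hN0 hLN
      (fun j hj => by simpa using (h j hj).1) t ht0 ht1
    simpa [mul_div_cancel₀] using h2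
  · have hf : Monotone (fun t : ℝ => (c.nX {p | 1 - τ ≤ p.1 ∧ 0 < p.2 ∧ p.2 ≤ t} : ℝ)) := by
      intro a b hab
      refine Nat.cast_le.2 (nX_mono ?_ c)
      intro p hp
      exact ⟨hp.1, hp.2.1, hp.2.2.trans hab⟩
    have h2 := grid_cont hf hτ hτ1 (by positivity : (0 : ℝ) < 8 * r) hN0 hLN
      (fun j hj => (h j hj).2.1) t ht0 ht1
    rw [mul_div_cancel₀ _ (two_ne_zero)] at h2
    exact h2
  · have hf : Monotone (fun t : ℝ => (c.nY {p | 0 < p.2 ∧ p.2 ≤ t} : ℝ)) := by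
      intro a b hab
      refine Nat.cast_le.2 (nY_mono ?_ c)
      intro p hp
      exact ⟨hp.1, hp.2.trans hab⟩
    have h2 := grid_cont hf zero_le_one le_rfl (by positivity : (0 : ℝ) < 8 * r) hN0 hLN
      (fun j hj => by simpa using (h j hj).2.2) t ht0 ht1
    simpa [mul_div_cancel₀] using h2

theorem RegDn.cont {N : ℕ} {τ δ r : ℝ} {ℓ : ℕ × ℕ} {c : Conf} (h : RegDn N τ δ r ℓ c)
    (hτ : 0 ≤ τ) (hτ1 : τ ≤ 1) (hr : 0 < r) (hN : 16 ≤ δ * N) : RegDnC τ δ r ℓ c := by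
  have hN0 : 0 < N := by
    rcases Nat.eq_zero_or_pos N with h0 | h0
    · subst h0; simp at hN; linarith
    · exact h0
  have hNr : (0 : ℝ) < N := by exact_mod_cast hN0
  have hLN : 3 * r / N ≤ δ * r / 2 := by
    rw [div_le_iff₀ hNr]
    nlinarith
  intro t ht0 ht1
  refine ⟨?_, ?_, ?_⟩
  · have hf : Monotone (fun t : ℝ => (c.nX {p | lam ℓ p.1 - t < p.2 ∧ p.2 ≤ lam ℓ p.1} : ℝ)) := by
      intro a b hab
      refine Nat.cast_le.2 (nX_mono ?_ c)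
      intro p hp
      exact ⟨lt_of_le_of_lt (by linarith) hp.1, hp.2⟩
    have h2 := grid_cont hf zero_le_one le_rfl (by positivity : (0 : ℝ) < 3 * r) hN0 hLN
      (fun j hj => by simpa using (h j hj).1) t ht0 ht1
    simpa [mul_div_cancel₀] using h2
  · have hf : Monotone (fun t : ℝ =>
        (c.nX {p | 1 - τ ≤ p.1 ∧ lam ℓ p.1 - t < p.2 ∧ p.2 ≤ lam ℓ p.1} : ℝ)) := by
      intro a b hab
      refine Nat.cast_le.2 (nX_mono ?_ c)
      intro p hp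
      exact ⟨hp.1, lt_of_le_of_lt (by linarith) hp.2.1, hp.2.2⟩
    have h2 := grid_cont hf hτ hτ1 (by positivity : (0 : ℝ) < 3 * r) hN0 hLN
      (fun j hj => (h j hj).2.1) t ht0 ht1
    rw [mul_div_cancel₀ _ (two_ne_zero)] at h2
    exact h2
  · have hf : Monotone (fun t : ℝ => (c.nY {p | lam ℓ p.1 - t < p.2 ∧ p.2 ≤ lam ℓ p.1} : ℝ)) := by
      intro a b hab
      refine Nat.cast_le.2 (nY_mono ?_ c)
      intro p hp
      exact ⟨lt_of_le_of_lt (by linarith) hp.1, hp.2⟩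
    have h2 := grid_cont hf zero_le_one le_rfl (by positivity : (0 : ℝ) < 3 * r) hN0 hLN
      (fun j hj => by simpa using (h j hj).2.2) t ht0 ht1
    simpa [mul_div_cancel₀] using h2

/-! ### the exploration -/

theorem card_filter_congr' {α : Type*} (s : Multiset α) (p q : α → Prop) {_ : DecidablePred p}
    {_ : DecidablePred q} (h : ∀ a ∈ s, (p a ↔ q a)) :
    (s.filter p).card = (s.filter q).card := by
  rw [Multiset.filter_congr h]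

theorem nX_le_of {R R' : Set Pl} {c : Conf} (h : ∀ p ∈ c.X, p ∈ R → p ∈ R') :
    c.nX R ≤ c.nX R' := by
  have h1 : c.nX R = c.nX (R ∩ R') := by
    exact card_filter_congr' _ _ _ fun p hp => ⟨fun h2 => ⟨h2, h p hp h2⟩, fun h2 => h2.1⟩
  rw [h1]
  exact nX_mono Set.inter_subset_right c

theorem nY_le_of {R R' : Set Pl} {c : Conf} (h : ∀ p ∈ c.Y, p ∈ R → p ∈ R') :
    c.nY R ≤ c.nY R' := by
  have h1 : c.nY R = c.nY (R ∩ R') := by
    exact card_filter_congr' _ _ _ fun p hp => ⟨fun h2 => ⟨h2, h p hp h2⟩, fun h2 => h2.1⟩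
  rw [h1]
  exact nY_mono Set.inter_subset_right c

theorem mem_up_X {ℓ : ℕ × ℕ} {c : Conf} {p : Pl} (h : p ∈ (up ℓ c).X) :
    ∃ q ∈ c.X, q.1 = p.1 ∧ 0 < p.2 := by
  classical
  unfold up Conf.filt Conf.mapC at h
  simp only [Multiset.mem_map, Multiset.mem_filter] at h
  obtain ⟨q, ⟨hq, hq1⟩, rfl⟩ := h
  refine ⟨q, hq, rfl, ?_⟩
  have : lam ℓ q.1 < q.2 := hq1
  simp only [shift]
  linarith

theorem mem_up_Y {ℓ : ℕ × ℕ} {c : Conf} {p : Pl} (h : p ∈ (up ℓ c).Y) :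
    ∃ q ∈ c.Y, q.1 = p.1 ∧ 0 < p.2 := by
  classical
  unfold up Conf.filt Conf.mapC at h
  simp only [Multiset.mem_map, Multiset.mem_filter] at h
  obtain ⟨q, ⟨hq, hq1⟩, rfl⟩ := h
  refine ⟨q, hq, rfl, ?_⟩
  have : lam ℓ q.1 < q.2 := hq1
  simp only [shift]
  linarith

/-- the slope of a line is controlled by the imbalance below it -/
theorem slope_le {τ δ r : ℝ} {c : Conf} (hX : ∀ p ∈ c.X, 0 ≤ p.1 ∧ p.1 ≤ 1 ∧ 0 < p.2)
    (hY : ∀ p ∈ c.Y, 2 ≤ p.1 ∧ p.1 ≤ 3 ∧ 0 < p.2) (hreg : RegUpC τ δ r c) (ℓ : ℕ × ℕ)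
    (h1 : (ℓ.1 : ℝ) ≤ 8 * r) (h2 : (ℓ.2 : ℝ) ≤ 8 * r) :
    |(ℓ.2 : ℝ) - ℓ.1| ≤ 3 * |(imb c ℓ : ℝ)| + 6 * (δ * r) := by
  have ha : (0 : ℝ) ≤ ℓ.1 := Nat.cast_nonneg _
  have hb : (0 : ℝ) ≤ ℓ.2 := Nat.cast_nonneg _
  set D : ℝ := (ℓ.2 : ℝ) - ℓ.1 with hD
  have hk1 : (0 : ℝ) ≤ ℓ.1 + D / 3 := by rw [hD]; linarith
  have hk2 : (ℓ.1 : ℝ) + D / 3 ≤ 8 * r := by rw [hD]; linarith
  have hk3 : (0 : ℝ) ≤ ℓ.1 + 2 * D / 3 := by rw [hD]; linarith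
  have hk4 : (ℓ.1 : ℝ) + 2 * D / 3 ≤ 8 * r := by rw [hD]; linarith
  have hr1 := abs_le.1 (hreg _ hk1 hk2).1
  have hr2 := abs_le.1 (hreg _ hk3 hk4).2.2
  have him : (imb c ℓ : ℝ) = (c.nX (below ℓ) : ℝ) - c.nY (below ℓ) := by
    unfold imb
    push_cast
    ring
  rcases le_total 0 D with hd | hd
  · have e1 : (c.nX (below ℓ) : ℝ) ≤ c.nX {p | 0 < p.2 ∧ p.2 ≤ ℓ.1 + D / 3} := by
      refine Nat.cast_le.2 (nX_le_of fun p hp hpb => ?_)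
      obtain ⟨g1, g2, g3⟩ := hX p hp
      have g4 : p.2 ≤ lam ℓ p.1 := hpb
      rw [lam_eq ℓ g1 (by linarith), ← hD] at g4
      refine ⟨g3, ?_⟩
      nlinarith
    have e2 : (c.nY {p | 0 < p.2 ∧ p.2 ≤ ℓ.1 + 2 * D / 3} : ℝ) ≤ c.nY (below ℓ) := by
      refine Nat.cast_le.2 (nY_le_of fun p hp hpb => ?_)
      obtain ⟨g1, g2, g3⟩ := hY p hp
      have g4 : p.2 ≤ ℓ.1 + 2 * D / 3 := hpb.2
      show p.2 ≤ lam ℓ p.1
      rw [lam_eq ℓ (by linarith) g2, ← hD]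
      nlinarith
    rw [abs_of_nonneg hd]
    have e3 := neg_abs_le (imb c ℓ : ℝ)
    rw [him] at e3 ⊢
    linarith [hr1.2, hr2.1]
  · have e1 : (c.nX {p | 0 < p.2 ∧ p.2 ≤ ℓ.1 + D / 3} : ℝ) ≤ c.nX (below ℓ) := by
      refine Nat.cast_le.2 (nX_le_of fun p hp hpb => ?_)
      obtain ⟨g1, g2, g3⟩ := hX p hp
      have g4 : p.2 ≤ ℓ.1 + D / 3 := hpb.2
      show p.2 ≤ lam ℓ p.1
      rw [lam_eq ℓ g1 (by linarith), ← hD]
      nlinarith
    have e2 : (c.nY (below ℓ) : ℝ) ≤ c.nY {p | 0 < p.2 ∧ p.2 ≤ ℓ.1 + 2 * D / 3} := by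
      refine Nat.cast_le.2 (nY_le_of fun p hp hpb => ?_)
      obtain ⟨g1, g2, g3⟩ := hY p hp
      have g4 : p.2 ≤ lam ℓ p.1 := hpb
      rw [lam_eq ℓ (by linarith) g2, ← hD] at g4
      refine ⟨g3, ?_⟩
      nlinarith
    rw [abs_of_nonpos hd]
    have e3 := le_abs_self (imb c ℓ : ℝ)
    rw [him] at e3 ⊢
    linarith [hr1.1, hr2.2]

theorem lam_near {ℓ : ℕ × ℕ} {E : ℝ} (h : |(ℓ.2 : ℝ) - ℓ.1| ≤ E) (x : ℝ) :
    (ℓ.1 : ℝ) - E ≤ lam ℓ x ∧ lam ℓ x ≤ ℓ.1 + E := by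
  have h1 := wt_nonneg x
  have h2 := wt_le_one x
  have h3 : lam ℓ x = ℓ.1 + ((ℓ.2 : ℝ) - ℓ.1) * wt x := by
    unfold lam
    ring
  have h4 := abs_le.1 h
  rw [h3]
  constructor <;> nlinarith

/-- counts in the slab of height `h` below a nearly horizontal line -/
theorem slab_below {m : Set Pl → ℕ} (hm : ∀ {R R' : Set Pl}, R ⊆ R' → m R ≤ m R')
    (hu : ∀ {R R' : Set Pl}, Disjoint R R' → m (R ∪ R') = m R + m R')
    {s e H : ℝ} (hs : 0 ≤ s)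
    (hreg : ∀ h, 0 ≤ h → h ≤ H → |(m {p | 0 < p.2 ∧ p.2 ≤ h} : ℝ) - s * h| ≤ e)
    {ℓ : ℕ × ℕ} {E : ℝ} (hE : |(ℓ.2 : ℝ) - ℓ.1| ≤ E) (hH : (ℓ.1 : ℝ) + E ≤ H) {h : ℝ}
    (h0 : 0 ≤ h) (h1 : h ≤ ℓ.1 - E) :
    |(m {p | lam ℓ p.1 - h < p.2 ∧ p.2 ≤ lam ℓ p.1} : ℝ) - s * h| ≤ 2 * (s * E) + 2 * e := by
  have hE0 : 0 ≤ E := (abs_nonneg _).trans hE
  have hun : ({p | 0 < p.2 ∧ p.2 ≤ lam ℓ p.1} : Set Pl) =
      {p | 0 < p.2 ∧ p.2 ≤ lam ℓ p.1 - h} ∪ {p | lam ℓ p.1 - h < p.2 ∧ p.2 ≤ lam ℓ p.1} := by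
    ext p
    have h2 := (lam_near hE p.1).1
    simp only [Set.mem_union, Set.mem_ofPred_eq]
    constructor
    · rintro ⟨h3, h4⟩
      rcases le_or_gt p.2 (lam ℓ p.1 - h) with h5 | h5
      · exact Or.inl ⟨h3, h5⟩
      · exact Or.inr ⟨h5, h4⟩
    · rintro (⟨h3, h4⟩ | ⟨h3, h4⟩)
      · exact ⟨h3, by linarith⟩
      · exact ⟨by linarith, h4⟩
  have hdis : Disjoint ({p | 0 < p.2 ∧ p.2 ≤ lam ℓ p.1 - h} : Set Pl)
      {p | lam ℓ p.1 - h < p.2 ∧ p.2 ≤ lam ℓ p.1} := by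
    refine Set.disjoint_left.2 fun p hp hp' => ?_
    have h3 : p.2 ≤ lam ℓ p.1 - h := hp.2
    have h4 : lam ℓ p.1 - h < p.2 := hp'.1
    linarith
  have h2 := hu hdis
  rw [← hun] at h2
  have h2' : (m {p | 0 < p.2 ∧ p.2 ≤ lam ℓ p.1} : ℝ) = m {p | 0 < p.2 ∧ p.2 ≤ lam ℓ p.1 - h} +
      m {p | lam ℓ p.1 - h < p.2 ∧ p.2 ≤ lam ℓ p.1} := by
    rw [h2]
    push_cast
    ring
  -- bounds for the two counts
  have key : ∀ t, 0 ≤ t → t ≤ ℓ.1 - E →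
      s * (ℓ.1 - t) - (s * E + e) ≤ (m {p | 0 < p.2 ∧ p.2 ≤ lam ℓ p.1 - t} : ℝ) ∧
      (m {p | 0 < p.2 ∧ p.2 ≤ lam ℓ p.1 - t} : ℝ) ≤ s * (ℓ.1 - t) + (s * E + e) := by
    intro t ht0 ht1
    have k1 := abs_le.1 (hreg (ℓ.1 - E - t) (by linarith) (by linarith))
    have k2 := abs_le.1 (hreg (ℓ.1 + E - t) (by linarith) (by linarith))
    have k3 : (m {p | 0 < p.2 ∧ p.2 ≤ ℓ.1 - E - t} : ℝ) ≤
        m {p | 0 < p.2 ∧ p.2 ≤ lam ℓ p.1 - t} := by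
      refine Nat.cast_le.2 (hm fun p hp => ?_)
      have := (lam_near hE p.1).1
      exact ⟨hp.1, hp.2.trans (by linarith)⟩
    have k4 : (m {p | 0 < p.2 ∧ p.2 ≤ lam ℓ p.1 - t} : ℝ) ≤
        m {p | 0 < p.2 ∧ p.2 ≤ ℓ.1 + E - t} := by
      refine Nat.cast_le.2 (hm fun p hp => ?_)
      have := (lam_near hE p.1).2
      exact ⟨hp.1, hp.2.trans (by linarith)⟩
    constructor
    · nlinarith [k1.1]
    · nlinarith [k2.2]
  have k0 := key 0 le_rfl (by linarith)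
  have kh := key h h0 h1
  simp only [sub_zero] at k0
  rw [abs_le]
  constructor
  · nlinarith [k0.1, kh.2]
  · nlinarith [k0.2, kh.1]

theorem st_succ_fst (c : Conf) (k : ℕ) :
    ((st c (k + 1)).1 : ℝ) ≤ (st c k).1 + 1 + |(im c k : ℝ)| := by
  rw [st_succ]
  unfold nextL
  push_cast
  have h1 : (((-im c k).toNat : ℤ)) ≤ |im c k| := by
    rw [Int.toNat_eq_max]
    exact max_le (neg_le_abs _) (abs_nonneg _)
  have h2 : (((-im c k).toNat : ℕ) : ℝ) ≤ |(im c k : ℝ)| := by exact_mod_cast h1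
  linarith

theorem st_succ_diff (c : Conf) (k : ℕ) :
    ((st c (k + 1)).2 : ℝ) - (st c (k + 1)).1 = (st c k).2 - (st c k).1 + (im c k : ℝ) := by
  rw [st_succ]
  unfold nextL
  push_cast
  have h1 : (((im c k).toNat : ℤ)) - ((-im c k).toNat : ℤ) = im c k := Int.toNat_sub_toNat_neg _
  have h2 : (((im c k).toNat : ℕ) : ℝ) - (((-im c k).toNat : ℕ) : ℝ) = (im c k : ℝ) := by
    exact_mod_cast h1
  linarith

/-- If all the lines at distance at most `5 r` before the `k`-th one see a regular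
configuration above them, and have small imbalance, then the configuration below the `k`-th line
is regular in its own coordinates. -/
theorem regDn_of_past {n N : ℕ} {τ δ r : ℝ} {c : Conf} {k : ℕ} (hc : InStrip n c) (hτ : 0 ≤ τ)
    (hτ1 : τ ≤ 1) (hδ : 0 < δ) (hδ1 : δ ≤ 1 / 1000) (hr : 8 ≤ r) (hN : 16 ≤ δ * N)
    (hreg : ∀ i ≤ k, (k : ℝ) ≤ i + 5 * r → RegUp N τ δ r (uc c i) ∧ |(im c i : ℝ)| ≤ δ * r)
    (hh : 5 * r ≤ ((st c k).1 : ℝ)) : RegDn N τ (1000 * δ) r (st c k) c := by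
  classical
  have hδr : δ * r ≤ r / 1000 := by nlinarith
  have hδr0 : 0 < δ * r := by positivity
  -- the index `i`
  let P : ℕ → Prop := fun i => 4 * r ≤ ((st c k).1 : ℝ) - (st c i).1
  have hP0 : P 0 := by
    show 4 * r ≤ ((st c k).1 : ℝ) - (st c 0).1
    have : (st c 0).1 = 0 := rfl
    rw [this]
    push_cast
    linarith
  set i := Nat.findGreatest P k with hi
  have hPi : P i := Nat.findGreatest_spec (Nat.zero_le k) hP0
  have hik : i ≤ k := Nat.findGreatest_le k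
  have hik' : i < k := by
    rcases eq_or_lt_of_le hik with h | h
    · exfalso
      have h2 : 4 * r ≤ ((st c k).1 : ℝ) - (st c i).1 := hPi
      rw [h] at h2
      linarith
    · exact h
  have hPi1 : ((st c k).1 : ℝ) - (st c (i + 1)).1 < 4 * r := by
    by_contra hcon
    exact Nat.findGreatest_is_greatest (P := P) (n := k) (k := i + 1) (by omega) hik'
      (not_lt.1 hcon)
  have hki : (k : ℝ) ≤ i + 5 * r := by
    have h1 := (ex_add_le 0 c (i + 1) (k - (i + 1))).1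
    rw [show i + 1 + (k - (i + 1)) = k by omega] at h1
    have h2 : (((st c (i + 1)).1 + (k - (i + 1)) : ℕ) : ℝ) ≤ (st c k).1 := Nat.cast_le.2 h1
    rw [Nat.cast_add, Nat.cast_sub (by omega)] at h2
    push_cast at h2
    linarith
  obtain ⟨hri, himi⟩ := hreg i hik hki
  have hregC : RegUpC τ δ r (uc c i) := hri.cont hτ hτ1 (by linarith) hN
  have hX : ∀ p ∈ (uc c i).X, 0 ≤ p.1 ∧ p.1 ≤ 1 ∧ 0 < p.2 := by
    intro p hp
    obtain ⟨q, hq, h1, h2⟩ := mem_up_X hp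
    obtain ⟨g1, g2, -, -⟩ := hc.X q hq
    rw [← h1]
    exact ⟨g1, g2, h2⟩
  have hY : ∀ p ∈ (uc c i).Y, 2 ≤ p.1 ∧ p.1 ≤ 3 ∧ 0 < p.2 := by
    intro p hp
    obtain ⟨q, hq, h1, h2⟩ := mem_up_Y hp
    obtain ⟨g1, g2, -, -⟩ := hc.Y q hq
    rw [← h1]
    exact ⟨g1, g2, h2⟩
  have hAk : ((st c k).1 : ℝ) - (st c i).1 ≤ 9 / 2 * r := by
    have h1 := st_succ_fst c i
    linarith
  -- the relative lines
  let e : ℕ → ℕ × ℕ := fun m => ex (im c i) (uc c i) m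
  have he : ∀ m, st c (i + m) = st c i + e m := fun m => st_add c i m
  have he1 : ∀ m, ((e m).1 : ℝ) = (st c (i + m)).1 - (st c i).1 := by
    intro m
    rw [he m, Prod.fst_add]
    push_cast
    ring
  have he2 : ∀ m, ((e m).2 : ℝ) = (st c (i + m)).2 - (st c i).2 := by
    intro m
    rw [he m, Prod.snd_add]
    push_cast
    ring
  have hD : ∀ m, i + m ≤ k → |((e m).2 : ℝ) - (e m).1| ≤ 12 * (δ * r) := by
    intro m
    induction m with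
    | zero =>
      intro _
      have : e 0 = (0, 0) := rfl
      rw [this]
      simp
      positivity
    | succ m ih =>
      intro hm
      have ih' := ih (by omega)
      have h1 : ((e (m + 1)).2 : ℝ) - (e (m + 1)).1 =
          (e m).2 - (e m).1 + (im c (i + m) : ℝ) := by
        have h2 := st_succ_diff c (i + m)
        rw [he1, he2, he1, he2, ← add_assoc]
        linarith
      have hreg2 : ∀ j, i ≤ j → j ≤ k → |(im c j : ℝ)| ≤ δ * r := by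
        intro j hj1 hj2
        refine (hreg j hj2 ?_).2
        have : (i : ℝ) ≤ j := by exact_mod_cast hj1
        linarith
      have h3 := abs_le.1 (hreg2 (i + m) (by omega) (by omega))
      have h3' := abs_le.1 (hreg2 (i + (m + 1)) (by omega) hm)
      have h4 := abs_le.1 ih'
      have h5 : ((e (m + 1)).1 : ℝ) ≤ 9 / 2 * r := by
        rw [he1]
        have h6 : ((st c (i + (m + 1))).1 : ℝ) ≤ (st c k).1 := by
          exact_mod_cast (ex_mono 0 c hm).1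
        linarith
      have h6 : ((e (m + 1)).2 : ℝ) ≤ 8 * r := by linarith [h3.2, h4.2]
      have h7 := slope_le hX hY hregC (e (m + 1)) (by linarith) h6
      have h8 : im c (i + (m + 1)) = im c i + imb (uc c i) (e (m + 1)) := im_add c i (m + 1)
      have h9 : (imb (uc c i) (e (m + 1)) : ℝ) = im c (i + (m + 1)) - im c i := by
        rw [h8]
        push_cast
        ring
      have h10 : |(imb (uc c i) (e (m + 1)) : ℝ)| ≤ 2 * (δ * r) := by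
        rw [h9]
        refine (abs_sub _ _).trans ?_
        have := hreg2 (i + (m + 1)) (by omega) hm
        linarith
      linarith
  -- the final line
  obtain ⟨m, hm⟩ : ∃ m, k = i + m := ⟨k - i, by omega⟩
  have hDk := hD m hm.ge
  have hst : st c k = st c i + e m := by rw [hm]; exact he m
  have hA1 : 4 * r ≤ ((e m).1 : ℝ) := by rw [he1, ← hm]; exact hPi
  have hA2 : ((e m).1 : ℝ) ≤ 9 / 2 * r := by rw [he1, ← hm]; exact hAk
  have hset : ∀ h, 0 ≤ h → h ≤ 3 * r → ∀ T : Set ℝ,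
      (above (st c i) ∩ shift (st c i) ⁻¹'
        {p | p.1 ∈ T ∧ lam (e m) p.1 - h < p.2 ∧ p.2 ≤ lam (e m) p.1} : Set Pl) =
      {p | p.1 ∈ T ∧ lam (st c k) p.1 - h < p.2 ∧ p.2 ≤ lam (st c k) p.1} := by
    intro h h0 h1 T
    ext p
    have h2 := (lam_near hDk p.1).1
    simp only [above, shift, Set.mem_inter_iff, Set.mem_ofPred_eq, Set.mem_preimage, hst, lam_add]
    constructor
    · rintro ⟨_, g0, g1, g2⟩
      exact ⟨g0, by linarith, by linarith⟩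
    · rintro ⟨g0, g1, g2⟩
      exact ⟨by linarith, g0, by linarith, by linarith⟩
  intro j hj
  have hj1 : (j : ℝ) ≤ N := by exact_mod_cast hj
  have hN0 : (0 : ℝ) < N := by
    rcases Nat.eq_zero_or_pos N with h0 | h0
    · subst h0; simp at hN; linarith
    · exact_mod_cast h0
  set h : ℝ := 3 * r * j / N with hh'
  have h0 : 0 ≤ h := by positivity
  have h3r : h ≤ 3 * r := by
    rw [hh', div_le_iff₀ hN0]
    nlinarith
  have hT : ∀ (R : Set Pl), ({p | p.1 ∈ (Set.univ : Set ℝ) ∧ p ∈ R} : Set Pl) = R := by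
    intro R
    ext p
    simp
  have hset1 : (above (st c i) ∩ shift (st c i) ⁻¹'
        {p | lam (e m) p.1 - h < p.2 ∧ p.2 ≤ lam (e m) p.1} : Set Pl) =
      {p | lam (st c k) p.1 - h < p.2 ∧ p.2 ≤ lam (st c k) p.1} := by
    have := hset h h0 h3r Set.univ
    simpa using this
  have hset2 : (above (st c i) ∩ shift (st c i) ⁻¹'
        {p | 1 - τ ≤ p.1 ∧ lam (e m) p.1 - h < p.2 ∧ p.2 ≤ lam (e m) p.1} : Set Pl) =
      {p | 1 - τ ≤ p.1 ∧ lam (st c k) p.1 - h < p.2 ∧ p.2 ≤ lam (st c k) p.1} := by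
    have := hset h h0 h3r (Set.Ici (1 - τ))
    simpa using this
  refine ⟨?_, ?_, ?_⟩
  · rw [← hset1, ← nX_up]
    have h5 := slab_below (m := fun R => (uc c i).nX R) (fun h => nX_mono h _)
      (fun h => nX_union h _) zero_le_one (fun t ht0 ht1 => by simpa using (hregC t ht0 ht1).1)
      hDk (by linarith) h0 (by linarith)
    simp only [one_mul] at h5
    refine h5.trans ?_
    linarith
  · rw [← hset2, ← nX_up]
    have h5 := slab_below (m := fun R => (uc c i).nX ({p | 1 - τ ≤ p.1} ∩ R))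
      (fun h => nX_mono (Set.inter_subset_inter_right _ h) _)
      (fun {R R'} h => by
        show (uc c i).nX ({p | 1 - τ ≤ p.1} ∩ (R ∪ R')) = _
        rw [Set.inter_union_distrib_left]
        exact nX_union (h.mono Set.inter_subset_right Set.inter_subset_right) _) hτ
      (fun t ht0 ht1 => (hregC t ht0 ht1).2.1)
      hDk (by linarith) h0 (by linarith)
    refine h5.trans ?_
    have : τ * (12 * (δ * r)) ≤ 12 * (δ * r) := by
      have : 0 ≤ 12 * (δ * r) := by positivity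
      nlinarith
    linarith
  · rw [← hset1, ← nY_up]
    have h5 := slab_below (m := fun R => (uc c i).nY R) (fun h => nY_mono h _)
      (fun h => nY_union h _) zero_le_one (fun t ht0 ht1 => by simpa using (hregC t ht0 ht1).2.2)
      hDk (by linarith) h0 (by linarith)
    simp only [one_mul] at h5
    refine h5.trans ?_
    linarith

/-! #### Auxiliary lemmas for `slab_of_reg` and `pat_near` -/

/-- a monotone additive counting function -/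
structure Cnt (μ : Set Pl → ℕ) : Prop where
  union : ∀ {R R' : Set Pl}, Disjoint R R' → μ (R ∪ R') = μ R + μ R'
  mono : ∀ {R R' : Set Pl}, R ⊆ R' → μ R ≤ μ R'

theorem cnt_nX (c : Conf) : Cnt (fun R => c.nX R) :=
  ⟨fun h => nX_union h c, fun h => nX_mono h c⟩

theorem cnt_nY (c : Conf) : Cnt (fun R => c.nY R) :=
  ⟨fun h => nY_union h c, fun h => nY_mono h c⟩

/-- the part of `A` between the heights `a` and `b` relative to `ℓ` -/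
def slabS (ℓ : ℕ × ℕ) (A : Set Pl) (a b : ℝ) : Set Pl :=
  {p | p ∈ A ∧ a < p.2 - lam ℓ p.1 ∧ p.2 - lam ℓ p.1 ≤ b}

theorem slabS_add {μ : Set Pl → ℕ} (hμ : Cnt μ) (ℓ : ℕ × ℕ) (A : Set Pl) {a b d : ℝ}
    (hab : a ≤ b) (hbd : b ≤ d) :
    μ (slabS ℓ A a d) = μ (slabS ℓ A a b) + μ (slabS ℓ A b d) := by
  have h1 : slabS ℓ A a d = slabS ℓ A a b ∪ slabS ℓ A b d := by
    ext p
    show (p ∈ A ∧ a < p.2 - lam ℓ p.1 ∧ p.2 - lam ℓ p.1 ≤ d) ↔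
      (p ∈ A ∧ a < p.2 - lam ℓ p.1 ∧ p.2 - lam ℓ p.1 ≤ b) ∨
        (p ∈ A ∧ b < p.2 - lam ℓ p.1 ∧ p.2 - lam ℓ p.1 ≤ d)
    constructor
    · rintro ⟨h1, h2, h3⟩
      rcases le_or_gt (p.2 - lam ℓ p.1) b with h | h
      · exact Or.inl ⟨h1, h2, h⟩
      · exact Or.inr ⟨h1, h, h3⟩
    · rintro (⟨h1, h2, h3⟩ | ⟨h1, h2, h3⟩)
      · exact ⟨h1, h2, h3.trans hbd⟩
      · exact ⟨h1, lt_of_le_of_lt hab h2, h3⟩
  rw [h1]
  refine hμ.union (Set.disjoint_left.2 fun p hp hp' => ?_)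
  have h2 : p.2 - lam ℓ p.1 ≤ b := hp.2.2
  have h3 : b < p.2 - lam ℓ p.1 := hp'.2.1
  linarith

theorem slabS_le {μ : Set Pl → ℕ} (hμ : Cnt μ) (ℓ : ℕ × ℕ) (A : Set Pl) {a b b' : ℝ}
    (hb : b ≤ b') : μ (slabS ℓ A a b) ≤ μ (slabS ℓ A a b') :=
  hμ.mono fun _ hp => ⟨hp.1, hp.2.1, hp.2.2.trans hb⟩

theorem slabS_self {μ : Set Pl → ℕ} (hμ : Cnt μ) (ℓ : ℕ × ℕ) (A : Set Pl) (a : ℝ) :
    μ (slabS ℓ A a a) = 0 := by
  have := slabS_add hμ ℓ A (le_refl a) (le_refl a)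
  omega

theorem slabS_cells {μ : Set Pl → ℕ} (hμ : Cnt μ) (ℓ : ℕ × ℕ) (A : Set Pl) {K : ℕ}
    (hcell : ∀ j : ℕ, j < 2 * K → μ (slabS ℓ A j (j + 1)) = 1) {j : ℕ} (hj : j ≤ 2 * K) :
    μ (slabS ℓ A 0 j) = j := by
  induction j with
  | zero =>
    rw [Nat.cast_zero]
    exact slabS_self hμ ℓ A 0
  | succ j ih =>
    have h0 : (0 : ℝ) ≤ j := Nat.cast_nonneg j
    rw [Nat.cast_add, Nat.cast_one, slabS_add hμ ℓ A h0 (by linarith : (j : ℝ) ≤ j + 1),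
      ih (by omega), hcell j (by omega)]

theorem slabS_mid {μ : Set Pl → ℕ} (hμ : Cnt μ) (ℓ : ℕ × ℕ) (A : Set Pl) {K : ℕ}
    (hcell : ∀ j : ℕ, j < 2 * K → μ (slabS ℓ A j (j + 1)) = 1) {h : ℝ} (h0 : 0 ≤ h)
    (hK : h ≤ 2 * K) : |(μ (slabS ℓ A 0 h) : ℝ) - h| ≤ 1 := by
  have h1 : ((⌊h⌋₊ : ℕ) : ℝ) ≤ h := Nat.floor_le h0
  have h2 : h < (⌊h⌋₊ : ℕ) + 1 := Nat.lt_floor_add_one h
  have h3 : ⌊h⌋₊ ≤ 2 * K := by
    have : ((⌊h⌋₊ : ℕ) : ℝ) ≤ ((2 * K : ℕ) : ℝ) := by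
      push_cast
      linarith
    exact_mod_cast this
  have h4 : (⌊h⌋₊ : ℕ) ≤ μ (slabS ℓ A 0 h) := by
    calc (⌊h⌋₊ : ℕ) = μ (slabS ℓ A 0 (⌊h⌋₊ : ℕ)) := (slabS_cells hμ ℓ A hcell h3).symm
      _ ≤ μ (slabS ℓ A 0 h) := slabS_le hμ ℓ A h1
  have h4' : ((⌊h⌋₊ : ℕ) : ℝ) ≤ (μ (slabS ℓ A 0 h) : ℝ) := by exact_mod_cast h4
  rcases lt_or_eq_of_le h3 with h5 | h5
  · have h6 : μ (slabS ℓ A 0 h) ≤ ⌊h⌋₊ + 1 := by
      calc μ (slabS ℓ A 0 h) ≤ μ (slabS ℓ A 0 ((⌊h⌋₊ + 1 : ℕ) : ℝ)) :=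
            slabS_le hμ ℓ A (by push_cast; linarith)
        _ = ⌊h⌋₊ + 1 := slabS_cells hμ ℓ A hcell h5
    have h6' : (μ (slabS ℓ A 0 h) : ℝ) ≤ (⌊h⌋₊ : ℕ) + 1 := by exact_mod_cast h6
    rw [abs_le]
    constructor <;> linarith
  · have h6 : h = ((2 * K : ℕ) : ℝ) := by
      have : ((⌊h⌋₊ : ℕ) : ℝ) = ((2 * K : ℕ) : ℝ) := by rw [h5]
      push_cast at this ⊢
      linarith
    have h7 : μ (slabS ℓ A 0 h) = 2 * K := by
      rw [h6]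
      exact slabS_cells hμ ℓ A hcell (le_refl _)
    rw [h7, ← h6, sub_self, abs_zero]
    exact zero_le_one

theorem slab_abs {μ : Set Pl → ℕ} (hμ : Cnt μ) (ℓ : ℕ × ℕ) (A : Set Pl) {τ' ε r : ℝ} {K : ℕ}
    (hτ' : τ' ≤ 1) (hε : 0 ≤ ε)
    (hcell : ∀ j : ℕ, j < 2 * K → μ (slabS ℓ A j (j + 1)) = 1)
    (hdn : ∀ h : ℝ, 0 ≤ h → h ≤ 3 * r → |(μ (slabS ℓ A (-h) 0) : ℝ) - τ' * h| ≤ ε)
    (hup : ∀ h : ℝ, 0 ≤ h → h ≤ 8 * r →
      |(μ (slabS ℓ A (2 * K) (2 * K + h)) : ℝ) - τ' * h| ≤ ε)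
    {a b : ℝ} (ha : -(3 * r) ≤ a) (hab : a ≤ b) (hb : b ≤ 8 * r) :
    τ' * (b - a) - 2 * (ε + 1) ≤ (μ (slabS ℓ A a b) : ℝ) ∧
      (τ' = 1 → |(μ (slabS ℓ A a b) : ℝ) - (b - a)| ≤ 2 * (ε + 1)) := by
  have hK0 : (0 : ℝ) ≤ K := Nat.cast_nonneg K
  obtain ⟨G, hG⟩ : ∃ G : ℝ → ℝ, ∀ v, (v ≤ 0 → G v = -(μ (slabS ℓ A v 0) : ℝ)) ∧
      (0 < v → G v = (μ (slabS ℓ A 0 v) : ℝ)) := by
    classical
    refine ⟨fun v => if v ≤ 0 then -(μ (slabS ℓ A v 0) : ℝ) else (μ (slabS ℓ A 0 v) : ℝ),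
      fun v => ⟨fun h => ?_, fun h => ?_⟩⟩
    · simp only [if_pos h]
    · simp only [if_neg (not_le.2 h)]
  obtain ⟨m, hm⟩ : ∃ m : ℝ → ℝ, ∀ v, (v ≤ 0 → m v = τ' * v) ∧
      (0 < v → v ≤ 2 * K → m v = v) ∧
      (0 < v → 2 * K < v → m v = 2 * K + τ' * (v - 2 * K)) := by
    classical
    refine ⟨fun v => if v ≤ 0 then τ' * v else if v ≤ 2 * K then v else
      2 * K + τ' * (v - 2 * K), fun v => ⟨fun h => ?_, fun h h' => ?_, fun h h' => ?_⟩⟩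
    · simp only [if_pos h]
    · simp only [if_neg (not_le.2 h), if_pos h']
    · simp only [if_neg (not_le.2 h), if_neg (not_le.2 h')]
  have hcast : ∀ {a b d : ℝ}, a ≤ b → b ≤ d → (μ (slabS ℓ A a d) : ℝ) =
      (μ (slabS ℓ A a b) : ℝ) + (μ (slabS ℓ A b d) : ℝ) := by
    intro a b d h1 h2
    exact_mod_cast slabS_add hμ ℓ A h1 h2
  have hFG : (μ (slabS ℓ A a b) : ℝ) = G b - G a := by
    rcases le_or_gt b 0 with h1 | h1
    · rw [(hG b).1 h1, (hG a).1 (hab.trans h1)]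
      have := hcast hab h1
      linarith
    · rcases le_or_gt a 0 with h2 | h2
      · rw [(hG b).2 h1, (hG a).1 h2]
        have := hcast h2 h1.le
        linarith
      · rw [(hG b).2 h1, (hG a).2 h2]
        have := hcast h2.le hab
        linarith
  have hGm : ∀ v, -(3 * r) ≤ v → v ≤ 8 * r → |G v - m v| ≤ ε + 1 := by
    intro v hv1 hv2
    rcases le_or_gt v 0 with h1 | h1
    · have h2 := hdn (-v) (by linarith) (by linarith)
      rw [neg_neg] at h2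
      rw [(hG v).1 h1, (hm v).1 h1]
      rw [abs_le] at h2 ⊢
      constructor <;> linarith [h2.1, h2.2]
    · rcases le_or_gt v (2 * K) with h2 | h2
      · have h3 := slabS_mid hμ ℓ A hcell h1.le h2
        rw [(hG v).2 h1, (hm v).2.1 h1 h2]
        linarith
      · have h3 := slabS_mid hμ ℓ A hcell (by linarith : (0 : ℝ) ≤ 2 * K) (le_refl _)
        have h4 := hup (v - 2 * K) (by linarith) (by linarith)
        rw [show (2 * (K : ℝ) + (v - 2 * K)) = v by ring] at h4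
        rw [(hG v).2 h1, (hm v).2.2 h1 h2,
          hcast (by linarith : (0 : ℝ) ≤ 2 * K) h2.le]
        rw [abs_le] at h3 h4 ⊢
        constructor <;> linarith [h3.1, h3.2, h4.1, h4.2]
  have hmm : τ' * (b - a) ≤ m b - m a := by
    rcases le_or_gt b 0 with h1 | h1
    · rw [(hm b).1 h1, (hm a).1 (hab.trans h1)]
      linarith
    · rcases le_or_gt a 0 with h2 | h2
      · rw [(hm a).1 h2]
        rcases le_or_gt b (2 * K) with h3 | h3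
        · rw [(hm b).2.1 h1 h3]
          nlinarith
        · rw [(hm b).2.2 h1 h3]
          nlinarith
      · rcases le_or_gt b (2 * K) with h3 | h3
        · rw [(hm b).2.1 h1 h3, (hm a).2.1 h2 (by linarith)]
          nlinarith
        · rw [(hm b).2.2 h1 h3]
          rcases le_or_gt a (2 * K) with h4 | h4
          · rw [(hm a).2.1 h2 h4]
            nlinarith
          · rw [(hm a).2.2 h2 h4]
            linarith
  have hga := hGm a ha (by linarith)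
  have hgb := hGm b (by linarith) hb
  rw [abs_le] at hga hgb
  refine ⟨?_, fun h1 => ?_⟩
  · rw [hFG]
    linarith [hga.1, hga.2, hgb.1, hgb.2]
  · have hmv : ∀ v, m v = v := by
      intro v
      rcases le_or_gt v 0 with h2 | h2
      · rw [(hm v).1 h2, h1, one_mul]
      · rcases le_or_gt v (2 * K) with h3 | h3
        · exact (hm v).2.1 h2 h3
        · rw [(hm v).2.2 h2 h3, h1]
          ring
    rw [hmv a] at hga
    rw [hmv b] at hgb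
    rw [hFG, abs_le]
    constructor <;> linarith [hga.1, hga.2, hgb.1, hgb.2]

/-- cells of `up ℓ c` as slabs -/
theorem cell_eq (ℓ : ℕ × ℕ) (A : Set ℝ) {a b : ℝ} (ha : 0 ≤ a) :
    above ℓ ∩ shift ℓ ⁻¹' {p | p.1 ∈ A ∧ a < p.2 ∧ p.2 ≤ b} = slabS ℓ {p | p.1 ∈ A} a b := by
  ext p
  show (lam ℓ p.1 < p.2 ∧ (p.1 ∈ A ∧ a < p.2 - lam ℓ p.1 ∧ p.2 - lam ℓ p.1 ≤ b)) ↔
    (p.1 ∈ A ∧ a < p.2 - lam ℓ p.1 ∧ p.2 - lam ℓ p.1 ≤ b)
  constructor
  · exact fun h => h.2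
  · exact fun h => ⟨by linarith [h.2.1], h⟩

theorem cell_eq' (ℓ : ℕ × ℕ) {a b : ℝ} (ha : 0 ≤ a) :
    above ℓ ∩ shift ℓ ⁻¹' {p | a < p.2 ∧ p.2 ≤ b} = slabS ℓ Set.univ a b := by
  ext p
  show (lam ℓ p.1 < p.2 ∧ (a < p.2 - lam ℓ p.1 ∧ p.2 - lam ℓ p.1 ≤ b)) ↔
    (True ∧ a < p.2 - lam ℓ p.1 ∧ p.2 - lam ℓ p.1 ≤ b)
  constructor
  · exact fun h => ⟨trivial, h.2⟩
  · exact fun h => ⟨by linarith [h.2.1], h.2⟩

theorem lam_add_diag (ℓ : ℕ × ℕ) (k : ℕ) (x : ℝ) : lam (ℓ + (k, k)) x = lam ℓ x + k := by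
  rw [lam_add, lam_diag]

theorem lam_cutL (K : ℕ) (ℓ : ℕ × ℕ) (x : ℝ) : lam (cutL K ℓ) x = lam ℓ x + K := by
  have : cutL K ℓ = ℓ + (K, K) := rfl
  rw [this, lam_add_diag]

/-- slabs relative to a raised line -/
theorem slabS_raise (ℓ : ℕ × ℕ) (k : ℕ) (A : Set Pl) (a b : ℝ) :
    slabS (ℓ + (k, k)) A a b = slabS ℓ A (a + k) (b + k) := by
  ext p
  show (p ∈ A ∧ a < p.2 - lam (ℓ + (k, k)) p.1 ∧ p.2 - lam (ℓ + (k, k)) p.1 ≤ b) ↔
    (p ∈ A ∧ a + k < p.2 - lam ℓ p.1 ∧ p.2 - lam ℓ p.1 ≤ b + k)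
  rw [lam_add_diag]
  constructor
  · rintro ⟨h1, h2, h3⟩
    exact ⟨h1, by linarith, by linarith⟩
  · rintro ⟨h1, h2, h3⟩
    exact ⟨h1, by linarith, by linarith⟩

theorem slabS_down (ℓ : ℕ × ℕ) (A : Set Pl) (h : ℝ) :
    {p | p ∈ A ∧ lam ℓ p.1 - h < p.2 ∧ p.2 ≤ lam ℓ p.1} = slabS ℓ A (-h) 0 := by
  ext p
  show (p ∈ A ∧ lam ℓ p.1 - h < p.2 ∧ p.2 ≤ lam ℓ p.1) ↔
    (p ∈ A ∧ -h < p.2 - lam ℓ p.1 ∧ p.2 - lam ℓ p.1 ≤ 0)
  constructor
  · rintro ⟨h1, h2, h3⟩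
    exact ⟨h1, by linarith, by linarith⟩
  · rintro ⟨h1, h2, h3⟩
    exact ⟨h1, by linarith, by linarith⟩

theorem slabS_down' (ℓ : ℕ × ℕ) (h : ℝ) :
    {p | lam ℓ p.1 - h < p.2 ∧ p.2 ≤ lam ℓ p.1} = slabS ℓ Set.univ (-h) 0 := by
  rw [← slabS_down]
  ext p
  exact ⟨fun h => ⟨trivial, h⟩, fun h => h.2⟩

theorem slabS_cut (K : ℕ) (ℓ : ℕ × ℕ) (A : Set Pl) (s t : ℝ) :
    {p | p ∈ A ∧ s < p.2 - lam (cutL K ℓ) p.1 ∧ p.2 - lam (cutL K ℓ) p.1 ≤ t} =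
      slabS ℓ A (s + K) (t + K) := by
  rw [← slabS_raise]
  rfl

theorem slabS_cut' (K : ℕ) (ℓ : ℕ × ℕ) (s t : ℝ) :
    {p | s < p.2 - lam (cutL K ℓ) p.1 ∧ p.2 - lam (cutL K ℓ) p.1 ≤ t} =
      slabS ℓ Set.univ (s + K) (t + K) := by
  rw [← slabS_cut]
  ext p
  exact ⟨fun h => ⟨trivial, h⟩, fun h => h.2⟩

/-- Slabs around the middle line of the pattern window. -/
theorem slab_of_reg {N K : ℕ} {τ τ₁ δ r : ℝ} {ℓ : ℕ × ℕ} {c : Conf} (hτ : 0 ≤ τ) (hτ1 : τ ≤ 1)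
    (hτ₁ : τ₁ ≤ τ) (hδ : 0 < δ) (hr : 0 < r) (hδr : 8 ≤ δ * r) (hK : (K : ℝ) ≤ r / 2)
    (hN : 256 ≤ δ * N) (hpat : Pat K τ₁ (up ℓ c))
    (hup : RegUp N τ (δ / 16) r (up (ℓ + (2 * K, 2 * K)) c))
    (hdn : RegDn N τ (δ / 16) r ℓ c) (s t : ℝ) (hs : -(2 * r) ≤ s) (hst : s ≤ t)
    (ht : t ≤ 2 * r) :
    |(c.nX {p | s < p.2 - lam (cutL K ℓ) p.1 ∧ p.2 - lam (cutL K ℓ) p.1 ≤ t} : ℝ) - (t - s)|
      ≤ δ * r ∧
    |(c.nY {p | s < p.2 - lam (cutL K ℓ) p.1 ∧ p.2 - lam (cutL K ℓ) p.1 ≤ t} : ℝ) - (t - s)|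
      ≤ δ * r ∧
    τ * (t - s) - δ * r ≤ (c.nX {p | 1 - τ ≤ p.1 ∧ s < p.2 - lam (cutL K ℓ) p.1 ∧
      p.2 - lam (cutL K ℓ) p.1 ≤ t} : ℝ) := by
  have hNδ : 16 ≤ δ / 16 * N := by linarith
  have hdnC := hdn.cont hτ hτ1 hr hNδ
  have hupC := hup.cont hτ hτ1 hr hNδ
  have hK0 : (0 : ℝ) ≤ K := Nat.cast_nonneg K
  have hε : 0 ≤ δ / 16 * r := by positivity
  have ha : -(3 * r) ≤ s + K := by linarith
  have hab : s + (K : ℝ) ≤ t + K := by linarith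
  have hb : t + (K : ℝ) ≤ 8 * r := by linarith
  have hcast : ((2 * K : ℕ) : ℝ) = 2 * (K : ℝ) := by push_cast; ring
  have hdis : t + K - (s + K) = t - s := by ring
  -- the full `X` count
  have hX := slab_abs (τ' := 1) (K := K) (cnt_nX c) ℓ Set.univ (le_refl 1) hε
    (fun j hj => by
      have h1 := (hpat j hj).1
      rw [nX_up, cell_eq' ℓ (Nat.cast_nonneg j)] at h1
      exact h1)
    (fun h h0 h3 => by
      have h1 := (hdnC h h0 h3).1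
      rw [slabS_down'] at h1
      rw [one_mul]
      exact h1)
    (fun h h0 h8 => by
      have h1 := (hupC h h0 h8).1
      rw [nX_up, cell_eq' _ (le_refl 0), slabS_raise, hcast, zero_add, add_comm h] at h1
      rw [one_mul]
      exact h1)
    ha hab hb
  -- the `Y` count
  have hY := slab_abs (τ' := 1) (K := K) (cnt_nY c) ℓ Set.univ (le_refl 1) hε
    (fun j hj => by
      have h1 := (hpat j hj).2.2.1
      rw [nY_up, cell_eq' ℓ (Nat.cast_nonneg j)] at h1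
      exact h1)
    (fun h h0 h3 => by
      have h1 := (hdnC h h0 h3).2.2
      rw [slabS_down'] at h1
      rw [one_mul]
      exact h1)
    (fun h h0 h8 => by
      have h1 := (hupC h h0 h8).2.2
      rw [nY_up, cell_eq' _ (le_refl 0), slabS_raise, hcast, zero_add, add_comm h] at h1
      rw [one_mul]
      exact h1)
    ha hab hb
  -- the edge `X` count
  have hE := slab_abs (τ' := τ) (K := K) (cnt_nX c) ℓ {p | p.1 ∈ Set.Ici (1 - τ)} hτ1 hε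
    (fun j hj => by
      have h1 := (hpat j hj).1
      rw [nX_up, cell_eq' ℓ (Nat.cast_nonneg j)] at h1
      have h2 := (hpat j hj).2.1
      rw [nX_up] at h2
      have h3' : slabS ℓ {p | p.1 ∈ Set.Ici (1 - τ)} (j : ℝ) (j + 1) ⊆
          slabS ℓ Set.univ (j : ℝ) (j + 1) := fun p hp => ⟨trivial, hp.2⟩
      have h3 := nX_mono h3' c
      have h4 : c.nX (above ℓ ∩ shift ℓ ⁻¹'
          {p | 1 - τ₁ ≤ p.1 ∧ (j : ℝ) + 1 / 4 ≤ p.2 ∧ p.2 ≤ j + 3 / 4}) ≤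
          c.nX (slabS ℓ {p | p.1 ∈ Set.Ici (1 - τ)} j (j + 1)) := by
        refine nX_mono (fun p hp => ?_) c
        obtain ⟨_, hp1, hp2, hp3⟩ := hp
        have hp1' : 1 - τ₁ ≤ p.1 := hp1
        have hp2' : (j : ℝ) + 1 / 4 ≤ p.2 - lam ℓ p.1 := hp2
        have hp3' : p.2 - lam ℓ p.1 ≤ (j : ℝ) + 3 / 4 := hp3
        exact ⟨show 1 - τ ≤ p.1 by linarith, show (j : ℝ) < p.2 - lam ℓ p.1 by linarith,
          show p.2 - lam ℓ p.1 ≤ (j : ℝ) + 1 by linarith⟩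
      show c.nX (slabS ℓ {p | p.1 ∈ Set.Ici (1 - τ)} j (j + 1)) = 1
      omega)
    (fun h h0 h3 => by
      have h1 := (hdnC h h0 h3).2.1
      rw [show {p : Pl | 1 - τ ≤ p.1 ∧ lam ℓ p.1 - h < p.2 ∧ p.2 ≤ lam ℓ p.1} =
        {p : Pl | p ∈ {p : Pl | p.1 ∈ Set.Ici (1 - τ)} ∧ lam ℓ p.1 - h < p.2 ∧
          p.2 ≤ lam ℓ p.1} from rfl, slabS_down] at h1
      exact h1)
    (fun h h0 h8 => by
      have h1 := (hupC h h0 h8).2.1
      rw [nX_up, show {p : Pl | 1 - τ ≤ p.1 ∧ 0 < p.2 ∧ p.2 ≤ h} =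
        {p : Pl | p.1 ∈ Set.Ici (1 - τ) ∧ 0 < p.2 ∧ p.2 ≤ h} from rfl,
        cell_eq _ _ (le_refl 0), slabS_raise, hcast, zero_add, add_comm h] at h1
      exact h1)
    ha hab hb
  rw [hdis] at hX hY hE
  have herr : 2 * (δ / 16 * r + 1) ≤ δ * r := by linarith
  refine ⟨?_, ?_, ?_⟩
  · rw [slabS_cut']
    exact (hX.2 rfl).trans herr
  · rw [slabS_cut']
    exact (hY.2 rfl).trans herr
  · rw [show {p : Pl | 1 - τ ≤ p.1 ∧ s < p.2 - lam (cutL K ℓ) p.1 ∧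
        p.2 - lam (cutL K ℓ) p.1 ≤ t} = {p : Pl | p ∈ {p : Pl | p.1 ∈ Set.Ici (1 - τ)} ∧
        s < p.2 - lam (cutL K ℓ) p.1 ∧ p.2 - lam (cutL K ℓ) p.1 ≤ t} from rfl, slabS_cut]
    have := hE.1
    linarith

theorem nX_pos_of_mem {c : Conf} {R : Set Pl} {p : Pl} (hp : p ∈ c.X) (hR : p ∈ R) :
    0 < c.nX R := by
  classical
  unfold Conf.nX Conf.filt
  exact Multiset.card_pos_iff_exists_mem.2 ⟨p, Multiset.mem_filter.2 ⟨hp, hR⟩⟩

theorem nY_pos_of_mem {c : Conf} {R : Set Pl} {p : Pl} (hp : p ∈ c.Y) (hR : p ∈ R) :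
    0 < c.nY R := by
  classical
  unfold Conf.nY Conf.filt
  exact Multiset.card_pos_iff_exists_mem.2 ⟨p, Multiset.mem_filter.2 ⟨hp, hR⟩⟩

/-- the unique point of a cell lies in the box -/
theorem mem_of_cnt {μ : Set Pl → ℕ} (hμ : Cnt μ) {p : Pl}
    (hpos : ∀ R : Set Pl, p ∈ R → 0 < μ R) {B D : Set Pl} (hBD : B ⊆ D) (hB : μ B = 1)
    (hD : μ D = 1) (hp : p ∈ D) : p ∈ B := by
  by_contra hpB
  have h1 : μ D = μ B + μ (D \ B) := by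
    rw [← hμ.union disjoint_sdiff_self_right]
    congr 1
    exact (Set.union_sdiff_cancel hBD).symm
  have h2 := hpos (D \ B) ⟨hp, hpB⟩
  omega

theorem exists_cell {K : ℕ} {u : ℝ} (h : |u - K| ≤ K - 1) :
    ∃ j : ℕ, j < 2 * K ∧ (j : ℝ) < u ∧ u ≤ j + 1 := by
  rw [abs_le] at h
  have h1 : 1 ≤ u := by linarith [h.1]
  have h2 : u ≤ 2 * K - 1 := by linarith [h.2]
  have h3 : 0 < ⌈u⌉₊ := Nat.ceil_pos.2 (by linarith)
  have h4 : ⌈u⌉₊ < 2 * K := by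
    have h5 : (⌈u⌉₊ : ℝ) < u + 1 := Nat.ceil_lt_add_one (by linarith)
    have h6 : (⌈u⌉₊ : ℝ) < ((2 * K : ℕ) : ℝ) := by
      push_cast
      linarith
    exact_mod_cast h6
  refine ⟨⌈u⌉₊ - 1, by omega, ?_, ?_⟩
  · have h5 : (⌈u⌉₊ : ℝ) < u + 1 := Nat.ceil_lt_add_one (by linarith)
    rw [Nat.cast_sub h3, Nat.cast_one]
    linarith
  · rw [Nat.cast_sub h3, Nat.cast_one]
    have := Nat.le_ceil u
    linarith

theorem quarter_le {K j : ℕ} {u : ℝ} (h1 : (j : ℝ) + 1 / 4 ≤ u) (h2 : u ≤ j + 3 / 4) :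
    1 / 4 ≤ |u - K| := by
  rcases le_or_gt K j with h | h
  · have h3 : (K : ℝ) ≤ j := by exact_mod_cast h
    exact le_trans (by linarith) (le_abs_self _)
  · have h3 : (j : ℝ) + 1 ≤ K := by exact_mod_cast h
    rw [abs_sub_comm]
    exact le_trans (by linarith) (le_abs_self _)

/-- the points near the middle line of the pattern window -/
theorem pat_near {K : ℕ} {τ₁ : ℝ} {ℓ : ℕ × ℕ} {c : Conf} (hpat : Pat K τ₁ (up ℓ c)) :
    (∀ p ∈ c.X, |p.2 - lam (cutL K ℓ) p.1| ≤ K - 1 →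
      1 - τ₁ ≤ p.1 ∧ 1 / 4 ≤ |p.2 - lam (cutL K ℓ) p.1|) ∧
    (∀ p ∈ c.Y, |p.2 - lam (cutL K ℓ) p.1| ≤ K - 1 →
      p.1 ≤ 2 + τ₁ ∧ 1 / 4 ≤ |p.2 - lam (cutL K ℓ) p.1|) := by
  refine ⟨fun p hp h => ?_, fun p hp h => ?_⟩
  · rw [lam_cutL, ← sub_sub] at h ⊢
    obtain ⟨j, hj, h1, h2⟩ := exists_cell h
    have hD := (hpat j hj).1
    have hB := (hpat j hj).2.1
    rw [nX_up] at hD hB
    have hj0 : (0 : ℝ) ≤ j := Nat.cast_nonneg j
    have hsub : above ℓ ∩ shift ℓ ⁻¹'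
        {p | 1 - τ₁ ≤ p.1 ∧ (j : ℝ) + 1 / 4 ≤ p.2 ∧ p.2 ≤ j + 3 / 4} ⊆
        above ℓ ∩ shift ℓ ⁻¹' {p | (j : ℝ) < p.2 ∧ p.2 ≤ j + 1} := by
      rintro q ⟨hq1, hq2, hq3, hq4⟩
      have hq3' : (j : ℝ) + 1 / 4 ≤ q.2 - lam ℓ q.1 := hq3
      have hq4' : q.2 - lam ℓ q.1 ≤ (j : ℝ) + 3 / 4 := hq4
      exact ⟨hq1, show (j : ℝ) < q.2 - lam ℓ q.1 by linarith,
        show q.2 - lam ℓ q.1 ≤ (j : ℝ) + 1 by linarith⟩
    obtain ⟨_, hp1, hp2, hp3⟩ := mem_of_cnt (cnt_nX c) (fun R hR => nX_pos_of_mem hp hR)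
      hsub hB hD
      (show p ∈ above ℓ ∩ shift ℓ ⁻¹' {p | (j : ℝ) < p.2 ∧ p.2 ≤ j + 1} from
        ⟨show lam ℓ p.1 < p.2 by linarith, h1, h2⟩)
    exact ⟨hp1, quarter_le hp2 hp3⟩
  · rw [lam_cutL, ← sub_sub] at h ⊢
    obtain ⟨j, hj, h1, h2⟩ := exists_cell h
    have hD := (hpat j hj).2.2.1
    have hB := (hpat j hj).2.2.2
    rw [nY_up] at hD hB
    have hj0 : (0 : ℝ) ≤ j := Nat.cast_nonneg j
    have hsub : above ℓ ∩ shift ℓ ⁻¹'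
        {p | p.1 ≤ 2 + τ₁ ∧ (j : ℝ) + 1 / 4 ≤ p.2 ∧ p.2 ≤ j + 3 / 4} ⊆
        above ℓ ∩ shift ℓ ⁻¹' {p | (j : ℝ) < p.2 ∧ p.2 ≤ j + 1} := by
      rintro q ⟨hq1, hq2, hq3, hq4⟩
      have hq3' : (j : ℝ) + 1 / 4 ≤ q.2 - lam ℓ q.1 := hq3
      have hq4' : q.2 - lam ℓ q.1 ≤ (j : ℝ) + 3 / 4 := hq4
      exact ⟨hq1, show (j : ℝ) < q.2 - lam ℓ q.1 by linarith,
        show q.2 - lam ℓ q.1 ≤ (j : ℝ) + 1 by linarith⟩
    obtain ⟨_, hp1, hp2, hp3⟩ := mem_of_cnt (cnt_nY c) (fun R hR => nY_pos_of_mem hp hR)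
      hsub hB hD
      (show p ∈ above ℓ ∩ shift ℓ ⁻¹' {p | (j : ℝ) < p.2 ∧ p.2 ≤ j + 1} from
        ⟨show lam ℓ p.1 < p.2 by linarith, h1, h2⟩)
    exact ⟨hp1, quarter_le hp2 hp3⟩

end Pool.Agent.H27.OTC
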