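import Pool.Agent.H27.OTC.Freq
import Pool.Agent.H27.OTC.PastReg

/-!
Job OTC-C-FALSE: unreliable candidates are rare among the candidates.
-/

set_option autoImplicit false

open MeasureTheory ProbabilityTheory
open scoped ENNReal

namespace Pool.Agent.H27.OTC

open Pool.Agent.H96.OT (Pl)

/-- regularity above the pattern window and below the line, at all scales `2^j r₀`, `j ≤ J` -/
def Rel (K N : ℕ) (τ δ r₀ : ℝ) (J : ℕ) (c : Conf) (k : ℕ) : Prop :=
  (∀ j ≤ J, RegUp N τ δ (2 ^ j * r₀) (uc c (k + 2 * K))) ∧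
    ∀ j ≤ J, RegDn N τ (1000 * δ) (2 ^ j * r₀) (st c k) c

open Classical in
/-- indicator of an event -/
noncomputable def fcI (P : Conf → Prop) (c : Conf) : ℝ≥0∞ := if P c then 1 else 0

theorem fcI_pos {P : Conf → Prop} {c : Conf} (h : P c) : fcI P c = 1 := if_pos h

theorem fcI_neg {P : Conf → Prop} {c : Conf} (h : ¬ P c) : fcI P c = 0 := if_neg h

theorem fcI_le_one (P : Conf → Prop) (c : Conf) : fcI P c ≤ 1 := by
  by_cases h : P c
  · rw [fcI_pos h]
  · rw [fcI_neg h]; exact zero_le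

theorem measurable_fcI {P : Conf → Prop} (h : MeasurableSet {c | P c}) : Measurable (fcI P) := by
  classical
  exact Measurable.ite h measurable_const measurable_const

theorem fc_ite {μ : Measure Conf} {P : Conf → Prop} (hS : MeasurableSet {c | P c})
    {f : Conf → ℝ≥0∞} (hf : ∀ c, f c = fcI P c) : ∫⁻ c, f c ∂μ = μ {c | P c} := by
  classical
  have h : f = Set.indicator {c | P c} 1 := by
    funext c
    rw [hf, Set.indicator_apply]
    rfl
  rw [h, lintegral_indicator_one hS]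

theorem fc_past {P : Conf → Prop} {k : ℕ} (h : Past k P) : Past k (fcI P) := by
  intro c
  have h1 := h c
  by_cases hp : P c
  · have hq : P (c.filt (below (st c k))) := by rw [← h1]; exact hp
    rw [fcI_pos hp, fcI_pos hq]
  · have hq : ¬ P (c.filt (below (st c k))) := by rw [← h1]; exact hp
    rw [fcI_neg hp, fcI_neg hq]

open Classical in
/-- irregularities above the `k`-th line are rare, given a past event -/
theorem fc_up {N : ℕ} {τ δ : ℝ} (hN : 0 < N) (hτ : 0 < τ) (hτ1 : τ ≤ 1) (hδ : 0 < δ)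
    (hδ1 : δ ≤ 1) : ∃ C a : ℝ, 0 < C ∧ 0 < a ∧ ∀ θ : ℝ, 0 < θ →
    Ev (fun ρ n => ∀ (k : ℕ) (r : ℝ) (P : Conf → Prop), MeasurableSet {c | P c} → Past k P →
      (∀ c, P c → OkAt n θ ρ c k) → 1 ≤ r → 8 * r ≤ θ * n →
      Q n {c | P c ∧ ¬ RegUp N τ δ r (uc c k)} ≤
        ENNReal.ofReal (C * Real.exp (-(a * r))) * Q n {c | P c}) := by
  obtain ⟨C, a, κ₀, hC, ha, hκ₀, H⟩ := regUp_tail hN hτ hτ1 hδ hδ1
  refine ⟨C, a, hC, ha, fun θ hθ => ?_⟩
  have hx : 0 < min (θ / 4) (κ₀ * θ / 2) := lt_min (by positivity) (by positivity)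
  refine (Ev.rho_le hx).mono ?_
  rintro ρ n ⟨hρ, hρ'⟩ k r P hPm hPp hPok hr hrn
  have hρ1 : ρ ≤ θ / 4 := hρ'.trans (min_le_left _ _)
  have hρ2 : ρ ≤ κ₀ * θ / 2 := hρ'.trans (min_le_right _ _)
  have hn : 0 < n := by
    rcases Nat.eq_zero_or_pos n with h | h
    · subst h
      norm_num at hrn
      linarith
    · exact h
  have hκ : 2 * ρ / θ ≤ κ₀ := by
    rw [div_le_iff₀ hθ]
    linarith
  have hregm : MeasurableSet {c | RegUp N τ δ r (uc c k)} :=
    measurable_uc k (measurableSet_regUp N τ δ r)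
  have hΦ : Measurable (fcI P) := measurable_fcI hPm
  have hG : ∀ i : ℤ, Measurable ((fun _ c' => fcI (fun c => ¬ RegUp N τ δ r c) c' :
      ℤ → Conf → ℝ≥0∞) i) := fun _ => measurable_fcI (measurableSet_regUp N τ δ r).compl
  have key := markov_le hn hθ hρ hρ1 k hΦ (fc_past hPp) hG
    (fun _ => ENNReal.ofReal (C * Real.exp (-(a * r)))) (by
      intro ℓ M M' hok
      have hnear := near_lawUp hn hθ hρ hρ1 hok
      have h1 := H _ _ _ r _ _ _ _ hκ hr hrn hnear
      refine le_trans (le_of_eq ?_) h1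
      unfold lawUp
      exact fc_ite (P := fun c => ¬ RegUp N τ δ r c) (measurableSet_regUp N τ δ r).compl
        fun c' => rfl)
  have e1 : ∫⁻ c, (if OkAt n θ ρ c k then fcI P c *
      fcI (fun c => ¬ RegUp N τ δ r c) (uc c k) else 0) ∂(Q n) =
      Q n {c | P c ∧ ¬ RegUp N τ δ r (uc c k)} := by
    refine fc_ite (P := fun c => P c ∧ ¬ RegUp N τ δ r (uc c k)) (hPm.inter hregm.compl)
      fun c => ?_
    by_cases h1 : P c
    · have h0 := hPok c h1
      rw [if_pos h0, fcI_pos h1, one_mul]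
      by_cases h2 : RegUp N τ δ r (uc c k)
      · rw [fcI_neg (not_not.2 h2), fcI_neg fun h => h.2 h2]
      · rw [fcI_pos h2, fcI_pos ⟨h1, h2⟩]
    · rw [fcI_neg h1, zero_mul, ite_self, fcI_neg fun h => h1 h.1]
  have e2 : ∫⁻ c, (if OkAt n θ ρ c k then fcI P c *
      ENNReal.ofReal (C * Real.exp (-(a * r))) else 0) ∂(Q n) =
      ENNReal.ofReal (C * Real.exp (-(a * r))) * Q n {c | P c} := by
    have : ∀ c, (if OkAt n θ ρ c k then fcI P c *
      ENNReal.ofReal (C * Real.exp (-(a * r))) else 0) =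
      ENNReal.ofReal (C * Real.exp (-(a * r))) * fcI P c := by
      intro c
      by_cases h1 : P c
      · rw [if_pos (hPok c h1), mul_comm]
      · rw [fcI_neg h1, zero_mul, ite_self, mul_zero]
    simp only [this]
    rw [lintegral_const_mul _ hΦ]
    congr 1
    exact fc_ite hPm fun c => rfl
  rw [e1, e2] at key
  exact key

theorem fc_exp {a r : ℝ} (ha : 0 < a) (hr : 0 ≤ r) :
    (5 * r + 1) * Real.exp (-(a * r)) ≤ (10 / a + 1) * Real.exp (-(a / 2 * r)) := by
  have h1 : Real.exp (-(a * r)) = Real.exp (-(a / 2 * r)) * Real.exp (-(a / 2 * r)) := by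
    rw [← Real.exp_add]
    congr 1
    ring
  have h2 : (5 * r + 1) * Real.exp (-(a / 2 * r)) ≤ 10 / a + 1 := by
    rw [Real.exp_neg, ← div_eq_mul_inv, div_le_iff₀ (Real.exp_pos _)]
    have h3 := Real.add_one_le_exp (a / 2 * r)
    have h4 : (5 * r + 1) ≤ (10 / a + 1) * (a / 2 * r + 1) := by
      have e : (10 / a + 1) * (a / 2 * r + 1) = 5 * r + 1 + (10 / a + a / 2 * r) := by
        field_simp
        ring
      rw [e]
      have : 0 ≤ 10 / a + a / 2 * r := by positivity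
      linarith
    exact h4.trans (mul_le_mul_of_nonneg_left h3 (by positivity))
  rw [h1, ← mul_assoc]
  exact mul_le_mul_of_nonneg_right h2 (Real.exp_pos _).le

/-- probability of an irregularity at scale `r` below the `k`-th line -/
theorem regDn_tail {N : ℕ} {τ δ : ℝ} (hτ : 0 < τ) (hτ1 : τ ≤ 1) (hδ : 0 < δ)
    (hδ1 : δ ≤ 1 / 1000) (hN : 16 ≤ δ * N) : ∃ C a : ℝ, 0 < C ∧ 0 < a ∧
    ∀ θ : ℝ, 0 < θ → θ < 1 → Ev (fun ρ n => ∀ (k : ℕ) (r : ℝ), 8 ≤ r → 8 * r ≤ θ * n →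
      Q n {c | Alive n θ ρ c k ∧ 5 * r ≤ ((st c k).1 : ℝ) ∧
        ¬ RegDn N τ (1000 * δ) r (st c k) c} ≤ ENNReal.ofReal (C * Real.exp (-(a * r)))) := by
  classical
  have hN0 : 0 < N := by
    rcases Nat.eq_zero_or_pos N with h | h
    · subst h
      norm_num at hN
    · exact h
  obtain ⟨C₁, a₁, hC₁, ha₁, H₁⟩ := fc_up (N := N) hN0 hτ hτ1 hδ (by linarith)
  obtain ⟨lam₀, C₂, hlam, hC₂, H₂⟩ := im_tail
  have hC₂0 : 0 < C₂ := by linarith
  set a := min a₁ (lam₀ * δ) with ha_def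
  have ha : 0 < a := lt_min ha₁ (by positivity)
  refine ⟨(C₁ + C₂) * (10 / a + 1), a / 2, by positivity, by positivity, fun θ hθ hθ1 => ?_⟩
  refine ((H₁ θ hθ).and (H₂ θ hθ hθ1)).mono ?_
  rintro ρ n ⟨h1, h2⟩ k r hr hrn
  have hr0 : 0 ≤ r := by linarith
  have hn : 0 < n := by
    rcases Nat.eq_zero_or_pos n with h | h
    · subst h
      norm_num at hrn
      linarith
    · exact h
  have := Q_prob hn
  set S : Finset ℕ := (Finset.range (k + 1)).filter (fun i => (k : ℝ) ≤ i + 5 * r) with hS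
  have hcard : (S.card : ℝ) ≤ 5 * r + 1 := by
    have hsub : S ⊆ Finset.Icc (k - ⌊5 * r⌋₊) k := by
      intro i hi
      rw [hS, Finset.mem_filter, Finset.mem_range] at hi
      obtain ⟨hi1, hi2⟩ := hi
      rw [Finset.mem_Icc]
      refine ⟨?_, by omega⟩
      have h3 : ((k - i : ℕ) : ℝ) ≤ 5 * r := by
        rw [Nat.cast_sub (by omega)]
        linarith
      have h4 : k - i ≤ ⌊5 * r⌋₊ := Nat.le_floor h3
      omega
    have h5 := Finset.card_le_card hsub
    rw [Nat.card_Icc] at h5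
    have h6 : S.card ≤ ⌊5 * r⌋₊ + 1 := by omega
    have h7 : (⌊5 * r⌋₊ : ℝ) ≤ 5 * r := Nat.floor_le (by linarith)
    have h8 : (S.card : ℝ) ≤ (⌊5 * r⌋₊ : ℝ) + 1 := by exact_mod_cast h6
    linarith
  have hsub : Q n {c | Alive n θ ρ c k ∧ 5 * r ≤ ((st c k).1 : ℝ) ∧
        ¬ RegDn N τ (1000 * δ) r (st c k) c} ≤
      Q n (⋃ i ∈ S, ({c | Alive n θ ρ c i ∧ ¬ RegUp N τ δ r (uc c i)} ∪
        {c | Alive n θ ρ c i ∧ δ * r < |(im c i : ℝ)|})) := by
    refine measure_mono_ae ?_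
    filter_upwards [ae_inStrip n] with c hc hE
    obtain ⟨hE1, hE2, hE3⟩ := hE
    by_contra hcon
    apply hE3
    refine regDn_of_past hc hτ.le hτ1 hδ hδ1 hr hN ?_ hE2
    intro i hi hki
    have hiS : i ∈ S := by
      rw [hS, Finset.mem_filter, Finset.mem_range]
      exact ⟨by omega, hki⟩
    have hal : Alive n θ ρ c i := fun j hj => hE1 j (hj.trans hi)
    constructor
    · by_contra hno
      exact hcon (Set.mem_biUnion hiS (Or.inl ⟨hal, hno⟩))
    · by_contra hno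
      exact hcon (Set.mem_biUnion hiS (Or.inr ⟨hal, not_le.1 hno⟩))
  refine hsub.trans ((measure_biUnion_finset_le _ _).trans ?_)
  have hterm : ∀ i ∈ S, Q n ({c | Alive n θ ρ c i ∧ ¬ RegUp N τ δ r (uc c i)} ∪
        {c | Alive n θ ρ c i ∧ δ * r < |(im c i : ℝ)|}) ≤
      ENNReal.ofReal ((C₁ + C₂) * Real.exp (-(a * r))) := by
    intro i _
    refine (measure_union_le _ _).trans ?_
    have h3 := h1 i r (fun c => Alive n θ ρ c i) (measurableSet_alive n θ ρ i)
      (past_alive n θ ρ i) (fun c hc => hc i le_rfl) (by linarith) hrn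
    have h4 : ENNReal.ofReal (C₁ * Real.exp (-(a₁ * r))) * Q n {c | Alive n θ ρ c i} ≤
        ENNReal.ofReal (C₁ * Real.exp (-(a * r))) := by
      refine (mul_le_mul_right prob_le_one _).trans ?_
      rw [mul_one]
      apply ENNReal.ofReal_le_ofReal
      refine mul_le_mul_of_nonneg_left (Real.exp_le_exp.2 ?_) hC₁.le
      have : a ≤ a₁ := min_le_left _ _
      nlinarith
    have h5 := h2 i (δ * r)
    have h6 : ENNReal.ofReal (C₂ * Real.exp (-(lam₀ * (δ * r)))) ≤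
        ENNReal.ofReal (C₂ * Real.exp (-(a * r))) := by
      apply ENNReal.ofReal_le_ofReal
      refine mul_le_mul_of_nonneg_left (Real.exp_le_exp.2 ?_) hC₂0.le
      have : a ≤ lam₀ * δ := min_le_right _ _
      nlinarith
    refine (add_le_add (h3.trans h4) (h5.trans h6)).trans ?_
    rw [← ENNReal.ofReal_add (by positivity) (by positivity), ← add_mul]
  refine (Finset.sum_le_sum hterm).trans ?_
  rw [Finset.sum_const, nsmul_eq_mul, ← ENNReal.ofReal_natCast, ← ENNReal.ofReal_mul (by positivity)]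
  apply ENNReal.ofReal_le_ofReal
  have h7 := fc_exp ha hr0
  calc (S.card : ℝ) * ((C₁ + C₂) * Real.exp (-(a * r)))
      ≤ (5 * r + 1) * ((C₁ + C₂) * Real.exp (-(a * r))) :=
        mul_le_mul_of_nonneg_right hcard (by positivity)
    _ = (C₁ + C₂) * ((5 * r + 1) * Real.exp (-(a * r))) := by ring
    _ ≤ (C₁ + C₂) * ((10 / a + 1) * Real.exp (-(a / 2 * r))) :=
        mul_le_mul_of_nonneg_left h7 (by positivity)
    _ = (C₁ + C₂) * (10 / a + 1) * Real.exp (-(a / 2 * r)) := by ring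

theorem fc_geom {a r₀ : ℝ} (ha : 0 < a) (hr : 8 ≤ r₀) (J : ℕ) :
    ∑ j ∈ Finset.range (J + 1), Real.exp (-(a * (2 ^ j * r₀))) ≤
      Real.exp (-(a * r₀)) / (1 - Real.exp (-(8 * a))) := by
  set q := Real.exp (-(a * r₀)) with hq
  have hq0 : 0 < q := Real.exp_pos _
  have hq8 : q ≤ Real.exp (-(8 * a)) := Real.exp_le_exp.2 (by nlinarith)
  have h81 : Real.exp (-(8 * a)) < 1 := by
    rw [Real.exp_lt_one_iff]
    linarith
  have hq1 : q < 1 := hq8.trans_lt h81
  have h1 : ∀ j ∈ Finset.range (J + 1), Real.exp (-(a * (2 ^ j * r₀))) ≤ q * q ^ j := by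
    intro j _
    rw [← pow_succ', hq, ← Real.exp_nat_mul]
    apply Real.exp_le_exp.2
    have h2 : ((j + 1 : ℕ) : ℝ) ≤ 2 ^ j := by
      have : j + 1 ≤ 2 ^ j := Nat.lt_two_pow_self
      exact_mod_cast this
    have h3 : 0 ≤ a * r₀ := by nlinarith
    nlinarith [mul_le_mul_of_nonneg_right h2 h3]
  refine (Finset.sum_le_sum h1).trans ?_
  rw [← Finset.mul_sum]
  have h4 : ∑ j ∈ Finset.range (J + 1), q ^ j ≤ 1 / (1 - q) := by
    have h5 : (1 - q) * ∑ j ∈ Finset.range (J + 1), q ^ j = 1 - q ^ (J + 1) := mul_neg_geom_sum q _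
    rw [le_div_iff₀ (by linarith), mul_comm, h5]
    have : 0 < q ^ (J + 1) := pow_pos hq0 _
    linarith
  calc q * ∑ j ∈ Finset.range (J + 1), q ^ j ≤ q * (1 / (1 - q)) :=
        mul_le_mul_of_nonneg_left h4 hq0.le
    _ = q / (1 - q) := by ring
    _ ≤ q / (1 - Real.exp (-(8 * a))) := by
        apply div_le_div_of_nonneg_left hq0.le (by linarith) (by linarith)

theorem false_cand {N : ℕ} {τ δ : ℝ} (hτ : 0 < τ) (hτ1 : τ ≤ 1) (hδ : 0 < δ)
    (hδ1 : δ ≤ 1 / 1000) (hN : 16 ≤ δ * N) : ∃ C a : ℝ, 0 < C ∧ 0 < a ∧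
    ∀ (K : ℕ) (τ₁ θ : ℝ), 0 < K → 0 < τ₁ → τ₁ ≤ 1 → 0 < θ → θ < 1 →
    Ev (fun ρ n => ∀ (k J : ℕ) (r₀ : ℝ), 8 ≤ r₀ → 8 * (2 ^ J * r₀) ≤ θ * n →
      Q n {c | Alive n θ ρ c (k + 2 * K) ∧ 5 * (2 ^ J * r₀) ≤ ((st c k).1 : ℝ) ∧
        Cand K τ₁ c k ∧ ¬ Rel K N τ δ r₀ J c k} ≤
          ENNReal.ofReal (C * Real.exp (-(a * r₀)) * qpat K τ₁)) := by
  classical
  have hN0 : 0 < N := by
    rcases Nat.eq_zero_or_pos N with h | h
    · subst h
      norm_num at hN
    · exact h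
  obtain ⟨C₁, a₁, hC₁, ha₁, H₁⟩ := fc_up (N := N) hN0 hτ hτ1 hδ (by linarith)
  obtain ⟨C₂, a₂, hC₂, ha₂, H₂⟩ := regDn_tail (N := N) hτ hτ1 hδ hδ1 hN
  set a := min a₁ a₂ with ha_def
  have ha : 0 < a := lt_min ha₁ ha₂
  have h81 : Real.exp (-(8 * a)) < 1 := by
    rw [Real.exp_lt_one_iff]
    linarith
  have h81' : 0 < 1 - Real.exp (-(8 * a)) := by linarith
  refine ⟨2 * (C₁ + C₂) / (1 - Real.exp (-(8 * a))), a, by positivity, ha,
    fun K τ₁ θ hK hτ₁ hτ₁1 hθ hθ1 => ?_⟩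
  have hq := qpat_pos hK hτ₁ hτ₁1
  refine (((H₁ θ hθ).and (H₂ θ hθ hθ1)).and (pat_prob K hK hτ₁ hτ₁1 hθ hθ1)).mono ?_
  rintro ρ n ⟨⟨h1, h2⟩, h3⟩ k J r₀ hr₀ hrn
  have hpow : ∀ j ≤ J, (2 : ℝ) ^ j * r₀ ≤ 2 ^ J * r₀ := fun j hj =>
    mul_le_mul_of_nonneg_right (pow_le_pow_right₀ one_le_two hj) (by linarith)
  have hpow8 : ∀ j : ℕ, 8 ≤ (2 : ℝ) ^ j * r₀ := by
    intro j
    have : (1 : ℝ) ≤ 2 ^ j := one_le_pow₀ one_le_two
    nlinarith
  have hn : 0 < n := by
    rcases Nat.eq_zero_or_pos n with h | h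
    · subst h
      have := hpow8 J
      norm_num at hrn
      linarith
    · exact h
  have := Q_prob hn
  -- candidates
  have hcand : Q n {c | Alive n θ ρ c (k + 2 * K) ∧ Cand K τ₁ c k} ≤
      ENNReal.ofReal (2 * qpat K τ₁) := by
    have hm : MeasurableSet {c : Conf | im c k = 0} := measurable_im k (measurableSet_singleton 0)
    have hP : Past k (fun c : Conf => im c k = 0) := by
      intro c
      have := past_im k c
      simp only at this
      show (im c k = 0) = (im (c.filt (below (st c k))) k = 0)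
      rw [← this]
    have h4 := (h3 k (fcI fun c => im c k = 0) (measurable_fcI hm) (fc_past hP)).1
    have h5 : Q n {c | Alive n θ ρ c (k + 2 * K) ∧ Cand K τ₁ c k} ≤
        ∫⁻ c, (if OkAt n θ ρ c k then fcI (fun c => im c k = 0) c *
          patI K τ₁ (uc c k) else 0) ∂(Q n) := by
      have e0 : ∫⁻ c, fcI (fun c => Alive n θ ρ c (k + 2 * K) ∧ Cand K τ₁ c k) c ∂(Q n) =
          Q n {c | Alive n θ ρ c (k + 2 * K) ∧ Cand K τ₁ c k} :=
        fc_ite (P := fun c => Alive n θ ρ c (k + 2 * K) ∧ Cand K τ₁ c k)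
          ((measurableSet_alive n θ ρ _).inter (measurableSet_cand K τ₁ k)) fun _ => rfl
      rw [← e0]
      apply lintegral_mono
      intro c
      dsimp only
      by_cases g1 : Alive n θ ρ c (k + 2 * K) ∧ Cand K τ₁ c k
      · rw [fcI_pos g1, if_pos (g1.1 k (by omega)), fcI_pos (P := fun c => im c k = 0) g1.2.1,
          one_mul]
        unfold patI
        rw [if_pos g1.2.2]
      · rw [fcI_neg g1]
        exact zero_le
    refine h5.trans (h4.trans ?_)
    have h6 : ∫⁻ c, (if OkAt n θ ρ c k then fcI (fun c => im c k = 0) c else 0) ∂(Q n)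
        ≤ 1 := by
      calc ∫⁻ c, (if OkAt n θ ρ c k then fcI (fun c => im c k = 0) c else 0) ∂(Q n)
          ≤ ∫⁻ _, 1 ∂(Q n) := by
            apply lintegral_mono
            intro c
            dsimp only
            by_cases g : OkAt n θ ρ c k
            · rw [if_pos g]; exact fcI_le_one _ _
            · rw [if_neg g]; exact zero_le
        _ = 1 := by simp
    calc _ ≤ ENNReal.ofReal (2 * qpat K τ₁) * 1 := mul_le_mul_right h6 _
      _ = _ := mul_one _
  -- the two parts at the scale j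
  have hup : ∀ j ≤ J, Q n {c | (Alive n θ ρ c (k + 2 * K) ∧ Cand K τ₁ c k) ∧
      ¬ RegUp N τ δ (2 ^ j * r₀) (uc c (k + 2 * K))} ≤
      ENNReal.ofReal (C₁ * Real.exp (-(a * (2 ^ j * r₀))) * (2 * qpat K τ₁)) := by
    intro j hj
    have hP : Past (k + 2 * K) (fun c => Alive n θ ρ c (k + 2 * K) ∧ Cand K τ₁ c k) := by
      intro c
      have e1 := past_alive n θ ρ (k + 2 * K) c
      have e2 := past_cand K τ₁ k c
      simp only at e1 e2
      show (Alive n θ ρ c (k + 2 * K) ∧ Cand K τ₁ c k) = (Alive n θ ρ _ (k + 2 * K) ∧ Cand K τ₁ _ k)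
      rw [← e1, ← e2]
    have h4 := h1 (k + 2 * K) (2 ^ j * r₀) (fun c => Alive n θ ρ c (k + 2 * K) ∧ Cand K τ₁ c k)
      ((measurableSet_alive n θ ρ _).inter (measurableSet_cand K τ₁ k)) hP
      (fun c hc => hc.1 _ le_rfl) (by linarith [hpow8 j]) (by linarith [hpow j hj])
    refine h4.trans ((mul_le_mul_right hcand _).trans ?_)
    rw [← ENNReal.ofReal_mul (by positivity)]
    apply ENNReal.ofReal_le_ofReal
    refine mul_le_mul_of_nonneg_right (mul_le_mul_of_nonneg_left (Real.exp_le_exp.2 ?_) hC₁.le)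
      (by positivity)
    have h5 : a ≤ a₁ := min_le_left _ _
    nlinarith [hpow8 j]
  have hdn : ∀ j ≤ J, Q n {c | Alive n θ ρ c (k + 2 * K) ∧ 5 * (2 ^ J * r₀) ≤ ((st c k).1 : ℝ) ∧
      Cand K τ₁ c k ∧ ¬ RegDn N τ (1000 * δ) (2 ^ j * r₀) (st c k) c} ≤
      ENNReal.ofReal (C₂ * Real.exp (-(a * (2 ^ j * r₀))) * (2 * qpat K τ₁)) := by
    intro j hj
    set r := (2 : ℝ) ^ j * r₀ with hr
    set P : Conf → Prop := fun c => Alive n θ ρ c k ∧ 5 * r ≤ ((st c k).1 : ℝ) ∧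
      ¬ RegDn N τ (1000 * δ) r (st c k) c with hPdef
    have hmst : MeasurableSet {c : Conf | 5 * r ≤ ((st c k).1 : ℝ)} := by
      have : MeasurableSet {q : ℕ × ℕ | 5 * r ≤ (q.1 : ℝ)} := (Set.to_countable _).measurableSet
      exact measurable_st k this
    have hPm : MeasurableSet {c | P c} :=
      (measurableSet_alive n θ ρ k).inter (hmst.inter (measurableSet_regDn_st N τ _ r k).compl)
    have hP : Past k P := by
      intro c
      have e1 := past_alive n θ ρ k c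
      have e2 := past_st k c
      have e3 := past_regDn N τ (1000 * δ) r k c
      simp only at e1 e2 e3
      show (Alive n θ ρ c k ∧ 5 * r ≤ ((st c k).1 : ℝ) ∧ ¬ RegDn N τ (1000 * δ) r (st c k) c) =
        (Alive n θ ρ (c.filt (below (st c k))) k ∧
          5 * r ≤ ((st (c.filt (below (st c k))) k).1 : ℝ) ∧
          ¬ RegDn N τ (1000 * δ) r (st (c.filt (below (st c k))) k) (c.filt (below (st c k))))
      rw [← e3, ← e1, ← e2]
    have h4 := (h3 k (fcI P) (measurable_fcI hPm) (fc_past hP)).1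
    have h5 : Q n {c | Alive n θ ρ c (k + 2 * K) ∧ 5 * (2 ^ J * r₀) ≤ ((st c k).1 : ℝ) ∧
      Cand K τ₁ c k ∧ ¬ RegDn N τ (1000 * δ) r (st c k) c} ≤
        ∫⁻ c, (if OkAt n θ ρ c k then fcI P c * patI K τ₁ (uc c k) else 0) ∂(Q n) := by
      have hmJ : MeasurableSet {c : Conf | 5 * (2 ^ J * r₀) ≤ ((st c k).1 : ℝ)} := by
        have : MeasurableSet {q : ℕ × ℕ | 5 * (2 ^ J * r₀) ≤ (q.1 : ℝ)} :=
          (Set.to_countable _).measurableSet
        exact measurable_st k this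
      set P' : Conf → Prop := fun c => Alive n θ ρ c (k + 2 * K) ∧
          5 * (2 ^ J * r₀) ≤ ((st c k).1 : ℝ) ∧
          Cand K τ₁ c k ∧ ¬ RegDn N τ (1000 * δ) r (st c k) c with hP'
      have hP'm : MeasurableSet {c | P' c} :=
        (measurableSet_alive n θ ρ _).inter (hmJ.inter ((measurableSet_cand K τ₁ k).inter
          (measurableSet_regDn_st N τ _ r k).compl))
      have e0 : ∫⁻ c, fcI P' c ∂(Q n) = Q n {c | P' c} := fc_ite hP'm fun _ => rfl
      rw [← e0]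
      apply lintegral_mono
      intro c
      dsimp only
      by_cases g0 : P' c
      · rw [fcI_pos g0]
        obtain ⟨g1, g2, g3, g4⟩ := g0
        have gP : P c := ⟨fun i hi => g1 i (by omega), by linarith [hpow j hj], g4⟩
        rw [if_pos (g1 k (by omega)), fcI_pos gP, one_mul]
        unfold patI
        rw [if_pos g3.2]
      · rw [fcI_neg g0]
        exact zero_le
    refine h5.trans (h4.trans ?_)
    have h6 : ∫⁻ c, (if OkAt n θ ρ c k then fcI P c else 0) ∂(Q n) ≤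
        ENNReal.ofReal (C₂ * Real.exp (-(a * r))) := by
      have e : ∫⁻ c, (if OkAt n θ ρ c k then fcI P c else 0) ∂(Q n) =
          Q n {c | P c} := by
        refine fc_ite hPm fun c => ?_
        by_cases hc : P c
        · rw [if_pos (hc.1 k le_rfl)]
        · rw [fcI_neg hc, ite_self]
      rw [e]
      refine (h2 k r (hpow8 j) (by linarith [hpow j hj])).trans ?_
      apply ENNReal.ofReal_le_ofReal
      refine mul_le_mul_of_nonneg_left (Real.exp_le_exp.2 ?_) hC₂.le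
      have h5 : a ≤ a₂ := min_le_right _ _
      nlinarith [hpow8 j]
    refine (mul_le_mul_right h6 _).trans ?_
    rw [← ENNReal.ofReal_mul (by positivity), mul_comm]
  -- union over the scales
  have hunion : {c | Alive n θ ρ c (k + 2 * K) ∧ 5 * (2 ^ J * r₀) ≤ ((st c k).1 : ℝ) ∧
        Cand K τ₁ c k ∧ ¬ Rel K N τ δ r₀ J c k} ⊆
      ⋃ j ∈ Finset.range (J + 1), ({c | (Alive n θ ρ c (k + 2 * K) ∧ Cand K τ₁ c k) ∧
        ¬ RegUp N τ δ (2 ^ j * r₀) (uc c (k + 2 * K))} ∪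
        {c | Alive n θ ρ c (k + 2 * K) ∧ 5 * (2 ^ J * r₀) ≤ ((st c k).1 : ℝ) ∧
          Cand K τ₁ c k ∧ ¬ RegDn N τ (1000 * δ) (2 ^ j * r₀) (st c k) c}) := by
    rintro c ⟨g1, g2, g3, g4⟩
    unfold Rel at g4
    rw [not_and_or] at g4
    rcases g4 with g4 | g4
    · push Not at g4
      obtain ⟨j, hj, g⟩ := g4
      exact Set.mem_biUnion (Finset.mem_coe.2 (Finset.mem_range.2 (by omega)))
        (Or.inl ⟨⟨g1, g3⟩, g⟩)
    · push Not at g4
      obtain ⟨j, hj, g⟩ := g4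
      exact Set.mem_biUnion (Finset.mem_coe.2 (Finset.mem_range.2 (by omega)))
        (Or.inr ⟨g1, g2, g3, g⟩)
  refine (measure_mono hunion).trans ((measure_biUnion_finset_le _ _).trans ?_)
  have hterm : ∀ j ∈ Finset.range (J + 1),
      Q n ({c | (Alive n θ ρ c (k + 2 * K) ∧ Cand K τ₁ c k) ∧
        ¬ RegUp N τ δ (2 ^ j * r₀) (uc c (k + 2 * K))} ∪
        {c | Alive n θ ρ c (k + 2 * K) ∧ 5 * (2 ^ J * r₀) ≤ ((st c k).1 : ℝ) ∧
          Cand K τ₁ c k ∧ ¬ RegDn N τ (1000 * δ) (2 ^ j * r₀) (st c k) c}) ≤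
      ENNReal.ofReal (2 * (C₁ + C₂) * qpat K τ₁ * Real.exp (-(a * (2 ^ j * r₀)))) := by
    intro j hj
    rw [Finset.mem_range] at hj
    refine (measure_union_le _ _).trans ((add_le_add (hup j (by omega)) (hdn j (by omega))).trans ?_)
    rw [← ENNReal.ofReal_add (by positivity) (by positivity)]
    apply ENNReal.ofReal_le_ofReal
    apply le_of_eq
    ring
  refine (Finset.sum_le_sum hterm).trans ?_
  rw [← ENNReal.ofReal_sum_of_nonneg (fun _ _ => by positivity)]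
  apply ENNReal.ofReal_le_ofReal
  rw [← Finset.mul_sum]
  calc 2 * (C₁ + C₂) * qpat K τ₁ * ∑ j ∈ Finset.range (J + 1), Real.exp (-(a * (2 ^ j * r₀)))
      ≤ 2 * (C₁ + C₂) * qpat K τ₁ * (Real.exp (-(a * r₀)) / (1 - Real.exp (-(8 * a)))) :=
        mul_le_mul_of_nonneg_left (fc_geom ha hr₀ J) (by positivity)
    _ = 2 * (C₁ + C₂) / (1 - Real.exp (-(8 * a))) * Real.exp (-(a * r₀)) * qpat K τ₁ := by
        ring

end Pool.Agent.H27.OTC
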