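import Pool.Agent.H27.OTC.DetMain
import Pool.Agent.H27.OTC.DetTop
import Pool.Agent.H27.OTC.Cost
import Pool.Agent.H27.OTC.FalseCut

/-!
Job OTC-E-CUT: reliable candidates are true cuts.
-/

set_option autoImplicit false

open MeasureTheory ProbabilityTheory
open scoped ENNReal

namespace Pool.Agent.H27.OTC

open Pool.Agent.H96.OT (Pl)

/-- constants of the macroscopic regularity event -/
noncomputable def glE (ε θ : ℝ) : ℝ := ε * θ / 16
noncomputable def glT (ε θ : ℝ) : ℝ := glE ε θ / 96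
noncomputable def glH (ε θ : ℝ) : ℝ := glT ε θ * glE ε θ ^ 3 / 10000

/-- the macroscopic regularity event, with precision `η n` -/
def Glob (N' : ℕ) (τ' η : ℝ) (n : ℕ) (c : Conf) : Prop := RegUp N' τ' (8 * η) ((n : ℝ) / 8) c

/-- continuous consequences of `Glob` -/
theorem Glob.cont {N' : ℕ} {τ' η : ℝ} {n : ℕ} {c : Conf} (h : Glob N' τ' η n c) (hτ : 0 ≤ τ')
    (hτ1 : τ' ≤ 1) (hn : 0 < n) (hN : 2 ≤ η * N') (t : ℝ) (h0 : 0 ≤ t) (ht : t ≤ n) :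
    |(c.nX {p | 0 < p.2 ∧ p.2 ≤ t} : ℝ) - t| ≤ η * n ∧
    |(c.nX {p | 1 - τ' ≤ p.1 ∧ 0 < p.2 ∧ p.2 ≤ t} : ℝ) - τ' * t| ≤ η * n ∧
    |(c.nY {p | 0 < p.2 ∧ p.2 ≤ t} : ℝ) - t| ≤ η * n := by
  have hn' : (0 : ℝ) < n := by exact_mod_cast hn
  have h1 := RegUp.cont h hτ hτ1 (by positivity) (by linarith) t h0 (by linarith)
  have e : 8 * η * ((n : ℝ) / 8) = η * n := by ring
  rw [e] at h1
  exact h1

/-- the parameters are compatible -/
structure Params (β τ ε δ : ℝ) (K N : ℕ) (τ₁ r₀ : ℝ) : Prop where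
  consts : Consts β τ ε δ
  K2 : 2 ≤ K
  τ₁pos : 0 < τ₁
  τ₁le : τ₁ ≤ τ
  r8 : 8 ≤ r₀
  rδ : 8 ≤ δ * r₀
  Kr : (K : ℝ) ≤ r₀ / 2
  rK : 3 * ε * r₀ ≤ K - 1
  τr : τ₁ * (ε * r₀) < 1 / 4
  hN : 16 * 16000 ≤ δ * N

/-- counting points of a family through the configuration -/
theorem ct_nX {m m' : ℕ} (w : Fin m → Pl) (w' : Fin m' → Pl) (R : Set Pl) (P : Fin m → Prop)
    [DecidablePred P] (h : ∀ i, P i ↔ w i ∈ R) :
    ((Finset.univ.filter P).card : ℝ) = (mk2 m m' (w, w')).nX R := by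
  classical
  rw [nX_mk2]
  congr 2
  ext i
  simp only [Finset.mem_filter, Finset.mem_univ, true_and]
  exact h i

theorem ct_nY {m m' : ℕ} (w : Fin m → Pl) (w' : Fin m' → Pl) (R : Set Pl) (P : Fin m' → Prop)
    [DecidablePred P] (h : ∀ i, P i ↔ w' i ∈ R) :
    ((Finset.univ.filter P).card : ℝ) = (mk2 m m' (w, w')).nY R := by
  classical
  rw [nY_mk2]
  congr 2
  ext i
  simp only [Finset.mem_filter, Finset.mem_univ, true_and]
  exact h i

/-- all slopes are small on the macroscopic scale -/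
theorem slopes_small {cost : ℕ → Pl → Pl → ℝ} (hc : GoodCost cost) {ε θ : ℝ} (hε : 0 < ε)
    (hε1 : ε ≤ 1) (hθ : 0 < θ) (hθ1 : θ < 1) {η : ℝ} (hη : 0 < η)
    (hη1 : η ≤ glH ε θ) {N' : ℕ} (hN' : 3 ≤ η * N') :
    ∃ n₀ : ℕ, ∀ n : ℕ, n₀ ≤ n → ∀ (x y : Fin n → Pl), InDom n x y → IsOptM (cost n) x y →
      Glob N' (glT ε θ) η n (mk2 n n (x, y)) → ∀ i,
      |((y i).2 - (x i).2) / ((y i).1 - (x i).1)| ≤ glE ε θ * n := by
  classical
  refine ⟨⌈1 / (2 * η)⌉₊ + 1, fun n hn x y hd ho hG i => ?_⟩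
  have hn0 : 0 < n := by omega
  have hn' : (0 : ℝ) < n := by exact_mod_cast hn0
  have hn1 : 1 ≤ 2 * η * n := by
    have h1 : 1 / (2 * η) ≤ (⌈1 / (2 * η)⌉₊ : ℝ) := Nat.le_ceil _
    have h2 : ((⌈1 / (2 * η)⌉₊ + 1 : ℕ) : ℝ) ≤ n := by exact_mod_cast hn
    push_cast at h2
    have h3 : 1 / (2 * η) ≤ n := by linarith
    rw [div_le_iff₀ (by positivity)] at h3
    linarith
  set E := glE ε θ with hE
  set T := glT ε θ with hT
  have hEpos : 0 < E := by rw [hE]; unfold glE; positivity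
  have hE1 : E ≤ 1 := by
    rw [hE]; unfold glE
    have : ε * θ ≤ 1 * 1 := mul_le_mul hε1 hθ1.le hθ.le (by norm_num)
    linarith
  have hTE : T = E / 96 := rfl
  have hTpos : 0 < T := by rw [hTE]; positivity
  have hT1 : T ≤ 1 := by rw [hTE]; linarith
  have hH : η ≤ T * E ^ 3 / 10000 := hη1
  have hE2 : E ^ 3 ≤ E := by
    have : E ^ 3 ≤ E ^ 1 := pow_le_pow_of_le_one hEpos.le hE1 (by norm_num)
    simpa using this
  have hTE3 : T * E ^ 3 ≤ T * E := mul_le_mul_of_nonneg_left hE2 hTpos.le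
  have hTE1 : T * E ≤ 1 := by
    have : T * E ≤ 1 * 1 := mul_le_mul hT1 hE1 hEpos.le (by norm_num)
    linarith
  have hTE30 : 0 < T * E ^ 3 := by positivity
  have hS := hc.opt n x y hd hn0 ho (0, 0) (by simp)
  have hcont : ∀ t : ℝ, 0 ≤ t → t ≤ n → _ := fun t h0 ht =>
    hG.cont hTpos.le hT1 hn0 (by linarith) t h0 ht
  have key := top_slopes (raysOf x y hd.x1 hd.y1 (0, 0)) hS (n := n) (ε := E) (τ := T)
    (η := 2 * η) hn' hEpos hE1 hTpos (by positivity) (by rw [hTE]; linarith) (by linarith)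
    (by
      have h1 : η ^ 2 ≤ (T * E ^ 3 / 10000) ^ 2 := pow_le_pow_left₀ hη.le hH 2
      have h2 : (T * E ^ 3) ^ 2 ≤ T * E ^ 3 := by nlinarith
      nlinarith) hn1
    (fun j => by
      show 0 ≤ (x j).2 - lam (0, 0) (x j).1 ∧ (x j).2 - lam (0, 0) (x j).1 ≤ n
      rw [lam_zero, sub_zero]
      exact ⟨(hd.x2 j).1.le, (hd.x2 j).2⟩)
    (fun j => by
      show 0 ≤ (y j).2 - lam (0, 0) (y j).1 ∧ (y j).2 - lam (0, 0) (y j).1 ≤ n
      rw [lam_zero, sub_zero]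
      exact ⟨(hd.y2 j).1.le, (hd.y2 j).2⟩)
    (fun h h0 h1 => by
      have h2 := (hcont h h0 h1).1
      rw [ct_nX x y {p : Pl | 0 < p.2 ∧ p.2 ≤ h} _ (fun j => by
        show (x j).2 - lam (0, 0) (x j).1 ≤ h ↔ 0 < (x j).2 ∧ (x j).2 ≤ h
        rw [lam_zero, sub_zero]
        exact ⟨fun h => ⟨(hd.x2 j).1, h⟩, fun h => h.2⟩)]
      have h3 : 0 < η * n := by positivity
      linarith)
    (fun h h0 h1 => by
      have h2 := (hcont h h0 h1).2.2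
      rw [ct_nY x y {p : Pl | 0 < p.2 ∧ p.2 ≤ h} _ (fun j => by
        show (y j).2 - lam (0, 0) (y j).1 ≤ h ↔ 0 < (y j).2 ∧ (y j).2 ≤ h
        rw [lam_zero, sub_zero]
        exact ⟨fun h => ⟨(hd.y2 j).1, h⟩, fun h => h.2⟩)]
      have h3 : 0 < η * n := by positivity
      linarith)
    (fun s t h0 hst h1 => by
      have h2 := (hcont s h0 (hst.trans h1)).2.1
      have h3 := (hcont t (h0.trans hst) h1).2.1
      rw [ct_nX x y {p : Pl | 1 - T ≤ p.1 ∧ s < p.2 ∧ p.2 ≤ t} _ (fun j => by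
        show (1 - T ≤ (x j).1 ∧ s < (x j).2 - lam (0, 0) (x j).1 ∧
          (x j).2 - lam (0, 0) (x j).1 ≤ t) ↔ 1 - T ≤ (x j).1 ∧ s < (x j).2 ∧ (x j).2 ≤ t
        rw [lam_zero, sub_zero])]
      have h4 : {p : Pl | 1 - T ≤ p.1 ∧ 0 < p.2 ∧ p.2 ≤ t} =
          {p : Pl | 1 - T ≤ p.1 ∧ 0 < p.2 ∧ p.2 ≤ s} ∪
            {p : Pl | 1 - T ≤ p.1 ∧ s < p.2 ∧ p.2 ≤ t} := by
        ext p
        show (1 - T ≤ p.1 ∧ 0 < p.2 ∧ p.2 ≤ t) ↔ (1 - T ≤ p.1 ∧ 0 < p.2 ∧ p.2 ≤ s) ∨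
          (1 - T ≤ p.1 ∧ s < p.2 ∧ p.2 ≤ t)
        constructor
        · rintro ⟨g1, g2, g3⟩
          rcases le_or_gt p.2 s with g4 | g4
          · exact Or.inl ⟨g1, g2, g4⟩
          · exact Or.inr ⟨g1, g4, g3⟩
        · rintro (⟨g1, g2, g3⟩ | ⟨g1, g2, g3⟩)
          · exact ⟨g1, g2, g3.trans hst⟩
          · exact ⟨g1, lt_of_le_of_lt h0 g2, g3⟩
      have h5 : Disjoint {p : Pl | 1 - T ≤ p.1 ∧ 0 < p.2 ∧ p.2 ≤ s}
          {p : Pl | 1 - T ≤ p.1 ∧ s < p.2 ∧ p.2 ≤ t} :=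
        Set.disjoint_left.2 fun p hp hp' => absurd hp.2.2 (not_le.2 hp'.2.1)
      rw [h4, nX_union h5, Nat.cast_add] at h3
      have h6 := (abs_le.1 h2).2
      have h7 := (abs_le.1 h3).1
      nlinarith) i
  have e : (raysOf x y hd.x1 hd.y1 (0, 0)).P i = ((y i).2 - (x i).2) / ((y i).1 - (x i).1) := by
    show (((y i).2 - lam (0, 0) (y i).1) - ((x i).2 - lam (0, 0) (x i).1)) /
      ((y i).1 - (x i).1) = _
    rw [lam_zero, lam_zero, sub_zero, sub_zero]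
  rw [e] at key
  exact key

/-- all optimal matchings respect the cut line of a reliable candidate -/
theorem cut_true {cost : ℕ → Pl → Pl → ℝ} (hc : GoodCost cost) {β τ ε δ θ : ℝ} {K N : ℕ}
    {τ₁ r₀ : ℝ} (hp : Params β τ ε δ K N τ₁ r₀) (hθ : 0 < θ) (hθ1 : θ < 1) {η : ℝ} (hη : 0 < η)
    (hη1 : η ≤ glH ε θ) {N' : ℕ} (hN' : 3 ≤ η * N') :
    Ev (fun ρ n => ∀ (x y : Fin n → Pl), InDom n x y → IsOptM (cost n) x y →
      Glob N' (glT ε θ) η n (mk2 n n (x, y)) → ∀ k J : ℕ, OkAt n θ ρ (mk2 n n (x, y)) k →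
      Cand K τ₁ (mk2 n n (x, y)) k → Rel K N τ (δ / 16000) r₀ J (mk2 n n (x, y)) k →
      θ * n < 16 * (2 ^ J * r₀) → ∀ i,
      (x i ∈ below (cutL K (st (mk2 n n (x, y)) k)) ↔
        y i ∈ below (cutL K (st (mk2 n n (x, y)) k)))) := by
  classical
  have hεpos := hp.consts.εpos
  have hε1 : ε ≤ 1 := by have := hp.consts.ε1; linarith
  have hδpos := hp.consts.δpos
  have hβpos := hp.consts.βpos
  have hβ1 := hp.consts.β1
  have hτβ := hp.consts.τeq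
  have hτpos : 0 < τ := by rw [hτβ]; positivity
  have hτ1 : τ ≤ 1 := by rw [hτβ]; linarith
  obtain ⟨n₀, hslope⟩ := slopes_small hc hεpos hε1 hθ hθ1 hη hη1 hN'
  have hx : 0 < min 1 (3 * ε * θ / 16) := by positivity
  refine ((Ev.rho_le hx).and (Ev.n_ge fun _ => (n₀ : ℝ) + 1)).mono ?_
  rintro ρ n ⟨⟨hρ, hρ'⟩, hn⟩ x y hd ho hG k J hok hcand hrel hJ
  have hρ1 : ρ ≤ 1 := hρ'.trans (min_le_left _ _)
  have hρ2 : ρ ≤ 3 * ε * θ / 16 := hρ'.trans (min_le_right _ _)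
  have hn0 : n₀ ≤ n := by
    have : (n₀ : ℝ) ≤ n := by linarith
    exact_mod_cast this
  have hnpos : 0 < n := by
    have h0 : (0 : ℝ) ≤ n₀ := Nat.cast_nonneg _
    have : (0 : ℝ) < n := by linarith
    exact_mod_cast this
  have hn' : (0 : ℝ) < n := by exact_mod_cast hnpos
  set c := mk2 n n (x, y) with hcdef
  set ℓ := st c k with hℓ
  have hslopes := hslope n hn0 x y hd ho hG
  have hok3 : |(ℓ.2 : ℝ) - ℓ.1| ≤ ρ * n := hok.2.2.1
  have hdiff : (((cutL K ℓ).2 : ℝ) - (cutL K ℓ).1) = (ℓ.2 : ℝ) - ℓ.1 := by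
    unfold cutL
    push_cast
    ring
  have hS := hc.opt n x y hd hnpos ho (cutL K ℓ) (by
    rw [hdiff]
    refine hok3.trans ?_
    have : ρ * n ≤ 1 * n := mul_le_mul_of_nonneg_right hρ1 hn'.le
    linarith)
  set S := raysOf x y hd.x1 hd.y1 (cutL K ℓ) with hSdef
  have hu : ∀ i, S.u i ≤ 0 ↔ x i ∈ below (cutL K ℓ) := by
    intro i
    show (x i).2 - lam (cutL K ℓ) (x i).1 ≤ 0 ↔ (x i).2 ≤ lam (cutL K ℓ) (x i).1
    exact sub_nonpos
  have hv : ∀ i, S.v i ≤ 0 ↔ y i ∈ below (cutL K ℓ) := by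
    intro i
    show (y i).2 - lam (cutL K ℓ) (y i).1 ≤ 0 ↔ (y i).2 ≤ lam (cutL K ℓ) (y i).1
    exact sub_nonpos
  -- balance
  have hB : Bal S.u S.v := by
    obtain ⟨h1, h2⟩ := st_pat hcand (j := K) (by omega)
    have h3 : imb c (cutL K ℓ) = 0 := by
      have : cutL K ℓ = st c (k + K) := h1.symm
      rw [this]
      exact h2
    have h4 := ct_nX x y (below (cutL K ℓ)) (fun i => S.u i ≤ 0) hu
    have h5 := ct_nY x y (below (cutL K ℓ)) (fun i => S.v i ≤ 0) hv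
    unfold imb at h3
    have h6 : c.nX (below (cutL K ℓ)) = c.nY (below (cutL K ℓ)) := by omega
    unfold Bal
    rw [← hcdef, h6, ← h5] at h4
    have h7 : (((Finset.univ.filter fun i => S.u i ≤ 0).card : ℕ) : ℝ) =
        ((Finset.univ.filter fun i => S.v i ≤ 0).card : ℕ) := h4
    have h8 : (Finset.univ.filter fun i => S.u i ≤ 0).card =
        (Finset.univ.filter fun i => S.v i ≤ 0).card := by exact_mod_cast h7
    convert h8
  have hr₀ : 0 < r₀ := by linarith [hp.r8]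
  have hslab : ∀ j ≤ J, ∀ s t : ℝ, -(2 * (2 ^ j * r₀)) ≤ s → s ≤ t → t ≤ 2 * (2 ^ j * r₀) → _ :=
    fun j hj s t hs hst ht => by
      have h1 : (1 : ℝ) ≤ 2 ^ j := one_le_pow₀ one_le_two
      have h2 : r₀ ≤ 2 ^ j * r₀ := by nlinarith
      have hup := (hrel.1 j hj).mono (δ' := δ / 16) (by positivity) (by linarith)
      have hst2 := (st_pat hcand (j := 2 * K) le_rfl).1
      unfold uc at hup
      rw [hst2] at hup
      have hdn := hrel.2 j hj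
      rw [show 1000 * (δ / 16000) = δ / 16 by ring] at hdn
      have hδr : δ * r₀ ≤ δ * (2 ^ j * r₀) := mul_le_mul_of_nonneg_left h2 hδpos.le
      exact slab_of_reg (τ₁ := τ₁) (δ := δ) (r := 2 ^ j * r₀) (ℓ := ℓ) (c := c) hτpos.le hτ1
        hp.τ₁le hδpos (by positivity) (by linarith [hp.rδ]) (by linarith [hp.Kr])
        (by linarith [hp.hN]) hcand.2 hup hdn s t hs hst ht
  intro i
  rw [← hu i, ← hv i]
  refine cut_of_regular hp.consts S hS hB (r := r₀) (K := (K : ℝ) - 1) (g := 1 / 4) (τ₁ := τ₁)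
    hr₀ J ?_ ?_ ?_ ?_ (by norm_num) hp.τ₁pos.le hp.rK hp.τr ?_ ?_ i
  · intro j hj s t hs hst ht
    have h1 := (hslab j hj s t hs hst ht).1
    unfold cnt
    rw [ct_nX x y {p : Pl | s < p.2 - lam (cutL K ℓ) p.1 ∧ p.2 - lam (cutL K ℓ) p.1 ≤ t}
      (fun i => s < S.u i ∧ S.u i ≤ t) (fun i => Iff.rfl)]
    exact h1
  · intro j hj s t hs hst ht
    have h1 := (hslab j hj s t hs hst ht).2.1
    unfold cnt
    rw [ct_nY x y {p : Pl | s < p.2 - lam (cutL K ℓ) p.1 ∧ p.2 - lam (cutL K ℓ) p.1 ≤ t}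
      (fun i => s < S.v i ∧ S.v i ≤ t) (fun i => Iff.rfl)]
    exact h1
  · intro j hj s t hs hst ht
    have h1 := (hslab j hj s t hs hst ht).2.2
    rw [ct_nX x y {p : Pl | 1 - τ ≤ p.1 ∧ s < p.2 - lam (cutL K ℓ) p.1 ∧
      p.2 - lam (cutL K ℓ) p.1 ≤ t}
      (fun i => 1 - τ ≤ S.a i ∧ s < S.u i ∧ S.u i ≤ t) (fun i => Iff.rfl)]
    exact h1
  · intro i
    have h1 := hslopes i
    have hP : S.P i = ((y i).2 - (x i).2) / ((y i).1 - (x i).1) - ((ℓ.2 : ℝ) - ℓ.1) / 3 := by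
      show (((y i).2 - lam (cutL K ℓ) (y i).1) - ((x i).2 - lam (cutL K ℓ) (x i).1)) /
        ((y i).1 - (x i).1) = _
      have hx1 := hd.x1 i
      have hy1 := hd.y1 i
      have h3 : (y i).1 - (x i).1 ≠ 0 := by linarith
      rw [lam_eq _ (by linarith) (by linarith), lam_eq _ hx1.1 (by linarith), hdiff]
      field_simp
      ring
    rw [hP]
    have h2 : |((y i).2 - (x i).2) / ((y i).1 - (x i).1) - ((ℓ.2 : ℝ) - ℓ.1) / 3| ≤
        glE ε θ * n + ρ * n / 3 := by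
      refine (abs_sub _ _).trans (add_le_add h1 ?_)
      rw [abs_div, abs_of_pos (by norm_num : (0 : ℝ) < 3)]
      linarith
    refine h2.trans (le_trans ?_ (mul_le_mul_of_nonneg_left (le_max_left _ _) hεpos.le))
    unfold glE
    have h3 : ρ * n ≤ 3 * ε * θ / 16 * n := mul_le_mul_of_nonneg_right hρ2 hn'.le
    have h4 : ε * (θ * n) ≤ ε * (16 * (2 ^ J * r₀)) := mul_le_mul_of_nonneg_left hJ.le hεpos.le
    linarith
  · intro i hi
    exact (pat_near hcand.2).1 (x i) (by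
      show x i ∈ (cfg x : Multiset Pl)
      unfold cfg
      exact Multiset.mem_map.2 ⟨i, Finset.mem_univ i, rfl⟩) hi
  · intro i hi
    exact (pat_near hcand.2).2 (y i) (by
      show y i ∈ (cfg y : Multiset Pl)
      unfold cfg
      exact Multiset.mem_map.2 ⟨i, Finset.mem_univ i, rfl⟩) hi

end Pool.Agent.H27.OTC
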