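import Pool.Agent.H27.OTC.MainLim
import Pool.Agent.H27.OTC.Cheb

/-!
Job OTC-F-LIM: the limiting functional and the limiting law of the horizontal coordinates.
-/

set_option autoImplicit false

open MeasureTheory ProbabilityTheory Filter
open scoped ENNReal Topology

namespace Pool.Agent.H27.OTC

open Pool.Agent.H96.OT (Pl)

/-- `s` is the limit of the averages of `φ` for all admissible costs and all weights `ψ` -/
def LimPhi (φ : ℝ × ℝ → ℝ) (s : ℝ) : Prop :=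
  ∀ cost, GoodCost cost → ∀ ψ : ℝ → ℝ, UniformContinuous ψ → (∀ t, 0 ≤ ψ t) →
    (∀ t, ψ t ≤ 1) → ∀ ε : ℝ, 0 < ε →
    Tendsto (fun n => smpLaw n {p | ∃ σ : Equiv.Perm (Fin n),
      IsOptM (cost n) p.1 (fun i => p.2 (σ i)) ∧
        ε < |avg n φ ψ p.1 p.2 σ - s * ∫ t in (0 : ℝ)..1, ψ t|}) atTop (𝓝 0)

/-- an optimal matching exists -/
theorem exists_optM (c : Pl → Pl → ℝ) {n : ℕ} (x y : Fin n → Pl) :
    ∃ σ : Equiv.Perm (Fin n), IsOptM c x (fun i => y (σ i)) := exists_optM' c x y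

theorem smpLaw_prob {n : ℕ} (hn : 0 < n) : IsProbabilityMeasure (smpLaw n) := smpLaw_isProb hn

theorem ae_inDom (n : ℕ) : ∀ᵐ p ∂(smpLaw n), InDom n p.1 p.2 := by
  have := smp_finite 0 n
  have := smp_finite 2 n
  have h1 : ∀ᵐ x ∂(Measure.pi fun _ : Fin n => smp 0 n), ∀ i,
      (0 : ℝ) ≤ (x i).1 ∧ (x i).1 ≤ 0 + 1 ∧ 0 < (x i).2 ∧ (x i).2 ≤ (n : ℝ) := by
    rw [ae_all_iff]
    intro i
    exact (Measure.tendsto_eval_ae_ae (μ := fun _ : Fin n => smp 0 n) (i := i)).eventually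
      (ae_smp 0 n)
  have h2 : ∀ᵐ x ∂(Measure.pi fun _ : Fin n => smp 2 n), ∀ i,
      (2 : ℝ) ≤ (x i).1 ∧ (x i).1 ≤ 2 + 1 ∧ 0 < (x i).2 ∧ (x i).2 ≤ (n : ℝ) := by
    rw [ae_all_iff]
    intro i
    exact (Measure.tendsto_eval_ae_ae (μ := fun _ : Fin n => smp 2 n) (i := i)).eventually
      (ae_smp 2 n)
  have h1' : ∀ᵐ p ∂(smpLaw n), ∀ i,
      (0 : ℝ) ≤ (p.1 i).1 ∧ (p.1 i).1 ≤ 0 + 1 ∧ 0 < (p.1 i).2 ∧ (p.1 i).2 ≤ (n : ℝ) :=
    Measure.quasiMeasurePreserving_fst.ae h1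
  have h2' : ∀ᵐ p ∂(smpLaw n), ∀ i,
      (2 : ℝ) ≤ (p.2 i).1 ∧ (p.2 i).1 ≤ 2 + 1 ∧ 0 < (p.2 i).2 ∧ (p.2 i).2 ≤ (n : ℝ) :=
    Measure.quasiMeasurePreserving_snd.ae h2
  filter_upwards [h1', h2'] with p hp hq
  refine ⟨fun i => ⟨(hp i).1, ?_⟩, fun i => ⟨(hq i).1, ?_⟩, fun i => (hp i).2.2,
    fun i => (hq i).2.2⟩
  · have := (hp i).2.1
    linarith
  · have := (hq i).2.1
    linarith

/-- outside two sets of small measure there is a typical point -/
theorem exists_typical {n : ℕ} (hn : 0 < n) {A B : Set ((Fin n → Pl) × (Fin n → Pl))}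
    (hA : smpLaw n A < 1 / 2) (hB : smpLaw n B < 1 / 2) :
    ∃ p, p ∉ A ∧ p ∉ B ∧ InDom n p.1 p.2 := by
  have := smpLaw_isProb hn
  by_contra hcon
  push Not at hcon
  set D : Set ((Fin n → Pl) × (Fin n → Pl)) := {p | ¬ InDom n p.1 p.2} with hD
  have hD0 : smpLaw n D = 0 := ae_inDom n
  have huniv : A ∪ B ∪ D = Set.univ := by
    refine Set.eq_univ_of_forall (fun p => ?_)
    by_cases h1 : p ∈ A
    · exact Or.inl (Or.inl h1)
    · by_cases h2 : p ∈ B
      · exact Or.inl (Or.inr h2)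
      · exact Or.inr (hcon p h1 h2)
  have h3 : smpLaw n (A ∪ B ∪ D) < 1 := by
    calc smpLaw n (A ∪ B ∪ D) ≤ smpLaw n A + smpLaw n B + smpLaw n D :=
          (measure_union_le _ _).trans (add_le_add (measure_union_le _ _) le_rfl)
      _ = smpLaw n A + smpLaw n B := by rw [hD0, add_zero]
      _ < 1 / 2 + 1 / 2 := ENNReal.add_lt_add hA hB
      _ = 1 := ENNReal.add_halves 1
  rw [huniv, measure_univ] at h3
  exact lt_irrefl _ h3

/-- the deviation set for the parabolic cost and `ψ = 1` -/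
theorem LimPhi.par_one {φ : ℝ × ℝ → ℝ} {s : ℝ} (h : LimPhi φ s) {ε : ℝ} (hε : 0 < ε) :
    ∀ᶠ n : ℕ in atTop, smpLaw n {p | ∃ σ : Equiv.Perm (Fin n),
      IsOptM par p.1 (fun i => p.2 (σ i)) ∧ ε < |avg n φ (fun _ => 1) p.1 p.2 σ - s|} < 1 / 2 := by
  have h1 := h (fun _ => par) goodCost_par (fun _ => 1) uniformContinuous_const
    (fun _ => zero_le_one) (fun _ => le_rfl) ε hε
  have e : s * ∫ t in (0 : ℝ)..1, (1 : ℝ) = s := by simp
  simp only [e] at h1
  exact h1.eventually_lt_const (by simp)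

theorem LimPhi.unique {φ : ℝ × ℝ → ℝ} {s t : ℝ} (h : LimPhi φ s) (h' : LimPhi φ t) : s = t := by
  by_contra hne
  have hpos : 0 < |s - t| := abs_pos.mpr (sub_ne_zero.mpr hne)
  have hε : 0 < |s - t| / 3 := by positivity
  obtain ⟨n, h1, h2, hn⟩ := ((h.par_one hε).and ((h'.par_one hε).and
    (eventually_gt_atTop 0))).exists
  obtain ⟨p, hpA, hpB, -⟩ := exists_typical hn h1 h2
  obtain ⟨σ, hσ⟩ := exists_optM' par p.1 p.2
  have h5 : |avg n φ (fun _ => 1) p.1 p.2 σ - s| ≤ |s - t| / 3 := by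
    by_contra hcon
    exact hpA ⟨σ, hσ, not_le.mp hcon⟩
  have h6 : |avg n φ (fun _ => 1) p.1 p.2 σ - t| ≤ |s - t| / 3 := by
    by_contra hcon
    exact hpB ⟨σ, hσ, not_le.mp hcon⟩
  have h7 : |s - t| ≤ |avg n φ (fun _ => 1) p.1 p.2 σ - s| +
      |avg n φ (fun _ => 1) p.1 p.2 σ - t| := by
    have := abs_sub_le s (avg n φ (fun _ => 1) p.1 p.2 σ) t
    rw [abs_sub_comm s (avg n φ (fun _ => 1) p.1 p.2 σ)] at this
    exact this
  linarith

theorem avg_add (n : ℕ) (φ φ' : ℝ × ℝ → ℝ) (ψ : ℝ → ℝ) (x y : Fin n → Pl)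
    (σ : Equiv.Perm (Fin n)) :
    avg n (fun z => φ z + φ' z) ψ x y σ = avg n φ ψ x y σ + avg n φ' ψ x y σ := by
  unfold avg
  rw [← add_div, ← Finset.sum_add_distrib]
  congr 1
  refine Finset.sum_congr rfl (fun i _ => ?_)
  ring

theorem avg_const_mul (n : ℕ) (φ : ℝ × ℝ → ℝ) (a : ℝ) (ψ : ℝ → ℝ) (x y : Fin n → Pl)
    (σ : Equiv.Perm (Fin n)) :
    avg n (fun z => a * φ z) ψ x y σ = a * avg n φ ψ x y σ := by
  unfold avg
  rw [← mul_div_assoc, Finset.mul_sum]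
  congr 1
  refine Finset.sum_congr rfl (fun i _ => ?_)
  ring

theorem LimPhi.add {φ φ' : ℝ × ℝ → ℝ} {s t : ℝ} (h : LimPhi φ s) (h' : LimPhi φ' t) :
    LimPhi (fun z => φ z + φ' z) (s + t) := by
  intro cost hcost ψ hψ hψ0 hψ1 ε hε
  have h1 := h cost hcost ψ hψ hψ0 hψ1 (ε / 2) (by positivity)
  have h2 := h' cost hcost ψ hψ hψ0 hψ1 (ε / 2) (by positivity)
  have h3 := h1.add h2
  rw [add_zero] at h3
  refine tendsto_of_tendsto_of_tendsto_of_le_of_le tendsto_const_nhds h3 (fun n => bot_le)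
    (fun n => ?_)
  refine (measure_mono ?_).trans (measure_union_le _ _)
  rintro p ⟨σ, hσ, hlt⟩
  rw [avg_add] at hlt
  by_contra hcon
  simp only [Set.mem_union, Set.mem_ofPred_eq, not_or, not_exists, not_and, not_lt] at hcon
  have ha := hcon.1 σ hσ
  have hb := hcon.2 σ hσ
  have hc := abs_add_le (avg n φ ψ p.1 p.2 σ - s * ∫ t in (0 : ℝ)..1, ψ t)
    (avg n φ' ψ p.1 p.2 σ - t * ∫ t in (0 : ℝ)..1, ψ t)
  have hd : avg n φ ψ p.1 p.2 σ - (s * ∫ t in (0 : ℝ)..1, ψ t) +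
      (avg n φ' ψ p.1 p.2 σ - t * ∫ t in (0 : ℝ)..1, ψ t) =
      avg n φ ψ p.1 p.2 σ + avg n φ' ψ p.1 p.2 σ - (s + t) * ∫ t in (0 : ℝ)..1, ψ t := by ring
  rw [hd] at hc
  linarith

theorem LimPhi.const_mul {φ : ℝ × ℝ → ℝ} {s : ℝ} (h : LimPhi φ s) (a : ℝ) :
    LimPhi (fun z => a * φ z) (a * s) := by
  intro cost hcost ψ hψ hψ0 hψ1 ε hε
  have h1 := h cost hcost ψ hψ hψ0 hψ1 (ε / (|a| + 1)) (by positivity)
  refine tendsto_of_tendsto_of_tendsto_of_le_of_le tendsto_const_nhds h1 (fun n => bot_le)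
    (fun n => ?_)
  refine measure_mono ?_
  rintro p ⟨σ, hσ, hlt⟩
  refine ⟨σ, hσ, ?_⟩
  rw [avg_const_mul, mul_assoc, ← mul_sub, abs_mul] at hlt
  rw [div_lt_iff₀ (by positivity)]
  have h2 := abs_nonneg (avg n φ ψ p.1 p.2 σ - s * ∫ t in (0 : ℝ)..1, ψ t)
  have h3 : |avg n φ ψ p.1 p.2 σ - s * ∫ t in (0 : ℝ)..1, ψ t| * (|a| + 1) =
    |a| * |avg n φ ψ p.1 p.2 σ - s * ∫ t in (0 : ℝ)..1, ψ t| +
      |avg n φ ψ p.1 p.2 σ - s * ∫ t in (0 : ℝ)..1, ψ t| := by ring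
  rw [h3]
  linarith

/-- the mean of a function of the (normalised) height -/
theorem integral_smp_height {n : ℕ} (hn : 0 < n) {ψ : ℝ → ℝ} :
    ∫ p, ψ (p.2 / n) ∂(smp 0 n) = ∫ t in (0 : ℝ)..1, ψ t := by
  have hn' : (0 : ℝ) < n := by exact_mod_cast hn
  unfold smp
  rw [integral_smul_measure, Measure.volume_eq_prod, ← Measure.prod_restrict]
  rw [integral_fun_snd (fun y => ψ (y / n))]
  have h1 : (volume.restrict (Set.Icc (0 : ℝ) (0 + 1))).real Set.univ = 1 := by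
    simp [Measure.real]
  rw [h1, one_smul, ← intervalIntegral.integral_of_le hn'.le,
    intervalIntegral.integral_comp_div (fun y => ψ y) hn'.ne', zero_div, div_self hn'.ne',
    ENNReal.toReal_ofReal (by positivity), smul_smul]
  rw [one_div, inv_mul_cancel₀ hn'.ne', one_smul]

/-- law of large numbers for the heights -/
theorem height_lln {n : ℕ} (hn : 0 < n) {ψ : ℝ → ℝ} (hψ : Measurable ψ) (hψ0 : ∀ t, 0 ≤ ψ t)
    (hψ1 : ∀ t, ψ t ≤ 1) {ε : ℝ} (hε : 0 < ε) :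
    smpLaw n {p | ε < |(∑ i, ψ ((p.1 i).2 / n)) / n - ∫ t in (0 : ℝ)..1, ψ t|} ≤
      ENNReal.ofReal (1 / (ε ^ 2 * n)) := by
  have hn' : (0 : ℝ) < n := by exact_mod_cast hn
  have := smp_prob 0 hn
  have := smp_prob 2 hn
  set μ : Measure (Fin n → Pl) := Measure.pi fun _ => smp 0 n with hμ
  set X : Pl → ℝ := fun p => ψ (p.2 / n) with hX
  have hXm : Measurable X := hψ.comp (measurable_snd.div_const _)
  have hmem : MemLp X 2 (smp 0 n) :=
    memLp_of_bounded (a := 0) (b := 1) (Eventually.of_forall fun p => ⟨hψ0 _, hψ1 _⟩)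
      hXm.aestronglyMeasurable 2
  set S : (Fin n → Pl) → ℝ := ∑ i : Fin n, fun ω => X (ω i) with hS
  have hSmem : MemLp S 2 μ := by
    rw [hS]
    exact memLp_finsetSum' _ (fun i _ => hmem.comp_measurePreserving (measurePreserving_eval _ i))
  have hvar : Var[S; μ] ≤ n := by
    rw [hS, hμ, variance_sum_pi (fun i => hmem)]
    have h1 : Var[X; smp 0 n] ≤ 1 := by
      refine (variance_le_sub_mul_sub (a := 0) (b := 1)
        (Eventually.of_forall fun p => ⟨hψ0 _, hψ1 _⟩) hXm.aemeasurable).trans ?_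
      nlinarith [sq_nonneg ((∫ p, X p ∂(smp 0 n)) - 1 / 2)]
    calc ∑ _i : Fin n, Var[X; smp 0 n] ≤ ∑ _i : Fin n, (1 : ℝ) := Finset.sum_le_sum fun i _ => h1
      _ = n := by simp
  have hmean : μ[S] = n * ∫ t in (0 : ℝ)..1, ψ t := by
    rw [hS]
    simp only [Finset.sum_apply]
    rw [integral_finsetSum]
    · have : ∀ i : Fin n, ∫ ω, X (ω i) ∂μ = ∫ t in (0 : ℝ)..1, ψ t := by
        intro i
        rw [← integral_smp_height hn]
        have h4 := (measurePreserving_eval (fun _ : Fin n => smp 0 n) i).map_eq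
        have h5 := integral_map (μ := μ) (measurable_pi_apply i).aemeasurable
          (f := X) hXm.aestronglyMeasurable
        calc ∫ ω, X (ω i) ∂μ = ∫ y, X y ∂(μ.map (fun ω => ω i)) := h5.symm
          _ = ∫ y, X y ∂(smp 0 n) := by
              have h6 : μ.map (fun ω => ω i) = smp 0 n := h4
              rw [h6]
      rw [Finset.sum_congr rfl fun i _ => this i]
      simp
    · intro i _
      exact (hmem.comp_measurePreserving (measurePreserving_eval (fun _ : Fin n => smp 0 n) i)).integrable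
        (by norm_num)
  have hcheb := meas_ge_le_variance_div_sq hSmem (c := ε * n) (by positivity)
  have hset : {p : (Fin n → Pl) × (Fin n → Pl) |
      ε < |(∑ i, ψ ((p.1 i).2 / n)) / n - ∫ t in (0 : ℝ)..1, ψ t|} ⊆
      Prod.fst ⁻¹' {ω | ε * n ≤ |S ω - μ[S]|} := by
    intro p hp
    simp only [Set.mem_preimage, Set.mem_ofPred_eq] at hp ⊢
    rw [hmean]
    have e1 : S p.1 = ∑ i, ψ ((p.1 i).2 / n) := by
      simp [hS, hX]
    rw [e1]
    have e2 : (∑ i, ψ ((p.1 i).2 / n)) - n * ∫ t in (0 : ℝ)..1, ψ t =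
        n * ((∑ i, ψ ((p.1 i).2 / n)) / n - ∫ t in (0 : ℝ)..1, ψ t) := by
      field_simp
    rw [e2, abs_mul, abs_of_pos hn']
    nlinarith
  calc smpLaw n _ ≤ smpLaw n (Prod.fst ⁻¹' {ω | ε * n ≤ |S ω - μ[S]|}) := measure_mono hset
    _ ≤ μ {ω | ε * n ≤ |S ω - μ[S]|} := by
        have h5 : (smpLaw n).map Prod.fst = μ := by
          unfold smpLaw
          rw [Measure.map_fst_prod, measure_univ, one_smul]
        calc smpLaw n (Prod.fst ⁻¹' {ω | ε * n ≤ |S ω - μ[S]|})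
            ≤ ((smpLaw n).map Prod.fst) {ω | ε * n ≤ |S ω - μ[S]|} :=
              Measure.le_map_apply measurable_fst.aemeasurable _
          _ = μ {ω | ε * n ≤ |S ω - μ[S]|} := by rw [h5]
    _ ≤ ENNReal.ofReal (Var[S; μ] / (ε * n) ^ 2) := hcheb
    _ ≤ ENNReal.ofReal (1 / (ε ^ 2 * n)) := by
        apply ENNReal.ofReal_le_ofReal
        rw [div_le_div_iff₀ (by positivity) (by positivity)]
        have h6 : 0 ≤ ε ^ 2 * n := by positivity
        calc Var[S; μ] * (ε ^ 2 * n) ≤ n * (ε ^ 2 * n) := mul_le_mul_of_nonneg_right hvar h6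
          _ = 1 * (ε * n) ^ 2 := by ring

theorem LimPhi.one : LimPhi (fun _ => 1) 1 := by
  intro cost hcost ψ hψ hψ0 hψ1 ε hε
  have hlim : Tendsto (fun n : ℕ => ENNReal.ofReal (1 / (ε ^ 2 * n))) atTop (𝓝 0) := by
    rw [← ENNReal.ofReal_zero]
    refine ENNReal.tendsto_ofReal ?_
    have h1 : Tendsto (fun n : ℕ => ε ^ 2 * (n : ℝ)) atTop atTop :=
      tendsto_natCast_atTop_atTop.const_mul_atTop (by positivity)
    exact h1.inv_tendsto_atTop.congr (fun n => (one_div _).symm)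
  refine tendsto_of_tendsto_of_tendsto_of_le_of_le' tendsto_const_nhds hlim
    (Eventually.of_forall fun n => bot_le) ?_
  filter_upwards [eventually_gt_atTop 0] with n hn
  refine (measure_mono ?_).trans (height_lln hn hψ.continuous.measurable hψ0 hψ1 hε)
  rintro p ⟨σ, -, hlt⟩
  simpa [avg] using hlt

/-- only the values on `[0,1] × [2,3]` matter -/
theorem LimPhi.congr {φ φ' : ℝ × ℝ → ℝ} {s : ℝ} (h : LimPhi φ s)
    (hφ : ∀ a b, 0 ≤ a → a ≤ 1 → 2 ≤ b → b ≤ 3 → φ (a, b) = φ' (a, b)) : LimPhi φ' s := by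
  intro cost hcost ψ hψ hψ0 hψ1 ε hε
  refine tendsto_of_tendsto_of_tendsto_of_le_of_le tendsto_const_nhds
    (h cost hcost ψ hψ hψ0 hψ1 ε hε) (fun n => bot_le) (fun n => ?_)
  refine measure_mono_ae ?_
  filter_upwards [ae_inDom n] with p hp
  rintro ⟨σ, hσ, hlt⟩
  refine ⟨σ, hσ, ?_⟩
  have e : avg n φ ψ p.1 p.2 σ = avg n φ' ψ p.1 p.2 σ := by
    unfold avg
    congr 1
    refine Finset.sum_congr rfl (fun i _ => ?_)
    rw [hφ _ _ (hp.x1 i).1 (hp.x1 i).2 (hp.y1 (σ i)).1 (hp.y1 (σ i)).2]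
  rw [e]
  exact hlt

theorem LimPhi.nonneg {φ : ℝ × ℝ → ℝ} {s : ℝ} (h : LimPhi φ s)
    (hφ : ∀ a b, 0 ≤ a → a ≤ 1 → 2 ≤ b → b ≤ 3 → 0 ≤ φ (a, b)) : 0 ≤ s := by
  by_contra hneg
  push Not at hneg
  have hε : 0 < -s / 2 := by linarith
  obtain ⟨n, h1, hn⟩ := ((h.par_one hε).and (eventually_gt_atTop 0)).exists
  obtain ⟨p, hpA, -, hp⟩ := exists_typical hn h1 h1
  obtain ⟨σ, hσ⟩ := exists_optM' par p.1 p.2
  have h5 : |avg n φ (fun _ => 1) p.1 p.2 σ - s| ≤ -s / 2 := by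
    by_contra hcon
    exact hpA ⟨σ, hσ, not_le.mp hcon⟩
  have h6 : 0 ≤ avg n φ (fun _ => 1) p.1 p.2 σ := by
    unfold avg
    refine div_nonneg (Finset.sum_nonneg fun i _ => ?_) (Nat.cast_nonneg n)
    rw [mul_one]
    exact hφ _ _ (hp.x1 i).1 (hp.x1 i).2 (hp.y1 (σ i)).1 (hp.y1 (σ i)).2
  have h7 := le_abs_self (avg n φ (fun _ => 1) p.1 p.2 σ - s)
  linarith

theorem limPhi_exists {φ : ℝ × ℝ → ℝ} (hφ : Measurable φ) {M : ℝ} (hM : ∀ z, |φ z| ≤ M) :
    ∃ s : ℝ, LimPhi φ s := by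
  have hM0 : 0 ≤ M := (abs_nonneg _).trans (hM (0, 0))
  have hpos : 0 < 2 * (M + 1) := by linarith
  have h0 : ∀ z, 0 ≤ (φ z + (M + 1)) / (2 * (M + 1)) := fun z => by
    have := (abs_le.mp (hM z)).1
    exact div_nonneg (by linarith) hpos.le
  have h1 : ∀ z, (φ z + (M + 1)) / (2 * (M + 1)) ≤ 1 := fun z => by
    have := (abs_le.mp (hM z)).2
    rw [div_le_one hpos]
    linarith
  obtain ⟨s, -, -, hs⟩ := main_lim' (φ := fun z => (φ z + (M + 1)) / (2 * (M + 1)))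
    ((hφ.add_const _).div_const _) h0 h1
  have hs' : LimPhi (fun z => (φ z + (M + 1)) / (2 * (M + 1))) s := hs
  have h2 := (hs'.const_mul (2 * (M + 1))).add (LimPhi.one.const_mul (-(M + 1)))
  refine ⟨_, h2.congr (fun a b _ _ _ _ => ?_)⟩
  field_simp
  ring

/-- law of large numbers for a sample of one kind -/
theorem tendsto_cheb (M : ℝ) {ε : ℝ} (hε : 0 < ε) :
    Tendsto (fun n : ℕ => ENNReal.ofReal (M ^ 2 / (ε ^ 2 * n))) atTop (𝓝 0) := by
  have h1 : Tendsto (fun n : ℕ => M ^ 2 / (ε ^ 2 * n)) atTop (𝓝 0) := by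
    refine tendsto_const_nhds.div_atTop ?_
    exact Tendsto.const_mul_atTop (by positivity) tendsto_natCast_atTop_atTop
  have h2 := ENNReal.tendsto_ofReal h1
  rwa [ENNReal.ofReal_zero] at h2

/-- functions of the left abscissa, and of the right abscissa -/
theorem limPhi_fst {g : ℝ → ℝ} (hg : Continuous g) {M : ℝ} (hM : ∀ z, |g z| ≤ M) :
    LimPhi (fun z => g z.1) (∫ t in (0 : ℝ)..1, g t) := by
  intro cost _ ψ hψ hψ0 hψ1 ε hε
  refine tendsto_of_tendsto_of_tendsto_of_le_of_le' tendsto_const_nhds (tendsto_cheb M hε)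
    (Eventually.of_forall fun _ => zero_le) ?_
  filter_upwards [eventually_gt_atTop 0] with n hn
  have hn' : (0 : ℝ) < n := by exact_mod_cast hn
  have := smp_prob 0 hn
  have := smp_prob 2 hn
  have h4 := cheb_smp 0 (g := g) (ψ := ψ) hg.measurable hψ.continuous.measurable hM
    (fun t => abs_le.mpr ⟨by linarith [hψ0 t], hψ1 t⟩) hn hε
  rw [zero_add] at h4
  refine le_trans ?_ h4
  have hsub : {p : (Fin n → Pl) × (Fin n → Pl) | ∃ σ : Equiv.Perm (Fin n),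
      IsOptM (cost n) p.1 (fun i => p.2 (σ i)) ∧
        ε < |avg n (fun z => g z.1) ψ p.1 p.2 σ -
          (∫ t in (0 : ℝ)..1, g t) * ∫ t in (0 : ℝ)..1, ψ t|} ⊆
      {x : Fin n → Pl | ε * n < |∑ i, g (x i).1 * ψ ((x i).2 / n) -
        n * ((∫ t in (0 : ℝ)..1, g t) * ∫ t in (0 : ℝ)..1, ψ t)|} ×ˢ Set.univ := by
    rintro p ⟨σ, -, hσ⟩
    refine ⟨?_, trivial⟩
    show ε * n < |∑ i, g (p.1 i).1 * ψ ((p.1 i).2 / n) -
        n * ((∫ t in (0 : ℝ)..1, g t) * ∫ t in (0 : ℝ)..1, ψ t)|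
    have h5 : ∑ i, g (p.1 i).1 * ψ ((p.1 i).2 / n) -
        n * ((∫ t in (0 : ℝ)..1, g t) * ∫ t in (0 : ℝ)..1, ψ t) =
        n * (avg n (fun z => g z.1) ψ p.1 p.2 σ -
          (∫ t in (0 : ℝ)..1, g t) * ∫ t in (0 : ℝ)..1, ψ t) := by
      unfold avg
      field_simp
    rw [h5, abs_mul, abs_of_pos hn', mul_comm ε]
    exact mul_lt_mul_of_pos_left hσ hn'
  calc smpLaw n _ ≤ smpLaw n _ := measure_mono hsub
    _ = _ := by rw [smpLaw, Measure.prod_prod, measure_univ, mul_one]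

theorem limPhi_snd {g : ℝ → ℝ} (hg : Continuous g) {M : ℝ} (hM : ∀ z, |g z| ≤ M) {s : ℝ}
    (h : LimPhi (fun z => g z.2) s) : s = ∫ t in (2 : ℝ)..3, g t := by
  by_contra hne
  set t : ℝ := ∫ t in (2 : ℝ)..3, g t with ht
  have hst : 0 < |s - t| := abs_pos.mpr (sub_ne_zero.mpr hne)
  set ε : ℝ := |s - t| / 3 with hε'
  have hε : 0 < ε := by positivity
  have h1 := h (fun _ => par) goodCost_par (fun _ => 1) uniformContinuous_const
    (fun _ => zero_le_one) (fun _ => le_rfl) ε hε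
  have h2 := tendsto_cheb M hε
  have h3 := h1.add h2
  rw [add_zero] at h3
  have h4 := (h3.eventually (gt_mem_nhds (show (0 : ℝ≥0∞) < 1 from one_pos))).and
    (eventually_gt_atTop 0)
  obtain ⟨n, hn1, hn⟩ := h4.exists
  have hn' : (0 : ℝ) < n := by exact_mod_cast hn
  have := smp_prob 0 hn
  have := smp_prob 2 hn
  have := smpLaw_isProb hn
  set A := {p : (Fin n → Pl) × (Fin n → Pl) | ∃ σ : Equiv.Perm (Fin n),
      IsOptM par p.1 (fun i => p.2 (σ i)) ∧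
        ε < |avg n (fun z => g z.2) (fun _ => 1) p.1 p.2 σ -
          s * ∫ t in (0 : ℝ)..1, (1 : ℝ)|} with hA
  set B := {y : Fin n → Pl | ε * n < |∑ i, g (y i).1 - n * t|} with hB
  have hBm : smpLaw n (Set.univ ×ˢ B) ≤ ENNReal.ofReal (M ^ 2 / (ε ^ 2 * n)) := by
    have h5 := cheb_smp 2 (g := g) (ψ := fun _ => 1) hg.measurable measurable_const hM
      (fun _ => by simp) hn hε
    have h6 : ∫ t in (0 : ℝ)..1, (1 : ℝ) = 1 := by simp
    rw [h6] at h5
    simp only [mul_one] at h5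
    have h7 : (2 : ℝ) + 1 = 3 := by norm_num
    rw [h7] at h5
    rw [smpLaw, Measure.prod_prod, measure_univ, one_mul]
    exact h5
  have hlt : smpLaw n (A ∪ Set.univ ×ˢ B) < 1 :=
    ((measure_union_le _ _).trans (add_le_add_right hBm _)).trans_lt hn1
  have hne' : ∃ p, p ∉ A ∪ Set.univ ×ˢ B := by
    by_contra hcon
    push Not at hcon
    rw [Set.eq_univ_of_forall hcon, measure_univ] at hlt
    exact lt_irrefl _ hlt
  obtain ⟨p, hp⟩ := hne'
  obtain ⟨σ, hσ⟩ := exists_optM' par p.1 p.2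
  have h5 : |avg n (fun z => g z.2) (fun _ => 1) p.1 p.2 σ - s * ∫ t in (0 : ℝ)..1, (1 : ℝ)|
      ≤ ε := by
    by_contra hcon
    exact hp (Or.inl ⟨σ, hσ, not_le.mp hcon⟩)
  have h6 : |∑ i, g (p.2 i).1 - n * t| ≤ ε * n := by
    by_contra hcon
    exact hp (Or.inr ⟨trivial, not_le.mp hcon⟩)
  have h7 : avg n (fun z => g z.2) (fun _ => 1) p.1 p.2 σ = (∑ i, g (p.2 i).1) / n := by
    unfold avg
    congr 1
    simp only [mul_one]
    exact Equiv.sum_comp σ (fun i => g (p.2 i).1)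
  have h8 : ∫ t in (0 : ℝ)..1, (1 : ℝ) = 1 := by simp
  rw [h7, h8, mul_one] at h5
  have h9 : |(∑ i, g (p.2 i).1) / n - t| ≤ ε := by
    have h10 : (∑ i, g (p.2 i).1) / n - t = (∑ i, g (p.2 i).1 - n * t) / n := by
      field_simp
    rw [h10, abs_div, abs_of_pos hn', div_le_iff₀ hn']
    exact h6
  have h10 : |s - t| ≤ ε + ε := by
    have h11 := abs_sub_le s ((∑ i, g (p.2 i).1) / n) t
    have h12 : |s - (∑ i, g (p.2 i).1) / n| = |(∑ i, g (p.2 i).1) / n - s| := abs_sub_comm _ _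
    linarith
  rw [hε'] at h10
  linarith

open CompactlySupported in
/-- the limiting law of the horizontal coordinates -/
theorem exists_gamma : ∃ γ : Measure (ℝ × ℝ), IsProbabilityMeasure γ ∧
    γ (Set.Icc (0 : ℝ) 1 ×ˢ Set.Icc (2 : ℝ) 3)ᶜ = 0 ∧
    ∀ f : ℝ × ℝ → ℝ, Continuous f → (∃ M, ∀ z, |f z| ≤ M) → LimPhi f (∫ z, f z ∂γ) := by
  classical
  let X : Type := Set.Icc (0 : ℝ) 1 × Set.Icc (2 : ℝ) 3
  have h23 : (2 : ℝ) ≤ 3 := by norm_num
  let ρ : ℝ × ℝ → X := fun z => (Set.projIcc 0 1 zero_le_one z.1, Set.projIcc 2 3 h23 z.2)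
  let ι : X → ℝ × ℝ := fun z => ((z.1 : ℝ), (z.2 : ℝ))
  have hρ : Continuous ρ := by
    refine Continuous.prodMk ?_ ?_
    · exact continuous_projIcc.comp continuous_fst
    · exact continuous_projIcc.comp continuous_snd
  have hι : Continuous ι :=
    (continuous_subtype_val.comp continuous_fst).prodMk (continuous_subtype_val.comp continuous_snd)
  have hρι : ∀ a b : ℝ, 0 ≤ a → a ≤ 1 → 2 ≤ b → b ≤ 3 → ι (ρ (a, b)) = (a, b) := by
    intro a b h1 h2 h3 h4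
    show ((Set.projIcc 0 1 zero_le_one a : ℝ), (Set.projIcc 2 3 h23 b : ℝ)) = (a, b)
    rw [Set.projIcc_of_mem zero_le_one ⟨h1, h2⟩, Set.projIcc_of_mem h23 ⟨h3, h4⟩]
  have key : ∀ f : C_c(X, ℝ), ∃ s, LimPhi (fun z => f (ρ z)) s := by
    intro f
    obtain ⟨M, hM⟩ := (isCompact_range f.continuous).isBounded.exists_norm_le
    refine limPhi_exists (f.continuous.comp hρ).measurable (M := M) fun z => ?_
    exact hM _ ⟨ρ z, rfl⟩
  choose L hL using key
  have hadd : ∀ f g, L (f + g) = L f + L g := fun f g => (hL (f + g)).unique ((hL f).add (hL g))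
  have hsmul : ∀ (a : ℝ) f, L (a • f) = a • L f := fun a f =>
    (hL (a • f)).unique ((hL f).const_mul a)
  let Λ : C_c(X, ℝ) →ₚ[ℝ] ℝ := PositiveLinearMap.mk₀
    { toFun := L, map_add' := hadd, map_smul' := hsmul }
    (fun f hf => (hL f).nonneg fun a b _ _ _ _ => hf _)
  let μ : Measure X := RealRMK.rieszMeasure Λ
  have hμ : ∀ f : C_c(X, ℝ), ∫ x, f x ∂μ = L f := fun f => RealRMK.integral_rieszMeasure Λ f
  have hμ' : ∀ F : X → ℝ, Continuous F → LimPhi (fun z => F (ρ z)) (∫ x, F x ∂μ) := by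
    intro F hF
    have h1 := hL ⟨⟨F, hF⟩, HasCompactSupport.of_compactSpace F⟩
    have h2 := hμ ⟨⟨F, hF⟩, HasCompactSupport.of_compactSpace F⟩
    rw [← h2] at h1
    exact h1
  have hfin : IsFiniteMeasure μ := inferInstance
  have huniv : μ Set.univ = 1 := by
    have h1 := (hμ' (fun _ => 1) continuous_const).unique LimPhi.one
    rw [integral_const, smul_eq_mul, mul_one] at h1
    rw [← ENNReal.toReal_eq_one_iff]
    exact h1
  have hprob : IsProbabilityMeasure μ := ⟨huniv⟩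
  refine ⟨μ.map ι, Measure.isProbabilityMeasure_map hι.measurable.aemeasurable, ?_, ?_⟩
  · rw [Measure.map_apply hι.measurable (measurableSet_Icc.prod measurableSet_Icc).compl]
    have : ι ⁻¹' (Set.Icc (0 : ℝ) 1 ×ˢ Set.Icc (2 : ℝ) 3)ᶜ = ∅ := by
      ext z
      simp only [Set.mem_preimage, Set.mem_compl_iff, Set.mem_prod, Set.mem_empty_iff_false,
        iff_false, not_not]
      exact ⟨z.1.2, z.2.2⟩
    rw [this, measure_empty]
  · intro f hf hM
    rw [integral_map hι.measurable.aemeasurable hf.aestronglyMeasurable]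
    refine (hμ' (fun x => f (ι x)) (hf.comp hι)).congr fun a b h1 h2 h3 h4 => ?_
    rw [hρι a b h1 h2 h3 h4]

theorem gamma_marg_aux {γ : Measure (ℝ × ℝ)} [IsProbabilityMeasure γ] {p : ℝ × ℝ → ℝ}
    (hp : Continuous p) {l : ℝ} (h : ∀ g : ℝ → ℝ, Continuous g → (∃ M, ∀ z, |g z| ≤ M) →
      ∫ z, g (p z) ∂γ = ∫ t in l..(l + 1), g t) :
    γ.map p = volume.restrict (Set.Icc l (l + 1)) := by
  have h1 : IsProbabilityMeasure (γ.map p) :=
    Measure.isProbabilityMeasure_map hp.measurable.aemeasurable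
  have h2 : IsFiniteMeasure ((volume : Measure ℝ).restrict (Set.Icc l (l + 1))) := by
    constructor
    rw [Measure.restrict_apply_univ, Real.volume_Icc]
    exact ENNReal.ofReal_lt_top
  apply ext_of_forall_integral_eq_of_IsFiniteMeasure
  intro f
  rw [integral_map hp.measurable.aemeasurable f.continuous.aestronglyMeasurable,
    h f f.continuous ⟨‖f‖, fun z => f.norm_coe_le_norm z⟩,
    intervalIntegral.integral_of_le (by linarith), integral_Icc_eq_integral_Ioc]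

/-- its marginals are uniform -/
theorem gamma_marginals {γ : Measure (ℝ × ℝ)} [IsProbabilityMeasure γ]
    (h : ∀ f : ℝ × ℝ → ℝ, Continuous f → (∃ M, ∀ z, |f z| ≤ M) → LimPhi f (∫ z, f z ∂γ)) :
    γ.map Prod.fst = volume.restrict (Set.Icc (0 : ℝ) 1) ∧
      γ.map Prod.snd = volume.restrict (Set.Icc (2 : ℝ) 3) := by
  constructor
  · have := gamma_marg_aux (γ := γ) (p := Prod.fst) continuous_fst (l := 0) (by
      intro g hg hM
      obtain ⟨M, hM⟩ := hM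
      rw [zero_add]
      exact (h (fun z => g z.1) (hg.comp continuous_fst) ⟨M, fun z => hM _⟩).unique
        (limPhi_fst hg hM))
    rwa [zero_add] at this
  · have h3 : (2 : ℝ) + 1 = 3 := by norm_num
    have := gamma_marg_aux (γ := γ) (p := Prod.snd) continuous_snd (l := 2) (by
      intro g hg hM
      obtain ⟨M, hM⟩ := hM
      rw [h3]
      exact limPhi_snd hg hM (h (fun z => g z.2) (hg.comp continuous_snd) ⟨M, fun z => hM _⟩))
    rwa [h3] at this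

end Pool.Agent.H27.OTC
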