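import Pool.Agent.H27.OTC.DensDefs
import Pool.Agent.H27.OTC.LimFun

/-!
Truncation of an optimal segment; the finite densities divided by `b - a` are monotone.
-/

set_option autoImplicit false

open MeasureTheory ProbabilityTheory Filter
open scoped ENNReal Topology

namespace Pool.Agent.H27.OTC

open Pool.Agent.H96.OT (Pl)

/-! ### the deterministic step -/

theorem par_triangle {x z y : Pl} (h1 : x.1 < z.1) (h2 : z.1 < y.1) :
    par x y ≤ par x z + par z y := by
  unfold par
  have hs : 0 < z.1 - x.1 := by linarith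
  have ht : 0 < y.1 - z.1 := by linarith
  have hst : 0 < y.1 - x.1 := by linarith
  rw [div_add_div _ _ hs.ne' ht.ne', div_le_div_iff₀ hst (mul_pos hs ht)]
  nlinarith [sq_nonneg ((z.2 - x.2) * (y.1 - z.1) - (y.2 - z.2) * (z.1 - x.1))]

theorem par_collinear {x z y : Pl} (h1 : x.1 < z.1) (h2 : z.1 < y.1)
    (h : z.2 = x.2 + (z.1 - x.1) / (y.1 - x.1) * (y.2 - x.2)) :
    par x y = par x z + par z y := by
  unfold par
  have hs : 0 < z.1 - x.1 := by linarith
  have ht : 0 < y.1 - z.1 := by linarith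
  have hst : 0 < y.1 - x.1 := by linarith
  rw [h]
  field_simp
  ring

theorem optM_trunc {m : ℕ} {x z w : Pl} {X Y : Fin m → Pl} (h1 : x.1 < z.1) (h2 : z.1 < w.1)
    (hY : ∀ i, z.1 < (Y i).1) (hz : z.2 = x.2 + (z.1 - x.1) / (w.1 - x.1) * (w.2 - x.2))
    (h : IsOptM par (Fin.cons x X : Fin (m + 1) → Pl) (Fin.cons w Y)) :
    IsOptM par (Fin.cons z X : Fin (m + 1) → Pl) (Fin.cons w Y) := by
  intro τ
  have h3 := h τ
  rw [Fin.sum_univ_succ, Fin.sum_univ_succ] at h3 ⊢
  simp only [Fin.cons_zero, Fin.cons_succ] at h3 ⊢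
  have h4 : par x ((Fin.cons w Y : Fin (m + 1) → Pl) (τ 0)) ≤
      par x z + par z ((Fin.cons w Y : Fin (m + 1) → Pl) (τ 0)) := by
    apply par_triangle h1
    generalize τ 0 = j
    refine Fin.cases ?_ (fun i => ?_) j
    · simpa using h2
    · simpa using hY i
  have h5 := par_collinear h1 h2 hz
  linarith

/-! ### measurability -/

theorem measurableSet_optM (m : ℕ) :
    MeasurableSet {p : (Fin m → Pl) × (Fin m → Pl) | IsOptM par p.1 p.2} := by
  have h : {p : (Fin m → Pl) × (Fin m → Pl) | IsOptM par p.1 p.2} =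
      ⋂ τ : Equiv.Perm (Fin m), {p | ∑ i, par (p.1 i) (p.2 i) ≤ ∑ i, par (p.1 i) (p.2 (τ i))} := by
    ext p
    simp [IsOptM]
  rw [h]
  refine MeasurableSet.iInter fun τ => measurableSet_le ?_ ?_
  · exact Finset.measurable_fun_sum _ fun i _ => measurable_par
      ((measurable_pi_apply _).comp measurable_fst) ((measurable_pi_apply _).comp measurable_snd)
  · exact Finset.measurable_fun_sum _ fun i _ => measurable_par
      ((measurable_pi_apply _).comp measurable_fst) ((measurable_pi_apply _).comp measurable_snd)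

theorem restLaw_prob (n : ℕ) : IsProbabilityMeasure (restLaw n) := by
  have := smp_prob 0 (Nat.succ_pos n)
  have := smp_prob 2 (Nat.succ_pos n)
  unfold restLaw
  infer_instance

theorem measurable_optProb (n : ℕ) : Measurable (fun z : Pl × Pl => optProb n z.1 z.2) := by
  have := restLaw_prob n
  have hS : MeasurableSet {r : (Pl × Pl) × ((Fin n → Pl) × (Fin n → Pl)) |
      IsOptM par (Fin.cons r.1.1 r.2.1 : Fin (n + 1) → Pl) (Fin.cons r.1.2 r.2.2)} := by
    have h : Measurable (fun r : (Pl × Pl) × ((Fin n → Pl) × (Fin n → Pl)) =>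
        ((Fin.cons r.1.1 r.2.1 : Fin (n + 1) → Pl), (Fin.cons r.1.2 r.2.2 : Fin (n + 1) → Pl))) :=
      ((measurable_fin_cons n).comp ((measurable_fst.comp measurable_fst).prodMk
        (measurable_fst.comp measurable_snd))).prodMk
      ((measurable_fin_cons n).comp ((measurable_snd.comp measurable_fst).prodMk
        (measurable_snd.comp measurable_snd)))
    exact h (measurableSet_optM (n + 1))
  exact measurable_measure_prodMk_left hS

theorem optProb_le_one (n : ℕ) (x y : Pl) : optProb n x y ≤ 1 := by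
  have := restLaw_prob n
  exact prob_le_one

/-- the abscissas of the remaining points -/
theorem ae_rest (n : ℕ) : ∀ᵐ q ∂(restLaw n), ∀ i, (2 : ℝ) ≤ (q.2 i).1 := by
  have := smp_prob 0 (Nat.succ_pos n)
  have := smp_prob 2 (Nat.succ_pos n)
  have h2 : ∀ᵐ x ∂(Measure.pi fun _ : Fin n => smp 2 (n + 1)), ∀ i, (2 : ℝ) ≤ (x i).1 := by
    rw [ae_all_iff]
    intro i
    exact ((Measure.tendsto_eval_ae_ae (μ := fun _ : Fin n => smp 2 (n + 1)) (i := i)).eventually
      (ae_smp 2 (n + 1))).mono fun x hx => hx.1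
  exact Measure.quasiMeasurePreserving_snd.ae h2

theorem optProb_trunc (n : ℕ) {a a' b u v : ℝ} (h1 : a < a') (h2 : a' ≤ 1) (h3 : 2 ≤ b) :
    optProb n (a, u) (b, v) ≤ optProb n (a', u + (a' - a) / (b - a) * (v - u)) (b, v) := by
  unfold optProb
  refine measure_mono_ae ?_
  filter_upwards [ae_rest n] with q hq hopt
  refine optM_trunc (x := (a, u)) (z := (a', u + (a' - a) / (b - a) * (v - u))) (w := (b, v))
    h1 (show a' < b by linarith) (fun i => ?_) rfl hopt
  have := hq i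
  show a' < _
  linarith

/-- an affine change of variables -/
theorem lintegral_affine {g : ℝ → ℝ≥0∞} (hg : Measurable g) {c : ℝ} (hc : 0 < c) (d : ℝ) :
    ∫⁻ u, g (c * u + d) = ENNReal.ofReal c⁻¹ * ∫⁻ u, g u := by
  have h1 : Measurable (fun t => g (t + d)) := hg.comp (measurable_id.add_const d)
  have h2 := Real.map_volume_mul_left hc.ne'
  calc ∫⁻ u, g (c * u + d) = ∫⁻ t, g (t + d) ∂(Measure.map (fun x => c * x) volume) := by
        rw [lintegral_map h1 (measurable_const_mul c)]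
    _ = ENNReal.ofReal |c⁻¹| * ∫⁻ t, g (t + d) := by rw [h2, lintegral_smul_measure, smul_eq_mul]
    _ = ENNReal.ofReal c⁻¹ * ∫⁻ u, g u := by
        rw [abs_of_pos (inv_pos.2 hc), lintegral_add_right_eq_self]

theorem lintegral_trunc {g : ℝ → ℝ≥0∞} (hg : Measurable g) {N θ v : ℝ} (hθ0 : 0 ≤ θ) (hθ1 : θ < 1)
    (hv0 : 0 < v) (hv : v ≤ N) :
    ∫⁻ u in Set.Ioc 0 N, g (u + θ * (v - u)) ≤
      ENNReal.ofReal (1 - θ)⁻¹ * ∫⁻ u in Set.Ioc 0 N, g u := by
  have hg' : Measurable ((Set.Ioc 0 N).indicator g) := hg.indicator measurableSet_Ioc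
  have h1 := lintegral_affine hg' (show 0 < 1 - θ by linarith) (θ * v)
  rw [lintegral_indicator measurableSet_Ioc] at h1
  rw [← h1, ← lintegral_indicator measurableSet_Ioc]
  refine lintegral_mono fun u => ?_
  by_cases hu : u ∈ Set.Ioc 0 N
  · have e : u + θ * (v - u) = (1 - θ) * u + θ * v := by ring
    have hmem : (1 - θ) * u + θ * v ∈ Set.Ioc 0 N := by
      obtain ⟨hu0, huN⟩ := hu
      constructor
      · have : 0 < (1 - θ) * u := mul_pos (by linarith) hu0
        have : 0 ≤ θ * v := mul_nonneg hθ0 hv0.le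
        linarith
      · nlinarith
    rw [Set.indicator_of_mem hu, Set.indicator_of_mem hmem, e]
  · rw [Set.indicator_of_notMem hu]
    exact zero_le

theorem ofReal_div_mul {s t : ℝ} (hs : 0 < s) (ht : 0 < t) (x : ℝ≥0∞) :
    ENNReal.ofReal (s / t) * x / ENNReal.ofReal s = x / ENNReal.ofReal t := by
  rw [ENNReal.ofReal_div_of_pos ht, div_eq_mul_inv, div_eq_mul_inv, div_eq_mul_inv]
  have hs' : ENNReal.ofReal s ≠ 0 := (ENNReal.ofReal_pos.2 hs).ne'
  have e : ENNReal.ofReal s * (ENNReal.ofReal t)⁻¹ * x * (ENNReal.ofReal s)⁻¹ =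
      (ENNReal.ofReal s * (ENNReal.ofReal s)⁻¹) * (x * (ENNReal.ofReal t)⁻¹) := by ring
  rw [e, ENNReal.mul_inv_cancel hs' ENNReal.ofReal_ne_top, one_mul]

theorem meas_kernel {F : Pl → Pl → ℝ≥0∞} (hF : Measurable (fun z : Pl × Pl => F z.1 z.2))
    {α : Type*} [MeasurableSpace α] {f g : α → Pl} (hf : Measurable f) (hg : Measurable g) :
    Measurable (fun a => F (f a) (g a)) :=
  Measurable.comp hF (hf.prodMk hg)

/-- truncation, integrated over the heights -/
theorem kernel_trunc {F : Pl → Pl → ℝ≥0∞} (hF : Measurable (fun z : Pl × Pl => F z.1 z.2))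
    (N : ℝ) {a a' b : ℝ} (h1 : a < a') (h2 : a' ≤ 1) (h3 : 2 ≤ b)
    (hT : ∀ u v, F (a, u) (b, v) ≤ F (a', u + (a' - a) / (b - a) * (v - u)) (b, v)) :
    ∫⁻ u in Set.Ioc (0 : ℝ) N, ∫⁻ v in Set.Ioc (0 : ℝ) N, F (a, u) (b, v) ≤
      ENNReal.ofReal ((b - a) / (b - a')) *
        ∫⁻ u in Set.Ioc (0 : ℝ) N, ∫⁻ v in Set.Ioc (0 : ℝ) N, F (a', u) (b, v) := by
  have hba : 0 < b - a := by linarith
  have hba' : 0 < b - a' := by linarith
  have hθ0 : 0 ≤ (a' - a) / (b - a) := div_nonneg (by linarith) hba.le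
  have hθ1 : (a' - a) / (b - a) < 1 := by rw [div_lt_one hba]; linarith
  have hθ2 : (1 - (a' - a) / (b - a))⁻¹ = (b - a) / (b - a') := by
    have : 1 - (a' - a) / (b - a) = (b - a') / (b - a) := by field_simp; ring
    rw [this, inv_div]
  have hm1 : ∀ c : ℝ, Measurable (fun z : ℝ × ℝ => F (c, z.1) (b, z.2)) := fun c =>
    meas_kernel hF (measurable_const.prodMk measurable_fst) (measurable_const.prodMk measurable_snd)
  have hsw : ∀ c : ℝ, ∫⁻ u in Set.Ioc (0 : ℝ) N, ∫⁻ v in Set.Ioc (0 : ℝ) N, F (c, u) (b, v) =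
      ∫⁻ v in Set.Ioc (0 : ℝ) N, ∫⁻ u in Set.Ioc (0 : ℝ) N, F (c, u) (b, v) := fun c =>
    lintegral_lintegral_swap (f := fun u v => F (c, u) (b, v)) (hm1 c).aemeasurable
  have hm2 : Measurable fun v => ∫⁻ u in Set.Ioc (0 : ℝ) N, F (a', u) (b, v) :=
    (hm1 a').lintegral_prod_left'
  rw [hsw a, hsw a', ← lintegral_const_mul _ hm2]
  refine setLIntegral_mono (hm2.const_mul _) fun v hv => ?_
  refine le_trans (lintegral_mono fun u => hT u v) ?_
  rw [← hθ2]
  exact lintegral_trunc (g := fun u => F (a', u) (b, v))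
    (meas_kernel hF (measurable_const.prodMk measurable_id) measurable_const) hθ0 hθ1 hv.1 hv.2

/-- the finite densities divided by `b - a` are nondecreasing in `a` -/
theorem finDens_mono_left (n : ℕ) {a a' b : ℝ} (h1 : a ≤ a') (h2 : a' ≤ 1) (h3 : 2 ≤ b) :
    finDens n a b / ENNReal.ofReal (b - a) ≤ finDens n a' b / ENNReal.ofReal (b - a') := by
  rcases h1.eq_or_lt with rfl | h1
  · exact le_rfl
  have hba : 0 < b - a := by linarith
  have hba' : 0 < b - a' := by linarith
  have key := kernel_trunc (F := optProb n) (measurable_optProb n) ((n + 1 : ℕ) : ℝ) h1 h2 h3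
    (fun u v => optProb_trunc n h1 h2 h3)
  rw [← ofReal_div_mul hba hba']
  refine ENNReal.div_le_div_right ?_ _
  unfold finDens
  calc _ ≤ _ := mul_le_mul_right key _
    _ = _ := by ring

end Pool.Agent.H27.OTC
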