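import Pool.Agent.H27.OTC.DensA

/-!
The symmetry `(a, b) ↦ (3 - b, 3 - a)` of the finite densities; monotonicity in `b`.
-/

set_option autoImplicit false

open MeasureTheory ProbabilityTheory Filter
open scoped ENNReal Topology

namespace Pool.Agent.H27.OTC

open Pool.Agent.H96.OT (Pl)

/-- reflection of the abscissa -/
noncomputable def rho (p : Pl) : Pl := (3 - p.1, p.2)

theorem par_rho (x y : Pl) : par (rho y) (rho x) = par x y := by
  unfold par rho
  have e : 3 - x.1 - (3 - y.1) = y.1 - x.1 := by ring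
  rw [e]
  congr 1
  ring

theorem optM_rho {m : ℕ} {X Y : Fin m → Pl} :
    IsOptM par (fun i => rho (Y i)) (fun i => rho (X i)) ↔ IsOptM par X Y := by
  have key : ∀ τ : Equiv.Perm (Fin m), ∑ i, par (rho (Y i)) (rho (X (τ i))) =
      ∑ i, par (X i) (Y (τ.symm i)) := by
    intro τ
    simp only [par_rho]
    rw [← Equiv.sum_comp τ (fun i => par (X i) (Y (τ.symm i)))]
    simp
  have key1 : ∑ i, par (rho (Y i)) (rho (X i)) = ∑ i, par (X i) (Y i) := by
    simp only [par_rho]
  constructor
  · intro h τ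
    have h1 := h τ.symm
    rw [key, key1] at h1
    simpa using h1
  · intro h τ
    have h1 := h τ.symm
    rw [← key, ← key1] at h1
    exact h1

theorem rho_preserving (N : ℝ) (l l' : ℝ) (hl : l + l' = 2) :
    MeasurePreserving rho (volume.restrict (Set.Icc l (l + 1) ×ˢ Set.Ioc (0 : ℝ) N))
      (volume.restrict (Set.Icc l' (l' + 1) ×ˢ Set.Ioc (0 : ℝ) N)) := by
  have h1 : MeasurePreserving rho (volume : Measure Pl) volume :=
    (Measure.measurePreserving_sub_left (volume : Measure ℝ) 3).prod (MeasurePreserving.id volume)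
  have h2 := h1.restrict_preimage (s := Set.Icc l' (l' + 1) ×ˢ Set.Ioc (0 : ℝ) N)
    (measurableSet_Icc.prod measurableSet_Ioc)
  have h3 : rho ⁻¹' (Set.Icc l' (l' + 1) ×ˢ Set.Ioc (0 : ℝ) N) =
      Set.Icc l (l + 1) ×ˢ Set.Ioc (0 : ℝ) N := by
    ext p
    simp only [rho, Set.mem_preimage, Set.mem_prod, Set.mem_Icc, Set.mem_Ioc]
    constructor
    · rintro ⟨⟨h1, h2⟩, h3⟩
      exact ⟨⟨by linarith, by linarith⟩, h3⟩
    · rintro ⟨⟨h1, h2⟩, h3⟩
      exact ⟨⟨by linarith, by linarith⟩, h3⟩
  rwa [h3] at h2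

theorem rho_smp (n : ℕ) (l l' : ℝ) (hl : l + l' = 2) :
    MeasurePreserving rho (smp l n) (smp l' n) :=
  (rho_preserving n l l' hl).smul_measure _

theorem measurable_rho : Measurable rho := (measurable_fst.const_sub 3).prodMk measurable_snd

theorem rest_rho (n : ℕ) : MeasurePreserving
    (fun q : (Fin n → Pl) × (Fin n → Pl) => ((fun i => rho (q.2 i)), (fun i => rho (q.1 i))))
    (restLaw n) (restLaw n) := by
  have := smp_finite 0 (n + 1)
  have := smp_finite 2 (n + 1)
  have h0 : MeasurePreserving (fun (w : Fin n → Pl) (i : Fin n) => rho (w i))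
      (Measure.pi fun _ => smp 0 (n + 1)) (Measure.pi fun _ => smp 2 (n + 1)) :=
    measurePreserving_pi (fun _ => smp 0 (n + 1)) (fun _ => smp 2 (n + 1)) (f := fun _ => rho)
      fun _ => rho_smp (n + 1) 0 2 (by norm_num)
  have h2 : MeasurePreserving (fun (w : Fin n → Pl) (i : Fin n) => rho (w i))
      (Measure.pi fun _ => smp 2 (n + 1)) (Measure.pi fun _ => smp 0 (n + 1)) :=
    measurePreserving_pi (fun _ => smp 2 (n + 1)) (fun _ => smp 0 (n + 1)) (f := fun _ => rho)
      fun _ => rho_smp (n + 1) 2 0 (by norm_num)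
  exact (h2.prod h0).comp Measure.measurePreserving_swap

theorem cons_rho {n : ℕ} (x : Pl) (w : Fin n → Pl) :
    (Fin.cons (rho x) (fun i => rho (w i)) : Fin (n + 1) → Pl) =
      fun i => rho ((Fin.cons x w : Fin (n + 1) → Pl) i) := by
  funext i
  refine Fin.cases ?_ (fun j => ?_) i
  · simp
  · simp

theorem optProb_rho (n : ℕ) (x y : Pl) : optProb n (rho y) (rho x) = optProb n x y := by
  have hS : MeasurableSet {q : (Fin n → Pl) × (Fin n → Pl) |
      IsOptM par (Fin.cons (rho y) q.1 : Fin (n + 1) → Pl) (Fin.cons (rho x) q.2)} := by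
    have h : Measurable (fun q : (Fin n → Pl) × (Fin n → Pl) =>
        ((Fin.cons (rho y) q.1 : Fin (n + 1) → Pl), (Fin.cons (rho x) q.2 : Fin (n + 1) → Pl))) :=
      ((measurable_fin_cons n).comp (measurable_const.prodMk measurable_fst)).prodMk
      ((measurable_fin_cons n).comp (measurable_const.prodMk measurable_snd))
    exact h (measurableSet_optM (n + 1))
  unfold optProb
  rw [← (rest_rho n).measure_preimage hS.nullMeasurableSet]
  congr 1
  ext q
  simp only [Set.mem_preimage, Set.mem_ofPred_eq, cons_rho]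
  exact optM_rho

theorem finDens_symm (n : ℕ) (a b : ℝ) : finDens n (3 - b) (3 - a) = finDens n a b := by
  unfold finDens
  congr 1
  have h1 : ∀ u v : ℝ, optProb n (3 - b, u) (3 - a, v) = optProb n (a, v) (b, u) := fun u v =>
    optProb_rho n (a, v) (b, u)
  simp only [h1]
  exact lintegral_lintegral_swap (f := fun u v => optProb n (a, v) (b, u))
    (meas_kernel (F := optProb n) (measurable_optProb n) (measurable_const.prodMk measurable_snd)
      (measurable_const.prodMk measurable_fst)).aemeasurable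

/-- the finite densities divided by `b - a` are nonincreasing in `b` -/
theorem finDens_anti_right (n : ℕ) {a b b' : ℝ} (h1 : b ≤ b') (h2 : 2 ≤ b) (h3 : a ≤ 1) :
    finDens n a b' / ENNReal.ofReal (b' - a) ≤ finDens n a b / ENNReal.ofReal (b - a) := by
  have h := finDens_mono_left n (a := 3 - b') (a' := 3 - b) (b := 3 - a) (by linarith)
    (by linarith) (by linarith)
  rw [finDens_symm, finDens_symm] at h
  have e1 : 3 - a - (3 - b') = b' - a := by ring
  have e2 : 3 - a - (3 - b) = b - a := by ring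
  rwa [e1, e2] at h

theorem finDens_mono (n : ℕ) {a a' b b' : ℝ} (h1 : a ≤ a') (h2 : a' ≤ 1) (h3 : 2 ≤ b')
    (h4 : b' ≤ b) :
    finDens n a b / ENNReal.ofReal (b - a) ≤ finDens n a' b' / ENNReal.ofReal (b' - a') :=
  (finDens_anti_right n h4 h3 (h1.trans h2)).trans (finDens_mono_left n h1 h2 h3)

theorem measurable_finDens (n : ℕ) : Measurable (fun z : ℝ × ℝ => finDens n z.1 z.2) := by
  unfold finDens
  refine Measurable.const_mul ?_ _
  have h1 : Measurable (fun r : ((ℝ × ℝ) × ℝ) × ℝ => optProb n (r.1.1.1, r.1.2) (r.1.1.2, r.2)) :=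
    meas_kernel (F := optProb n) (measurable_optProb n)
      ((measurable_fst.comp (measurable_fst.comp measurable_fst)).prodMk
        (measurable_snd.comp measurable_fst))
      ((measurable_snd.comp (measurable_fst.comp measurable_fst)).prodMk measurable_snd)
  exact (h1.lintegral_prod_right').lintegral_prod_right'

end Pool.Agent.H27.OTC
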