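import Pool.Agent.H27.OTC.DensB

/-!
The mean law of the horizontal coordinates of the pairs of the optimal assignment of `n + 1` to
`n + 1` points has the density `finDens n`.
-/

set_option autoImplicit false

open MeasureTheory ProbabilityTheory Filter
open scoped ENNReal Topology

namespace Pool.Agent.H27.OTC

open Pool.Agent.H96.OT (Pl)

/-! ### uniqueness of the optimal assignment -/

/-- two different matchings of independent points a.s. have different costs -/
theorem par_ne' {ν ν' : Measure Pl} [IsFiniteMeasure ν] [IsFiniteMeasure ν'] (hν : ν ≪ volume)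
    (hν' : ν' ≪ volume) {m : ℕ} {σ : Equiv.Perm (Fin m)} (hσ : σ ≠ 1) :
    ∀ᵐ p ∂((Measure.pi fun _ : Fin m => ν).prod (Measure.pi fun _ : Fin m => ν')),
      ∑ i, par (p.1 i) (p.2 i) ≠ ∑ i, par (p.1 i) (p.2 (σ i)) := by
  classical
  obtain ⟨i0, hi0⟩ : ∃ i0, σ i0 ≠ i0 := by
    by_contra h
    push Not at h
    exact hσ (Equiv.ext h)
  have hmpar : ∀ (τ : Fin m → Fin m), Measurable (fun p : (Fin m → Pl) × (Fin m → Pl) =>
      ∑ i, par (p.1 i) (p.2 (τ i))) := by
    intro τ
    refine Finset.measurable_sum _ (fun i _ => ?_)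
    unfold par
    fun_prop
  have hSm : MeasurableSet {p : (Fin m → Pl) × (Fin m → Pl) |
      ∑ i, par (p.1 i) (p.2 i) = ∑ i, par (p.1 i) (p.2 (σ i))} :=
    measurableSet_eq_fun (hmpar id) (hmpar σ)
  rw [ae_iff]
  have hset : {p : (Fin m → Pl) × (Fin m → Pl) |
      ¬ ∑ i, par (p.1 i) (p.2 i) ≠ ∑ i, par (p.1 i) (p.2 (σ i))} =
      {p | ∑ i, par (p.1 i) (p.2 i) = ∑ i, par (p.1 i) (p.2 (σ i))} := by
    ext p; simp
  rw [hset, Measure.prod_apply_symm hSm, lintegral_eq_zero_iff (measurable_measure_prodMk_right hSm)]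
  have hy : ∀ᵐ y ∂(Measure.pi fun _ : Fin m => ν'), (y i0).1 ≠ (y (σ i0)).1 := by
    rw [ae_iff]
    refine pi_null_of_coord i0 ?_ ?_
    · have : {y : Fin m → Pl | ¬ (y i0).1 ≠ (y (σ i0)).1} = {y | (y i0).1 = (y (σ i0)).1} := by
        ext y; simp
      rw [this]
      exact measurableSet_eq_fun (by fun_prop) (by fun_prop)
    · intro x
      apply hν'
      have : {z : Pl | Function.update x i0 z ∈ {y : Fin m → Pl | ¬ (y i0).1 ≠ (y (σ i0)).1}} =
          ({(x (σ i0)).1} : Set ℝ) ×ˢ (Set.univ : Set ℝ) := by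
        ext z
        simp [Function.update_of_ne hi0]
      rw [this, Measure.volume_eq_prod, Measure.prod_prod]
      simp
  filter_upwards [hy] with y hy
  refine pi_null_of_coord i0 (hSm.preimage (measurable_id.prodMk measurable_const)) ?_
  intro x
  apply hν
  have hm1 : MeasurableSet {z : Pl | Function.update x i0 z ∈ (fun x : Fin m → Pl => (x, y)) ⁻¹'
      {p : (Fin m → Pl) × (Fin m → Pl) |
      ∑ i, par (p.1 i) (p.2 i) = ∑ i, par (p.1 i) (p.2 (σ i))}} :=
    (hSm.preimage (measurable_id.prodMk measurable_const)).preimage (measurable_update x)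
  rw [Measure.volume_eq_prod]
  refine Measure.measure_prod_null_of_ae_null hm1 ?_
  refine Filter.Eventually.of_forall (fun a => ?_)
  set s1 : ℝ := ∑ i ∈ Finset.univ.erase i0, par (x i) (y i) with hs1
  set s2 : ℝ := ∑ i ∈ Finset.univ.erase i0, par (x i) (y (σ i)) with hs2
  have hA : ((y i0).1 - a)⁻¹ - ((y (σ i0)).1 - a)⁻¹ ≠ 0 := by
    intro h
    have h1 : ((y i0).1 - a)⁻¹ = ((y (σ i0)).1 - a)⁻¹ := by linarith
    have h2 := inv_injective h1
    exact hy (by linarith)
  have hq := quad_null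
    (-2 * (y i0).2 * ((y i0).1 - a)⁻¹ + 2 * (y (σ i0)).2 * ((y (σ i0)).1 - a)⁻¹)
    ((y i0).2 ^ 2 * ((y i0).1 - a)⁻¹ - (y (σ i0)).2 ^ 2 * ((y (σ i0)).1 - a)⁻¹ + s1 - s2) hA
  refine measure_mono_null ?_ hq
  intro u hu
  simp only [Set.mem_preimage, Set.mem_ofPred_eq] at hu ⊢
  have e1 : ∀ τ : Fin m → Fin m, ∑ i, par (Function.update x i0 (a, u) i) (y (τ i)) =
      par (a, u) (y (τ i0)) + ∑ i ∈ Finset.univ.erase i0, par (x i) (y (τ i)) := by
    intro τ
    rw [← Finset.add_sum_erase Finset.univ _ (Finset.mem_univ i0)]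
    congr 1
    · simp
    · refine Finset.sum_congr rfl (fun i hi => ?_)
      rw [Function.update_of_ne (Finset.ne_of_mem_erase hi)]
  have e2 := e1 id
  have e3 := e1 σ
  simp only [id] at e2
  rw [e2, e3, ← hs1, ← hs2] at hu
  unfold par at hu
  simp only [div_eq_mul_inv] at hu
  linear_combination hu

theorem smp_ac (l : ℝ) (n : ℕ) : smp l n ≪ volume := by
  unfold smp
  exact (Measure.absolutelyContinuous_of_le Measure.restrict_le_self).smul_left _

/-! ### permutations of the points -/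

theorem perm_preserving {k : ℕ} (ν : Measure Pl) [IsFiniteMeasure ν] (σ : Equiv.Perm (Fin k)) :
    MeasurePreserving (fun (w : Fin k → Pl) (i : Fin k) => w (σ i))
      (Measure.pi fun _ : Fin k => ν) (Measure.pi fun _ : Fin k => ν) := by
  have h := measurePreserving_piCongrLeft (fun _ : Fin k => ν) σ.symm
  have e : (fun (w : Fin k → Pl) (i : Fin k) => w (σ i)) =
      ⇑(MeasurableEquiv.piCongrLeft (fun _ : Fin k => Pl) σ.symm) := by
    funext w i
    have h6 := MeasurableEquiv.piCongrLeft_apply_apply σ.symm (β := fun _ => Pl) w (σ i)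
    rw [Equiv.symm_apply_apply] at h6
    exact h6.symm
  rw [e]
  exact h

theorem perm_right {k : ℕ} (σ : Equiv.Perm (Fin k)) :
    MeasurePreserving (fun p : (Fin k → Pl) × (Fin k → Pl) => (p.1, fun i => p.2 (σ i)))
      (smpLaw k) (smpLaw k) := by
  have := smp_finite 0 k
  have := smp_finite 2 k
  exact (MeasurePreserving.id _).prod (perm_preserving (smp 2 k) σ)

theorem perm_both {k : ℕ} (σ : Equiv.Perm (Fin k)) :
    MeasurePreserving (fun p : (Fin k → Pl) × (Fin k → Pl) =>
      ((fun i => p.1 (σ i)), fun i => p.2 (σ i))) (smpLaw k) (smpLaw k) := by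
  have := smp_finite 0 k
  have := smp_finite 2 k
  exact (perm_preserving (smp 0 k) σ).prod (perm_preserving (smp 2 k) σ)

theorem optM_perm {m : ℕ} {X Y : Fin m → Pl} (π : Equiv.Perm (Fin m)) :
    IsOptM par (fun i => X (π i)) (fun i => Y (π i)) ↔ IsOptM par X Y := by
  have key : ∀ τ : Equiv.Perm (Fin m), ∑ i, par (X (π i)) (Y (π (τ i))) =
      ∑ i, par (X i) (Y (π (τ (π.symm i)))) := by
    intro τ
    rw [← Equiv.sum_comp π (fun i => par (X i) (Y (π (τ (π.symm i)))))]
    simp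
  have key1 : ∑ i, par (X (π i)) (Y (π i)) = ∑ i, par (X i) (Y i) :=
    Equiv.sum_comp π (fun i => par (X i) (Y i))
  constructor
  · intro h τ
    have h1 := h (π.trans (τ.trans π.symm))
    have h2 := key (π.trans (τ.trans π.symm))
    simp only [Equiv.trans_apply, Equiv.apply_symm_apply] at h1 h2
    rw [key1, h2] at h1
    exact h1
  · intro h τ
    have h1 := h (π.symm.trans (τ.trans π))
    show ∑ i, par (X (π i)) (Y (π i)) ≤ ∑ i, par (X (π i)) (Y (π (τ i)))
    rw [key, key1]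
    exact h1

/-- almost surely the optimal assignment is unique -/
theorem ae_unique (k : ℕ) : ∀ᵐ p ∂(smpLaw k), ∀ σ σ' : Equiv.Perm (Fin k),
    IsOptM par p.1 (fun i => p.2 (σ i)) → IsOptM par p.1 (fun i => p.2 (σ' i)) → σ = σ' := by
  have := smp_finite 0 k
  have := smp_finite 2 k
  have h1 : ∀ σ τ : Equiv.Perm (Fin k), τ ≠ 1 → ∀ᵐ p ∂(smpLaw k),
      ∑ i, par (p.1 i) (p.2 (σ i)) ≠ ∑ i, par (p.1 i) (p.2 (σ (τ i))) := by
    intro σ τ hτ
    exact (perm_right σ).quasiMeasurePreserving.ae (par_ne' (smp_ac 0 k) (smp_ac 2 k) hτ)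
  have h2 : ∀ᵐ p ∂(smpLaw k), ∀ σ τ : Equiv.Perm (Fin k), τ ≠ 1 →
      ∑ i, par (p.1 i) (p.2 (σ i)) ≠ ∑ i, par (p.1 i) (p.2 (σ (τ i))) := by
    simp only [ae_all_iff]
    exact h1
  filter_upwards [h2] with p hp σ σ' ho ho'
  by_contra hne
  have hτ : σ'.trans σ.symm ≠ 1 := by
    intro h
    apply hne
    ext i
    have := congrArg (fun e : Equiv.Perm (Fin k) => σ (e i)) h
    simp at this
    rw [this]
  apply hp σ _ hτ
  have e : ∀ i, σ ((σ'.trans σ.symm) i) = σ' i := fun i => by simp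
  simp only [e]
  refine le_antisymm ?_ ?_
  · have := ho (σ'.trans σ.symm)
    simp only [e] at this
    exact this
  · have := ho' (σ.trans σ'.symm)
    simpa using this

end Pool.Agent.H27.OTC
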