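import Pool.Agent.H27.OTC.DensC

/-!
The mean of a sum over the optimal assignment in terms of `finDens`.
-/

set_option autoImplicit false

open MeasureTheory ProbabilityTheory Filter
open scoped ENNReal Topology

namespace Pool.Agent.H27.OTC

open Pool.Agent.H96.OT (Pl)

/-- the box `[0,1] × [2,3]` with Lebesgue measure -/
noncomputable def box : Measure (ℝ × ℝ) :=
  (volume.restrict (Set.Icc (0 : ℝ) 1)).prod (volume.restrict (Set.Icc (2 : ℝ) 3))

theorem box_eq : box = volume.restrict (Set.Icc (0 : ℝ) 1 ×ˢ Set.Icc (2 : ℝ) 3) := by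
  unfold box
  rw [Measure.prod_restrict, Measure.volume_eq_prod]

/-- the law with the density `finDens n` -/
noncomputable def gam (n : ℕ) : Measure (ℝ × ℝ) := box.withDensity fun z => finDens n z.1 z.2

/-- integration with respect to `smp` -/
theorem lintegral_smp (l : ℝ) (N : ℕ) {g : Pl → ℝ≥0∞} (hg : Measurable g) :
    ∫⁻ x, g x ∂(smp l N) = ENNReal.ofReal (1 / N) *
      ∫⁻ a in Set.Icc l (l + 1), ∫⁻ u in Set.Ioc (0 : ℝ) N, g (a, u) := by
  unfold smp
  rw [lintegral_smul_measure, Measure.volume_eq_prod, ← Measure.prod_restrict,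
    lintegral_prod _ hg.aemeasurable, smul_eq_mul]

open Classical in
/-- disintegration of the law of `n + 1` pairs with respect to the first pair -/
theorem lintegral_first (n : ℕ) {F : Pl → Pl → ℝ≥0∞}
    (hF : Measurable (fun z : Pl × Pl => F z.1 z.2)) :
    ∫⁻ p, {p : (Fin (n + 1) → Pl) × (Fin (n + 1) → Pl) | IsOptM par p.1 p.2}.indicator
        (fun p => F (p.1 0) (p.2 0)) p ∂(smpLaw (n + 1)) =
      ∫⁻ x, ∫⁻ y, F x y * optProb n x y ∂(smp 2 (n + 1)) ∂(smp 0 (n + 1)) := by
  have := smp_prob 0 (Nat.succ_pos n)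
  have := smp_prob 2 (Nat.succ_pos n)
  set S : Set ((Fin (n + 1) → Pl) × (Fin (n + 1) → Pl)) := {p | IsOptM par p.1 p.2} with hS
  have hSm : MeasurableSet S := measurableSet_optM (n + 1)
  set g : (Fin (n + 1) → Pl) × (Fin (n + 1) → Pl) → ℝ≥0∞ :=
    S.indicator (fun p => F (p.1 0) (p.2 0)) with hg
  have hgm : Measurable g := (meas_kernel hF ((measurable_pi_apply 0).comp measurable_fst)
    ((measurable_pi_apply 0).comp measurable_snd)).indicator hSm
  unfold smpLaw
  rw [lintegral_prod _ hgm.aemeasurable, lintegral_pi_succ _ n hgm.lintegral_prod_right']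
  refine lintegral_congr fun x => ?_
  -- the inner integrals
  have hm1 : ∀ X : Fin n → Pl, Measurable fun w' : Fin (n + 1) → Pl =>
      g ((Fin.cons x X : Fin (n + 1) → Pl), w') := fun X =>
    hgm.comp (measurable_const.prodMk measurable_id)
  have hcons : Measurable fun r : (Pl × (Fin n → Pl)) × (Fin n → Pl) =>
      ((Fin.cons x r.1.2 : Fin (n + 1) → Pl), (Fin.cons r.1.1 r.2 : Fin (n + 1) → Pl)) :=
    ((measurable_fin_cons n).comp (measurable_const.prodMk (measurable_snd.comp measurable_fst))).prodMk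
      ((measurable_fin_cons n).comp ((measurable_fst.comp measurable_fst).prodMk measurable_snd))
  have hm2 : Measurable fun r : (Pl × (Fin n → Pl)) × (Fin n → Pl) =>
      g ((Fin.cons x r.1.2 : Fin (n + 1) → Pl), (Fin.cons r.1.1 r.2 : Fin (n + 1) → Pl)) :=
    hgm.comp hcons
  have hm3 : Measurable fun r : Pl × (Fin n → Pl) => ∫⁻ Y : Fin n → Pl,
      g ((Fin.cons x r.2 : Fin (n + 1) → Pl), (Fin.cons r.1 Y : Fin (n + 1) → Pl))
        ∂(Measure.pi fun _ => smp 2 (n + 1)) := hm2.lintegral_prod_right'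
  calc ∫⁻ X : Fin n → Pl, ∫⁻ w', g ((Fin.cons x X : Fin (n + 1) → Pl), w')
        ∂(Measure.pi fun _ => smp 2 (n + 1)) ∂(Measure.pi fun _ => smp 0 (n + 1))
      = ∫⁻ X : Fin n → Pl, ∫⁻ y, ∫⁻ Y : Fin n → Pl,
          g ((Fin.cons x X : Fin (n + 1) → Pl), (Fin.cons y Y : Fin (n + 1) → Pl))
          ∂(Measure.pi fun _ => smp 2 (n + 1)) ∂(smp 2 (n + 1))
          ∂(Measure.pi fun _ => smp 0 (n + 1)) := by
        refine lintegral_congr fun X => ?_
        rw [lintegral_pi_succ _ n (hm1 X)]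
    _ = ∫⁻ y, ∫⁻ X : Fin n → Pl, ∫⁻ Y : Fin n → Pl,
          g ((Fin.cons x X : Fin (n + 1) → Pl), (Fin.cons y Y : Fin (n + 1) → Pl))
          ∂(Measure.pi fun _ => smp 2 (n + 1)) ∂(Measure.pi fun _ => smp 0 (n + 1))
          ∂(smp 2 (n + 1)) :=
        lintegral_lintegral_swap (f := fun (X : Fin n → Pl) (y : Pl) => ∫⁻ Y : Fin n → Pl,
          g ((Fin.cons x X : Fin (n + 1) → Pl), (Fin.cons y Y : Fin (n + 1) → Pl))
          ∂(Measure.pi fun _ => smp 2 (n + 1))) (hm3.comp measurable_swap).aemeasurable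
    _ = ∫⁻ y, F x y * optProb n x y ∂(smp 2 (n + 1)) := by
        refine lintegral_congr fun y => ?_
        have hm4 : Measurable fun q : (Fin n → Pl) × (Fin n → Pl) =>
            g ((Fin.cons x q.1 : Fin (n + 1) → Pl), (Fin.cons y q.2 : Fin (n + 1) → Pl)) :=
          hgm.comp (((measurable_fin_cons n).comp (measurable_const.prodMk measurable_fst)).prodMk
            ((measurable_fin_cons n).comp (measurable_const.prodMk measurable_snd)))
        have h5 := lintegral_prod (μ := Measure.pi fun _ => smp 0 (n + 1))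
          (ν := Measure.pi fun _ => smp 2 (n + 1)) _ hm4.aemeasurable
        rw [← h5]
        have hT : MeasurableSet {q : (Fin n → Pl) × (Fin n → Pl) |
            IsOptM par (Fin.cons x q.1 : Fin (n + 1) → Pl) (Fin.cons y q.2)} := by
          have h : Measurable (fun q : (Fin n → Pl) × (Fin n → Pl) =>
              ((Fin.cons x q.1 : Fin (n + 1) → Pl), (Fin.cons y q.2 : Fin (n + 1) → Pl))) :=
            ((measurable_fin_cons n).comp (measurable_const.prodMk measurable_fst)).prodMk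
            ((measurable_fin_cons n).comp (measurable_const.prodMk measurable_snd))
          exact h (measurableSet_optM (n + 1))
        have h6 : (fun q : (Fin n → Pl) × (Fin n → Pl) =>
            g ((Fin.cons x q.1 : Fin (n + 1) → Pl), (Fin.cons y q.2 : Fin (n + 1) → Pl))) =
            {q : (Fin n → Pl) × (Fin n → Pl) |
              IsOptM par (Fin.cons x q.1 : Fin (n + 1) → Pl) (Fin.cons y q.2)}.indicator
              fun _ => F x y := by
          funext q
          by_cases hq : IsOptM par (Fin.cons x q.1 : Fin (n + 1) → Pl) (Fin.cons y q.2)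
          · rw [Set.indicator_of_mem (by exact hq), hg, Set.indicator_of_mem (by exact hq)]
            simp
          · rw [Set.indicator_of_notMem (by exact hq), hg, Set.indicator_of_notMem (by exact hq)]
        rw [h6, lintegral_indicator_const hT]
        rfl

/-- integrals over the heights -/
theorem lintegral_heights (N : ℕ) {K : Pl → Pl → ℝ≥0∞}
    (hK : Measurable (fun z : Pl × Pl => K z.1 z.2)) {f : ℝ × ℝ → ℝ≥0∞} (hf : Measurable f) :
    ∫⁻ x, ∫⁻ y, f (x.1, y.1) * K x y ∂(smp 2 N) ∂(smp 0 N) =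
      ENNReal.ofReal (1 / N) * ENNReal.ofReal (1 / N) * ∫⁻ z, (f z *
        ∫⁻ u in Set.Ioc (0 : ℝ) N, ∫⁻ v in Set.Ioc (0 : ℝ) N, K (z.1, u) (z.2, v)) ∂box := by
  have e3 : (2 : ℝ) + 1 = 3 := by norm_num
  have e1 : (0 : ℝ) + 1 = 1 := by norm_num
  -- measurability
  have hm4 : Measurable fun r : ((ℝ × ℝ) × ℝ) × ℝ =>
      f (r.1.1.1, r.1.2) * K (r.1.1.1, r.1.1.2) (r.1.2, r.2) := by
    refine Measurable.mul ?_ ?_
    · exact hf.comp ((measurable_fst.comp (measurable_fst.comp measurable_fst)).prodMk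
        (measurable_snd.comp measurable_fst))
    · exact meas_kernel hK ((measurable_fst.comp (measurable_fst.comp measurable_fst)).prodMk
        (measurable_snd.comp (measurable_fst.comp measurable_fst)))
        ((measurable_snd.comp measurable_fst).prodMk measurable_snd)
  have hm3 : Measurable fun r : (ℝ × ℝ) × ℝ => ∫⁻ v in Set.Ioc (0 : ℝ) N,
      f (r.1.1, r.2) * K (r.1.1, r.1.2) (r.2, v) := hm4.lintegral_prod_right'
  have hm2 : Measurable fun x : Pl => ∫⁻ b in Set.Icc (2 : ℝ) 3, ∫⁻ v in Set.Ioc (0 : ℝ) N,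
      f (x.1, b) * K (x.1, x.2) (b, v) := hm3.lintegral_prod_right'
  have hD4 : Measurable fun r : ((ℝ × ℝ) × ℝ) × ℝ => K (r.1.1.1, r.1.2) (r.1.1.2, r.2) :=
    meas_kernel hK ((measurable_fst.comp (measurable_fst.comp measurable_fst)).prodMk
      (measurable_snd.comp measurable_fst))
      ((measurable_snd.comp (measurable_fst.comp measurable_fst)).prodMk measurable_snd)
  have hD3 : Measurable fun r : (ℝ × ℝ) × ℝ => ∫⁻ v in Set.Ioc (0 : ℝ) N,
      K (r.1.1, r.2) (r.1.2, v) := hD4.lintegral_prod_right'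
  have hD2 : Measurable fun z : ℝ × ℝ => ∫⁻ u in Set.Ioc (0 : ℝ) N, ∫⁻ v in Set.Ioc (0 : ℝ) N,
      K (z.1, u) (z.2, v) := hD3.lintegral_prod_right'
  -- the inner integral
  have h1 : ∀ x : Pl, ∫⁻ y, f (x.1, y.1) * K x y ∂(smp 2 N) =
      ENNReal.ofReal (1 / N) * ∫⁻ b in Set.Icc (2 : ℝ) 3,
        ∫⁻ v in Set.Ioc (0 : ℝ) N, f (x.1, b) * K (x.1, x.2) (b, v) := by
    intro x
    have h := lintegral_smp 2 N (g := fun y => f (x.1, y.1) * K x y)
      ((hf.comp (measurable_const.prodMk measurable_fst)).mul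
        (meas_kernel hK measurable_const measurable_id))
    rw [e3] at h
    exact h
  simp only [h1]
  have h2 := lintegral_smp 0 N (hm2.const_mul (ENNReal.ofReal (1 / N)))
  rw [e1] at h2
  rw [h2]
  have h3 : ∀ a : ℝ, ∫⁻ u in Set.Ioc (0 : ℝ) N, ENNReal.ofReal (1 / N) *
      ∫⁻ b in Set.Icc (2 : ℝ) 3, ∫⁻ v in Set.Ioc (0 : ℝ) N, f (a, b) * K (a, u) (b, v) =
      ENNReal.ofReal (1 / N) * ∫⁻ b in Set.Icc (2 : ℝ) 3, f (a, b) *
        ∫⁻ u in Set.Ioc (0 : ℝ) N, ∫⁻ v in Set.Ioc (0 : ℝ) N, K (a, u) (b, v) := by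
    intro a
    have hma : Measurable fun u : ℝ => ∫⁻ b in Set.Icc (2 : ℝ) 3, ∫⁻ v in Set.Ioc (0 : ℝ) N,
        f (a, b) * K (a, u) (b, v) := hm2.comp (measurable_const.prodMk measurable_id)
    rw [lintegral_const_mul _ hma]
    congr 1
    have hmab : Measurable fun r : ℝ × ℝ => ∫⁻ v in Set.Ioc (0 : ℝ) N,
        f (a, r.2) * K (a, r.1) (r.2, v) :=
      hm3.comp ((measurable_const.prodMk measurable_fst).prodMk measurable_snd)
    have hsw := lintegral_lintegral_swap (μ := volume.restrict (Set.Ioc (0 : ℝ) N))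
      (ν := volume.restrict (Set.Icc (2 : ℝ) 3)) (f := fun u b => ∫⁻ v in Set.Ioc (0 : ℝ) N,
        f (a, b) * K (a, u) (b, v)) hmab.aemeasurable
    rw [hsw]
    refine lintegral_congr fun b => ?_
    have hab : Measurable (fun u : ℝ => (((a, b) : ℝ × ℝ), u)) :=
      measurable_const.prodMk measurable_id
    have hmu : Measurable fun u : ℝ => ∫⁻ v in Set.Ioc (0 : ℝ) N, K (a, u) (b, v) := hD3.comp hab
    rw [← lintegral_const_mul _ hmu]
    refine lintegral_congr fun u => ?_
    have hbv : Measurable (fun v : ℝ => ((b, v) : Pl)) := measurable_const.prodMk measurable_id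
    have hau : Measurable (fun _ : ℝ => ((a, u) : Pl)) := measurable_const
    rw [lintegral_const_mul _ (meas_kernel hK hau hbv)]
  simp only [h3]
  have hm5 : Measurable fun z : ℝ × ℝ => f z * ∫⁻ u in Set.Ioc (0 : ℝ) N,
      ∫⁻ v in Set.Ioc (0 : ℝ) N, K (z.1, u) (z.2, v) := hf.mul hD2
  have hm6 : Measurable fun a : ℝ => ∫⁻ b in Set.Icc (2 : ℝ) 3, f (a, b) *
      ∫⁻ u in Set.Ioc (0 : ℝ) N, ∫⁻ v in Set.Ioc (0 : ℝ) N, K (a, u) (b, v) :=
    hm5.lintegral_prod_right'
  rw [lintegral_const_mul _ hm6, ← mul_assoc]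
  congr 1
  unfold box
  rw [lintegral_prod _ hm5.aemeasurable]

/-- the same for functions of the abscissas -/
theorem lintegral_first' (n : ℕ) {f : ℝ × ℝ → ℝ≥0∞} (hf : Measurable f) :
    ((n + 1).factorial : ℝ≥0∞) *
      ∫⁻ p, {p : (Fin (n + 1) → Pl) × (Fin (n + 1) → Pl) | IsOptM par p.1 p.2}.indicator
        (fun p => f ((p.1 0).1, (p.2 0).1)) p ∂(smpLaw (n + 1)) = ∫⁻ z, f z ∂(gam n) := by
  have hF : Measurable (fun z : Pl × Pl => f (z.1.1, z.2.1)) :=
    hf.comp ((measurable_fst.comp measurable_fst).prodMk (measurable_fst.comp measurable_snd))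
  rw [lintegral_first n (F := fun x y => f (x.1, y.1)) hF,
    lintegral_heights (n + 1) (K := optProb n) (measurable_optProb n) hf]
  unfold gam
  rw [lintegral_withDensity_eq_lintegral_mul _ (measurable_finDens n) hf, ← mul_assoc]
  have hD : Measurable fun z : ℝ × ℝ => f z * ∫⁻ u in Set.Ioc (0 : ℝ) (n + 1 : ℕ),
      ∫⁻ v in Set.Ioc (0 : ℝ) (n + 1 : ℕ), optProb n (z.1, u) (z.2, v) := by
    have hD4 : Measurable fun r : ((ℝ × ℝ) × ℝ) × ℝ =>
        optProb n (r.1.1.1, r.1.2) (r.1.1.2, r.2) :=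
      meas_kernel (F := optProb n) (measurable_optProb n)
        ((measurable_fst.comp (measurable_fst.comp measurable_fst)).prodMk
        (measurable_snd.comp measurable_fst))
        ((measurable_snd.comp (measurable_fst.comp measurable_fst)).prodMk measurable_snd)
    exact hf.mul ((hD4.lintegral_prod_right').lintegral_prod_right')
  rw [← lintegral_const_mul _ hD]
  refine lintegral_congr fun z => ?_
  show _ = finDens n z.1 z.2 * f z
  unfold finDens
  have hc : ((n + 1).factorial : ℝ≥0∞) * (ENNReal.ofReal (1 / ((n + 1 : ℕ) : ℝ)) *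
      ENNReal.ofReal (1 / ((n + 1 : ℕ) : ℝ))) =
      ENNReal.ofReal ((n + 1).factorial / ((n + 1 : ℕ) : ℝ) ^ 2) := by
    rw [← ENNReal.ofReal_natCast ((n + 1).factorial), ← ENNReal.ofReal_mul (by positivity),
      ← ENNReal.ofReal_mul (by positivity)]
    congr 1
    field_simp
  rw [hc]
  ring

end Pool.Agent.H27.OTC
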