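import Pool.Agent.H27.OTC.Stmt

/-!
MP_91df8f_pr: the densities of the laws of the horizontal coordinates in the local assignment
problem with finitely many points.
-/

set_option autoImplicit false

open MeasureTheory ProbabilityTheory
open scoped ENNReal

namespace Pool.Agent.H27.OTC

open Pool.Agent.H96.OT (Pl)

/-- the law of `n + n` independent points, the first `n` uniform in `[0,1] × (0,n+1]`, the other
`n` uniform in `[2,3] × (0,n+1]` -/
noncomputable def restLaw (n : ℕ) : Measure ((Fin n → Pl) × (Fin n → Pl)) :=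
  (Measure.pi fun _ => smp 0 (n + 1)).prod (Measure.pi fun _ => smp 2 (n + 1))

/-- the probability that the assignment of `y` to `x` and of `y i` to `x i`, for `n + n` points of
law `restLaw n`, is optimal for the cost `par` -/
noncomputable def optProb (n : ℕ) (x y : Pl) : ℝ≥0∞ :=
  restLaw n {q | IsOptM par (Fin.cons x q.1 : Fin (n + 1) → Pl) (Fin.cons y q.2)}

/-- `((n+1)! / (n+1)²) ∫ ∫ optProb n (a, u) (b, v) dv du` over `u, v ∈ (0, n+1]`: the density at
`(a, b)` of the mean law of the horizontal coordinates of a pair of the optimal assignment of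
`n+1` to `n+1` points -/
noncomputable def finDens (n : ℕ) (a b : ℝ) : ℝ≥0∞ :=
  ENNReal.ofReal ((n + 1).factorial / ((n + 1 : ℕ) : ℝ) ^ 2) *
    ∫⁻ u in Set.Ioc (0 : ℝ) (n + 1 : ℕ), ∫⁻ v in Set.Ioc (0 : ℝ) (n + 1 : ℕ),
      optProb n (a, u) (b, v)

end Pool.Agent.H27.OTC
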