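import Pool.Agent.H27.OTC.DensD

/-!
The law `gam n`: mean of the sum over the optimal assignment, uniform marginals.
-/

set_option autoImplicit false

open MeasureTheory ProbabilityTheory Filter
open scoped ENNReal Topology

namespace Pool.Agent.H27.OTC

open Pool.Agent.H96.OT (Pl)

/-- the sum of `f` over the pairs of the optimal assignments -/
noncomputable def hsum {k : ℕ} (f : ℝ × ℝ → ℝ≥0∞) (p : (Fin k → Pl) × (Fin k → Pl)) : ℝ≥0∞ :=
  ∑ σ : Equiv.Perm (Fin k), {p : (Fin k → Pl) × (Fin k → Pl) |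
    IsOptM par p.1 (fun i => p.2 (σ i))}.indicator
      (fun p => ∑ i, f ((p.1 i).1, (p.2 (σ i)).1)) p

theorem meas_pair {k : ℕ} {f : ℝ × ℝ → ℝ≥0∞} (hf : Measurable f) (i j : Fin k) :
    Measurable fun p : (Fin k → Pl) × (Fin k → Pl) => f ((p.1 i).1, (p.2 j).1) :=
  hf.comp ((measurable_fst.comp ((measurable_pi_apply i).comp measurable_fst)).prodMk
    (measurable_fst.comp ((measurable_pi_apply j).comp measurable_snd)))

theorem measurableSet_optS {k : ℕ} (σ : Equiv.Perm (Fin k)) :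
    MeasurableSet {p : (Fin k → Pl) × (Fin k → Pl) | IsOptM par p.1 (fun i => p.2 (σ i))} :=
  (perm_right σ).measurable (measurableSet_optM k)

theorem measurable_hsum {k : ℕ} {f : ℝ × ℝ → ℝ≥0∞} (hf : Measurable f) :
    Measurable (hsum (k := k) f) := by
  unfold hsum
  refine Finset.measurable_fun_sum _ fun σ _ => ?_
  exact (Finset.measurable_fun_sum _ fun i _ => meas_pair hf i (σ i)).indicator
    (measurableSet_optS σ)

theorem mean_hsum (n : ℕ) {f : ℝ × ℝ → ℝ≥0∞} (hf : Measurable f) :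
    ∫⁻ p, hsum f p ∂(smpLaw (n + 1)) = ((n + 1 : ℕ) : ℝ≥0∞) * ∫⁻ z, f z ∂(gam n) := by
  classical
  set S : Set ((Fin (n + 1) → Pl) × (Fin (n + 1) → Pl)) := {p | IsOptM par p.1 p.2} with hS
  have hSm : MeasurableSet S := measurableSet_optM (n + 1)
  -- one permutation
  have h1 : ∀ σ : Equiv.Perm (Fin (n + 1)), ∫⁻ p, {p : (Fin (n + 1) → Pl) × (Fin (n + 1) → Pl) |
      IsOptM par p.1 (fun i => p.2 (σ i))}.indicator
      (fun p => ∑ i, f ((p.1 i).1, (p.2 (σ i)).1)) p ∂(smpLaw (n + 1)) =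
      ∫⁻ p, S.indicator (fun p => ∑ i, f ((p.1 i).1, (p.2 i).1)) p ∂(smpLaw (n + 1)) := by
    intro σ
    have hm : Measurable (S.indicator fun p => ∑ i, f ((p.1 i).1, (p.2 i).1)) :=
      (Finset.measurable_fun_sum _ fun i _ => meas_pair hf i i).indicator hSm
    rw [← (perm_right σ).lintegral_comp hm]
    rfl
  -- one index
  have h2 : ∀ i : Fin (n + 1), ∫⁻ p, S.indicator (fun p => f ((p.1 i).1, (p.2 i).1)) p
      ∂(smpLaw (n + 1)) = ∫⁻ p, S.indicator (fun p => f ((p.1 0).1, (p.2 0).1)) p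
      ∂(smpLaw (n + 1)) := by
    intro i
    have hm : Measurable (S.indicator fun p => f ((p.1 0).1, (p.2 0).1)) :=
      (meas_pair hf 0 0).indicator hSm
    rw [← (perm_both (Equiv.swap 0 i)).lintegral_comp hm]
    refine lintegral_congr fun p => ?_
    have hiff : ((fun j => p.1 (Equiv.swap 0 i j)), fun j => p.2 (Equiv.swap 0 i j)) ∈ S ↔
        p ∈ S := optM_perm (Equiv.swap 0 i)
    by_cases hp : p ∈ S
    · rw [Set.indicator_of_mem hp, Set.indicator_of_mem (hiff.2 hp)]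
      simp only [Equiv.swap_apply_left]
    · rw [Set.indicator_of_notMem hp, Set.indicator_of_notMem fun h => hp (hiff.1 h)]
  have h3 : ∫⁻ p, S.indicator (fun p => ∑ i, f ((p.1 i).1, (p.2 i).1)) p ∂(smpLaw (n + 1)) =
      ((n + 1 : ℕ) : ℝ≥0∞) *
        ∫⁻ p, S.indicator (fun p => f ((p.1 0).1, (p.2 0).1)) p ∂(smpLaw (n + 1)) := by
    have e : ∀ p, S.indicator (fun p => ∑ i, f ((p.1 i).1, (p.2 i).1)) p =
        ∑ i, S.indicator (fun p => f ((p.1 i).1, (p.2 i).1)) p := by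
      intro p
      by_cases hp : p ∈ S
      · simp [Set.indicator_of_mem hp]
      · simp [Set.indicator_of_notMem hp]
    simp only [e]
    rw [lintegral_finsetSum _ fun i _ => (meas_pair hf i i).indicator hSm,
      Finset.sum_congr rfl fun i _ => h2 i]
    simp
  unfold hsum
  rw [lintegral_finsetSum _ fun σ _ => (Finset.measurable_fun_sum _ fun i _ =>
    meas_pair hf i (σ i)).indicator (measurableSet_optS σ), Finset.sum_congr rfl fun σ _ => h1 σ, h3]
  rw [Finset.sum_const, Finset.card_univ, Fintype.card_perm, Fintype.card_fin, nsmul_eq_mul,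
    ← lintegral_first' n hf]
  ring

theorem hsum_eq {k : ℕ} (f : ℝ × ℝ → ℝ≥0∞) : ∀ᵐ p ∂(smpLaw k), ∀ σ : Equiv.Perm (Fin k),
    IsOptM par p.1 (fun i => p.2 (σ i)) → hsum f p = ∑ i, f ((p.1 i).1, (p.2 (σ i)).1) := by
  filter_upwards [ae_unique k] with p hp σ hσ
  unfold hsum
  rw [Finset.sum_eq_single σ]
  · rw [Set.indicator_of_mem (by exact hσ)]
  · intro σ' _ hne
    rw [Set.indicator_of_notMem]
    intro h
    exact hne (hp σ' σ h hσ)
  · intro h
    exact absurd (Finset.mem_univ σ) h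

theorem lintegral_smp_fst (l : ℝ) {N : ℕ} (hN : 0 < N) {g : ℝ → ℝ≥0∞} (hg : Measurable g) :
    ∫⁻ x, g x.1 ∂(smp l N) = ∫⁻ a in Set.Icc l (l + 1), g a := by
  have hN' : (0 : ℝ) < N := by exact_mod_cast hN
  rw [lintegral_smp l N (g := fun x => g x.1) (hg.comp measurable_fst)]
  simp only [lintegral_const, Measure.restrict_apply MeasurableSet.univ, Set.univ_inter,
    Real.volume_Ioc, sub_zero]
  rw [lintegral_mul_const _ hg, mul_comm, mul_assoc, ← ENNReal.ofReal_mul hN'.le]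
  have : (N : ℝ) * (1 / N) = 1 := by field_simp
  rw [this, ENNReal.ofReal_one, mul_one]

theorem mean_fst (n : ℕ) {g : ℝ → ℝ≥0∞} (hg : Measurable g) :
    ∫⁻ z, g z.1 ∂(gam n) = ∫⁻ a in Set.Icc (0 : ℝ) 1, g a := by
  have := smp_prob 0 (Nat.succ_pos n)
  have := smp_prob 2 (Nat.succ_pos n)
  have h1 := mean_hsum n (f := fun z => g z.1) (hg.comp measurable_fst)
  have h2 : ∫⁻ p, hsum (fun z : ℝ × ℝ => g z.1) p ∂(smpLaw (n + 1)) =
      ∫⁻ p, ∑ i : Fin (n + 1), g (p.1 i).1 ∂(smpLaw (n + 1)) := by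
    refine lintegral_congr_ae ?_
    filter_upwards [hsum_eq (k := n + 1) fun z : ℝ × ℝ => g z.1] with p hp
    obtain ⟨σ, hσ⟩ := exists_optM' par p.1 p.2
    exact hp σ hσ
  have h3 : ∀ i : Fin (n + 1), ∫⁻ p, g (p.1 i).1 ∂(smpLaw (n + 1)) =
      ∫⁻ a in Set.Icc (0 : ℝ) 1, g a := by
    intro i
    have e1 := lintegral_smp_fst 0 (Nat.succ_pos n) hg
    have e0 : (0 : ℝ) + 1 = 1 := by norm_num
    rw [e0] at e1
    rw [← e1]
    have hm : Measurable fun x : Pl => g x.1 := hg.comp measurable_fst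
    have h4 : MeasurePreserving (fun p : (Fin (n + 1) → Pl) × (Fin (n + 1) → Pl) => p.1 i)
        (smpLaw (n + 1)) (smp 0 (n + 1)) :=
      (measurePreserving_eval (fun _ : Fin (n + 1) => smp 0 (n + 1)) i).comp measurePreserving_fst
    exact h4.lintegral_comp hm
  have hm : ∀ i : Fin (n + 1), Measurable fun p : (Fin (n + 1) → Pl) × (Fin (n + 1) → Pl) =>
      g (p.1 i).1 := fun i =>
    hg.comp (measurable_fst.comp ((measurable_pi_apply i).comp measurable_fst))
  rw [h2, lintegral_finsetSum _ fun i _ => hm i, Finset.sum_congr rfl fun i _ => h3 i,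
    Finset.sum_const, Finset.card_univ, Fintype.card_fin, nsmul_eq_mul] at h1
  exact ((ENNReal.mul_right_inj (by simp) (by simp)).1 h1).symm

theorem mean_snd (n : ℕ) {g : ℝ → ℝ≥0∞} (hg : Measurable g) :
    ∫⁻ z, g z.2 ∂(gam n) = ∫⁻ b in Set.Icc (2 : ℝ) 3, g b := by
  have := smp_prob 0 (Nat.succ_pos n)
  have := smp_prob 2 (Nat.succ_pos n)
  have h1 := mean_hsum n (f := fun z => g z.2) (hg.comp measurable_snd)
  have h2 : ∫⁻ p, hsum (fun z : ℝ × ℝ => g z.2) p ∂(smpLaw (n + 1)) =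
      ∫⁻ p, ∑ i : Fin (n + 1), g (p.2 i).1 ∂(smpLaw (n + 1)) := by
    refine lintegral_congr_ae ?_
    filter_upwards [hsum_eq (k := n + 1) fun z : ℝ × ℝ => g z.2] with p hp
    obtain ⟨σ, hσ⟩ := exists_optM' par p.1 p.2
    rw [hp σ hσ]
    exact Equiv.sum_comp σ fun i => g (p.2 i).1
  have h3 : ∀ i : Fin (n + 1), ∫⁻ p, g (p.2 i).1 ∂(smpLaw (n + 1)) =
      ∫⁻ a in Set.Icc (2 : ℝ) 3, g a := by
    intro i
    have e1 := lintegral_smp_fst 2 (Nat.succ_pos n) hg
    have e0 : (2 : ℝ) + 1 = 3 := by norm_num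
    rw [e0] at e1
    rw [← e1]
    have hm : Measurable fun x : Pl => g x.1 := hg.comp measurable_fst
    have h4 : MeasurePreserving (fun p : (Fin (n + 1) → Pl) × (Fin (n + 1) → Pl) => p.2 i)
        (smpLaw (n + 1)) (smp 2 (n + 1)) :=
      (measurePreserving_eval (fun _ : Fin (n + 1) => smp 2 (n + 1)) i).comp measurePreserving_snd
    exact h4.lintegral_comp hm
  have hm : ∀ i : Fin (n + 1), Measurable fun p : (Fin (n + 1) → Pl) × (Fin (n + 1) → Pl) =>
      g (p.2 i).1 := fun i =>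
    hg.comp (measurable_fst.comp ((measurable_pi_apply i).comp measurable_snd))
  rw [h2, lintegral_finsetSum _ fun i _ => hm i, Finset.sum_congr rfl fun i _ => h3 i,
    Finset.sum_const, Finset.card_univ, Fintype.card_fin, nsmul_eq_mul] at h1
  exact ((ENNReal.mul_right_inj (by simp) (by simp)).1 h1).symm

theorem gam_prob (n : ℕ) : IsProbabilityMeasure (gam n) := by
  constructor
  have h := mean_fst n (g := fun _ => 1) measurable_const
  simp only [lintegral_const, one_mul, Measure.restrict_apply MeasurableSet.univ, Set.univ_inter,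
    Real.volume_Icc, sub_zero, ENNReal.ofReal_one] at h
  exact h

end Pool.Agent.H27.OTC
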