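import Pool.Agent.H27.OTC.DensE

/-!
Weak convergence of the laws `gam n`.
-/

set_option autoImplicit false

open MeasureTheory ProbabilityTheory Filter
open scoped ENNReal NNReal Topology BoundedContinuousFunction

namespace Pool.Agent.H27.OTC

open Pool.Agent.H96.OT (Pl)

/-- the deviation set -/
def devS (k : ℕ) (f : ℝ × ℝ → ℝ) (s ε : ℝ) : Set ((Fin k → Pl) × (Fin k → Pl)) :=
  {p | ∃ σ : Equiv.Perm (Fin k), IsOptM par p.1 (fun i => p.2 (σ i)) ∧
    ε < |avg k f (fun _ => 1) p.1 p.2 σ - s|}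

theorem devS_tendsto {f : ℝ × ℝ → ℝ} {s : ℝ} (h : LimPhi f s) {ε : ℝ} (hε : 0 < ε) :
    Tendsto (fun n : ℕ => smpLaw (n + 1) (devS (n + 1) f s ε)) atTop (𝓝 0) := by
  have h1 := h (fun _ => par) goodCost_par (fun _ => 1) uniformContinuous_const
    (fun _ => zero_le_one) (fun _ => le_rfl) ε hε
  have e : s * ∫ t in (0 : ℝ)..1, (1 : ℝ) = s := by simp
  simp only [e] at h1
  exact h1.comp (tendsto_add_atTop_nat 1)

theorem hsum_avg (n : ℕ) (f : ℝ × ℝ → ℝ≥0) : ∀ᵐ p ∂(smpLaw (n + 1)),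
    ∃ σ : Equiv.Perm (Fin (n + 1)), IsOptM par p.1 (fun i => p.2 (σ i)) ∧
      hsum (fun z => (f z : ℝ≥0∞)) p = ((n + 1 : ℕ) : ℝ≥0∞) *
        ENNReal.ofReal (avg (n + 1) (fun z => (f z : ℝ)) (fun _ => 1) p.1 p.2 σ) ∧
      0 ≤ avg (n + 1) (fun z => (f z : ℝ)) (fun _ => 1) p.1 p.2 σ := by
  filter_upwards [hsum_eq (k := n + 1) fun z => (f z : ℝ≥0∞)] with p hp
  obtain ⟨σ, hσ⟩ := exists_optM' par p.1 p.2
  refine ⟨σ, hσ, ?_, ?_⟩
  · rw [hp σ hσ]
    unfold avg
    have hn : (0 : ℝ) < ((n + 1 : ℕ) : ℝ) := by positivity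
    rw [← ENNReal.ofReal_natCast (n + 1), ← ENNReal.ofReal_mul hn.le]
    have e : ((n + 1 : ℕ) : ℝ) * ((∑ i, (f ((p.1 i).1, (p.2 (σ i)).1) : ℝ) * 1) / ((n + 1 : ℕ) : ℝ))
        = ∑ i, (f ((p.1 i).1, (p.2 (σ i)).1) : ℝ) := by
      simp only [mul_one]
      field_simp
    rw [e, ENNReal.ofReal_sum_of_nonneg fun i _ => NNReal.coe_nonneg _]
    simp
  · unfold avg
    exact div_nonneg (Finset.sum_nonneg fun i _ => by simp) (Nat.cast_nonneg _)

theorem gam_upper (n : ℕ) {f : ℝ × ℝ → ℝ≥0} (hf : Measurable f) {M : ℝ≥0} (hM : ∀ z, f z ≤ M)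
    {s ε : ℝ} :
    ∫⁻ z, f z ∂(gam n) ≤ ENNReal.ofReal (s + ε) +
      M * smpLaw (n + 1) (devS (n + 1) (fun z => (f z : ℝ)) s ε) := by
  have := smpLaw_isProb (Nat.succ_pos n)
  set D := devS (n + 1) (fun z => (f z : ℝ)) s ε with hD
  set D' := toMeasurable (smpLaw (n + 1)) D with hD'
  have hDm : MeasurableSet D' := measurableSet_toMeasurable _ _
  have h1 := mean_hsum n (f := fun z => (f z : ℝ≥0∞)) hf.coe_nnreal_ennreal
  have h2 : ∫⁻ p, hsum (fun z => (f z : ℝ≥0∞)) p ∂(smpLaw (n + 1)) ≤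
      ∫⁻ p, ((n + 1 : ℕ) : ℝ≥0∞) * (ENNReal.ofReal (s + ε) + D'.indicator (fun _ => (M : ℝ≥0∞)) p)
        ∂(smpLaw (n + 1)) := by
    refine lintegral_mono_ae ?_
    filter_upwards [hsum_avg n f] with p hp
    obtain ⟨σ, hσ, he, h0⟩ := hp
    rw [he]
    refine mul_le_mul_right ?_ _
    by_cases hpD : p ∈ D
    · rw [Set.indicator_of_mem (subset_toMeasurable _ _ hpD)]
      refine le_trans ?_ le_add_self
      rw [← ENNReal.ofReal_coe_nnreal]
      refine ENNReal.ofReal_le_ofReal ?_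
      unfold avg
      have hn : (0 : ℝ) < ((n + 1 : ℕ) : ℝ) := by positivity
      rw [div_le_iff₀ hn]
      calc ∑ i, (f ((p.1 i).1, (p.2 (σ i)).1) : ℝ) * 1 ≤ ∑ _i : Fin (n + 1), (M : ℝ) :=
            Finset.sum_le_sum fun i _ => by
              rw [mul_one]
              exact_mod_cast hM _
        _ = M * ((n + 1 : ℕ) : ℝ) := by
            rw [Finset.sum_const, Finset.card_univ, Fintype.card_fin, nsmul_eq_mul, mul_comm]
    · refine le_trans ?_ le_self_add
      refine ENNReal.ofReal_le_ofReal ?_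
      have h5 : |avg (n + 1) (fun z => (f z : ℝ)) (fun _ => 1) p.1 p.2 σ - s| ≤ ε := by
        by_contra hcon
        exact hpD ⟨σ, hσ, not_le.1 hcon⟩
      have := (abs_le.1 h5).2
      linarith
  rw [h1, lintegral_const_mul' _ _ (by simp), lintegral_add_left measurable_const,
    lintegral_const, measure_univ, mul_one, lintegral_indicator_const hDm,
    measure_toMeasurable] at h2
  exact (ENNReal.mul_le_mul_iff_right (by simp) (by simp)).1 h2

theorem gam_lower (n : ℕ) {f : ℝ × ℝ → ℝ≥0} (hf : Measurable f) {s ε : ℝ} :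
    ENNReal.ofReal (s - ε) ≤ ∫⁻ z, f z ∂(gam n) +
      ENNReal.ofReal (s - ε) * smpLaw (n + 1) (devS (n + 1) (fun z => (f z : ℝ)) s ε) := by
  have := smpLaw_isProb (Nat.succ_pos n)
  set D := devS (n + 1) (fun z => (f z : ℝ)) s ε with hD
  set D' := toMeasurable (smpLaw (n + 1)) D with hD'
  have hDm : MeasurableSet D' := measurableSet_toMeasurable _ _
  have h1 := mean_hsum n (f := fun z => (f z : ℝ≥0∞)) hf.coe_nnreal_ennreal
  have h2 : ∫⁻ _p, ((n + 1 : ℕ) : ℝ≥0∞) * ENNReal.ofReal (s - ε) ∂(smpLaw (n + 1)) ≤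
      ∫⁻ p, (hsum (fun z => (f z : ℝ≥0∞)) p +
        ((n + 1 : ℕ) : ℝ≥0∞) * D'.indicator (fun _ => ENNReal.ofReal (s - ε)) p)
        ∂(smpLaw (n + 1)) := by
    refine lintegral_mono_ae ?_
    filter_upwards [hsum_avg n f] with p hp
    obtain ⟨σ, hσ, he, h0⟩ := hp
    rw [he, ← mul_add]
    refine mul_le_mul_right ?_ _
    by_cases hpD : p ∈ D
    · rw [Set.indicator_of_mem (subset_toMeasurable _ _ hpD)]
      exact le_add_self
    · refine le_trans ?_ le_self_add
      refine ENNReal.ofReal_le_ofReal ?_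
      have h5 : |avg (n + 1) (fun z => (f z : ℝ)) (fun _ => 1) p.1 p.2 σ - s| ≤ ε := by
        by_contra hcon
        exact hpD ⟨σ, hσ, not_le.1 hcon⟩
      have := (abs_le.1 h5).1
      linarith
  rw [lintegral_const, measure_univ, mul_one,
    lintegral_add_left (measurable_hsum hf.coe_nnreal_ennreal), h1,
    lintegral_const_mul' _ _ (by simp), lintegral_indicator_const hDm,
    measure_toMeasurable, ← mul_add] at h2
  exact (ENNReal.mul_le_mul_iff_right (by simp) (by simp)).1 h2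

/-- `gam n` as a probability measure -/
noncomputable def gamPM (n : ℕ) : ProbabilityMeasure (ℝ × ℝ) := ⟨gam n, gam_prob n⟩

/-- `γ` as a probability measure -/
noncomputable def toPM (γ : Measure (ℝ × ℝ)) [h : IsProbabilityMeasure γ] :
    ProbabilityMeasure (ℝ × ℝ) := ⟨γ, h⟩

/-- the laws `gam n` converge weakly to `γ` -/
theorem gam_tendsto {γ : Measure (ℝ × ℝ)} [IsProbabilityMeasure γ]
    (hlim : ∀ f : ℝ × ℝ → ℝ, Continuous f → (∃ M, ∀ z, |f z| ≤ M) → LimPhi f (∫ z, f z ∂γ)) :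
    Tendsto gamPM atTop (𝓝 (toPM γ)) := by
  rw [ProbabilityMeasure.tendsto_iff_forall_lintegral_tendsto]
  intro f
  show Tendsto (fun n => ∫⁻ z, f z ∂(gam n)) atTop (𝓝 (∫⁻ z, f z ∂γ))
  set M : ℝ≥0 := nndist f 0 with hM
  have hMz : ∀ z, f z ≤ M := fun z => BoundedContinuousFunction.NNReal.upper_bound f z
  set s : ℝ := ∫ z, (f z : ℝ) ∂γ with hs
  have hint : Integrable (fun z => (f z : ℝ)) γ :=
    ⟨(NNReal.continuous_coe.comp f.continuous).aestronglyMeasurable,
      HasFiniteIntegral.of_bounded (C := M) (Eventually.of_forall fun z => by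
        rw [Real.norm_eq_abs, abs_of_nonneg (NNReal.coe_nonneg _)]
        exact_mod_cast hMz z)⟩
  have hS : ∫⁻ z, f z ∂γ = ENNReal.ofReal s := by
    rw [hs, ofReal_integral_eq_lintegral_ofReal hint (Eventually.of_forall fun z => by simp)]
    simp
  have hs0 : 0 ≤ s := integral_nonneg fun z => NNReal.coe_nonneg _
  have hL : LimPhi (fun z => (f z : ℝ)) s := hlim _ (NNReal.continuous_coe.comp f.continuous)
    ⟨M, fun z => by
      rw [abs_of_nonneg (NNReal.coe_nonneg _)]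
      exact_mod_cast hMz z⟩
  have hfm : Measurable f := f.continuous.measurable
  rw [hS]
  refine tendsto_of_le_liminf_of_limsup_le ?_ ?_
  · refine ENNReal.le_of_forall_pos_le_add fun ε hε _ => ?_
    have hε' : (0 : ℝ) < ε := by exact_mod_cast hε
    have h1 := devS_tendsto hL hε'
    have h2 : ∀ n, ENNReal.ofReal (s - ε) - ENNReal.ofReal (s - ε) *
        smpLaw (n + 1) (devS (n + 1) (fun z => (f z : ℝ)) s ε) ≤ ∫⁻ z, f z ∂(gam n) := by
      intro n
      rw [tsub_le_iff_right]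
      exact gam_lower n hfm
    have h3 : Tendsto (fun n => ENNReal.ofReal (s - ε) - ENNReal.ofReal (s - ε) *
        smpLaw (n + 1) (devS (n + 1) (fun z => (f z : ℝ)) s ε)) atTop
        (𝓝 (ENNReal.ofReal (s - ε) - ENNReal.ofReal (s - ε) * 0)) :=
      ENNReal.Tendsto.sub tendsto_const_nhds (ENNReal.Tendsto.const_mul h1
        (Or.inr ENNReal.ofReal_ne_top)) (Or.inl ENNReal.ofReal_ne_top)
    rw [mul_zero, tsub_zero] at h3
    have h4 : ENNReal.ofReal (s - ε) ≤ liminf (fun n => ∫⁻ z, f z ∂(gam n)) atTop := by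
      rw [← h3.liminf_eq]
      exact liminf_le_liminf (Eventually.of_forall h2)
    calc ENNReal.ofReal s ≤ ENNReal.ofReal ((s - ε) + ε) := by
          refine ENNReal.ofReal_le_ofReal (by linarith)
      _ ≤ ENNReal.ofReal (s - ε) + ENNReal.ofReal ε := ENNReal.ofReal_add_le
      _ ≤ _ := by
          rw [ENNReal.ofReal_coe_nnreal]
          exact add_le_add_left h4 _
  · refine ENNReal.le_of_forall_pos_le_add fun ε hε _ => ?_
    have hε' : (0 : ℝ) < ε := by exact_mod_cast hε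
    have h1 := devS_tendsto hL hε'
    have h3 : Tendsto (fun n => ENNReal.ofReal (s + ε) + M *
        smpLaw (n + 1) (devS (n + 1) (fun z => (f z : ℝ)) s ε)) atTop
        (𝓝 (ENNReal.ofReal (s + ε) + M * 0)) :=
      tendsto_const_nhds.add (ENNReal.Tendsto.const_mul h1 (Or.inr ENNReal.coe_ne_top))
    rw [mul_zero, add_zero] at h3
    calc limsup (fun n => ∫⁻ z, f z ∂(gam n)) atTop ≤ limsup (fun n => ENNReal.ofReal (s + ε) + M *
        smpLaw (n + 1) (devS (n + 1) (fun z => (f z : ℝ)) s ε)) atTop :=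
          limsup_le_limsup (Eventually.of_forall fun n => gam_upper n hfm hMz)
      _ = ENNReal.ofReal (s + ε) := h3.limsup_eq
      _ = ENNReal.ofReal s + ENNReal.ofReal ε := ENNReal.ofReal_add hs0 hε'.le
      _ = ENNReal.ofReal s + ε := by rw [ENNReal.ofReal_coe_nnreal]

end Pool.Agent.H27.OTC
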