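import Pool.Agent.H27.OTC.DensF

/-!
Inequalities for the laws `gam n` and their limit.
-/

set_option autoImplicit false

open MeasureTheory ProbabilityTheory Filter
open scoped ENNReal NNReal Topology BoundedContinuousFunction

namespace Pool.Agent.H27.OTC

open Pool.Agent.H96.OT (Pl)

theorem lintegral_lin {b c d : ℝ} (hcd : c ≤ d) (hdb : d ≤ b) :
    ∫⁻ t in Set.Ioc c d, ENNReal.ofReal (b - t) = ENNReal.ofReal ((d - c) * (b - (c + d) / 2)) := by
  have hint : IntegrableOn (fun t : ℝ => b - t) (Set.Ioc c d) :=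
    (continuous_const.sub continuous_id).integrableOn_Ioc
  have hnn : 0 ≤ᵐ[volume.restrict (Set.Ioc c d)] fun t : ℝ => b - t := by
    filter_upwards [ae_restrict_mem measurableSet_Ioc] with t ht
    show 0 ≤ b - t
    linarith [ht.2]
  rw [← ofReal_integral_eq_lintegral_ofReal hint hnn]
  congr 1
  rw [← intervalIntegral.integral_of_le hcd]
  rw [intervalIntegral.integral_sub (by simp) (by simp)]
  simp
  ring

theorem lintegral_lin' {b c d : ℝ} (hcd : c ≤ d) (hdb : d ≤ b) :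
    ∫⁻ t in Set.Icc c d, ENNReal.ofReal (b - t) = ENNReal.ofReal ((d - c) * (b - (c + d) / 2)) := by
  rw [← lintegral_lin hcd hdb]
  exact setLIntegral_congr Ioc_ae_eq_Icc.symm

/-- a nondecreasing function against the weight `b - t` -/
theorem weight_mono {L : ℝ → ℝ≥0∞} (hLm : Measurable L) (hL : ∀ t t', 0 ≤ t → t ≤ t' → t' ≤ 1 → L t ≤ L t')
    {a b : ℝ} (ha0 : 0 ≤ a) (ha1 : a ≤ 1) (hb : 2 ≤ b) :
    ∫⁻ t in Set.Icc 0 a, ENNReal.ofReal (b - t) * L t ≤
      ENNReal.ofReal (a + a * (1 - a) / 3) * ∫⁻ t in Set.Icc 0 1, ENNReal.ofReal (b - t) * L t := by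
  have hwm : Measurable fun t : ℝ => ENNReal.ofReal (b - t) :=
    (measurable_const.sub measurable_id).ennreal_ofReal
  set P := ∫⁻ t in Set.Icc 0 a, ENNReal.ofReal (b - t) * L t with hP
  set Q := ∫⁻ t in Set.Ioc a 1, ENNReal.ofReal (b - t) * L t with hQ
  have hT : ∫⁻ t in Set.Icc 0 1, ENNReal.ofReal (b - t) * L t = P + Q := by
    rw [← Set.Icc_union_Ioc_eq_Icc ha0 ha1, lintegral_union measurableSet_Ioc]
    rw [Set.disjoint_left]
    intro t h1 h2
    exact absurd h1.2 (not_le.2 h2.1)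
  set W1 := ENNReal.ofReal (a * (b - a / 2)) with hW1
  set W2 := ENNReal.ofReal ((1 - a) * (b - (a + 1) / 2)) with hW2
  have h1 : P ≤ W1 * L a := by
    calc P ≤ ∫⁻ t in Set.Icc 0 a, ENNReal.ofReal (b - t) * L a := by
          refine setLIntegral_mono (hwm.mul_const _) fun t ht => ?_
          exact mul_le_mul_right (hL t a ht.1 ht.2 ha1) _
      _ = W1 * L a := by
          rw [lintegral_mul_const _ hwm, lintegral_lin' ha0 (by linarith)]
          congr 2
          ring
  have h2 : W2 * L a ≤ Q := by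
    calc W2 * L a = ∫⁻ t in Set.Ioc a 1, ENNReal.ofReal (b - t) * L a := by
          rw [lintegral_mul_const _ hwm, lintegral_lin ha1 (by linarith)]
      _ ≤ Q := by
          refine setLIntegral_mono (hwm.mul hLm) fun t ht => ?_
          exact mul_le_mul_right (hL a t ha0 ht.1.le ht.2) _
  have h3 : P * W2 ≤ W1 * Q := by
    calc P * W2 ≤ W1 * L a * W2 := mul_le_mul_left h1 _
      _ = W1 * (W2 * L a) := by ring
      _ ≤ W1 * Q := mul_le_mul_right h2 _
  have h4 : W1 + W2 = ENNReal.ofReal (b - 1 / 2) := by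
    rw [hW1, hW2, ← ENNReal.ofReal_add]
    · congr 1
      ring
    · exact mul_nonneg ha0 (by linarith)
    · exact mul_nonneg (by linarith) (by linarith)
  have h5 : P * ENNReal.ofReal (b - 1 / 2) ≤ W1 * (P + Q) := by
    rw [← h4, mul_add, mul_add, mul_comm P W1]
    exact add_le_add_right h3 _
  have h6 : W1 ≤ ENNReal.ofReal (a + a * (1 - a) / 3) * ENNReal.ofReal (b - 1 / 2) := by
    rw [← ENNReal.ofReal_mul (by nlinarith)]
    refine ENNReal.ofReal_le_ofReal ?_
    have h7 : 0 ≤ a * (1 - a) := mul_nonneg ha0 (by linarith)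
    nlinarith
  rw [hT]
  have h8 : P * ENNReal.ofReal (b - 1 / 2) ≤
      ENNReal.ofReal (a + a * (1 - a) / 3) * (P + Q) * ENNReal.ofReal (b - 1 / 2) := by
    refine h5.trans ((mul_le_mul_left h6 _).trans (le_of_eq ?_))
    ring
  exact (ENNReal.mul_le_mul_iff_left (ENNReal.ofReal_pos.2 (by linarith)).ne'
    ENNReal.ofReal_ne_top).1 h8

theorem ofReal_mul_div {t : ℝ} (ht : 0 < t) (x : ℝ≥0∞) :
    ENNReal.ofReal t * (x / ENNReal.ofReal t) = x :=
  ENNReal.mul_div_cancel (ENNReal.ofReal_pos.2 ht).ne' ENNReal.ofReal_ne_top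

theorem meas_two {G : ℝ → ℝ → ℝ≥0∞} (hG : Measurable fun z : ℝ × ℝ => G z.1 z.2)
    {α : Type*} [MeasurableSpace α] {f g : α → ℝ} (hf : Measurable f) (hg : Measurable g) :
    Measurable fun a => G (f a) (g a) :=
  Measurable.comp hG (hf.prodMk hg)

theorem meas_fd_left (n : ℕ) (b : ℝ) : Measurable fun t => finDens n t b :=
  meas_two (G := finDens n) (measurable_finDens n) (f := fun t : ℝ => t) (g := fun _ => b)
    measurable_id measurable_const

theorem finDens_weight (n : ℕ) {a b : ℝ} (ha0 : 0 ≤ a) (ha1 : a ≤ 1) (hb : 2 ≤ b) :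
    ∫⁻ t in Set.Icc 0 a, finDens n t b ≤
      ENNReal.ofReal (a + a * (1 - a) / 3) * ∫⁻ t in Set.Icc 0 1, finDens n t b := by
  have hwm : Measurable fun t : ℝ => ENNReal.ofReal (b - t) :=
    (measurable_const.sub measurable_id).ennreal_ofReal
  have h := weight_mono (L := fun t => finDens n t b / ENNReal.ofReal (b - t))
    ((meas_fd_left n b).div hwm)
    (fun t t' _ h2 h3 => finDens_mono_left n h2 h3 hb) ha0 ha1 hb
  have e : ∀ c : ℝ, c ≤ 1 → ∫⁻ t in Set.Icc 0 c, ENNReal.ofReal (b - t) *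
      (finDens n t b / ENNReal.ofReal (b - t)) = ∫⁻ t in Set.Icc 0 c, finDens n t b := by
    intro c hc
    refine setLIntegral_congr_fun measurableSet_Icc fun t ht => ?_
    exact ofReal_mul_div (by linarith [ht.2]) _
  rwa [e a ha1, e 1 le_rfl] at h

/-- the measure of a rectangle -/
theorem gam_rect (n : ℕ) {A B : Set ℝ} (hA : MeasurableSet A) (hB : MeasurableSet B) :
    gam n (A ×ˢ B) = ∫⁻ b in B ∩ Set.Icc (2 : ℝ) 3, ∫⁻ a in A ∩ Set.Icc (0 : ℝ) 1,
      finDens n a b := by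
  unfold gam box
  rw [withDensity_apply _ (hA.prod hB), ← Measure.prod_restrict, Measure.restrict_restrict hA,
    Measure.restrict_restrict hB, lintegral_prod_symm _ (measurable_finDens n).aemeasurable]

theorem gam_fst (n : ℕ) {A : Set ℝ} (hA : MeasurableSet A) :
    gam n (A ×ˢ Set.univ) = volume (A ∩ Set.Icc (0 : ℝ) 1) := by
  have h := mean_fst n (g := A.indicator fun _ => 1) (measurable_const.indicator hA)
  rw [lintegral_indicator_const hA, one_mul, Measure.restrict_apply hA] at h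
  rw [← h]
  have e : (fun z : ℝ × ℝ => A.indicator (fun _ => (1 : ℝ≥0∞)) z.1) =
      (A ×ˢ Set.univ).indicator fun _ => 1 := by
    funext z
    by_cases hz : z.1 ∈ A
    · rw [Set.indicator_of_mem hz, Set.indicator_of_mem (show z ∈ A ×ˢ Set.univ from ⟨hz, trivial⟩)]
    · rw [Set.indicator_of_notMem hz, Set.indicator_of_notMem fun h => hz h.1]
  rw [e, lintegral_indicator_const (hA.prod MeasurableSet.univ), one_mul]

theorem gam_snd (n : ℕ) {B : Set ℝ} (hB : MeasurableSet B) :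
    gam n (Set.univ ×ˢ B) = volume (B ∩ Set.Icc (2 : ℝ) 3) := by
  have h := mean_snd n (g := B.indicator fun _ => 1) (measurable_const.indicator hB)
  rw [lintegral_indicator_const hB, one_mul, Measure.restrict_apply hB] at h
  rw [← h]
  have e : (fun z : ℝ × ℝ => B.indicator (fun _ => (1 : ℝ≥0∞)) z.2) =
      (Set.univ ×ˢ B).indicator fun _ => 1 := by
    funext z
    by_cases hz : z.2 ∈ B
    · rw [Set.indicator_of_mem hz, Set.indicator_of_mem (show z ∈ Set.univ ×ˢ B from ⟨trivial, hz⟩)]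
    · rw [Set.indicator_of_notMem hz, Set.indicator_of_notMem fun h => hz h.2]
  rw [e, lintegral_indicator_const (MeasurableSet.univ.prod hB), one_mul]

/-- first inequality -/
theorem gam_P (n : ℕ) {a : ℝ} (ha0 : 0 ≤ a) (ha1 : a ≤ 1) {B : Set ℝ} (hB : MeasurableSet B) :
    gam n (Set.Icc 0 a ×ˢ B) ≤
      ENNReal.ofReal (a + a * (1 - a) / 3) * volume (B ∩ Set.Icc (2 : ℝ) 3) := by
  have hm : Measurable fun b => ∫⁻ t in Set.Icc (0 : ℝ) 1, finDens n t b :=
    (measurable_finDens n).lintegral_prod_left'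
  rw [gam_rect n measurableSet_Icc hB, Set.inter_eq_left.2 (Set.Icc_subset_Icc_right ha1)]
  calc ∫⁻ b in B ∩ Set.Icc (2 : ℝ) 3, ∫⁻ t in Set.Icc 0 a, finDens n t b
      ≤ ∫⁻ b in B ∩ Set.Icc (2 : ℝ) 3, ENNReal.ofReal (a + a * (1 - a) / 3) *
        ∫⁻ t in Set.Icc (0 : ℝ) 1, finDens n t b := by
        refine setLIntegral_mono (hm.const_mul _) fun b hb => ?_
        exact finDens_weight n ha0 ha1 hb.2.1
    _ = ENNReal.ofReal (a + a * (1 - a) / 3) * gam n (Set.univ ×ˢ B) := by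
        rw [lintegral_const_mul _ hm, gam_rect n MeasurableSet.univ hB, Set.univ_inter]
    _ = _ := by rw [gam_snd n hB]

theorem refl_aux {G : ℝ → ℝ → ℝ≥0∞} (hG : Measurable fun z : ℝ × ℝ => G z.1 z.2)
    (hsym : ∀ a b, G (3 - b) (3 - a) = G a b) {A B : Set ℝ} (hA : MeasurableSet A)
    (hB : MeasurableSet B) :
    ∫⁻ b in (fun t : ℝ => 3 - t) ⁻¹' A, ∫⁻ a in (fun t : ℝ => 3 - t) ⁻¹' B, G a b =
      ∫⁻ b in B, ∫⁻ a in A, G a b := by
  have hr : MeasurePreserving (fun t : ℝ => 3 - t) volume volume :=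
    Measure.measurePreserving_sub_left (volume : Measure ℝ) 3
  have hGs : ∀ c : ℝ, Measurable fun t : ℝ => G (3 - t) c := fun c =>
    meas_two hG (measurable_const.sub measurable_id) measurable_const
  have h1 : ∀ b : ℝ, ∫⁻ a in (fun t : ℝ => 3 - t) ⁻¹' B, G a b = ∫⁻ b' in B, G (3 - b') b := by
    intro b
    have h2 := (hr.restrict_preimage hB).lintegral_comp (f := fun t => G (3 - t) b) (hGs b)
    rw [← h2]
    refine lintegral_congr fun t => ?_
    congr 1
    ring
  simp only [h1]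
  have hmm : Measurable fun z : ℝ × ℝ => G (3 - z.2) (3 - z.1) :=
    meas_two hG (measurable_const.sub measurable_snd) (measurable_const.sub measurable_fst)
  have hmm' : Measurable fun t : ℝ => ∫⁻ b' in B, G (3 - b') (3 - t) := hmm.lintegral_prod_right'
  have h3 := (hr.restrict_preimage hA).lintegral_comp
    (f := fun t => ∫⁻ b' in B, G (3 - b') (3 - t)) hmm'
  have e3 : ∀ t : ℝ, 3 - (3 - t) = t := fun t => by ring
  simp only [e3] at h3
  rw [h3]
  simp only [hsym]
  exact lintegral_lintegral_swap (f := fun a b => G a b) hG.aemeasurable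

/-- the reflection -/
theorem gam_refl (n : ℕ) {A B : Set ℝ} (hA : MeasurableSet A) (hB : MeasurableSet B) :
    gam n (((fun t => 3 - t) ⁻¹' B) ×ˢ ((fun t => 3 - t) ⁻¹' A)) = gam n (A ×ˢ B) := by
  have hr : MeasurePreserving (fun t : ℝ => 3 - t) volume volume :=
    Measure.measurePreserving_sub_left (volume : Measure ℝ) 3
  have hA' : MeasurableSet ((fun t : ℝ => 3 - t) ⁻¹' A) := hr.measurable hA
  have hB' : MeasurableSet ((fun t : ℝ => 3 - t) ⁻¹' B) := hr.measurable hB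
  have e1 : (fun t : ℝ => 3 - t) ⁻¹' (A ∩ Set.Icc (0 : ℝ) 1) =
      ((fun t : ℝ => 3 - t) ⁻¹' A) ∩ Set.Icc (2 : ℝ) 3 := by
    ext t
    simp only [Set.mem_preimage, Set.mem_inter_iff, Set.mem_Icc]
    constructor
    · rintro ⟨h, h1, h2⟩
      exact ⟨h, by linarith, by linarith⟩
    · rintro ⟨h, h1, h2⟩
      exact ⟨h, by linarith, by linarith⟩
  have e2 : (fun t : ℝ => 3 - t) ⁻¹' (B ∩ Set.Icc (2 : ℝ) 3) =
      ((fun t : ℝ => 3 - t) ⁻¹' B) ∩ Set.Icc (0 : ℝ) 1 := by
    ext t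
    simp only [Set.mem_preimage, Set.mem_inter_iff, Set.mem_Icc]
    constructor
    · rintro ⟨h, h1, h2⟩
      exact ⟨h, by linarith, by linarith⟩
    · rintro ⟨h, h1, h2⟩
      exact ⟨h, by linarith, by linarith⟩
  rw [gam_rect n hB' hA', gam_rect n hA hB, ← e1, ← e2]
  exact refl_aux (G := finDens n) (measurable_finDens n) (finDens_symm n)
    (hA.inter measurableSet_Icc) (hB.inter measurableSet_Icc)

/-- second inequality -/
theorem gam_Q (n : ℕ) {b : ℝ} (hb2 : 2 ≤ b) (hb3 : b ≤ 3) {A : Set ℝ} (hA : MeasurableSet A) :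
    gam n (A ×ˢ Set.Icc b 3) ≤
      ENNReal.ofReal ((3 - b) + (3 - b) * (b - 2) / 3) * volume (A ∩ Set.Icc (0 : ℝ) 1) := by
  have hr : MeasurePreserving (fun t : ℝ => 3 - t) volume volume :=
    Measure.measurePreserving_sub_left (volume : Measure ℝ) 3
  have hA' : MeasurableSet ((fun t : ℝ => 3 - t) ⁻¹' A) := hr.measurable hA
  have h1 := gam_refl n (A := Set.Icc 0 (3 - b)) (B := (fun t : ℝ => 3 - t) ⁻¹' A)
    measurableSet_Icc hA'
  have e1 : (fun t : ℝ => 3 - t) ⁻¹' ((fun t : ℝ => 3 - t) ⁻¹' A) = A := by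
    ext t
    simp
  have e2 : (fun t : ℝ => 3 - t) ⁻¹' (Set.Icc 0 (3 - b)) = Set.Icc b 3 := by
    ext t
    simp only [Set.mem_preimage, Set.mem_Icc]
    constructor
    · rintro ⟨h1, h2⟩
      exact ⟨by linarith, by linarith⟩
    · rintro ⟨h1, h2⟩
      exact ⟨by linarith, by linarith⟩
  rw [e1, e2] at h1
  rw [h1]
  have h2 := gam_P n (a := 3 - b) (by linarith) (by linarith) hA'
  have e3 : ((fun t : ℝ => 3 - t) ⁻¹' A) ∩ Set.Icc (2 : ℝ) 3 =
      (fun t : ℝ => 3 - t) ⁻¹' (A ∩ Set.Icc (0 : ℝ) 1) := by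
    ext t
    simp only [Set.mem_preimage, Set.mem_inter_iff, Set.mem_Icc]
    constructor
    · rintro ⟨h, h1, h2⟩
      exact ⟨h, by linarith, by linarith⟩
    · rintro ⟨h, h1, h2⟩
      exact ⟨h, by linarith, by linarith⟩
  rw [e3, hr.measure_preimage (hA.inter measurableSet_Icc).nullMeasurableSet] at h2
  refine h2.trans (le_of_eq ?_)
  congr 2
  ring

end Pool.Agent.H27.OTC
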