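import Pool.Agent.H27.OTC.DensG

/-!
The distance to the uniform law on the square is at most `4 / 81`.
-/

set_option autoImplicit false

open MeasureTheory ProbabilityTheory Filter
open scoped ENNReal NNReal Topology BoundedContinuousFunction

namespace Pool.Agent.H27.OTC

open Pool.Agent.H96.OT (Pl)

/-- the elementary inequality -/
theorem four81 {x y : ℝ} (hx0 : 0 ≤ x) (hx1 : x ≤ 1) (hy1 : y ≤ 1) (hxy : x ≤ y) :
    x * (1 - x) * (1 - y) / 3 ≤ 4 / 81 := by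
  have h1 : x * (1 - x) * (1 - y) ≤ x * (1 - x) * (1 - x) :=
    mul_le_mul_of_nonneg_left (by linarith) (mul_nonneg hx0 (by linarith))
  have h2 : 0 ≤ (x - 1 / 3) ^ 2 * (4 / 3 - x) := mul_nonneg (sq_nonneg _) (by linarith)
  nlinarith

theorem four81' {x y : ℝ} (hx0 : 0 ≤ x) (hx1 : x ≤ 1) (hy0 : 0 ≤ y) (hy1 : y ≤ 1) {D : ℝ}
    (h1 : D ≤ x * (1 - x) * (1 - y) / 3) (h2 : D ≤ y * (1 - x) * (1 - y) / 3) : D ≤ 4 / 81 := by
  rcases le_total x y with h | h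
  · exact h1.trans (four81 hx0 hx1 hy1 h)
  · have h3 := four81 hy0 hy1 hx1 h
    have e : y * (1 - x) * (1 - y) / 3 = y * (1 - y) * (1 - x) / 3 := by ring
    rw [e] at h2
    exact h2.trans h3

theorem vol_Icc_inter {c d l r : ℝ} (h1 : l ≤ c) (h2 : d ≤ r) :
    volume (Set.Icc c d ∩ Set.Icc l r) = ENNReal.ofReal (d - c) := by
  rw [Set.inter_eq_left.2 (Set.Icc_subset_Icc h1 h2), Real.volume_Icc]

/-- the abstract form -/
theorem kolm_aux {m : Measure (ℝ × ℝ)} [IsProbabilityMeasure m]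
    (hfst : ∀ A : Set ℝ, MeasurableSet A → m (A ×ˢ Set.univ) = volume (A ∩ Set.Icc (0 : ℝ) 1))
    (hsnd : ∀ B : Set ℝ, MeasurableSet B → m (Set.univ ×ˢ B) = volume (B ∩ Set.Icc (2 : ℝ) 3))
    (hP : ∀ a : ℝ, 0 ≤ a → a ≤ 1 → ∀ B : Set ℝ, MeasurableSet B → m (Set.Icc 0 a ×ˢ B) ≤
      ENNReal.ofReal (a + a * (1 - a) / 3) * volume (B ∩ Set.Icc (2 : ℝ) 3))
    (hQ : ∀ b : ℝ, 2 ≤ b → b ≤ 3 → ∀ A : Set ℝ, MeasurableSet A → m (A ×ˢ Set.Icc b 3) ≤
      ENNReal.ofReal ((3 - b) + (3 - b) * (b - 2) / 3) * volume (A ∩ Set.Icc (0 : ℝ) 1))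
    {a b : ℝ} (ha0 : 0 ≤ a) (ha1 : a ≤ 1) (hb2 : 2 ≤ b) (hb3 : b ≤ 3) :
    |m.real (Set.Icc 0 a ×ˢ Set.Icc 2 b) - a * (b - 2)| ≤ 4 / 81 := by
  have hκ : 0 ≤ a + a * (1 - a) / 3 := by
    have : 0 ≤ a * (1 - a) := mul_nonneg ha0 (by linarith)
    linarith
  have hκ' : 0 ≤ (3 - b) + (3 - b) * (b - 2) / 3 := by
    have : 0 ≤ (3 - b) * (b - 2) := mul_nonneg (by linarith) (by linarith)
    linarith
  -- real forms
  have P1 : ∀ c d : ℝ, 2 ≤ c → c ≤ d → d ≤ 3 → m.real (Set.Icc 0 a ×ˢ Set.Icc c d) ≤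
      (a + a * (1 - a) / 3) * (d - c) := by
    intro c d h1 h2 h3
    have h4 := hP a ha0 ha1 (Set.Icc c d) measurableSet_Icc
    rw [vol_Icc_inter h1 h3, ← ENNReal.ofReal_mul hκ] at h4
    exact ENNReal.toReal_le_of_le_ofReal (mul_nonneg hκ (by linarith)) h4
  have Q1 : ∀ c d : ℝ, 0 ≤ c → c ≤ d → d ≤ 1 → m.real (Set.Icc c d ×ˢ Set.Icc b 3) ≤
      ((3 - b) + (3 - b) * (b - 2) / 3) * (d - c) := by
    intro c d h1 h2 h3
    have h4 := hQ b hb2 hb3 (Set.Icc c d) measurableSet_Icc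
    rw [vol_Icc_inter h1 h3, ← ENNReal.ofReal_mul hκ'] at h4
    exact ENNReal.toReal_le_of_le_ofReal (mul_nonneg hκ' (by linarith)) h4
  -- splitting of the second coordinate
  have hnull : m (Set.univ ×ˢ (Set.Icc (2 : ℝ) 3)ᶜ) = 0 := by
    rw [hsnd _ measurableSet_Icc.compl]
    simp
  have S1 : ∀ c d : ℝ, 0 ≤ c → c ≤ d → d ≤ 1 → d - c ≤ m.real (Set.Icc c d ×ˢ Set.Icc 2 b) +
      m.real (Set.Icc c d ×ˢ Set.Icc b 3) := by
    intro c d h1 h2 h3
    have h4 : m (Set.Icc c d ×ˢ Set.univ) = ENNReal.ofReal (d - c) := by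
      rw [hfst _ measurableSet_Icc, vol_Icc_inter h1 h3]
    have h5 : Set.Icc c d ×ˢ (Set.univ : Set ℝ) ⊆ (Set.Icc c d ×ˢ Set.Icc 2 b ∪
        Set.Icc c d ×ˢ Set.Icc b 3) ∪ Set.univ ×ˢ (Set.Icc (2 : ℝ) 3)ᶜ := by
      rintro ⟨t, t'⟩ ⟨ht, -⟩
      by_cases h6 : t' ∈ Set.Icc (2 : ℝ) 3
      · rcases le_total t' b with h7 | h7
        · exact Or.inl (Or.inl ⟨ht, h6.1, h7⟩)
        · exact Or.inl (Or.inr ⟨ht, h7, h6.2⟩)
      · exact Or.inr ⟨trivial, h6⟩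
    have h6 : m.real (Set.Icc c d ×ˢ Set.univ) = d - c := by
      rw [measureReal_def, h4, ENNReal.toReal_ofReal (by linarith)]
    have h7 : m.real (Set.univ ×ˢ (Set.Icc (2 : ℝ) 3)ᶜ) = 0 := by
      rw [measureReal_def, hnull, ENNReal.toReal_zero]
    calc d - c = m.real (Set.Icc c d ×ˢ Set.univ) := h6.symm
      _ ≤ m.real _ := measureReal_mono h5
      _ ≤ _ := (measureReal_union_le _ _).trans (by
          rw [h7, add_zero]
          exact measureReal_union_le _ _)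
  have h0 := S1 0 a le_rfl ha0 ha1
  have h1 := P1 2 b le_rfl hb2 hb3
  have h2 := P1 b 3 hb2 hb3 le_rfl
  have h3 := Q1 0 a le_rfl ha0 ha1
  have h4 := Q1 a 1 ha0 ha1 le_rfl
  have h5 := S1 a 1 ha0 ha1 le_rfl
  -- splitting of the first coordinate
  have h6 : m.real (Set.Icc 0 a ×ˢ Set.Icc 2 b) + m.real (Set.Icc a 1 ×ˢ Set.Icc 2 b) ≤ b - 2 := by
    have e1 : m.real (Set.Icc a 1 ×ˢ Set.Icc 2 b) = m.real (Set.Ioc a 1 ×ˢ Set.Icc 2 b) := by
      have hz : m.real ({a} ×ˢ Set.univ) = 0 := by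
        rw [measureReal_def, hfst _ (measurableSet_singleton a)]
        have : volume ({a} ∩ Set.Icc (0 : ℝ) 1) = 0 :=
          measure_mono_null Set.inter_subset_left (Real.volume_singleton)
        rw [this, ENNReal.toReal_zero]
      refine le_antisymm ?_ (measureReal_mono (Set.prod_mono Set.Ioc_subset_Icc_self le_rfl))
      have hsub : Set.Icc a 1 ×ˢ Set.Icc 2 b ⊆ Set.Ioc a 1 ×ˢ Set.Icc 2 b ∪ {a} ×ˢ Set.univ := by
        rintro ⟨t, t'⟩ ⟨⟨ht1, ht2⟩, ht'⟩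
        rcases ht1.eq_or_lt with h | h
        · exact Or.inr ⟨h.symm, trivial⟩
        · exact Or.inl ⟨⟨h, ht2⟩, ht'⟩
      calc m.real (Set.Icc a 1 ×ˢ Set.Icc 2 b) ≤ m.real _ := measureReal_mono hsub
        _ ≤ _ := measureReal_union_le _ _
        _ = _ := by rw [hz, add_zero]
    have e2 : m.real (Set.univ ×ˢ Set.Icc 2 b) = b - 2 := by
      rw [measureReal_def, hsnd _ measurableSet_Icc, vol_Icc_inter le_rfl hb3,
        ENNReal.toReal_ofReal (by linarith)]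
    have hdis : Disjoint (Set.Icc 0 a ×ˢ Set.Icc 2 b) (Set.Ioc a 1 ×ˢ Set.Icc (2 : ℝ) b) := by
      rw [Set.disjoint_left]
      rintro ⟨t, t'⟩ ⟨h1, _⟩ ⟨h2, _⟩
      exact absurd h1.2 (not_le.2 h2.1)
    rw [e1, ← measureReal_union hdis (measurableSet_Ioc.prod measurableSet_Icc), ← e2]
    refine measureReal_mono ?_
    rintro ⟨t, t'⟩ (⟨_, h⟩ | ⟨_, h⟩)
    · exact ⟨trivial, h⟩
    · exact ⟨trivial, h⟩
  have h7 : b - 2 ≤ m.real (Set.Icc 0 a ×ˢ Set.Icc 2 b) + m.real (Set.Icc a 1 ×ˢ Set.Icc 2 b) := by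
    have hnull' : m ((Set.Icc (0 : ℝ) 1)ᶜ ×ˢ Set.univ) = 0 := by
      rw [hfst _ measurableSet_Icc.compl]
      simp
    have e2 : m.real (Set.univ ×ˢ Set.Icc 2 b) = b - 2 := by
      rw [measureReal_def, hsnd _ measurableSet_Icc, vol_Icc_inter le_rfl hb3,
        ENNReal.toReal_ofReal (by linarith)]
    have hz : m.real ((Set.Icc (0 : ℝ) 1)ᶜ ×ˢ Set.univ) = 0 := by
      rw [measureReal_def, hnull', ENNReal.toReal_zero]
    have hsub : (Set.univ : Set ℝ) ×ˢ Set.Icc 2 b ⊆ (Set.Icc 0 a ×ˢ Set.Icc 2 b ∪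
        Set.Icc a 1 ×ˢ Set.Icc 2 b) ∪ (Set.Icc (0 : ℝ) 1)ᶜ ×ˢ Set.univ := by
      rintro ⟨t, t'⟩ ⟨-, ht⟩
      by_cases h6 : t ∈ Set.Icc (0 : ℝ) 1
      · rcases le_total t a with h7 | h7
        · exact Or.inl (Or.inl ⟨⟨h6.1, h7⟩, ht⟩)
        · exact Or.inl (Or.inr ⟨⟨h7, h6.2⟩, ht⟩)
      · exact Or.inr ⟨h6, trivial⟩
    calc b - 2 = m.real (Set.univ ×ˢ Set.Icc 2 b) := e2.symm
      _ ≤ m.real _ := measureReal_mono hsub
      _ ≤ _ := (measureReal_union_le _ _).trans (by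
          rw [hz, add_zero]
          exact measureReal_union_le _ _)
  set F := m.real (Set.Icc 0 a ×ˢ Set.Icc 2 b) with hF
  rw [abs_le]
  constructor
  · -- lower bound
    have l1 : a * (b - 2) - F ≤ (1 - a) * (1 - (1 - a)) * (1 - (b - 2)) / 3 := by
      have : a * (b - 2) - F ≤ (a + a * (1 - a) / 3) * (3 - b) - a * (3 - b) := by linarith
      refine this.trans (le_of_eq ?_)
      ring
    have l2 : a * (b - 2) - F ≤ (b - 2) * (1 - (1 - a)) * (1 - (b - 2)) / 3 := by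
      have : a * (b - 2) - F ≤ (3 - b + (3 - b) * (b - 2) / 3) * (a - 0) - a * (3 - b) := by
        linarith
      refine this.trans (le_of_eq ?_)
      ring
    have := four81' (x := 1 - a) (y := b - 2) (by linarith) (by linarith) (by linarith)
      (by linarith) l1 l2
    linarith
  · have l1 : F - a * (b - 2) ≤ a * (1 - a) * (1 - (3 - b)) / 3 := by
      refine (sub_le_sub_right h1 _).trans (le_of_eq ?_)
      ring
    have l2 : F - a * (b - 2) ≤ (3 - b) * (1 - a) * (1 - (3 - b)) / 3 := by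
      have : F - a * (b - 2) ≤ (b - 2) - (1 - a) +
          (3 - b + (3 - b) * (b - 2) / 3) * (1 - a) - a * (b - 2) := by linarith
      refine this.trans (le_of_eq ?_)
      ring
    exact four81' (x := a) (y := 3 - b) ha0 ha1 (by linarith) (by linarith) l1 l2

theorem gam_kolm (n : ℕ) {a b : ℝ} (ha0 : 0 ≤ a) (ha1 : a ≤ 1) (hb2 : 2 ≤ b) (hb3 : b ≤ 3) :
    |(gam n).real (Set.Icc 0 a ×ˢ Set.Icc 2 b) - a * (b - 2)| ≤ 4 / 81 := by
  have := gam_prob n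
  exact kolm_aux (m := gam n) (fun A hA => gam_fst n hA) (fun B hB => gam_snd n hB)
    (fun a h1 h2 B hB => gam_P n h1 h2 hB) (fun b h1 h2 A hA => gam_Q n h1 h2 hA) ha0 ha1 hb2 hb3

/-! ### passage to the limit -/

section limit

variable {γ : Measure (ℝ × ℝ)} [IsProbabilityMeasure γ]

theorem gamma_fst (h1 : γ.map Prod.fst = volume.restrict (Set.Icc (0 : ℝ) 1)) {A : Set ℝ}
    (hA : MeasurableSet A) : γ (A ×ˢ Set.univ) = volume (A ∩ Set.Icc (0 : ℝ) 1) := by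
  rw [← Measure.restrict_apply hA, ← h1, Measure.map_apply measurable_fst hA]
  congr 1
  ext z
  simp

theorem gamma_snd (h2 : γ.map Prod.snd = volume.restrict (Set.Icc (2 : ℝ) 3)) {B : Set ℝ}
    (hB : MeasurableSet B) : γ (Set.univ ×ˢ B) = volume (B ∩ Set.Icc (2 : ℝ) 3) := by
  rw [← Measure.restrict_apply hB, ← h2, Measure.map_apply measurable_snd hB]
  congr 1
  ext z
  simp

theorem gamma_frontier (h1 : γ.map Prod.fst = volume.restrict (Set.Icc (0 : ℝ) 1))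
    (h2 : γ.map Prod.snd = volume.restrict (Set.Icc (2 : ℝ) 3)) (c d c' d' : ℝ) :
    γ (frontier (Set.Icc c d ×ˢ Set.Icc c' d')) = 0 := by
  have hsub : frontier (Set.Icc c d ×ˢ Set.Icc c' d') ⊆
      ({c, d} : Set ℝ) ×ˢ (Set.univ : Set ℝ) ∪ (Set.univ : Set ℝ) ×ˢ ({c', d'} : Set ℝ) := by
    have hfr : ∀ e f : ℝ, frontier (Set.Icc e f) ⊆ {e, f} := by
      intro e f
      rcases le_or_gt e f with h | h
      · rw [frontier_Icc h]
      · rw [Set.Icc_eq_empty (not_le.2 h), frontier_empty]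
        exact Set.empty_subset _
    rw [frontier_prod_eq]
    rintro ⟨t, t'⟩ (⟨_, h⟩ | ⟨h, _⟩)
    · exact Or.inr ⟨trivial, hfr _ _ h⟩
    · exact Or.inl ⟨hfr _ _ h, trivial⟩
  refine measure_mono_null hsub (measure_union_null ?_ ?_)
  · rw [gamma_fst h1 ((Set.finite_singleton d).insert c).measurableSet]
    exact measure_mono_null Set.inter_subset_left (((Set.finite_singleton d).insert c).measure_zero _)
  · rw [gamma_snd h2 ((Set.finite_singleton d').insert c').measurableSet]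
    exact measure_mono_null Set.inter_subset_left
      (((Set.finite_singleton d').insert c').measure_zero _)

theorem rect_tendsto (hlim : Tendsto gamPM atTop (𝓝 (toPM γ)))
    (h1 : γ.map Prod.fst = volume.restrict (Set.Icc (0 : ℝ) 1))
    (h2 : γ.map Prod.snd = volume.restrict (Set.Icc (2 : ℝ) 3)) (c d c' d' : ℝ) :
    Tendsto (fun n => gam n (Set.Icc c d ×ˢ Set.Icc c' d')) atTop
      (𝓝 (γ (Set.Icc c d ×ˢ Set.Icc c' d'))) :=
  ProbabilityMeasure.tendsto_measure_of_null_frontier_of_tendsto' hlim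
    (gamma_frontier h1 h2 c d c' d')

theorem gamma_kolm (hlim : Tendsto gamPM atTop (𝓝 (toPM γ)))
    (h1 : γ.map Prod.fst = volume.restrict (Set.Icc (0 : ℝ) 1))
    (h2 : γ.map Prod.snd = volume.restrict (Set.Icc (2 : ℝ) 3))
    {a b : ℝ} (ha0 : 0 ≤ a) (ha1 : a ≤ 1) (hb2 : 2 ≤ b) (hb3 : b ≤ 3) :
    |γ.real (Set.Icc 0 a ×ˢ Set.Icc 2 b) - a * (b - 2)| ≤ 4 / 81 := by
  have h3 := (ENNReal.tendsto_toReal (measure_ne_top γ _)).comp
    (rect_tendsto hlim h1 h2 0 a 2 b)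
  have h4 : Tendsto (fun n => |(gam n).real (Set.Icc 0 a ×ˢ Set.Icc 2 b) - a * (b - 2)|) atTop
      (𝓝 |γ.real (Set.Icc 0 a ×ˢ Set.Icc 2 b) - a * (b - 2)|) :=
    ((continuous_abs.tendsto _).comp (h3.sub_const _))
  exact le_of_tendsto' h4 fun n => gam_kolm n ha0 ha1 hb2 hb3

end limit

end Pool.Agent.H27.OTC
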