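import Pool.Agent.H27.OTC.DensH

/-!
The limit law has a density: the pointwise limit of the finite densities.
-/

set_option autoImplicit false

open MeasureTheory ProbabilityTheory Filter
open scoped ENNReal NNReal Topology BoundedContinuousFunction

namespace Pool.Agent.H27.OTC

open Pool.Agent.H96.OT (Pl)

/-! ### absolute continuity -/

/-- an upper bound of the finite density away from `a = 1` -/
theorem finDens_le (n : ℕ) {t b δ : ℝ} (ht0 : 0 ≤ t) (ht : t ≤ 1 - δ) (hδ : 0 < δ) (hδ1 : δ ≤ 1)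
    (hb2 : 2 ≤ b) (hb3 : b ≤ 3) :
    finDens n t b ≤ ENNReal.ofReal (3 / δ) * ∫⁻ s in Set.Icc (0 : ℝ) 1, finDens n s b := by
  set L : ℝ → ℝ≥0∞ := fun s => finDens n s b / ENNReal.ofReal (b - s) with hL
  have h1 : ENNReal.ofReal δ * L t ≤ ∫⁻ s in Set.Icc (0 : ℝ) 1, finDens n s b := by
    calc ENNReal.ofReal δ * L t = ∫⁻ s in Set.Icc (1 - δ) 1, L t := by
          rw [lintegral_const, Measure.restrict_apply MeasurableSet.univ, Set.univ_inter,
            Real.volume_Icc, mul_comm]
          congr 2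
          ring
      _ ≤ ∫⁻ s in Set.Icc (1 - δ) 1, finDens n s b := by
          refine setLIntegral_mono (meas_fd_left n b) fun s hs => ?_
          have h2 : L t ≤ L s := finDens_mono_left n (by linarith [hs.1]) hs.2 hb2
          have h3 : finDens n s b = ENNReal.ofReal (b - s) * L s :=
            (ofReal_mul_div (by linarith [hs.2]) _).symm
          rw [h3]
          calc L t ≤ L s := h2
            _ = 1 * L s := (one_mul _).symm
            _ ≤ _ := by
                refine mul_le_mul_left ?_ _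
                rw [← ENNReal.ofReal_one]
                exact ENNReal.ofReal_le_ofReal (by linarith [hs.2])
      _ ≤ _ := lintegral_mono_set (Set.Icc_subset_Icc_left (by linarith))
  have h2 : finDens n t b ≤ ENNReal.ofReal 3 * L t := by
    have h3 : finDens n t b = ENNReal.ofReal (b - t) * L t :=
      (ofReal_mul_div (by linarith) _).symm
    rw [h3]
    exact mul_le_mul_left (ENNReal.ofReal_le_ofReal (by linarith)) _
  calc finDens n t b ≤ ENNReal.ofReal 3 * L t := h2
    _ = ENNReal.ofReal (3 / δ) * (ENNReal.ofReal δ * L t) := by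
        rw [← mul_assoc, ← ENNReal.ofReal_mul (by positivity)]
        congr 2
        field_simp
    _ ≤ _ := mul_le_mul_right h1 _

theorem col_one (n : ℕ) : ∀ᵐ b ∂(volume.restrict (Set.Icc (2 : ℝ) 3)),
    ∫⁻ s in Set.Icc (0 : ℝ) 1, finDens n s b = 1 := by
  have hm : Measurable fun b => ∫⁻ t in Set.Icc (0 : ℝ) 1, finDens n t b :=
    (measurable_finDens n).lintegral_prod_left'
  refine ae_eq_of_forall_setLIntegral_eq_of_sigmaFinite hm measurable_const fun B hB _ => ?_
  have h1 := gam_snd n hB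
  rw [gam_rect n MeasurableSet.univ hB, Set.univ_inter] at h1
  rw [Measure.restrict_restrict hB, h1, lintegral_const, one_mul,
    Measure.restrict_apply MeasurableSet.univ, Set.univ_inter]

theorem gam_le (n : ℕ) {δ : ℝ} (hδ : 0 < δ) (hδ1 : δ ≤ 1) {E : Set (ℝ × ℝ)} (hE : MeasurableSet E)
    (hE1 : ∀ z ∈ E, z.1 ≤ 1 - δ) : gam n E ≤ ENNReal.ofReal (3 / δ) * volume E := by
  have h1 : ∀ᵐ z ∂box, z ∈ E → finDens n z.1 z.2 ≤ ENNReal.ofReal (3 / δ) := by
    have h2 : ∀ᵐ z ∂box, ∫⁻ s in Set.Icc (0 : ℝ) 1, finDens n s z.2 = 1 := by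
      unfold box
      exact Measure.quasiMeasurePreserving_snd.ae (col_one n)
    have h3 : ∀ᵐ z ∂box, z ∈ Set.Icc (0 : ℝ) 1 ×ˢ Set.Icc (2 : ℝ) 3 := by
      rw [box_eq]
      exact ae_restrict_mem (measurableSet_Icc.prod measurableSet_Icc)
    filter_upwards [h2, h3] with z hz hz' hzE
    have h4 := finDens_le n hz'.1.1 (hE1 z hzE) hδ hδ1 hz'.2.1 hz'.2.2
    rwa [hz, mul_one] at h4
  unfold gam
  rw [withDensity_apply _ hE]
  calc ∫⁻ z in E, finDens n z.1 z.2 ∂box ≤ ∫⁻ _z in E, ENNReal.ofReal (3 / δ) ∂box := by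
        refine lintegral_mono_ae ?_
        rw [ae_restrict_iff' hE]
        exact h1
    _ = ENNReal.ofReal (3 / δ) * box E := by
        rw [lintegral_const, Measure.restrict_apply MeasurableSet.univ, Set.univ_inter]
    _ ≤ _ := by
        refine mul_le_mul_right ?_ _
        rw [box_eq]
        exact Measure.restrict_apply_le _ _

section limit

variable {γ : Measure (ℝ × ℝ)} [IsProbabilityMeasure γ]

theorem gamma_ac (hlim : Tendsto gamPM atTop (𝓝 (toPM γ)))
    (h1 : γ.map Prod.fst = volume.restrict (Set.Icc (0 : ℝ) 1)) : γ ≪ volume := by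
  intro E hE
  -- the part with `a < 1 - δ`
  have key : ∀ k : ℕ, γ (E ∩ {z | z.1 < 1 - 1 / ((k : ℝ) + 1)}) = 0 := by
    intro k
    set δ : ℝ := 1 / ((k : ℝ) + 1) with hδ
    have hδ0 : 0 < δ := by positivity
    have hδ1 : δ ≤ 1 := by
      rw [hδ, div_le_one (by positivity)]
      have : (0 : ℝ) ≤ k := Nat.cast_nonneg k
      linarith
    have hc0 : ENNReal.ofReal (3 / δ) ≠ 0 := (ENNReal.ofReal_pos.2 (by positivity)).ne'
    refine le_antisymm (ENNReal.le_of_forall_pos_le_add fun ε hε _ => ?_) zero_le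
    rw [zero_add]
    have hpos : (0 : ℝ≥0∞) < ε / ENNReal.ofReal (3 / δ) :=
      ENNReal.div_pos (by exact_mod_cast hε.ne') ENNReal.ofReal_ne_top
    obtain ⟨U, hUE, hUo, hU⟩ := Set.exists_isOpen_lt_of_lt E _ (hE ▸ hpos)
    set V : Set (ℝ × ℝ) := U ∩ {z | z.1 < 1 - δ} with hV
    have hVo : IsOpen V := hUo.inter (isOpen_lt continuous_fst continuous_const)
    have h2 := ProbabilityMeasure.le_liminf_measure_open_of_tendsto hlim hVo
    have h3 : ∀ n, gam n V ≤ ε := by
      intro n
      refine (gam_le n hδ0 hδ1 hVo.measurableSet fun z hz => hz.2.le).trans ?_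
      calc ENNReal.ofReal (3 / δ) * volume V ≤ ENNReal.ofReal (3 / δ) *
            (ε / ENNReal.ofReal (3 / δ)) :=
            mul_le_mul_right ((measure_mono Set.inter_subset_left).trans hU.le) _
        _ = ε := ENNReal.mul_div_cancel hc0 ENNReal.ofReal_ne_top
    calc γ (E ∩ {z | z.1 < 1 - δ}) ≤ γ V := measure_mono (Set.inter_subset_inter_left _ hUE)
      _ ≤ liminf (fun n => gam n V) atTop := h2
      _ ≤ liminf (fun _ : ℕ => (ε : ℝ≥0∞)) atTop := liminf_le_liminf (Eventually.of_forall h3)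
      _ = ε := liminf_const _
  have hone : γ ({z | 1 ≤ z.1} : Set (ℝ × ℝ)) = 0 := by
    have h2 := gamma_fst h1 (measurableSet_Ici (a := (1 : ℝ)))
    have h3 : volume (Set.Ici (1 : ℝ) ∩ Set.Icc (0 : ℝ) 1) = 0 := by
      refine measure_mono_null (t := {1}) ?_ Real.volume_singleton
      rintro t ⟨ht1, ht2⟩
      exact le_antisymm ht2.2 ht1
    rw [h3] at h2
    refine measure_mono_null ?_ h2
    intro z hz
    exact ⟨hz, trivial⟩
  have hsub : E ⊆ (⋃ k : ℕ, E ∩ {z | z.1 < 1 - 1 / ((k : ℝ) + 1)}) ∪ {z | 1 ≤ z.1} := by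
    intro z hz
    rcases lt_or_ge z.1 1 with h | h
    · left
      obtain ⟨k, hk⟩ := exists_nat_one_div_lt (sub_pos.2 h)
      exact Set.mem_iUnion.2 ⟨k, hz, show z.1 < 1 - 1 / ((k : ℝ) + 1) by linarith⟩
    · exact Or.inr h
  exact measure_mono_null hsub (measure_union_null (measure_iUnion_null key) hone)

end limit

/-! ### comparison of the density at a point with the measure of a square -/

theorem inter_Icc_eq {c d l r : ℝ} (h1 : l ≤ c) (h2 : d ≤ r) :
    Set.Icc c d ∩ Set.Icc l r = Set.Icc c d :=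
  Set.inter_eq_left.2 (Set.Icc_subset_Icc h1 h2)

theorem square_lower (n : ℕ) {a b h : ℝ} (ha : 0 ≤ a) (hah : a + h ≤ 1) (hbh : 2 ≤ b - h)
    (hb : b ≤ 3) (hh : 0 ≤ h) :
    finDens n a b / ENNReal.ofReal (b - a) * ENNReal.ofReal (b - a - 2 * h) *
      (ENNReal.ofReal h * ENNReal.ofReal h) ≤
        gam n (Set.Icc a (a + h) ×ˢ Set.Icc (b - h) b) := by
  rw [gam_rect n measurableSet_Icc measurableSet_Icc, inter_Icc_eq hbh hb, inter_Icc_eq ha hah]
  set C := finDens n a b / ENNReal.ofReal (b - a) * ENNReal.ofReal (b - a - 2 * h) with hC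
  have hm : Measurable fun b' => ∫⁻ t in Set.Icc a (a + h), finDens n t b' :=
    (measurable_finDens n).lintegral_prod_left'
  have e1 : b - (b - h) = h := by ring
  have e2 : a + h - a = h := by ring
  calc C * (ENNReal.ofReal h * ENNReal.ofReal h) =
        ∫⁻ _b' in Set.Icc (b - h) b, ∫⁻ _t in Set.Icc a (a + h), C := by
        rw [lintegral_const, lintegral_const, Measure.restrict_apply MeasurableSet.univ,
          Measure.restrict_apply MeasurableSet.univ, Set.univ_inter, Set.univ_inter,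
          Real.volume_Icc, Real.volume_Icc, e1, e2, mul_assoc C]
    _ ≤ _ := by
        refine setLIntegral_mono hm fun b' hb' => ?_
        refine setLIntegral_mono (meas_fd_left n b') fun t ht => ?_
        have h1 : finDens n a b / ENNReal.ofReal (b - a) ≤
            finDens n t b' / ENNReal.ofReal (b' - t) :=
          finDens_mono n ht.1 (ht.2.trans hah) (hbh.trans hb'.1) hb'.2
        have h2 : ENNReal.ofReal (b - a - 2 * h) ≤ ENNReal.ofReal (b' - t) :=
          ENNReal.ofReal_le_ofReal (by linarith [hb'.1, ht.2])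
        have h3 : finDens n t b' = finDens n t b' / ENNReal.ofReal (b' - t) *
            ENNReal.ofReal (b' - t) := by
          rw [mul_comm]
          exact (ofReal_mul_div (by linarith [hb'.1, ht.2]) _).symm
        rw [h3]
        exact mul_le_mul' h1 h2

theorem square_upper (n : ℕ) {a b h : ℝ} (ha : 0 ≤ a - h) (hah : a ≤ 1) (hb2 : 2 ≤ b)
    (hb : b + h ≤ 3) (hh : 0 ≤ h) :
    gam n (Set.Icc (a - h) a ×ˢ Set.Icc b (b + h)) ≤
      finDens n a b / ENNReal.ofReal (b - a) * ENNReal.ofReal (b - a + 2 * h) *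
      (ENNReal.ofReal h * ENNReal.ofReal h) := by
  rw [gam_rect n measurableSet_Icc measurableSet_Icc, inter_Icc_eq hb2 hb, inter_Icc_eq ha hah]
  set C := finDens n a b / ENNReal.ofReal (b - a) * ENNReal.ofReal (b - a + 2 * h) with hC
  calc ∫⁻ b' in Set.Icc b (b + h), ∫⁻ t in Set.Icc (a - h) a, finDens n t b' ≤
        ∫⁻ _b' in Set.Icc b (b + h), ∫⁻ _t in Set.Icc (a - h) a, C := by
        refine setLIntegral_mono measurable_const fun b' hb' => ?_
        refine setLIntegral_mono measurable_const fun t ht => ?_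
        have h1 : finDens n t b' / ENNReal.ofReal (b' - t) ≤
            finDens n a b / ENNReal.ofReal (b - a) :=
          finDens_mono n ht.2 hah hb2 hb'.1
        have h2 : ENNReal.ofReal (b' - t) ≤ ENNReal.ofReal (b - a + 2 * h) :=
          ENNReal.ofReal_le_ofReal (by linarith [hb'.2, ht.1])
        have h3 : finDens n t b' = finDens n t b' / ENNReal.ofReal (b' - t) *
            ENNReal.ofReal (b' - t) := by
          rw [mul_comm]
          exact (ofReal_mul_div (by linarith [hb'.1, ht.2]) _).symm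
        rw [h3]
        exact mul_le_mul' h1 h2
    _ = C * (ENNReal.ofReal h * ENNReal.ofReal h) := by
        rw [lintegral_const, lintegral_const, Measure.restrict_apply MeasurableSet.univ,
          Measure.restrict_apply MeasurableSet.univ, Set.univ_inter, Set.univ_inter,
          Real.volume_Icc, Real.volume_Icc, mul_assoc]
        congr 3 <;> ring

/-! ### the density -/

section limit

variable {γ : Measure (ℝ × ℝ)} [IsProbabilityMeasure γ]

/-- the pointwise upper limit of the finite densities -/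
noncomputable def limDens (z : ℝ × ℝ) : ℝ≥0∞ := limsup (fun n => finDens n z.1 z.2) atTop

theorem limsup_le_square (hlim : Tendsto gamPM atTop (𝓝 (toPM γ)))
    (h1 : γ.map Prod.fst = volume.restrict (Set.Icc (0 : ℝ) 1))
    (h2 : γ.map Prod.snd = volume.restrict (Set.Icc (2 : ℝ) 3)) {a b h : ℝ} (ha : 0 ≤ a)
    (hah : a + h ≤ 1) (hbh : 2 ≤ b - h) (hb : b ≤ 3) (hh : 0 < h) :
    limsup (fun n => finDens n a b) atTop *
      (ENNReal.ofReal (b - a - 2 * h) / ENNReal.ofReal (b - a)) ≤
      γ (Set.Icc a (a + h) ×ˢ Set.Icc (b - h) b) / (ENNReal.ofReal h * ENNReal.ofReal h) := by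
  have hba : 0 < b - a := by linarith
  have hh' : ENNReal.ofReal h * ENNReal.ofReal h ≠ 0 :=
    mul_ne_zero (ENNReal.ofReal_pos.2 hh).ne' (ENNReal.ofReal_pos.2 hh).ne'
  have hh'' : ENNReal.ofReal h * ENNReal.ofReal h ≠ ∞ :=
    ENNReal.mul_ne_top ENNReal.ofReal_ne_top ENNReal.ofReal_ne_top
  rw [ENNReal.le_div_iff_mul_le (Or.inl hh') (Or.inl hh'')]
  set c : ℝ≥0∞ := ENNReal.ofReal (b - a - 2 * h) / ENNReal.ofReal (b - a) *
    (ENNReal.ofReal h * ENNReal.ofReal h) with hc
  have hctop : c ≠ ∞ := ENNReal.mul_ne_top (ENNReal.div_ne_top ENNReal.ofReal_ne_top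
    (ENNReal.ofReal_pos.2 hba).ne') hh''
  have h3 : ∀ n, finDens n a b * c ≤ gam n (Set.Icc a (a + h) ×ˢ Set.Icc (b - h) b) := by
    intro n
    refine le_trans (le_of_eq ?_) (square_lower n ha hah hbh hb hh.le)
    rw [hc, div_eq_mul_inv, div_eq_mul_inv]
    ring
  have h4 : limsup (fun n => finDens n a b * c) atTop ≤
      γ (Set.Icc a (a + h) ×ˢ Set.Icc (b - h) b) := by
    rw [← (rect_tendsto hlim h1 h2 a (a + h) (b - h) b).limsup_eq]
    exact limsup_le_limsup (Eventually.of_forall h3)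
  rw [ENNReal.limsup_mul_const_of_ne_top hctop] at h4
  refine le_trans (le_of_eq ?_) h4
  rw [hc]
  ring

theorem square_le_liminf (hlim : Tendsto gamPM atTop (𝓝 (toPM γ)))
    (h1 : γ.map Prod.fst = volume.restrict (Set.Icc (0 : ℝ) 1))
    (h2 : γ.map Prod.snd = volume.restrict (Set.Icc (2 : ℝ) 3)) {a b h : ℝ} (ha : 0 ≤ a - h)
    (hah : a ≤ 1) (hb2 : 2 ≤ b) (hb : b + h ≤ 3) (hh : 0 < h) :
    γ (Set.Icc (a - h) a ×ˢ Set.Icc b (b + h)) / (ENNReal.ofReal h * ENNReal.ofReal h) ≤
      liminf (fun n => finDens n a b) atTop *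
      (ENNReal.ofReal (b - a + 2 * h) / ENNReal.ofReal (b - a)) := by
  have hba : 0 < b - a := by linarith
  have hh' : ENNReal.ofReal h * ENNReal.ofReal h ≠ 0 :=
    mul_ne_zero (ENNReal.ofReal_pos.2 hh).ne' (ENNReal.ofReal_pos.2 hh).ne'
  have hh'' : ENNReal.ofReal h * ENNReal.ofReal h ≠ ∞ :=
    ENNReal.mul_ne_top ENNReal.ofReal_ne_top ENNReal.ofReal_ne_top
  rw [ENNReal.div_le_iff_le_mul (Or.inl hh') (Or.inl hh'')]
  set c : ℝ≥0∞ := ENNReal.ofReal (b - a + 2 * h) / ENNReal.ofReal (b - a) *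
    (ENNReal.ofReal h * ENNReal.ofReal h) with hc
  have hctop : c ≠ ∞ := ENNReal.mul_ne_top (ENNReal.div_ne_top ENNReal.ofReal_ne_top
    (ENNReal.ofReal_pos.2 hba).ne') hh''
  have h3 : ∀ n, gam n (Set.Icc (a - h) a ×ˢ Set.Icc b (b + h)) ≤ finDens n a b * c := by
    intro n
    refine (square_upper n ha hah hb2 hb hh.le).trans (le_of_eq ?_)
    rw [hc, div_eq_mul_inv, div_eq_mul_inv]
    ring
  have h4 : γ (Set.Icc (a - h) a ×ˢ Set.Icc b (b + h)) ≤
      liminf (fun n => finDens n a b * c) atTop := by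
    rw [← (rect_tendsto hlim h1 h2 (a - h) a b (b + h)).liminf_eq]
    exact liminf_le_liminf (Eventually.of_forall h3)
  rw [ENNReal.liminf_mul_const_of_ne_top hctop] at h4
  refine h4.trans (le_of_eq ?_)
  rw [hc]
  ring

end limit

end Pool.Agent.H27.OTC
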