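import Pool.Agent.H27.OTC.DensI

/-!
Almost everywhere convergence of the finite densities to the density of the limit law.
-/

set_option autoImplicit false

open MeasureTheory ProbabilityTheory Filter Metric
open scoped ENNReal NNReal Topology BoundedContinuousFunction

namespace Pool.Agent.H27.OTC

open Pool.Agent.H96.OT (Pl)

/-- the side of the square number `j` -/
noncomputable def side (j : ℕ) : ℝ := 1 / ((j : ℝ) + 1)

theorem side_pos (j : ℕ) : 0 < side j := by unfold side; positivity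

theorem side_tendsto : Tendsto side atTop (𝓝 0) := tendsto_one_div_add_atTop_nhds_zero_nat

theorem half_side : Tendsto (fun j => side j / 2) atTop (𝓝[>] 0) := by
  rw [tendsto_nhdsWithin_iff]
  refine ⟨?_, Eventually.of_forall fun j => ?_⟩
  · have := side_tendsto.div_const 2
    rwa [zero_div] at this
  · show 0 < side j / 2
    have := side_pos j
    positivity

theorem ball_eq (x y r : ℝ) : closedBall ((x, y) : ℝ × ℝ) r =
    Set.Icc (x - r) (x + r) ×ˢ Set.Icc (y - r) (y + r) := by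
  rw [← closedBall_prod_same, Real.closedBall_eq_Icc, Real.closedBall_eq_Icc]

theorem vol_square {c d c' d' h : ℝ} (h1 : d - c = h) (h2 : d' - c' = h) :
    volume (Set.Icc c d ×ˢ Set.Icc c' d') = ENNReal.ofReal h * ENNReal.ofReal h := by
  rw [Measure.volume_eq_prod, Measure.prod_prod, Real.volume_Icc, Real.volume_Icc, h1, h2]

theorem factor_tendsto {s : ℝ} (hs : 0 < s) (c : ℝ) : Tendsto (fun j =>
    ENNReal.ofReal (s + c * side j) / ENNReal.ofReal s) atTop (𝓝 1) := by
  have h1 : Tendsto (fun j => s + c * side j) atTop (𝓝 (s + c * 0)) :=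
    tendsto_const_nhds.add (side_tendsto.const_mul c)
  rw [mul_zero, add_zero] at h1
  have h2 := ENNReal.Tendsto.div_const (ENNReal.tendsto_ofReal h1) (b := ENNReal.ofReal s)
    (Or.inr (ENNReal.ofReal_pos.2 hs).ne')
  rwa [ENNReal.div_self (ENNReal.ofReal_pos.2 hs).ne' ENNReal.ofReal_ne_top] at h2

section limit

variable {γ : Measure (ℝ × ℝ)} [IsProbabilityMeasure γ]

theorem ae_square (γ : Measure (ℝ × ℝ)) [IsProbabilityMeasure γ] : ∀ᵐ z ∂(volume : Measure (ℝ × ℝ)),
    Tendsto (fun j => γ (Set.Icc z.1 (z.1 + side j) ×ˢ Set.Icc (z.2 - side j) z.2) /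
      (ENNReal.ofReal (side j) * ENNReal.ofReal (side j))) atTop (𝓝 (γ.rnDeriv volume z)) ∧
    Tendsto (fun j => γ (Set.Icc (z.1 - side j) z.1 ×ˢ Set.Icc z.2 (z.2 + side j)) /
      (ENNReal.ofReal (side j) * ENNReal.ofReal (side j))) atTop (𝓝 (γ.rnDeriv volume z)) := by
  filter_upwards [(IsUnifLocDoublingMeasure.vitaliFamily (volume : Measure (ℝ × ℝ))
    1).ae_tendsto_rnDeriv γ] with z hz
  constructor
  · have h1 := hz.comp (IsUnifLocDoublingMeasure.tendsto_closedBall_filterAt
      (volume : Measure (ℝ × ℝ)) (K := 1) (x := z) (l := atTop)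
      (fun j => ((z.1 + side j / 2, z.2 - side j / 2) : ℝ × ℝ)) (fun j => side j / 2) half_side
      (Eventually.of_forall fun j => by
        have := side_pos j
        rw [ball_eq, one_mul]
        exact ⟨⟨by linarith, by linarith⟩, ⟨by linarith, by linarith⟩⟩))
    refine h1.congr fun j => ?_
    have e : closedBall ((z.1 + side j / 2, z.2 - side j / 2) : ℝ × ℝ) (side j / 2) =
        Set.Icc z.1 (z.1 + side j) ×ˢ Set.Icc (z.2 - side j) z.2 := by
      rw [ball_eq]
      congr 2 <;> ring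
    show γ (closedBall ((z.1 + side j / 2, z.2 - side j / 2) : ℝ × ℝ) (side j / 2)) /
      volume (closedBall ((z.1 + side j / 2, z.2 - side j / 2) : ℝ × ℝ) (side j / 2)) = _
    rw [e, vol_square (h := side j) (by ring) (by ring)]
  · have h1 := hz.comp (IsUnifLocDoublingMeasure.tendsto_closedBall_filterAt
      (volume : Measure (ℝ × ℝ)) (K := 1) (x := z) (l := atTop)
      (fun j => ((z.1 - side j / 2, z.2 + side j / 2) : ℝ × ℝ)) (fun j => side j / 2) half_side
      (Eventually.of_forall fun j => by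
        have := side_pos j
        rw [ball_eq, one_mul]
        exact ⟨⟨by linarith, by linarith⟩, ⟨by linarith, by linarith⟩⟩))
    refine h1.congr fun j => ?_
    have e : closedBall ((z.1 - side j / 2, z.2 + side j / 2) : ℝ × ℝ) (side j / 2) =
        Set.Icc (z.1 - side j) z.1 ×ˢ Set.Icc z.2 (z.2 + side j) := by
      rw [ball_eq]
      congr 2 <;> ring
    show γ (closedBall ((z.1 - side j / 2, z.2 + side j / 2) : ℝ × ℝ) (side j / 2)) /
      volume (closedBall ((z.1 - side j / 2, z.2 + side j / 2) : ℝ × ℝ) (side j / 2)) = _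
    rw [e, vol_square (h := side j) (by ring) (by ring)]

theorem ae_lim (hlim : Tendsto gamPM atTop (𝓝 (toPM γ)))
    (h1 : γ.map Prod.fst = volume.restrict (Set.Icc (0 : ℝ) 1))
    (h2 : γ.map Prod.snd = volume.restrict (Set.Icc (2 : ℝ) 3)) :
    ∀ᵐ z ∂(volume : Measure (ℝ × ℝ)), z ∈ Set.Ioo (0 : ℝ) 1 ×ˢ Set.Ioo (2 : ℝ) 3 →
      Tendsto (fun n => finDens n z.1 z.2) atTop (𝓝 (γ.rnDeriv volume z)) := by
  filter_upwards [ae_square γ] with z hz hz'
  obtain ⟨⟨ha0, ha1⟩, ⟨hb2, hb3⟩⟩ := hz'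
  obtain ⟨hz1, hz2⟩ := hz
  have hba : 0 < z.2 - z.1 := by linarith
  -- eventually the squares are inside
  have hev : ∀ᶠ j in atTop, side j ≤ z.1 ∧ side j ≤ 1 - z.1 ∧ side j ≤ z.2 - 2 ∧
      side j ≤ 3 - z.2 := by
    have h3 : ∀ c : ℝ, 0 < c → ∀ᶠ j in atTop, side j ≤ c := fun c hc =>
      (side_tendsto.eventually (gt_mem_nhds hc)).mono fun j hj => hj.le
    filter_upwards [h3 _ ha0, h3 (1 - z.1) (by linarith), h3 (z.2 - 2) (by linarith),
      h3 (3 - z.2) (by linarith)] with j g1 g2 g3 g4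
    exact ⟨g1, g2, g3, g4⟩
  have hU : limsup (fun n => finDens n z.1 z.2) atTop ≤ γ.rnDeriv volume z := by
    have hl : Tendsto (fun j => limsup (fun n => finDens n z.1 z.2) atTop *
        (ENNReal.ofReal (z.2 - z.1 + (-2) * side j) / ENNReal.ofReal (z.2 - z.1))) atTop
        (𝓝 (limsup (fun n => finDens n z.1 z.2) atTop * 1)) :=
      ENNReal.Tendsto.const_mul (factor_tendsto hba (-2)) (Or.inl one_ne_zero)
    rw [mul_one] at hl
    refine le_of_tendsto_of_tendsto hl hz1 ?_
    filter_upwards [hev] with j hj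
    have h4 := limsup_le_square hlim h1 h2 (a := z.1) (b := z.2) (h := side j) ha0.le
      (by linarith [hj.2.1]) (by linarith [hj.2.2.1]) hb3.le (side_pos j)
    have e : z.2 - z.1 + (-2) * side j = z.2 - z.1 - 2 * side j := by ring
    rw [e]
    exact h4
  have hL : γ.rnDeriv volume z ≤ liminf (fun n => finDens n z.1 z.2) atTop := by
    have hl : Tendsto (fun j => liminf (fun n => finDens n z.1 z.2) atTop *
        (ENNReal.ofReal (z.2 - z.1 + 2 * side j) / ENNReal.ofReal (z.2 - z.1))) atTop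
        (𝓝 (liminf (fun n => finDens n z.1 z.2) atTop * 1)) :=
      ENNReal.Tendsto.const_mul (factor_tendsto hba 2) (Or.inl one_ne_zero)
    rw [mul_one] at hl
    refine le_of_tendsto_of_tendsto hz2 hl ?_
    filter_upwards [hev] with j hj
    exact square_le_liminf hlim h1 h2 (a := z.1) (b := z.2) (h := side j) (by linarith [hj.1])
      ha1.le hb2.le (by linarith [hj.2.2.2]) (side_pos j)
  exact tendsto_of_le_liminf_of_limsup_le hL hU

/-- almost every point of the box is an interior point -/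
theorem ae_interior : ∀ᵐ z ∂box, z ∈ Set.Ioo (0 : ℝ) 1 ×ˢ Set.Ioo (2 : ℝ) 3 := by
  have h1 : ∀ᵐ a ∂(volume.restrict (Set.Icc (0 : ℝ) 1)), a ∈ Set.Ioo (0 : ℝ) 1 := by
    rw [← Measure.restrict_congr_set (Ioo_ae_eq_Icc (μ := volume) (a := (0 : ℝ)) (b := 1))]
    exact ae_restrict_mem measurableSet_Ioo
  have h2 : ∀ᵐ a ∂(volume.restrict (Set.Icc (2 : ℝ) 3)), a ∈ Set.Ioo (2 : ℝ) 3 := by
    rw [← Measure.restrict_congr_set (Ioo_ae_eq_Icc (μ := volume) (a := (2 : ℝ)) (b := 3))]
    exact ae_restrict_mem measurableSet_Ioo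
  have h3 : ∀ᵐ z ∂box, z.1 ∈ Set.Ioo (0 : ℝ) 1 := by
    unfold box
    exact Measure.quasiMeasurePreserving_fst.ae h1
  have h4 : ∀ᵐ z ∂box, z.2 ∈ Set.Ioo (2 : ℝ) 3 := by
    unfold box
    exact Measure.quasiMeasurePreserving_snd.ae h2
  filter_upwards [h3, h4] with z h5 h6
  exact ⟨h5, h6⟩

theorem box_ac : box ≪ volume := by
  rw [box_eq]
  exact Measure.absolutelyContinuous_of_le Measure.restrict_le_self

theorem ae_lim_box (hlim : Tendsto gamPM atTop (𝓝 (toPM γ)))
    (h1 : γ.map Prod.fst = volume.restrict (Set.Icc (0 : ℝ) 1))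
    (h2 : γ.map Prod.snd = volume.restrict (Set.Icc (2 : ℝ) 3)) :
    ∀ᵐ z ∂box, Tendsto (fun n => finDens n z.1 z.2) atTop (𝓝 (limDens z)) ∧
      limDens z = γ.rnDeriv volume z := by
  filter_upwards [box_ac.ae_le (ae_lim hlim h1 h2), ae_interior] with z hz hz'
  have h3 := hz hz'
  have h4 : limDens z = γ.rnDeriv volume z := h3.limsup_eq
  exact ⟨h4 ▸ h3, h4⟩

/-- the limit law has the density `limDens` -/
theorem gamma_density (hlim : Tendsto gamPM atTop (𝓝 (toPM γ)))
    (h1 : γ.map Prod.fst = volume.restrict (Set.Icc (0 : ℝ) 1))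
    (h2 : γ.map Prod.snd = volume.restrict (Set.Icc (2 : ℝ) 3)) :
    γ = box.withDensity limDens := by
  have hac := gamma_ac hlim h1
  have h3 : box.withDensity limDens = box.withDensity (γ.rnDeriv volume) :=
    withDensity_congr_ae ((ae_lim_box hlim h1 h2).mono fun z hz => hz.2)
  have hB : MeasurableSet (Set.Icc (0 : ℝ) 1 ×ˢ Set.Icc (2 : ℝ) 3) :=
    measurableSet_Icc.prod measurableSet_Icc
  have h4 : γ.restrict (Set.Icc (0 : ℝ) 1 ×ˢ Set.Icc (2 : ℝ) 3) = γ := by
    refine Measure.restrict_eq_self_of_ae_mem ?_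
    have g1 : ∀ᵐ z ∂γ, z.1 ∈ Set.Icc (0 : ℝ) 1 := by
      have : ∀ᵐ a ∂(γ.map Prod.fst), a ∈ Set.Icc (0 : ℝ) 1 := by
        rw [h1]
        exact ae_restrict_mem measurableSet_Icc
      exact ae_of_ae_map measurable_fst.aemeasurable this
    have g2 : ∀ᵐ z ∂γ, z.2 ∈ Set.Icc (2 : ℝ) 3 := by
      have : ∀ᵐ a ∂(γ.map Prod.snd), a ∈ Set.Icc (2 : ℝ) 3 := by
        rw [h2]
        exact ae_restrict_mem measurableSet_Icc
      exact ae_of_ae_map measurable_snd.aemeasurable this
    filter_upwards [g1, g2] with z g3 g4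
    exact ⟨g3, g4⟩
  rw [h3, box_eq, ← restrict_withDensity hB, Measure.withDensity_rnDeriv_eq _ _ hac, h4]

end limit

/-! ### properties of the density -/

theorem limDens_mono {a a' b b' : ℝ} (h1 : a ≤ a') (h2 : a' ≤ 1) (h3 : 2 ≤ b') (h4 : b' ≤ b) :
    ENNReal.ofReal (b' - a') * limDens (a, b) ≤ ENNReal.ofReal (b - a) * limDens (a', b') := by
  unfold limDens
  rw [← ENNReal.limsup_const_mul_of_ne_top ENNReal.ofReal_ne_top,
    ← ENNReal.limsup_const_mul_of_ne_top ENNReal.ofReal_ne_top]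
  refine limsup_le_limsup (Eventually.of_forall fun n => ?_)
  have h5 := finDens_mono n h1 h2 h3 h4
  have hba : 0 < b - a := by linarith
  have hba' : 0 < b' - a' := by linarith
  have e1 := ofReal_mul_div hba (finDens n a b)
  have e2 := ofReal_mul_div hba' (finDens n a' b')
  show ENNReal.ofReal (b' - a') * finDens n a b ≤ ENNReal.ofReal (b - a) * finDens n a' b'
  calc ENNReal.ofReal (b' - a') * finDens n a b =
        ENNReal.ofReal (b' - a') * (ENNReal.ofReal (b - a) *
          (finDens n a b / ENNReal.ofReal (b - a))) := by rw [e1]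
    _ ≤ ENNReal.ofReal (b' - a') * (ENNReal.ofReal (b - a) *
          (finDens n a' b' / ENNReal.ofReal (b' - a'))) :=
        mul_le_mul_right (mul_le_mul_right h5 _) _
    _ = ENNReal.ofReal (b - a) * (ENNReal.ofReal (b' - a') *
          (finDens n a' b' / ENNReal.ofReal (b' - a'))) := by ring
    _ = ENNReal.ofReal (b - a) * finDens n a' b' := by rw [e2]

theorem limDens_symm (a b : ℝ) : limDens (3 - b, 3 - a) = limDens (a, b) := by
  unfold limDens
  simp only [finDens_symm]

end Pool.Agent.H27.OTC
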