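import Pool.Agent.H27.OTC.Rays

/-!
Job A-CUT: no ray crosses the height `0`.
-/

set_option autoImplicit false

namespace Pool.Agent.H27.OTC

variable {ι : Type} [Fintype ι]

omit [Fintype ι] in
theorem cross_far (S : Rays ι) {ε r : ℝ} (hε : 0 < ε) (hε1 : ε ≤ 1 / 1000)
    (hr : 0 < r) (hG : Gr S ε r) (i : ι) (hZ : r / 2 < |S.Z i|) : S.u i ≤ 0 ↔ S.v i ≤ 0 := by
  have hP := hG i
  rw [max_eq_right (by linarith)] at hP
  have ha0 := S.a0 i
  have ha1 := S.a1 i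
  have hb2 := S.b2 i
  have hb3 := S.b3 i
  have hZ0 : 0 < |S.Z i| := by linarith
  have hP2 : |S.P i| ≤ |S.Z i| / 500 := by nlinarith
  have hu := S.hu i
  have hv := S.hv i
  have h1 : |(3 / 2 - S.a i) * S.P i| ≤ |S.Z i| / 2 := by
    rw [abs_mul, abs_of_nonneg (by linarith : (0 : ℝ) ≤ 3 / 2 - S.a i)]
    nlinarith [abs_nonneg (S.P i)]
  have h2 : |(S.b i - 3 / 2) * S.P i| ≤ |S.Z i| / 2 := by
    rw [abs_mul, abs_of_nonneg (by linarith : (0 : ℝ) ≤ S.b i - 3 / 2)]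
    nlinarith [abs_nonneg (S.P i)]
  have h3 := abs_le.1 h1
  have h4 := abs_le.1 h2
  rcases lt_or_ge 0 (S.Z i) with h | h
  · rw [abs_of_pos h] at h3 h4
    constructor
    · intro h5; linarith [h3.2]
    · intro h5; linarith [h4.1]
  · rw [abs_of_nonpos h] at h3 h4 hZ0
    constructor
    · intro _; linarith [h4.2]
    · intro _; linarith [h3.1]

omit [Fintype ι] in
theorem cross_near (S : Rays ι) {ε r K g τ₁ : ℝ} (hε : 0 < ε) (hε1 : ε ≤ 1 / 1000)
    (hr : 0 < r) (hG : Gr S ε r) (hg : 0 < g) (hτ : 0 ≤ τ₁)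
    (hK : 3 * ε * r ≤ K) (hτg : τ₁ * (ε * r) < g)
    (hpu : ∀ i, |S.u i| ≤ K → 1 - τ₁ ≤ S.a i ∧ g ≤ |S.u i|)
    (hpv : ∀ i, |S.v i| ≤ K → S.b i ≤ 2 + τ₁ ∧ g ≤ |S.v i|) (i : ι)
    (hne : ¬ (S.u i ≤ 0 ↔ S.v i ≤ 0)) :
    g ≤ |S.u i| ∧ g ≤ |S.v i| ∧ |(S.Z i - S.P i / 2) - S.u i| < g ∧
      |(S.Z i + S.P i / 2) - S.v i| < g := by
  have hZ : |S.Z i| ≤ r / 2 := by
    by_contra h
    exact hne (cross_far S hε hε1 hr hG i (not_le.1 h))
  have hP := hG i
  rw [max_eq_left (by linarith)] at hP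
  have ha0 := S.a0 i
  have ha1 := S.a1 i
  have hb2 := S.b2 i
  have hb3 := S.b3 i
  have hu := S.hu i
  have hv := S.hv i
  have hvu : S.v i - S.u i = (S.b i - S.a i) * S.P i := by rw [hu, hv]; ring
  have hd : |S.v i - S.u i| ≤ K := by
    rw [hvu, abs_mul, abs_of_nonneg (by linarith : (0 : ℝ) ≤ S.b i - S.a i)]
    have h0 := abs_nonneg (S.P i)
    have hεr : 0 < ε * r := mul_pos hε hr
    nlinarith
  have hd' := abs_le.1 hd
  have huv : |S.u i| ≤ K ∧ |S.v i| ≤ K := by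
    by_cases h1 : S.u i ≤ 0
    · have h2 : 0 < S.v i := by
        by_contra h
        exact hne ⟨fun _ => not_lt.1 h, fun _ => h1⟩
      rw [abs_of_nonpos h1, abs_of_pos h2]
      constructor <;> linarith [hd'.2]
    · have h1' := not_le.1 h1
      have h2 : S.v i ≤ 0 := by
        by_contra h
        exact hne ⟨fun h' => absurd h' h1, fun h' => absurd h' h⟩
      rw [abs_of_pos h1', abs_of_nonpos h2]
      constructor <;> linarith [hd'.1]
  obtain ⟨hpa, hga⟩ := hpu i huv.1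
  obtain ⟨hpb, hgb⟩ := hpv i huv.2
  refine ⟨hga, hgb, ?_, ?_⟩
  · have h1 : (S.Z i - S.P i / 2) - S.u i = (1 - S.a i) * S.P i := by rw [hu]; ring
    rw [h1, abs_mul, abs_of_nonneg (by linarith : (0 : ℝ) ≤ 1 - S.a i)]
    calc (1 - S.a i) * |S.P i| ≤ τ₁ * (ε * r) :=
          mul_le_mul (by linarith) hP (abs_nonneg _) hτ
      _ < g := hτg
  · have h1 : (S.Z i + S.P i / 2) - S.v i = -((S.b i - 2) * S.P i) := by rw [hv]; ring
    rw [h1, abs_neg, abs_mul, abs_of_nonneg (by linarith : (0 : ℝ) ≤ S.b i - 2)]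
    calc (S.b i - 2) * |S.P i| ≤ τ₁ * (ε * r) :=
          mul_le_mul (by linarith) hP (abs_nonneg _) hτ
      _ < g := hτg

theorem no_cross (S : Rays ι) (hS : S.Opt) {ε r K g τ₁ : ℝ} (hε : 0 < ε) (hε1 : ε ≤ 1 / 1000)
    (hr : 0 < r) (hG : Gr S ε r) (hB : Bal S.u S.v) (hg : 0 < g) (hτ : 0 ≤ τ₁)
    (hK : 3 * ε * r ≤ K) (hτg : τ₁ * (ε * r) < g)
    (hpu : ∀ i, |S.u i| ≤ K → 1 - τ₁ ≤ S.a i ∧ g ≤ |S.u i|)
    (hpv : ∀ i, |S.v i| ≤ K → S.b i ≤ 2 + τ₁ ∧ g ≤ |S.v i|) (i : ι) :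
    S.u i ≤ 0 ↔ S.v i ≤ 0 := by
  classical
  -- two crossings in opposite directions are impossible
  have key : ∀ i j, S.u i ≤ 0 → 0 < S.v i → 0 < S.u j → S.v j ≤ 0 → False := by
    intro i j h1 h2 h3 h4
    obtain ⟨a1, a2, a3, a4⟩ := cross_near S hε hε1 hr hG hg hτ hK hτg hpu hpv i
      (fun h => absurd (h.1 h1) (not_le.2 h2))
    obtain ⟨b1, b2, b3, b4⟩ := cross_near S hε hε1 hr hG hg hτ hK hτg hpu hpv j
      (fun h => absurd (h.2 h4) (not_le.2 h3))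
    rw [abs_of_nonpos h1] at a1
    rw [abs_of_pos h2] at a2
    rw [abs_of_pos h3] at b1
    rw [abs_of_nonpos h4] at b2
    have a3' := abs_lt.1 a3
    have a4' := abs_lt.1 a4
    have b3' := abs_lt.1 b3
    have b4' := abs_lt.1 b4
    rcases le_total (S.Z i) (S.Z j) with h | h
    · have := (hS.nc i j h).2
      linarith [a4'.1, b4'.2]
    · have := (hS.nc j i h).1
      linarith [a3'.2, b3'.1]
  unfold Bal at hB
  by_contra hne
  by_cases h1 : S.u i ≤ 0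
  · have h2 : 0 < S.v i := by
      by_contra h
      exact hne ⟨fun _ => not_lt.1 h, fun _ => h1⟩
    have hsub : (Finset.univ.filter fun i => S.v i ≤ 0) ⊆ Finset.univ.filter fun i => S.u i ≤ 0 := by
      intro j hj
      rw [Finset.mem_filter] at hj ⊢
      refine ⟨hj.1, ?_⟩
      by_contra h3
      exact key i j h1 h2 (not_le.1 h3) hj.2
    have heq := Finset.eq_of_subset_of_card_le hsub hB.le
    have hi : i ∈ Finset.univ.filter fun i => S.u i ≤ 0 :=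
      Finset.mem_filter.2 ⟨Finset.mem_univ _, h1⟩
    rw [← heq, Finset.mem_filter] at hi
    exact absurd hi.2 (not_le.2 h2)
  · have h1' := not_le.1 h1
    have h2 : S.v i ≤ 0 := by
      by_contra h
      exact hne ⟨fun h' => absurd h' h1, fun h' => absurd h' h⟩
    have hsub : (Finset.univ.filter fun i => S.u i ≤ 0) ⊆ Finset.univ.filter fun i => S.v i ≤ 0 := by
      intro j hj
      rw [Finset.mem_filter] at hj ⊢
      refine ⟨hj.1, ?_⟩
      by_contra h3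
      exact key j i hj.2 (not_le.1 h3) h1' h2
    have heq := Finset.eq_of_subset_of_card_le hsub hB.ge
    have hi : i ∈ Finset.univ.filter fun i => S.v i ≤ 0 :=
      Finset.mem_filter.2 ⟨Finset.mem_univ _, h2⟩
    rw [← heq, Finset.mem_filter] at hi
    exact absurd hi.2 h1

end Pool.Agent.H27.OTC
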