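import Pool.Agent.H27.OTC.Rays

/-!
Job A-LOW: a ray of slope at least `q1` forces energy near it.
-/

set_option autoImplicit false

namespace Pool.Agent.H27.OTC

variable {ι : Type} [Fintype ι]

/-- counting part -/
private theorem energy_of_box (S : Rays ι) {q0 q1 τ e s t : ℝ} (i₀ : ι) (hq1 : 0 < q1)
    (hτ : 0 < τ) (he : 40 * e ≤ τ * q1) (hst : 3 / 32 * q1 ≤ t - s)
    (hcard : τ * (t - s) - e ≤
      ((Finset.univ.filter (fun i => 1 - τ ≤ S.a i ∧ s < S.u i ∧ S.u i ≤ t)).card : ℝ))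
    (hk : ∀ k, 1 - τ ≤ S.a k → s < S.u k → S.u k ≤ t →
      (q1 / 2) ^ 2 ≤ S.P k ^ 2 ∧ |S.Z k - S.Z i₀| ≤ q0) :
    τ * q1 ^ 3 / 64 ≤
      ∑ i ∈ Finset.univ.filter (fun i => |S.Z i - S.Z i₀| ≤ q0), S.P i ^ 2 := by
  classical
  set B := Finset.univ.filter (fun i => 1 - τ ≤ S.a i ∧ s < S.u i ∧ S.u i ≤ t) with hB
  have h1 : τ * q1 / 16 ≤ (B.card : ℝ) := by
    have : τ * (3 / 32 * q1) ≤ τ * (t - s) := mul_le_mul_of_nonneg_left hst hτ.le
    have h0 : 0 < τ * q1 := mul_pos hτ hq1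
    nlinarith
  have h2 : (B.card : ℝ) * (q1 / 2) ^ 2 ≤ ∑ i ∈ B, S.P i ^ 2 := by
    have : ∑ _i ∈ B, (q1 / 2) ^ 2 ≤ ∑ i ∈ B, S.P i ^ 2 := by
      refine Finset.sum_le_sum fun i hi => ?_
      obtain ⟨_, ha, hs, ht⟩ := Finset.mem_filter.1 hi
      exact (hk i ha hs ht).1
    simpa [Finset.sum_const, nsmul_eq_mul] using this
  have h3 : ∑ i ∈ B, S.P i ^ 2 ≤
      ∑ i ∈ Finset.univ.filter (fun i => |S.Z i - S.Z i₀| ≤ q0), S.P i ^ 2 := by
    refine Finset.sum_le_sum_of_subset_of_nonneg ?_ fun _ _ _ => sq_nonneg _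
    intro i hi
    obtain ⟨_, ha, hs, ht⟩ := Finset.mem_filter.1 hi
    exact Finset.mem_filter.2 ⟨Finset.mem_univ _, (hk i ha hs ht).2⟩
  have h4 : τ * q1 / 16 * (q1 / 2) ^ 2 ≤ (B.card : ℝ) * (q1 / 2) ^ 2 :=
    mul_le_mul_of_nonneg_right h1 (sq_nonneg _)
  have h5 : τ * q1 ^ 3 / 64 = τ * q1 / 16 * (q1 / 2) ^ 2 := by ring
  rw [h5]
  exact h4.trans (h2.trans h3)

theorem energy_lower (S : Rays ι) (hS : S.Opt) {r q0 q1 τ e : ℝ} (hr : 0 < r)
    (hq0r : q0 ≤ r / 100) (hq1 : 0 < q1) (hq10 : q1 ≤ q0) (hτ : 0 < τ) (hτ1 : τ ≤ 1)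
    (hτq : 96 * (τ * q0) ≤ q1) (he : 40 * e ≤ τ * q1)
    (hnear : ∀ i, |S.Z i| ≤ 2 * r → |S.P i| ≤ q0)
    (hfar : ∀ i, 2 * r < |S.Z i| → 19 / 10 * r ≤ |S.u i|)
    (hE : EdgeLB S.a S.u τ (2 * r) e) (i₀ : ι) (hZ : |S.Z i₀| ≤ 3 / 2 * r)
    (hP : q1 ≤ |S.P i₀|) :
    τ * q1 ^ 3 / 64 ≤
      ∑ i ∈ Finset.univ.filter (fun i => |S.Z i - S.Z i₀| ≤ q0), S.P i ^ 2 := by
  have hP0 : |S.P i₀| ≤ q0 := hnear i₀ (by linarith)
  obtain ⟨hP0a, hP0b⟩ := abs_le.1 hP0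
  obtain ⟨hZa, hZb⟩ := abs_le.1 hZ
  have hq0 : 0 < q0 := hq1.trans_le hq10
  have hτq0 : 0 < τ * q0 := mul_pos hτ hq0
  -- every ray starting in the box is close to its trace at abscissa 1
  have hbox : ∀ k, 1 - τ ≤ S.a k → |S.u k| < 19 / 10 * r →
      |S.P k| ≤ q0 ∧ |(S.Z k - S.P k / 2) - S.u k| ≤ τ * q0 := by
    intro k hak huk
    have hZk : |S.Z k| ≤ 2 * r := by
      by_contra hcon
      push Not at hcon
      have := hfar k hcon
      linarith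
    have hPk := hnear k hZk
    refine ⟨hPk, ?_⟩
    have e1 : (S.Z k - S.P k / 2) - S.u k = (1 - S.a k) * S.P k := by
      rw [S.hu k]; ring
    rw [e1, abs_mul]
    have h1 : |1 - S.a k| ≤ τ := by
      rw [abs_le]; constructor
      · have := S.a1 k; linarith
      · linarith
    exact mul_le_mul h1 hPk (abs_nonneg _) hτ.le
  rcases le_or_gt 0 (S.P i₀) with hsgn | hsgn
  · rw [abs_of_nonneg hsgn] at hP
    refine energy_of_box S (s := S.Z i₀ - S.P i₀ / 2 + 3 * (τ * q0))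
      (t := S.Z i₀ - S.P i₀ / 2 + q1 / 8) i₀ hq1 hτ he (by linarith) ?_ ?_
    · refine hE _ _ ?_ ?_ ?_
      · linarith
      · linarith
      · linarith
    · intro k hak hsk htk
      have huk : |S.u k| < 19 / 10 * r := by
        rw [abs_lt]; constructor <;> linarith
      obtain ⟨hPk, hVk⟩ := hbox k hak huk
      obtain ⟨hPka, hPkb⟩ := abs_le.1 hPk
      obtain ⟨hVka, hVkb⟩ := abs_le.1 hVk
      have hZlt : S.Z i₀ < S.Z k := by
        by_contra hcon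
        push Not at hcon
        have := (hS.nc k i₀ hcon).1
        linarith
      have h2 := (hS.nc i₀ k hZlt.le).2
      have hPk2 : q1 / 2 ≤ S.P k := by linarith
      constructor
      · exact pow_le_pow_left₀ (by linarith) hPk2 2
      · rw [abs_le]; constructor <;> linarith
  · rw [abs_of_neg hsgn] at hP
    refine energy_of_box S (s := S.Z i₀ - S.P i₀ / 2 - q1 / 8)
      (t := S.Z i₀ - S.P i₀ / 2 - 3 * (τ * q0)) i₀ hq1 hτ he (by linarith) ?_ ?_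
    · refine hE _ _ ?_ ?_ ?_
      · linarith
      · linarith
      · linarith
    · intro k hak hsk htk
      have huk : |S.u k| < 19 / 10 * r := by
        rw [abs_lt]; constructor <;> linarith
      obtain ⟨hPk, hVk⟩ := hbox k hak huk
      obtain ⟨hPka, hPkb⟩ := abs_le.1 hPk
      obtain ⟨hVka, hVkb⟩ := abs_le.1 hVk
      have hZlt : S.Z k < S.Z i₀ := by
        by_contra hcon
        push Not at hcon
        have := (hS.nc i₀ k hcon).1
        linarith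
      have h2 := (hS.nc k i₀ hZlt.le).2
      have hPk2 : S.P k ≤ -(q1 / 2) := by linarith
      constructor
      · have : (q1 / 2) ^ 2 ≤ (-S.P k) ^ 2 := pow_le_pow_left₀ (by linarith) (by linarith) 2
        simpa using this
      · rw [abs_le]; constructor <;> linarith

end Pool.Agent.H27.OTC
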