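import Pool.Agent.H27.OTC.DetStep
import Pool.Agent.H27.OTC.DetCut

/-!
The deterministic criterion for a cut line.
-/

set_option autoImplicit false

namespace Pool.Agent.H27.OTC

variable {ι : Type} [Fintype ι]

theorem cut_of_regular {β τ ε δ : ℝ} (hc : Consts β τ ε δ) (S : Rays ι) (hS : S.Opt)
    (hB : Bal S.u S.v) {r K g τ₁ : ℝ} (hr : 0 < r) (J : ℕ)
    (hSu : ∀ j ≤ J, Slab S.u (2 * (2 ^ j * r)) (δ * (2 ^ j * r)))
    (hSv : ∀ j ≤ J, Slab S.v (2 * (2 ^ j * r)) (δ * (2 ^ j * r)))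
    (hE : ∀ j ≤ J, EdgeLB S.a S.u τ (2 * (2 ^ j * r)) (δ * (2 ^ j * r)))
    (htop : Gr S ε (2 * (2 ^ J * r))) (hg : 0 < g) (hτ : 0 ≤ τ₁)
    (hK : 3 * ε * r ≤ K) (hτg : τ₁ * (ε * r) < g)
    (hpu : ∀ i, |S.u i| ≤ K → 1 - τ₁ ≤ S.a i ∧ g ≤ |S.u i|)
    (hpv : ∀ i, |S.v i| ≤ K → S.b i ≤ 2 + τ₁ ∧ g ≤ |S.v i|) (i : ι) :
    S.u i ≤ 0 ↔ S.v i ≤ 0 := by
  have key : ∀ m : ℕ, m ≤ J → Gr S ε (2 ^ (J - m) * r) := by
    intro m
    induction m with
    | zero =>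
      intro _
      apply gr_step hc S hS (by positivity) (hSu _ (by omega)) (hSv _ (by omega))
        (hE _ (by omega)) hB
      simpa using htop
    | succ m ih =>
      intro hm
      apply gr_step hc S hS (by positivity) (hSu _ (by omega)) (hSv _ (by omega))
        (hE _ (by omega)) hB
      have h1 := ih (by omega)
      have e : (2 : ℝ) ^ (J - m) = 2 * 2 ^ (J - (m + 1)) := by
        rw [← pow_succ']
        congr 1
        omega
      rw [e, mul_assoc] at h1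
      exact h1
  have h0 := key J le_rfl
  simp only [Nat.sub_self, pow_zero, one_mul] at h0
  exact no_cross S hS hc.εpos hc.ε1 hr h0 hB hg hτ hK hτg hpu hpv i

end Pool.Agent.H27.OTC
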