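import Pool.Agent.H27.OTC.DetSort1

/-!
Job A-SORT: the matching of the heights in increasing order.
-/

set_option autoImplicit false

namespace Pool.Agent.H27.OTC

variable {ι : Type} [Fintype ι]

/-- The permutation of a finite set `A` which matches the `u`-heights and the `v`-heights in
increasing order. -/
theorem exists_sorted (u v : ι → ℝ) (A : Finset ι) :
    ∃ τ : Equiv.Perm ι, (∀ i, i ∉ A → τ i = i) ∧ (∀ i, i ∈ A → τ i ∈ A) ∧
      ∀ i ∈ A, ∀ x, (x < v (τ i) →
          (A.filter (fun j => v j ≤ x)).card < (A.filter (fun j => u j ≤ u i)).card) ∧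
        (x < u i →
          (A.filter (fun j => u j ≤ x)).card < (A.filter (fun j => v j ≤ v (τ i))).card) :=
  exists_sorted' u v A

/-- The projection of `x` to `[lo, hi]`. -/
private theorem pr_facts {lo hi θ x : ℝ} (hlh : lo ≤ hi) (h1 : lo - 2 * θ < x)
    (h2 : x ≤ hi + 2 * θ) (hθ : 0 < θ) :
    lo ≤ max lo (min hi x) ∧ max lo (min hi x) ≤ hi ∧ |x - max lo (min hi x)| ≤ 2 * θ ∧
      (max lo (min hi x) < hi → x ≤ max lo (min hi x)) ∧
      (lo < max lo (min hi x) → max lo (min hi x) ≤ x) ∧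
      (lo < x → x ≤ hi → max lo (min hi x) = x) := by
  rcases le_total hi x with h | h
  · rw [min_eq_left h, max_eq_right hlh]
    refine ⟨hlh, le_rfl, ?_, fun h' => absurd h' (lt_irrefl _), fun _ => h, fun _ h' => le_antisymm h h'⟩
    rw [abs_le]; constructor <;> linarith
  · rw [min_eq_right h]
    rcases le_total lo x with h' | h'
    · rw [max_eq_right h']
      refine ⟨h', h, ?_, fun _ => le_rfl, fun _ => le_rfl, fun _ _ => rfl⟩
      simp; linarith
    · rw [max_eq_left h']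
      refine ⟨le_rfl, hlh, ?_, fun _ => h', fun h'' => absurd h'' (lt_irrefl _),
        fun h'' _ => absurd h'' (not_lt.mpr h')⟩
      rw [abs_le]; constructor <;> linarith

/-- number of heights in `(s,t]` as difference of cumulative counts -/
private theorem card_le_add (w : ι → ℝ) {s t : ℝ} (hst : s ≤ t) (B : Finset ι) :
    ((B.filter (fun i => w i ≤ t)).card : ℝ) =
      ((B.filter (fun i => w i ≤ s)).card : ℝ) +
        ((B.filter (fun i => s < w i ∧ w i ≤ t)).card : ℝ) := by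
  classical
  rw [← Nat.cast_add]
  congr 1
  rw [← Finset.card_union_of_disjoint]
  · congr 1
    ext i
    simp only [Finset.mem_filter, Finset.mem_union]
    constructor
    · rintro ⟨h1, h2⟩
      rcases le_or_gt (w i) s with h | h
      · exact Or.inl ⟨h1, h⟩
      · exact Or.inr ⟨h1, h, h2⟩
    · rintro (⟨h1, h2⟩ | ⟨h1, h2, h3⟩)
      · exact ⟨h1, h2.trans hst⟩
      · exact ⟨h1, h3⟩
  · rw [Finset.disjoint_filter]
    intro i _ h1 h2
    exact absurd h1 (not_le.mpr h2.1)

/-- cumulative balance at all levels -/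
private theorem cum_balance (u v : ι → ℝ) {r δ lo hi : ℝ}
    (hlo2 : -(2 * r) ≤ lo) (hhi2 : hi ≤ 2 * r) (hSu : Slab u (2 * r) (δ * r))
    (hSv : Slab v (2 * r) (δ * r)) (hB : Bal u v) (hr : 0 < r)
    {h : ℝ} (h1 : lo ≤ h) (h2 : h ≤ hi) :
    |((Finset.univ.filter (fun i => u i ≤ h)).card : ℝ) -
      ((Finset.univ.filter (fun i => v i ≤ h)).card : ℝ)| ≤ 2 * (δ * r) := by
  have hB' : ((Finset.univ.filter (fun i => u i ≤ 0)).card : ℝ) =
      ((Finset.univ.filter (fun i => v i ≤ 0)).card : ℝ) := by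
    exact_mod_cast hB
  rcases le_total 0 h with h0 | h0
  · have e1 := card_le_add u h0 Finset.univ
    have e2 := card_le_add v h0 Finset.univ
    have s1 := hSu 0 h (by linarith) h0 (by linarith)
    have s2 := hSv 0 h (by linarith) h0 (by linarith)
    unfold cnt at s1 s2
    rw [abs_le] at s1 s2 ⊢
    constructor <;> linarith [s1.1, s1.2, s2.1, s2.2]
  · have e1 := card_le_add u h0 Finset.univ
    have e2 := card_le_add v h0 Finset.univ
    have s1 := hSu h 0 (by linarith) h0 (by linarith)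
    have s2 := hSv h 0 (by linarith) h0 (by linarith)
    unfold cnt at s1 s2
    rw [abs_le] at s1 s2 ⊢
    constructor <;> linarith [s1.1, s1.2, s2.1, s2.2]

/-- splitting a count over `A` and its complement -/
private theorem card_split [DecidableEq ι] (w : ι → ℝ) (A : Finset ι) (h : ℝ) :
    ((Finset.univ.filter (fun i => w i ≤ h)).card : ℝ) =
      ((A.filter (fun i => w i ≤ h)).card : ℝ) +
        ((Finset.univ.filter (fun i => i ∉ A ∧ w i ≤ h)).card : ℝ) := by
  classical
  rw [← Nat.cast_add]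
  congr 1
  rw [← Finset.card_union_of_disjoint]
  · congr 1
    ext i
    simp only [Finset.mem_filter, Finset.mem_union, Finset.mem_univ, true_and]
    tauto
  · rw [Finset.disjoint_left]
    intro i h1 h2
    simp only [Finset.mem_filter, Finset.mem_univ, true_and] at h1 h2
    exact h2.1 h1.1

private theorem close_aux (u v : ι → ℝ) {r δ lo hi : ℝ} (hr : 0 < r)
    (hlh : lo ≤ hi) (hlo2 : -(2 * r) ≤ lo) (hhi2 : hi ≤ 2 * r)
    (hSv : Slab v (2 * r) (δ * r)) (A : Finset ι)
    (hAc : ∀ i, i ∉ A → hi < v i ∨ v i ≤ lo)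
    (hF : ∀ h, lo ≤ h → h ≤ hi → ((A.filter (fun i => u i ≤ h)).card : ℝ) -
      ((A.filter (fun i => v i ≤ h)).card : ℝ) ≤ 2 * (δ * r))
    {x x' y' : ℝ} (hx1 : lo ≤ x') (hx2 : x' < y') (hy2 : y' ≤ hi) (hxx : x ≤ x')
    (hs : ∀ h, h < y' → (A.filter (fun j => v j ≤ h)).card < (A.filter (fun j => u j ≤ x)).card) :
    y' - x' ≤ 3 * (δ * r) := by
  suffices H : y' ≤ x' + 3 * (δ * r) by linarith
  refine le_of_forall_lt (fun h hh => ?_)
  rcases lt_or_ge h x' with hx | hx
  · -- use a level between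
    have h0 := hs x' hx2
    have h1 : (A.filter (fun j => u j ≤ x)).card ≤ (A.filter (fun j => u j ≤ x')).card :=
      Finset.card_le_card (fun i hi' => by
        simp only [Finset.mem_filter] at hi' ⊢
        exact ⟨hi'.1, hi'.2.trans hxx⟩)
    have h2 := hF x' hx1 (hx2.le.trans hy2)
    have h3 : ((A.filter (fun j => v j ≤ x')).card : ℝ) + 1 ≤
        ((A.filter (fun j => u j ≤ x')).card : ℝ) := by
      exact_mod_cast Nat.succ_le_of_lt (h0.trans_le h1)
    linarith
  · have h0 := hs h hh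
    have h1 : (A.filter (fun j => u j ≤ x)).card ≤ (A.filter (fun j => u j ≤ x')).card :=
      Finset.card_le_card (fun i hi' => by
        simp only [Finset.mem_filter] at hi' ⊢
        exact ⟨hi'.1, hi'.2.trans hxx⟩)
    have h2 := hF x' hx1 (hx2.le.trans hy2)
    have h3 : ((A.filter (fun j => v j ≤ h)).card : ℝ) + 1 ≤
        ((A.filter (fun j => u j ≤ x')).card : ℝ) := by
      exact_mod_cast Nat.succ_le_of_lt (h0.trans_le h1)
    have h4 := card_le_add v hx A
    have h5 : (A.filter (fun i => x' < v i ∧ v i ≤ h)) =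
        (Finset.univ.filter (fun i => x' < v i ∧ v i ≤ h)) := by
      ext i
      simp only [Finset.mem_filter, Finset.mem_univ, true_and]
      constructor
      · exact fun h' => h'.2
      · intro h'
        refine ⟨?_, h'⟩
        by_contra hiA
        rcases hAc i hiA with h6 | h6
        · linarith [h'.2]
        · linarith [h'.1]
    rw [h5] at h4
    have h6 := hSv x' h (by linarith) hx (by linarith)
    unfold cnt at h6
    rw [abs_le] at h6
    linarith [h6.1]

theorem sorted_matching (u v : ι → ℝ) {r δ lo hi θ : ℝ} (hr : 0 < r) (hδ : 0 < δ) (hδ1 : δ ≤ 1)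
    (hlo : lo ≤ 0) (hhi : 0 ≤ hi) (hθ : 0 < θ) (hlo2 : -(2 * r) ≤ lo - 2 * θ)
    (hhi2 : hi + 2 * θ ≤ 2 * r) (hδθ : δ * r ≤ θ) (hSu : Slab u (2 * r) (δ * r))
    (hSv : Slab v (2 * r) (δ * r)) (hB : Bal u v) (A : Finset ι)
    (hA : ∀ i ∈ A, (lo - 2 * θ < u i ∧ u i ≤ hi + 2 * θ) ∧
      (lo - 2 * θ < v i ∧ v i ≤ hi + 2 * θ))
    (hAc : ∀ i, i ∉ A → (hi < u i ∧ hi < v i) ∨ (u i ≤ lo ∧ v i ≤ lo)) :
    ∃ τ : Equiv.Perm ι, (∀ i, i ∉ A → τ i = i) ∧
      ∑ i ∈ A, (v (τ i) - u i) ^ 2 ≤ 45 * δ ^ 2 * r ^ 3 + 588 * θ ^ 3 := by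
  classical
  obtain ⟨τ, hτ1, hτ2, hτ3⟩ := exists_sorted u v A
  refine ⟨τ, hτ1, ?_⟩
  have hlh : lo ≤ hi := hlo.trans hhi
  have hδr : 0 < δ * r := mul_pos hδ hr
  -- balance on A
  have hF : ∀ h, lo ≤ h → h ≤ hi → |((A.filter (fun i => u i ≤ h)).card : ℝ) -
      ((A.filter (fun i => v i ≤ h)).card : ℝ)| ≤ 2 * (δ * r) := by
    intro h h1 h2
    have hb := cum_balance u v (lo := lo) (hi := hi) (by linarith) (by linarith) hSu hSv hB hr h1 h2
    have e1 := card_split u A h
    have e2 := card_split v A h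
    have e3 : (Finset.univ.filter (fun i => i ∉ A ∧ u i ≤ h)) =
        (Finset.univ.filter (fun i => i ∉ A ∧ v i ≤ h)) := by
      ext i
      simp only [Finset.mem_filter, Finset.mem_univ, true_and]
      constructor
      · rintro ⟨h3, h4⟩
        refine ⟨h3, ?_⟩
        rcases hAc i h3 with ⟨h5, h6⟩ | ⟨h5, h6⟩
        · linarith
        · linarith
      · rintro ⟨h3, h4⟩
        refine ⟨h3, ?_⟩
        rcases hAc i h3 with ⟨h5, h6⟩ | ⟨h5, h6⟩
        · linarith
        · linarith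
    rw [e1, e2, e3] at hb
    convert hb using 2
    ring
  -- closeness of projections
  have hclose : ∀ i ∈ A, |max lo (min hi (v (τ i))) - max lo (min hi (u i))| ≤ 3 * (δ * r) := by
    intro i hi'
    obtain ⟨⟨hu1, hu2⟩, -⟩ := hA i hi'
    obtain ⟨-, ⟨hv1, hv2⟩⟩ := hA (τ i) (hτ2 i hi')
    obtain ⟨x1, x2, x3, x4, x5, x6⟩ := pr_facts hlh hu1 hu2 hθ
    obtain ⟨y1, y2, y3, y4, y5, y6⟩ := pr_facts hlh hv1 hv2 hθ
    set x' := max lo (min hi (u i)) with hx'
    set y' := max lo (min hi (v (τ i))) with hy'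
    rw [abs_le]
    constructor
    · rcases le_or_gt x' y' with h | h
      · linarith
      · have := close_aux v u hr hlh (by linarith) (by linarith) hSu A
          (fun j hj => (hAc j hj).imp (fun h => h.1) (fun h => h.1))
          (fun h h1 h2 => by
            have := (abs_le.mp (hF h h1 h2)).1
            linarith) (x := v (τ i)) (x' := y') (y' := x') y1 h x2 (y4 (lt_of_lt_of_le h x2))
          (fun h' hh' => (hτ3 i hi' h').2 (lt_of_lt_of_le hh' (x5 (lt_of_le_of_lt y1 h))))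
        linarith
    · rcases le_or_gt y' x' with h | h
      · linarith
      · exact close_aux u v hr hlh (by linarith) (by linarith) hSv A
          (fun j hj => (hAc j hj).imp (fun h => h.2) (fun h => h.2))
          (fun h h1 h2 => (abs_le.mp (hF h h1 h2)).2) (x := u i) (x' := x') (y' := y') x1 h y2
          (x4 (lt_of_lt_of_le h y2))
          (fun h' hh' => (hτ3 i hi' h').1 (lt_of_lt_of_le hh' (y5 (lt_of_le_of_lt x1 h))))
  -- the bad indices
  set bad : ι → Prop := fun i => ¬ (lo < u i ∧ u i ≤ hi) ∨ ¬ (lo < v (τ i) ∧ v (τ i) ≤ hi) with hbad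
  have hterm : ∀ i ∈ A, (v (τ i) - u i) ^ 2 ≤
      9 * δ ^ 2 * r ^ 2 + (if bad i then 49 * θ ^ 2 else 0) := by
    intro i hi'
    obtain ⟨⟨hu1, hu2⟩, -⟩ := hA i hi'
    obtain ⟨-, ⟨hv1, hv2⟩⟩ := hA (τ i) (hτ2 i hi')
    obtain ⟨x1, x2, x3, x4, x5, x6⟩ := pr_facts hlh hu1 hu2 hθ
    obtain ⟨y1, y2, y3, y4, y5, y6⟩ := pr_facts hlh hv1 hv2 hθ
    have hc := hclose i hi'
    split_ifs with hb
    · have : |v (τ i) - u i| ≤ 7 * θ := by
        rw [abs_le] at *
        constructor <;> linarith [x3.1, x3.2, y3.1, y3.2, hc.1, hc.2]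
      have h2 := sq_le_sq' (by linarith [abs_le.mp this |>.1]) (abs_le.mp this).2
      nlinarith [sq_nonneg (δ * r)]
    · simp only [hbad, not_or, not_not] at hb
      rw [x6 hb.1.1 hb.1.2, y6 hb.2.1 hb.2.2] at hc
      have h2 := sq_le_sq' (abs_le.mp hc).1 (abs_le.mp hc).2
      nlinarith
  -- count of bad indices
  have hcnt : ∀ w : ι → ℝ, Slab w (2 * r) (δ * r) → (∀ i ∈ A, lo - 2 * θ < w i ∧ w i ≤ hi + 2 * θ) →
      ((A.filter (fun i => ¬ (lo < w i ∧ w i ≤ hi))).card : ℝ) ≤ 6 * θ := by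
    intro w hw hAw
    have h1 := hw (lo - 2 * θ) lo (by linarith) (by linarith) (by linarith)
    have h2 := hw hi (hi + 2 * θ) (by linarith) (by linarith) (by linarith)
    unfold cnt at h1 h2
    have h3 : (A.filter (fun i => ¬ (lo < w i ∧ w i ≤ hi))).card ≤
        (Finset.univ.filter (fun i => lo - 2 * θ < w i ∧ w i ≤ lo)).card +
        (Finset.univ.filter (fun i => hi < w i ∧ w i ≤ hi + 2 * θ)).card := by
      refine (Finset.card_le_card ?_).trans (Finset.card_union_le _ _)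
      intro i hi'
      simp only [Finset.mem_filter, Finset.mem_union, Finset.mem_univ, true_and] at hi' ⊢
      obtain ⟨h4, h5⟩ := hi'
      obtain ⟨h6, h7⟩ := hAw i h4
      rcases le_or_gt (w i) lo with h8 | h8
      · exact Or.inl ⟨h6, h8⟩
      · right
        refine ⟨?_, h7⟩
        by_contra h9
        exact h5 ⟨h8, not_lt.mp h9⟩
    have h3' : ((A.filter (fun i => ¬ (lo < w i ∧ w i ≤ hi))).card : ℝ) ≤
        ((Finset.univ.filter (fun i => lo - 2 * θ < w i ∧ w i ≤ lo)).card : ℝ) +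
        ((Finset.univ.filter (fun i => hi < w i ∧ w i ≤ hi + 2 * θ)).card : ℝ) := by
      exact_mod_cast h3
    rw [abs_le] at h1 h2
    linarith [h1.2, h2.2]
  have hbadc : ((A.filter bad).card : ℝ) ≤ 12 * θ := by
    have h1 := hcnt u hSu (fun i hi' => (hA i hi').1)
    have h2 := hcnt v hSv (fun i hi' => (hA i hi').2)
    have h3 : (A.filter bad).card ≤ (A.filter (fun i => ¬ (lo < u i ∧ u i ≤ hi))).card +
        (A.filter (fun i => ¬ (lo < v (τ i) ∧ v (τ i) ≤ hi))).card := by
      refine (Finset.card_le_card ?_).trans (Finset.card_union_le _ _)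
      intro i hi'
      simp only [Finset.mem_filter, Finset.mem_union, hbad] at hi' ⊢
      tauto
    have h4 : (A.filter (fun i => ¬ (lo < v (τ i) ∧ v (τ i) ≤ hi))).card ≤
        (A.filter (fun i => ¬ (lo < v i ∧ v i ≤ hi))).card := by
      refine Finset.card_le_card_of_injOn τ ?_ (τ.injective.injOn)
      intro i hi'
      simp only [Finset.coe_filter, Set.mem_setOf_eq] at hi' ⊢
      exact ⟨hτ2 i hi'.1, hi'.2⟩
    have h5 : ((A.filter bad).card : ℝ) ≤
        ((A.filter (fun i => ¬ (lo < u i ∧ u i ≤ hi))).card : ℝ) +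
        ((A.filter (fun i => ¬ (lo < v i ∧ v i ≤ hi))).card : ℝ) := by
      exact_mod_cast h3.trans (Nat.add_le_add_left h4 _)
    linarith
  have hAcard : (A.card : ℝ) ≤ 5 * r := by
    have h1 := hSu (-(2 * r)) (2 * r) le_rfl (by linarith) le_rfl
    unfold cnt at h1
    have h2 : A.card ≤ (Finset.univ.filter (fun i => -(2 * r) < u i ∧ u i ≤ 2 * r)).card := by
      refine Finset.card_le_card (fun i hi' => ?_)
      simp only [Finset.mem_filter, Finset.mem_univ, true_and]
      obtain ⟨⟨h3, h4⟩, -⟩ := hA i hi'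
      constructor <;> linarith
    have h2' : (A.card : ℝ) ≤
        ((Finset.univ.filter (fun i => -(2 * r) < u i ∧ u i ≤ 2 * r)).card : ℝ) := by
      exact_mod_cast h2
    rw [abs_le] at h1
    nlinarith [h1.2]
  calc ∑ i ∈ A, (v (τ i) - u i) ^ 2
      ≤ ∑ i ∈ A, (9 * δ ^ 2 * r ^ 2 + (if bad i then 49 * θ ^ 2 else 0)) := Finset.sum_le_sum hterm
    _ = A.card * (9 * δ ^ 2 * r ^ 2) + (A.filter bad).card * (49 * θ ^ 2) := by
        rw [Finset.sum_add_distrib, Finset.sum_const, nsmul_eq_mul, ← Finset.sum_filter,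
          Finset.sum_const, nsmul_eq_mul]
    _ ≤ (5 * r) * (9 * δ ^ 2 * r ^ 2) + (12 * θ) * (49 * θ ^ 2) := by
        gcongr
    _ = 45 * δ ^ 2 * r ^ 3 + 588 * θ ^ 3 := by ring

end Pool.Agent.H27.OTC
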