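import Pool.Agent.H27.OTC.Rays

/-!
Job A-SORT1 (helper61): the matching of the heights in increasing order.
-/

set_option autoImplicit false

namespace Pool.Agent.H27.OTC

variable {ι : Type}

theorem sorted_aux (u v : ι → ℝ) (m : ℕ) : ∀ A B : Finset ι, A.card = m → B.card = m →
    ∃ f : ι → ι, Set.BijOn f (A : Set ι) (B : Set ι) ∧ ∀ i ∈ A, ∀ x,
      (x < v (f i) →
        (B.filter (fun j => v j ≤ x)).card < (A.filter (fun j => u j ≤ u i)).card) ∧
      (x < u i →
        (A.filter (fun j => u j ≤ x)).card < (B.filter (fun j => v j ≤ v (f i))).card) := by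
  classical
  induction m with
  | zero =>
    intro A B hA hB
    rw [Finset.card_eq_zero] at hA hB
    subst hA hB
    refine ⟨id, by simp, by simp⟩
  | succ m ih =>
    intro A B hA hB
    have hAne : A.Nonempty := by rw [← Finset.card_pos]; omega
    have hBne : B.Nonempty := by rw [← Finset.card_pos]; omega
    obtain ⟨i0, hi0, hmax⟩ := A.exists_max_image u hAne
    obtain ⟨j0, hj0, hmaxB⟩ := B.exists_max_image v hBne
    obtain ⟨f, hf, hprop⟩ := ih (A.erase i0) (B.erase j0)
      (by rw [Finset.card_erase_of_mem hi0, hA]; rfl) (by rw [Finset.card_erase_of_mem hj0, hB]; rfl)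
    have hfu : Function.update f i0 j0 i0 = j0 := Function.update_self _ _ _
    have hfn : ∀ i, i ≠ i0 → Function.update f i0 j0 i = f i := fun i hi =>
      Function.update_of_ne hi _ _
    have hmem : ∀ i ∈ A, i ≠ i0 → f i ∈ B ∧ f i ≠ j0 := by
      intro i hi hne
      have h1 : f i ∈ B.erase j0 := hf.mapsTo (Finset.mem_coe.2 (Finset.mem_erase.2 ⟨hne, hi⟩))
      rw [Finset.mem_erase] at h1
      exact ⟨h1.2, h1.1⟩
    refine ⟨Function.update f i0 j0, ⟨?_, ?_, ?_⟩, ?_⟩
    · intro i hi
      by_cases h : i = i0
      · subst h; rw [hfu]; exact hj0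
      · rw [hfn i h]; exact (hmem i hi h).1
    · intro i hi i' hi' heq
      by_cases h : i = i0
      · subst h
        by_cases h' : i' = i
        · exact h'.symm
        · rw [hfu, hfn i' h'] at heq
          exact absurd heq.symm (hmem i' hi' h').2
      · by_cases h' : i' = i0
        · subst h'
          rw [hfu, hfn i h] at heq
          exact absurd heq (hmem i hi h).2
        · rw [hfn i h, hfn i' h'] at heq
          exact hf.injOn (Finset.mem_coe.2 (Finset.mem_erase.2 ⟨h, hi⟩))
            (Finset.mem_coe.2 (Finset.mem_erase.2 ⟨h', hi'⟩)) heq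
    · intro j hj
      by_cases h : j = j0
      · exact ⟨i0, hi0, by rw [hfu, h]⟩
      · obtain ⟨i, hi, hij⟩ := hf.surjOn (Finset.mem_coe.2 (Finset.mem_erase.2 ⟨h, hj⟩))
        have hi' := Finset.mem_erase.1 (Finset.mem_coe.1 hi)
        exact ⟨i, hi'.2, by rw [hfn i hi'.1]; exact hij⟩
    · intro i hi x
      by_cases h : i = i0
      · subst h
        rw [hfu]
        have hAf : A.filter (fun j => u j ≤ u i) = A := Finset.filter_true_of_mem hmax
        have hBf : B.filter (fun j => v j ≤ v j0) = B := Finset.filter_true_of_mem hmaxB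
        rw [hAf, hBf]
        constructor
        · intro hx
          rw [hA, ← hB]
          refine Finset.card_lt_card (Finset.filter_ssubset.2 ⟨j0, hj0, not_le.2 hx⟩)
        · intro hx
          rw [hB, ← hA]
          refine Finset.card_lt_card (Finset.filter_ssubset.2 ⟨i, hi, not_le.2 hx⟩)
      · rw [hfn i h]
        have h1 := hprop i (Finset.mem_erase.2 ⟨h, hi⟩) x
        constructor
        · intro hx
          have h2 := h1.1 hx
          have h3 : B.filter (fun j => v j ≤ x) = (B.erase j0).filter (fun j => v j ≤ x) := by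
            ext j
            simp only [Finset.mem_filter, Finset.mem_erase]
            constructor
            · rintro ⟨hj, hjx⟩
              refine ⟨⟨?_, hj⟩, hjx⟩
              rintro rfl
              exact absurd (hmaxB _ (hmem i hi h).1) (not_le.2 (lt_of_le_of_lt hjx hx))
            · rintro ⟨⟨-, hj⟩, hjx⟩
              exact ⟨hj, hjx⟩
          rw [h3]
          refine lt_of_lt_of_le h2 (Finset.card_le_card ?_)
          exact Finset.filter_subset_filter _ (Finset.erase_subset _ _)
        · intro hx
          have h2 := h1.2 hx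
          have h3 : A.filter (fun j => u j ≤ x) = (A.erase i0).filter (fun j => u j ≤ x) := by
            ext j
            simp only [Finset.mem_filter, Finset.mem_erase]
            constructor
            · rintro ⟨hj, hjx⟩
              refine ⟨⟨?_, hj⟩, hjx⟩
              rintro rfl
              exact absurd (hmax _ hi) (not_le.2 (lt_of_le_of_lt hjx hx))
            · rintro ⟨⟨-, hj⟩, hjx⟩
              exact ⟨hj, hjx⟩
          rw [h3]
          refine lt_of_lt_of_le h2 (Finset.card_le_card ?_)
          exact Finset.filter_subset_filter _ (Finset.erase_subset _ _)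

/-- The permutation of a finite set `A` which matches the `u`-heights and the `v`-heights in
increasing order. -/
theorem exists_sorted' (u v : ι → ℝ) (A : Finset ι) :
    ∃ τ : Equiv.Perm ι, (∀ i, i ∉ A → τ i = i) ∧ (∀ i, i ∈ A → τ i ∈ A) ∧
      ∀ i ∈ A, ∀ x, (x < v (τ i) →
          (A.filter (fun j => v j ≤ x)).card < (A.filter (fun j => u j ≤ u i)).card) ∧
        (x < u i →
          (A.filter (fun j => u j ≤ x)).card < (A.filter (fun j => v j ≤ v (τ i))).card) := by
  classical
  obtain ⟨f, hf, hprop⟩ := sorted_aux u v A.card A A rfl rfl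
  let e : {i // i ∈ A} ≃ {i // i ∈ A} := hf.equiv f
  have he : ∀ (i : ι) (hi : i ∈ A), ((e ⟨i, hi⟩ : {i // i ∈ A}) : ι) = f i := fun i hi => rfl
  let τ : Equiv.Perm ι := Equiv.Perm.ofSubtype (p := fun i => i ∈ A) e
  have hτ : ∀ i ∈ A, τ i = f i := by
    intro i hi
    have := Equiv.Perm.ofSubtype_apply_of_mem (p := fun i => i ∈ A) e hi
    rw [he i hi] at this
    exact this
  refine ⟨τ, ?_, ?_, ?_⟩
  · intro i hi
    exact Equiv.Perm.ofSubtype_apply_of_not_mem (p := fun i => i ∈ A) e hi
  · intro i hi
    rw [hτ i hi]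
    exact hf.mapsTo (Finset.mem_coe.2 hi)
  · intro i hi x
    rw [hτ i hi]
    exact hprop i hi x

end Pool.Agent.H27.OTC
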