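import Pool.Agent.H27.OTC.DetLow
import Pool.Agent.H27.OTC.DetSort

/-!
Job A-STEP: improvement of the gradient bound from the scale `2 r` to the scale `r`.
-/

set_option autoImplicit false

namespace Pool.Agent.H27.OTC

variable {ι : Type} [Fintype ι]

/-- energy bound for a set of rays separated from the others -/
theorem energy_upper (S : Rays ι) (hS : S.Opt) {r δ lo hi θ : ℝ} (hr : 0 < r) (hδ : 0 < δ)
    (hδ1 : δ ≤ 1) (hlo : lo ≤ 0) (hhi : 0 ≤ hi) (hθ : 0 < θ) (hlo2 : -(2 * r) ≤ lo - 2 * θ)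
    (hhi2 : hi + 2 * θ ≤ 2 * r) (hδθ : δ * r ≤ θ) (hδθ3 : 45 * δ ^ 2 * r ^ 3 ≤ θ ^ 3)
    (hSu : Slab S.u (2 * r) (δ * r)) (hSv : Slab S.v (2 * r) (δ * r)) (hB : Bal S.u S.v)
    (A : Finset ι)
    (hA : ∀ i ∈ A, (lo - 2 * θ < S.u i ∧ S.u i ≤ hi + 2 * θ) ∧
      (lo - 2 * θ < S.v i ∧ S.v i ≤ hi + 2 * θ))
    (hAc : ∀ i, i ∉ A → (hi < S.u i ∧ hi < S.v i) ∨ (S.u i ≤ lo ∧ S.v i ≤ lo)) :
    ∑ i ∈ A, S.P i ^ 2 ≤ 4712 * θ ^ 3 := by
  obtain ⟨τ, hτ, hle⟩ := sorted_matching S.u S.v hr hδ hδ1 hlo hhi hθ hlo2 hhi2 hδθ hSu hSv hB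
    A hA hAc
  have := hS.opt A τ hτ
  linarith

omit [Fintype ι] in
theorem abs_u_sub (S : Rays ι) (i : ι) : |S.u i - S.Z i| ≤ 3 / 2 * |S.P i| := by
  have h : S.u i - S.Z i = -((3 / 2 - S.a i) * S.P i) := by rw [S.hu i]; ring
  rw [h, abs_neg, abs_mul]
  refine mul_le_mul_of_nonneg_right ?_ (abs_nonneg _)
  rw [abs_le]
  have h0 := S.a0 i
  have h1 := S.a1 i
  constructor <;> linarith

omit [Fintype ι] in
theorem abs_v_sub (S : Rays ι) (i : ι) : |S.v i - S.Z i| ≤ 3 / 2 * |S.P i| := by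
  have h : S.v i - S.Z i = (S.b i - 3 / 2) * S.P i := by rw [S.hv i]; ring
  rw [h, abs_mul]
  refine mul_le_mul_of_nonneg_right ?_ (abs_nonneg _)
  rw [abs_le]
  have h0 := S.b2 i
  have h1 := S.b3 i
  constructor <;> linarith

omit [Fintype ι] in
/-- bounds for `u`, `v` in terms of a bound for the slope -/
theorem uv_bounds (S : Rays ι) {i : ι} {q : ℝ} (h : |S.P i| ≤ q) :
    (S.Z i - 3 / 2 * q ≤ S.u i ∧ S.u i ≤ S.Z i + 3 / 2 * q) ∧
      (S.Z i - 3 / 2 * q ≤ S.v i ∧ S.v i ≤ S.Z i + 3 / 2 * q) := by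
  have h1 := abs_le.mp (abs_u_sub S i)
  have h2 := abs_le.mp (abs_v_sub S i)
  refine ⟨⟨?_, ?_⟩, ⟨?_, ?_⟩⟩ <;> linarith [h1.1, h1.2, h2.1, h2.2]

omit [Fintype ι] in
theorem gr_near {S : Rays ι} {ε r : ℝ} (hε : 0 < ε) (hG : Gr S ε (2 * r)) {i : ι}
    (hi : |S.Z i| ≤ 2 * r) : |S.P i| ≤ 4 * ε * r := by
  have h := hG i
  have hr : 0 ≤ r := by linarith [abs_nonneg (S.Z i)]
  have h1 : max (2 * r) (2 * |S.Z i|) ≤ 4 * r := max_le (by linarith) (by linarith)
  calc |S.P i| ≤ ε * max (2 * r) (2 * |S.Z i|) := h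
    _ ≤ ε * (4 * r) := mul_le_mul_of_nonneg_left h1 hε.le
    _ = 4 * ε * r := by ring

omit [Fintype ι] in
theorem gr_far {S : Rays ι} {ε r : ℝ} (hG : Gr S ε (2 * r)) {i : ι}
    (hi : r ≤ |S.Z i|) : |S.P i| ≤ ε * (2 * |S.Z i|) := by
  have h := hG i
  rwa [max_eq_right (by linarith)] at h

omit [Fintype ι] in
theorem far_bounds {S : Rays ι} {ε r : ℝ} (hε1 : ε ≤ 1 / 1000) (hr : 0 < r)
    (hG : Gr S ε (2 * r)) (i : ι) :
    (2 * r < S.Z i → 19 / 10 * r ≤ S.u i ∧ 19 / 10 * r ≤ S.v i) ∧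
      (S.Z i < -(2 * r) → S.u i ≤ -(19 / 10 * r) ∧ S.v i ≤ -(19 / 10 * r)) := by
  constructor
  · intro h
    have hZ : |S.Z i| = S.Z i := abs_of_pos (by linarith)
    have h1 := gr_far hG (i := i) (by rw [hZ]; linarith)
    rw [hZ] at h1
    have h2 : ε * (2 * S.Z i) ≤ 1 / 1000 * (2 * S.Z i) :=
      mul_le_mul_of_nonneg_right hε1 (by linarith)
    have h3 := uv_bounds S (h1.trans h2)
    constructor <;> linarith [h3.1.1, h3.2.1]
  · intro h
    have hZ : |S.Z i| = -S.Z i := abs_of_neg (by linarith)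
    have h1 := gr_far hG (i := i) (by rw [hZ]; linarith)
    rw [hZ] at h1
    have h2 : ε * (2 * -S.Z i) ≤ 1 / 1000 * (2 * -S.Z i) :=
      mul_le_mul_of_nonneg_right hε1 (by linarith)
    have h3 := uv_bounds S (h1.trans h2)
    constructor <;> linarith [h3.1.2, h3.2.2]

omit [Fintype ι] in
theorem far_abs {S : Rays ι} {ε r : ℝ} (hε1 : ε ≤ 1 / 1000) (hr : 0 < r)
    (hG : Gr S ε (2 * r)) (i : ι) (hi : 2 * r < |S.Z i|) : 19 / 10 * r ≤ |S.u i| := by
  have h := far_bounds hε1 hr hG i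
  rcases lt_abs.mp hi with h1 | h1
  · exact (h.1 h1).1.trans (le_abs_self _)
  · have h2 := (h.2 (by linarith)).1
    have h3 := neg_le_abs (S.u i)
    linarith

/-- coarse energy bound -/
theorem coarse {β τ ε δ : ℝ} (hc : Consts β τ ε δ) (S : Rays ι) (hS : S.Opt) {r : ℝ}
    (hr : 0 < r) (hSu : Slab S.u (2 * r) (δ * r)) (hSv : Slab S.v (2 * r) (δ * r))
    (hB : Bal S.u S.v) (hG : Gr S ε (2 * r)) :
    ∑ i ∈ Finset.univ.filter (fun i => |S.Z i| ≤ 3 / 2 * r), S.P i ^ 2 ≤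
      37696 * (4 * ε * r) ^ 3 := by
  have hq0 : 0 < 4 * ε * r := mul_pos (mul_pos (by norm_num) hc.εpos) hr
  have hq0r : 4 * ε * r ≤ r / 250 := by
    have := mul_le_mul_of_nonneg_right hc.ε1 hr.le
    linarith
  set q0 := 4 * ε * r with hq0def
  have hβε : β * ε ≤ 1 / 100 * ε := mul_le_mul_of_nonneg_right hc.β1 hc.εpos.le
  have hβεpos : 0 < β * ε := mul_pos hc.βpos hc.εpos
  have hτpos : 0 < τ := by rw [hc.τeq]; linarith [hc.βpos]
  have hτ1 : τ ≤ 1 := by rw [hc.τeq]; linarith [hc.β1]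
  have hδε : 10 * δ ≤ ε := by
    have h1 : τ * β * ε ≤ 1 * (β * ε) := by
      rw [mul_assoc]
      exact mul_le_mul_of_nonneg_right hτ1 hβεpos.le
    linarith [hc.δedge, hc.εpos]
  have hkey := energy_upper S hS (lo := -(3 / 2 * r - 2 * q0)) (hi := 3 / 2 * r - 2 * q0)
    (θ := 2 * q0) hr hc.δpos (by linarith [hc.ε1]) (by linarith) (by linarith) (by linarith)
    (by linarith) (by linarith)
    (by
      have h1 : δ * r ≤ ε * r := mul_le_mul_of_nonneg_right (by linarith [hc.δpos]) hr.le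
      have h2 : 0 ≤ ε * r := mul_nonneg hc.εpos.le hr.le
      rw [hq0def]; linarith)
    (by
      have h1 : (8 * β * ε) ^ 3 ≤ (8 * ε) ^ 3 := by
        apply pow_le_pow_left₀ (by have := hβεpos.le; linarith)
        linarith
      have h2 : 45 * δ ^ 2 * r ^ 3 ≤ (8 * ε) ^ 3 * r ^ 3 :=
        mul_le_mul_of_nonneg_right (hc.δslab.trans h1) (by positivity)
      calc 45 * δ ^ 2 * r ^ 3 ≤ (8 * ε) ^ 3 * r ^ 3 := h2
        _ = (2 * q0) ^ 3 := by rw [hq0def]; ring)
    hSu hSv hB (Finset.univ.filter (fun i => |S.Z i| ≤ 3 / 2 * r))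
    (by
      intro i hi
      rw [Finset.mem_filter] at hi
      have hZ := abs_le.mp hi.2
      have hP := gr_near hc.εpos hG (i := i) (by linarith [hi.2])
      have h3 := uv_bounds S hP
      refine ⟨⟨?_, ?_⟩, ⟨?_, ?_⟩⟩ <;> linarith [h3.1.1, h3.1.2, h3.2.1, h3.2.2, hZ.1, hZ.2])
    (by
      intro i hi
      rw [Finset.mem_filter, not_and] at hi
      have hi' := hi (Finset.mem_univ _)
      rw [not_le] at hi'
      have hfb := far_bounds hc.ε1 hr hG i
      rcases lt_abs.mp hi' with h1 | h1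
      · left
        by_cases h2 : S.Z i ≤ 2 * r
        · have hP := gr_near hc.εpos hG (i := i) (by rw [abs_le]; constructor <;> linarith)
          have h3 := uv_bounds S hP
          constructor <;> linarith [h3.1.1, h3.2.1]
        · have h3 := hfb.1 (not_le.mp h2)
          constructor <;> linarith [h3.1, h3.2]
      · right
        by_cases h2 : -(2 * r) ≤ S.Z i
        · have hP := gr_near hc.εpos hG (i := i) (by rw [abs_le]; constructor <;> linarith)
          have h3 := uv_bounds S hP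
          constructor <;> linarith [h3.1.2, h3.2.2]
        · have h3 := hfb.2 (not_le.mp h2)
          constructor <;> linarith [h3.1, h3.2])
  calc _ ≤ 4712 * (2 * q0) ^ 3 := hkey
    _ = 37696 * q0 ^ 3 := by ring

/-- a window without steep rays, on the side given by the sign `s` -/
theorem window {β τ ε δ : ℝ} (hc : Consts β τ ε δ) (S : Rays ι) (hS : S.Opt) {r : ℝ}
    (hr : 0 < r) (hE : EdgeLB S.a S.u τ (2 * r) (δ * r)) (hG : Gr S ε (2 * r))
    (hA : ∑ i ∈ Finset.univ.filter (fun i => |S.Z i| ≤ 3 / 2 * r), S.P i ^ 2 ≤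
      37696 * (4 * ε * r) ^ 3) {s : ℝ} (hs : s = 1 ∨ s = -1) :
    ∃ ρ, 11 / 10 * r ≤ ρ ∧ ρ ≤ 14 / 10 * r ∧
      ∀ i, |s * S.Z i - ρ| < 4 * (4 * ε * r) → |S.P i| < β * (4 * ε * r) := by
  classical
  have hq0 : 0 < 4 * ε * r := mul_pos (mul_pos (by norm_num) hc.εpos) hr
  have hq0r : 4 * ε * r ≤ r / 250 := by
    have := mul_le_mul_of_nonneg_right hc.ε1 hr.le
    linarith
  have hτpos : 0 < τ := by rw [hc.τeq]; linarith [hc.βpos]
  have hτ1 : τ ≤ 1 := by rw [hc.τeq]; linarith [hc.β1]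
  have he : 40 * (δ * r) ≤ τ * (β * (4 * ε * r)) := by
    have h1 := mul_le_mul_of_nonneg_right hc.δedge hr.le
    calc 40 * (δ * r) = 4 * (10 * δ * r) := by ring
      _ ≤ 4 * (τ * β * ε * r) := by linarith
      _ = τ * (β * (4 * ε * r)) := by ring
  obtain ⟨N, hN1, hN2⟩ := hc.windows
  have hN3 : (N : ℝ) * (10 * (4 * ε * r)) ≤ 3 / 10 * r := by
    have := mul_le_mul_of_nonneg_right hN1 hr.le
    calc (N : ℝ) * (10 * (4 * ε * r)) = N * (40 * ε) * r := by ring
      _ ≤ _ := this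
  have hnear : ∀ i, |S.Z i| ≤ 2 * r → |S.P i| ≤ 4 * ε * r := fun i hi => gr_near hc.εpos hG hi
  have hfar : ∀ i, 2 * r < |S.Z i| → 19 / 10 * r ≤ |S.u i| := fun i hi =>
    far_abs hc.ε1 hr hG i hi
  have hsabs : |s| = 1 := by rcases hs with h | h <;> rw [h] <;> simp
  set q0 := 4 * ε * r with hq0def
  set ρ : ℕ → ℝ := fun j => 11 / 10 * r + 5 * q0 + 10 * q0 * j with hρ
  set W : ℕ → Finset ι := fun j =>
    Finset.univ.filter (fun i => ρ j - 5 * q0 ≤ s * S.Z i ∧ s * S.Z i < ρ j + 5 * q0) with hW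
  have hρle : ∀ j ∈ Finset.range N, ρ j + 5 * q0 ≤ 14 / 10 * r := by
    intro j hj
    rw [Finset.mem_range] at hj
    have hj1 : ((j : ℝ) + 1) ≤ N := by exact_mod_cast hj
    have h1 : ((j : ℝ) + 1) * (10 * q0) ≤ N * (10 * q0) :=
      mul_le_mul_of_nonneg_right hj1 (by linarith)
    simp only [hρ]
    nlinarith
  have hρge : ∀ j : ℕ, 11 / 10 * r + 5 * q0 ≤ ρ j := by
    intro j
    have : (0 : ℝ) ≤ 10 * q0 * j := by positivity
    simp only [hρ]
    linarith
  have hZabs : ∀ i, |s * S.Z i| = |S.Z i| := by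
    intro i; rw [abs_mul, hsabs, one_mul]
  have hsub : ∀ j ∈ Finset.range N, W j ⊆ Finset.univ.filter (fun i => |S.Z i| ≤ 3 / 2 * r) := by
    intro j hj i hi
    simp only [hW, Finset.mem_filter, Finset.mem_univ, true_and] at hi ⊢
    rw [← hZabs, abs_le]
    have h1 := hρle j hj
    have h2 := hρge j
    constructor <;> linarith [hi.1, hi.2]
  have hdisj : ∀ j ∈ (Finset.range N : Set ℕ), ∀ k ∈ (Finset.range N : Set ℕ), j ≠ k →
      Disjoint (W j) (W k) := by
    intro j _ k _ hjk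
    rw [Finset.disjoint_left]
    intro i hi hi'
    simp only [hW, Finset.mem_filter, Finset.mem_univ, true_and, hρ] at hi hi'
    rcases lt_or_gt_of_ne hjk with h | h
    · have h1 : (j : ℝ) + 1 ≤ k := by exact_mod_cast h
      have h2 : 10 * q0 * ((j : ℝ) + 1) ≤ 10 * q0 * k :=
        mul_le_mul_of_nonneg_left h1 (by linarith)
      linarith [hi.2, hi'.1]
    · have h1 : (k : ℝ) + 1 ≤ j := by exact_mod_cast h
      have h2 : 10 * q0 * ((k : ℝ) + 1) ≤ 10 * q0 * j :=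
        mul_le_mul_of_nonneg_left h1 (by linarith)
      linarith [hi'.2, hi.1]
  have hsum : ∑ j ∈ Finset.range N, ∑ i ∈ W j, S.P i ^ 2 ≤ 37696 * q0 ^ 3 := by
    rw [← Finset.sum_biUnion hdisj]
    refine le_trans (Finset.sum_le_sum_of_subset_of_nonneg ?_ fun i _ _ => sq_nonneg _) hA
    intro i hi
    rw [Finset.mem_biUnion] at hi
    obtain ⟨j, hj, hij⟩ := hi
    exact hsub j hj hij
  have hex : ∃ j ∈ Finset.range N, ∑ i ∈ W j, S.P i ^ 2 < τ * (β * q0) ^ 3 / 64 := by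
    by_contra hcon
    push Not at hcon
    have h1 : (N : ℝ) * (τ * (β * q0) ^ 3 / 64) ≤ ∑ j ∈ Finset.range N, ∑ i ∈ W j, S.P i ^ 2 := by
      have := Finset.card_nsmul_le_sum (Finset.range N) _ _ hcon
      rwa [Finset.card_range, nsmul_eq_mul] at this
    have h2 : (N : ℝ) * (τ * (β * q0) ^ 3 / 64) = N * (τ * β ^ 3) / 64 * q0 ^ 3 := by ring
    have h3 : 37696 * q0 ^ 3 < N * (τ * β ^ 3) / 64 * q0 ^ 3 := by
      refine mul_lt_mul_of_pos_right ?_ (pow_pos hq0 3)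
      linarith
    linarith
  obtain ⟨j, hj, hlt⟩ := hex
  have h1 := hρle j hj
  have h2 := hρge j
  refine ⟨ρ j, by linarith, by linarith, ?_⟩
  intro i hi
  by_contra hP
  rw [not_lt] at hP
  rw [abs_lt] at hi
  have hZi : |S.Z i| ≤ 3 / 2 * r := by
    rw [← hZabs, abs_le]
    constructor <;> linarith [hi.1, hi.2]
  have hlow := energy_lower S hS (r := r) (q0 := q0) (q1 := β * q0) (τ := τ) (e := δ * r) hr
    (by linarith) (mul_pos hc.βpos hq0)
    (by
      have := mul_le_mul_of_nonneg_right hc.β1 hq0.le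
      linarith)
    hτpos hτ1 (by rw [hc.τeq]; linarith) he hnear hfar hE i hZi hP
  have hsub2 : Finset.univ.filter (fun k => |S.Z k - S.Z i| ≤ q0) ⊆ W j := by
    intro k hk
    simp only [hW, Finset.mem_filter, Finset.mem_univ, true_and] at hk ⊢
    have h4 : |s * S.Z k - s * S.Z i| ≤ q0 := by
      rw [← mul_sub, abs_mul, hsabs, one_mul]; exact hk
    rw [abs_le] at h4
    constructor <;> linarith [h4.1, h4.2, hi.1, hi.2]
  have h5 : ∑ k ∈ Finset.univ.filter (fun k => |S.Z k - S.Z i| ≤ q0), S.P k ^ 2 ≤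
      ∑ k ∈ W j, S.P k ^ 2 :=
    Finset.sum_le_sum_of_subset_of_nonneg hsub2 fun _ _ _ => sq_nonneg _
  linarith

/-- fine energy bound -/
theorem fine_energy {β τ ε δ : ℝ} (hc : Consts β τ ε δ) (S : Rays ι) (hS : S.Opt) {r : ℝ}
    (hr : 0 < r) (hSu : Slab S.u (2 * r) (δ * r)) (hSv : Slab S.v (2 * r) (δ * r))
    (hB : Bal S.u S.v) (hG : Gr S ε (2 * r)) {p q : ℝ} (hp1 : 11 / 10 * r ≤ p)
    (hp2 : p ≤ 14 / 10 * r) (hq1 : 11 / 10 * r ≤ q) (hq2 : q ≤ 14 / 10 * r)
    (hp : ∀ i, |S.Z i - p| < 4 * (4 * ε * r) → |S.P i| < β * (4 * ε * r))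
    (hq : ∀ i, |-S.Z i - q| < 4 * (4 * ε * r) → |S.P i| < β * (4 * ε * r)) :
    ∑ i ∈ Finset.univ.filter (fun i => -q ≤ S.Z i ∧ S.Z i ≤ p), S.P i ^ 2 ≤
      37696 * β ^ 3 * (4 * ε * r) ^ 3 := by
  have hq0 : 0 < 4 * ε * r := mul_pos (mul_pos (by norm_num) hc.εpos) hr
  have hq0r : 4 * ε * r ≤ r / 250 := by
    have := mul_le_mul_of_nonneg_right hc.ε1 hr.le
    linarith
  have hβεpos : 0 < β * ε := mul_pos hc.βpos hc.εpos
  have hτ1 : τ ≤ 1 := by rw [hc.τeq]; linarith [hc.β1]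
  have hδε : 10 * δ ≤ β * ε := by
    have h1 : τ * β * ε ≤ 1 * (β * ε) := by
      rw [mul_assoc]
      exact mul_le_mul_of_nonneg_right hτ1 hβεpos.le
    linarith [hc.δedge]
  have hδ1 : δ ≤ 1 := by
    have hβε : β * ε ≤ 1 / 100 * ε := mul_le_mul_of_nonneg_right hc.β1 hc.εpos.le
    linarith [hc.ε1]
  have hδr : δ * r ≤ 2 * (β * (4 * ε * r)) := by
    have h1 : 10 * δ * r ≤ β * ε * r := mul_le_mul_of_nonneg_right hδε hr.le
    have h2 : 0 ≤ β * ε * r := mul_nonneg hβεpos.le hr.le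
    have h3 : 0 ≤ δ * r := mul_nonneg hc.δpos.le hr.le
    have h4 : 2 * (β * (4 * ε * r)) = 8 * (β * ε * r) := by ring
    rw [h4]; linarith
  have hδr3 : 45 * δ ^ 2 * r ^ 3 ≤ (2 * (β * (4 * ε * r))) ^ 3 := by
    have h2 : 45 * δ ^ 2 * r ^ 3 ≤ (8 * β * ε) ^ 3 * r ^ 3 :=
      mul_le_mul_of_nonneg_right hc.δslab (by positivity)
    calc 45 * δ ^ 2 * r ^ 3 ≤ (8 * β * ε) ^ 3 * r ^ 3 := h2
      _ = (2 * (β * (4 * ε * r))) ^ 3 := by ring
  have hnear : ∀ i, |S.Z i| ≤ 2 * r → |S.P i| ≤ 4 * ε * r := fun i hi => gr_near hc.εpos hG hi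
  have hfb := far_bounds hc.ε1 hr hG
  have hβq : β * (4 * ε * r) ≤ 1 / 100 * (4 * ε * r) := mul_le_mul_of_nonneg_right hc.β1 hq0.le
  have hβq0 : 0 < β * (4 * ε * r) := mul_pos hc.βpos hq0
  set q0 := 4 * ε * r with hq0def
  set t := β * q0 with ht
  have hkey := energy_upper S hS (lo := -q + 2 * t) (hi := p - 2 * t)
    (θ := 2 * t) hr hc.δpos hδ1 (by linarith) (by linarith) (by linarith)
    (by linarith) (by linarith) hδr hδr3
    hSu hSv hB (Finset.univ.filter (fun i => -q ≤ S.Z i ∧ S.Z i ≤ p))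
    (by
      intro i hi
      rw [Finset.mem_filter] at hi
      obtain ⟨_, hi1, hi2⟩ := hi
      have hPq := hnear i (by rw [abs_le]; constructor <;> linarith)
      have hup : S.u i ≤ p + 2 * t ∧ S.v i ≤ p + 2 * t := by
        by_cases h1 : p - 4 * q0 < S.Z i
        · have hP := hp i (by rw [abs_lt]; constructor <;> linarith)
          have h3 := uv_bounds S hP.le
          constructor <;> linarith [h3.1.2, h3.2.2]
        · have h3 := uv_bounds S hPq
          constructor <;> linarith [h3.1.2, h3.2.2]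
      have hdown : -q - 2 * t < S.u i ∧ -q - 2 * t < S.v i := by
        by_cases h1 : S.Z i < -q + 4 * q0
        · have hP := hq i (by rw [abs_lt]; constructor <;> linarith)
          have h3 := uv_bounds S hP.le
          constructor <;> linarith [h3.1.1, h3.2.1]
        · have h3 := uv_bounds S hPq
          constructor <;> linarith [h3.1.1, h3.2.1]
      refine ⟨⟨?_, ?_⟩, ⟨?_, ?_⟩⟩ <;> linarith [hup.1, hup.2, hdown.1, hdown.2])
    (by
      intro i hi
      rw [Finset.mem_filter, not_and] at hi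
      have hi' := hi (Finset.mem_univ _)
      rw [not_and_or, not_le, not_le] at hi'
      rcases hi' with h1 | h1
      · right
        by_cases h2 : -q - 4 * q0 < S.Z i
        · have hP := hq i (by rw [abs_lt]; constructor <;> linarith)
          have h3 := uv_bounds S hP.le
          constructor <;> linarith [h3.1.2, h3.2.2]
        · by_cases h4 : -(2 * r) ≤ S.Z i
          · have hPq := hnear i (by rw [abs_le]; constructor <;> linarith)
            have h3 := uv_bounds S hPq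
            constructor <;> linarith [h3.1.2, h3.2.2]
          · have h3 := (hfb i).2 (not_le.mp h4)
            constructor <;> linarith [h3.1, h3.2]
      · left
        by_cases h2 : S.Z i < p + 4 * q0
        · have hP := hp i (by rw [abs_lt]; constructor <;> linarith)
          have h3 := uv_bounds S hP.le
          constructor <;> linarith [h3.1.1, h3.2.1]
        · by_cases h4 : S.Z i ≤ 2 * r
          · have hPq := hnear i (by rw [abs_le]; constructor <;> linarith)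
            have h3 := uv_bounds S hPq
            constructor <;> linarith [h3.1.1, h3.2.1]
          · have h3 := (hfb i).1 (not_le.mp h4)
            constructor <;> linarith [h3.1, h3.2])
  calc _ ≤ 4712 * (2 * t) ^ 3 := hkey
    _ = 37696 * β ^ 3 * q0 ^ 3 := by rw [ht]; ring

theorem gr_step {β τ ε δ : ℝ} (hc : Consts β τ ε δ) (S : Rays ι) (hS : S.Opt) {r : ℝ}
    (hr : 0 < r) (hSu : Slab S.u (2 * r) (δ * r)) (hSv : Slab S.v (2 * r) (δ * r))
    (hE : EdgeLB S.a S.u τ (2 * r) (δ * r)) (hB : Bal S.u S.v) (hG : Gr S ε (2 * r)) :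
    Gr S ε r := by
  have hA := coarse hc S hS hr hSu hSv hB hG
  obtain ⟨p, hp1, hp2, hp⟩ := window hc S hS hr hE hG hA (s := 1) (Or.inl rfl)
  obtain ⟨q, hq1, hq2, hq⟩ := window hc S hS hr hE hG hA (s := -1) (Or.inr rfl)
  have hF := fine_energy hc S hS hr hSu hSv hB hG hp1 hp2 hq1 hq2
    (fun i hi => hp i (by rwa [one_mul])) (fun i hi => hq i (by rwa [neg_one_mul]))
  have hq0 : 0 < 4 * ε * r := mul_pos (mul_pos (by norm_num) hc.εpos) hr
  have hq0r : 4 * ε * r ≤ r / 250 := by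
    have := mul_le_mul_of_nonneg_right hc.ε1 hr.le
    linarith
  have hτpos : 0 < τ := by rw [hc.τeq]; linarith [hc.βpos]
  have hτ1 : τ ≤ 1 := by rw [hc.τeq]; linarith [hc.β1]
  have hcl : ∀ i, |S.Z i| ≤ r → |S.P i| ≤ ε * r := by
    intro i hi
    by_contra hcon
    rw [not_le] at hcon
    have he : 40 * (δ * r) ≤ τ * (4 * ε * r / 4) := by
      have h1 := mul_le_mul_of_nonneg_right hc.δedge hr.le
      have h2 : τ * β * ε * r ≤ 1 / 100 * (τ * ε * r) := by
        have h3 : 0 ≤ τ * ε * r := by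
          have := hc.εpos
          positivity
        have h4 := mul_le_mul_of_nonneg_right hc.β1 h3
        calc τ * β * ε * r = β * (τ * ε * r) := by ring
          _ ≤ _ := h4
      have h3 : 0 ≤ τ * ε * r := by
        have := hc.εpos
        positivity
      calc 40 * (δ * r) = 4 * (10 * δ * r) := by ring
        _ ≤ 4 * (τ * β * ε * r) := by linarith
        _ ≤ τ * ε * r := by linarith
        _ = τ * (4 * ε * r / 4) := by ring
    have hlow := energy_lower S hS (r := r) (q0 := 4 * ε * r) (q1 := 4 * ε * r / 4) (τ := τ)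
      (e := δ * r) hr (by linarith) (by linarith) (by linarith) hτpos hτ1
      (by rw [hc.τeq]; nlinarith [hc.β1, hc.βpos]) he
      (fun i hi => gr_near hc.εpos hG hi) (fun i hi => far_abs hc.ε1 hr hG i hi) hE i
      (by linarith) (by linarith)
    have hsub : Finset.univ.filter (fun k => |S.Z k - S.Z i| ≤ 4 * ε * r) ⊆
        Finset.univ.filter (fun k => -q ≤ S.Z k ∧ S.Z k ≤ p) := by
      intro k hk
      simp only [Finset.mem_filter, Finset.mem_univ, true_and] at hk ⊢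
      rw [abs_le] at hk hi
      constructor <;> linarith [hk.1, hk.2, hi.1, hi.2]
    have h5 : ∑ k ∈ Finset.univ.filter (fun k => |S.Z k - S.Z i| ≤ 4 * ε * r), S.P k ^ 2 ≤
        ∑ k ∈ Finset.univ.filter (fun k => -q ≤ S.Z k ∧ S.Z k ≤ p), S.P k ^ 2 :=
      Finset.sum_le_sum_of_subset_of_nonneg hsub fun _ _ _ => sq_nonneg _
    have h6 : 37696 * β ^ 3 * (4 * ε * r) ^ 3 < τ / 4096 * (4 * ε * r) ^ 3 :=
      mul_lt_mul_of_pos_right hc.fine (pow_pos hq0 3)
    have h7 : τ * (4 * ε * r / 4) ^ 3 / 64 = τ / 4096 * (4 * ε * r) ^ 3 := by ring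
    linarith
  intro i
  by_cases hi : |S.Z i| ≤ r
  · exact (hcl i hi).trans (mul_le_mul_of_nonneg_left (le_max_left _ _) hc.εpos.le)
  · rw [not_le] at hi
    exact (gr_far hG hi.le).trans (mul_le_mul_of_nonneg_left (le_max_right _ _) hc.εpos.le)

end Pool.Agent.H27.OTC
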