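import Pool.Agent.H27.OTC.TestFun
import Pool.Agent.H96.OT.Main

/-!
Job OTC-F-FINAL: from matchings to optimal plans between the empirical measures.
-/

set_option autoImplicit false

open MeasureTheory ProbabilityTheory Filter InformationTheory
open scoped ENNReal Topology BoundedContinuousFunction

namespace Pool.Agent.H27.OTC

open Pool.Agent.H96.OT

variable {Ω : Type} [MeasurableSpace Ω] {P : Measure Ω} [IsProbabilityMeasure P]
  {X Y : ℕ → Ω → Pl}

/-- the vertically scaled sample -/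
noncomputable def scal (n : ℕ) (X Y : ℕ → Ω → Pl) (ω : Ω) : (Fin n → Pl) × (Fin n → Pl) :=
  (fun i => ((X i ω).1, n * (X i ω).2), fun i => ((Y i ω).1, n * (Y i ω).2))

omit [IsProbabilityMeasure P] in
theorem measurable_scal (h : IsSample P X Y) (n : ℕ) : Measurable (scal n X Y) := by
  unfold scal
  refine Measurable.prodMk (measurable_pi_lambda _ fun i => ?_) (measurable_pi_lambda _ fun i => ?_)
  · exact (measurable_fst.comp (h.measX i)).prodMk
      ((measurable_snd.comp (h.measX i)).const_mul _)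
  · exact (measurable_fst.comp (h.measY i)).prodMk
      ((measurable_snd.comp (h.measY i)).const_mul _)

/-- the vertical scaling -/
noncomputable def scl (n : ℕ) (p : Pl) : Pl := (p.1, n * p.2)

theorem measurable_scl (n : ℕ) : Measurable (scl n) :=
  measurable_fst.prodMk (measurable_snd.const_mul _)

theorem unif_map_scl (l : ℝ) {n : ℕ} (hn : 0 < n) : (unif l).map (scl n) = smp l n := by
  have hn0 : (n : ℝ) ≠ 0 := by exact_mod_cast hn.ne'
  have hnpos : (0 : ℝ) < n := by exact_mod_cast hn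
  have h1 : unif l = (volume.restrict (Set.Icc l (l + 1))).prod
      (volume.restrict (Set.Icc (0 : ℝ) 1)) := by
    rw [Measure.prod_restrict]
    rfl
  have h2 : scl n = Prod.map id (fun t : ℝ => (n : ℝ) * t) := rfl
  have h3 : (volume.restrict (Set.Icc (0 : ℝ) 1)).map (fun t : ℝ => (n : ℝ) * t) =
      ENNReal.ofReal (1 / n) • volume.restrict (Set.Ioc (0 : ℝ) n) := by
    have h4 : (fun t : ℝ => (n : ℝ) * t) ⁻¹' (Set.Icc (0 : ℝ) n) = Set.Icc (0 : ℝ) 1 := by
      ext t
      simp only [Set.mem_preimage, Set.mem_Icc]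
      constructor
      · rintro ⟨h5, h6⟩
        exact ⟨by nlinarith, by nlinarith⟩
      · rintro ⟨h5, h6⟩
        exact ⟨by positivity, by nlinarith⟩
    have h5 : Measurable (fun t : ℝ => (n : ℝ) * t) := measurable_id.const_mul _
    rw [← h4, ← Measure.restrict_map h5 measurableSet_Icc, Real.map_volume_mul_left hn0,
      Measure.restrict_smul, abs_of_nonneg (by positivity), inv_eq_one_div,
      Measure.restrict_congr_set (Ioc_ae_eq_Icc (α := ℝ) (μ := volume)).symm]
  have h6 : Measurable (fun t : ℝ => (n : ℝ) * t) := measurable_id.const_mul _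
  rw [h1, h2, ← Measure.map_prod_map _ _ measurable_id h6,
    Measure.map_id, h3, Measure.prod_smul_right, Measure.prod_restrict]
  rfl

theorem law_scal (h : IsSample P X Y) {n : ℕ} (hn : 0 < n) :
    P.map (scal n X Y) = smpLaw n := by
  set e : Fin n ⊕ Fin n → ℕ ⊕ ℕ := Sum.map (fun i => (i : ℕ)) (fun i => (i : ℕ)) with he
  have heinj : Function.Injective e :=
    Sum.map_injective.mpr ⟨Fin.val_injective, Fin.val_injective⟩
  have hmeas : ∀ k : Fin n ⊕ Fin n, Measurable (Sum.elim X Y (e k)) := by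
    rintro (i | i)
    · exact h.measX _
    · exact h.measY _
  have hind := (h.indep.precomp heinj).comp (fun _ => scl n) (fun _ => measurable_scl n)
  have hmeas2 : ∀ k : Fin n ⊕ Fin n, Measurable (scl n ∘ Sum.elim X Y (e k)) := fun k =>
    (measurable_scl n).comp (hmeas k)
  have h1 : P.map (fun ω (k : Fin n ⊕ Fin n) => (scl n ∘ Sum.elim X Y (e k)) ω)
      = Measure.pi (fun k => P.map (scl n ∘ Sum.elim X Y (e k))) :=
    (iIndepFun_iff_map_fun_eq_pi_map (fun k => (hmeas2 k).aemeasurable)).mp hind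
  have hlaw : ∀ k : Fin n ⊕ Fin n, P.map (scl n ∘ Sum.elim X Y (e k))
      = Sum.elim (fun _ : Fin n => smp 0 n) (fun _ : Fin n => smp 2 n) k := by
    rintro (i | i)
    · rw [← Measure.map_map (measurable_scl n) (hmeas _)]
      show (P.map (X i)).map (scl n) = smp 0 n
      rw [h.lawX, unif_map_scl 0 hn]
    · rw [← Measure.map_map (measurable_scl n) (hmeas _)]
      show (P.map (Y i)).map (scl n) = smp 2 n
      rw [h.lawY, unif_map_scl 2 hn]
  simp only [hlaw] at h1
  have hfin0 := smp_finite 0 n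
  have hfin2 := smp_finite 2 n
  have hsf : ∀ k : Fin n ⊕ Fin n, SigmaFinite
      (Sum.elim (fun _ : Fin n => smp 0 n) (fun _ : Fin n => smp 2 n) k) := by
    rintro (i | i)
    · change SigmaFinite (smp 0 n); infer_instance
    · change SigmaFinite (smp 2 n); infer_instance
  have hmp1 := measurePreserving_sumPiEquivProdPi
    (fun k : Fin n ⊕ Fin n => Sum.elim (fun _ : Fin n => smp 0 n) (fun _ : Fin n => smp 2 n) k)
  have h2 := hmp1.map_eq
  have hm0 : Measurable (fun ω (k : Fin n ⊕ Fin n) => (scl n ∘ Sum.elim X Y (e k)) ω) :=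
    measurable_pi_lambda _ hmeas2
  rw [← h1, Measure.map_map hmp1.measurable hm0] at h2
  exact h2

omit [MeasurableSpace Ω] in
/-- the optimal assignments of the sample are the optimal matchings of the scaled sample -/
theorem isOptM_scal {n : ℕ} (hn : 0 < n) {σ : Equiv.Perm (Fin n)} {ω : Ω}
    (hσ : IsOptPerm (fun i : Fin n => X i ω) (fun i : Fin n => Y i ω) σ) :
    IsOptM (euc n) (scal n X Y ω).1 (fun i => (scal n X Y ω).2 (σ i)) := by
  have hn0 : (n : ℝ) ≠ 0 := by exact_mod_cast hn.ne'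
  have hc : ∀ i j : Fin n, euc n ((scal n X Y ω).1 i) ((scal n X Y ω).2 j) =
      cost (X i ω) (Y j ω) := by
    intro i j
    unfold euc cost scal
    simp only
    congr 1
    have h1 : ((n : ℝ) * (Y j ω).2 - n * (X i ω).2) / n = (Y j ω).2 - (X i ω).2 := by
      field_simp
    rw [h1]
    ring
  intro τ
  simp only [hc]
  have h2 := hσ (σ * τ)
  exact h2

omit [MeasurableSpace Ω] in
theorem pr0_scal {n : ℕ} (hn : 0 < n) (σ : Equiv.Perm (Fin n)) (ω : Ω) (i : Fin n) :
    pr0 n (scal n X Y ω).1 (scal n X Y ω).2 σ i = (X i ω, Y (σ i) ω) := by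
  have hn0 : (n : ℝ) ≠ 0 := by exact_mod_cast hn.ne'
  unfold pr0 scal
  simp only
  rw [mul_div_cancel_left₀ _ hn0, mul_div_cancel_left₀ _ hn0]

/-- convergence in probability, for test functions -/
theorem conv_plan_test (h : IsSample P X Y) {ν : Measure (Pl × Pl)} (f : Pl × Pl →ᵇ ℝ)
    (hconv : ∀ ε : ℝ, 0 < ε → Tendsto (fun n => smpLaw n {p | ∃ σ : Equiv.Perm (Fin n),
      IsOptM (euc n) p.1 (fun i => p.2 (σ i)) ∧
        ε < |(∑ i, f (pr0 n p.1 p.2 σ i)) / n - ∫ z, f z ∂ν|}) atTop (𝓝 0))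
    {ε : ℝ} (hε : 0 < ε) :
    Tendsto (fun n : ℕ => P {ω | ∃ π : ProbabilityMeasure (Pl × Pl),
      IsOptimalPlan (emp n (fun i => X i ω)) (emp n (fun i => Y i ω)) π ∧
        ε < |∫ z, f z ∂(π : Measure (Pl × Pl)) - ∫ z, f z ∂ν|}) atTop (𝓝 0) := by
  set c : ℝ := ∫ z, f z ∂ν with hc
  have hdX := ae_distinct h.measX h.lawX (h.indep.precomp (g := Sum.inl) Sum.inl_injective)
  have hdY := ae_distinct h.measY h.lawY (h.indep.precomp (g := Sum.inr) Sum.inr_injective)
  refine tendsto_of_tendsto_of_tendsto_of_le_of_le' tendsto_const_nhds (hconv ε hε)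
    (Eventually.of_forall fun _ => zero_le) ?_
  filter_upwards [eventually_ge_atTop 1] with n hn1
  have hn : 0 < n := hn1
  have hnpos : (0 : ℝ) < n := by exact_mod_cast hn
  set B : Set ((Fin n → Pl) × (Fin n → Pl)) := {p | ∃ σ : Equiv.Perm (Fin n),
      IsOptM (euc n) p.1 (fun i => p.2 (σ i)) ∧
        ε < |(∑ i, f (pr0 n p.1 p.2 σ i)) / n - c|} with hB
  have hsub : ∀ᵐ ω ∂P, (∃ π : ProbabilityMeasure (Pl × Pl),
      IsOptimalPlan (emp n (fun i => X i ω)) (emp n (fun i => Y i ω)) π ∧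
        ε < |∫ z, f z ∂(π : Measure (Pl × Pl)) - c|) → ω ∈ scal n X Y ⁻¹' B := by
    filter_upwards [hdX, hdY] with ω hX hY
    rintro ⟨π, hπ, hlt⟩
    by_contra hcon
    have hall : ∀ σ : Equiv.Perm (Fin n),
        IsOptPerm (fun i : Fin n => X i ω) (fun i : Fin n => Y i ω) σ →
        |(∑ i : Fin n, f (X i ω, Y (σ i) ω)) / n - c| ≤ ε := by
      intro σ hσ
      by_contra hlt'
      push Not at hlt'
      apply hcon
      refine ⟨σ, isOptM_scal hn hσ, ?_⟩
      simp only [pr0_scal hn]
      exact hlt'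
    have hinjX : Function.Injective (fun i : Fin n => (fun i => X i ω) (i : ℕ)) := by
      intro i j hij
      by_contra hne
      exact hX i j (fun h => hne (Fin.ext h)) hij
    have hinjY : Function.Injective (fun i : Fin n => (fun i => Y i ω) (i : ℕ)) := by
      intro i j hij
      by_contra hne
      exact hY i j (fun h => hne (Fin.ext h)) hij
    have hup : ∫ z, f z ∂(π : Measure (Pl × Pl)) ≤ c + ε := by
      refine plan_le hn (fun i => X i ω) (fun i => Y i ω) hinjX hinjY _ hπ (fun z => f z)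
        (f.integrable _) (c + ε) fun σ hσ => ?_
      have h1 := (abs_le.1 (hall σ hσ)).2
      have h2 : (∑ i : Fin n, f (X i ω, Y (σ i) ω)) / n ≤ c + ε := by linarith
      rw [div_le_iff₀ hnpos] at h2
      linarith
    have hlow : ∫ z, -f z ∂(π : Measure (Pl × Pl)) ≤ -c + ε := by
      refine plan_le hn (fun i => X i ω) (fun i => Y i ω) hinjX hinjY _ hπ (fun z => -f z)
        (f.integrable _).neg (-c + ε) fun σ hσ => ?_
      have h1 := (abs_le.1 (hall σ hσ)).1
      have h2 : c - ε ≤ (∑ i : Fin n, f (X i ω, Y (σ i) ω)) / n := by linarith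
      rw [le_div_iff₀ hnpos] at h2
      rw [Finset.sum_neg_distrib]
      linarith
    rw [integral_neg] at hlow
    have h3 : |∫ z, f z ∂(π : Measure (Pl × Pl)) - c| ≤ ε := by
      rw [abs_le]
      constructor <;> linarith
    exact absurd hlt (not_lt.2 h3)
  calc P {ω | ∃ π : ProbabilityMeasure (Pl × Pl),
      IsOptimalPlan (emp n (fun i => X i ω)) (emp n (fun i => Y i ω)) π ∧
        ε < |∫ z, f z ∂(π : Measure (Pl × Pl)) - c|} ≤ P (scal n X Y ⁻¹' B) :=
        measure_mono_ae hsub
    _ ≤ P.map (scal n X Y) B := Measure.le_map_apply (measurable_scal h n).aemeasurable B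
    _ = smpLaw n B := by rw [law_scal h hn]

/-- from test functions to neighbourhoods -/
theorem conv_nhds {A : ℕ → Ω → Set (ProbabilityMeasure (Pl × Pl))}
    {ν : ProbabilityMeasure (Pl × Pl)}
    (h : ∀ (f : Pl × Pl →ᵇ ℝ) (ε : ℝ), 0 < ε → Tendsto (fun n : ℕ => P {ω | ∃ π ∈ A n ω,
      ε < |∫ z, f z ∂(π : Measure (Pl × Pl)) - ∫ z, f z ∂(ν : Measure (Pl × Pl))|})
        atTop (𝓝 0)) {U : Set (ProbabilityMeasure (Pl × Pl))} (hU : U ∈ 𝓝 ν) :
    Tendsto (fun n : ℕ => P {ω | ∃ π ∈ A n ω, π ∉ U}) atTop (𝓝 0) := by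
  let ι : Type := (Pl × Pl →ᵇ ℝ) × {ε : ℝ // 0 < ε}
  let S : ι → Set (ProbabilityMeasure (Pl × Pl)) := fun i =>
    {π | |∫ z, i.1 z ∂(π : Measure (Pl × Pl)) - ∫ z, i.1 z ∂(ν : Measure (Pl × Pl))| ≤ i.2.1}
  have hF : Tendsto (id : ProbabilityMeasure (Pl × Pl) → ProbabilityMeasure (Pl × Pl))
      (⨅ i, 𝓟 (S i)) (𝓝 ν) := by
    rw [ProbabilityMeasure.tendsto_iff_forall_integral_tendsto]
    intro f
    rw [Metric.tendsto_nhds]
    intro ε hε
    have h1 : S (f, ⟨ε / 2, half_pos hε⟩) ∈ ⨅ i, 𝓟 (S i) :=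
      mem_iInf_of_mem (f, ⟨ε / 2, half_pos hε⟩) (mem_principal_self _)
    filter_upwards [h1] with π hπ
    have h2 : |∫ z, f z ∂(π : Measure (Pl × Pl)) - ∫ z, f z ∂(ν : Measure (Pl × Pl))| ≤ ε / 2 :=
      hπ
    rw [Real.dist_eq]
    simp only [id]
    linarith
  obtain ⟨t, ht, hsub⟩ := (hasBasis_iInf_principal_finite S).mem_iff.1 (hF hU)
  have hle : ∀ n, P {ω | ∃ π ∈ A n ω, π ∉ U} ≤ ∑ i ∈ ht.toFinset, P {ω | ∃ π ∈ A n ω,
      i.2.1 < |∫ z, i.1 z ∂(π : Measure (Pl × Pl)) - ∫ z, i.1 z ∂(ν : Measure (Pl × Pl))|} := by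
    intro n
    refine (measure_mono ?_).trans (measure_biUnion_finset_le ht.toFinset _)
    rintro ω ⟨π, hπ, hπU⟩
    have h3 : π ∉ ⋂ i ∈ t, S i := fun h4 => hπU (hsub h4)
    simp only [Set.mem_iInter, not_forall] at h3
    obtain ⟨i, hi, hiS⟩ := h3
    simp only [Set.mem_iUnion]
    exact ⟨i, ht.mem_toFinset.2 hi, π, hπ, not_le.1 hiS⟩
  have hlim : Tendsto (fun n : ℕ => ∑ i ∈ ht.toFinset, P {ω | ∃ π ∈ A n ω,
      i.2.1 < |∫ z, i.1 z ∂(π : Measure (Pl × Pl)) - ∫ z, i.1 z ∂(ν : Measure (Pl × Pl))|})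
      atTop (𝓝 0) := by
    have h5 := tendsto_finsetSum (M := ℝ≥0∞) ht.toFinset
      (fun i _ => h i.1 i.2.1 i.2.2)
    simpa using h5
  exact tendsto_of_tendsto_of_tendsto_of_le_of_le tendsto_const_nhds hlim
    (fun n => zero_le) hle

/-- a coupling of two empirical measures is a mixture of permutations -/
theorem coupling_repr {n : ℕ} (hn : 0 < n) (x y : ℕ → Pl)
    (hx : Function.Injective (fun i : Fin n => x i))
    (hy : Function.Injective (fun i : Fin n => y i)) (π : Measure (Pl × Pl))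
    [IsProbabilityMeasure π] (hπ : IsCoupling (emp n x) (emp n y) π) :
    Integrable (fun p : Pl × Pl => cost p.1 p.2) π ∧
    ∃ w : Equiv.Perm (Fin n) → ℝ, (∀ σ, 0 ≤ w σ) ∧ ∑ σ, w σ = 1 ∧
      ∀ F : Pl × Pl → ℝ, Integrable F π → n * ∫ p, F p ∂π
        = ∑ σ, w σ * ∑ i : Fin n, F (x i, y (σ i)) := by
  classical
  obtain ⟨hfst, hsnd⟩ := hπ
  have hn' : (n : ℝ) ≠ 0 := by exact_mod_cast hn.ne'
  have hnpos : (0 : ℝ) < n := by exact_mod_cast hn
  set S : Finset (Pl × Pl) := (Finset.univ : Finset (Fin n × Fin n)).image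
    (fun q => (x q.1, y q.2)) with hS
  have hinj : Function.Injective (fun q : Fin n × Fin n => (x q.1, y q.2)) := by
    rintro ⟨i, j⟩ ⟨k, l⟩ h
    simp only [Prod.mk.injEq] at h
    exact Prod.ext (hx h.1) (hy h.2)
  -- `π` is carried by `S`
  have hSc : π (S : Set (Pl × Pl))ᶜ = 0 := by
    have h1 : π (Prod.fst ⁻¹' (Set.range (fun i : Fin n => x i))ᶜ) = 0 := by
      rw [← Measure.map_apply measurable_fst (Set.finite_range _).measurableSet.compl, hfst]
      exact emp_compl x
    have h2 : π (Prod.snd ⁻¹' (Set.range (fun i : Fin n => y i))ᶜ) = 0 := by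
      rw [← Measure.map_apply measurable_snd (Set.finite_range _).measurableSet.compl, hsnd]
      exact emp_compl y
    refine measure_mono_null ?_ (measure_union_null h1 h2)
    intro p hp
    by_contra hc
    simp only [Set.mem_union, Set.mem_preimage, Set.mem_compl_iff, not_or, not_not,
      Set.mem_range] at hc
    obtain ⟨⟨i, hi⟩, ⟨j, hj⟩⟩ := hc
    apply hp
    rw [hS]
    simp only [Finset.coe_image, Finset.coe_univ, Set.image_univ, Set.mem_range]
    exact ⟨(i, j), Prod.ext hi hj⟩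
  have hrestr : π.restrict (S : Set (Pl × Pl)) = π := by
    rw [Measure.restrict_eq_self_of_ae_mem]
    rw [ae_iff]
    exact hSc
  -- the matrix
  set M : Matrix (Fin n) (Fin n) ℝ := fun i j => n * π.real {(x i, y j)} with hM
  have hint : ∀ F : Pl × Pl → ℝ, Integrable F π → ∫ p, F p ∂π
      = ∑ i : Fin n, ∑ j : Fin n, π.real {(x i, y j)} * F (x i, y j) := by
    intro F hF
    calc ∫ p, F p ∂π = ∫ p in (S : Set (Pl × Pl)), F p ∂π := by rw [hrestr]
      _ = ∑ p ∈ S, π.real {p} • F p := setIntegral_finset S hF.integrableOn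
      _ = ∑ q : Fin n × Fin n, π.real {(x q.1, y q.2)} • F (x q.1, y q.2) := by
          rw [hS, Finset.sum_image (fun a _ b _ h => hinj h)]
      _ = _ := by rw [Fintype.sum_prod_type]; simp only [smul_eq_mul]
  have hrow : ∀ i : Fin n, ∑ j : Fin n, π.real {(x i, y j)} = (n : ℝ)⁻¹ := by
    intro i
    have h1 : π (Prod.fst ⁻¹' {x i}) = (n : ℝ≥0∞)⁻¹ := by
      rw [← Measure.map_apply measurable_fst (measurableSet_singleton _), hfst,
        emp_singleton x hx i]
    have h2 : π (Prod.fst ⁻¹' {x i}) = ∑ j : Fin n, π {(x i, y j)} := by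
      have h3 : π (Prod.fst ⁻¹' {x i}) = π (⋃ j : Fin n, {(x i, y j)}) := by
        apply le_antisymm
        · have h4 : Prod.fst ⁻¹' {x i} ⊆ (⋃ j : Fin n, {((x i, y j) : Pl × Pl)})
              ∪ (S : Set (Pl × Pl))ᶜ := by
            intro p hp
            by_cases hpS : p ∈ (S : Set (Pl × Pl))
            · left
              rw [hS] at hpS
              simp only [Finset.coe_image, Finset.coe_univ, Set.image_univ, Set.mem_range] at hpS
              obtain ⟨⟨k, l⟩, hkl⟩ := hpS
              rw [Set.mem_iUnion]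
              refine ⟨l, ?_⟩
              rw [Set.mem_singleton_iff]
              have : p.1 = x i := hp
              rw [← hkl] at this ⊢
              simp only at this ⊢
              rw [this]
            · right; exact hpS
          refine (measure_mono h4).trans ((measure_union_le _ _).trans ?_)
          rw [hSc, add_zero]
        · apply measure_mono
          intro p hp
          rw [Set.mem_iUnion] at hp
          obtain ⟨j, hj⟩ := hp
          rw [Set.mem_singleton_iff] at hj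
          rw [hj]
          rfl
      rw [h3, measure_iUnion]
      · rw [tsum_fintype]
      · intro j k hjk
        rw [Function.onFun, Set.disjoint_singleton]
        intro h
        exact hjk (hy (Prod.ext_iff.mp h).2)
      · intro j; exact measurableSet_singleton _
    rw [h1] at h2
    have h5 := congrArg ENNReal.toReal h2
    rw [ENNReal.toReal_inv, ENNReal.toReal_natCast,
      ENNReal.toReal_sum (fun j _ => measure_ne_top _ _)] at h5
    exact h5.symm
  have hcol : ∀ j : Fin n, ∑ i : Fin n, π.real {(x i, y j)} = (n : ℝ)⁻¹ := by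
    intro j
    have h1 : π (Prod.snd ⁻¹' {y j}) = (n : ℝ≥0∞)⁻¹ := by
      rw [← Measure.map_apply measurable_snd (measurableSet_singleton _), hsnd,
        emp_singleton y hy j]
    have h2 : π (Prod.snd ⁻¹' {y j}) = ∑ i : Fin n, π {(x i, y j)} := by
      have h3 : π (Prod.snd ⁻¹' {y j}) = π (⋃ i : Fin n, {(x i, y j)}) := by
        apply le_antisymm
        · have h4 : Prod.snd ⁻¹' {y j} ⊆ (⋃ i : Fin n, {((x i, y j) : Pl × Pl)})
              ∪ (S : Set (Pl × Pl))ᶜ := by
            intro p hp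
            by_cases hpS : p ∈ (S : Set (Pl × Pl))
            · left
              rw [hS] at hpS
              simp only [Finset.coe_image, Finset.coe_univ, Set.image_univ, Set.mem_range] at hpS
              obtain ⟨⟨k, l⟩, hkl⟩ := hpS
              rw [Set.mem_iUnion]
              refine ⟨k, ?_⟩
              rw [Set.mem_singleton_iff]
              have : p.2 = y j := hp
              rw [← hkl] at this ⊢
              simp only at this ⊢
              rw [this]
            · right; exact hpS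
          refine (measure_mono h4).trans ((measure_union_le _ _).trans ?_)
          rw [hSc, add_zero]
        · apply measure_mono
          intro p hp
          rw [Set.mem_iUnion] at hp
          obtain ⟨i, hi⟩ := hp
          rw [Set.mem_singleton_iff] at hi
          rw [hi]
          rfl
      rw [h3, measure_iUnion]
      · rw [tsum_fintype]
      · intro i k hik
        rw [Function.onFun, Set.disjoint_singleton]
        intro h
        exact hik (hx (Prod.ext_iff.mp h).1)
      · intro i; exact measurableSet_singleton _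
    rw [h1] at h2
    have h5 := congrArg ENNReal.toReal h2
    rw [ENNReal.toReal_inv, ENNReal.toReal_natCast,
      ENNReal.toReal_sum (fun j _ => measure_ne_top _ _)] at h5
    exact h5.symm
  have hMds : M ∈ doublyStochastic ℝ (Fin n) := by
    rw [mem_doublyStochastic_iff_sum]
    refine ⟨fun i j => by simp only [hM]; positivity, fun i => ?_, fun j => ?_⟩
    · simp only [hM]
      rw [← Finset.mul_sum, hrow, mul_inv_cancel₀ hn']
    · simp only [hM]
      rw [← Finset.mul_sum, hcol, mul_inv_cancel₀ hn']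
  obtain ⟨w, hw0, hw1, hwM⟩ := exists_eq_sum_perm_of_mem_doublyStochastic hMds
  -- formula for integrals
  have hform : ∀ F : Pl × Pl → ℝ, Integrable F π → n * ∫ p, F p ∂π
      = ∑ σ, w σ * ∑ i : Fin n, F (x i, y (σ i)) := by
    intro F hF
    rw [hint F hF, Finset.mul_sum]
    have h1 : ∀ i j : Fin n, (n : ℝ) * (π.real {(x i, y j)} * F (x i, y j))
        = ∑ σ : Equiv.Perm (Fin n), w σ * (if σ i = j then F (x i, y j) else 0) := by
      intro i j
      have h2 : M i j = ∑ σ : Equiv.Perm (Fin n), w σ * (if σ i = j then 1 else 0) := by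
        rw [← hwM, Matrix.sum_apply]
        apply Finset.sum_congr rfl
        intro σ _
        rw [Matrix.smul_apply, smul_eq_mul]
        congr 1
        rw [Equiv.Perm.permMatrix, PEquiv.toMatrix_apply]
        simp [Equiv.toPEquiv_apply, eq_comm]
      rw [← mul_assoc]
      change M i j * F (x i, y j) = _
      rw [h2, Finset.sum_mul]
      apply Finset.sum_congr rfl
      intro σ _
      split_ifs <;> ring
    have h3 : ∀ i : Fin n, (n : ℝ) * ∑ j : Fin n, π.real {(x i, y j)} * F (x i, y j)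
        = ∑ σ : Equiv.Perm (Fin n), w σ * F (x i, y (σ i)) := by
      intro i
      rw [Finset.mul_sum]
      simp only [h1]
      rw [Finset.sum_comm]
      apply Finset.sum_congr rfl
      intro σ _
      rw [← Finset.mul_sum]
      congr 1
      rw [Finset.sum_ite_eq]
      simp
    simp only [h3]
    rw [Finset.sum_comm]
    apply Finset.sum_congr rfl
    intro σ _
    rw [Finset.mul_sum]
  have hcostint : Integrable (fun p : Pl × Pl => cost p.1 p.2) π := by
    rw [← hrestr]
    have hm : Measurable (fun p : Pl × Pl => cost p.1 p.2) := by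
      unfold cost
      fun_prop
    apply Measure.integrableOn_of_bounded (M := ∑ p ∈ S, cost p.1 p.2) (measure_ne_top _ _)
      hm.aestronglyMeasurable
    rw [ae_restrict_iff' S.measurableSet]
    refine ae_of_all _ (fun p hp => ?_)
    rw [Real.norm_eq_abs, abs_of_nonneg (cost_nonneg _ _)]
    exact Finset.single_le_sum (f := fun p : Pl × Pl => cost p.1 p.2)
      (fun q _ => cost_nonneg _ _) (Finset.mem_coe.mp hp)
  exact ⟨hcostint, w, hw0, hw1, hform⟩

theorem emp_univ {n : ℕ} (hn : 0 < n) (x : ℕ → Pl) : emp n x Set.univ = 1 := by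
  unfold emp
  rw [Measure.smul_apply, Measure.finsetSum_apply]
  simp only [measure_univ, Finset.sum_const, Finset.card_univ, Fintype.card_fin, nsmul_eq_mul,
    mul_one, smul_eq_mul]
  exact ENNReal.inv_mul_cancel (by exact_mod_cast hn.ne') (ENNReal.natCast_ne_top n)

theorem IsCoupling.univ {α β : Measure Pl} {π : Measure (Pl × Pl)} (h : IsCoupling α β π) :
    π Set.univ = α Set.univ := by
  rw [← h.1, Measure.map_apply measurable_fst MeasurableSet.univ, Set.preimage_univ]

/-- an optimal plan between empirical measures exists -/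
theorem exists_optimal_plan {n : ℕ} (hn : 0 < n) (x y : ℕ → Pl)
    (hx : Function.Injective (fun i : Fin n => x i))
    (hy : Function.Injective (fun i : Fin n => y i)) :
    ∃ π : ProbabilityMeasure (Pl × Pl), IsOptimalPlan (emp n x) (emp n y) π := by
  classical
  have hn' : (n : ℝ) ≠ 0 := by exact_mod_cast hn.ne'
  have hnpos : (0 : ℝ) < n := by exact_mod_cast hn
  obtain ⟨σ0, hσ0⟩ := Finite.exists_min
    (fun τ : Equiv.Perm (Fin n) => ∑ i : Fin n, cost (x i) (y (τ i)))
  have hcp := permPlan_coupling x y σ0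
  have hprob : IsProbabilityMeasure (permPlan x y σ0) :=
    ⟨by rw [IsCoupling.univ hcp, emp_univ hn x]⟩
  refine ⟨⟨permPlan x y σ0, hprob⟩, hcp, fun π' hπ' => ?_⟩
  have hprob' : IsProbabilityMeasure π' := ⟨by rw [IsCoupling.univ hπ', emp_univ hn x]⟩
  obtain ⟨hint, w, hw0, hw1, hw⟩ := coupling_repr hn x y hx hy π' hπ'
  show ∫⁻ p, ENNReal.ofReal (cost p.1 p.2) ∂(permPlan x y σ0) ≤ _
  rw [lintegral_permPlan, ← ofReal_integral_eq_lintegral_ofReal hint
      (ae_of_all _ (fun _ => cost_nonneg _ _))]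
  rw [← ENNReal.ofReal_sum_of_nonneg (fun _ _ => cost_nonneg _ _)]
  have h2 : (n : ℝ≥0∞)⁻¹ = ENNReal.ofReal ((n : ℝ)⁻¹) := by
    rw [ENNReal.ofReal_inv_of_pos hnpos, ENNReal.ofReal_natCast]
  rw [h2, ← ENNReal.ofReal_mul (by positivity)]
  apply ENNReal.ofReal_le_ofReal
  have h3 := hw _ hint
  have h4 : ∑ i : Fin n, cost (x i) (y (σ0 i)) ≤ n * ∫ p, cost p.1 p.2 ∂π' := by
    rw [h3]
    calc ∑ i : Fin n, cost (x i) (y (σ0 i))
        = ∑ σ, w σ * ∑ i : Fin n, cost (x i) (y (σ0 i)) := by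
          rw [← Finset.sum_mul, hw1, one_mul]
      _ ≤ ∑ σ, w σ * ∑ i : Fin n, cost (x i) (y (σ i)) :=
          Finset.sum_le_sum fun σ _ => mul_le_mul_of_nonneg_left (hσ0 σ) (hw0 σ)
  calc (n : ℝ)⁻¹ * ∑ i : Fin n, cost (x i) (y (σ0 i))
      ≤ (n : ℝ)⁻¹ * (n * ∫ p, cost p.1 p.2 ∂π') :=
        mul_le_mul_of_nonneg_left h4 (by positivity)
    _ = ∫ p, cost p.1 p.2 ∂π' := by rw [← mul_assoc, inv_mul_cancel₀ hn', one_mul]

theorem unif_prob (l : ℝ) : IsProbabilityMeasure (unif l) := by
  constructor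
  rw [unif, Measure.restrict_apply_univ, Measure.volume_eq_prod, Measure.prod_prod,
    Real.volume_Icc, Real.volume_Icc]
  simp

/-- a sample exists -/
theorem exists_sample : ∃ (Ω : Type) (_ : MeasurableSpace Ω) (P : Measure Ω)
    (X Y : ℕ → Ω → Pl), IsProbabilityMeasure P ∧ IsSample P X Y := by
  let μ : ℕ ⊕ ℕ → Measure Pl := fun k => Sum.elim (fun _ => unif 0) (fun _ => unif 2) k
  have hμ : ∀ k, IsProbabilityMeasure (μ k) := by
    rintro (k | k)
    · exact unif_prob 0
    · exact unif_prob 2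
  refine ⟨(ℕ ⊕ ℕ) → Pl, inferInstance, Measure.infinitePi μ, fun i ω => ω (Sum.inl i),
    fun i ω => ω (Sum.inr i), inferInstance, ?_⟩
  have hlaw : ∀ k, (Measure.infinitePi μ).map (fun ω : (ℕ ⊕ ℕ) → Pl => ω k) = μ k :=
    fun k => (measurePreserving_eval_infinitePi μ k).map_eq
  refine ⟨fun i => measurable_pi_apply _, fun i => measurable_pi_apply _, fun i => hlaw _,
    fun i => hlaw _, ?_⟩
  have h1 : iIndepFun (fun (k : ℕ ⊕ ℕ) (ω : (ℕ ⊕ ℕ) → Pl) => ω k) (Measure.infinitePi μ) :=
    iIndepFun_infinitePi (P := μ) (X := fun _ => id) (fun _ => measurable_id)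
  have h2 : (fun k : ℕ ⊕ ℕ => Sum.elim (fun (i : ℕ) (ω : (ℕ ⊕ ℕ) → Pl) => ω (Sum.inl i))
      (fun (i : ℕ) (ω : (ℕ ⊕ ℕ) → Pl) => ω (Sum.inr i)) k) =
      (fun (k : ℕ ⊕ ℕ) (ω : (ℕ ⊕ ℕ) → Pl) => ω k) := by
    funext k ω
    rcases k with k | k <;> rfl
  rw [h2]
  exact h1

/-- if the optimal plans converge in probability to a deterministic plan, this plan is, on an
event of positive probability, a limit point of some sequence of optimal plans -/
theorem cluster_of_conv (h : IsSample P X Y) {ν : ProbabilityMeasure (Pl × Pl)}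
    (hconv : ∀ U ∈ 𝓝 ν, Tendsto (fun n : ℕ => P {ω | ∃ π : ProbabilityMeasure (Pl × Pl),
      IsOptimalPlan (emp n (fun i => X i ω)) (emp n (fun i => Y i ω)) π ∧ π ∉ U})
        atTop (𝓝 0)) :
    ∀ᵐ ω ∂P, ∃ π : ℕ → ProbabilityMeasure (Pl × Pl),
      (∀ n : ℕ, 1 ≤ n →
        IsOptimalPlan (emp n (fun i => X i ω)) (emp n (fun i => Y i ω)) (π n)) ∧
      MapClusterPt ν atTop π := by
  have hdX := ae_distinct h.measX h.lawX (h.indep.precomp (g := Sum.inl) Sum.inl_injective)
  have hdY := ae_distinct h.measY h.lawY (h.indep.precomp (g := Sum.inr) Sum.inr_injective)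
  obtain ⟨U, hU⟩ := (𝓝 ν).exists_antitone_basis
  have hex : ∀ k : ℕ, ∃ N, ∀ n ≥ N, P {ω | ∃ π : ProbabilityMeasure (Pl × Pl),
      IsOptimalPlan (emp n (fun i => X i ω)) (emp n (fun i => Y i ω)) π ∧ π ∉ U k} ≤
        ((2 : ℝ≥0∞)⁻¹) ^ (k + 1) := by
    intro k
    have h1 := hconv (U k) (hU.1.mem_of_mem trivial)
    have h2 : (0 : ℝ≥0∞) < ((2 : ℝ≥0∞)⁻¹) ^ (k + 1) := by
      apply ENNReal.pow_pos
      simp
    have h3 := h1.eventually (gt_mem_nhds h2)
    obtain ⟨N, hN⟩ := eventually_atTop.1 h3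
    exact ⟨N, fun n hn => (hN n hn).le⟩
  obtain ⟨φ, hφ, hφP⟩ := extraction_forall_of_eventually' hex
  have hsum : (∑' k, P {ω | ∃ π : ProbabilityMeasure (Pl × Pl),
      IsOptimalPlan (emp (φ k) (fun i => X i ω)) (emp (φ k) (fun i => Y i ω)) π ∧ π ∉ U k}) ≠
        ∞ := by
    refine ne_top_of_le_ne_top ?_ (ENNReal.tsum_le_tsum hφP)
    have h4 : (∑' k : ℕ, ((2 : ℝ≥0∞)⁻¹) ^ (k + 1)) = 1 := by
      rw [ENNReal.tsum_geometric_add_one, ENNReal.one_sub_inv_two, inv_inv]
      exact ENNReal.inv_mul_cancel (by norm_num) (by norm_num)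
    rw [h4]
    exact ENNReal.one_ne_top
  filter_upwards [hdX, hdY, ae_eventually_notMem hsum] with ω hωX hωY hω
  have hopt : ∀ n : ℕ, 1 ≤ n → ∃ π : ProbabilityMeasure (Pl × Pl),
      IsOptimalPlan (emp n (fun i => X i ω)) (emp n (fun i => Y i ω)) π := by
    intro n hn
    apply exists_optimal_plan (Nat.lt_of_lt_of_le Nat.zero_lt_one hn)
    · intro i j hij
      by_contra hne
      exact hωX i j (fun h5 => hne (Fin.ext h5)) hij
    · intro i j hij
      by_contra hne
      exact hωY i j (fun h5 => hne (Fin.ext h5)) hij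
  classical
  let π : ℕ → ProbabilityMeasure (Pl × Pl) := fun n =>
    if hn : 1 ≤ n then (hopt n hn).choose else ν
  have hπ : ∀ n : ℕ, 1 ≤ n →
      IsOptimalPlan (emp n (fun i => X i ω)) (emp n (fun i => Y i ω)) (π n) := by
    intro n hn
    have h6 : π n = (hopt n hn).choose := dif_pos hn
    rw [h6]
    exact (hopt n hn).choose_spec
  refine ⟨π, hπ, ?_⟩
  have hev : ∀ᶠ k in atTop, π (φ k) ∈ U k := by
    filter_upwards [hω, eventually_ge_atTop 1] with k hk hk1
    by_contra hnot
    exact hk ⟨π (φ k), hπ _ (hk1.trans (hφ.id_le k)), hnot⟩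
  have htend : Tendsto (π ∘ φ) atTop (𝓝 ν) := by
    rw [hU.1.tendsto_right_iff]
    intro j _
    filter_upwards [hev, eventually_ge_atTop j] with k hk hjk
    exact hU.2 hjk hk
  exact MapClusterPt.of_comp hφ.tendsto_atTop htend.mapClusterPt

/-- `limPlan γ` is a coupling of the population measures -/
theorem limPlan_coupling {γ : Measure (ℝ × ℝ)} [IsProbabilityMeasure γ]
    (h1 : γ.map Prod.fst = volume.restrict (Set.Icc (0 : ℝ) 1))
    (h2 : γ.map Prod.snd = volume.restrict (Set.Icc (2 : ℝ) 3)) :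
    IsCoupling (unif 0) (unif 2) (limPlan γ) := by
  have hm : Measurable (fun q : (ℝ × ℝ) × ℝ => (((q.1.1, q.2), (q.1.2, q.2)) : Pl × Pl)) := by
    fun_prop
  have hu : ∀ l : ℝ, unif l = (volume.restrict (Set.Icc l (l + 1))).prod
      (volume.restrict (Set.Icc (0 : ℝ) 1)) := by
    intro l
    rw [unif, Measure.volume_eq_prod, Measure.prod_restrict]
  have hfin : IsFiniteMeasure ((volume : Measure ℝ).restrict (Set.Icc (0 : ℝ) 1)) := by
    constructor
    rw [Measure.restrict_apply_univ, Real.volume_Icc]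
    exact ENNReal.ofReal_lt_top
  constructor
  · have h3 := Measure.map_prod_map γ (volume.restrict (Set.Icc (0 : ℝ) 1))
      (measurable_fst (α := ℝ) (β := ℝ)) measurable_id
    rw [Measure.map_id, h1] at h3
    rw [limPlan, Measure.map_map measurable_fst hm, hu, zero_add, h3]
    rfl
  · have h3 := Measure.map_prod_map γ (volume.restrict (Set.Icc (0 : ℝ) 1))
      (measurable_snd (α := ℝ) (β := ℝ)) measurable_id
    have h4 : (2 : ℝ) + 1 = 3 := by norm_num
    rw [Measure.map_id, h2] at h3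
    rw [limPlan, Measure.map_map measurable_snd hm, hu, h4, h3]
    rfl

end Pool.Agent.H27.OTC
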