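import Pool.Agent.H27.OTC.Moments

/-!
Job OTC-B-WIN: Poisson limit of window functionals.
-/

set_option autoImplicit false

open MeasureTheory ProbabilityTheory Filter Topology
open scoped ENNReal

namespace Pool.Agent.H27.OTC

open Pool.Agent.H96.OT (Pl)

/-- the window of heights in `(0, B]` -/
def win (B : ℝ) : Set Pl := {p | 0 < p.2 ∧ p.2 ≤ B}

/-- Expectation of the window functional `g` (vanishing if there are more than `N` points of
one type) under the Poisson processes of intensity one on the strips. -/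
noncomputable def poi (N : ℕ) (B : ℝ) (g : Conf → ℝ≥0∞) : ℝ≥0∞ :=
  ∑ j ∈ Finset.range (N + 1), ∑ j' ∈ Finset.range (N + 1),
    ENNReal.ofReal (Real.exp (-(2 * B)) / ((j.factorial : ℝ) * (j'.factorial : ℝ))) *
      ∫⁻ c, g c ∂(iid (volume.restrict (Set.Icc (0 : ℝ) 1 ×ˢ Set.Ioc (0 : ℝ) B))
        (volume.restrict (Set.Icc (2 : ℝ) 3 ×ˢ Set.Ioc (0 : ℝ) B)) j j')

/-- window functionals -/
structure WinFun (N : ℕ) (B M : ℝ) (g : Conf → ℝ≥0∞) : Prop where
  meas : Measurable g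
  bdd : ∀ c, g c ≤ ENNReal.ofReal M
  loc : ∀ c, g c = g (c.filt (win B))
  card : ∀ c, (N < c.nX (win B) ∨ N < c.nY (win B)) → g c = 0

/-- auxiliary: the natural number subtraction disappears in the limit -/
theorem binom_sub_tendsto {s : ℕ → ℝ} {m : ℕ → ℕ} (hs0 : ∀ n, 0 < s n)
    (hs : Tendsto s atTop (𝓝 0)) (hsm : Tendsto (fun n => s n * m n) atTop (𝓝 1)) (j : ℕ) :
    Tendsto (fun n => s n * ((m n - j : ℕ) : ℝ)) atTop (𝓝 1) := by
  have h1 : Tendsto (fun n => s n * m n - s n * j) atTop (𝓝 (1 - 0 * j)) :=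
    hsm.sub (hs.mul_const _)
  rw [zero_mul, sub_zero] at h1
  refine tendsto_of_tendsto_of_tendsto_of_le_of_le h1 hsm (fun n => ?_) (fun n => ?_)
  · have : (m n : ℝ) - j ≤ ((m n - j : ℕ) : ℝ) := by
      rcases le_total j (m n) with h | h
      · rw [Nat.cast_sub h]
      · rw [Nat.sub_eq_zero_of_le h]
        have : (m n : ℝ) ≤ j := by exact_mod_cast h
        push_cast
        linarith
    have h2 := mul_le_mul_of_nonneg_left this (hs0 n).le
    show s n * m n - s n * j ≤ s n * ((m n - j : ℕ) : ℝ)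
    linarith
  · have : ((m n - j : ℕ) : ℝ) ≤ m n := by exact_mod_cast Nat.sub_le _ _
    exact mul_le_mul_of_nonneg_left this (hs0 n).le

theorem binom_desc_tendsto {s : ℕ → ℝ} {m : ℕ → ℕ} (hs0 : ∀ n, 0 < s n)
    (hs : Tendsto s atTop (𝓝 0)) (hsm : Tendsto (fun n => s n * m n) atTop (𝓝 1)) (j : ℕ) :
    Tendsto (fun n => ((m n).descFactorial j : ℝ) * s n ^ j) atTop (𝓝 1) := by
  induction j with
  | zero => simp
  | succ j ih =>
    have h := (binom_sub_tendsto hs0 hs hsm j).mul ih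
    rw [mul_one] at h
    refine h.congr fun n => ?_
    rw [Nat.descFactorial_succ]
    push_cast
    ring

theorem binom_choose_tendsto {s : ℕ → ℝ} {m : ℕ → ℕ} (hs0 : ∀ n, 0 < s n)
    (hs : Tendsto s atTop (𝓝 0)) (hsm : Tendsto (fun n => s n * m n) atTop (𝓝 1)) (j : ℕ) :
    Tendsto (fun n => ((m n).choose j : ℝ) * s n ^ j) atTop (𝓝 (1 / (j.factorial : ℝ))) := by
  have hj : (j.factorial : ℝ) ≠ 0 := by exact_mod_cast Nat.factorial_ne_zero j
  have h := (binom_desc_tendsto hs0 hs hsm j).div_const (j.factorial : ℝ)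
  refine h.congr fun n => ?_
  rw [Nat.descFactorial_eq_factorial_mul_choose]
  push_cast
  field_simp

theorem binom_pow_tendsto (B : ℝ) {s : ℕ → ℝ} {m : ℕ → ℕ} (hs0 : ∀ n, 0 < s n)
    (hs : Tendsto s atTop (𝓝 0)) (hsm : Tendsto (fun n => s n * m n) atTop (𝓝 1)) (j : ℕ) :
    Tendsto (fun n => (1 - s n * B) ^ (m n - j)) atTop (𝓝 (Real.exp (-B))) := by
  have hsub := binom_sub_tendsto hs0 hs hsm j
  have hsB : Tendsto (fun n => 1 - s n * B) atTop (𝓝 (1 - 0 * B)) :=
    tendsto_const_nhds.sub (hs.mul_const B)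
  rw [zero_mul, sub_zero] at hsB
  have hev : ∀ᶠ n in atTop, 0 < 1 - s n * B := hsB.eventually (lt_mem_nhds one_pos)
  -- upper and lower bounds of the exponent
  have hup : Tendsto (fun n => -(s n * ((m n - j : ℕ) : ℝ) * B)) atTop (𝓝 (-B)) := by
    have := (hsub.mul_const B).neg
    rwa [one_mul] at this
  have hlo : Tendsto (fun n => -(s n * ((m n - j : ℕ) : ℝ) * B) / (1 - s n * B)) atTop
      (𝓝 (-B)) := by
    have := hup.div hsB one_ne_zero
    rwa [div_one] at this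
  have hlog : Tendsto (fun n => ((m n - j : ℕ) : ℝ) * Real.log (1 - s n * B)) atTop
      (𝓝 (-B)) := by
    refine tendsto_of_tendsto_of_tendsto_of_le_of_le' hlo hup ?_ ?_
    · filter_upwards [hev] with n hn
      have h1 := Real.one_sub_inv_le_log_of_pos hn
      have h2 : 1 - (1 - s n * B)⁻¹ = -(s n * B) / (1 - s n * B) := by
        field_simp
        ring
      rw [h2] at h1
      calc -(s n * ((m n - j : ℕ) : ℝ) * B) / (1 - s n * B)
          = ((m n - j : ℕ) : ℝ) * (-(s n * B) / (1 - s n * B)) := by ring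
        _ ≤ _ := mul_le_mul_of_nonneg_left h1 (Nat.cast_nonneg _)
    · filter_upwards [hev] with n hn
      have h1 := Real.log_le_sub_one_of_pos hn
      have h2 := mul_le_mul_of_nonneg_left h1 (Nat.cast_nonneg (α := ℝ) (m n - j))
      linarith
  have h := (Real.continuous_exp.tendsto _).comp hlog
  refine h.congr' ?_
  filter_upwards [hev] with n hn
  show Real.exp (((m n - j : ℕ) : ℝ) * Real.log (1 - s n * B)) = _
  rw [mul_comm, Real.exp_mul, Real.exp_log hn, Real.rpow_natCast]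

/-- convergence of the binomial weights -/
theorem binom_lim {B : ℝ} (hB : 0 < B) (j : ℕ) {ε : ℝ} (hε : 0 < ε) :
    ∃ κ₀ s₁ : ℝ, 0 < κ₀ ∧ 0 < s₁ ∧ ∀ (s κ : ℝ) (m : ℕ), 0 < s → s ≤ s₁ → κ ≤ κ₀ →
      |s * m - 1| ≤ κ → |(m.choose j : ℝ) * s ^ j * (1 - s * B) ^ (m - j)
        - Real.exp (-B) / (j.factorial : ℝ)| ≤ ε := by
  by_contra hcon
  push Not at hcon
  have hp : ∀ n : ℕ, (0 : ℝ) < 1 / ((n : ℝ) + 1) := fun n => by positivity
  choose s κ m hs0 hs1 hκ hm hbad using fun n : ℕ => hcon (1 / ((n : ℝ) + 1))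
    (1 / ((n : ℝ) + 1)) (hp n) (hp n)
  have hz := tendsto_one_div_add_atTop_nhds_zero_nat (𝕜 := ℝ)
  have hs : Tendsto s atTop (𝓝 0) := squeeze_zero (fun n => (hs0 n).le) hs1 hz
  have hsm : Tendsto (fun n => s n * m n) atTop (𝓝 1) := by
    rw [tendsto_iff_norm_sub_tendsto_zero]
    exact squeeze_zero (fun n => norm_nonneg _) (fun n => (hm n).trans (hκ n)) hz
  have h1 := (binom_choose_tendsto hs0 hs hsm j).mul (binom_pow_tendsto B hs0 hs hsm j)
  have h2 : 1 / (j.factorial : ℝ) * Real.exp (-B) = Real.exp (-B) / (j.factorial : ℝ) := by ring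
  rw [h2, tendsto_iff_norm_sub_tendsto_zero] at h1
  obtain ⟨n, hn⟩ := (h1.eventually (gt_mem_nhds hε)).exists
  have h3 := hbad n
  rw [Real.norm_eq_abs] at hn
  linarith


/-! ### the window measures -/

/-- Lebesgue measure on the window over `[l, l+1]` -/
noncomputable def vW (l B : ℝ) : Measure Pl :=
  volume.restrict (Set.Icc l (l + 1) ×ˢ Set.Ioc (0 : ℝ) B)

instance vW_sigma (l B : ℝ) : SigmaFinite (vW l B) := by
  unfold vW
  infer_instance

theorem vW_univ (l B : ℝ) : vW l B Set.univ = ENNReal.ofReal B := by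
  unfold vW
  rw [Measure.restrict_apply_univ, Measure.volume_eq_prod, Measure.prod_prod, Real.volume_Icc,
    Real.volume_Ioc]
  have : l + 1 - l = 1 := by ring
  rw [this, ENNReal.ofReal_one, one_mul, sub_zero]

theorem measurableSet_win (B : ℝ) : MeasurableSet (win B) := measurableSet_slab 0 B

theorem flat_win {l s B B' : ℝ} {ν : Measure Pl} (h : Flat l s B' ν) (hBB : B ≤ B') :
    ν.restrict (win B) = ENNReal.ofReal s • vW l B := by
  have hsub : win B ⊆ {p : Pl | p.2 ≤ B'} := fun p hp => hp.2.trans hBB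
  rw [← Measure.restrict_restrict_of_subset hsub, h.eq, Measure.restrict_smul,
    Measure.restrict_restrict (measurableSet_win B)]
  unfold vW
  congr 2
  ext p
  simp only [win, Set.mem_inter_iff, Set.mem_ofPred_eq, Set.mem_prod, Set.mem_Icc, Set.mem_Ioc]
  constructor
  · rintro ⟨h1, h2, h3⟩
    exact ⟨h2, h1⟩
  · rintro ⟨h1, h2⟩
    exact ⟨h2, h1, h2.1, h2.2.trans hBB⟩

theorem flat_win_univ {l s B B' : ℝ} {ν : Measure Pl} (h : Flat l s B' ν) (hBB : B ≤ B') :
    ν (win B) = ENNReal.ofReal (s * B) := by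
  rw [← Measure.restrict_apply_univ, flat_win h hBB, Measure.smul_apply, vW_univ, smul_eq_mul,
    ENNReal.ofReal_mul h.spos.le]

theorem flat_compl_univ {l s B B' : ℝ} {ν : Measure Pl} (h : Flat l s B' ν) (hB : 0 ≤ B)
    (hBB : B ≤ B') :
    ν.restrict (win B)ᶜ Set.univ = ENNReal.ofReal (1 - s * B) ∧ 0 ≤ 1 - s * B := by
  have := h.prob
  have h0 : 0 ≤ s * B := mul_nonneg h.spos.le hB
  have h1 : ENNReal.ofReal (s * B) ≤ 1 := by
    rw [← flat_win_univ h hBB]
    exact prob_le_one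
  have h2 : s * B ≤ 1 := by
    rwa [ENNReal.ofReal_le_one] at h1
  refine ⟨?_, by linarith⟩
  rw [Measure.restrict_apply_univ, prob_compl_eq_one_sub (measurableSet_win B),
    flat_win_univ h hBB, ENNReal.ofReal_sub _ h0, ENNReal.ofReal_one]

/-- the integral over the window measures -/
noncomputable def wI (B : ℝ) (g : Conf → ℝ≥0∞) (j j' : ℕ) : ℝ≥0∞ :=
  ∫⁻ c, g c ∂(iid (vW 0 B) (vW 2 B) j j')

theorem poi_eq (N : ℕ) (B : ℝ) (g : Conf → ℝ≥0∞) : poi N B g =
    ∑ j ∈ Finset.range (N + 1), ∑ j' ∈ Finset.range (N + 1),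
      ENNReal.ofReal (Real.exp (-(2 * B)) / ((j.factorial : ℝ) * (j'.factorial : ℝ))) *
        wI B g j j' := by
  unfold poi wI vW
  norm_num

theorem wI_le {N : ℕ} {B M : ℝ} (hB : 0 ≤ B) (hM : 0 ≤ M) {g : Conf → ℝ≥0∞}
    (hg : WinFun N B M g) (j j' : ℕ) : wI B g j j' ≤ ENNReal.ofReal (M * (B ^ j * B ^ j')) := by
  unfold wI
  calc ∫⁻ c, g c ∂(iid (vW 0 B) (vW 2 B) j j')
      ≤ ∫⁻ _, ENNReal.ofReal M ∂(iid (vW 0 B) (vW 2 B) j j') :=
        lintegral_mono fun c => hg.bdd c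
    _ = ENNReal.ofReal (M * (B ^ j * B ^ j')) := by
        rw [lintegral_const, iid_univ, vW_univ, vW_univ, ENNReal.ofReal_mul hM,
          ENNReal.ofReal_mul (pow_nonneg hB _), ENNReal.ofReal_pow hB, ENNReal.ofReal_pow hB]

theorem ae_vW (l B : ℝ) : ∀ᵐ x ∂(vW l B), x ∈ win B := by
  unfold vW
  refine (ae_restrict_mem (measurableSet_Icc.prod measurableSet_Ioc)).mono fun x hx => ?_
  exact hx.2

open Classical in
theorem wI_zero {N : ℕ} {B M : ℝ} {g : Conf → ℝ≥0∞}
    (hg : WinFun N B M g) (j j' : ℕ) (h : N < j ∨ N < j') : wI B g j j' = 0 := by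
  unfold wI
  have h1 := iid_card (vW 0 B) (vW 2 B) j j'
  have h2 := iid_forall (vW 0 B) (vW 2 B) (ae_vW 0 B) (ae_vW 2 B) (measurableSet_win B)
    (measurableSet_win B) j j'
  have h3 : g =ᵐ[iid (vW 0 B) (vW 2 B) j j'] 0 := by
    filter_upwards [h1, h2] with c hc hc'
    have e1 : c.nX (win B) = j := by
      unfold Conf.nX Conf.filt
      rw [← hc.1]
      exact congrArg Multiset.card (Multiset.filter_eq_self.2 hc'.1)
    have e2 : c.nY (win B) = j' := by
      unfold Conf.nY Conf.filt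
      rw [← hc.2]
      exact congrArg Multiset.card (Multiset.filter_eq_self.2 hc'.2)
    exact hg.card c (by rw [e1, e2]; exact h)
  rw [lintegral_congr_ae h3]
  simp

theorem sum_range_eq_of_zero {f : ℕ → ℝ≥0∞} {a b : ℕ} (h : ∀ j, a ≤ j ∨ b ≤ j → f j = 0) :
    ∑ j ∈ Finset.range a, f j = ∑ j ∈ Finset.range b, f j := by
  rcases le_total a b with hab | hab
  · refine Finset.sum_subset (Finset.range_mono hab) fun j _ hj => h j (Or.inl ?_)
    simpa using hj
  · symm
    refine Finset.sum_subset (Finset.range_mono hab) fun j _ hj => h j (Or.inr ?_)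
    simpa using hj

/-- binomial weight -/
noncomputable def wB (B s : ℝ) (m j : ℕ) : ℝ := (m.choose j : ℝ) * s ^ j * (1 - s * B) ^ (m - j)

theorem wB_ofReal {B s : ℝ} {m j : ℕ} (hs : 0 ≤ s) (h1 : 0 ≤ 1 - s * B) :
    ENNReal.ofReal (wB B s m j) =
      (m.choose j : ℝ≥0∞) * ENNReal.ofReal s ^ j * ENNReal.ofReal (1 - s * B) ^ (m - j) := by
  unfold wB
  rw [ENNReal.ofReal_mul (by positivity), ENNReal.ofReal_mul (by positivity),
    ENNReal.ofReal_natCast, ENNReal.ofReal_pow hs, ENNReal.ofReal_pow h1]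

theorem wB_nonneg {B s : ℝ} {m j : ℕ} (hs : 0 ≤ s) (h1 : 0 ≤ 1 - s * B) : 0 ≤ wB B s m j := by
  unfold wB
  positivity

theorem win_expand {N : ℕ} {B M s s' B' : ℝ} (hB : 0 < B) {g : Conf → ℝ≥0∞}
    (hg : WinFun N B M g) {ν ν' : Measure Pl} (h : Flat 0 s B' ν) (h' : Flat 2 s' B' ν')
    (hBB : B ≤ B') (m m' : ℕ) :
    ∫⁻ c, g c ∂(iid ν ν' m m') = ∑ j ∈ Finset.range (N + 1), ∑ j' ∈ Finset.range (N + 1),
      ENNReal.ofReal (wB B s m j * wB B s' m' j') * wI B g j j' := by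
  have hp1 := h.prob
  have hp2 := h'.prob
  have i1 : SigmaFinite (ENNReal.ofReal s • vW 0 B) := by
    rw [← flat_win h hBB]
    infer_instance
  have i2 : SigmaFinite (ENNReal.ofReal s' • vW 2 B) := by
    rw [← flat_win h' hBB]
    infer_instance
  have hd := iid_decomp ν ν' (measurableSet_win B) hg.meas
    (measurable_const (a := (1 : ℝ≥0∞))) m m'
  simp only [mul_one, ← hg.loc, lintegral_const, one_mul] at hd
  rw [hd]
  have hterm : ∀ j j' : ℕ, (m.choose j : ℝ≥0∞) * (m'.choose j' : ℝ≥0∞) *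
      ((∫⁻ c, g c ∂(iid (ν.restrict (win B)) (ν'.restrict (win B)) j j')) *
        (iid (ν.restrict (win B)ᶜ) (ν'.restrict (win B)ᶜ) (m - j) (m' - j')) Set.univ) =
      ENNReal.ofReal (wB B s m j * wB B s' m' j') * wI B g j j' := by
    intro j j'
    obtain ⟨c1, c1'⟩ := flat_compl_univ h hB.le hBB
    obtain ⟨c2, c2'⟩ := flat_compl_univ h' hB.le hBB
    rw [iid_univ, c1, c2, flat_win h hBB, flat_win h' hBB, iid_smul, lintegral_smul_measure,
      ENNReal.ofReal_mul (wB_nonneg h.spos.le c1'), wB_ofReal h.spos.le c1',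
      wB_ofReal h'.spos.le c2', smul_eq_mul]
    unfold wI
    ring
  have hz1 : ∀ j j' : ℕ, m + 1 ≤ j ∨ N + 1 ≤ j →
      ENNReal.ofReal (wB B s m j * wB B s' m' j') * wI B g j j' = 0 := by
    intro j j' hj
    rcases hj with hj | hj
    · have : wB B s m j = 0 := by
        unfold wB
        rw [Nat.choose_eq_zero_of_lt (by omega)]
        simp
      rw [this]
      simp
    · rw [wI_zero hg j j' (Or.inl (by omega)), mul_zero]
  have hz2 : ∀ j j' : ℕ, m' + 1 ≤ j' ∨ N + 1 ≤ j' →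
      ENNReal.ofReal (wB B s m j * wB B s' m' j') * wI B g j j' = 0 := by
    intro j j' hj
    rcases hj with hj | hj
    · have : wB B s' m' j' = 0 := by
        unfold wB
        rw [Nat.choose_eq_zero_of_lt (by omega)]
        simp
      rw [this]
      simp
    · rw [wI_zero hg j j' (Or.inr (by omega)), mul_zero]
  simp only [hterm]
  rw [sum_range_eq_of_zero (f := fun j => ∑ j' ∈ Finset.range (m' + 1),
    ENNReal.ofReal (wB B s m j * wB B s' m' j') * wI B g j j') (a := m + 1) (b := N + 1)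
    (fun j hj => Finset.sum_eq_zero fun j' _ => hz1 j j' hj)]
  refine Finset.sum_congr rfl fun j _ => ?_
  exact sum_range_eq_of_zero fun j' hj' => hz2 j j' hj'

/-- `binom_lim` for all `j ≤ N` at once -/
theorem binom_lim_all {B : ℝ} (hB : 0 < B) (N : ℕ) {ε : ℝ} (hε : 0 < ε) :
    ∃ κ₀ s₁ : ℝ, 0 < κ₀ ∧ 0 < s₁ ∧ ∀ (s κ : ℝ) (m j : ℕ), 0 < s → s ≤ s₁ → κ ≤ κ₀ →
      |s * m - 1| ≤ κ → j < N → |wB B s m j - Real.exp (-B) / (j.factorial : ℝ)| ≤ ε := by
  induction N with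
  | zero => exact ⟨1, 1, one_pos, one_pos, fun s κ m j _ _ _ _ hj => absurd hj (Nat.not_lt_zero j)⟩
  | succ N ih =>
    obtain ⟨κ₀, s₁, hκ, hs, h⟩ := ih
    obtain ⟨κ₀', s₁', hκ', hs', h'⟩ := binom_lim hB N hε
    refine ⟨min κ₀ κ₀', min s₁ s₁', lt_min hκ hκ', lt_min hs hs', ?_⟩
    intro s κ m j h0 h1 h2 h3 hj
    rcases Nat.lt_succ_iff_lt_or_eq.1 hj with hlt | heq
    · exact h s κ m j h0 (h1.trans (min_le_left _ _)) (h2.trans (min_le_left _ _)) h3 hlt
    · rw [heq]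
      exact h' s κ m h0 (h1.trans (min_le_right _ _)) (h2.trans (min_le_right _ _)) h3

theorem pW_le_one {B : ℝ} (hB : 0 < B) (j : ℕ) :
    0 ≤ Real.exp (-B) / (j.factorial : ℝ) ∧ Real.exp (-B) / (j.factorial : ℝ) ≤ 1 := by
  have hj : (1 : ℝ) ≤ (j.factorial : ℝ) := by
    exact_mod_cast Nat.one_le_iff_ne_zero.2 (Nat.factorial_ne_zero j)
  refine ⟨by positivity, ?_⟩
  rw [div_le_one (by linarith)]
  refine le_trans ?_ hj
  rw [Real.exp_le_one_iff]
  linarith

/-- Window functionals converge to their Poisson expectations, uniformly over all window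
functionals with given `N`, `B`, `M`. -/
theorem window_lim (N : ℕ) {B M : ℝ} (hB : 0 < B) (hM : 0 < M) {ε : ℝ} (hε : 0 < ε) :
    ∃ κ₀ s₁ : ℝ, 0 < κ₀ ∧ 0 < s₁ ∧ ∀ (g : Conf → ℝ≥0∞), WinFun N B M g →
      ∀ (κ s₀ B' : ℝ) (ν ν' : Measure Pl) (m m' : ℕ), κ ≤ κ₀ → s₀ ≤ s₁ → B ≤ B' →
        Near κ s₀ B' ν ν' m m' →
        ∫⁻ c, g c ∂(iid ν ν' m m') ≤ poi N B g + ENNReal.ofReal ε ∧
          poi N B g ≤ ∫⁻ c, g c ∂(iid ν ν' m m') + ENNReal.ofReal ε := by
  set K : ℝ := ∑ j ∈ Finset.range (N + 1), ∑ j' ∈ Finset.range (N + 1), M * (B ^ j * B ^ j')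
    with hK
  have hK0 : 0 < K := by
    rw [hK]
    refine Finset.sum_pos (fun j _ => Finset.sum_pos (fun j' _ => by positivity) ?_) ?_
    · exact ⟨0, Finset.mem_range.2 (Nat.succ_pos N)⟩
    · exact ⟨0, Finset.mem_range.2 (Nat.succ_pos N)⟩
  set δ : ℝ := ε / K with hδ
  have hδ0 : 0 < δ := div_pos hε hK0
  set η : ℝ := min 1 (δ / 3) with hη
  have hη0 : 0 < η := lt_min one_pos (by linarith)
  have hη1 : η ≤ 1 := min_le_left _ _
  have hηδ : 3 * η ≤ δ := by
    have : η ≤ δ / 3 := min_le_right _ _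
    linarith
  obtain ⟨κ₀, s₁, hκ₀, hs₁, hlim⟩ := binom_lim_all hB (N + 1) hη0
  refine ⟨κ₀, s₁, hκ₀, hs₁, ?_⟩
  intro g hg κ s₀ B' ν ν' m m' hκ hs₀ hBB hnear
  obtain ⟨s, hs, hsm, hss⟩ := hnear.flatX
  obtain ⟨s', hs', hsm', hss'⟩ := hnear.flatY
  rw [win_expand hB hg hs hs' hBB m m', poi_eq]
  have hI : ∀ j j' : ℕ, ENNReal.ofReal δ * wI B g j j' ≤
      ENNReal.ofReal (δ * (M * (B ^ j * B ^ j'))) := by
    intro j j'
    rw [ENNReal.ofReal_mul hδ0.le]
    gcongr
    exact wI_le hB.le hM.le hg j j'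
  have hsum : ∑ j ∈ Finset.range (N + 1), ∑ j' ∈ Finset.range (N + 1),
      ENNReal.ofReal δ * wI B g j j' ≤ ENNReal.ofReal ε := by
    calc ∑ j ∈ Finset.range (N + 1), ∑ j' ∈ Finset.range (N + 1), ENNReal.ofReal δ * wI B g j j'
        ≤ ∑ j ∈ Finset.range (N + 1), ∑ j' ∈ Finset.range (N + 1),
            ENNReal.ofReal (δ * (M * (B ^ j * B ^ j'))) :=
          Finset.sum_le_sum fun j _ => Finset.sum_le_sum fun j' _ => hI j j'
      _ = ENNReal.ofReal (δ * K) := by
          rw [hK, Finset.mul_sum, ENNReal.ofReal_sum_of_nonneg]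
          · refine Finset.sum_congr rfl fun j _ => ?_
            rw [Finset.mul_sum, ENNReal.ofReal_sum_of_nonneg]
            intro j' _
            positivity
          · intro j _
            exact mul_nonneg hδ0.le (Finset.sum_nonneg fun j' _ => by positivity)
      _ = ENNReal.ofReal ε := by
          rw [hδ, div_mul_cancel₀ _ hK0.ne']
  -- termwise comparison of the weights
  have hcmp : ∀ j ∈ Finset.range (N + 1), ∀ j' ∈ Finset.range (N + 1),
      |wB B s m j * wB B s' m' j'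
        - Real.exp (-(2 * B)) / ((j.factorial : ℝ) * (j'.factorial : ℝ))| ≤ δ := by
    intro j hj j' hj'
    have h1 := hlim s κ m j hs.spos (hss.trans hs₀) hκ hsm (Finset.mem_range.1 hj)
    have h2 := hlim s' κ m' j' hs'.spos (hss'.trans hs₀) hκ hsm' (Finset.mem_range.1 hj')
    have hp := pW_le_one hB j
    have hp' := pW_le_one hB j'
    set p := Real.exp (-B) / (j.factorial : ℝ) with hpdef
    set p' := Real.exp (-B) / (j'.factorial : ℝ) with hpdef'
    have e : Real.exp (-(2 * B)) / ((j.factorial : ℝ) * (j'.factorial : ℝ)) = p * p' := by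
      rw [hpdef, hpdef', div_mul_div_comm, ← Real.exp_add]
      congr 2
      ring
    rw [e]
    set w := wB B s m j
    set w' := wB B s' m' j'
    have e2 : w * w' - p * p' = (w - p) * (w' - p') + (w - p) * p' + p * (w' - p') := by ring
    rw [e2]
    have a1 : |(w - p) * (w' - p')| ≤ η * 1 := by
      rw [abs_mul]
      exact mul_le_mul h1 (h2.trans hη1) (abs_nonneg _) hη0.le
    have a2 : |(w - p) * p'| ≤ η * 1 := by
      rw [abs_mul]
      refine mul_le_mul h1 ?_ (abs_nonneg _) hη0.le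
      rw [abs_of_nonneg hp'.1]
      exact hp'.2
    have a3 : |p * (w' - p')| ≤ 1 * η := by
      rw [abs_mul]
      refine mul_le_mul ?_ h2 (abs_nonneg _) zero_le_one
      rw [abs_of_nonneg hp.1]
      exact hp.2
    have a4 := abs_add_three ((w - p) * (w' - p')) ((w - p) * p') (p * (w' - p'))
    linarith
  constructor
  · calc ∑ j ∈ Finset.range (N + 1), ∑ j' ∈ Finset.range (N + 1),
          ENNReal.ofReal (wB B s m j * wB B s' m' j') * wI B g j j'
        ≤ ∑ j ∈ Finset.range (N + 1), ∑ j' ∈ Finset.range (N + 1),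
          (ENNReal.ofReal (Real.exp (-(2 * B)) / ((j.factorial : ℝ) * (j'.factorial : ℝ))) *
            wI B g j j' + ENNReal.ofReal δ * wI B g j j') := by
          refine Finset.sum_le_sum fun j hj => Finset.sum_le_sum fun j' hj' => ?_
          rw [← add_mul]
          gcongr
          have := abs_le.1 (hcmp j hj j' hj')
          rw [← ENNReal.ofReal_add (by positivity) hδ0.le]
          exact ENNReal.ofReal_le_ofReal (by linarith [this.2])
      _ ≤ _ := by
          simp only [Finset.sum_add_distrib]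
          gcongr
  · calc ∑ j ∈ Finset.range (N + 1), ∑ j' ∈ Finset.range (N + 1),
          ENNReal.ofReal (Real.exp (-(2 * B)) / ((j.factorial : ℝ) * (j'.factorial : ℝ))) *
            wI B g j j'
        ≤ ∑ j ∈ Finset.range (N + 1), ∑ j' ∈ Finset.range (N + 1),
          (ENNReal.ofReal (wB B s m j * wB B s' m' j') * wI B g j j'
            + ENNReal.ofReal δ * wI B g j j') := by
          refine Finset.sum_le_sum fun j hj => Finset.sum_le_sum fun j' hj' => ?_
          rw [← add_mul]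
          gcongr
          have := abs_le.1 (hcmp j hj j' hj')
          have c1 := (flat_compl_univ hs hB.le hBB).2
          have c2 := (flat_compl_univ hs' hB.le hBB).2
          rw [← ENNReal.ofReal_add (mul_nonneg (wB_nonneg hs.spos.le c1)
            (wB_nonneg hs'.spos.le c2)) hδ0.le]
          exact ENNReal.ofReal_le_ofReal (by linarith [this.1])
      _ ≤ _ := by
          simp only [Finset.sum_add_distrib]
          gcongr

theorem poi_le {N : ℕ} {B M : ℝ} (hB : 0 < B) (hM : 0 ≤ M) {g : Conf → ℝ≥0∞}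
    (hg : WinFun N B M g) : poi N B g ≤ ENNReal.ofReal M := by
  rw [poi_eq]
  have hS : ∑ j ∈ Finset.range (N + 1), B ^ j / (j.factorial : ℝ) ≤ Real.exp B :=
    Real.sum_le_exp_of_nonneg hB.le _
  have hS0 : 0 ≤ ∑ j ∈ Finset.range (N + 1), B ^ j / (j.factorial : ℝ) :=
    Finset.sum_nonneg fun j _ => by positivity
  calc ∑ j ∈ Finset.range (N + 1), ∑ j' ∈ Finset.range (N + 1),
        ENNReal.ofReal (Real.exp (-(2 * B)) / ((j.factorial : ℝ) * (j'.factorial : ℝ))) *
          wI B g j j'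
      ≤ ∑ j ∈ Finset.range (N + 1), ∑ j' ∈ Finset.range (N + 1),
        ENNReal.ofReal ((M * Real.exp (-(2 * B))) *
          ((B ^ j / (j.factorial : ℝ)) * (B ^ j' / (j'.factorial : ℝ)))) := by
        refine Finset.sum_le_sum fun j _ => Finset.sum_le_sum fun j' _ => ?_
        have e : (M * Real.exp (-(2 * B))) *
            ((B ^ j / (j.factorial : ℝ)) * (B ^ j' / (j'.factorial : ℝ))) =
            (Real.exp (-(2 * B)) / ((j.factorial : ℝ) * (j'.factorial : ℝ))) *
              (M * (B ^ j * B ^ j')) := by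
          have h1 : (j.factorial : ℝ) ≠ 0 := by exact_mod_cast Nat.factorial_ne_zero j
          have h2 : (j'.factorial : ℝ) ≠ 0 := by exact_mod_cast Nat.factorial_ne_zero j'
          field_simp
        rw [e, ENNReal.ofReal_mul (by positivity)]
        gcongr
        exact wI_le hB.le hM hg j j'
    _ = ENNReal.ofReal ((M * Real.exp (-(2 * B))) *
          ((∑ j ∈ Finset.range (N + 1), B ^ j / (j.factorial : ℝ)) *
            ∑ j' ∈ Finset.range (N + 1), B ^ j' / (j'.factorial : ℝ))) := by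
        rw [Finset.sum_mul_sum, Finset.mul_sum, ENNReal.ofReal_sum_of_nonneg]
        · refine Finset.sum_congr rfl fun j _ => ?_
          rw [Finset.mul_sum, ENNReal.ofReal_sum_of_nonneg]
          intro j' _
          positivity
        · intro j _
          exact mul_nonneg (by positivity) (Finset.sum_nonneg fun j' _ => by positivity)
    _ ≤ ENNReal.ofReal M := by
        apply ENNReal.ofReal_le_ofReal
        have h1 : (∑ j ∈ Finset.range (N + 1), B ^ j / (j.factorial : ℝ)) *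
            (∑ j' ∈ Finset.range (N + 1), B ^ j' / (j'.factorial : ℝ)) ≤
            Real.exp B * Real.exp B := mul_le_mul hS hS hS0 (Real.exp_pos _).le
        have h2 : Real.exp (-(2 * B)) * (Real.exp B * Real.exp B) = 1 := by
          rw [← Real.exp_add, ← Real.exp_add]
          have : -(2 * B) + (B + B) = 0 := by ring
          rw [this, Real.exp_zero]
        calc (M * Real.exp (-(2 * B))) *
              ((∑ j ∈ Finset.range (N + 1), B ^ j / (j.factorial : ℝ)) *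
                ∑ j' ∈ Finset.range (N + 1), B ^ j' / (j'.factorial : ℝ))
            ≤ (M * Real.exp (-(2 * B))) * (Real.exp B * Real.exp B) := by gcongr
          _ = M * (Real.exp (-(2 * B)) * (Real.exp B * Real.exp B)) := by ring
          _ = M := by rw [h2, mul_one]

open Classical in
/-- the indicator of the pattern -/
noncomputable def patI (K : ℕ) (τ₁ : ℝ) (c : Conf) : ℝ≥0∞ := if Pat K τ₁ c then 1 else 0

theorem nX_win_of_cells (c : Conf) (n : ℕ)
    (h : ∀ j < n, c.nX {p | (j : ℝ) < p.2 ∧ p.2 ≤ j + 1} = 1) : c.nX (win (n : ℝ)) = n := by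
  induction n with
  | zero =>
    have h0 : win ((0 : ℕ) : ℝ) = ∅ := by
      ext p
      simp only [win, Nat.cast_zero, Set.mem_ofPred_eq, Set.mem_empty_iff_false, iff_false,
        not_and, not_le]
      exact fun h => h
    rw [h0]
    unfold Conf.nX Conf.filt
    simp
  | succ n ih =>
    have h1 : win ((n + 1 : ℕ) : ℝ) = win (n : ℝ) ∪ {p : Pl | (n : ℝ) < p.2 ∧ p.2 ≤ n + 1} := by
      ext p
      have hn : (0 : ℝ) ≤ n := Nat.cast_nonneg n
      simp only [win, Set.mem_union, Set.mem_ofPred_eq, Nat.cast_succ]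
      constructor
      · rintro ⟨h1, h2⟩
        rcases le_or_gt p.2 n with h3 | h3
        · exact Or.inl ⟨h1, h3⟩
        · exact Or.inr ⟨h3, h2⟩
      · rintro (⟨h1, h2⟩ | ⟨h1, h2⟩)
        · exact ⟨h1, by linarith⟩
        · exact ⟨by linarith, h2⟩
    have h2 : Disjoint (win (n : ℝ)) {p : Pl | (n : ℝ) < p.2 ∧ p.2 ≤ n + 1} :=
      Set.disjoint_left.2 fun p hp hp' => not_lt.2 hp.2 hp'.1
    rw [h1, nX_union h2, ih fun j hj => h j (by omega), h n (by omega)]

theorem nY_win_of_cells (c : Conf) (n : ℕ)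
    (h : ∀ j < n, c.nY {p | (j : ℝ) < p.2 ∧ p.2 ≤ j + 1} = 1) : c.nY (win (n : ℝ)) = n :=
  nX_win_of_cells ⟨c.Y, c.X⟩ n h

theorem winFun_pat (K : ℕ) (τ₁ : ℝ) : WinFun (2 * K) (2 * K : ℕ) 1 (patI K τ₁) := by
  have hW : ∀ j : ℕ, j < 2 * K → ∀ p : Pl, (j : ℝ) < p.2 → p.2 ≤ j + 1 →
      p ∈ win ((2 * K : ℕ) : ℝ) := by
    intro j hj p h1 h2
    have h3 : ((j : ℝ) + 1) ≤ ((2 * K : ℕ) : ℝ) := by exact_mod_cast hj
    have h4 : (0 : ℝ) ≤ j := Nat.cast_nonneg j
    exact ⟨by linarith, by linarith⟩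
  have hsum : ∀ c : Conf, Pat K τ₁ c → c.nX (win ((2 * K : ℕ) : ℝ)) = 2 * K ∧
      c.nY (win ((2 * K : ℕ) : ℝ)) = 2 * K := by
    intro c hc
    constructor
    · exact nX_win_of_cells c (2 * K) fun j hj => (hc j hj).1
    · exact nY_win_of_cells c (2 * K) fun j hj => (hc j hj).2.2.1
  refine ⟨?_, ?_, ?_, ?_⟩
  · exact Measurable.ite (measurableSet_pat K τ₁) measurable_const measurable_const
  · intro c
    unfold patI
    rw [ENNReal.ofReal_one]
    split_ifs <;> simp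
  · intro c
    have h : Pat K τ₁ c ↔ Pat K τ₁ (c.filt (win ((2 * K : ℕ) : ℝ))) := by
      unfold Pat
      refine forall_congr' fun j => forall_congr' fun hj => ?_
      have h1 : win ((2 * K : ℕ) : ℝ) ∩ {p : Pl | (j : ℝ) < p.2 ∧ p.2 ≤ j + 1} =
          {p : Pl | (j : ℝ) < p.2 ∧ p.2 ≤ j + 1} :=
        Set.inter_eq_self_of_subset_right fun p hp => hW j hj p hp.1 hp.2
      have h2 : win ((2 * K : ℕ) : ℝ) ∩
          {p : Pl | 1 - τ₁ ≤ p.1 ∧ (j : ℝ) + 1 / 4 ≤ p.2 ∧ p.2 ≤ j + 3 / 4} =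
          {p : Pl | 1 - τ₁ ≤ p.1 ∧ (j : ℝ) + 1 / 4 ≤ p.2 ∧ p.2 ≤ j + 3 / 4} :=
        Set.inter_eq_self_of_subset_right fun p hp =>
          hW j hj p (by linarith [hp.2.1]) (by linarith [hp.2.2])
      have h3 : win ((2 * K : ℕ) : ℝ) ∩
          {p : Pl | p.1 ≤ 2 + τ₁ ∧ (j : ℝ) + 1 / 4 ≤ p.2 ∧ p.2 ≤ j + 3 / 4} =
          {p : Pl | p.1 ≤ 2 + τ₁ ∧ (j : ℝ) + 1 / 4 ≤ p.2 ∧ p.2 ≤ j + 3 / 4} :=
        Set.inter_eq_self_of_subset_right fun p hp =>
          hW j hj p (by linarith [hp.2.1]) (by linarith [hp.2.2])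
      rw [nX_filt, nX_filt, nY_filt, nY_filt, h1, h2, h3]
    unfold patI
    by_cases hc : Pat K τ₁ c
    · rw [if_pos hc, if_pos (h.1 hc)]
    · rw [if_neg hc, if_neg fun h' => hc (h.2 h')]
  · intro c hc
    unfold patI
    rw [if_neg]
    intro hp
    obtain ⟨h1, h2⟩ := hsum c hp
    omega

/-- the Poisson probability of the pattern -/
noncomputable def qpat (K : ℕ) (τ₁ : ℝ) : ℝ := (poi (2 * K) (2 * K : ℕ) (patI K τ₁)).toReal

open Classical in
theorem nX_mk2 {m m' : ℕ} (w : Fin m → Pl) (w' : Fin m' → Pl) (R : Set Pl) :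
    (mk2 m m' (w, w')).nX R = (Finset.univ.filter fun i => w i ∈ R).card := by
  unfold Conf.nX Conf.filt mk2 cfg
  simp only
  rw [Multiset.filter_map, Multiset.card_map]
  rfl

open Classical in
theorem nY_mk2 {m m' : ℕ} (w : Fin m → Pl) (w' : Fin m' → Pl) (R : Set Pl) :
    (mk2 m m' (w, w')).nY R = (Finset.univ.filter fun i => w' i ∈ R).card := by
  unfold Conf.nY Conf.filt mk2 cfg
  simp only
  rw [Multiset.filter_map, Multiset.card_map]
  rfl

theorem card_filter_eq_one {m : ℕ} {P : Fin m → Prop} {_ : DecidablePred P} (j : Fin m)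
    (h : ∀ i, P i ↔ i = j) : (Finset.univ.filter P).card = 1 := by
  rw [Finset.card_eq_one]
  refine ⟨j, ?_⟩
  ext i
  simp [h i]

theorem card_filter_eq_all {m : ℕ} {P : Fin m → Prop} {_ : DecidablePred P}
    (h : ∀ i, P i) : (Finset.univ.filter P).card = m := by
  rw [Finset.filter_true_of_mem fun k _ => h k]
  simp

/-- positivity from a box of configurations -/
theorem lintegral_iid_pos {ν ν' : Measure Pl} [SigmaFinite ν] [SigmaFinite ν']
    {g : Conf → ℝ≥0∞} (hg : Measurable g) {m m' : ℕ} (b : Fin m → Set Pl) (b' : Fin m' → Set Pl)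
    (hb : ∀ i, MeasurableSet (b i)) (hb' : ∀ i, MeasurableSet (b' i)) (h : ∀ i, 0 < ν (b i))
    (h' : ∀ i, 0 < ν' (b' i))
    (hgb : ∀ (w : Fin m → Pl) (w' : Fin m' → Pl), (∀ i, w i ∈ b i) → (∀ i, w' i ∈ b' i) →
      1 ≤ g (mk2 m m' (w, w'))) :
    0 < ∫⁻ c, g c ∂(iid ν ν' m m') := by
  rw [lintegral_iid ν ν' hg]
  have hS : MeasurableSet ((Set.pi Set.univ b) ×ˢ (Set.pi Set.univ b')) :=
    (MeasurableSet.univ_pi hb).prod (MeasurableSet.univ_pi hb')
  have h1 : ((Measure.pi fun _ : Fin m => ν).prod (Measure.pi fun _ : Fin m' => ν'))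
      ((Set.pi Set.univ b) ×ˢ (Set.pi Set.univ b')) = (∏ i, ν (b i)) * ∏ i, ν' (b' i) := by
    rw [Measure.prod_prod, Measure.pi_pi, Measure.pi_pi]
  have h2 : 0 < (∏ i, ν (b i)) * ∏ i, ν' (b' i) := by
    refine ENNReal.mul_pos ?_ ?_
    · exact Finset.prod_ne_zero_iff.2 fun i _ => (h i).ne'
    · exact Finset.prod_ne_zero_iff.2 fun i _ => (h' i).ne'
  refine lt_of_lt_of_le h2 ?_
  rw [← h1, ← lintegral_indicator_one hS]
  refine lintegral_mono fun p => ?_
  by_cases hp : p ∈ (Set.pi Set.univ b) ×ˢ (Set.pi Set.univ b')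
  · rw [Set.indicator_of_mem hp]
    exact hgb p.1 p.2 (fun i => hp.1 i (Set.mem_univ i)) fun i => hp.2 i (Set.mem_univ i)
  · rw [Set.indicator_of_notMem hp]
    exact zero_le

theorem strip_box_pos {l B a b c d : ℝ} (hab : a < b) (hcd : c < d) (h1 : l ≤ a) (h2 : b ≤ l + 1)
    (h3 : 0 < c) (h4 : d ≤ B) :
    0 < (volume.restrict (Set.Icc l (l + 1) ×ˢ Set.Ioc (0 : ℝ) B)) (Set.Icc a b ×ˢ Set.Icc c d) := by
  rw [Measure.restrict_apply (measurableSet_Icc.prod measurableSet_Icc)]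
  have h5 : (Set.Icc a b ×ˢ Set.Icc c d) ∩ (Set.Icc l (l + 1) ×ˢ Set.Ioc (0 : ℝ) B) =
      Set.Icc a b ×ˢ Set.Icc c d := by
    refine Set.inter_eq_self_of_subset_left ?_
    rintro ⟨x, y⟩ ⟨hx, hy⟩
    simp only [Set.mem_Icc] at hx hy
    exact ⟨⟨by simp only; linarith, by simp only; linarith⟩,
      ⟨by simp only; linarith, by simp only; linarith⟩⟩
  rw [h5, Measure.volume_eq_prod, Measure.prod_prod, Real.volume_Icc, Real.volume_Icc]
  refine ENNReal.mul_pos ?_ ?_
  · rw [ne_eq, ENNReal.ofReal_eq_zero]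
    linarith
  · rw [ne_eq, ENNReal.ofReal_eq_zero]
    linarith

theorem poi_pos_of_term {N : ℕ} {B : ℝ} {g : Conf → ℝ≥0∞} {j j' : ℕ} (hj : j ≤ N) (hj' : j' ≤ N)
    (h : 0 < ∫⁻ c, g c ∂(iid (volume.restrict (Set.Icc (0 : ℝ) 1 ×ˢ Set.Ioc (0 : ℝ) B))
        (volume.restrict (Set.Icc (2 : ℝ) 3 ×ˢ Set.Ioc (0 : ℝ) B)) j j')) : 0 < poi N B g := by
  unfold poi
  have h1 : 0 < ENNReal.ofReal (Real.exp (-(2 * B)) / ((j.factorial : ℝ) * (j'.factorial : ℝ))) *
      ∫⁻ c, g c ∂(iid (volume.restrict (Set.Icc (0 : ℝ) 1 ×ˢ Set.Ioc (0 : ℝ) B))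
        (volume.restrict (Set.Icc (2 : ℝ) 3 ×ˢ Set.Ioc (0 : ℝ) B)) j j') := by
    refine ENNReal.mul_pos ?_ h.ne'
    rw [ne_eq, ENNReal.ofReal_eq_zero, not_le]
    positivity
  refine lt_of_lt_of_le h1 ?_
  refine le_trans ?_ (Finset.single_le_sum
    (f := fun j => ∑ j' ∈ Finset.range (N + 1),
      ENNReal.ofReal (Real.exp (-(2 * B)) / ((j.factorial : ℝ) * (j'.factorial : ℝ))) *
      ∫⁻ c, g c ∂(iid (volume.restrict (Set.Icc (0 : ℝ) 1 ×ˢ Set.Ioc (0 : ℝ) B))
        (volume.restrict (Set.Icc (2 : ℝ) 3 ×ˢ Set.Ioc (0 : ℝ) B)) j j'))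
    (fun _ _ => zero_le) (Finset.mem_range.2 (Nat.lt_succ_of_le hj)))
  exact Finset.single_le_sum
    (f := fun j' => ENNReal.ofReal (Real.exp (-(2 * B)) / ((j.factorial : ℝ) * (j'.factorial : ℝ))) *
      ∫⁻ c, g c ∂(iid (volume.restrict (Set.Icc (0 : ℝ) 1 ×ˢ Set.Ioc (0 : ℝ) B))
        (volume.restrict (Set.Icc (2 : ℝ) 3 ×ˢ Set.Ioc (0 : ℝ) B)) j j'))
    (fun _ _ => zero_le) (Finset.mem_range.2 (Nat.lt_succ_of_le hj'))

theorem qpat_pos {K : ℕ} {τ₁ : ℝ} (hK : 0 < K) (hτ : 0 < τ₁) (hτ1 : τ₁ ≤ 1) :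
    0 < qpat K τ₁ := by
  have hKR : (0 : ℝ) < ((2 * K : ℕ) : ℝ) := by
    have : 0 < 2 * K := by omega
    exact_mod_cast this
  unfold qpat
  refine ENNReal.toReal_pos ?_ ?_
  · refine (poi_pos_of_term (j := 2 * K) (j' := 2 * K) le_rfl le_rfl ?_).ne'
    refine lintegral_iid_pos (winFun_pat K τ₁).meas
      (fun i => Set.Icc (1 - τ₁) 1 ×ˢ Set.Icc ((i : ℝ) + 1 / 4) ((i : ℝ) + 3 / 4))
      (fun i => Set.Icc 2 (2 + τ₁) ×ˢ Set.Icc ((i : ℝ) + 1 / 4) ((i : ℝ) + 3 / 4))
      (fun i => measurableSet_Icc.prod measurableSet_Icc)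
      (fun i => measurableSet_Icc.prod measurableSet_Icc) ?_ ?_ ?_
    · intro i
      have h1 : ((i : ℕ) : ℝ) + 1 ≤ ((2 * K : ℕ) : ℝ) := by exact_mod_cast i.2
      have h2 : (0 : ℝ) ≤ ((i : ℕ) : ℝ) := Nat.cast_nonneg _
      have h3 := strip_box_pos (l := 0) (B := ((2 * K : ℕ) : ℝ)) (a := 1 - τ₁) (b := 1)
        (c := ((i : ℕ) : ℝ) + 1 / 4) (d := ((i : ℕ) : ℝ) + 3 / 4) (by linarith) (by linarith)
        (by linarith) (by linarith) (by linarith) (by linarith)
      rwa [zero_add] at h3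
    · intro i
      have h1 : ((i : ℕ) : ℝ) + 1 ≤ ((2 * K : ℕ) : ℝ) := by exact_mod_cast i.2
      have h2 : (0 : ℝ) ≤ ((i : ℕ) : ℝ) := Nat.cast_nonneg _
      have h3 := strip_box_pos (l := 2) (B := ((2 * K : ℕ) : ℝ)) (a := 2) (b := 2 + τ₁)
        (c := ((i : ℕ) : ℝ) + 1 / 4) (d := ((i : ℕ) : ℝ) + 3 / 4) (by linarith) (by linarith)
        (by linarith) (by linarith) (by linarith) (by linarith)
      norm_num at h3 ⊢
      exact h3
    · intro w w' hw hw'
      have hP : Pat K τ₁ (mk2 (2 * K) (2 * K) (w, w')) := by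
        intro j hj
        have hcell : ∀ i : Fin (2 * K), ∀ y : ℝ, (i : ℝ) + 1 / 4 ≤ y → y ≤ (i : ℝ) + 3 / 4 →
            (j : ℝ) < y → y ≤ j + 1 → i = ⟨j, hj⟩ := by
          intro i y h1 h2 h3 h4
          have h5 : (j : ℝ) < (i : ℕ) + 1 := by linarith
          have h6 : ((i : ℕ) : ℝ) < j + 1 := by linarith
          have h7 : j < (i : ℕ) + 1 := by exact_mod_cast h5
          have h8 : (i : ℕ) < j + 1 := by exact_mod_cast h6
          exact Fin.ext (by simp only; omega)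
        rw [nX_mk2, nX_mk2, nY_mk2, nY_mk2]
        refine ⟨card_filter_eq_one ⟨j, hj⟩ fun i => ?_, card_filter_eq_one ⟨j, hj⟩ fun i => ?_,
          card_filter_eq_one ⟨j, hj⟩ fun i => ?_, card_filter_eq_one ⟨j, hj⟩ fun i => ?_⟩
        · have h1 := (hw i).2
          simp only [Set.mem_Icc] at h1
          constructor
          · intro h
            exact hcell i _ h1.1 h1.2 h.1 h.2
          · rintro rfl
            simp only at h1
            exact ⟨by linarith, by linarith⟩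
        · have h1 := (hw i).2
          have h0 := (hw i).1
          simp only [Set.mem_Icc] at h1 h0
          constructor
          · intro h
            exact hcell i _ h1.1 h1.2 (by linarith [h.2.1]) (by linarith [h.2.2])
          · rintro rfl
            simp only at h1
            exact ⟨h0.1, h1⟩
        · have h1 := (hw' i).2
          simp only [Set.mem_Icc] at h1
          constructor
          · intro h
            exact hcell i _ h1.1 h1.2 h.1 h.2
          · rintro rfl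
            simp only at h1
            exact ⟨by linarith, by linarith⟩
        · have h1 := (hw' i).2
          have h0 := (hw' i).1
          simp only [Set.mem_Icc] at h1 h0
          constructor
          · intro h
            exact hcell i _ h1.1 h1.2 (by linarith [h.2.1]) (by linarith [h.2.2])
          · rintro rfl
            simp only at h1
            exact ⟨h0.2, h1⟩
      unfold patI
      rw [if_pos hP]
  · exact ne_top_of_le_ne_top ENNReal.ofReal_ne_top
      (poi_le hKR zero_le_one (winFun_pat K τ₁))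

theorem qpat_le_one (K : ℕ) (τ₁ : ℝ) (hK : 0 < K) : qpat K τ₁ ≤ 1 := by
  have hKR : (0 : ℝ) < ((2 * K : ℕ) : ℝ) := by
    have : 0 < 2 * K := by omega
    exact_mod_cast this
  unfold qpat
  exact ENNReal.toReal_le_of_le_ofReal zero_le_one (poi_le hKR zero_le_one (winFun_pat K τ₁))

open Classical in
/-- the indicator that the imbalance `i` is corrected in one step (with at most `A` points) -/
noncomputable def balI (A : ℕ) (i : ℤ) (c : Conf) : ℝ≥0∞ :=
  if i + imb (c.filt (win (1 + A : ℕ))) (nextL (0, 0) i) = 0 ∧ c.nX (win (1 + A : ℕ)) ≤ A ∧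
    c.nY (win (1 + A : ℕ)) ≤ A then 1 else 0

theorem winFun_bal (A : ℕ) (i : ℤ) (hi : |i| ≤ A) : WinFun A (1 + A : ℕ) 1 (balI A i) := by
  have hW : MeasurableSet (win ((1 + A : ℕ) : ℝ)) := measurableSet_slab 0 _
  refine ⟨?_, ?_, ?_, ?_⟩
  · have h1 : Measurable fun c : Conf => (imb (c.filt (win ((1 + A : ℕ) : ℝ))) (nextL (0, 0) i),
        c.nX (win ((1 + A : ℕ) : ℝ)), c.nY (win ((1 + A : ℕ) : ℝ))) :=
      ((measurable_imb _).comp (measurable_filt hW)).prodMk
        ((measurable_nX hW).prodMk (measurable_nY hW))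
    have h2 : Measurable fun q : ℤ × ℕ × ℕ => if i + q.1 = 0 ∧ q.2.1 ≤ A ∧ q.2.2 ≤ A then
        (1 : ℝ≥0∞) else 0 := Measurable.of_discrete
    have h3 : balI A i = fun c : Conf => (fun q : ℤ × ℕ × ℕ =>
        if i + q.1 = 0 ∧ q.2.1 ≤ A ∧ q.2.2 ≤ A then (1 : ℝ≥0∞) else 0)
        (imb (c.filt (win ((1 + A : ℕ) : ℝ))) (nextL (0, 0) i),
        c.nX (win ((1 + A : ℕ) : ℝ)), c.nY (win ((1 + A : ℕ) : ℝ))) := by
      funext c
      unfold balI
      by_cases hc : i + imb (c.filt (win ((1 + A : ℕ) : ℝ))) (nextL (0, 0) i) = 0 ∧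
          c.nX (win ((1 + A : ℕ) : ℝ)) ≤ A ∧ c.nY (win ((1 + A : ℕ) : ℝ)) ≤ A
      · rw [if_pos hc]
        exact (if_pos hc).symm
      · rw [if_neg hc]
        exact (if_neg hc).symm
    rw [h3]
    exact h2.comp h1
  · intro c
    unfold balI
    rw [ENNReal.ofReal_one]
    split_ifs <;> simp
  · intro c
    unfold balI
    rw [filt_filt, nX_filt, nY_filt, Set.inter_self]
  · intro c hc
    unfold balI
    rw [if_neg]
    rintro ⟨_, h1, h2⟩
    omega

theorem balI_mk2 {A : ℕ} {i : ℤ} {m m' : ℕ} (hm : m ≤ A) (hm' : m' ≤ A)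
    (h : i + ((m : ℤ) - (m' : ℤ)) = 0) (w : Fin m → Pl) (w' : Fin m' → Pl)
    (hw : ∀ k, (w k).2 ∈ Set.Icc (1 / 4 : ℝ) (3 / 4)) (hw' : ∀ k, (w' k).2 ∈ Set.Icc (1 / 4 : ℝ) (3 / 4)) :
    1 ≤ balI A i (mk2 m m' (w, w')) := by
  have hlam : ∀ x : ℝ, 1 ≤ lam (nextL (0, 0) i) x := by
    intro x
    have h1 := lam_mono (ℓ := (1, 1)) (ℓ' := nextL (0, 0) i)
      ⟨by simp [nextL], by simp [nextL]⟩ x
    rw [lam_diag] at h1
    simpa using h1
  have hA : (1 : ℝ) ≤ ((1 + A : ℕ) : ℝ) := by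
    have : 1 ≤ 1 + A := by omega
    exact_mod_cast this
  have h1 : ∀ p : Pl, p.2 ∈ Set.Icc (1 / 4 : ℝ) (3 / 4) → p ∈ win ((1 + A : ℕ) : ℝ) := by
    intro p hp
    exact ⟨by linarith [hp.1], by linarith [hp.2]⟩
  have h2 : ∀ p : Pl, p.2 ∈ Set.Icc (1 / 4 : ℝ) (3 / 4) →
      p ∈ win ((1 + A : ℕ) : ℝ) ∩ below (nextL (0, 0) i) := by
    intro p hp
    refine ⟨h1 p hp, ?_⟩
    have := hlam p.1
    show p.2 ≤ _
    linarith [hp.2]
  have hX : (mk2 m m' (w, w')).nX (win ((1 + A : ℕ) : ℝ)) = m := by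
    rw [nX_mk2]
    exact card_filter_eq_all fun k => h1 _ (hw k)
  have hY : (mk2 m m' (w, w')).nY (win ((1 + A : ℕ) : ℝ)) = m' := by
    rw [nY_mk2]
    exact card_filter_eq_all fun k => h1 _ (hw' k)
  have hX' : ((mk2 m m' (w, w')).filt (win ((1 + A : ℕ) : ℝ))).nX (below (nextL (0, 0) i)) = m := by
    rw [nX_filt, nX_mk2]
    exact card_filter_eq_all fun k => h2 _ (hw k)
  have hY' : ((mk2 m m' (w, w')).filt (win ((1 + A : ℕ) : ℝ))).nY (below (nextL (0, 0) i)) =
      m' := by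
    rw [nY_filt, nY_mk2]
    exact card_filter_eq_all fun k => h2 _ (hw' k)
  unfold balI
  rw [if_pos]
  refine ⟨?_, by rw [hX]; exact hm, by rw [hY]; exact hm'⟩
  unfold imb
  rw [hX', hY']
  exact h

theorem poi_bal_pos (A : ℕ) (i : ℤ) (hi : |i| ≤ A) : 0 < poi A (1 + A : ℕ) (balI A i) := by
  have hA : (1 : ℝ) ≤ ((1 + A : ℕ) : ℝ) := by
    have : 1 ≤ 1 + A := by omega
    exact_mod_cast this
  obtain ⟨hi1, hi2⟩ := abs_le.1 hi
  have h0 : (-i).toNat ≤ A := by omega
  have h0' : i.toNat ≤ A := by omega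
  refine poi_pos_of_term (j := (-i).toNat) (j' := i.toNat) h0 h0' ?_
  refine lintegral_iid_pos (winFun_bal A i hi).meas
    (fun _ => Set.Icc 0 1 ×ˢ Set.Icc (1 / 4) (3 / 4))
    (fun _ => Set.Icc 2 3 ×ˢ Set.Icc (1 / 4) (3 / 4))
    (fun _ => measurableSet_Icc.prod measurableSet_Icc)
    (fun _ => measurableSet_Icc.prod measurableSet_Icc) ?_ ?_ ?_
  · intro _
    have h3 := strip_box_pos (l := 0) (B := ((1 + A : ℕ) : ℝ)) (a := 0) (b := 1)
      (c := 1 / 4) (d := 3 / 4) (by norm_num) (by norm_num)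
      (by norm_num) (by norm_num) (by norm_num) (by linarith)
    rwa [zero_add] at h3
  · intro _
    have h3 := strip_box_pos (l := 2) (B := ((1 + A : ℕ) : ℝ)) (a := 2) (b := 3)
      (c := 1 / 4) (d := 3 / 4) (by norm_num) (by norm_num)
      (by norm_num) (by norm_num) (by norm_num) (by linarith)
    have h4 : (2 : ℝ) + 1 = 3 := by norm_num
    rwa [h4] at h3
  · intro w w' hw hw'
    exact balI_mk2 h0 h0' (by omega) w w' (fun k => (hw k).2) fun k => (hw' k).2

end Pool.Agent.H27.OTC
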