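import Pool.Agent.H27.OTC.ImMom
import Pool.Agent.H27.OTC.Window

/-!
Job OTC-C-FREQ: frequency of the candidates.
-/

set_option autoImplicit false

open MeasureTheory ProbabilityTheory
open scoped ENNReal

namespace Pool.Agent.H27.OTC

open Pool.Agent.H96.OT (Pl)

/-- the smallness conditions used with `window_lim` hold eventually -/
theorem ev_window {θ κ₀ s₁ B : ℝ} (hθ : 0 < θ) (hκ : 0 < κ₀) (hs : 0 < s₁) :
    Ev (fun ρ n => 0 < n ∧ 0 < ρ ∧ ρ ≤ θ / 4 ∧ 2 * ρ / θ ≤ κ₀ ∧ 1 / (θ * n) ≤ s₁ ∧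
      B ≤ θ * n) := by
  have h1 : 0 < min (θ / 4) (κ₀ * θ / 2) := lt_min (by positivity) (by positivity)
  refine ((Ev.rho_le h1).and (Ev.n_ge fun _ => max 1 (max (1 / (θ * s₁)) (B / θ)))).mono ?_
  rintro ρ n ⟨⟨h2, h3⟩, h4⟩
  have h5 := (le_max_left _ _).trans h4
  have h6 := ((le_max_left _ _).trans (le_max_right _ _)).trans h4
  have h7 := ((le_max_right _ _).trans (le_max_right _ _)).trans h4
  have hn : (0 : ℝ) < n := by linarith
  refine ⟨by exact_mod_cast hn, h2, h3.trans (min_le_left _ _), ?_, ?_, ?_⟩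
  · rw [div_le_iff₀ hθ]
    have := h3.trans (min_le_right _ _)
    linarith
  · rw [div_le_iff₀ (by positivity)] at h6 ⊢
    nlinarith
  · rw [div_le_iff₀ hθ] at h7
    linarith

open Classical in
/-- pulling a finite constant out of the integral over the admissible configurations -/
theorem lintegral_ok_const {n : ℕ} {θ ρ : ℝ} {k : ℕ} {Φ : Conf → ℝ≥0∞} {C : ℝ≥0∞} (hC : C ≠ ⊤) :
    ∫⁻ c, (if OkAt n θ ρ c k then Φ c * C else 0) ∂(Q n) =
      C * ∫⁻ c, (if OkAt n θ ρ c k then Φ c else 0) ∂(Q n) := by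
  rw [← lintegral_const_mul' _ _ hC]
  refine lintegral_congr fun c => ?_
  split_ifs
  · rw [mul_comm]
  · rw [mul_zero]

open Classical in
/-- two sided bound of the conditional probability of the pattern -/
theorem pat_prob (K : ℕ) {τ₁ θ : ℝ} (hK : 0 < K) (hτ : 0 < τ₁) (hτ1 : τ₁ ≤ 1) (hθ : 0 < θ)
    (hθ1 : θ < 1) : Ev (fun ρ n => ∀ (k : ℕ) (Φ : Conf → ℝ≥0∞), Measurable Φ → Past k Φ →
      ∫⁻ c, (if OkAt n θ ρ c k then Φ c * patI K τ₁ (uc c k) else 0) ∂(Q n) ≤
        ENNReal.ofReal (2 * qpat K τ₁) * ∫⁻ c, (if OkAt n θ ρ c k then Φ c else 0) ∂(Q n) ∧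
      ENNReal.ofReal (qpat K τ₁ / 2) * ∫⁻ c, (if OkAt n θ ρ c k then Φ c else 0) ∂(Q n) ≤
        ∫⁻ c, (if OkAt n θ ρ c k then Φ c * patI K τ₁ (uc c k) else 0) ∂(Q n)) := by
  have hq : 0 < qpat K τ₁ := qpat_pos hK hτ hτ1
  have hB : (0 : ℝ) < ((2 * K : ℕ) : ℝ) := by
    have : 0 < 2 * K := by omega
    exact_mod_cast this
  have hW := winFun_pat K τ₁
  have hpoi : poi (2 * K) (2 * K : ℕ) (patI K τ₁) = ENNReal.ofReal (qpat K τ₁) := by
    unfold qpat
    rw [ENNReal.ofReal_toReal]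
    exact ne_top_of_le_ne_top ENNReal.ofReal_ne_top (poi_le hB zero_le_one hW)
  obtain ⟨κ₀, s₁, hκ, hs, hlim⟩ := window_lim (2 * K) hB one_pos (ε := qpat K τ₁ / 2) (by linarith)
  refine (ev_window (B := ((2 * K : ℕ) : ℝ)) hθ hκ hs).mono ?_
  rintro ρ n ⟨hn, hρ, hρθ, h1, h2, h3⟩ k Φ hΦ hP
  have key : ∀ ℓ N N', Ok n θ ρ ℓ N N' →
      ∫⁻ c, patI K τ₁ c ∂(lawUp n ℓ N N') ≤ ENNReal.ofReal (2 * qpat K τ₁) ∧
        ENNReal.ofReal (qpat K τ₁ / 2) ≤ ∫⁻ c, patI K τ₁ c ∂(lawUp n ℓ N N') := by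
    intro ℓ N N' hok
    obtain ⟨h4, h5⟩ := hlim _ hW _ _ _ _ _ _ _ h1 h2 h3 (near_lawUp hn hθ hρ hρθ hok)
    rw [hpoi] at h4 h5
    constructor
    · refine h4.trans ?_
      rw [← ENNReal.ofReal_add hq.le (by linarith)]
      exact ENNReal.ofReal_le_ofReal (by linarith)
    · have h6 : ENNReal.ofReal (qpat K τ₁) =
          ENNReal.ofReal (qpat K τ₁ / 2) + ENNReal.ofReal (qpat K τ₁ / 2) := by
        rw [← ENNReal.ofReal_add (by linarith) (by linarith)]
        congr 1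
        ring
      rw [h6] at h5
      exact (ENNReal.add_le_add_iff_right ENNReal.ofReal_ne_top).1 h5
  constructor
  · have h4 := markov_le hn hθ hρ hρθ k hΦ hP (G := fun _ => patI K τ₁) (fun _ => hW.meas)
      (fun _ => ENNReal.ofReal (2 * qpat K τ₁)) (fun ℓ N N' hok => (key ℓ N N' hok).1)
    refine h4.trans (le_of_eq ?_)
    exact lintegral_ok_const ENNReal.ofReal_ne_top
  · have h4 := markov_ge hn hθ hρ hρθ k hΦ hP (G := fun _ => patI K τ₁) (fun _ => hW.meas)
      (fun _ => ENNReal.ofReal (qpat K τ₁ / 2)) (fun ℓ N N' hok => (key ℓ N N' hok).2)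
    refine (le_of_eq ?_).trans h4
    exact (lintegral_ok_const ENNReal.ofReal_ne_top).symm

/-- counting below the next line only involves the window of height `1 + A` -/
theorem imb_filt_win {A : ℕ} {i : ℤ} (hi : |i| ≤ A) (ℓ : ℕ × ℕ) (c : Conf) :
    imb ((up ℓ c).filt (win (1 + A : ℕ))) (nextL (0, 0) i) = imb (up ℓ c) (nextL (0, 0) i) := by
  obtain ⟨hi1, hi2⟩ := abs_le.1 hi
  have h1 : {p : Pl | 0 < p.2} ∩ (win ((1 + A : ℕ) : ℝ) ∩ below (nextL (0, 0) i)) =
      {p : Pl | 0 < p.2} ∩ below (nextL (0, 0) i) := by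
    ext p
    simp only [Set.mem_inter_iff, Set.mem_ofPred_eq]
    constructor
    · rintro ⟨h1, _, h2⟩
      exact ⟨h1, h2⟩
    · rintro ⟨h1, h2⟩
      refine ⟨h1, ⟨h1, ?_⟩, h2⟩
      have h3 : p.2 ≤ lam (nextL (0, 0) i) p.1 := h2
      refine h3.trans (lam_le _ ?_ ?_ _)
      · have : (nextL (0, 0) i).1 ≤ 1 + A := by
          unfold nextL
          simp only
          omega
        exact_mod_cast this
      · have : (nextL (0, 0) i).2 ≤ 1 + A := by
          unfold nextL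
          simp only
          omega
        exact_mod_cast this
  unfold imb
  rw [nX_filt, nY_filt, nX_up_pos, nY_up_pos, h1, ← nX_up_pos, ← nY_up_pos]

open Classical in
/-- lower bound of the probability that the imbalance is corrected in one step -/
theorem bal_prob (A : ℕ) : ∃ p : ℝ, 0 < p ∧ p ≤ 1 ∧ ∀ θ : ℝ, 0 < θ → θ < 1 →
    Ev (fun ρ n => ∀ (k : ℕ) (Φ : Conf → ℝ≥0∞), Measurable Φ → Past k Φ →
      (∀ c, Φ c ≠ 0 → |im c k| ≤ A) →
      ENNReal.ofReal p * ∫⁻ c, (if OkAt n θ ρ c k then Φ c else 0) ∂(Q n) ≤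
        ∫⁻ c, (if OkAt n θ ρ c k ∧ im c (k + 1) = 0 then Φ c else 0) ∂(Q n)) := by
  have hB : (0 : ℝ) < ((1 + A : ℕ) : ℝ) := by
    have : 0 < 1 + A := by omega
    exact_mod_cast this
  obtain ⟨i₀, hi₀, hmin⟩ := Finset.exists_min_image (Finset.Icc (-(A : ℤ)) A)
    (fun i => poi A (1 + A : ℕ) (balI A i)) ⟨0, by simp⟩
  have hi₀' : |i₀| ≤ A := abs_le.2 (by simpa using hi₀)
  have hpos := poi_bal_pos A i₀ hi₀'
  have hle := poi_le hB zero_le_one (winFun_bal A i₀ hi₀')
  have hne : poi A (1 + A : ℕ) (balI A i₀) ≠ ⊤ := ne_top_of_le_ne_top ENNReal.ofReal_ne_top hle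
  set P₀ : ℝ := (poi A (1 + A : ℕ) (balI A i₀)).toReal with hP₀
  have hP₀pos : 0 < P₀ := ENNReal.toReal_pos hpos.ne' hne
  have hP₀le : P₀ ≤ 1 := ENNReal.toReal_le_of_le_ofReal zero_le_one hle
  obtain ⟨κ₀, s₁, hκ, hs, hlim⟩ := window_lim A hB one_pos (ε := P₀ / 2) (by linarith)
  refine ⟨P₀ / 2, by linarith, by linarith, fun θ hθ hθ1 => ?_⟩
  refine (ev_window (B := ((1 + A : ℕ) : ℝ)) hθ hκ hs).mono ?_
  rintro ρ n ⟨hn, hρ, hρθ, h1, h2, h3⟩ k Φ hΦ hP hΦA
  have key : ∀ i : ℤ, |i| ≤ A → ∀ ℓ N N', Ok n θ ρ ℓ N N' →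
        ENNReal.ofReal (P₀ / 2) ≤ ∫⁻ c, balI A i c ∂(lawUp n ℓ N N') := by
    intro i hi ℓ N N' hok
    obtain ⟨_, h5⟩ := hlim _ (winFun_bal A i hi) _ _ _ _ _ _ _ h1 h2 h3
      (near_lawUp hn hθ hρ hρθ hok)
    have h6 : ENNReal.ofReal P₀ ≤ poi A (1 + A : ℕ) (balI A i) := by
      rw [hP₀, ENNReal.ofReal_toReal hne]
      exact hmin i (Finset.mem_Icc.2 (abs_le.1 hi))
    have h7 : ENNReal.ofReal P₀ = ENNReal.ofReal (P₀ / 2) + ENNReal.ofReal (P₀ / 2) := by
      rw [← ENNReal.ofReal_add (by linarith) (by linarith)]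
      congr 1
      ring
    have h8 := h6.trans h5
    rw [h7] at h8
    exact (ENNReal.add_le_add_iff_right ENNReal.ofReal_ne_top).1 h8
  have hG : ∀ i : ℤ, Measurable (if |i| ≤ (A : ℤ) then balI A i else fun _ => 0) := by
    intro i
    split_ifs with hi
    · exact (winFun_bal A i hi).meas
    · exact measurable_const
  have h4 := markov_ge hn hθ hρ hρθ k hΦ hP
    (G := fun i => if |i| ≤ (A : ℤ) then balI A i else fun _ => 0) hG
    (fun i => if |i| ≤ (A : ℤ) then ENNReal.ofReal (P₀ / 2) else 0) (by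
      intro ℓ N N' hok
      by_cases hi : |((N : ℤ) - N')| ≤ (A : ℤ)
      · simp only [if_pos hi]
        exact key _ hi ℓ N N' hok
      · simp only [if_neg hi]
        exact zero_le)
  rw [← lintegral_ok_const ENNReal.ofReal_ne_top]
  refine le_trans (lintegral_mono fun c => ?_) (h4.trans (lintegral_mono fun c => ?_))
  · dsimp only
    by_cases hok : OkAt n θ ρ c k
    · rw [if_pos hok, if_pos hok]
      by_cases hΦ0 : Φ c = 0
      · rw [hΦ0, zero_mul, zero_mul]
      · rw [if_pos (hΦA c hΦ0)]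
    · rw [if_neg hok, if_neg hok]
  · dsimp only
    by_cases hok : OkAt n θ ρ c k
    · rw [if_pos hok]
      by_cases hi : |im c k| ≤ (A : ℤ)
      · rw [if_pos hi]
        unfold balI
        by_cases hb : im c k + imb ((uc c k).filt (win (1 + A : ℕ))) (nextL (0, 0) (im c k)) = 0 ∧
          (uc c k).nX (win (1 + A : ℕ)) ≤ A ∧ (uc c k).nY (win (1 + A : ℕ)) ≤ A
        · have him : im c (k + 1) = 0 := by
            rw [im_succ]
            have h5 := imb_filt_win hi (st c k) c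
            have h6 : uc c k = up (st c k) c := rfl
            rw [← h6] at h5
            rw [← h5]
            exact hb.1
          rw [if_pos hb, if_pos ⟨hok, him⟩, mul_one]
        · rw [if_neg hb, mul_zero]
          exact zero_le
      · rw [if_neg hi, mul_zero]
        exact zero_le
    · rw [if_neg hok]
      exact zero_le

theorem lintegral_ite_one {P : Conf → Prop} {_ : DecidablePred P}
    (hP : MeasurableSet {c | P c}) (μ : Measure Conf) :
    ∫⁻ c, (if P c then (1 : ℝ≥0∞) else 0) ∂μ = μ {c | P c} := by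
  rw [← lintegral_indicator_one hP]
  refine lintegral_congr fun c => ?_
  by_cases h : P c
  · rw [if_pos h, Set.indicator_of_mem (show c ∈ {c | P c} from h)]
    rfl
  · rw [if_neg h, Set.indicator_of_notMem (show c ∉ {c | P c} from h)]

theorem real_split {μ : Measure Conf} [IsFiniteMeasure μ] {P R : Conf → Prop}
    (hR : MeasurableSet {c | R c}) :
    μ.real {c | P c} = μ.real {c | P c ∧ R c} + μ.real {c | P c ∧ ¬ R c} := by
  rw [← measureReal_inter_add_sdiff (s := {c | P c}) hR]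
  rfl

/-- the bounds of `pat_prob` and `bal_prob` for events -/
theorem cand_step {n : ℕ} {θ ρ p q δ τ₁ : ℝ} {A K : ℕ} [IsProbabilityMeasure (Q n)] (hp0 : 0 ≤ p)
    (hq0 : 0 ≤ q) (hq1 : q ≤ 1)
    (hbal : ∀ (k : ℕ) (P : Conf → Prop), MeasurableSet {c | P c} → Past k P →
      (∀ c, P c → OkAt n θ ρ c k ∧ |im c k| ≤ A) →
      p * (Q n).real {c | P c} ≤ (Q n).real {c | P c ∧ im c (k + 1) = 0})
    (hpat : ∀ (k : ℕ) (P : Conf → Prop), MeasurableSet {c | P c} → Past k P →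
      q / 2 * (Q n).real {c | P c ∧ OkAt n θ ρ c k} ≤
        (Q n).real {c | P c ∧ OkAt n θ ρ c k ∧ Pat K τ₁ (uc c k)})
    (him : ∀ k : ℕ, (Q n).real {c | Alive n θ ρ c k ∧ (A : ℝ) < |(im c k : ℝ)|} ≤ δ)
    {t : ℕ} {P : Conf → Prop} (hPm : MeasurableSet {c | P c}) (hPp : Past t P)
    (hPa : ∀ c, P c → Alive n θ ρ c t) :
    (Q n).real {c | P c ∧ OkAt n θ ρ c (t + 1) ∧ ¬ Cand K τ₁ c (t + 1)} ≤
      (1 - p * q / 2) * (Q n).real {c | P c} + p * q / 2 * δ := by
  have hAm : MeasurableSet {c : Conf | |im c t| ≤ A} :=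
    measurable_im t (MeasurableSet.of_discrete (s := {i : ℤ | |i| ≤ A}))
  have hZm : MeasurableSet {c : Conf | im c (t + 1) = 0} :=
    measurable_im (t + 1) (measurableSet_singleton 0)
  have hOm := measurableSet_okAt n θ ρ (t + 1)
  have hCm := measurableSet_cand K τ₁ (t + 1)
  -- the part with small imbalance
  have hSm : MeasurableSet {c | P c ∧ |im c t| ≤ A} := hPm.inter hAm
  have hSp : Past t (fun c => P c ∧ |im c t| ≤ A) := by
    intro c
    have h1 := hPp c
    have h2 : im c t = im (c.filt (below (st c t))) t := past_im t c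
    simp only [eq_iff_iff] at h1 ⊢
    rw [h1, h2]
  have hb1 := real_split (μ := Q n) (P := P) hAm
  have hb2 : (Q n).real {c | P c ∧ ¬ |im c t| ≤ A} ≤ δ := by
    refine le_trans (measureReal_mono ?_) (him t)
    rintro c ⟨h1, h2⟩
    refine ⟨hPa c h1, ?_⟩
    rw [not_le] at h2
    have : ((A : ℤ) : ℝ) < ((|im c t| : ℤ) : ℝ) := by exact_mod_cast h2
    simpa using this
  -- balance
  have h1 := hbal t (fun c => P c ∧ |im c t| ≤ A) hSm hSp
    (fun c hc => ⟨hPa c hc.1 t le_rfl, hc.2⟩)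
  -- pattern
  have hZp : Past (t + 1) (fun c => (P c ∧ |im c t| ≤ A) ∧ im c (t + 1) = 0) := by
    intro c
    have h1 := hSp.mono (Nat.le_succ t) c
    have h2 : im c (t + 1) = im (c.filt (below (st c (t + 1)))) (t + 1) := past_im (t + 1) c
    simp only [Nat.succ_eq_add_one, eq_iff_iff] at h1 ⊢
    rw [← h2, ← h1]
  have h2 := hpat (t + 1) (fun c => (P c ∧ |im c t| ≤ A) ∧ im c (t + 1) = 0)
    (hSm.inter hZm) hZp
  have h3 := real_split (μ := Q n) (P := fun c => (P c ∧ |im c t| ≤ A) ∧ im c (t + 1) = 0) hOm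
  -- splitting of the part with small imbalance
  have h4 := real_split (μ := Q n) (P := fun c => P c ∧ |im c t| ≤ A) hOm
  have h5 := real_split (μ := Q n) (P := fun c => (P c ∧ |im c t| ≤ A) ∧ OkAt n θ ρ c (t + 1)) hCm
  have h6 : (Q n).real {c | ((P c ∧ |im c t| ≤ A) ∧ im c (t + 1) = 0) ∧ OkAt n θ ρ c (t + 1) ∧
      Pat K τ₁ (uc c (t + 1))} ≤
      (Q n).real {c | ((P c ∧ |im c t| ≤ A) ∧ OkAt n θ ρ c (t + 1)) ∧ Cand K τ₁ c (t + 1)} := by
    refine measureReal_mono ?_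
    rintro c ⟨⟨h1, h2⟩, h3, h4⟩
    exact ⟨⟨h1, h3⟩, h2, h4⟩
  have h7 : (Q n).real {c | ((P c ∧ |im c t| ≤ A) ∧ im c (t + 1) = 0) ∧
      ¬ OkAt n θ ρ c (t + 1)} ≤ (Q n).real {c | (P c ∧ |im c t| ≤ A) ∧ ¬ OkAt n θ ρ c (t + 1)} := by
    refine measureReal_mono ?_
    rintro c ⟨⟨h1, _⟩, h3⟩
    exact ⟨h1, h3⟩
  -- the event
  have h8 : (Q n).real {c | P c ∧ OkAt n θ ρ c (t + 1) ∧ ¬ Cand K τ₁ c (t + 1)} ≤
      (Q n).real {c | ((P c ∧ |im c t| ≤ A) ∧ OkAt n θ ρ c (t + 1)) ∧ ¬ Cand K τ₁ c (t + 1)} +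
        (Q n).real {c | P c ∧ ¬ |im c t| ≤ A} := by
    refine le_trans (measureReal_mono ?_) (measureReal_union_le _ _)
    rintro c ⟨h1, h2, h3⟩
    by_cases hA : |im c t| ≤ A
    · exact Or.inl ⟨⟨⟨h1, hA⟩, h2⟩, h3⟩
    · exact Or.inr ⟨h1, hA⟩
  have h9 : (0 : ℝ) ≤ (Q n).real {c | ((P c ∧ |im c t| ≤ A) ∧ im c (t + 1) = 0) ∧
      ¬ OkAt n θ ρ c (t + 1)} := measureReal_nonneg
  set a := (Q n).real {c | P c}
  set s := (Q n).real {c | P c ∧ |im c t| ≤ A}
  set b := (Q n).real {c | P c ∧ ¬ |im c t| ≤ A}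
  set z := (Q n).real {c | (P c ∧ |im c t| ≤ A) ∧ im c (t + 1) = 0}
  set w := (Q n).real {c | ((P c ∧ |im c t| ≤ A) ∧ im c (t + 1) = 0) ∧ ¬ OkAt n θ ρ c (t + 1)}
  have e1 : q / 2 * w ≤ w := by nlinarith
  have e2 : q / 2 * (p * s) ≤ q / 2 * z := mul_le_mul_of_nonneg_left h1 (by positivity)
  have e3 : p * q / 2 * b ≤ p * q / 2 * δ := mul_le_mul_of_nonneg_left hb2 (by positivity)
  have e4 : q / 2 * z = q / 2 * (Q n).real {c | ((P c ∧ |im c t| ≤ A) ∧ im c (t + 1) = 0) ∧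
      OkAt n θ ρ c (t + 1)} + q / 2 * w := by rw [h3]; ring
  have e5 : (1 - p * q / 2) * a = (s + b) - p * q / 2 * s - p * q / 2 * b := by rw [hb1]; ring
  have e6 : q / 2 * (p * s) = p * q / 2 * s := by ring
  rw [e5]
  linarith

theorem cand_iter {n : ℕ} {θ ρ x δ τ₁ : ℝ} {K : ℕ} [IsProbabilityMeasure (Q n)] (hx0 : 0 ≤ x)
    (hδ : 0 ≤ δ)
    (hstep : ∀ (t : ℕ) (P : Conf → Prop), MeasurableSet {c | P c} → Past t P →
      (∀ c, P c → Alive n θ ρ c t) →
      (Q n).real {c | P c ∧ OkAt n θ ρ c (t + 1) ∧ ¬ Cand K τ₁ c (t + 1)} ≤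
        x * (Q n).real {c | P c} + (1 - x) * δ) (k i : ℕ) :
    (Q n).real {c | Alive n θ ρ c (k + i * (2 * K + 2)) ∧
      ∀ i' < i, ¬ Cand K τ₁ c (k + i' * (2 * K + 2) + 1)} ≤ x ^ i + δ := by
  induction i with
  | zero =>
    rw [pow_zero]
    exact le_trans measureReal_le_one (by linarith)
  | succ i ih =>
    have hm : ∀ i : ℕ, MeasurableSet {c | Alive n θ ρ c (k + i * (2 * K + 2)) ∧
        ∀ i' < i, ¬ Cand K τ₁ c (k + i' * (2 * K + 2) + 1)} := by
      intro i
      have h : {c | ∀ i' < i, ¬ Cand K τ₁ c (k + i' * (2 * K + 2) + 1)} =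
          ⋂ i' : ℕ, ⋂ _ : i' < i, {c | Cand K τ₁ c (k + i' * (2 * K + 2) + 1)}ᶜ := by
        ext c
        simp
      have h' : MeasurableSet {c | ∀ i' < i, ¬ Cand K τ₁ c (k + i' * (2 * K + 2) + 1)} := by
        rw [h]
        exact MeasurableSet.iInter fun j => MeasurableSet.iInter fun _ =>
          (measurableSet_cand K τ₁ _).compl
      exact (measurableSet_alive n θ ρ _).inter h'
    have hp : Past (k + i * (2 * K + 2)) (fun c => Alive n θ ρ c (k + i * (2 * K + 2)) ∧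
        ∀ i' < i, ¬ Cand K τ₁ c (k + i' * (2 * K + 2) + 1)) := by
      intro c
      have h1 := past_alive n θ ρ (k + i * (2 * K + 2)) c
      simp only [eq_iff_iff] at h1 ⊢
      refine and_congr h1 (forall_congr' fun i' => forall_congr' fun hi' => ?_)
      have h2 : k + i' * (2 * K + 2) + 1 + 2 * K ≤ k + i * (2 * K + 2) := by
        have h3 : (i' + 1) * (2 * K + 2) ≤ i * (2 * K + 2) := Nat.mul_le_mul_right _ hi'
        have h4 : (i' + 1) * (2 * K + 2) = i' * (2 * K + 2) + 2 * K + 2 := by ring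
        omega
      have h3 := (past_cand K τ₁ (k + i' * (2 * K + 2) + 1)).mono h2 c
      simp only [eq_iff_iff] at h3
      exact not_congr h3
    have h1 := hstep (k + i * (2 * K + 2)) _ (hm i) hp fun c hc => hc.1
    have h2 : (Q n).real {c | Alive n θ ρ c (k + (i + 1) * (2 * K + 2)) ∧
        ∀ i' < i + 1, ¬ Cand K τ₁ c (k + i' * (2 * K + 2) + 1)} ≤
        (Q n).real {c | (Alive n θ ρ c (k + i * (2 * K + 2)) ∧
        ∀ i' < i, ¬ Cand K τ₁ c (k + i' * (2 * K + 2) + 1)) ∧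
        OkAt n θ ρ c (k + i * (2 * K + 2) + 1) ∧
        ¬ Cand K τ₁ c (k + i * (2 * K + 2) + 1)} := by
      refine measureReal_mono ?_
      rintro c ⟨h3, h4⟩
      have h5 : k + i * (2 * K + 2) + 1 ≤ k + (i + 1) * (2 * K + 2) := by
        have : (i + 1) * (2 * K + 2) = i * (2 * K + 2) + 2 * K + 2 := by ring
        omega
      exact ⟨⟨fun j hj => h3 j (by omega), fun i' hi' => h4 i' (by omega)⟩, h3 _ h5,
        h4 i (Nat.lt_succ_self i)⟩
    calc _ ≤ _ := h2
      _ ≤ _ := h1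
      _ ≤ x * (x ^ i + δ) + (1 - x) * δ := by
        have := mul_le_mul_of_nonneg_left ih hx0
        linarith
      _ = x ^ (i + 1) + δ := by ring

/-- In `L` steps there is a candidate with probability close to one, if
`L ≥ C (2 K + 2) / qpat K τ₁` where `C` depends only on `ε`. -/
theorem cand_freq {ε : ℝ} (hε : 0 < ε) : ∃ C : ℝ, 0 < C ∧ ∀ (K : ℕ) (τ₁ θ : ℝ), 0 < K →
    0 < τ₁ → τ₁ ≤ 1 → 0 < θ → θ < 1 →
    Ev (fun ρ n => ∀ k L : ℕ, C * (2 * K + 2) / qpat K τ₁ ≤ L →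
      Q n {c | Alive n θ ρ c (k + L) ∧ ∀ j, k < j → j ≤ k + L → ¬ Cand K τ₁ c j} ≤
        ENNReal.ofReal ε) := by
  classical
  obtain ⟨lam₀, C1, hlam, hC1, him⟩ := im_tail
  obtain ⟨A, hA⟩ : ∃ A : ℕ, C1 * Real.exp (-(lam₀ * A)) ≤ ε / 2 := by
    obtain ⟨A, hA⟩ := exists_nat_ge (Real.log (2 * C1 / ε) / lam₀)
    refine ⟨A, ?_⟩
    rw [div_le_iff₀ hlam] at hA
    have hC1' : 0 < C1 := by linarith
    have h1 : 2 * C1 / ε ≤ Real.exp (lam₀ * A) := by
      rw [← Real.log_le_iff_le_exp (by positivity)]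
      linarith
    rw [Real.exp_neg, ← div_eq_mul_inv, div_le_iff₀ (Real.exp_pos _)]
    rw [div_le_iff₀ hε] at h1
    linarith
  obtain ⟨p, hp0, hp1, hbal⟩ := bal_prob A
  refine ⟨1 + 2 / p * |Real.log (2 / ε)|, by positivity, ?_⟩
  intro K τ₁ θ hK hτ hτ1 hθ hθ1
  have hq0 := qpat_pos hK hτ hτ1
  have hq1 := qpat_le_one K τ₁ hK
  set q := qpat K τ₁ with hq
  refine Ev.mono ((((him θ hθ hθ1).and (hbal θ hθ hθ1)).and (pat_prob K hK hτ hτ1 hθ hθ1)).and
    (Ev.n_ge fun _ => 1)) ?_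
  rintro ρ n ⟨⟨⟨him, hbal⟩, hpat⟩, hn⟩ k L hL
  have hn' : 0 < n := by
    have : (1 : ℝ) ≤ n := hn
    exact_mod_cast this
  have := Q_prob hn'
  have hδ : (0 : ℝ) ≤ C1 * Real.exp (-(lam₀ * A)) := by
    have := Real.exp_pos (-(lam₀ * A))
    nlinarith
  -- one step
  have hstep : ∀ (t : ℕ) (P : Conf → Prop), MeasurableSet {c | P c} → Past t P →
      (∀ c, P c → Alive n θ ρ c t) →
      (Q n).real {c | P c ∧ OkAt n θ ρ c (t + 1) ∧ ¬ Cand K τ₁ c (t + 1)} ≤
        (1 - p * q / 2) * (Q n).real {c | P c} +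
          (1 - (1 - p * q / 2)) * (C1 * Real.exp (-(lam₀ * A))) := by
    intro t P hPm hPp hPa
    rw [sub_sub_cancel]
    refine cand_step (A := A) hp0.le hq0.le hq1 ?_ ?_ ?_ hPm hPp hPa
    · intro k P hPm hPp hPA
      have h := hbal k (fun c => if P c then 1 else 0)
        (Measurable.ite hPm measurable_const measurable_const)
        (fun c => by have := hPp c; simp only [this]) (fun c hc => by
          by_contra h
          apply hc
          rw [if_neg fun h' => h (hPA c h').2])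
      have e1 : (fun c => if OkAt n θ ρ c k then (if P c then (1 : ℝ≥0∞) else 0) else 0) =
          fun c => if P c then 1 else 0 := by
        funext c
        by_cases h1 : P c
        · rw [if_pos (hPA c h1).1]
        · rw [if_neg h1, ite_self]
      have e2 : (fun c => if OkAt n θ ρ c k ∧ im c (k + 1) = 0 then
          (if P c then (1 : ℝ≥0∞) else 0) else 0) =
          fun c => if P c ∧ im c (k + 1) = 0 then 1 else 0 := by
        funext c
        by_cases h1 : P c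
        · have h2 := (hPA c h1).1
          simp only [h1, h2, true_and, if_true]
        · simp only [h1, false_and, if_false, ite_self]
      have hm : MeasurableSet {c | P c ∧ im c (k + 1) = 0} :=
        hPm.inter (measurable_im (k + 1) (measurableSet_singleton 0))
      rw [e1, e2, lintegral_ite_one hPm, lintegral_ite_one hm] at h
      have h3 := ENNReal.toReal_mono (measure_ne_top _ _) h
      rwa [ENNReal.toReal_mul, ENNReal.toReal_ofReal hp0.le] at h3
    · intro k P hPm hPp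
      have h := (hpat k (fun c => if P c then 1 else 0)
        (Measurable.ite hPm measurable_const measurable_const)
        (fun c => by have := hPp c; simp only [this])).2
      have e1 : (fun c => if OkAt n θ ρ c k then (if P c then (1 : ℝ≥0∞) else 0) else 0) =
          fun c => if P c ∧ OkAt n θ ρ c k then 1 else 0 := by
        funext c
        by_cases h1 : P c <;> by_cases h2 : OkAt n θ ρ c k <;> simp [h1, h2]
      have e2 : (fun c => if OkAt n θ ρ c k then
          (if P c then (1 : ℝ≥0∞) else 0) * patI K τ₁ (uc c k) else 0) =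
          fun c => if P c ∧ OkAt n θ ρ c k ∧ Pat K τ₁ (uc c k) then 1 else 0 := by
        funext c
        unfold patI
        by_cases h1 : P c <;> by_cases h2 : OkAt n θ ρ c k <;>
          by_cases h3 : Pat K τ₁ (uc c k) <;> simp [h1, h2, h3]
      have hOm := measurableSet_okAt n θ ρ k
      have hm1 : MeasurableSet {c | P c ∧ OkAt n θ ρ c k} := hPm.inter hOm
      have hm2 : MeasurableSet {c | P c ∧ OkAt n θ ρ c k ∧ Pat K τ₁ (uc c k)} :=
        hPm.inter (hOm.inter (measurable_uc k (measurableSet_pat K τ₁)))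
      rw [e1, e2, lintegral_ite_one hm1, lintegral_ite_one hm2] at h
      have h3 := ENNReal.toReal_mono (measure_ne_top _ _) h
      rwa [ENNReal.toReal_mul, ENNReal.toReal_ofReal (by positivity)] at h3
    · intro k
      have h3 := ENNReal.toReal_mono ENNReal.ofReal_ne_top (him k A)
      rwa [ENNReal.toReal_ofReal hδ] at h3
  -- iteration
  set J := L / (2 * K + 2) with hJ
  have hx0 : 0 ≤ 1 - p * q / 2 := by nlinarith
  have h1 := cand_iter hx0 hδ hstep k J
  have h2 : (Q n).real {c | Alive n θ ρ c (k + L) ∧ ∀ j, k < j → j ≤ k + L → ¬ Cand K τ₁ c j} ≤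
      (Q n).real {c | Alive n θ ρ c (k + J * (2 * K + 2)) ∧
      ∀ i' < J, ¬ Cand K τ₁ c (k + i' * (2 * K + 2) + 1)} := by
    have hJL : J * (2 * K + 2) ≤ L := Nat.div_mul_le_self _ _
    refine measureReal_mono ?_
    rintro c ⟨h3, h4⟩
    refine ⟨fun j hj => h3 j (by omega), fun i' hi' => h4 _ (by omega) ?_⟩
    have h5 : (i' + 1) * (2 * K + 2) ≤ J * (2 * K + 2) := Nat.mul_le_mul_right _ hi'
    have h6 : (i' + 1) * (2 * K + 2) = i' * (2 * K + 2) + 2 * K + 2 := by ring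
    omega
  have h3 : (1 - p * q / 2) ^ J ≤ ε / 2 := by
    have e1 : (1 - p * q / 2) ^ J ≤ Real.exp (-(p * q / 2)) ^ J := by
      refine pow_le_pow_left₀ hx0 ?_ J
      have := Real.add_one_le_exp (-(p * q / 2))
      linarith
    rw [← Real.exp_nat_mul] at e1
    refine e1.trans ?_
    have e2 : |Real.log (2 / ε)| ≤ J * (p * q / 2) := by
      have e3 : (1 + 2 / p * |Real.log (2 / ε)|) / q ≤ J + 1 := by
        have e4 : (L : ℝ) / (2 * K + 2) ≤ J + 1 := by
          have e5 : L < (J + 1) * (2 * K + 2) := by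
            have := Nat.lt_div_mul_add (a := L) (b := 2 * K + 2) (by omega)
            rw [← hJ] at this
            linarith
          rw [div_le_iff₀ (by positivity)]
          have e6 : (L : ℝ) ≤ ((J + 1) * (2 * K + 2) : ℕ) := by exact_mod_cast e5.le
          push_cast at e6
          exact e6
        refine le_trans ?_ e4
        rw [le_div_iff₀ (by positivity)]
        calc (1 + 2 / p * |Real.log (2 / ε)|) / q * (2 * (K : ℝ) + 2)
            = (1 + 2 / p * |Real.log (2 / ε)|) * (2 * K + 2) / q := by ring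
          _ ≤ L := hL
      rw [div_le_iff₀ hq0] at e3
      have e4 : 2 / p * |Real.log (2 / ε)| ≤ J * q := by linarith
      have e5 : 2 * |Real.log (2 / ε)| ≤ J * q * p := by
        have := mul_le_mul_of_nonneg_right e4 hp0.le
        have e6 : 2 / p * |Real.log (2 / ε)| * p = 2 * |Real.log (2 / ε)| := by
          field_simp
        linarith
      linarith
    have e3 : Real.log (2 / ε) ≤ J * (p * q / 2) := (le_abs_self _).trans e2
    rw [Real.log_le_iff_le_exp (by positivity)] at e3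
    rw [mul_neg, Real.exp_neg, inv_le_comm₀ (Real.exp_pos _) (by positivity)]
    refine le_trans (le_of_eq ?_) e3
    rw [inv_div]
  have h4 : (Q n).real {c | Alive n θ ρ c (k + L) ∧ ∀ j, k < j → j ≤ k + L →
      ¬ Cand K τ₁ c j} ≤ ε := by linarith
  rw [measureReal_def] at h4
  exact (ENNReal.le_ofReal_iff_toReal_le (measure_ne_top _ _) hε.le).2 h4

end Pool.Agent.H27.OTC
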