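import Pool.Agent.H27.OTC.CutTrue
import Pool.Agent.H27.OTC.Cheb

/-!
Job OTC-E-GLOB: consequences of the macroscopic regularity.
-/

set_option autoImplicit false

open MeasureTheory ProbabilityTheory
open scoped ENNReal

namespace Pool.Agent.H27.OTC

open Pool.Agent.H96.OT (Pl)

theorem glob_flatness (l : ℝ) {n : ℕ} (hn : 0 < n) : Flat l (1 / n) n (smp l n) := by
  have hn' : (0 : ℝ) < n := by exact_mod_cast hn
  refine ⟨smp_prob l hn, by positivity, ?_⟩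
  unfold smp
  rw [Measure.restrict_smul, Measure.restrict_restrict]
  · congr 2
    ext p
    simp only [Set.mem_inter_iff, Set.mem_prod, Set.mem_Ioc]
    constructor
    · rintro ⟨-, h⟩
      exact h
    · rintro h
      exact ⟨h.2.2, h⟩
  · exact measurableSet_le measurable_snd measurable_const

theorem glob_near {n : ℕ} (hn : 0 < n) : Near 0 (1 / n) n (smp 0 n) (smp 2 n) n n := by
  have hn' : (n : ℝ) ≠ 0 := by
    have : n ≠ 0 := by omega
    exact_mod_cast this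
  have h1 : |1 / (n : ℝ) * n - 1| ≤ 0 := by
    rw [one_div_mul_cancel hn', sub_self, abs_zero]
  exact ⟨⟨1 / n, glob_flatness 0 hn, h1, le_rfl⟩, ⟨1 / n, glob_flatness 2 hn, h1, le_rfl⟩⟩

theorem glob_filter_le {α : Type*} (s : Multiset α) (p q : α → Prop) {_ : DecidablePred p}
    {_ : DecidablePred q} (h : ∀ x ∈ s, p x → q x) :
    Multiset.card (s.filter p) ≤ Multiset.card (s.filter q) :=
  Multiset.card_le_card (Multiset.le_filter.2 ⟨Multiset.filter_le _ _, fun a ha =>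
    h a (Multiset.mem_of_mem_filter ha) (Multiset.of_mem_filter ha)⟩)

theorem glob_nX_le {c : Conf} {R R' : Set Pl} (h : ∀ p ∈ c.X, p ∈ R → p ∈ R') :
    c.nX R ≤ c.nX R' := glob_filter_le c.X (fun p => p ∈ R) (fun p => p ∈ R') h

theorem glob_nY_le {c : Conf} {R R' : Set Pl} (h : ∀ p ∈ c.Y, p ∈ R → p ∈ R') :
    c.nY R ≤ c.nY R' := glob_filter_le c.Y (fun p => p ∈ R) (fun p => p ∈ R') h

/-- counts below a line, between the counts in two slabs -/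
theorem glob_between {N' : ℕ} {τ' η : ℝ} {n : ℕ} {c : Conf} (hc : InStrip n c)
    (h : Glob N' τ' η n c) (hτ : 0 ≤ τ') (hτ1 : τ' ≤ 1) (hn : 0 < n)
    (hN : 2 ≤ η * N') (ℓ : ℕ × ℕ) {u v u' v' : ℝ} (hu : 0 ≤ u) (hv : v ≤ n) (huv : u ≤ v)
    (hu' : 0 ≤ u') (hv' : v' ≤ n) (huv' : u' ≤ v')
    (hX : ∀ x : ℝ, 0 ≤ x → x ≤ 1 → u ≤ lam ℓ x ∧ lam ℓ x ≤ v)
    (hY : ∀ x : ℝ, 2 ≤ x → x ≤ 3 → u' ≤ lam ℓ x ∧ lam ℓ x ≤ v') :
    u - η * n ≤ c.nX (below ℓ) ∧ (c.nX (below ℓ) : ℝ) ≤ v + η * n ∧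
    u' - η * n ≤ c.nY (below ℓ) ∧ (c.nY (below ℓ) : ℝ) ≤ v' + η * n := by
  have c1 := (h.cont hτ hτ1 hn hN u hu (huv.trans hv)).1
  have c2 := (h.cont hτ hτ1 hn hN v (hu.trans huv) hv).1
  have c3 := (h.cont hτ hτ1 hn hN u' hu' (huv'.trans hv')).2.2
  have c4 := (h.cont hτ hτ1 hn hN v' (hu'.trans huv') hv').2.2
  rw [abs_le] at c1 c2 c3 c4
  have m1 : c.nX {p | 0 < p.2 ∧ p.2 ≤ u} ≤ c.nX (below ℓ) := glob_nX_le fun p hp hp' => by
    obtain ⟨h1, h2, h3, h4⟩ := hc.X p hp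
    exact hp'.2.trans (hX p.1 h1 h2).1
  have m2 : c.nX (below ℓ) ≤ c.nX {p | 0 < p.2 ∧ p.2 ≤ v} := glob_nX_le fun p hp hp' => by
    obtain ⟨h1, h2, h3, h4⟩ := hc.X p hp
    have h5 : p.2 ≤ lam ℓ p.1 := hp'
    exact ⟨h3, h5.trans (hX p.1 h1 h2).2⟩
  have m3 : c.nY {p | 0 < p.2 ∧ p.2 ≤ u'} ≤ c.nY (below ℓ) := glob_nY_le fun p hp hp' => by
    obtain ⟨h1, h2, h3, h4⟩ := hc.Y p hp
    exact hp'.2.trans (hY p.1 h1 h2).1
  have m4 : c.nY (below ℓ) ≤ c.nY {p | 0 < p.2 ∧ p.2 ≤ v'} := glob_nY_le fun p hp hp' => by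
    obtain ⟨h1, h2, h3, h4⟩ := hc.Y p hp
    have h5 : p.2 ≤ lam ℓ p.1 := hp'
    exact ⟨h3, h5.trans (hY p.1 h1 h2).2⟩
  have m1' : (c.nX {p | 0 < p.2 ∧ p.2 ≤ u} : ℝ) ≤ c.nX (below ℓ) := Nat.cast_le.2 m1
  have m2' : (c.nX (below ℓ) : ℝ) ≤ c.nX {p | 0 < p.2 ∧ p.2 ≤ v} := Nat.cast_le.2 m2
  have m3' : (c.nY {p | 0 < p.2 ∧ p.2 ≤ u'} : ℝ) ≤ c.nY (below ℓ) := Nat.cast_le.2 m3
  have m4' : (c.nY (below ℓ) : ℝ) ≤ c.nY {p | 0 < p.2 ∧ p.2 ≤ v'} := Nat.cast_le.2 m4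
  exact ⟨by linarith, by linarith, by linarith, by linarith⟩

/-- counts below a line whose ends have height at most `n` -/
theorem glob_line {N' : ℕ} {τ' η : ℝ} {n : ℕ} {c : Conf} (hc : InStrip n c)
    (h : Glob N' τ' η n c) (hτ : 0 ≤ τ') (hτ1 : τ' ≤ 1) (hn : 0 < n)
    (hN : 2 ≤ η * N') (ℓ : ℕ × ℕ) (h1 : ℓ.1 ≤ n) (h2 : ℓ.2 ≤ n) (D : ℝ)
    (hD : D = (ℓ.2 : ℝ) - ℓ.1) :
    (0 ≤ D → ℓ.1 - η * n ≤ c.nX (below ℓ) ∧ (c.nX (below ℓ) : ℝ) ≤ ℓ.1 + D / 3 + η * n ∧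
      ℓ.1 + 2 * D / 3 - η * n ≤ c.nY (below ℓ) ∧ (c.nY (below ℓ) : ℝ) ≤ ℓ.1 + D + η * n) ∧
    (D ≤ 0 → ℓ.1 + D / 3 - η * n ≤ c.nX (below ℓ) ∧ (c.nX (below ℓ) : ℝ) ≤ ℓ.1 + η * n ∧
      ℓ.1 + D - η * n ≤ c.nY (below ℓ) ∧ (c.nY (below ℓ) : ℝ) ≤ ℓ.1 + 2 * D / 3 + η * n) := by
  have h1' : (ℓ.1 : ℝ) ≤ n := Nat.cast_le.2 h1
  have h2' : (ℓ.2 : ℝ) ≤ n := Nat.cast_le.2 h2
  have p1 : (0 : ℝ) ≤ ℓ.1 := Nat.cast_nonneg _
  have p2 : (0 : ℝ) ≤ ℓ.2 := Nat.cast_nonneg _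
  have hlam : ∀ x : ℝ, 0 ≤ x → x ≤ 3 → lam ℓ x = ℓ.1 + D * x / 3 := by
    intro x hx0 hx3
    unfold lam
    rw [wt_eq hx0 hx3, hD]
    ring
  constructor
  · intro hD0
    refine glob_between hc h hτ hτ1 hn hN ℓ p1 (by linarith) (by linarith) (by linarith)
      (by linarith) (by linarith) ?_ ?_
    · intro x hx0 hx1
      rw [hlam x hx0 (by linarith)]
      have e1 : 0 ≤ D * x := mul_nonneg hD0 hx0
      have e2 : 0 ≤ D * (1 - x) := mul_nonneg hD0 (by linarith)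
      exact ⟨by linarith, by linarith⟩
    · intro x hx0 hx1
      rw [hlam x (by linarith) (by linarith)]
      have e1 : 0 ≤ D * (x - 2) := mul_nonneg hD0 (by linarith)
      have e2 : 0 ≤ D * (3 - x) := mul_nonneg hD0 (by linarith)
      exact ⟨by linarith, by linarith⟩
  · intro hD0
    refine glob_between hc h hτ hτ1 hn hN ℓ (by linarith) h1' (by linarith) (by linarith)
      (by linarith) (by linarith) ?_ ?_
    · intro x hx0 hx1
      rw [hlam x hx0 (by linarith)]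
      have e1 : D * x ≤ 0 := mul_nonpos_of_nonpos_of_nonneg hD0 hx0
      have e2 : D * (1 - x) ≤ 0 := mul_nonpos_of_nonpos_of_nonneg hD0 (by linarith)
      exact ⟨by linarith, by linarith⟩
    · intro x hx0 hx1
      rw [hlam x (by linarith) (by linarith)]
      have e1 : D * (x - 2) ≤ 0 := mul_nonpos_of_nonpos_of_nonneg hD0 (by linarith)
      have e2 : D * (3 - x) ≤ 0 := mul_nonpos_of_nonpos_of_nonneg hD0 (by linarith)
      exact ⟨by linarith, by linarith⟩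

theorem glob_prob {N' : ℕ} {τ' η : ℝ} (hN : 0 < N') (hτ : 0 < τ') (hτ1 : τ' ≤ 1) (hη : 0 < η)
    (hη1 : 8 * η ≤ 1) {ε : ℝ} (hε : 0 < ε) :
    ∃ n₀ : ℕ, ∀ n : ℕ, n₀ ≤ n → Q n {c | ¬ Glob N' τ' η n c} ≤ ENNReal.ofReal ε := by
  obtain ⟨C, a, κ₀, hC, ha, hκ, H⟩ := regUp_tail (N := N') (τ := τ') (δ := 8 * η) hN hτ hτ1
    (by positivity) hη1
  have hlim : Filter.Tendsto (fun n : ℕ => C * Real.exp (-(a * ((n : ℝ) / 8)))) Filter.atTop
      (nhds 0) := by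
    have h1 : Filter.Tendsto (fun n : ℕ => a * ((n : ℝ) / 8)) Filter.atTop Filter.atTop :=
      (tendsto_natCast_atTop_atTop.atTop_div_const (by norm_num)).const_mul_atTop ha
    have h2 := (Real.tendsto_exp_neg_atTop_nhds_zero.comp h1).const_mul C
    simpa using h2
  have hev := (hlim.eventually (ge_mem_nhds hε)).and (Filter.eventually_ge_atTop 8)
  obtain ⟨n₀, hn₀⟩ := Filter.eventually_atTop.1 hev
  refine ⟨n₀, fun n hn => ?_⟩
  obtain ⟨h1, h8⟩ := hn₀ n hn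
  have hn0 : 0 < n := by omega
  have h8' : (8 : ℝ) ≤ n := by exact_mod_cast h8
  have h := H 0 (1 / n) n ((n : ℝ) / 8) _ _ _ _ hκ.le (by linarith) (by linarith)
    (glob_near hn0)
  exact h.trans (ENNReal.ofReal_le_ofReal h1)

/-- the lines of the exploration are nearly horizontal -/
theorem glob_flat {N' : ℕ} {τ' η : ℝ} {n : ℕ} {c : Conf} (hc : InStrip n c)
    (h : Glob N' τ' η n c) (hτ : 0 ≤ τ') (hτ1 : τ' ≤ 1) (hη : 0 < η) (hn : 0 < n)
    (hN : 2 ≤ η * N') (k : ℕ)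
    (hk : ∀ j < k, (st c j).1 ≤ n ∧ (st c j).2 ≤ n) :
    |((st c k).2 : ℝ) - (st c k).1| ≤ 6 * η * n ∧
      ∀ j < k, |(im c j : ℝ)| ≤ 8 * η * n := by
  have hn' : (0 : ℝ) < n := by exact_mod_cast hn
  have hηn : 0 < η * n := by positivity
  induction k with
  | zero =>
    refine ⟨?_, fun j hj => absurd hj (Nat.not_lt_zero j)⟩
    have h1 : (st c 0).1 = 0 := rfl
    have h2 : (st c 0).2 = 0 := rfl
    rw [h1, h2, sub_self, abs_zero]
    positivity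
  | succ k ih =>
    obtain ⟨ih1, ih2⟩ := ih fun j hj => hk j (by omega)
    obtain ⟨g1, g2⟩ := hk k (by omega)
    have hl := glob_line hc h hτ hτ1 hn hN (st c k) g1 g2 _ rfl
    have hs := st_succ_diff c k
    have him : (im c k : ℝ) = (c.nX (below (st c k)) : ℝ) - c.nY (below (st c k)) := by
      unfold im imb
      push_cast
      rfl
    set D : ℝ := ((st c k).2 : ℝ) - (st c k).1 with hD
    rw [abs_le] at ih1
    have key : |D + (im c k : ℝ)| ≤ 6 * η * n ∧ |(im c k : ℝ)| ≤ 8 * η * n := by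
      rcases le_total 0 D with h0 | h0
      · obtain ⟨a1, a2, a3, a4⟩ := hl.1 h0
        rw [him]
        constructor
        · rw [abs_le]
          constructor
          · linarith
          · linarith
        · rw [abs_le]
          constructor
          · linarith
          · linarith
      · obtain ⟨a1, a2, a3, a4⟩ := hl.2 h0
        rw [him]
        constructor
        · rw [abs_le]
          constructor
          · linarith
          · linarith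
        · rw [abs_le]
          constructor
          · linarith
          · linarith
    refine ⟨?_, fun j hj => ?_⟩
    · rw [hs]
      exact key.1
    · rcases Nat.lt_succ_iff_lt_or_eq.1 hj with hj | hj
      · exact ih2 j hj
      · rw [hj]
        exact key.2

/-- the lines up to the height `(1 - θ) n - 6 η n` -/
theorem glob_ends {N' : ℕ} {τ' η : ℝ} {n : ℕ} {c : Conf} (hc : InStrip n c)
    (h : Glob N' τ' η n c) (hτ : 0 ≤ τ') (hτ1 : τ' ≤ 1) (hη : 0 < η) (hn : 0 < n)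
    (hN : 2 ≤ η * N') {θ : ℝ} (hθ : 0 < θ) (k : ℕ)
    (hk : ((st c k).1 : ℝ) ≤ (1 - θ) * n - 6 * η * n) (j : ℕ) (hj : j ≤ k) :
    (st c j).1 ≤ n ∧ (st c j).2 ≤ n ∧ ((st c j).1 : ℝ) ≤ (1 - θ) * n - 6 * η * n ∧
      ((st c j).2 : ℝ) ≤ (1 - θ) * n ∧ |((st c j).2 : ℝ) - (st c j).1| ≤ 6 * η * n := by
  have hn' : (0 : ℝ) < n := by exact_mod_cast hn
  have hηn : 0 < η * n := by positivity
  have hθn : 0 < θ * n := by positivity
  induction j using Nat.strong_induction_on with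
  | _ j ih =>
    have h1 : ((st c j).1 : ℝ) ≤ (st c k).1 := Nat.cast_le.2 (ex_mono 0 c hj).1
    have h2 := (glob_flat hc h hτ hτ1 hη hn hN j fun i hi =>
      ⟨(ih i hi (by omega)).1, (ih i hi (by omega)).2.1⟩).1
    have h3 := (abs_le.1 h2).2
    have h4 : ((st c j).1 : ℝ) ≤ n := by linarith
    have h5 : ((st c j).2 : ℝ) ≤ n := by linarith
    exact ⟨Nat.cast_le.1 h4, Nat.cast_le.1 h5, h1.trans hk, by linarith, h2⟩

/-- below the height `(1 - θ) n - 6 η n` all lines are admissible -/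
theorem glob_alive {N' : ℕ} {τ' η : ℝ} {n : ℕ} {c : Conf} (hc : InStrip n c)
    (h : Glob N' τ' η n c) (hτ : 0 ≤ τ') (hτ1 : τ' ≤ 1) (hη : 0 < η) (hn : 0 < n)
    (hN : 2 ≤ η * N') {θ ρ : ℝ} (hθ : 0 < θ) (hθ1 : θ < 1) (hηρ : 7 * η ≤ ρ) (k : ℕ)
    (hk : ((st c k).1 : ℝ) ≤ (1 - θ) * n - 6 * η * n) : Alive n θ ρ c k := by
  have hn' : (0 : ℝ) < n := by exact_mod_cast hn
  have hηn : 0 < η * n := by positivity
  intro j hj
  obtain ⟨h1, h2, h3, h4, h5⟩ := glob_ends hc h hτ hτ1 hη hn hN hθ k hk j hj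
  have hl := glob_line hc h hτ hτ1 hn hN (st c j) h1 h2 _ rfl
  have hρ : 7 * η * n ≤ ρ * n := mul_le_mul_of_nonneg_right hηρ hn'.le
  show Ok n θ ρ (st c j) (c.nX (below (st c j))) (c.nY (below (st c j)))
  set D : ℝ := ((st c j).2 : ℝ) - (st c j).1 with hD
  refine ⟨by linarith, h4, by linarith, ?_, ?_⟩
  · rw [abs_le] at h5 ⊢
    rcases le_total 0 D with h0 | h0
    · obtain ⟨a1, a2, a3, a4⟩ := hl.1 h0
      constructor <;> linarith
    · obtain ⟨a1, a2, a3, a4⟩ := hl.2 h0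
      constructor <;> linarith
  · rw [abs_le] at h5 ⊢
    rcases le_total 0 D with h0 | h0
    · obtain ⟨a1, a2, a3, a4⟩ := hl.1 h0
      constructor <;> linarith
    · obtain ⟨a1, a2, a3, a4⟩ := hl.2 h0
      constructor <;> linarith

/-- a later line is not much higher -/
theorem glob_step {N' : ℕ} {τ' η : ℝ} {n : ℕ} {c : Conf} (hc : InStrip n c)
    (h : Glob N' τ' η n c) (hτ : 0 ≤ τ') (hτ1 : τ' ≤ 1) (hη : 0 < η) (hn : 0 < n)
    (hN : 2 ≤ η * N') {θ : ℝ} (hθ : 0 < θ) (hθ1 : θ < 1) (k L : ℕ)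
    (hk : ((st c k).1 : ℝ) + L * (1 + 8 * η * n) ≤ (1 - θ) * n - 6 * η * n) :
    ((st c (k + L)).1 : ℝ) ≤ ((st c k).1 : ℝ) + L * (1 + 8 * η * n) := by
  have hn' : (0 : ℝ) < n := by exact_mod_cast hn
  have hηn : 0 < η * n := by positivity
  induction L with
  | zero => simp
  | succ L ih =>
    push_cast at hk
    have h1 := ih (by linarith)
    have h2 : ((st c (k + L)).1 : ℝ) ≤ (1 - θ) * n - 6 * η * n := by linarith
    have h3 := (glob_flat hc h hτ hτ1 hη hn hN (k + L + 1) fun j hj => by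
      obtain ⟨g1, g2, -⟩ := glob_ends hc h hτ hτ1 hη hn hN hθ (k + L) h2 j (by omega)
      exact ⟨g1, g2⟩).2 (k + L) (by omega)
    have h4 := st_succ_fst c (k + L)
    rw [← Nat.add_assoc]
    push_cast
    linarith

/-- Riemann sums along the sample -/
theorem psi_lln {ψ : ℝ → ℝ} (hψ : Continuous ψ) (hψ1 : ∀ t, |ψ t| ≤ 1) {ε : ℝ} (hε : 0 < ε) :
    ∃ n₀ : ℕ, ∀ n : ℕ, n₀ ≤ n →
      Q n {c | ε * n < |(c.X.map (fun p => ψ (p.2 / n))).sum - n * ∫ t in (0 : ℝ)..1, ψ t|} ≤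
        ENNReal.ofReal ε := by
  obtain ⟨n₀, hn₀, hsm⟩ := cheb_small 1 hε hε
  refine ⟨n₀, fun n hn => ?_⟩
  have hn0 : 0 < n := lt_of_lt_of_le hn₀ hn
  have := smp_prob 0 hn0
  have := smp_prob 2 hn0
  have hsum : ∀ (m m' : ℕ) (p : (Fin m → Pl) × (Fin m' → Pl)),
      ((mk2 m m' p).X.map (fun p => ψ (p.2 / n))).sum = ∑ i, ψ ((p.1 i).2 / n) := by
    intro m m' p
    show ((cfg p.1).map (fun p => ψ (p.2 / n))).sum = _
    unfold cfg
    rw [Multiset.map_map]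
    rfl
  set s : ℝ := n * ∫ t in (0 : ℝ)..1, ψ t with hs
  have hmeas : MeasurableSet {c : Conf | ε * n < |(c.X.map (fun p => ψ (p.2 / n))).sum - s|} := by
    rw [measurableSet_conf]
    intro m m'
    have h1 : (mk2 m m' ⁻¹' {c : Conf | ε * n < |(c.X.map (fun p => ψ (p.2 / n))).sum - s|}) =
        {p : (Fin m → Pl) × (Fin m' → Pl) | ε * n < |∑ i, ψ ((p.1 i).2 / n) - s|} := by
      ext p
      show ε * n < |((mk2 m m' p).X.map (fun p => ψ (p.2 / n))).sum - s| ↔ _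
      rw [hsum]
      rfl
    rw [h1]
    refine measurableSet_lt measurable_const ?_
    have h2 : Continuous fun p : (Fin m → Pl) × (Fin m' → Pl) => |∑ i, ψ ((p.1 i).2 / n) - s| := by
      fun_prop
    exact h2.measurable
  rw [Q, iid, Measure.map_apply (measurable_mk2 n n) hmeas]
  have h3 : (mk2 n n ⁻¹' {c : Conf | ε * n < |(c.X.map (fun p => ψ (p.2 / n))).sum - s|}) =
      {x : Fin n → Pl | ε * n < |∑ i, ψ ((x i).2 / n) - s|} ×ˢ Set.univ := by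
    ext p
    show ε * n < |((mk2 n n p).X.map (fun p => ψ (p.2 / n))).sum - s| ↔ _
    rw [hsum]
    simp
  rw [h3, Measure.prod_prod, measure_univ, mul_one]
  have h4 := cheb_smp 0 (g := fun _ => 1) (ψ := ψ) measurable_const hψ.measurable (M := 1)
    (fun _ => by simp) hψ1 hn0 hε
  have h5 : ∫ t in (0 : ℝ)..(0 + 1), (1 : ℝ) = 1 := by simp
  rw [h5] at h4
  simp only [one_mul] at h4
  exact h4.trans (ENNReal.ofReal_le_ofReal (hsm n hn))

end Pool.Agent.H27.OTC
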