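import Pool.Agent.H27.OTC.Freq

/-!
Job OTC-C-LLN: law of large numbers for window functionals along the exploration.
-/

set_option autoImplicit false

open MeasureTheory ProbabilityTheory
open scoped ENNReal

namespace Pool.Agent.H27.OTC

open Pool.Agent.H96.OT (Pl)

open Classical in
/-- the centred summand -/
noncomputable def ctr (n : ℕ) (θ ρ : ℝ) (N : ℕ) (B : ℝ) (g : Conf → ℝ≥0∞) (ψ : ℝ → ℝ) (k : ℕ)
    (c : Conf) : ℝ :=
  if Alive n θ ρ c k ∧ im c k = 0 then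
    ψ (((st c k).1 : ℝ) / n) * ((g (uc c k)).toReal - (poi N B g).toReal) else 0

theorem ctr_bound {N b : ℕ} {M : ℝ} (hb : 0 < b) (hM : 0 < M) {g : Conf → ℝ≥0∞}
    (hg : WinFun N (b : ℝ) M g) {ψ : ℝ → ℝ} (hψ : ∀ t, |ψ t| ≤ 1) (n : ℕ) (θ ρ : ℝ) (k : ℕ)
    (c : Conf) : |ctr n θ ρ N b g ψ k c| ≤ M := by
  unfold ctr
  split_ifs with h
  · rw [abs_mul]
    have h1 : (g (uc c k)).toReal ≤ M := ENNReal.toReal_le_of_le_ofReal hM.le (hg.bdd _)
    have h2 : (poi N (b : ℝ) g).toReal ≤ M :=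
      ENNReal.toReal_le_of_le_ofReal hM.le (poi_le (by exact_mod_cast hb) hM.le hg)
    have h3 : 0 ≤ (g (uc c k)).toReal := ENNReal.toReal_nonneg
    have h4 : 0 ≤ (poi N (b : ℝ) g).toReal := ENNReal.toReal_nonneg
    have h5 : |(g (uc c k)).toReal - (poi N (b : ℝ) g).toReal| ≤ M := by
      rw [abs_le]
      constructor <;> linarith
    calc |ψ (((st c k).1 : ℝ) / n)| * |(g (uc c k)).toReal - (poi N (b : ℝ) g).toReal|
        ≤ 1 * M := mul_le_mul (hψ _) h5 (abs_nonneg _) zero_le_one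
      _ = M := one_mul M
  · rw [abs_zero]
    exact hM.le

theorem measurable_ctr {N : ℕ} {B M : ℝ} {g : Conf → ℝ≥0∞}
    (hg : WinFun N B M g) (ψ : ℝ → ℝ) (n : ℕ) (θ ρ : ℝ) (k : ℕ) :
    Measurable (ctr n θ ρ N B g ψ k) := by
  unfold ctr
  refine Measurable.ite ?_ ?_ measurable_const
  · exact (measurableSet_alive n θ ρ k).inter (measurable_im k (measurableSet_singleton 0))
  · refine Measurable.mul ?_ ?_
    · have h1 : Measurable (fun ℓ : ℕ × ℕ => ψ ((ℓ.1 : ℝ) / n)) := Measurable.of_discrete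
      exact h1.comp (measurable_st k)
    · exact ((hg.meas.comp (measurable_uc k)).ennreal_toReal).sub_const _

theorem winFun_loc' {N b : ℕ} {M : ℝ} {g : Conf → ℝ≥0∞} (hg : WinFun N (b : ℝ) M g) (c : Conf) :
    g c = g (c.filt {p | p.2 ≤ (b : ℝ)}) := by
  rw [hg.loc (c.filt {p | p.2 ≤ (b : ℝ)}), filt_filt, hg.loc c]
  congr 2
  ext p
  simp only [win, Set.mem_inter_iff, Set.mem_ofPred_eq]
  tauto

theorem past_ctr {N b : ℕ} {M : ℝ} {g : Conf → ℝ≥0∞}
    (hg : WinFun N (b : ℝ) M g) (ψ : ℝ → ℝ) (n : ℕ) (θ ρ : ℝ) {k l : ℕ} (hkl : k + b ≤ l) :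
    Past l (ctr n θ ρ N b g ψ k) := by
  intro c
  have h1 := (past_alive n θ ρ k).mono (show k ≤ l by omega) c
  have h2 := (past_im k).mono (show k ≤ l by omega) c
  have h3 := (past_st k).mono (show k ≤ l by omega) c
  have h4 := (past_window (B := b) (G := g) (winFun_loc' hg) k).mono hkl c
  have h1' : Alive n θ ρ c k = Alive n θ ρ (c.filt (below (st c l))) k := h1
  have h2' : im c k = im (c.filt (below (st c l))) k := h2
  have h3' : st c k = st (c.filt (below (st c l))) k := h3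
  have h4' : g (uc c k) = g (uc (c.filt (below (st c l))) k) := h4
  unfold ctr
  rw [← h1', ← h2', ← h3', ← h4']

open Classical in
/-- one step comparison with the Poisson expectation -/
theorem step_cmp {n : ℕ} {θ ρ : ℝ} (hn : 0 < n) (hθ : 0 < θ) (hρ : 0 < ρ) (hρθ : ρ ≤ θ / 4)
    (l : ℕ) {Φ : Conf → ℝ≥0∞} (hΦ : Measurable Φ) (hP : Past l Φ) {g : Conf → ℝ≥0∞}
    (hg : Measurable g) {p : ℝ≥0∞} {e M : ℝ} (he : 0 ≤ e)
    (hΦM : ∀ c, Φ c ≤ ENNReal.ofReal M)
    (hC : ∀ ℓ N N', Ok n θ ρ ℓ N N' → ∫⁻ c', g c' ∂(lawUp n ℓ N N') ≤ p + ENNReal.ofReal e ∧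
      p ≤ ∫⁻ c', g c' ∂(lawUp n ℓ N N') + ENNReal.ofReal e) :
    (∫⁻ c, (if OkAt n θ ρ c l then Φ c * g (uc c l) else 0) ∂(Q n) ≤
      ∫⁻ c, (if OkAt n θ ρ c l then Φ c * p else 0) ∂(Q n) + ENNReal.ofReal (e * M)) ∧
    (∫⁻ c, (if OkAt n θ ρ c l then Φ c * p else 0) ∂(Q n) ≤
      ∫⁻ c, (if OkAt n θ ρ c l then Φ c * g (uc c l) else 0) ∂(Q n) + ENNReal.ofReal (e * M)) := by
  have := Q_prob hn
  have hOk : MeasurableSet {c | OkAt n θ ρ c l} := measurableSet_okAt n θ ρ l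
  constructor
  · have h1 := markov_le hn hθ hρ hρθ l hΦ hP (G := fun _ => g) (fun _ => hg)
      (fun _ => p + ENNReal.ofReal e) (fun ℓ N N' h => (hC ℓ N N' h).1)
    refine h1.trans ?_
    have h2 : ∀ c, (if OkAt n θ ρ c l then Φ c * (p + ENNReal.ofReal e) else 0) ≤
        (if OkAt n θ ρ c l then Φ c * p else 0) + ENNReal.ofReal (e * M) := by
      intro c
      split_ifs with h
      · rw [mul_add]
        refine add_le_add_right ?_ _
        rw [ENNReal.ofReal_mul he, mul_comm]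
        exact mul_le_mul_right (hΦM c) _
      · exact zero_le
    refine (lintegral_mono h2).trans ?_
    rw [lintegral_add_right _ measurable_const]
    simp
  · have h1 := markov_ge hn hθ hρ hρθ l hΦ hP (G := fun _ => g) (fun _ => hg)
      (fun _ => p - ENNReal.ofReal e) (fun ℓ N N' h => tsub_le_iff_right.2 (hC ℓ N N' h).2)
    have h2 : ∀ c, (if OkAt n θ ρ c l then Φ c * p else 0) ≤
        (if OkAt n θ ρ c l then Φ c * (p - ENNReal.ofReal e) else 0) + ENNReal.ofReal (e * M) := by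
      intro c
      split_ifs with h
      · calc Φ c * p ≤ Φ c * ((p - ENNReal.ofReal e) + ENNReal.ofReal e) :=
              mul_le_mul_right le_tsub_add _
          _ = Φ c * (p - ENNReal.ofReal e) + Φ c * ENNReal.ofReal e := mul_add _ _ _
          _ ≤ _ := by
              refine add_le_add_right ?_ _
              rw [ENNReal.ofReal_mul he, mul_comm]
              exact mul_le_mul_right (hΦM c) _
      · exact zero_le
    refine (lintegral_mono h2).trans ?_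
    rw [lintegral_add_right _ measurable_const]
    refine add_le_add h1 ?_
    simp

open Classical in
/-- real version, for a nonnegative weight -/
theorem step_cmp_real {n : ℕ} {θ ρ : ℝ} (hn : 0 < n) (hθ : 0 < θ) (hρ : 0 < ρ) (hρθ : ρ ≤ θ / 4)
    (l : ℕ) {Ψ : Conf → ℝ} (hΨ : Measurable Ψ) (hP : Past l Ψ) {g : Conf → ℝ≥0∞}
    (hg : Measurable g) {p : ℝ≥0∞} {e M M' : ℝ} (he : 0 ≤ e)
    (hΨ0 : ∀ c, 0 ≤ Ψ c) (hΨM : ∀ c, Ψ c ≤ M) (hgM : ∀ c, g c ≤ ENNReal.ofReal M')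
    (hpM : p ≤ ENNReal.ofReal M')
    (hC : ∀ ℓ N N', Ok n θ ρ ℓ N N' → ∫⁻ c', g c' ∂(lawUp n ℓ N N') ≤ p + ENNReal.ofReal e ∧
      p ≤ ∫⁻ c', g c' ∂(lawUp n ℓ N N') + ENNReal.ofReal e) :
    |∫ c, (if OkAt n θ ρ c l then Ψ c * ((g (uc c l)).toReal - p.toReal) else 0) ∂(Q n)| ≤
      e * M := by
  have := Q_prob hn
  have hM : 0 ≤ M := (hΨ0 ⟨0, 0⟩).trans (hΨM ⟨0, 0⟩)
  have hOk : MeasurableSet {c | OkAt n θ ρ c l} := measurableSet_okAt n θ ρ l
  set F1 : Conf → ℝ≥0∞ := fun c => if OkAt n θ ρ c l then ENNReal.ofReal (Ψ c) * g (uc c l) else 0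
    with hF1
  set F2 : Conf → ℝ≥0∞ := fun c => if OkAt n θ ρ c l then ENNReal.ofReal (Ψ c) * p else 0
    with hF2
  have m1 : Measurable F1 := Measurable.ite hOk
    (hΨ.ennreal_ofReal.mul (hg.comp (measurable_uc l))) measurable_const
  have m2 : Measurable F2 := Measurable.ite hOk (hΨ.ennreal_ofReal.mul_const _) measurable_const
  have b1 : ∀ c, F1 c ≤ ENNReal.ofReal (M * M') := by
    intro c
    simp only [hF1]
    split_ifs with h
    · rw [ENNReal.ofReal_mul hM]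
      exact mul_le_mul' (ENNReal.ofReal_le_ofReal (hΨM c)) (hgM _)
    · exact zero_le
  have b2 : ∀ c, F2 c ≤ ENNReal.ofReal (M * M') := by
    intro c
    simp only [hF2]
    split_ifs with h
    · rw [ENNReal.ofReal_mul hM]
      exact mul_le_mul' (ENNReal.ofReal_le_ofReal (hΨM c)) hpM
    · exact zero_le
  have t1 : ∀ c, F1 c < ∞ := fun c => (b1 c).trans_lt ENNReal.ofReal_lt_top
  have t2 : ∀ c, F2 c < ∞ := fun c => (b2 c).trans_lt ENNReal.ofReal_lt_top
  have fin1 : ∫⁻ c, F1 c ∂(Q n) ≠ ∞ := by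
    refine ne_top_of_le_ne_top ?_ (lintegral_mono b1)
    simp
  have fin2 : ∫⁻ c, F2 c ∂(Q n) ≠ ∞ := by
    refine ne_top_of_le_ne_top ?_ (lintegral_mono b2)
    simp
  have i1 : Integrable (fun c => (F1 c).toReal) (Q n) :=
    integrable_toReal_of_lintegral_ne_top m1.aemeasurable fin1
  have i2 : Integrable (fun c => (F2 c).toReal) (Q n) :=
    integrable_toReal_of_lintegral_ne_top m2.aemeasurable fin2
  have e0 : ∀ c, (if OkAt n θ ρ c l then Ψ c * ((g (uc c l)).toReal - p.toReal) else 0) =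
      (F1 c).toReal - (F2 c).toReal := by
    intro c
    simp only [hF1, hF2]
    split_ifs with h
    · rw [ENNReal.toReal_mul, ENNReal.toReal_mul, ENNReal.toReal_ofReal (hΨ0 c)]
      ring
    · simp
  simp_rw [e0]
  rw [integral_sub i1 i2, integral_toReal m1.aemeasurable (Filter.Eventually.of_forall t1),
    integral_toReal m2.aemeasurable (Filter.Eventually.of_forall t2)]
  have hPΦ : Past l (fun c => ENNReal.ofReal (Ψ c)) := by
    intro c
    show ENNReal.ofReal (Ψ c) = ENNReal.ofReal (Ψ (c.filt (below (st c l))))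
    rw [← hP c]
  obtain ⟨h1, h2⟩ := step_cmp hn hθ hρ hρθ l hΨ.ennreal_ofReal hPΦ hg he (M := M)
    (fun c => ENNReal.ofReal_le_ofReal (hΨM c)) hC
  have heM : 0 ≤ e * M := mul_nonneg he hM
  have k1 : (∫⁻ c, F1 c ∂(Q n)).toReal ≤ (∫⁻ c, F2 c ∂(Q n)).toReal + e * M := by
    have := ENNReal.toReal_mono (ENNReal.add_ne_top.2 ⟨fin2, ENNReal.ofReal_ne_top⟩) h1
    rwa [ENNReal.toReal_add fin2 ENNReal.ofReal_ne_top, ENNReal.toReal_ofReal heM] at this
  have k2 : (∫⁻ c, F2 c ∂(Q n)).toReal ≤ (∫⁻ c, F1 c ∂(Q n)).toReal + e * M := by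
    have := ENNReal.toReal_mono (ENNReal.add_ne_top.2 ⟨fin1, ENNReal.ofReal_ne_top⟩) h2
    rwa [ENNReal.toReal_add fin1 ENNReal.ofReal_ne_top, ENNReal.toReal_ofReal heM] at this
  rw [abs_le]
  constructor <;> linarith

open Classical in
/-- correlations of distant summands -/
theorem cross_le {n : ℕ} {θ ρ : ℝ} (hn : 0 < n) (hθ : 0 < θ) (hρ : 0 < ρ) (hρθ : ρ ≤ θ / 4)
    {N b : ℕ} {M : ℝ} (hb : 0 < b) (hM : 0 < M) {g : Conf → ℝ≥0∞}
    (hg : WinFun N (b : ℝ) M g) {ψ : ℝ → ℝ} (hψ : ∀ t, |ψ t| ≤ 1) {e : ℝ} (he : 0 ≤ e)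
    (hC : ∀ ℓ N₁ N₁', Ok n θ ρ ℓ N₁ N₁' →
      ∫⁻ c', g c' ∂(lawUp n ℓ N₁ N₁') ≤ poi N b g + ENNReal.ofReal e ∧
      poi N b g ≤ ∫⁻ c', g c' ∂(lawUp n ℓ N₁ N₁') + ENNReal.ofReal e)
    {k l : ℕ} (hkl : k + b ≤ l) :
    ∫ c, ctr n θ ρ N b g ψ k c * ctr n θ ρ N b g ψ l c ∂(Q n) ≤ 2 * (e * M) := by
  have := Q_prob hn
  set χ : Conf → ℝ := fun c => if Alive n θ ρ c l ∧ im c l = 0 then
    ψ (((st c l).1 : ℝ) / n) else 0 with hχ
  have mχ : Measurable χ := by
    refine Measurable.ite ?_ ?_ measurable_const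
    · exact (measurableSet_alive n θ ρ l).inter (measurable_im l (measurableSet_singleton 0))
    · have h1 : Measurable (fun ℓ : ℕ × ℕ => ψ ((ℓ.1 : ℝ) / n)) := Measurable.of_discrete
      exact h1.comp (measurable_st l)
  have pχ : Past l χ := by
    intro c
    have h1 : Alive n θ ρ c l = Alive n θ ρ (c.filt (below (st c l))) l := past_alive n θ ρ l c
    have h2 : im c l = im (c.filt (below (st c l))) l := past_im l c
    have h3 : st c l = st (c.filt (below (st c l))) l := past_st l c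
    simp only [hχ]
    rw [← h1, ← h2, ← h3]
  have bχ : ∀ c, |χ c| ≤ 1 := by
    intro c
    simp only [hχ]
    split_ifs
    · exact hψ _
    · simp
  set Ψ : Conf → ℝ := fun c => ctr n θ ρ N b g ψ k c * χ c with hΨ
  have mΨ : Measurable Ψ := (measurable_ctr hg ψ n θ ρ k).mul mχ
  have pΨ : Past l Ψ := by
    intro c
    have h1 := past_ctr hg ψ n θ ρ hkl c
    have h2 := pχ c
    simp only [hΨ]
    rw [← h1, ← h2]
  have bΨ : ∀ c, |Ψ c| ≤ M := by
    intro c
    simp only [hΨ]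
    rw [abs_mul]
    calc |ctr n θ ρ N b g ψ k c| * |χ c| ≤ M * 1 :=
          mul_le_mul (ctr_bound hb hM hg hψ n θ ρ k c) (bχ c) (abs_nonneg _) hM.le
      _ = M := mul_one M
  have hpM : poi N (b : ℝ) g ≤ ENNReal.ofReal M := poi_le (by exact_mod_cast hb) hM.le hg
  have mP : Measurable (fun c => max (Ψ c) 0) := mΨ.max measurable_const
  have mN : Measurable (fun c => max (-Ψ c) 0) := mΨ.neg.max measurable_const
  have pP : Past l (fun c => max (Ψ c) 0) := by
    intro c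
    show max (Ψ c) 0 = max (Ψ (c.filt (below (st c l)))) 0
    rw [← pΨ c]
  have pN : Past l (fun c => max (-Ψ c) 0) := by
    intro c
    show max (-Ψ c) 0 = max (-Ψ (c.filt (below (st c l)))) 0
    rw [← pΨ c]
  have h1 := step_cmp_real hn hθ hρ hρθ l mP pP hg.meas (p := poi N (b : ℝ) g) (M := M)
    (M' := M) he (fun c => le_max_right _ _)
    (fun c => max_le ((le_abs_self _).trans (bΨ c)) hM.le) hg.bdd hpM hC
  have h2 := step_cmp_real hn hθ hρ hρθ l mN pN hg.meas (p := poi N (b : ℝ) g) (M := M)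
    (M' := M) he (fun c => le_max_right _ _)
    (fun c => max_le ((neg_le_abs _).trans (bΨ c)) hM.le) hg.bdd hpM hC
  have hgp : ∀ c, |(g c).toReal - (poi N (b : ℝ) g).toReal| ≤ M := by
    intro c
    have h1 : (g c).toReal ≤ M := ENNReal.toReal_le_of_le_ofReal hM.le (hg.bdd _)
    have h2 : (poi N (b : ℝ) g).toReal ≤ M := ENNReal.toReal_le_of_le_ofReal hM.le hpM
    have h3 : 0 ≤ (g c).toReal := ENNReal.toReal_nonneg
    have h4 : 0 ≤ (poi N (b : ℝ) g).toReal := ENNReal.toReal_nonneg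
    rw [abs_le]
    constructor <;> linarith
  have int : ∀ Θ : Conf → ℝ, Measurable Θ → (∀ c, 0 ≤ Θ c) → (∀ c, Θ c ≤ M) →
      Integrable (fun c => if OkAt n θ ρ c l then
        Θ c * ((g (uc c l)).toReal - (poi N (b : ℝ) g).toReal) else 0) (Q n) := by
    intro Θ mΘ h0 hΘM
    refine Integrable.of_bound (Measurable.ite (measurableSet_okAt n θ ρ l)
      (mΘ.mul ((hg.meas.comp (measurable_uc l)).ennreal_toReal.sub_const _))
      measurable_const).aestronglyMeasurable (M * M) (Filter.Eventually.of_forall fun c => ?_)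
    split_ifs
    · rw [Real.norm_eq_abs, abs_mul, abs_of_nonneg (h0 c)]
      exact mul_le_mul (hΘM c) (hgp _) (abs_nonneg _) hM.le
    · rw [norm_zero]
      positivity
  have e0 : ∀ c, ctr n θ ρ N b g ψ k c * ctr n θ ρ N b g ψ l c =
      (if OkAt n θ ρ c l then
        max (Ψ c) 0 * ((g (uc c l)).toReal - (poi N (b : ℝ) g).toReal) else 0) -
      (if OkAt n θ ρ c l then
        max (-Ψ c) 0 * ((g (uc c l)).toReal - (poi N (b : ℝ) g).toReal) else 0) := by
    intro c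
    have h3 : max (Ψ c) 0 - max (-Ψ c) 0 = Ψ c := by
      rcases le_total 0 (Ψ c) with h | h
      · rw [max_eq_left h, max_eq_right (by linarith), sub_zero]
      · rw [max_eq_right h, max_eq_left (by linarith)]
        ring
    by_cases hA : Alive n θ ρ c l ∧ im c l = 0
    · have hOk : OkAt n θ ρ c l := hA.1 l le_rfl
      rw [if_pos hOk, if_pos hOk, ← sub_mul, h3]
      simp only [hΨ, hχ]
      rw [if_pos hA]
      have h4 : ctr n θ ρ N b g ψ l c =
          ψ (((st c l).1 : ℝ) / n) * ((g (uc c l)).toReal - (poi N b g).toReal) := by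
        unfold ctr
        rw [if_pos hA]
      rw [h4]
      ring
    · have h4 : ctr n θ ρ N b g ψ l c = 0 := by
        unfold ctr
        rw [if_neg hA]
      have h5 : Ψ c = 0 := by
        simp only [hΨ, hχ]
        rw [if_neg hA, mul_zero]
      rw [h4, h5]
      simp
  simp_rw [e0]
  rw [integral_sub (int _ mP (fun c => le_max_right _ _)
      (fun c => max_le ((le_abs_self _).trans (bΨ c)) hM.le))
    (int _ mN (fun c => le_max_right _ _)
      (fun c => max_le ((neg_le_abs _).trans (bΨ c)) hM.le))]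
  have h5 := (abs_le.1 h1).2
  have h6 := (abs_le.1 h2).1
  linarith

/-- number of indices close to `k` -/
theorem card_near (n b k : ℕ) :
    ((Finset.range n).filter fun l => ¬ k + b ≤ l ∧ ¬ l + b ≤ k).card ≤ 2 * b := by
  refine (Finset.card_le_card (t := Finset.Ico (k + 1 - b) (k + b)) ?_).trans ?_
  · intro l hl
    simp only [Finset.mem_filter, Finset.mem_range, Finset.mem_Ico] at hl ⊢
    omega
  · rw [Nat.card_Ico]
    omega

/-- bound of the second moment -/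
theorem second_moment {n : ℕ} {θ ρ : ℝ} (hn : 0 < n) (hθ : 0 < θ) (hρ : 0 < ρ) (hρθ : ρ ≤ θ / 4)
    {N b : ℕ} {M : ℝ} (hb : 0 < b) (hM : 0 < M) {g : Conf → ℝ≥0∞}
    (hg : WinFun N (b : ℝ) M g) {ψ : ℝ → ℝ} (hψ : ∀ t, |ψ t| ≤ 1) {e : ℝ} (he : 0 ≤ e)
    (hC : ∀ ℓ N₁ N₁', Ok n θ ρ ℓ N₁ N₁' →
      ∫⁻ c', g c' ∂(lawUp n ℓ N₁ N₁') ≤ poi N b g + ENNReal.ofReal e ∧
      poi N b g ≤ ∫⁻ c', g c' ∂(lawUp n ℓ N₁ N₁') + ENNReal.ofReal e) :
    Integrable (fun c => (∑ k ∈ Finset.range n, ctr n θ ρ N b g ψ k c) ^ 2) (Q n) ∧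
    ∫ c, (∑ k ∈ Finset.range n, ctr n θ ρ N b g ψ k c) ^ 2 ∂(Q n) ≤
      n * n * (2 * (e * M)) + n * (2 * b) * M ^ 2 := by
  classical
  have := Q_prob hn
  have hprod : ∀ k l, Integrable (fun c => ctr n θ ρ N b g ψ k c * ctr n θ ρ N b g ψ l c)
      (Q n) := by
    intro k l
    refine Integrable.of_bound ((measurable_ctr hg ψ n θ ρ k).mul
      (measurable_ctr hg ψ n θ ρ l)).aestronglyMeasurable (M * M)
      (Filter.Eventually.of_forall fun c => ?_)
    rw [Real.norm_eq_abs, abs_mul]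
    exact mul_le_mul (ctr_bound hb hM hg hψ n θ ρ k c) (ctr_bound hb hM hg hψ n θ ρ l c)
      (abs_nonneg _) hM.le
  have hsq : ∀ c, (∑ k ∈ Finset.range n, ctr n θ ρ N b g ψ k c) ^ 2 =
      ∑ k ∈ Finset.range n, ∑ l ∈ Finset.range n,
        ctr n θ ρ N b g ψ k c * ctr n θ ρ N b g ψ l c := by
    intro c
    rw [pow_two, Finset.sum_mul_sum]
  have hle : ∀ k l, ∫ c, ctr n θ ρ N b g ψ k c * ctr n θ ρ N b g ψ l c ∂(Q n) ≤
      2 * (e * M) + if ¬ k + b ≤ l ∧ ¬ l + b ≤ k then M ^ 2 else 0 := by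
    intro k l
    by_cases h1 : k + b ≤ l
    · rw [if_neg (by tauto), add_zero]
      exact cross_le hn hθ hρ hρθ hb hM hg hψ he hC h1
    · by_cases h2 : l + b ≤ k
      · rw [if_neg (by tauto), add_zero]
        have := cross_le hn hθ hρ hρθ hb hM hg hψ he hC h2
        simp_rw [mul_comm (ctr n θ ρ N b g ψ l _)] at this
        exact this
      · rw [if_pos ⟨h1, h2⟩]
        have h3 : ∫ c, ctr n θ ρ N b g ψ k c * ctr n θ ρ N b g ψ l c ∂(Q n) ≤
            ∫ _, M ^ 2 ∂(Q n) := by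
          refine integral_mono (hprod k l) (integrable_const _) fun c => ?_
          have h4 := ctr_bound hb hM hg hψ n θ ρ k c
          have h5 := ctr_bound hb hM hg hψ n θ ρ l c
          calc ctr n θ ρ N b g ψ k c * ctr n θ ρ N b g ψ l c
              ≤ |ctr n θ ρ N b g ψ k c * ctr n θ ρ N b g ψ l c| := le_abs_self _
            _ = |ctr n θ ρ N b g ψ k c| * |ctr n θ ρ N b g ψ l c| := abs_mul _ _
            _ ≤ M * M := mul_le_mul h4 h5 (abs_nonneg _) hM.le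
            _ = M ^ 2 := (pow_two M).symm
        rw [integral_const] at h3
        have h6 : (Q n).real Set.univ = 1 := by
          rw [measureReal_def, measure_univ]
          rfl
        rw [h6, one_smul] at h3
        have : 0 ≤ 2 * (e * M) := by positivity
        linarith
  constructor
  · simp_rw [hsq]
    exact integrable_finsetSum _ fun k _ => integrable_finsetSum _ fun l _ => hprod k l
  · simp_rw [hsq]
    rw [integral_finsetSum _ fun k _ => integrable_finsetSum _ fun l _ => hprod k l]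
    have h1 : ∀ k ∈ Finset.range n, ∫ c, ∑ l ∈ Finset.range n,
        ctr n θ ρ N b g ψ k c * ctr n θ ρ N b g ψ l c ∂(Q n) ≤
        n * (2 * (e * M)) + (2 * b) * M ^ 2 := by
      intro k _
      rw [integral_finsetSum _ fun l _ => hprod k l]
      refine (Finset.sum_le_sum fun l _ => hle k l).trans ?_
      rw [Finset.sum_add_distrib, Finset.sum_const, Finset.card_range, nsmul_eq_mul,
        ← Finset.sum_filter, Finset.sum_const, nsmul_eq_mul]
      have h2 : (((Finset.range n).filter fun l => ¬ k + b ≤ l ∧ ¬ l + b ≤ k).card : ℝ) ≤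
          2 * b := by exact_mod_cast card_near n b k
      have h3 : 0 ≤ M ^ 2 := by positivity
      nlinarith [mul_le_mul_of_nonneg_right h2 h3]
    refine (Finset.sum_le_sum h1).trans ?_
    rw [Finset.sum_const, Finset.card_range, nsmul_eq_mul]
    nlinarith

theorem lln {N b : ℕ} {M : ℝ} (hb : 0 < b) (hM : 0 < M) {g : Conf → ℝ≥0∞}
    (hg : WinFun N (b : ℝ) M g) {ψ : ℝ → ℝ} (hψ : ∀ t, |ψ t| ≤ 1) {θ ε : ℝ} (hθ : 0 < θ)
    (hθ1 : θ < 1) (hε : 0 < ε) :
    Ev (fun ρ n => Q n {c | ε * n < |∑ k ∈ Finset.range n, ctr n θ ρ N b g ψ k c|} ≤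
      ENNReal.ofReal ε) := by
  have hbR : (0 : ℝ) < b := by exact_mod_cast hb
  set e : ℝ := ε ^ 3 / (4 * M) with he_def
  have he : 0 < e := by positivity
  obtain ⟨κ₀, s₁, hκ, hs, hwin⟩ := window_lim N hbR hM he
  have E1 := Ev.rho_le (x := min (θ / 4) (κ₀ * θ / 2)) (by positivity)
  have E2 := Ev.n_ge (fun _ => 1 + 1 / (θ * s₁) + b / θ + 4 * b * M ^ 2 / ε ^ 3)
  refine (E1.and E2).mono fun ρ n h => ?_
  obtain ⟨⟨hρ, hρle⟩, hn1⟩ := h
  have hρθ : ρ ≤ θ / 4 := hρle.trans (min_le_left _ _)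
  have hρκ : ρ ≤ κ₀ * θ / 2 := hρle.trans (min_le_right _ _)
  have q1 : 0 ≤ 1 / (θ * s₁) := by positivity
  have q2 : 0 ≤ b / θ := by positivity
  have q3 : 0 ≤ 4 * b * M ^ 2 / ε ^ 3 := by positivity
  have hn' : (0 : ℝ) < n := by linarith
  have hn : 0 < n := by exact_mod_cast hn'
  have := Q_prob hn
  have c1 : 2 * ρ / θ ≤ κ₀ := by
    rw [div_le_iff₀ hθ]
    linarith
  have c2 : 1 / (θ * n) ≤ s₁ := by
    have : 1 / (θ * s₁) ≤ n := by linarith
    rw [div_le_iff₀ (by positivity)] at this ⊢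
    linarith [this]
  have c3 : (b : ℝ) ≤ θ * n := by
    have : (b : ℝ) / θ ≤ n := by linarith
    rw [div_le_iff₀ hθ] at this
    linarith
  have hC : ∀ ℓ N₁ N₁', Ok n θ ρ ℓ N₁ N₁' →
      ∫⁻ c', g c' ∂(lawUp n ℓ N₁ N₁') ≤ poi N b g + ENNReal.ofReal e ∧
      poi N b g ≤ ∫⁻ c', g c' ∂(lawUp n ℓ N₁ N₁') + ENNReal.ofReal e := by
    intro ℓ N₁ N₁' h
    exact hwin g hg _ _ _ _ _ _ _ c1 c2 c3 (near_lawUp hn hθ hρ hρθ h)
  obtain ⟨hint, hmom⟩ := second_moment hn hθ hρ hρθ hb hM hg hψ he.le hC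
  have hmarkov := mul_meas_ge_le_integral_of_nonneg
    (Filter.Eventually.of_forall fun c => sq_nonneg
      (∑ k ∈ Finset.range n, ctr n θ ρ N b g ψ k c)) hint ((ε * n) ^ 2)
  have hsub : {c | ε * n < |∑ k ∈ Finset.range n, ctr n θ ρ N b g ψ k c|} ⊆
      {c | (ε * n) ^ 2 ≤ (∑ k ∈ Finset.range n, ctr n θ ρ N b g ψ k c) ^ 2} := by
    intro c hc
    have hc' : ε * n < |∑ k ∈ Finset.range n, ctr n θ ρ N b g ψ k c| := hc
    show (ε * n) ^ 2 ≤ (∑ k ∈ Finset.range n, ctr n θ ρ N b g ψ k c) ^ 2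
    rw [← sq_abs (∑ k ∈ Finset.range n, ctr n θ ρ N b g ψ k c)]
    exact pow_le_pow_left₀ (by positivity) hc'.le 2
  refine (measure_mono hsub).trans ?_
  rw [← ofReal_measureReal]
  refine ENNReal.ofReal_le_ofReal ?_
  have hpos : 0 < (ε * n) ^ 2 := by positivity
  have hfin : n * n * (2 * (e * M)) + n * (2 * b) * M ^ 2 ≤ (ε * n) ^ 2 * ε := by
    have h1 : n * n * (2 * (e * M)) = (ε * n) ^ 2 * ε / 2 := by
      rw [he_def]
      field_simp
      ring
    have h2 : 4 * b * M ^ 2 / ε ^ 3 ≤ n := by linarith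
    rw [div_le_iff₀ (by positivity)] at h2
    have h3 : n * (2 * b) * M ^ 2 ≤ (ε * n) ^ 2 * ε / 2 := by
      have : (n : ℝ) * (4 * b * M ^ 2) ≤ n * (n * ε ^ 3) := mul_le_mul_of_nonneg_left h2 hn'.le
      nlinarith
    linarith
  have h7 := hmarkov.trans (hmom.trans hfin)
  exact le_of_mul_le_mul_left h7 hpos

end Pool.Agent.H27.OTC
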