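import Pool.Agent.H27.OTC.AsmDet
import Pool.Agent.H27.OTC.AsmProb
import Pool.Agent.H27.OTC.LLN

/-!
Job OTC-F-MAIN: convergence of the empirical averages for product test functions.
-/

set_option autoImplicit false

open MeasureTheory ProbabilityTheory Filter
open scoped ENNReal Topology

namespace Pool.Agent.H27.OTC

open Pool.Agent.H96.OT (Pl)

/-- the empirical average of `φ (abscissas) ψ (height)` over the matching `σ` -/
noncomputable def avg (n : ℕ) (φ : ℝ × ℝ → ℝ) (ψ : ℝ → ℝ) (x y : Fin n → Pl)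
    (σ : Equiv.Perm (Fin n)) : ℝ :=
  (∑ i, φ ((x i).1, (y (σ i)).1) * ψ ((x i).2 / n)) / n

/-! #### auxiliary lemmas for the main estimate -/

theorem optVal_le_one {φ : ℝ × ℝ → ℝ} (hφ1 : ∀ z, φ z ≤ 1) (c : Conf) :
    optVal φ c ≤ optVal (fun _ => 1) c := by
  have h0 : 0 ≤ optVal (fun _ => (1 : ℝ)) c := optVal_nonneg (fun _ => zero_le_one) c
  unfold optVal at h0 ⊢
  refine Real.sSup_le ?_ h0
  rintro t ⟨m, x, y, hx, hy, hs, rfl⟩
  have hc : c = ⟨cfg x, cfg y⟩ := by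
    rw [hx, hy]
  have h1 := optVal_eq (fun _ => (1 : ℝ)) hs
  rw [← hc] at h1
  unfold optVal at h1
  rw [h1]
  exact Finset.sum_le_sum fun i _ => hφ1 _

theorem gS_le_one (K : ℕ) (τ₁ : ℝ) (L A N : ℕ) {φ : ℝ × ℝ → ℝ} (hφ1 : ∀ z, φ z ≤ 1) (c : Conf) :
    gS K τ₁ L A N φ c ≤ gS K τ₁ L A N (fun _ => 1) c := by
  unfold gS
  split_ifs with h
  · refine Finset.sum_le_sum fun l _ => ?_
    split_ifs
    · exact ENNReal.ofReal_le_ofReal (optVal_le_one hφ1 _)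
    · exact le_rfl
  · exact le_rfl

theorem poi_mono (N : ℕ) (B : ℝ) {g g' : Conf → ℝ≥0∞} (h : ∀ c, g c ≤ g' c) :
    poi N B g ≤ poi N B g' := by
  unfold poi
  refine Finset.sum_le_sum fun j _ => Finset.sum_le_sum fun j' _ => ?_
  exact mul_le_mul_right (lintegral_mono h) _

theorem mk2_perm {n : ℕ} (x y : Fin n → Pl) (σ : Equiv.Perm (Fin n)) :
    mk2 n n (x, fun i => y (σ i)) = mk2 n n (x, y) := by
  unfold mk2
  simp only
  rw [cfg_comp_perm]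

theorem inDom_of_inStrip {n : ℕ} {x y : Fin n → Pl} (h : InStrip n (mk2 n n (x, y))) :
    InDom n x y := by
  have hx : ∀ i, x i ∈ (mk2 n n (x, y)).X := fun i => by
    simp [mk2, cfg]
  have hy : ∀ i, y i ∈ (mk2 n n (x, y)).Y := fun i => by
    simp [mk2, cfg]
  exact ⟨fun i => ⟨(h.X _ (hx i)).1, (h.X _ (hx i)).2.1⟩,
    fun i => ⟨(h.Y _ (hy i)).1, (h.Y _ (hy i)).2.1⟩,
    fun i => (h.X _ (hx i)).2.2, fun i => (h.Y _ (hy i)).2.2⟩

theorem inDom_perm {n : ℕ} {x y : Fin n → Pl} (h : InDom n x y) (σ : Equiv.Perm (Fin n)) :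
    InDom n x (fun i => y (σ i)) :=
  ⟨h.x1, fun i => h.y1 (σ i), h.x2, fun i => h.y2 (σ i)⟩

theorem psi_sum_mk2 {n : ℕ} (x y : Fin n → Pl) (ψ : ℝ → ℝ) :
    ((mk2 n n (x, y)).X.map (fun p => ψ (p.2 / n))).sum = ∑ i, ψ ((x i).2 / n) := by
  unfold mk2 cfg
  simp only [Multiset.map_map, Function.comp_def]
  rfl

open Classical in
theorem locSum_eq (K L A N₁ : ℕ) (τ₁ θ ρ : ℝ) (φ : ℝ × ℝ → ℝ) (ψ : ℝ → ℝ) (n : ℕ) (c : Conf) :
    locSum K L A N₁ τ₁ θ ρ φ ψ n c =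
      ∑ k ∈ Finset.range n, ctr n θ ρ N₁ (bw K (2 * L) A : ℕ)
        (gS K τ₁ (2 * L) A N₁ φ) ψ k c +
      (poi N₁ (bw K (2 * L) A : ℕ) (gS K τ₁ (2 * L) A N₁ φ)).toReal *
        ∑ k ∈ Finset.range n, (if Alive n θ ρ c k ∧ im c k = 0 then
          ψ (((st c k).1 : ℝ) / n) else 0) := by
  unfold locSum
  rw [Finset.mul_sum, ← Finset.sum_add_distrib]
  refine Finset.sum_congr rfl fun k _ => ?_
  unfold ctr
  by_cases h : Alive n θ ρ c k ∧ im c k = 0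
  · rw [if_pos h, if_pos h, if_pos h]
    ring
  · rw [if_neg h, if_neg h, if_neg h]
    ring

theorem real_est {n Sφ S1 Gφ G1 Cφ C1 Ψ I pφ p1 s a e ε : ℝ} (hn : 0 < n)
    (h1 : |Sφ - Gφ| ≤ a) (h2 : |S1 - G1| ≤ a) (h3 : Gφ = Cφ + pφ * Ψ) (h4 : G1 = C1 + p1 * Ψ)
    (h5 : |Cφ| ≤ e) (h6 : |C1| ≤ e) (h7 : |S1 - n * I| ≤ e) (h8 : pφ = s * p1) (hs0 : 0 ≤ s)
    (hs1 : s ≤ 1) (h9 : 2 * a + 3 * e ≤ ε * n) : |Sφ / n - s * I| ≤ ε := by
  have ha : 0 ≤ a := (abs_nonneg _).trans h1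
  have he : 0 ≤ e := (abs_nonneg _).trans h5
  have key : |Sφ - s * (n * I)| ≤ 2 * a + 3 * e := by
    have e1 : Sφ - s * (n * I) = (Sφ - Gφ) + Cφ + s * ((S1 - n * I) - (S1 - G1) - C1) := by
      rw [h3, h4, h8]
      ring
    have h10 : |(S1 - n * I) - (S1 - G1) - C1| ≤ e + a + e := by
      refine (abs_sub _ _).trans (add_le_add ((abs_sub _ _).trans (add_le_add h7 h2)) h6)
    have h11 : |s * ((S1 - n * I) - (S1 - G1) - C1)| ≤ e + a + e := by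
      rw [abs_mul, abs_of_nonneg hs0]
      refine (mul_le_mul hs1 h10 (abs_nonneg _) zero_le_one).trans ?_
      rw [one_mul]
    rw [e1]
    refine (abs_add_le _ _).trans ?_
    refine (add_le_add ((abs_add_le _ _).trans (add_le_add h1 h5)) h11).trans ?_
    linarith
  have e2 : Sφ / n - s * I = (Sφ - s * (n * I)) / n := by
    field_simp
  rw [e2, abs_div, abs_of_pos hn, div_le_iff₀ hn]
  linarith

/-- Main estimate: for every precision there is a number `s`, the same for all admissible costs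
and all `ψ`, such that the averages over all optimal matchings are close to `s ∫ ψ`. -/
theorem main_lim {φ : ℝ × ℝ → ℝ} (hφ : Measurable φ) (hφ0 : ∀ z, 0 ≤ φ z) (hφ1 : ∀ z, φ z ≤ 1)
    {ε : ℝ} (hε : 0 < ε) : ∃ s : ℝ, 0 ≤ s ∧ s ≤ 1 ∧ ∀ cost, GoodCost cost →
    ∀ ψ : ℝ → ℝ, UniformContinuous ψ → (∀ t, 0 ≤ ψ t) → (∀ t, ψ t ≤ 1) →
    ∃ n₀ : ℕ, ∀ n : ℕ, n₀ ≤ n →
      smpLaw n {p | ∃ σ : Equiv.Perm (Fin n), IsOptM (cost n) p.1 (fun i => p.2 (σ i)) ∧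
        ε < |avg n φ ψ p.1 p.2 σ - s * ∫ t in (0 : ℝ)..1, ψ t|} ≤ ENNReal.ofReal ε := by
  classical
  obtain ⟨β, τ, εc, δc, hC⟩ : ∃ β τ εc δc : ℝ, Consts β τ εc δc := ⟨_, _, _, _, consts_exist⟩
  set θ : ℝ := min (1 / 20) (ε / 128) with hθdef
  have hθ : 0 < θ := lt_min (by norm_num) (by positivity)
  have hθ20 : θ ≤ 1 / 20 := min_le_left _ _
  have hθε : θ ≤ ε / 128 := min_le_right _ _
  have hθ1 : θ < 1 := by linarith
  obtain ⟨K, N, L, A, N₁, τ₁, r₀, ε₅, hp, hL, hN₁, hε₅, hbad⟩ := bad_small hC hθ hθ20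
  have hb : 0 < bw K (2 * L) A := by
    have := hp.K2
    unfold bw
    omega
  have hbR : (0 : ℝ) < ((bw K (2 * L) A : ℕ) : ℝ) := by exact_mod_cast hb
  have hM : (0 : ℝ) < (N₁ : ℝ) := by exact_mod_cast hN₁
  have hone0 : ∀ z : ℝ × ℝ, (0 : ℝ) ≤ (fun _ : ℝ × ℝ => (1 : ℝ)) z := fun _ => zero_le_one
  have hone1 : ∀ z : ℝ × ℝ, (fun _ : ℝ × ℝ => (1 : ℝ)) z ≤ 1 := fun _ => le_rfl
  have hgφ := winFun_gS K τ₁ (2 * L) A hN₁ hφ hφ0 hφ1
  have hg1 := winFun_gS K τ₁ (2 * L) A hN₁ (φ := fun _ => 1) measurable_const hone0 hone1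
  set gφ := gS K τ₁ (2 * L) A N₁ φ with hgφdef
  set g1 := gS K τ₁ (2 * L) A N₁ (fun _ => 1) with hg1def
  set pφ : ℝ := (poi N₁ (bw K (2 * L) A : ℕ) gφ).toReal with hpφ
  set p1 : ℝ := (poi N₁ (bw K (2 * L) A : ℕ) g1).toReal with hp1
  have hfin1 : poi N₁ (bw K (2 * L) A : ℕ) g1 ≠ ⊤ :=
    ne_top_of_le_ne_top ENNReal.ofReal_ne_top (poi_le hbR hM.le hg1)
  have hpp : pφ ≤ p1 :=
    ENNReal.toReal_mono hfin1 (poi_mono _ _ fun c => gS_le_one K τ₁ (2 * L) A N₁ hφ1 c)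
  have hpφ0 : 0 ≤ pφ := ENNReal.toReal_nonneg
  have hp10 : 0 ≤ p1 := ENNReal.toReal_nonneg
  have hs8 : pφ = pφ / p1 * p1 := by
    rcases hp10.eq_or_lt with h | h
    · rw [← h, mul_zero]
      linarith
    · field_simp
  refine ⟨pφ / p1, div_nonneg hpφ0 hp10, div_le_one_of_le₀ hpp hp10, ?_⟩
  intro cost hcost ψ hψ hψ0 hψ1
  have hψabs : ∀ t, |ψ t| ≤ 1 := fun t => abs_le.2 ⟨by linarith [hψ0 t], hψ1 t⟩
  obtain ⟨δ, hδ, hδψ⟩ := Metric.uniformContinuous_iff.1 hψ (ε / 16) (by positivity)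
  have hψc : ∀ s t, |s - t| ≤ 2 * (δ / 4) → |ψ s - ψ t| ≤ ε / 16 := by
    intro s t hst
    exact (hδψ (show dist s t < δ by rw [Real.dist_eq]; linarith)).le
  set η : ℝ := min (glH εc θ) (1 / 8) with hηdef
  have hεc0 : 0 < εc := hC.εpos
  have hεc1 : εc ≤ 1 / 1000 := hC.ε1
  have hE : 0 < glE εc θ := by unfold glE; positivity
  have hT : 0 < glT εc θ := by unfold glT; positivity
  have hT1 : glT εc θ ≤ 1 := by
    unfold glT glE
    have : εc * θ ≤ 1 * 1 := mul_le_mul (by linarith) hθ1.le hθ.le zero_le_one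
    linarith
  have hH : 0 < glH εc θ := by unfold glH; positivity
  have hη : 0 < η := lt_min hH (by norm_num)
  have hη1 : η ≤ glH εc θ := min_le_left _ _
  have hη8 : 8 * η ≤ 1 := by
    have := min_le_right (glH εc θ) (1 / 8)
    linarith
  set N' : ℕ := ⌈3 / η⌉₊ with hN'def
  have hN' : 3 ≤ η * N' := by
    have h1 : 3 / η ≤ N' := Nat.le_ceil _
    rw [div_le_iff₀ hη] at h1
    linarith
  have hN'pos : 0 < N' := by
    have h1 : (0 : ℝ) < N' := by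
      by_contra hcon
      have h2 : (N' : ℝ) ≤ 0 := by linarith
      nlinarith
    exact_mod_cast h1
  have cmpφ := Pool.Agent.H27.OTC.compare hcost hp hθ hθ1 hL hε₅ hφ0 hφ1 hψ0 hψ1 (ω := ε / 16) (ρ₁ := δ / 4)
    (A := A) (N₁ := N₁) (by positivity) (by positivity) hψc hη hη1 hN'
  have cmp1 := Pool.Agent.H27.OTC.compare hcost hp hθ hθ1 hL hε₅ hone0 hone1 hψ0 hψ1 (ω := ε / 16)
    (ρ₁ := δ / 4) (A := A) (N₁ := N₁) (by positivity) (by positivity) hψc hη hη1 hN'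
  have llnφ := lln hb hM hgφ hψabs hθ hθ1 (ε := ε / 16) (by positivity)
  have lln1 := lln hb hM hg1 hψabs hθ hθ1 (ε := ε / 16) (by positivity)
  obtain ⟨n₁, hn₁⟩ := psi_lln hψ.continuous hψabs (ε := ε / 16) (by positivity)
  obtain ⟨n₂, hn₂⟩ := glob_prob hN'pos hT hT1 hη hη8 (ε := ε / 16) (by positivity)
  obtain ⟨ρ, hρ, H⟩ := (hbad.and cmpφ).and (cmp1.and (llnφ.and lln1))
  obtain ⟨n₀, H⟩ := H ρ hρ le_rfl
  refine ⟨max (max n₀ 1) (max n₁ n₂), fun n hn => ?_⟩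
  obtain ⟨⟨hb1, hc1⟩, hc2, hl1, hl2⟩ := H n (((le_max_left _ _).trans (le_max_left _ _)).trans hn)
  have hn1 : 1 ≤ n := ((le_max_right _ _).trans (le_max_left _ _)).trans hn
  have hnpos : (0 : ℝ) < n := by exact_mod_cast hn1
  have hpsi := hn₁ n (((le_max_left _ _).trans (le_max_right _ _)).trans hn)
  have hglob := hn₂ n (((le_max_right _ _).trans (le_max_right _ _)).trans hn)
  set B₁ : Set Conf := {c | ¬ InStrip n c} with hB₁
  set B₂ : Set Conf := {c | ¬ Glob N' (glT εc θ) η n c} with hB₂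
  set B₃ : Set Conf := {c | 8 * θ * n < badCount K N L A N₁ τ τ₁ δc r₀
    ε₅ θ ρ n c} with hB₃
  set B₄ : Set Conf := {c | ε / 16 * n < |∑ k ∈ Finset.range n,
    ctr n θ ρ N₁ (bw K (2 * L) A : ℕ) gφ ψ k c|} with hB₄
  set B₅ : Set Conf := {c | ε / 16 * n < |∑ k ∈ Finset.range n,
    ctr n θ ρ N₁ (bw K (2 * L) A : ℕ) g1 ψ k c|} with hB₅
  set B₆ : Set Conf := {c | ε / 16 * n < |(c.X.map (fun p => ψ (p.2 / n))).sum -
    n * ∫ t in (0 : ℝ)..1, ψ t|} with hB₆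
  have hB₁0 : Q n B₁ = 0 := ae_inStrip n
  have hQ : Q n (B₁ ∪ (B₂ ∪ (B₃ ∪ (B₄ ∪ (B₅ ∪ B₆))))) ≤ ENNReal.ofReal ε := by
    have h6 : Q n (B₁ ∪ (B₂ ∪ (B₃ ∪ (B₄ ∪ (B₅ ∪ B₆))))) ≤
        0 + (ENNReal.ofReal (ε / 16) + (ENNReal.ofReal θ + (ENNReal.ofReal (ε / 16) +
          (ENNReal.ofReal (ε / 16) + ENNReal.ofReal (ε / 16))))) :=
      (measure_union_le _ _).trans (add_le_add hB₁0.le
        ((measure_union_le _ _).trans (add_le_add hglob
          ((measure_union_le _ _).trans (add_le_add hb1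
            ((measure_union_le _ _).trans (add_le_add hl1
              ((measure_union_le _ _).trans (add_le_add hl2 hpsi)))))))))
    refine h6.trans ?_
    rw [zero_add, ← ENNReal.ofReal_add (by positivity) (by positivity),
      ← ENNReal.ofReal_add (by positivity) (by positivity),
      ← ENNReal.ofReal_add (by positivity) (by positivity),
      ← ENNReal.ofReal_add (by positivity) (by positivity)]
    exact ENNReal.ofReal_le_ofReal (by linarith)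
  refine le_trans (measure_mono ?_) (le_trans
    (Measure.le_map_apply (measurable_mk2 n n).aemeasurable
      (B₁ ∪ (B₂ ∪ (B₃ ∪ (B₄ ∪ (B₅ ∪ B₆)))))) hQ)
  rintro ⟨x, y⟩ ⟨σ, hopt, hlt⟩
  by_contra hnot
  simp only [Set.mem_preimage, Set.mem_union, not_or, hB₁, hB₂, hB₃, hB₄, hB₅, hB₆,
    Set.mem_ofPred_eq, not_not, not_lt] at hnot
  obtain ⟨k1, k2, k3, k4, k5, k6⟩ := hnot
  have hdom := inDom_perm (inDom_of_inStrip k1) σ
  have e1 := hc1 x (fun i => y (σ i)) hdom hopt (by rw [mk2_perm]; exact k2)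
  have e2 := hc2 x (fun i => y (σ i)) hdom hopt (by rw [mk2_perm]; exact k2)
  rw [mk2_perm] at e1 e2
  rw [psi_sum_mk2] at k6
  have e3 := locSum_eq K L A N₁ τ₁ θ ρ φ ψ n (mk2 n n (x, y))
  have e4 := locSum_eq K L A N₁ τ₁ θ ρ (fun _ => 1) ψ n (mk2 n n (x, y))
  simp only [one_mul] at e2
  have hfinal := real_est (ε := ε) (e := ε / 16 * n) hnpos e1 e2 e3 e4 k4 k5 k6 hs8
    (div_nonneg hpφ0 hp10) (div_le_one_of_le₀ hpp hp10) (by nlinarith)
  exact absurd hfinal (not_le.2 hlt)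

theorem smpLaw_isProb {n : ℕ} (hn : 0 < n) : IsProbabilityMeasure (smpLaw n) := by
  have := smp_prob 0 hn
  have := smp_prob 2 hn
  unfold smpLaw
  infer_instance

theorem exists_optM' (c : Pl → Pl → ℝ) {n : ℕ} (x y : Fin n → Pl) :
    ∃ σ : Equiv.Perm (Fin n), IsOptM c x (fun i => y (σ i)) := by
  classical
  obtain ⟨σ, -, hσ⟩ := (Finset.univ : Finset (Equiv.Perm (Fin n))).exists_min_image
    (fun σ => ∑ i, c (x i) (y (σ i))) ⟨1, Finset.mem_univ _⟩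
  exact ⟨σ, fun τ => hσ (τ.trans σ) (Finset.mem_univ _)⟩

/-- The limit: for every `φ` there is a number `s`, the same for all admissible costs and all
`ψ`, such that the averages over all optimal matchings converge to `s ∫ ψ` in probability. -/
theorem main_lim' {φ : ℝ × ℝ → ℝ} (hφ : Measurable φ) (hφ0 : ∀ z, 0 ≤ φ z)
    (hφ1 : ∀ z, φ z ≤ 1) : ∃ s : ℝ, 0 ≤ s ∧ s ≤ 1 ∧ ∀ cost, GoodCost cost →
    ∀ ψ : ℝ → ℝ, UniformContinuous ψ → (∀ t, 0 ≤ ψ t) → (∀ t, ψ t ≤ 1) → ∀ ε : ℝ, 0 < ε →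
    Tendsto (fun n => smpLaw n {p | ∃ σ : Equiv.Perm (Fin n),
      IsOptM (cost n) p.1 (fun i => p.2 (σ i)) ∧
        ε < |avg n φ ψ p.1 p.2 σ - s * ∫ t in (0 : ℝ)..1, ψ t|}) atTop (𝓝 0) := by
  classical
  have hj : ∀ j : ℕ, ∃ s : ℝ, 0 ≤ s ∧ s ≤ 1 ∧ ∀ cost, GoodCost cost →
      ∀ ψ : ℝ → ℝ, UniformContinuous ψ → (∀ t, 0 ≤ ψ t) → (∀ t, ψ t ≤ 1) →
      ∃ n₀ : ℕ, ∀ n : ℕ, n₀ ≤ n →
        smpLaw n {p | ∃ σ : Equiv.Perm (Fin n), IsOptM (cost n) p.1 (fun i => p.2 (σ i)) ∧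
          1 / ((j : ℝ) + 4) < |avg n φ ψ p.1 p.2 σ - s * ∫ t in (0 : ℝ)..1, ψ t|} ≤
            ENNReal.ofReal (1 / ((j : ℝ) + 4)) :=
    fun j => main_lim hφ hφ0 hφ1 (by positivity)
  choose s hs0 hs1 hs using hj
  have hq : ∀ j : ℕ, 1 / ((j : ℝ) + 4) ≤ 1 / 4 := fun j => by
    apply one_div_le_one_div_of_le (by norm_num)
    have : (0 : ℝ) ≤ j := Nat.cast_nonneg j
    linarith
  have hc : ∀ j k : ℕ, |s j - s k| ≤ 1 / ((j : ℝ) + 4) + 1 / ((k : ℝ) + 4) := by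
    intro j k
    obtain ⟨n₁, h1⟩ := hs j (fun _ => par) goodCost_par (fun _ => 1) uniformContinuous_const
      (fun _ => zero_le_one) (fun _ => le_rfl)
    obtain ⟨n₂, h2⟩ := hs k (fun _ => par) goodCost_par (fun _ => 1) uniformContinuous_const
      (fun _ => zero_le_one) (fun _ => le_rfl)
    set n := max (max n₁ n₂) 1 with hn
    have hn1 := h1 n (le_trans (le_max_left _ _) (le_max_left _ _))
    have hn2 := h2 n (le_trans (le_max_right _ _) (le_max_left _ _))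
    have hpos : 0 < n := lt_of_lt_of_le one_pos (le_max_right _ _)
    have := smpLaw_isProb hpos
    set A := {p : (Fin n → Pl) × (Fin n → Pl) | ∃ σ : Equiv.Perm (Fin n),
      IsOptM par p.1 (fun i => p.2 (σ i)) ∧ 1 / ((j : ℝ) + 4) <
        |avg n φ (fun _ => 1) p.1 p.2 σ - s j * ∫ t in (0 : ℝ)..1, (1 : ℝ)|} with hA
    set B := {p : (Fin n → Pl) × (Fin n → Pl) | ∃ σ : Equiv.Perm (Fin n),
      IsOptM par p.1 (fun i => p.2 (σ i)) ∧ 1 / ((k : ℝ) + 4) <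
        |avg n φ (fun _ => 1) p.1 p.2 σ - s k * ∫ t in (0 : ℝ)..1, (1 : ℝ)|} with hB
    have hne : ∃ p, p ∉ A ∪ B := by
      by_contra hcon
      push Not at hcon
      have huniv : A ∪ B = Set.univ := Set.eq_univ_of_forall hcon
      have h3 : smpLaw n (A ∪ B) ≤ ENNReal.ofReal (1 / 4) + ENNReal.ofReal (1 / 4) :=
        (measure_union_le A B).trans (add_le_add
          (hn1.trans (ENNReal.ofReal_le_ofReal (hq j)))
          (hn2.trans (ENNReal.ofReal_le_ofReal (hq k))))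
      rw [huniv, measure_univ, ← ENNReal.ofReal_add (by norm_num) (by norm_num)] at h3
      have h4 : ENNReal.ofReal (1 / 4 + 1 / 4) < 1 := by
        rw [← ENNReal.ofReal_one]
        exact (ENNReal.ofReal_lt_ofReal_iff one_pos).mpr (by norm_num)
      exact absurd h3 (not_le.mpr h4)
    obtain ⟨p, hp⟩ := hne
    obtain ⟨σ, hσ⟩ := exists_optM' par p.1 p.2
    have h5 : |avg n φ (fun _ => 1) p.1 p.2 σ - s j * ∫ t in (0 : ℝ)..1, (1 : ℝ)|
        ≤ 1 / ((j : ℝ) + 4) := by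
      by_contra hcon
      exact hp (Or.inl ⟨σ, hσ, not_le.mp hcon⟩)
    have h6 : |avg n φ (fun _ => 1) p.1 p.2 σ - s k * ∫ t in (0 : ℝ)..1, (1 : ℝ)|
        ≤ 1 / ((k : ℝ) + 4) := by
      by_contra hcon
      exact hp (Or.inr ⟨σ, hσ, not_le.mp hcon⟩)
    have e : ∫ t in (0 : ℝ)..1, (1 : ℝ) = 1 := by simp
    rw [e, mul_one] at h5 h6
    rw [abs_le] at h5 h6 ⊢
    constructor <;> linarith [h5.1, h5.2, h6.1, h6.2]
  -- convergence of `s j`
  have hlim0 : Tendsto (fun j : ℕ => 1 / ((j : ℝ) + 4)) atTop (𝓝 0) := by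
    have h1 : Tendsto (fun j : ℕ => (j : ℝ) + 4) atTop atTop :=
      tendsto_atTop_add_const_right _ _ tendsto_natCast_atTop_atTop
    have h2 := h1.inv_tendsto_atTop
    refine h2.congr (fun j => ?_)
    simp
  have hcauchy : CauchySeq s := by
    apply cauchySeq_of_le_tendsto_0 (fun N : ℕ => 2 * (1 / ((N : ℝ) + 4)))
    · intro j k N hj hk
      rw [Real.dist_eq]
      have h1 : 1 / ((j : ℝ) + 4) ≤ 1 / ((N : ℝ) + 4) := by
        apply one_div_le_one_div_of_le (by positivity)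
        have : (N : ℝ) ≤ j := by exact_mod_cast hj
        linarith
      have h2 : 1 / ((k : ℝ) + 4) ≤ 1 / ((N : ℝ) + 4) := by
        apply one_div_le_one_div_of_le (by positivity)
        have : (N : ℝ) ≤ k := by exact_mod_cast hk
        linarith
      linarith [hc j k]
    · simpa using hlim0.const_mul 2
  obtain ⟨t, ht⟩ := cauchySeq_tendsto_of_complete hcauchy
  have htj : ∀ j : ℕ, |s j - t| ≤ 1 / ((j : ℝ) + 4) := by
    intro j
    have h1 : Tendsto (fun k => |s j - s k|) atTop (𝓝 |s j - t|) :=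
      (tendsto_const_nhds.sub ht).abs
    have h2 : Tendsto (fun k : ℕ => 1 / ((j : ℝ) + 4) + 1 / ((k : ℝ) + 4)) atTop
        (𝓝 (1 / ((j : ℝ) + 4) + 0)) := tendsto_const_nhds.add hlim0
    rw [add_zero] at h2
    exact le_of_tendsto_of_tendsto' h1 h2 (fun k => hc j k)
  refine ⟨t, ge_of_tendsto' ht hs0, le_of_tendsto' ht hs1, ?_⟩
  intro cost hcost ψ hψ hψ0 hψ1 ε hε
  rw [ENNReal.tendsto_nhds_zero]
  intro δ hδ
  -- choose `j`
  have hev : ∀ᶠ j : ℕ in atTop, 1 / ((j : ℝ) + 4) < ε / 2 ∧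
      ENNReal.ofReal (1 / ((j : ℝ) + 4)) < δ := by
    apply Filter.Eventually.and
    · exact hlim0.eventually_lt_const (by positivity)
    · have h1 : Tendsto (fun j : ℕ => ENNReal.ofReal (1 / ((j : ℝ) + 4))) atTop (𝓝 0) := by
        have := ENNReal.tendsto_ofReal hlim0
        rwa [ENNReal.ofReal_zero] at this
      exact h1.eventually_lt_const hδ
  obtain ⟨j, hj1, hj2⟩ := hev.exists
  obtain ⟨n₀, hn₀⟩ := hs j cost hcost ψ hψ hψ0 hψ1
  filter_upwards [eventually_ge_atTop n₀] with n hn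
  refine le_trans (le_trans (measure_mono ?_) (hn₀ n hn)) hj2.le
  rintro p ⟨σ, hσ, hlt⟩
  refine ⟨σ, hσ, ?_⟩
  have hI0 : 0 ≤ ∫ t in (0 : ℝ)..1, ψ t :=
    intervalIntegral.integral_nonneg (by norm_num) (fun t _ => hψ0 t)
  have hI1 : ∫ t in (0 : ℝ)..1, ψ t ≤ 1 := by
    have h1 : ∫ t in (0 : ℝ)..1, ψ t ≤ ∫ t in (0 : ℝ)..1, (1 : ℝ) := by
      apply intervalIntegral.integral_mono_on (by norm_num)
        (hψ.continuous.intervalIntegrable _ _) (by simp)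
      intro t _
      exact hψ1 t
    simpa using h1
  set I := ∫ t in (0 : ℝ)..1, ψ t
  have h7 : |avg n φ ψ p.1 p.2 σ - t * I| ≤ |avg n φ ψ p.1 p.2 σ - s j * I| + |s j - t| * I := by
    have e : avg n φ ψ p.1 p.2 σ - t * I = (avg n φ ψ p.1 p.2 σ - s j * I) + (s j - t) * I := by
      ring
    rw [e]
    refine (abs_add_le _ _).trans ?_
    rw [abs_mul, abs_of_nonneg hI0]
  have h8 : |s j - t| * I ≤ 1 / ((j : ℝ) + 4) :=
    (mul_le_of_le_one_right (abs_nonneg _) hI1).trans (htj j)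
  linarith

end Pool.Agent.H27.OTC
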