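import Pool.Agent.H27.OTC.ConfIid
import Pool.Agent.H27.OTC.LineBasic

/-!
Job OTC-B-MARKOV: the spatial Markov property of the exploration.
-/

set_option autoImplicit false

open MeasureTheory ProbabilityTheory
open scoped ENNReal

namespace Pool.Agent.H27.OTC

open Pool.Agent.H96.OT (Pl)

theorem smp_univ (l : ℝ) (n : ℕ) :
    (volume (Set.Icc l (l + 1) ×ˢ Set.Ioc (0 : ℝ) n) : ℝ≥0∞) = ENNReal.ofReal n := by
  rw [Measure.volume_eq_prod, Measure.prod_prod, Real.volume_Icc, Real.volume_Ioc]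
  simp

theorem smp_prob (l : ℝ) {n : ℕ} (hn : 0 < n) : IsProbabilityMeasure (smp l n) := by
  constructor
  have hn' : (0 : ℝ) < n := by exact_mod_cast hn
  rw [smp, Measure.smul_apply, Measure.restrict_apply MeasurableSet.univ, Set.univ_inter, smp_univ,
    smul_eq_mul, ← ENNReal.ofReal_mul (by positivity)]
  rw [one_div, inv_mul_cancel₀ hn'.ne', ENNReal.ofReal_one]

theorem Q_prob {n : ℕ} (hn : 0 < n) : IsProbabilityMeasure (Q n) := by
  haveI := smp_prob 0 hn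
  haveI := smp_prob 2 hn
  exact iid_prob _ _ _ _

theorem shift_mp (ℓ : ℕ × ℕ) : MeasurePreserving (shift ℓ) (volume : Measure Pl) volume := by
  have h := MeasurePreserving.skew_product (μa := (volume : Measure ℝ)) (μb := (volume : Measure ℝ))
    (μc := (volume : Measure ℝ)) (μd := (volume : Measure ℝ)) (f := id)
    (MeasurePreserving.id volume) (g := fun x u => u - lam ℓ x)
    (by
      have : Measurable (fun p : ℝ × ℝ => p.2 - lam ℓ p.1) :=
        measurable_snd.sub ((measurable_lam ℓ).comp measurable_fst)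
      exact this)
    (Filter.Eventually.of_forall fun x => (measurePreserving_sub_right volume (lam ℓ x)).map_eq)
  exact h

theorem lam_le_max (ℓ : ℕ × ℕ) (x : ℝ) : |lam ℓ x - ℓ.1| ≤ |(ℓ.2 : ℝ) - ℓ.1| := by
  have h : lam ℓ x - ℓ.1 = wt x * ((ℓ.2 : ℝ) - ℓ.1) := by unfold lam; ring
  rw [h, abs_mul, abs_of_nonneg (wt_nonneg x)]
  exact mul_le_of_le_one_left (abs_nonneg _) (wt_le_one x)

theorem lam_le (ℓ : ℕ × ℕ) {M : ℝ} (h1 : (ℓ.1 : ℝ) ≤ M) (h2 : (ℓ.2 : ℝ) ≤ M) (x : ℝ) :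
    lam ℓ x ≤ M := by
  have a := wt_nonneg x
  have b := wt_le_one x
  unfold lam
  nlinarith

theorem continuous_lam (ℓ : ℕ × ℕ) : Continuous (lam ℓ) := by
  unfold lam wt
  fun_prop

/-- the mean height of the line over `[l, l+1]` -/
noncomputable def meanL (l : ℝ) (ℓ : ℕ × ℕ) : ℝ := ∫ x in Set.Icc l (l + 1), lam ℓ x

theorem intOn_lam (l : ℝ) (ℓ : ℕ × ℕ) : IntegrableOn (lam ℓ) (Set.Icc l (l + 1)) :=
  (continuous_lam ℓ).continuousOn.integrableOn_Icc

theorem vol_Icc_real (l : ℝ) : (volume : Measure ℝ).real (Set.Icc l (l + 1)) = 1 := by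
  rw [measureReal_def, Real.volume_Icc]
  simp

theorem meanL_near (l : ℝ) (ℓ : ℕ × ℕ) : |meanL l ℓ - ℓ.1| ≤ |(ℓ.2 : ℝ) - ℓ.1| := by
  have h1 : meanL l ℓ - ℓ.1 = ∫ x in Set.Icc l (l + 1), (lam ℓ x - ℓ.1) := by
    rw [integral_sub (intOn_lam l ℓ) (by simp), setIntegral_const, vol_Icc_real, smul_eq_mul,
      one_mul]
    rfl
  rw [h1, ← Real.norm_eq_abs]
  have h2 := norm_setIntegral_le_of_norm_le_const (μ := (volume : Measure ℝ))
    (s := Set.Icc l (l + 1)) (f := fun x => lam ℓ x - ℓ.1) (C := |(ℓ.2 : ℝ) - ℓ.1|)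
    (by rw [Real.volume_Icc]; exact ENNReal.ofReal_lt_top) (fun x _ => lam_le_max ℓ x)
  rwa [vol_Icc_real, mul_one] at h2

theorem meanL_le (l : ℝ) (ℓ : ℕ × ℕ) {M : ℝ} (h1 : (ℓ.1 : ℝ) ≤ M) (h2 : (ℓ.2 : ℝ) ≤ M) :
    meanL l ℓ ≤ M := by
  have h3 : meanL l ℓ ≤ ∫ _ in Set.Icc l (l + 1), M :=
    setIntegral_mono_on (intOn_lam l ℓ) (by simp) measurableSet_Icc (fun x _ => lam_le ℓ h1 h2 x)
  rwa [setIntegral_const, vol_Icc_real, smul_eq_mul, one_mul] at h3

/-- the volume of the part of the domain above the line -/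
theorem vol_above (l : ℝ) {n : ℕ} {ℓ : ℕ × ℕ} (h1 : (ℓ.1 : ℝ) ≤ n) (h2 : (ℓ.2 : ℝ) ≤ n) :
    (volume (above ℓ ∩ (Set.Icc l (l + 1) ×ˢ Set.Ioc (0 : ℝ) n)) : ℝ≥0∞) =
      ENNReal.ofReal (n - meanL l ℓ) := by
  have hm : MeasurableSet (above ℓ ∩ (Set.Icc l (l + 1) ×ˢ Set.Ioc (0 : ℝ) n)) :=
    (measurableSet_above ℓ).inter (measurableSet_Icc.prod measurableSet_Ioc)
  rw [Measure.volume_eq_prod, Measure.prod_apply hm]
  have hsec : ∀ x : ℝ, (volume (Prod.mk x ⁻¹' (above ℓ ∩ (Set.Icc l (l + 1) ×ˢ Set.Ioc (0 : ℝ) n))) :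
      ℝ≥0∞) = (Set.Icc l (l + 1)).indicator (fun x => ENNReal.ofReal (n - lam ℓ x)) x := by
    intro x
    by_cases hx : x ∈ Set.Icc l (l + 1)
    · rw [Set.indicator_of_mem hx, ← Real.volume_Ioc]
      congr 1
      ext u
      simp only [Set.mem_preimage, Set.mem_inter_iff, Set.mem_prod, Set.mem_Ioc]
      constructor
      · rintro ⟨h3, _, h4⟩
        exact ⟨h3, h4.2⟩
      · rintro ⟨h3, h4⟩
        exact ⟨h3, hx, lt_of_le_of_lt (lam_nonneg ℓ x) h3, h4⟩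
    · rw [Set.indicator_of_notMem hx]
      have : Prod.mk x ⁻¹' (above ℓ ∩ (Set.Icc l (l + 1) ×ˢ Set.Ioc (0 : ℝ) n)) = ∅ := by
        ext u
        simp only [Set.mem_preimage, Set.mem_inter_iff, Set.mem_prod, Set.mem_empty_iff_false,
          iff_false]
        rintro ⟨_, h, _⟩
        exact hx h
      rw [this, measure_empty]
  simp_rw [hsec]
  rw [lintegral_indicator measurableSet_Icc]
  rw [← ofReal_integral_eq_lintegral_ofReal]
  · congr 1
    rw [integral_sub (by simp) (intOn_lam l ℓ), setIntegral_const, vol_Icc_real, smul_eq_mul,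
      one_mul]
    rfl
  · exact (integrable_const _).sub (intOn_lam l ℓ)
  · exact Filter.Eventually.of_forall fun x => sub_nonneg.2 (lam_le ℓ h1 h2 x)

theorem smp_above (l : ℝ) {n : ℕ} (hn : 0 < n) {ℓ : ℕ × ℕ} (h1 : (ℓ.1 : ℝ) ≤ n)
    (h2 : (ℓ.2 : ℝ) ≤ n) :
    smp l n (above ℓ) = ENNReal.ofReal ((n - meanL l ℓ) / n) := by
  have hn' : (0 : ℝ) < n := by exact_mod_cast hn
  rw [smp, Measure.smul_apply, Measure.restrict_apply (measurableSet_above ℓ), vol_above l h1 h2,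
    smul_eq_mul, ← ENNReal.ofReal_mul (by positivity)]
  congr 1
  ring

theorem flat_nuAb (l : ℝ) {n : ℕ} {θ : ℝ} (hn : 0 < n) (hθ : 0 < θ) {ℓ : ℕ × ℕ}
    (h1 : (ℓ.1 : ℝ) ≤ (1 - θ) * n) (h2 : (ℓ.2 : ℝ) ≤ (1 - θ) * n) :
    Flat l (1 / (n - meanL l ℓ)) (θ * n) (nuAb l n ℓ) := by
  have hn' : (0 : ℝ) < n := by exact_mod_cast hn
  have hθn : 0 < θ * n := by positivity
  have h1' : (ℓ.1 : ℝ) ≤ n := by nlinarith
  have h2' : (ℓ.2 : ℝ) ≤ n := by nlinarith
  have hmean := meanL_le l ℓ h1 h2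
  have hpos : 0 < n - meanL l ℓ := by nlinarith
  have habove := smp_above l hn h1' h2'
  have hne0 : smp l n (above ℓ) ≠ 0 := by
    rw [habove]
    exact (ENNReal.ofReal_pos.2 (by positivity)).ne'
  have hnetop : smp l n (above ℓ) ≠ ⊤ := by
    rw [habove]; exact ENNReal.ofReal_ne_top
  have hms := measurable_shift ℓ
  refine ⟨?_, by positivity, ?_⟩
  · constructor
    rw [nuAb, Measure.map_apply hms MeasurableSet.univ, Set.preimage_univ, Measure.smul_apply,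
      Measure.restrict_apply MeasurableSet.univ, Set.univ_inter, smul_eq_mul,
      ENNReal.inv_mul_cancel hne0 hnetop]
  · have hBm : MeasurableSet {p : Pl | p.2 ≤ θ * n} := measurableSet_le measurable_snd measurable_const
    have hDm : MeasurableSet (Set.Icc l (l + 1) ×ˢ Set.Ioc (0 : ℝ) n) :=
      measurableSet_Icc.prod measurableSet_Ioc
    have hEm : MeasurableSet (Set.Icc l (l + 1) ×ˢ Set.Ioc (0 : ℝ) (θ * n)) :=
      measurableSet_Icc.prod measurableSet_Ioc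
    ext E hE
    rw [Measure.restrict_apply hE, nuAb, Measure.map_apply hms (hE.inter hBm), Measure.smul_apply,
      Measure.restrict_apply (hms (hE.inter hBm)), smul_eq_mul, habove, smp, Measure.smul_apply,
      Measure.restrict_apply ((hms (hE.inter hBm)).inter (measurableSet_above ℓ)), smul_eq_mul,
      Measure.smul_apply, Measure.restrict_apply hE, smul_eq_mul, ← mul_assoc]
    have hset : shift ℓ ⁻¹' (E ∩ {p | p.2 ≤ θ * n}) ∩ above ℓ ∩
        Set.Icc l (l + 1) ×ˢ Set.Ioc (0 : ℝ) n =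
        shift ℓ ⁻¹' (E ∩ Set.Icc l (l + 1) ×ˢ Set.Ioc (0 : ℝ) (θ * n)) := by
      ext p
      have hlam := lam_le ℓ h1 h2 p.1
      have hlam0 := lam_nonneg ℓ p.1
      simp only [Set.mem_inter_iff, Set.mem_preimage, Set.mem_ofPred_eq, Set.mem_prod, Set.mem_Icc,
        Set.mem_Ioc, above, shift]
      constructor
      · rintro ⟨⟨⟨a1, a2⟩, a3⟩, a4, a5⟩
        exact ⟨a1, a4, by linarith, a2⟩
      · rintro ⟨a1, a2, a3, a4⟩
        refine ⟨⟨⟨a1, a4⟩, by linarith⟩, a2, by linarith, ?_⟩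
        nlinarith
    rw [hset, (shift_mp ℓ).measure_preimage (hE.inter hEm).nullMeasurableSet]
    congr 1
    rw [← ENNReal.ofReal_inv_of_pos (by positivity), ← ENNReal.ofReal_mul (by positivity)]
    congr 1
    field_simp

/-- Admissible lines: the conditional laws are flat near the line. -/
theorem near_lawUp {n : ℕ} {θ ρ : ℝ} (hn : 0 < n) (hθ : 0 < θ) (hρ : 0 < ρ) (hρθ : ρ ≤ θ / 4)
    {ℓ : ℕ × ℕ} {N N' : ℕ} (h : Ok n θ ρ ℓ N N') :
    Near (2 * ρ / θ) (1 / (θ * n)) (θ * n) (nuAb 0 n ℓ) (nuAb 2 n ℓ) (n - N) (n - N') := by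
  obtain ⟨h1, h2, h3, h4, h5⟩ := h
  have hn' : (0 : ℝ) < n := by exact_mod_cast hn
  have hθn : 0 < θ * n := by positivity
  have key : ∀ (l : ℝ) (M : ℕ), |(M : ℝ) - ℓ.1| ≤ ρ * n →
      |1 / (n - meanL l ℓ) * ((n - M : ℕ) : ℝ) - 1| ≤ 2 * ρ / θ ∧
        1 / (n - meanL l ℓ) ≤ 1 / (θ * n) := by
    intro l M hM
    have hmean := meanL_le l ℓ h1 h2
    have hnear := meanL_near l ℓ
    have hge : θ * n ≤ n - meanL l ℓ := by nlinarith
    have hpos : 0 < n - meanL l ℓ := by linarith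
    have hMn : M ≤ n := by
      have h6 := (abs_le.1 hM).2
      have : (M : ℝ) ≤ n := by nlinarith
      exact_mod_cast this
    constructor
    · rw [Nat.cast_sub hMn]
      have h7 : 1 / (n - meanL l ℓ) * ((n : ℝ) - M) - 1 =
          (meanL l ℓ - M) / (n - meanL l ℓ) := by
        field_simp
        ring
      rw [h7, abs_div, abs_of_pos hpos, div_le_div_iff₀ hpos hθ]
      have h8 : |meanL l ℓ - M| ≤ 2 * ρ * n := by
        have : meanL l ℓ - M = (meanL l ℓ - ℓ.1) - (M - ℓ.1) := by ring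
        rw [this]
        refine (abs_sub _ _).trans ?_
        linarith
      calc |meanL l ℓ - M| * θ ≤ (2 * ρ * n) * θ := mul_le_mul_of_nonneg_right h8 hθ.le
        _ = 2 * ρ * (θ * n) := by ring
        _ ≤ 2 * ρ * (n - meanL l ℓ) := by
          apply mul_le_mul_of_nonneg_left hge
          linarith
    · exact one_div_le_one_div_of_le hθn hge
  obtain ⟨k1, k2⟩ := key 0 N h4
  obtain ⟨k3, k4⟩ := key 2 N' h5
  exact ⟨⟨_, flat_nuAb 0 hn hθ h1 h2, k1, k2⟩, ⟨_, flat_nuAb 2 hn hθ h1 h2, k3, k4⟩⟩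

theorem smp_finite (l : ℝ) (n : ℕ) : IsFiniteMeasure (smp l n) := by
  unfold smp
  have h : IsFiniteMeasure ((volume : Measure Pl).restrict
      (Set.Icc l (l + 1) ×ˢ Set.Ioc (0 : ℝ) n)) := by
    refine ⟨?_⟩
    rw [Measure.restrict_apply_univ, Measure.volume_eq_prod, Measure.prod_prod]
    simp only [Real.volume_Icc, Real.volume_Ioc]
    exact ENNReal.mul_lt_top ENNReal.ofReal_lt_top ENNReal.ofReal_lt_top
  exact Measure.smul_finite _ ENNReal.ofReal_ne_top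

/-- all points of the configuration lie in `R`: the filter does nothing -/
theorem filt_of_forall {R : Set Pl} {c : Conf} (hX : ∀ x ∈ c.X, x ∈ R) (hY : ∀ y ∈ c.Y, y ∈ R) :
    c.filt R = c := by
  classical
  apply Conf.ext
  · exact Multiset.filter_eq_self.2 hX
  · exact Multiset.filter_eq_self.2 hY

/-- the terms of the decomposition with the wrong numbers of points vanish -/
theorem lintegral_wrong (ν ν' : Measure Pl) [SigmaFinite ν] [SigmaFinite ν'] {R : Set Pl}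
    (hR : MeasurableSet R) {N N' : ℕ} {F : Conf → ℝ≥0∞}
    (hFN : ∀ c : Conf, F c ≠ 0 → c.nX R = N ∧ c.nY R = N') {j j' : ℕ} (h : ¬ (j = N ∧ j' = N')) :
    ∫⁻ c, F c ∂(iid (ν.restrict R) (ν'.restrict R) j j') = 0 := by
  have h1 : ∀ᵐ c ∂(iid (ν.restrict R) (ν'.restrict R) j j'), F c = 0 := by
    have e1 := iid_card (ν.restrict R) (ν'.restrict R) j j'
    have e2 := iid_forall (ν.restrict R) (ν'.restrict R) (p := fun x => x ∈ R)
      (p' := fun x => x ∈ R) (ae_restrict_mem hR) (ae_restrict_mem hR) hR hR j j'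
    filter_upwards [e1, e2] with c hc1 hc2
    by_contra h3
    obtain ⟨h4, h5⟩ := hFN c h3
    unfold Conf.nX at h4
    unfold Conf.nY at h5
    rw [filt_of_forall hc2.1 hc2.2] at h4 h5
    exact h ⟨hc1.1.symm.trans h4, hc1.2.symm.trans h5⟩
  rw [lintegral_congr_ae h1, lintegral_zero]

theorem decomp_aux {n : ℕ} {ℓ : ℕ × ℕ} {N N' : ℕ} {F G : Conf → ℝ≥0∞} (hF : Measurable F)
    (hG : Measurable G) (hFb : ∀ c, F c = F (c.filt (below ℓ)))
    (hFN : ∀ c, F c ≠ 0 → c.nX (below ℓ) = N ∧ c.nY (below ℓ) = N') :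
    ∫⁻ c, F c * G (c.filt (above ℓ)) ∂(Q n) =
      (n.choose N : ℝ≥0∞) * (n.choose N' : ℝ≥0∞) *
        ((∫⁻ c, F c ∂(iid ((smp 0 n).restrict (below ℓ)) ((smp 2 n).restrict (below ℓ)) N N')) *
          ∫⁻ c, G c ∂(iid ((smp 0 n).restrict (above ℓ)) ((smp 2 n).restrict (above ℓ))
            (n - N) (n - N'))) := by
  have := smp_finite 0 n
  have := smp_finite 2 n
  have e1 : ∫⁻ c, F c * G (c.filt (above ℓ)) ∂(Q n) =
      ∫⁻ c, F (c.filt (below ℓ)) * G (c.filt (below ℓ)ᶜ) ∂(iid (smp 0 n) (smp 2 n) n n) := by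
    unfold Q
    refine lintegral_congr ?_
    intro c
    rw [← hFb c, above_eq]
  rw [e1, iid_decomp (smp 0 n) (smp 2 n) (measurableSet_below ℓ) hF hG n n, ← above_eq]
  have e2 : ∀ j ∈ Finset.range (n + 1), ∀ j' ∈ Finset.range (n + 1),
      ¬ (j = N ∧ j' = N') →
      (n.choose j : ℝ≥0∞) * (n.choose j' : ℝ≥0∞) *
        ((∫⁻ c, F c ∂(iid ((smp 0 n).restrict (below ℓ)) ((smp 2 n).restrict (below ℓ)) j j')) *
          ∫⁻ c, G c ∂(iid ((smp 0 n).restrict (above ℓ)) ((smp 2 n).restrict (above ℓ))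
            (n - j) (n - j'))) = 0 := by
    intro j _ j' _ h
    rw [lintegral_wrong (smp 0 n) (smp 2 n) (measurableSet_below ℓ) hFN h, zero_mul, mul_zero]
  rw [Finset.sum_eq_single N]
  · rw [Finset.sum_eq_single N']
    · intro j' hj' h
      by_cases hN : N ∈ Finset.range (n + 1)
      · exact e2 N hN j' hj' (fun h' => h h'.2)
      · have : n.choose N = 0 := Nat.choose_eq_zero_of_lt (by simpa using hN)
        rw [this]
        simp
    · intro h
      have : n.choose N' = 0 := Nat.choose_eq_zero_of_lt (by simpa using h)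
      rw [this]
      simp
  · intro j hj h
    exact Finset.sum_eq_zero fun j' hj' => e2 j hj j' hj' (fun h' => h h'.1)
  · intro h
    have : n.choose N = 0 := Nat.choose_eq_zero_of_lt (by simpa using h)
    rw [this]
    simp

theorem lintegral_lawUp {n : ℕ} {ℓ : ℕ × ℕ} (h0 : smp 0 n (above ℓ) ≠ 0)
    (h2 : smp 2 n (above ℓ) ≠ 0) (N N' : ℕ) {G : Conf → ℝ≥0∞} (hG : Measurable G) :
    ∫⁻ c, G (c.mapC (shift ℓ)) ∂(iid ((smp 0 n).restrict (above ℓ)) ((smp 2 n).restrict (above ℓ))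
      (n - N) (n - N')) = (smp 0 n (above ℓ)) ^ (n - N) * (smp 2 n (above ℓ)) ^ (n - N') *
        ∫⁻ c, G c ∂(lawUp n ℓ N N') := by
  have := smp_finite 0 n
  have := smp_finite 2 n
  have f0 : smp 0 n (above ℓ) ≠ ∞ := measure_ne_top _ _
  have f2 : smp 2 n (above ℓ) ≠ ∞ := measure_ne_top _ _
  have : IsFiniteMeasure ((smp 0 n (above ℓ))⁻¹ • (smp 0 n).restrict (above ℓ)) :=
    Measure.smul_finite _ (ENNReal.inv_ne_top.2 h0)
  have : IsFiniteMeasure ((smp 2 n (above ℓ))⁻¹ • (smp 2 n).restrict (above ℓ)) :=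
    Measure.smul_finite _ (ENNReal.inv_ne_top.2 h2)
  have e1 : lawUp n ℓ N N' = (((smp 0 n (above ℓ))⁻¹ ^ (n - N) * (smp 2 n (above ℓ))⁻¹ ^ (n - N')) •
      iid ((smp 0 n).restrict (above ℓ)) ((smp 2 n).restrict (above ℓ)) (n - N) (n - N')).map
        (Conf.mapC (shift ℓ)) := by
    rw [← iid_smul, iid_map _ _ (measurable_shift ℓ)]
    rfl
  rw [e1, lintegral_map hG (measurable_mapC (measurable_shift ℓ)), lintegral_smul_measure,
    smul_eq_mul, ← mul_assoc]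
  have e2 : smp 0 n (above ℓ) ^ (n - N) * smp 2 n (above ℓ) ^ (n - N') *
      ((smp 0 n (above ℓ))⁻¹ ^ (n - N) * (smp 2 n (above ℓ))⁻¹ ^ (n - N')) = 1 := by
    rw [mul_mul_mul_comm, ← mul_pow, ← mul_pow, ENNReal.mul_inv_cancel h0 f0,
      ENNReal.mul_inv_cancel h2 f2, one_pow, one_pow, one_mul]
  rw [e2, one_mul]

/-- Lemma M: given the numbers of points below `ℓ`, what happens below and above `ℓ` is
independent, and the points above are independent with the conditional law. -/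
theorem decomp_line {n : ℕ} {ℓ : ℕ × ℕ} (h0 : smp 0 n (above ℓ) ≠ 0) (h2 : smp 2 n (above ℓ) ≠ 0)
    {N N' : ℕ} {F G : Conf → ℝ≥0∞} (hF : Measurable F) (hG : Measurable G)
    (hFb : ∀ c, F c = F (c.filt (below ℓ)))
    (hFN : ∀ c, F c ≠ 0 → c.nX (below ℓ) = N ∧ c.nY (below ℓ) = N') :
    ∫⁻ c, F c * G (up ℓ c) ∂(Q n) =
      (∫⁻ c, F c ∂(Q n)) * ∫⁻ c, G c ∂(lawUp n ℓ N N') := by
  have := smp_finite 0 n
  have := smp_finite 2 n
  have e1 := decomp_aux (n := n) (G := fun c => G (c.mapC (shift ℓ))) hF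
    (hG.comp (measurable_mapC (measurable_shift ℓ))) hFb hFN
  have e2 := decomp_aux (n := n) (G := fun _ => 1) hF measurable_const hFb hFN
  simp only [mul_one, lintegral_const, one_mul] at e2
  rw [iid_univ, Measure.restrict_apply_univ, Measure.restrict_apply_univ] at e2
  rw [lintegral_lawUp h0 h2 N N' hG] at e1
  show ∫⁻ c, F c * G ((c.filt (above ℓ)).mapC (shift ℓ)) ∂(Q n) = _
  rw [e1, e2]
  ring

theorem lam_le_of {ℓ : ℕ × ℕ} {M : ℝ} (h1 : (ℓ.1 : ℝ) ≤ M) (h2 : (ℓ.2 : ℝ) ≤ M) (x : ℝ) :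
    lam ℓ x ≤ M := by
  have h5 := wt_nonneg x
  have h6 := wt_le_one x
  unfold lam
  nlinarith

theorem smp_above_ne_zero (l : ℝ) {n : ℕ} {θ ρ : ℝ} (hn : 0 < n) (hθ : 0 < θ) {ℓ : ℕ × ℕ}
    {N N' : ℕ} (h : Ok n θ ρ ℓ N N') : smp l n (above ℓ) ≠ 0 := by
  obtain ⟨h1, h2, -⟩ := h
  have hn' : (0 : ℝ) < n := by exact_mod_cast hn
  have h0 : (0 : ℝ) ≤ (1 - θ) * n := le_trans (Nat.cast_nonneg _) h1
  have hsub : Set.Icc l (l + 1) ×ˢ Set.Ioc ((1 - θ) * n) (n : ℝ) ⊆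
      above ℓ ∩ Set.Icc l (l + 1) ×ˢ Set.Ioc (0 : ℝ) n := by
    rintro ⟨x, y⟩ ⟨hx, hy⟩
    refine ⟨?_, hx, lt_of_le_of_lt h0 hy.1, hy.2⟩
    exact lt_of_le_of_lt (lam_le_of h1 h2 x) hy.1
  unfold smp
  rw [Measure.smul_apply, Measure.restrict_apply (measurableSet_above ℓ), smul_eq_mul]
  refine mul_ne_zero ?_ ?_
  · rw [Ne, ENNReal.ofReal_eq_zero, not_le]
    positivity
  · refine ne_of_gt (lt_of_lt_of_le ?_ (measure_mono hsub))
    rw [Measure.volume_eq_prod, Measure.prod_prod, Real.volume_Icc, Real.volume_Ioc]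
    refine ENNReal.mul_pos ?_ ?_
    · rw [Ne, ENNReal.ofReal_eq_zero, not_le]
      linarith
    · rw [Ne, ENNReal.ofReal_eq_zero, not_le]
      nlinarith

/-- the data of the `k`-th line -/
noncomputable def dat (k : ℕ) (c : Conf) : (ℕ × ℕ) × ℕ × ℕ :=
  (st c k, c.nX (below (st c k)), c.nY (below (st c k)))

theorem measurable_dat (k : ℕ) : Measurable (dat k) :=
  (measurable_st k).prodMk ((measurable_nXst k).prodMk (measurable_nYst k))

theorem dat_filt_iff (k : ℕ) (c : Conf) (q : (ℕ × ℕ) × ℕ × ℕ) :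
    dat k (c.filt (below q.1)) = q ↔ dat k c = q := by
  obtain ⟨ℓ, N, N'⟩ := q
  unfold dat
  simp only [Prod.mk.injEq]
  rw [st_eq_iff]
  refine and_congr_right ?_
  intro h
  have h' := (st_eq_iff c k ℓ).2 h
  rw [h', h, nX_filt, nY_filt, Set.inter_self]

open Classical in
/-- Markov property at step `k`. -/
theorem markov {n : ℕ} {θ ρ : ℝ} (hn : 0 < n) (hθ : 0 < θ) (hρ : 0 < ρ) (hρθ : ρ ≤ θ / 4)
    (k : ℕ) {Φ : Conf → ℝ≥0∞} (hΦ : Measurable Φ) (hP : Past k Φ) {G : ℤ → Conf → ℝ≥0∞}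
    (hG : ∀ i, Measurable (G i)) :
    ∫⁻ c, (if OkAt n θ ρ c k then Φ c * G (im c k) (uc c k) else 0) ∂(Q n) =
      ∫⁻ c, (if OkAt n θ ρ c k then Φ c * ∫⁻ c', G (im c k) c'
        ∂(lawUp n (st c k) (c.nX (below (st c k))) (c.nY (below (st c k)))) else 0) ∂(Q n) := by
  set F : (ℕ × ℕ) × ℕ × ℕ → Conf → ℝ≥0∞ := fun q c =>
    if dat k c = q ∧ Ok n θ ρ q.1 q.2.1 q.2.2 then Φ c else 0 with hFdef
  have mF : ∀ q, Measurable (F q) := by
    intro q
    refine Measurable.ite ?_ hΦ measurable_const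
    exact (measurable_dat k (measurableSet_singleton q)).inter (MeasurableSet.const _)
  have hF0 : ∀ c, F (dat k c) c = if OkAt n θ ρ c k then Φ c else 0 := by
    intro c
    simp only [hFdef]
    by_cases h : OkAt n θ ρ c k
    · rw [if_pos h]
      exact if_pos ⟨trivial, h⟩
    · rw [if_neg h]
      exact if_neg (fun h' => h h'.2)
  have e1 : ∀ c, (if OkAt n θ ρ c k then Φ c * G (im c k) (uc c k) else 0) =
      ∑' q : (ℕ × ℕ) × ℕ × ℕ, F q c * G ((q.2.1 : ℤ) - q.2.2) (up q.1 c) := by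
    intro c
    rw [tsum_eq_single (dat k c)]
    · rw [hF0 c]
      by_cases h : OkAt n θ ρ c k
      · rw [if_pos h, if_pos h]
        rfl
      · rw [if_neg h, if_neg h, zero_mul]
    · intro q hq
      simp only [hFdef]
      rw [if_neg (fun h => hq h.1.symm), zero_mul]
  have e2 : ∀ c, (if OkAt n θ ρ c k then Φ c * ∫⁻ c', G (im c k) c'
        ∂(lawUp n (st c k) (c.nX (below (st c k))) (c.nY (below (st c k)))) else 0) =
      ∑' q : (ℕ × ℕ) × ℕ × ℕ, F q c * ∫⁻ c', G ((q.2.1 : ℤ) - q.2.2) c'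
        ∂(lawUp n q.1 q.2.1 q.2.2) := by
    intro c
    rw [tsum_eq_single (dat k c)]
    · rw [hF0 c]
      by_cases h : OkAt n θ ρ c k
      · rw [if_pos h, if_pos h]
        rfl
      · rw [if_neg h, if_neg h, zero_mul]
    · intro q hq
      simp only [hFdef]
      rw [if_neg (fun h => hq h.1.symm), zero_mul]
  have m1 : ∀ q : (ℕ × ℕ) × ℕ × ℕ,
      AEMeasurable (fun c => F q c * G ((q.2.1 : ℤ) - q.2.2) (up q.1 c)) (Q n) :=
    fun q => ((mF q).mul ((hG _).comp (measurable_up q.1))).aemeasurable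
  have m2 : ∀ q : (ℕ × ℕ) × ℕ × ℕ,
      AEMeasurable (fun c => F q c * ∫⁻ c', G ((q.2.1 : ℤ) - q.2.2) c'
        ∂(lawUp n q.1 q.2.1 q.2.2)) (Q n) :=
    fun q => ((mF q).mul_const _).aemeasurable
  rw [lintegral_congr e1, lintegral_congr e2, lintegral_tsum m1, lintegral_tsum m2]
  refine tsum_congr ?_
  intro q
  rw [lintegral_mul_const _ (mF q)]
  by_cases hq : Ok n θ ρ q.1 q.2.1 q.2.2
  · refine decomp_line (smp_above_ne_zero 0 hn hθ hq) (smp_above_ne_zero 2 hn hθ hq) (mF q)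
      (hG _) ?_ ?_
    · intro c
      simp only [hFdef]
      have h4 := dat_filt_iff k c q
      by_cases h : dat k c = q ∧ Ok n θ ρ q.1 q.2.1 q.2.2
      · rw [if_pos h, if_pos ⟨h4.2 h.1, h.2⟩]
        have h3 : st c k = q.1 := by rw [← h.1]; rfl
        rw [← h3]
        exact hP c
      · rw [if_neg h, if_neg (fun h' => h ⟨h4.1 h'.1, h'.2⟩)]
    · intro c hc
      simp only [hFdef] at hc
      by_cases h : dat k c = q ∧ Ok n θ ρ q.1 q.2.1 q.2.2
      · rw [← h.1]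
        exact ⟨rfl, rfl⟩
      · rw [if_neg h] at hc
        exact absurd rfl hc
  · have h0 : ∀ c, F q c = 0 := by
      intro c
      simp only [hFdef]
      rw [if_neg (fun h => hq h.2)]
    simp only [h0, zero_mul, lintegral_zero]

open Classical in
theorem markov_le {n : ℕ} {θ ρ : ℝ} (hn : 0 < n) (hθ : 0 < θ) (hρ : 0 < ρ) (hρθ : ρ ≤ θ / 4)
    (k : ℕ) {Φ : Conf → ℝ≥0∞} (hΦ : Measurable Φ) (hP : Past k Φ) {G : ℤ → Conf → ℝ≥0∞}
    (hG : ∀ i, Measurable (G i)) (C : ℤ → ℝ≥0∞)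
    (hC : ∀ ℓ N N', Ok n θ ρ ℓ N N' → ∫⁻ c', G ((N : ℤ) - N') c' ∂(lawUp n ℓ N N')
      ≤ C ((N : ℤ) - N')) :
    ∫⁻ c, (if OkAt n θ ρ c k then Φ c * G (im c k) (uc c k) else 0) ∂(Q n) ≤
      ∫⁻ c, (if OkAt n θ ρ c k then Φ c * C (im c k) else 0) ∂(Q n) := by
  rw [markov hn hθ hρ hρθ k hΦ hP hG]
  apply lintegral_mono
  intro c
  dsimp only
  split_ifs with h
  · exact mul_le_mul_right (hC _ _ _ h) _
  · exact le_rfl

open Classical in
theorem markov_ge {n : ℕ} {θ ρ : ℝ} (hn : 0 < n) (hθ : 0 < θ) (hρ : 0 < ρ) (hρθ : ρ ≤ θ / 4)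
    (k : ℕ) {Φ : Conf → ℝ≥0∞} (hΦ : Measurable Φ) (hP : Past k Φ) {G : ℤ → Conf → ℝ≥0∞}
    (hG : ∀ i, Measurable (G i)) (C : ℤ → ℝ≥0∞)
    (hC : ∀ ℓ N N', Ok n θ ρ ℓ N N' → C ((N : ℤ) - N') ≤ ∫⁻ c', G ((N : ℤ) - N') c'
      ∂(lawUp n ℓ N N')) :
    ∫⁻ c, (if OkAt n θ ρ c k then Φ c * C (im c k) else 0) ∂(Q n) ≤
      ∫⁻ c, (if OkAt n θ ρ c k then Φ c * G (im c k) (uc c k) else 0) ∂(Q n) := by
  rw [markov hn hθ hρ hρθ k hΦ hP hG]
  apply lintegral_mono
  intro c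
  dsimp only
  split_ifs with h
  · exact mul_le_mul_right (hC _ _ _ h) _
  · exact le_rfl

end Pool.Agent.H27.OTC
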