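import Mathlib

/-!
MP_91df8f_pr, deterministic part: systems of non crossing rays.

A ray `i` is a segment from the point `(a i, u i)` with `a i ∈ [0,1]` to the point `(b i, v i)` with
`b i ∈ [2,3]`; `Z i` is its height at the abscissa `3/2` and `P i` its slope.  All heights are
relative to some straight line (the frame).
-/

set_option autoImplicit false

namespace Pool.Agent.H27.OTC

/-- A system of rays. -/
structure Rays (ι : Type) where
  a : ι → ℝ
  b : ι → ℝ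
  u : ι → ℝ
  v : ι → ℝ
  Z : ι → ℝ
  P : ι → ℝ
  a0 : ∀ i, 0 ≤ a i
  a1 : ∀ i, a i ≤ 1
  b2 : ∀ i, 2 ≤ b i
  b3 : ∀ i, b i ≤ 3
  hu : ∀ i, u i = Z i - (3 / 2 - a i) * P i
  hv : ∀ i, v i = Z i + (b i - 3 / 2) * P i

variable {ι : Type}

/-- Non crossing between the abscissas `1` and `2`, and the optimality inequality. -/
structure Rays.Opt [Fintype ι] (S : Rays ι) : Prop where
  nc : ∀ i j, S.Z i ≤ S.Z j →
    S.Z i - S.P i / 2 ≤ S.Z j - S.P j / 2 ∧ S.Z i + S.P i / 2 ≤ S.Z j + S.P j / 2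
  opt : ∀ (A : Finset ι) (τ : Equiv.Perm ι), (∀ i, i ∉ A → τ i = i) →
    ∑ i ∈ A, S.P i ^ 2 ≤ 8 * ∑ i ∈ A, (S.v (τ i) - S.u i) ^ 2

/-- the number of indices with `s < h i ≤ t` -/
noncomputable def cnt [Fintype ι] (h : ι → ℝ) (s t : ℝ) : ℝ :=
  ((Finset.univ.filter (fun i => s < h i ∧ h i ≤ t)).card : ℝ)

/-- all slabs in `[-R, R]` contain the right number of heights, up to `e` -/
def Slab [Fintype ι] (h : ι → ℝ) (R e : ℝ) : Prop :=
  ∀ s t, -R ≤ s → s ≤ t → t ≤ R → |cnt h s t - (t - s)| ≤ e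

/-- all slabs in `[-R, R]` contain enough points with abscissa at least `1 - τ` -/
def EdgeLB [Fintype ι] (a h : ι → ℝ) (τ R e : ℝ) : Prop :=
  ∀ s t, -R ≤ s → s ≤ t → t ≤ R → τ * (t - s) - e ≤
    ((Finset.univ.filter (fun i => 1 - τ ≤ a i ∧ s < h i ∧ h i ≤ t)).card : ℝ)

/-- as many heights `u i ≤ 0` as heights `v i ≤ 0` -/
def Bal [Fintype ι] (u v : ι → ℝ) : Prop :=
  (Finset.univ.filter (fun i => u i ≤ 0)).card = (Finset.univ.filter (fun i => v i ≤ 0)).card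

/-- gradient bound at scale `R` -/
def Gr (S : Rays ι) (ε R : ℝ) : Prop := ∀ i, |S.P i| ≤ ε * max R (2 * |S.Z i|)

/-- The admissible constants. -/
structure Consts (β τ ε δ : ℝ) : Prop where
  βpos : 0 < β
  β1 : β ≤ 1 / 100
  τeq : τ = β / 96
  εpos : 0 < ε
  ε1 : ε ≤ 1 / 1000
  δpos : 0 < δ
  fine : 37696 * β ^ 3 < τ / 4096
  windows : ∃ N : ℕ, (N : ℝ) * (40 * ε) ≤ 3 / 10 ∧ 2 * 37696 * 64 < N * (τ * β ^ 3)
  δedge : 10 * δ ≤ τ * β * ε
  δslab : 45 * δ ^ 2 ≤ (8 * β * ε) ^ 3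

/-- the constants used in the proof -/
theorem consts_exist : Consts (1 / 10 ^ 6) (1 / 10 ^ 6 / 96) (1 / 10 ^ 36) (1 / 10 ^ 63) where
  βpos := by norm_num
  β1 := by norm_num
  τeq := rfl
  εpos := by norm_num
  ε1 := by norm_num
  δpos := by norm_num
  fine := by norm_num
  windows := ⟨7 * 10 ^ 33, by norm_num, by norm_num⟩
  δedge := by norm_num
  δslab := by norm_num

end Pool.Agent.H27.OTC
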