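import Pool.Agent.H96.OT.Defs

/-!
MP_91df8f_pr: the definitions used in the statement of `LimitPlan.result`, in addition to those of
`Pool.Agent.H96.OT.Defs`.
-/

set_option autoImplicit false

open MeasureTheory ProbabilityTheory
open scoped ENNReal

namespace Pool.Agent.H27.OTC

open Pool.Agent.H96.OT (Pl)

/-- The coupling of the uniform laws on `[0,1]²` and `[2,3] × [0,1]` with equal vertical
coordinates, uniform on `[0,1]` and independent of the horizontal coordinates, which have the law
`γ`: the law of `((a, t), (b, t))` for `(a, b)` with law `γ` and `t` uniform in `[0,1]`,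
independent. -/
noncomputable def limPlan (γ : Measure (ℝ × ℝ)) : Measure (Pl × Pl) :=
  (γ.prod (volume.restrict (Set.Icc (0 : ℝ) 1))).map
    (fun q : (ℝ × ℝ) × ℝ => (((q.1.1, q.2), (q.1.2, q.2)) : Pl × Pl))

theorem isProb_unit : IsProbabilityMeasure (volume.restrict (Set.Icc (0 : ℝ) 1)) := ⟨by simp⟩

theorem limPlan_prob (γ : Measure (ℝ × ℝ)) [IsProbabilityMeasure γ] :
    IsProbabilityMeasure (limPlan γ) := by
  have := isProb_unit
  unfold limPlan
  exact Measure.isProbabilityMeasure_map (by fun_prop)

/-- `limPlan γ` as a probability measure -/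
noncomputable def limPM (γ : Measure (ℝ × ℝ)) [IsProbabilityMeasure γ] :
    ProbabilityMeasure (Pl × Pl) := ⟨limPlan γ, limPlan_prob γ⟩

/-- the uniform probability measure on `[l, l+1] × (0, n]` -/
noncomputable def smp (l : ℝ) (n : ℕ) : Measure Pl :=
  ENNReal.ofReal (1 / n) • volume.restrict (Set.Icc l (l + 1) ×ˢ Set.Ioc (0 : ℝ) n)

/-- the law of `n + n` independent points, the first `n` uniform in `[0,1] × (0,n]`, the other
`n` uniform in `[2,3] × (0,n]` -/
noncomputable def smpLaw (n : ℕ) : Measure ((Fin n → Pl) × (Fin n → Pl)) :=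
  (Measure.pi fun _ => smp 0 n).prod (Measure.pi fun _ => smp 2 n)

/-- the parabolic cost `(v - u)² / (b - a)` of the points `x = (a, u)` and `y = (b, v)` -/
noncomputable def par (x y : Pl) : ℝ := (y.2 - x.2) ^ 2 / (y.1 - x.1)

/-- The assignment of `y i` to `x i` is optimal for the cost `c`: no other assignment of the same
points has a smaller total cost. -/
def IsOptM (c : Pl → Pl → ℝ) {m : ℕ} (x y : Fin m → Pl) : Prop :=
  ∀ τ : Equiv.Perm (Fin m), ∑ i, c (x i) (y i) ≤ ∑ i, c (x i) (y (τ i))

end Pool.Agent.H27.OTC
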