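import Pool.Agent.H27.OTC.LimFun

/-!
Job OTC-F-TEST: general test functions.
-/

set_option autoImplicit false

open MeasureTheory ProbabilityTheory Filter
open scoped ENNReal Topology BoundedContinuousFunction

namespace Pool.Agent.H27.OTC

open Pool.Agent.H96.OT (Pl)

/-- the pair `i` of the matching in the original (unscaled) coordinates -/
noncomputable def pr0 (n : ℕ) (x y : Fin n → Pl) (σ : Equiv.Perm (Fin n)) (i : Fin n) : Pl × Pl :=
  (((x i).1, (x i).2 / n), ((y (σ i)).1, (y (σ i)).2 / n))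

/-- the hat functions on the grid of width `1 / m` -/
noncomputable def hatF (m j : ℕ) (t : ℝ) : ℝ := max 0 (1 - |m * t - j|)

theorem hatF_nonneg (m j : ℕ) (t : ℝ) : 0 ≤ hatF m j t := le_max_left _ _

theorem hatF_le_one (m j : ℕ) (t : ℝ) : hatF m j t ≤ 1 :=
  max_le zero_le_one (by linarith [abs_nonneg ((m : ℝ) * t - j)])

theorem hatF_uc (m j : ℕ) : UniformContinuous (hatF m j) := by
  have h : LipschitzWith (Real.toNNReal m) (hatF m j) := by
    apply LipschitzWith.of_dist_le_mul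
    intro s t
    rw [Real.dist_eq, Real.dist_eq, Real.coe_toNNReal _ (Nat.cast_nonneg m)]
    unfold hatF
    refine (abs_max_sub_max_le_max _ _ _ _).trans (max_le ?_ ?_)
    · rw [sub_self, abs_zero]; positivity
    · have h1 : 1 - |(m : ℝ) * s - j| - (1 - |(m : ℝ) * t - j|) =
          |(m : ℝ) * t - j| - |(m : ℝ) * s - j| := by ring
      rw [h1]
      refine (abs_abs_sub_abs_le_abs_sub _ _).trans ?_
      have h2 : (m : ℝ) * t - j - ((m : ℝ) * s - j) = -(m * (s - t)) := by ring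
      rw [h2, abs_neg, abs_mul, abs_of_nonneg (Nat.cast_nonneg m : (0 : ℝ) ≤ m)]
  exact h.uniformContinuous

theorem hatF_supp {m j : ℕ} (hm : 0 < m) {t : ℝ} (h : hatF m j t ≠ 0) :
    |t - (j : ℝ) / m| ≤ 1 / m := by
  have hm' : (0 : ℝ) < m := by exact_mod_cast hm
  have h1 : |(m : ℝ) * t - j| ≤ 1 := by
    by_contra h2
    push Not at h2
    exact h (max_eq_left (by linarith))
  have h3 : (m : ℝ) * t - j = m * (t - j / m) := by field_simp
  rw [h3, abs_mul, abs_of_pos hm'] at h1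
  rw [le_div_iff₀ hm']
  linarith

theorem hat_sum_aux (m : ℕ) {s : ℝ} (hs : 0 ≤ s) :
    ∑ j ∈ Finset.range (m + 1), max 0 (1 - |s - (j : ℝ)|) = min 1 (max 0 (m + 1 - s)) := by
  induction m with
  | zero =>
    simp only [zero_add, Finset.sum_range_one, Nat.cast_zero, sub_zero]
    rw [abs_of_nonneg hs, min_eq_right (max_le zero_le_one (by linarith))]
  | succ m ih =>
    rw [Finset.sum_range_succ, ih]
    push_cast
    rcases le_total s m with h1 | h1
    · rw [abs_of_nonpos (by linarith), max_eq_left (by linarith : 1 - -(s - ((m : ℝ) + 1)) ≤ 0),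
        max_eq_right (by linarith), max_eq_right (by linarith), min_eq_left (by linarith),
        min_eq_left (by linarith), add_zero]
    · rcases le_total s (m + 1) with h2 | h2
      · rw [abs_of_nonpos (by linarith), max_eq_right (by linarith), max_eq_right (by linarith),
          max_eq_right (by linarith), min_eq_right (by linarith), min_eq_left (by linarith)]
        ring
      · rw [abs_of_nonneg (by linarith), max_eq_left (by linarith : (m : ℝ) + 1 - s ≤ 0),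
          min_eq_right (by norm_num : (0 : ℝ) ≤ 1), min_eq_right (max_le zero_le_one (by linarith))]
        have h3 : 1 - (s - ((m : ℝ) + 1)) = (m : ℝ) + 1 + 1 - s := by ring
        rw [h3, zero_add]

theorem hatF_sum {m : ℕ} {t : ℝ} (h0 : 0 ≤ t) (h1 : t ≤ 1) :
    ∑ j ∈ Finset.range (m + 1), hatF m j t = 1 := by
  unfold hatF
  have hm : (m : ℝ) * t ≤ m := mul_le_of_le_one_right (Nat.cast_nonneg m) h1
  rw [hat_sum_aux m (by positivity), min_eq_left]
  exact le_max_of_le_right (by linarith)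

/-- approximation by piecewise affine functions -/
theorem hatF_approx {m : ℕ} (hm : 0 < m) {g : ℝ → ℝ} {e : ℝ} {t : ℝ} (h0 : 0 ≤ t) (h1 : t ≤ 1)
    (hg : ∀ j : ℕ, j ≤ m → |t - (j : ℝ) / m| ≤ 1 / m → |g t - g (j / m)| ≤ e) :
    |g t - ∑ j ∈ Finset.range (m + 1), g (j / m) * hatF m j t| ≤ e := by
  have h2 : g t - ∑ j ∈ Finset.range (m + 1), g (j / m) * hatF m j t =
      ∑ j ∈ Finset.range (m + 1), (g t - g (j / m)) * hatF m j t := by
    simp only [sub_mul]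
    rw [Finset.sum_sub_distrib, ← Finset.mul_sum, hatF_sum h0 h1, mul_one]
  have h3 : ∀ j ∈ Finset.range (m + 1), |(g t - g (j / m)) * hatF m j t| ≤ e * hatF m j t := by
    intro j hj
    rw [abs_mul, abs_of_nonneg (hatF_nonneg m j t)]
    by_cases h : hatF m j t = 0
    · rw [h, mul_zero, mul_zero]
    · exact mul_le_mul_of_nonneg_right (hg j (by simpa [Nat.lt_succ_iff] using hj) (hatF_supp hm h))
        (hatF_nonneg m j t)
  rw [h2]
  refine (Finset.abs_sum_le_sum_abs _ _).trans ((Finset.sum_le_sum h3).trans ?_)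
  rw [← Finset.mul_sum, hatF_sum h0 h1, mul_one]

/-- the box of the pairs of points -/
def boxK : Set (Pl × Pl) :=
  (Set.Icc (0 : ℝ) 1 ×ˢ Set.Icc (0 : ℝ) 1) ×ˢ (Set.Icc (2 : ℝ) 3 ×ˢ Set.Icc (0 : ℝ) 1)

theorem boxK_compact : IsCompact boxK :=
  (isCompact_Icc.prod isCompact_Icc).prod (isCompact_Icc.prod isCompact_Icc)

theorem boxK_mem {a b s t : ℝ} (ha : 0 ≤ a ∧ a ≤ 1) (hb : 2 ≤ b ∧ b ≤ 3) (hs : 0 ≤ s ∧ s ≤ 1)
    (ht : 0 ≤ t ∧ t ≤ 1) : (((a, s), (b, t)) : Pl × Pl) ∈ boxK :=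
  ⟨⟨ha, hs⟩, ⟨hb, ht⟩⟩

theorem boxK_unif (f : Pl × Pl →ᵇ ℝ) {e : ℝ} (he : 0 < e) : ∃ δ : ℝ, 0 < δ ∧
    ∀ z ∈ boxK, ∀ z' ∈ boxK, dist z z' < δ → |f z - f z'| ≤ e := by
  have h := boxK_compact.uniformContinuousOn_of_continuous f.continuous.continuousOn
  rw [Metric.uniformContinuousOn_iff] at h
  obtain ⟨δ, hδ, h⟩ := h e he
  refine ⟨δ, hδ, fun z hz z' hz' hd => ?_⟩
  have := h z hz z' hz' hd
  rw [Real.dist_eq] at this
  exact this.le

theorem tendsto_Q_glob {N' : ℕ} {τ' η : ℝ} (hN : 0 < N') (hτ : 0 < τ') (hτ1 : τ' ≤ 1) (hη : 0 < η)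
    (hη1 : 8 * η ≤ 1) : Tendsto (fun n => Q n {c | ¬ Glob N' τ' η n c}) atTop (𝓝 0) := by
  rw [ENNReal.tendsto_nhds_zero]
  intro ε hε
  rcases eq_or_ne ε ⊤ with h | h
  · exact Eventually.of_forall fun n => by rw [h]; exact le_top
  · obtain ⟨n₀, hn₀⟩ := glob_prob hN hτ hτ1 hη hη1 (ENNReal.toReal_pos hε.ne' h)
    refine eventually_atTop.2 ⟨n₀, fun n hn => ?_⟩
    have := hn₀ n hn
    rwa [ENNReal.ofReal_toReal h] at this

theorem smpLaw_le_Q (n : ℕ) (s : Set Conf) : smpLaw n {p | mk2 n n p ∈ s} ≤ Q n s :=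
  Measure.le_map_apply (measurable_mk2 n n).aemeasurable s

/-- integrals of `limPlan γ` -/
theorem integral_limPlan {γ : Measure (ℝ × ℝ)} [IsProbabilityMeasure γ] (f : Pl × Pl →ᵇ ℝ) :
    ∫ z, f z ∂(limPlan γ) =
      ∫ z, (∫ t in Set.Icc (0 : ℝ) 1, f ((z.1, t), (z.2, t))) ∂γ := by
  have := isProb_unit
  unfold limPlan
  rw [integral_map (by fun_prop) f.continuous.aestronglyMeasurable]
  rw [integral_prod]
  have h1 : Continuous fun q : (ℝ × ℝ) × ℝ => f ((q.1.1, q.2), (q.1.2, q.2)) := by fun_prop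
  exact Integrable.of_bound h1.aestronglyMeasurable ‖f‖
    (Eventually.of_forall fun q => f.norm_coe_le_norm _)

/-- the limit functional for the approximations -/
theorem limPlan_approx {γ : Measure (ℝ × ℝ)}
    [IsProbabilityMeasure γ] (hγ : γ (Set.Icc (0 : ℝ) 1 ×ˢ Set.Icc (2 : ℝ) 3)ᶜ = 0)
    (f : Pl × Pl →ᵇ ℝ) {e : ℝ} {m : ℕ}
    (hf : ∀ a b t, 0 ≤ a → a ≤ 1 → 2 ≤ b → b ≤ 3 → 0 ≤ t → t ≤ 1 →
      |f ((a, t), (b, t)) - ∑ j ∈ Finset.range (m + 1), f ((a, j / m), (b, j / m)) * hatF m j t|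
        ≤ e) :
    |∑ j ∈ Finset.range (m + 1), (∫ z, f ((z.1, j / m), (z.2, j / m)) ∂γ) *
      (∫ t in (0 : ℝ)..1, hatF m j t) - ∫ z, f z ∂(limPlan γ)| ≤ e := by
  have := isProb_unit
  rw [integral_limPlan f]
  have hc : ∀ j : ℕ, Continuous fun z : ℝ × ℝ => f ((z.1, (j : ℝ) / m), (z.2, (j : ℝ) / m)) :=
    fun j => by fun_prop
  have hi : ∀ j : ℕ, Integrable (fun z : ℝ × ℝ => f ((z.1, (j : ℝ) / m), (z.2, (j : ℝ) / m))) γ :=
    fun j => Integrable.of_bound (hc j).aestronglyMeasurable ‖f‖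
      (Eventually.of_forall fun q => f.norm_coe_le_norm _)
  have hI : ∀ j : ℕ, (∫ t in (0 : ℝ)..1, hatF m j t) = ∫ t in Set.Icc (0 : ℝ) 1, hatF m j t := by
    intro j
    rw [intervalIntegral.integral_of_le zero_le_one, integral_Icc_eq_integral_Ioc]
  have h1 : ∑ j ∈ Finset.range (m + 1), (∫ z, f ((z.1, j / m), (z.2, j / m)) ∂γ) *
      (∫ t in (0 : ℝ)..1, hatF m j t) =
      ∫ z, (∑ j ∈ Finset.range (m + 1), f ((z.1, j / m), (z.2, j / m)) *
        (∫ t in (0 : ℝ)..1, hatF m j t)) ∂γ := by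
    rw [integral_finsetSum _ fun j _ => (hi j).mul_const _]
    refine Finset.sum_congr rfl fun j _ => ?_
    rw [integral_mul_const]
  have hiF : Integrable (fun z : ℝ × ℝ => ∫ t in Set.Icc (0 : ℝ) 1, f ((z.1, t), (z.2, t))) γ := by
    have h1 : Continuous fun q : (ℝ × ℝ) × ℝ => f ((q.1.1, q.2), (q.1.2, q.2)) := by fun_prop
    have h2 : Integrable (fun q : (ℝ × ℝ) × ℝ => f ((q.1.1, q.2), (q.1.2, q.2)))
        (γ.prod (volume.restrict (Set.Icc (0 : ℝ) 1))) :=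
      Integrable.of_bound h1.aestronglyMeasurable ‖f‖
        (Eventually.of_forall fun q => f.norm_coe_le_norm _)
    exact h2.integral_prod_left
  have hiS : Integrable (fun z : ℝ × ℝ => ∑ j ∈ Finset.range (m + 1),
      f ((z.1, (j : ℝ) / m), (z.2, (j : ℝ) / m)) * (∫ t in (0 : ℝ)..1, hatF m j t)) γ :=
    integrable_finsetSum _ fun j _ => (hi j).mul_const _
  rw [h1, ← integral_sub hiS hiF]
  have hae : ∀ᵐ z ∂γ, ‖(∑ j ∈ Finset.range (m + 1),
      f ((z.1, (j : ℝ) / m), (z.2, (j : ℝ) / m)) * (∫ t in (0 : ℝ)..1, hatF m j t)) -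
        ∫ t in Set.Icc (0 : ℝ) 1, f ((z.1, t), (z.2, t))‖ ≤ e := by
    have h2 : ∀ᵐ z ∂γ, z ∈ Set.Icc (0 : ℝ) 1 ×ˢ Set.Icc (2 : ℝ) 3 := by
      rw [ae_iff]; exact hγ
    filter_upwards [h2] with z hz
    obtain ⟨⟨ha0, ha1⟩, ⟨hb2, hb3⟩⟩ := hz
    have hcj : ∀ j : ℕ, IntegrableOn (fun t => f ((z.1, (j : ℝ) / m), (z.2, (j : ℝ) / m)) *
        hatF m j t) (Set.Icc (0 : ℝ) 1) := fun j =>
      ((continuous_const.mul (hatF_uc m j).continuous).continuousOn).integrableOn_compact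
        isCompact_Icc
    have hcf : IntegrableOn (fun t => f ((z.1, t), (z.2, t))) (Set.Icc (0 : ℝ) 1) :=
      (Continuous.continuousOn (by fun_prop)).integrableOn_compact isCompact_Icc
    have h3 : (∑ j ∈ Finset.range (m + 1),
        f ((z.1, (j : ℝ) / m), (z.2, (j : ℝ) / m)) * (∫ t in (0 : ℝ)..1, hatF m j t)) =
        ∫ t in Set.Icc (0 : ℝ) 1, ∑ j ∈ Finset.range (m + 1),
          f ((z.1, (j : ℝ) / m), (z.2, (j : ℝ) / m)) * hatF m j t := by
      rw [integral_finsetSum _ fun j _ => hcj j]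
      refine Finset.sum_congr rfl fun j _ => ?_
      rw [hI j, integral_const_mul]
    rw [h3, ← integral_sub (integrable_finsetSum _ fun j _ => hcj j) hcf]
    have h4 : ∀ᵐ t ∂(volume.restrict (Set.Icc (0 : ℝ) 1)),
        ‖(∑ j ∈ Finset.range (m + 1),
          f ((z.1, (j : ℝ) / m), (z.2, (j : ℝ) / m)) * hatF m j t) -
            f ((z.1, t), (z.2, t))‖ ≤ e := by
      refine (ae_restrict_iff' measurableSet_Icc).2 (Eventually.of_forall fun t ht => ?_)
      rw [Real.norm_eq_abs, abs_sub_comm]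
      exact hf z.1 z.2 t ha0 ha1 hb2 hb3 ht.1 ht.2
    have h5 := norm_integral_le_of_norm_le_const h4
    simpa using h5
  have h6 := norm_integral_le_of_norm_le_const hae
  simpa using h6

/-- the deterministic estimate -/
theorem test_det {n m : ℕ} (hn : 0 < n) (f : Pl × Pl →ᵇ ℝ) {δ e κ : ℝ}
    (hf : ∀ z ∈ boxK, ∀ z' ∈ boxK, dist z z' < δ → |f z - f z'| ≤ e)
    (hF : ∀ a b t, 0 ≤ a → a ≤ 1 → 2 ≤ b → b ≤ 3 → 0 ≤ t → t ≤ 1 →
      |f ((a, t), (b, t)) - ∑ j ∈ Finset.range (m + 1), f ((a, j / m), (b, j / m)) * hatF m j t|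
        ≤ e) (hκ : 3 * κ < δ) {x y : Fin n → Pl} (hd : InDom n x y) (σ : Equiv.Perm (Fin n))
    (hs : ∀ i, |((y (σ i)).2 - (x i).2) / ((y (σ i)).1 - (x i).1)| ≤ κ * n) :
    |(∑ i, f (pr0 n x y σ i)) / n - ∑ j ∈ Finset.range (m + 1),
      avg n (fun z => f ((z.1, j / m), (z.2, j / m))) (hatF m j) x y σ| ≤ 2 * e := by
  have hn' : (0 : ℝ) < n := by exact_mod_cast hn
  have h1 : ∀ i, |f (pr0 n x y σ i) - ∑ j ∈ Finset.range (m + 1),
      f (((x i).1, j / m), ((y (σ i)).1, j / m)) * hatF m j ((x i).2 / n)| ≤ 2 * e := by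
    intro i
    have hx1 := hd.x1 i
    have hy1 := hd.y1 (σ i)
    have hx2 : 0 ≤ (x i).2 / n ∧ (x i).2 / n ≤ 1 := by
      have := hd.x2 i
      exact ⟨div_nonneg this.1.le hn'.le, (div_le_one hn').2 this.2⟩
    have hy2 : 0 ≤ (y (σ i)).2 / n ∧ (y (σ i)).2 / n ≤ 1 := by
      have := hd.y2 (σ i)
      exact ⟨div_nonneg this.1.le hn'.le, (div_le_one hn').2 this.2⟩
    have h2 := hF (x i).1 (y (σ i)).1 ((x i).2 / n) hx1.1 hx1.2 hy1.1 hy1.2 hx2.1 hx2.2
    have h3 : |f (pr0 n x y σ i) - f (((x i).1, (x i).2 / n), ((y (σ i)).1, (x i).2 / n))| ≤ e := by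
      refine hf _ (boxK_mem hx1 hy1 hx2 hy2) _ (boxK_mem hx1 hy1 hx2 hx2) ?_
      have hds : dist ((((x i).1, (x i).2 / n), ((y (σ i)).1, (y (σ i)).2 / n)) : Pl × Pl)
          (((x i).1, (x i).2 / n), ((y (σ i)).1, (x i).2 / n)) =
          |(y (σ i)).2 / n - (x i).2 / n| := by
        simp [Prod.dist_eq, Real.dist_eq]
      rw [hds]
      refine lt_of_le_of_lt ?_ hκ
      have h4 := hs i
      have h5 : 0 < (y (σ i)).1 - (x i).1 := by linarith
      rw [abs_div, abs_of_pos h5, div_le_iff₀ h5] at h4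
      have h6 : (y (σ i)).2 / n - (x i).2 / n = ((y (σ i)).2 - (x i).2) / n := by ring
      rw [h6, abs_div, abs_of_pos hn', div_le_iff₀ hn']
      have h7 : 0 ≤ κ * n := by
        by_contra h8
        push Not at h8
        exact absurd (hs i) (not_le.2 (lt_of_lt_of_le h8 (abs_nonneg _)))
      have h8 : κ * n * ((y (σ i)).1 - (x i).1) ≤ κ * n * 3 :=
        mul_le_mul_of_nonneg_left (by linarith) h7
      linarith
    have h4 := abs_le.1 h2
    have h5 := abs_le.1 h3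
    exact abs_le.2 ⟨by linarith, by linarith⟩
  have h2 : (∑ i, f (pr0 n x y σ i)) / n - ∑ j ∈ Finset.range (m + 1),
      avg n (fun z => f ((z.1, j / m), (z.2, j / m))) (hatF m j) x y σ =
      (∑ i, (f (pr0 n x y σ i) - ∑ j ∈ Finset.range (m + 1),
        f (((x i).1, j / m), ((y (σ i)).1, j / m)) * hatF m j ((x i).2 / n))) / n := by
    unfold avg
    rw [← Finset.sum_div, Finset.sum_comm, ← sub_div, ← Finset.sum_sub_distrib]
  rw [h2, abs_div, abs_of_pos hn', div_le_iff₀ hn']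
  refine (Finset.abs_sum_le_sum_abs _ _).trans ((Finset.sum_le_sum fun i _ => h1 i).trans ?_)
  rw [Finset.sum_const, Finset.card_univ, Fintype.card_fin, nsmul_eq_mul]
  linarith

/-- convergence for product test functions implies convergence for all bounded continuous test
functions -/
theorem conv_test {cost : ℕ → Pl → Pl → ℝ} (hc : GoodCost cost) {γ : Measure (ℝ × ℝ)}
    [IsProbabilityMeasure γ] (hγ : γ (Set.Icc (0 : ℝ) 1 ×ˢ Set.Icc (2 : ℝ) 3)ᶜ = 0)
    (h : ∀ f : ℝ × ℝ → ℝ, Continuous f → (∃ M, ∀ z, |f z| ≤ M) → LimPhi f (∫ z, f z ∂γ))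
    (f : Pl × Pl →ᵇ ℝ) {ε : ℝ} (hε : 0 < ε) :
    Tendsto (fun n => smpLaw n {p | ∃ σ : Equiv.Perm (Fin n),
      IsOptM (cost n) p.1 (fun i => p.2 (σ i)) ∧
        ε < |(∑ i, f (pr0 n p.1 p.2 σ i)) / n - ∫ z, f z ∂(limPlan γ)|}) atTop (𝓝 0) := by
  classical
  obtain ⟨δ, hδ, hfδ⟩ := boxK_unif f (show 0 < ε / 5 by positivity)
  obtain ⟨m₀, hm₀⟩ := exists_nat_gt (1 / δ)
  set m := m₀ + 1 with hm
  have hmpos : 0 < m := by omega
  have hm' : (0 : ℝ) < m := by exact_mod_cast hmpos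
  have hmδ : 1 / (m : ℝ) < δ := by
    rw [div_lt_iff₀ hm']
    rw [div_lt_iff₀ hδ] at hm₀
    have : (m : ℝ) = m₀ + 1 := by rw [hm]; push_cast; ring
    rw [this]
    nlinarith
  have hF : ∀ a b t, 0 ≤ a → a ≤ 1 → 2 ≤ b → b ≤ 3 → 0 ≤ t → t ≤ 1 →
      |f ((a, t), (b, t)) - ∑ j ∈ Finset.range (m + 1), f ((a, j / m), (b, j / m)) * hatF m j t|
        ≤ ε / 5 := by
    intro a b t ha0 ha1 hb2 hb3 ht0 ht1
    refine hatF_approx (g := fun t => f ((a, t), (b, t))) hmpos ht0 ht1 fun j hj hjt => ?_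
    have hj0 : (0 : ℝ) ≤ (j : ℝ) / m := by positivity
    have hj1 : (j : ℝ) / m ≤ 1 := (div_le_one hm').2 (by exact_mod_cast hj)
    refine hfδ _ (boxK_mem ⟨ha0, ha1⟩ ⟨hb2, hb3⟩ ⟨ht0, ht1⟩ ⟨ht0, ht1⟩) _
      (boxK_mem ⟨ha0, ha1⟩ ⟨hb2, hb3⟩ ⟨hj0, hj1⟩ ⟨hj0, hj1⟩) ?_
    have hds : dist (((a, t), (b, t)) : Pl × Pl) ((a, (j : ℝ) / m), (b, (j : ℝ) / m)) =
        |t - (j : ℝ) / m| := by
      simp [Prod.dist_eq, Real.dist_eq]
    rw [hds]
    exact lt_of_le_of_lt hjt hmδ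
  -- the slopes
  set e := min 1 δ with he
  have hepos : 0 < e := lt_min one_pos hδ
  have he1 : e ≤ 1 := min_le_left _ _
  have heδ : e ≤ δ := min_le_right _ _
  set η := glH e (1 / 2) with hη
  have hηpos : 0 < η := by rw [hη]; unfold glH glT glE; positivity
  have hE : glE e (1 / 2) = e / 32 := by unfold glE; ring
  have hT : glT e (1 / 2) = e / 3072 := by unfold glT glE; ring
  have hTpos : 0 < glT e (1 / 2) := by rw [hT]; positivity
  have hT1 : glT e (1 / 2) ≤ 1 := by rw [hT]; linarith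
  have hη8 : 8 * η ≤ 1 := by
    have h1 : (e / 32) ^ 3 ≤ 1 := pow_le_one₀ (by positivity) (by linarith)
    have h2 : (e / 3072) * (e / 32) ^ 3 ≤ 1 * 1 :=
      mul_le_mul (by linarith) h1 (by positivity) (by norm_num)
    rw [hη]; unfold glH
    rw [hT, hE]
    linarith
  obtain ⟨N', hN'⟩ := exists_nat_gt (3 / η)
  have hN3 : 3 ≤ η * N' := by
    rw [div_lt_iff₀ hηpos] at hN'
    linarith
  have hN0 : 0 < N' := by
    rcases Nat.eq_zero_or_pos N' with h0 | h0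
    · rw [h0] at hN3; norm_num at hN3
    · exact h0
  obtain ⟨n₀, hslope⟩ := slopes_small hc hepos he1 (θ := 1 / 2) (by norm_num) (by norm_num) hηpos
    le_rfl hN3
  -- the bad events
  set φ : ℕ → ℝ × ℝ → ℝ := fun j z => f ((z.1, (j : ℝ) / m), (z.2, (j : ℝ) / m)) with hφ
  set B : ℕ → ∀ n : ℕ, Set ((Fin n → Pl) × (Fin n → Pl)) := fun j n =>
    {p | ∃ σ : Equiv.Perm (Fin n), IsOptM (cost n) p.1 (fun i => p.2 (σ i)) ∧
      ε / (5 * (m + 1)) < |avg n (φ j) (hatF m j) p.1 p.2 σ -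
        (∫ z, φ j z ∂γ) * ∫ t in (0 : ℝ)..1, hatF m j t|} with hB
  have hBt : ∀ j, Tendsto (fun n => smpLaw n (B j n)) atTop (𝓝 0) := by
    intro j
    have hcj : Continuous (φ j) := by rw [hφ]; fun_prop
    exact h (φ j) hcj ⟨‖f‖, fun z => f.norm_coe_le_norm _⟩ cost hc (hatF m j) (hatF_uc m j)
      (hatF_nonneg m j) (hatF_le_one m j) _ (by positivity)
  have hQ := tendsto_Q_glob hN0 hTpos hT1 hηpos hη8
  have hlim : Tendsto (fun n => Q n {c | ¬ Glob N' (glT e (1 / 2)) η n c} +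
      ∑ j ∈ Finset.range (m + 1), smpLaw n (B j n)) atTop (𝓝 0) := by
    have h1 : Tendsto (fun n => ∑ j ∈ Finset.range (m + 1), smpLaw n (B j n)) atTop
        (𝓝 (∑ j ∈ Finset.range (m + 1), 0)) := tendsto_finsetSum _ fun j _ => hBt j
    rw [Finset.sum_const_zero] at h1
    simpa using hQ.add h1
  refine tendsto_of_tendsto_of_tendsto_of_le_of_le' tendsto_const_nhds hlim
    (Eventually.of_forall fun n => bot_le) (eventually_atTop.2 ⟨n₀ + 1, fun n hn => ?_⟩)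
  have hnpos : 0 < n := by omega
  have hsub : {p : (Fin n → Pl) × (Fin n → Pl) | ∃ σ : Equiv.Perm (Fin n),
      IsOptM (cost n) p.1 (fun i => p.2 (σ i)) ∧
        ε < |(∑ i, f (pr0 n p.1 p.2 σ i)) / n - ∫ z, f z ∂(limPlan γ)|} ⊆
      {p | ¬ InDom n p.1 p.2} ∪ ({p | mk2 n n p ∈ {c | ¬ Glob N' (glT e (1 / 2)) η n c}} ∪
        ⋃ j ∈ Finset.range (m + 1), B j n) := by
    rintro p ⟨σ, hopt, hbad⟩
    by_contra hnot
    simp only [Set.mem_union, Set.mem_ofPred_eq, Set.mem_iUnion, not_or, not_not, not_exists] at hnot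
    obtain ⟨hd, hG, hBn⟩ := hnot
    have hd' : InDom n p.1 (fun i => p.2 (σ i)) :=
      ⟨hd.x1, fun i => hd.y1 (σ i), hd.x2, fun i => hd.y2 (σ i)⟩
    have hmk : mk2 n n (p.1, fun i => p.2 (σ i)) = mk2 n n p := by
      unfold mk2
      rw [cfg_comp_perm]
    have hsl := hslope n (by omega) p.1 (fun i => p.2 (σ i)) hd' hopt (by rw [hmk]; exact hG)
    have h1 := test_det (κ := glE e (1 / 2)) hnpos f hfδ hF (by rw [hE]; linarith) hd σ hsl
    have h2 := limPlan_approx hγ f hF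
    have h3 : |∑ j ∈ Finset.range (m + 1), avg n (φ j) (hatF m j) p.1 p.2 σ -
        ∑ j ∈ Finset.range (m + 1), (∫ z, φ j z ∂γ) * ∫ t in (0 : ℝ)..1, hatF m j t| ≤ ε / 5 := by
      rw [← Finset.sum_sub_distrib]
      refine (Finset.abs_sum_le_sum_abs _ _).trans ?_
      have h4 : ∀ j ∈ Finset.range (m + 1), |avg n (φ j) (hatF m j) p.1 p.2 σ -
          (∫ z, φ j z ∂γ) * ∫ t in (0 : ℝ)..1, hatF m j t| ≤ ε / (5 * (m + 1)) := by
        intro j hj
        by_contra h5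
        push Not at h5
        exact hBn j hj ⟨σ, hopt, h5⟩
      refine (Finset.sum_le_sum h4).trans ?_
      rw [Finset.sum_const, Finset.card_range, nsmul_eq_mul]
      push_cast
      have : (m : ℝ) + 1 ≠ 0 := by positivity
      apply le_of_eq
      field_simp
    have h4 := abs_le.1 h1
    have h5 := abs_le.1 h2
    have h6 := abs_le.1 h3
    have h7 : |(∑ i, f (pr0 n p.1 p.2 σ i)) / n - ∫ z, f z ∂(limPlan γ)| ≤ ε :=
      abs_le.2 ⟨by linarith, by linarith⟩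
    linarith
  refine (measure_mono hsub).trans ((measure_union_le _ _).trans ?_)
  have h0 : smpLaw n {p | ¬ InDom n p.1 p.2} = 0 := ae_iff.1 (ae_inDom n)
  rw [h0, zero_add]
  exact (measure_union_le _ _).trans (add_le_add (smpLaw_le_Q n _)
    (measure_biUnion_finset_le _ _))

end Pool.Agent.H27.OTC
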